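import Mathlib
import Pool.Agent.Lib.MP_679d9b_al.PT.Main
import Pool.Agent.Lib.MP_679d9b_al.PT.Coef

/-!
Groups with a cover by finite groups over known simple groups: definitions and the statements of
the main steps.
-/

set_option autoImplicit false

namespace Pool.Agent.Lib.MP_679d9b_al.KG

open Subgroup Matrix
open scoped commutatorElement
open PT (SL PSL PEl QEl)

/-- The outer automorphism group is solvable. -/
def OutSolv (X : Type) [Group X] : Prop :=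
  ∃ n, derivedSeries (MulAut X) n ≤ (MulAut.conj : X →* MulAut X).range

/-- The rank of an endomorphism. -/
noncomputable def rk {K V : Type} [Field K] [AddCommGroup V] [Module K V] (T : Module.End K V) :
    ℕ := Module.finrank K (LinearMap.range T)

section Grp
variable {H S : Type} [Group H] [Group S]

/-- Nonabelian composition factors of `N` have solvable outer automorphism groups. -/
def Sch (N : Subgroup H) : Prop :=
  ∀ T : Subgroup H, T ≤ N → (T.subgroupOf N).IsSubnormal →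
    ∀ (X : Type) [Group X] [IsSimpleGroup X] (π : T →* X),
      Function.Surjective π → (∃ a b : X, ¬ Commute a b) → OutSolv X

/-- The least normal subgroup which is not inside the kernel. -/
structure Hd (φ : H →* S) (R : Subgroup H) : Prop where
  nrm : R.Normal
  perf : ⁅R, R⁆ = R
  ne : ∃ r ∈ R, φ r ≠ 1
  min : ∀ J : Subgroup H, (∀ r ∈ R, ∀ y ∈ J, r * y * r⁻¹ ∈ J) → ∀ y ∈ J, φ y ≠ 1 → R ≤ J

/-- The image of `g` moves a symmetric group of degree `k` to a commuting one. -/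
def SBig (φ : H →* S) (R : Subgroup H) (k : ℕ) (g : H) : Prop :=
  ∃ θ : Equiv.Perm (Fin k) →* S, Function.Injective θ ∧ (∀ a, ∃ r ∈ R, φ r = θ a) ∧
    ∀ a b, Commute (θ a) (φ g * θ b * (φ g)⁻¹)

/-- Some commutator of `g` with an element of `R` is large. -/
def Big (φ : H →* S) (R : Subgroup H) (k : ℕ) (g : H) : Prop := ∃ r ∈ R, SBig φ R k ⁅g, r⁆

/-- At least one in `c` elements of `P` conjugates `g` into `T`. -/
def Dn (c : ℕ) (P : Subgroup H) (g : H) (T : Subgroup H) : Prop :=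
  Nat.card P ≤ c * {m | m ∈ P ∧ m⁻¹ * g * m ∈ T}.ncard

/-- Fixed point ratio below `1 / c`. -/
def Low (R : Subgroup H) (g : H) (c : ℕ) : Prop := ∀ T : Subgroup H, Dn c R g T → R ≤ T

/-- No proper subgroup of small index. -/
def Sm (R : Subgroup H) (L : ℕ) : Prop := ∀ T : Subgroup H, T.relIndex R ≤ L → R ≤ T

/-- `g` moves many points wherever `R` acts nontrivially. -/
def Mov (R : Subgroup H) (g : H) (N : ℕ) : Prop :=
  ∀ (X : Type) [Finite X] [MulAction H X], (∃ r ∈ R, ∃ x : X, r • x ≠ x) →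
    N < {x : X | g • x ≠ x}.ncard

/-- No nontrivial representation of small degree. -/
def Lo (R : Subgroup H) (D : ℕ) : Prop :=
  ∀ (K V : Type) [Field K] [AddCommGroup V] [Module K V] [FiniteDimensional K V]
    (σ : R →* Module.End K V), Module.finrank K V ≤ D → ∀ r, σ r = 1

/-- `g` is far from scalars wherever `R` acts nontrivially. -/
def Rk (R : Subgroup H) (g : H) (N : ℕ) : Prop :=
  ∀ (T : Type) [Group T] (ι : T →* H), Function.Injective ι → R ≤ ι.range → ∀ g' : T, ι g' = g →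
    ∀ (K V : Type) [Field K] [AddCommGroup V] [Module K V] [FiniteDimensional K V]
      (ρ : T →* Module.End K V), (∃ r, ι r ∈ R ∧ ρ r ≠ 1) → ∀ t : K, N < rk (ρ g' - t • 1)

/-- Minimal among the normal subgroups which do not centralize `R`. -/
structure Mn (R A : Subgroup H) : Prop where
  nrm : A.Normal
  le : A ≤ R
  eq : ⁅A, R⁆ = A
  ne : A ≠ ⊥
  min : ∀ N : Subgroup H, N.Normal → N ≤ A → N ≤ centralizer (R : Set H) ∨ N = A

/-- Nilpotent type. -/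
def NilT (l : ℕ) (R A : Subgroup H) : Prop :=
  IsPGroup l A ∧ ⁅A, A⁆ ≤ centralizer (R : Set H) ∧ ∀ a ∈ A, a ^ l ∈ centralizer (R : Set H)

/-- Quasisimple subgroups. -/
structure Qs (L : Subgroup H) : Prop where
  perf : ⁅L, L⁆ = L
  ne : L ≠ ⊥
  qsi : ∀ N : Subgroup H, N ≤ L → (∀ x ∈ L, ∀ y ∈ N, x * y * x⁻¹ ∈ N) →
    N ≤ centralizer (L : Set H) ∨ N = L

/-- A conjugacy class of components, all moved by `R`. -/
structure Cs (R A : Subgroup H) {J : Type} [MulAction H J] (L : J → Subgroup H) : Prop where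
  conj : ∀ (h : H) (j : J), ∀ y ∈ L j, h * y * h⁻¹ ∈ L (h • j)
  comm : ∀ i j, i ≠ j → ∀ a ∈ L i, ∀ b ∈ L j, Commute a b
  sup : ⨆ j, L j = A
  qs : ∀ j, Qs (L j)
  trans : ∀ i j : J, ∃ h : H, h • i = j
  mov : ∀ j : J, ∃ r ∈ R, r • j ≠ j

end Grp

section Rep
variable {H K V : Type} [Group H] [Field K] [AddCommGroup V] [Module K V]

/-- The averaging operator of a subgroup. -/
noncomputable def av (ρ : H →* Module.End K V) (P : Subgroup H) : Module.End K V :=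
  (Nat.card P : K)⁻¹ • ∑ᶠ y : P, ρ y

/-- Fixed vectors. -/
def Fx (ρ : H →* Module.End K V) (P : Subgroup H) (v : V) : Prop := ∀ y ∈ P, ρ y v = v

/-- `P` fixes one vector and its average kills the other. -/
def Sep (ρ : H →* Module.End K V) (P : Subgroup H) (v w : V) : Prop :=
  (Fx ρ P v ∧ av ρ P w = 0) ∨ (av ρ P v = 0 ∧ Fx ρ P w)

/-- The type of a vector with respect to `D`. -/
def Ty (ρ : H →* Module.End K V) (D κ : Subgroup H) (v : V) : Prop :=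
  κ ≤ D ∧ Fx ρ κ v ∧ ∀ κ' : Subgroup H, κ < κ' → κ' ≤ D → av ρ κ' v = 0

/-- Invariant subspaces. -/
def Iv (ρ : H →* Module.End K V) (P : Subgroup H) (W : Submodule K V) : Prop :=
  ∀ y ∈ P, ∀ w ∈ W, ρ y w ∈ W

/-- The commutator space. -/
def Br (ρ : H →* Module.End K V) (P : Subgroup H) (W : Submodule K V) : Submodule K V :=
  Submodule.span K {x | ∃ y ∈ P, ∃ w ∈ W, x = ρ y w - w}

/-- No proper nonzero invariant subspace. -/
def Irr (ρ : H →* Module.End K V) : Prop :=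
  ∀ U : Submodule K V, (∀ g, ∀ v ∈ U, ρ g v ∈ U) → U = ⊥ ∨ U = ⊤

/-- A vector which is separated from its images under `Φ`. -/
def Pat (ρ : H →* Module.End K V) (R : Subgroup H) (Φ : Finset H) (v : V) : Prop :=
  v ≠ 0 ∧ ∃ P : H → Subgroup H,
    (∀ g ∈ Φ, P g ≤ R ∧ (Nat.card (P g) : K) ≠ 0 ∧ Sep ρ (P g) v (ρ g v)) ∧
      ∀ g ∈ Φ, ∀ g' ∈ Φ, ∀ x ∈ P g, ∀ y ∈ P g', x * y * x⁻¹ ∈ P g'

/-- Independent images which are orthogonal for all invariant forms. -/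
def Good (ρ : H →* Module.End K V) (R : Subgroup H) {ι : Type} (t : ι → H) (v : V) : Prop :=
  LinearIndependent K (fun i => ρ (t i) v) ∧
    ∀ (Q : Type) [AddCommGroup Q] (b : V →+ V →+ Q),
      (∀ r ∈ R, ∀ u w, b (ρ r u) (ρ r w) = b u w) →
        ∀ i i', i ≠ i' → b (ρ (t i) v) (ρ (t i') v) = 0

end Rep

section Forms
variable {K V : Type} [Field K] [AddCommGroup V] [Module K V]

/-- A nondegenerate alternating, hermitian or quadratic form. -/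
structure Frm (K V : Type) [Field K] [AddCommGroup V] [Module K V] where
  σ : K →+* K
  ε : K
  B : V →ₛₗ[σ] V →ₗ[K] K
  q : V → K
  τ : K →+ K
  σσ : ∀ a, σ (σ a) = a
  εε : ε = 1 ∨ ε = -1
  refl : ∀ x y, B y x = ε * σ (B x y)
  nd : ∀ x, (∀ y, B x y = 0) → x = 0
  qadd : ∀ x y, q (x + y) = q x + q y + τ (B x y)
  qsmul : ∀ (c : K) x, q (c • x) = σ c * c * q x
  sing : ∀ x, q x = 0 → B x x = 0
  lift : ∀ u y, q u = 0 → B u y = 1 → ∃ c : K, q (y - c • u) = 0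

/-- The isometry group. -/
def Frm.iso (Φ : Frm K V) : Subgroup (V ≃ₗ[K] V) where
  carrier := {g | (∀ x y, Φ.B (g x) (g y) = Φ.B x y) ∧ ∀ x, Φ.q (g x) = Φ.q x}
  one_mem' := ⟨fun _ _ => rfl, fun _ => rfl⟩
  mul_mem' := fun {a b} ha hb => ⟨fun x y => (ha.1 (b x) (b y)).trans (hb.1 x y),
    fun x => (ha.2 (b x)).trans (hb.2 x)⟩
  inv_mem' := fun {a} ha => ⟨fun x y => by
    have := ha.1 (a.symm x) (a.symm y)
    rw [a.apply_symm_apply, a.apply_symm_apply] at this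
    exact this.symm, fun x => by
    have := ha.2 (a.symm x)
    rw [a.apply_symm_apply] at this
    exact this.symm⟩

/-- General linear groups and isometry groups. -/
def IsCl (I : Subgroup (V ≃ₗ[K] V)) : Prop := I = ⊤ ∨ ∃ Φ : Frm K V, I = Φ.iso

/-- Scalar maps. -/
def Scal (y : V ≃ₗ[K] V) : Prop := ∃ c : K, ∀ v, y v = c • v

/-- Scalar multiples of elements of `I`. -/
def Nz (I : Subgroup (V ≃ₗ[K] V)) (y : V ≃ₗ[K] V) : Prop :=
  ∃ y0 ∈ I, ∃ c : K, ∀ v, y v = c • y0 v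

/-- Totally singular families. -/
def Frm.Ts (Φ : Frm K V) {ι : Type} (e : ι → V) : Prop :=
  (∀ i, Φ.q (e i) = 0) ∧ ∀ i j, Φ.B (e i) (e j) = 0

/-- Hyperbolic frames. -/
structure Frm.Fr (Φ : Frm K V) {ι : Type} [DecidableEq ι] (e f : ι → V) : Prop where
  te : Φ.Ts e
  tf : Φ.Ts f
  dual : ∀ i j, Φ.B (f i) (e j) = if i = j then 1 else 0

end Forms

/-- A special linear group inside `X` which is adapted to `Ψ` and `s`. -/
def GeoX {X : Type} [Group X] (Ψ : Finset X) (s : X) (M : ℕ) : Prop :=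
  ∃ (K : Type) (_ : Field K) (η : SL (Fin 2 ⊕ Fin M) K →* X), Function.Injective η ∧
    (∀ y ∈ Ψ, ∀ A : SL (Fin M) K, Commute y (η (PT.blkR (Fin 2) A))) ∧
    ∃ (E E' : X) (i j : Fin 2 ⊕ Fin M) (h : i ≠ j),
      η (SpecialLinearGroup.transvection h 1) = ⁅⁅s, E⁆, E'⁆

/-- Matrices with kernel above `U` and range inside `U1`. -/
def Hm {ι K : Type} [Fintype ι] [Field K] (U U1 : Submodule K (ι → K)) :
    Submodule K (Matrix ι ι K) where
  carrier := {ξ | (∀ u ∈ U, ξ *ᵥ u = 0) ∧ ∀ w, ξ *ᵥ w ∈ U1}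
  zero_mem' := ⟨fun u _ => zero_mulVec u, fun w => by rw [zero_mulVec]; exact U1.zero_mem⟩
  add_mem' := fun {a b} ha hb => ⟨fun u hu => by rw [add_mulVec, ha.1 u hu, hb.1 u hu, add_zero],
    fun w => by rw [add_mulVec]; exact U1.add_mem (ha.2 w) (hb.2 w)⟩
  smul_mem' := fun c a ha => ⟨fun u hu => by rw [smul_mulVec, ha.1 u hu, smul_zero],
    fun w => by rw [smul_mulVec]; exact U1.smul_mem c (ha.2 w)⟩

section Levels
variable {G : Type} [Group G]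

/-- Alternating levels with the Schreier property. -/
def SLv (L : Alt.Lv G) : Prop := Sch (L.φ.ker ⊓ Alt.R L.φ Finset.univ)

/-- Degrees are unbounded. -/
def NFs (G : Type) [Group G] : Prop :=
  ∀ F : Subgroup G, Finite F → ∀ N, ∃ L : Alt.Lv G, SLv L ∧ L.Deg F N

/-- Stabilisers with at most `k` elements occur arbitrarily late. -/
def Freqs (F0 : Subgroup G) (k : ℕ) : Prop :=
  ∀ F : Subgroup G, Finite F → F0 ≤ F → ∀ N, ∃ L : Alt.Lv G, SLv L ∧ L.Deg F N ∧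
    ∃ ω, (L.St F0 ω).ncard ≤ k

/-- A finite subgroup with a map onto a simple classical group. -/
structure CL (G : Type) [Group G] : Type 1 where
  H : Subgroup G
  K : Type
  V : Type
  X : Type
  [finH : Finite H]
  [fld : Field K]
  [fin : Finite K]
  [acg : AddCommGroup V]
  [mdl : Module K V]
  [fd : FiniteDimensional K V]
  [grp : Group X]
  [smp : IsSimpleGroup X]
  I : Subgroup (V ≃ₗ[K] V)
  cl : IsCl I
  π : (⁅I, I⁆ : Subgroup (V ≃ₗ[K] V)) →* X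
  πs : Function.Surjective π
  πk : ∀ y, π y = 1 ↔ Scal (y : V ≃ₗ[K] V)
  φ : H →* X
  φs : Function.Surjective φ
  sch : Sch φ.ker

attribute [instance] CL.finH CL.fld CL.fin CL.acg CL.mdl CL.fd CL.grp CL.smp

/-- The kernel meets `F` trivially. -/
def CL.Inj (L : CL G) (F : Subgroup G) : Prop :=
  F ≤ L.H ∧ ∀ h : L.H, (h : G) ∈ F → L.φ h = 1 → h = 1

/-- A lift of the image of `g` is within rank `N` of a scalar. -/
def CL.Small (L : CL G) (g : G) (N : ℕ) : Prop :=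
  ∃ (h : g ∈ L.H) (y : (⁅L.I, L.I⁆ : Subgroup (L.V ≃ₗ[L.K] L.V))) (t : L.K),
    L.π y = L.φ ⟨g, h⟩ ∧ rk (((y : L.V ≃ₗ[L.K] L.V) : Module.End L.K L.V) - t • 1) ≤ N

/-- All nontrivial elements of `F` are far from scalars. -/
def CL.Deg (L : CL G) (F : Subgroup G) (N : ℕ) : Prop :=
  F ≤ L.H ∧ ∀ f ∈ F, f ≠ 1 → ¬ L.Small f N

/-- A finite subgroup with a map onto a projective special linear group. -/
structure PL (G : Type) [Group G] : Type 1 where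
  H : Subgroup G
  n : ℕ
  K : Type
  [finH : Finite H]
  [fld : Field K]
  [fin : Finite K]
  φ : H →* PSL (Fin n) K
  R : Subgroup H
  hd : Hd φ R
  surj : R.map φ = ⊤
  sch : Sch (φ.ker ⊓ R)
  nt : (⁅φ.ker, R⁆ : Subgroup H) ≠ ⊥

attribute [instance] PL.finH PL.fld PL.fin

/-- All nontrivial elements of `F` are far from scalars. -/
def PL.Deg (P : PL G) (F : Subgroup G) (N : ℕ) : Prop :=
  F ≤ P.H ∧ ∀ h : P.H, (h : G) ∈ F → h ≠ 1 → ∀ (A : SL (Fin P.n) P.K) (t : P.K),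
    (A : PSL (Fin P.n) P.K) = P.φ h → N < (A.1 - t • 1).rank

/-- Linear groups. -/
def Lin (G : Type) [Group G] : Prop :=
  ∃ (K : Type) (_ : Field K) (n : ℕ) (ρ : G →* GL (Fin n) K), Function.Injective ρ

/-- Linear groups of degree at most `N`. -/
def LinN (N : ℕ) (G : Type) [Group G] : Prop :=
  ∃ (K : Type) (_ : Field K) (n : ℕ) (ρ : G →* GL (Fin n) K), n ≤ N ∧ Function.Injective ρ

end Levels

/-! Statements: finite groups. -/

/-- Elementary abelian quotients of linear `s`-groups in coprime characteristic. -/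
def JsStmt : Prop :=
  ∀ (s : ℕ) [Fact s.Prime] (P E K V : Type) [Group P] [Finite P] [Group E] [Field K]
    [AddCommGroup V] [Module K V] [FiniteDimensional K V] (σ : P →* Module.End K V) (ψ : P →* E)
    (D : ℕ), IsPGroup s P → (s : K) ≠ 0 → Module.finrank K V ≤ D → Function.Surjective ψ →
    (∀ y, σ y = 1 → ψ y = 1) → (∀ a b : E, Commute a b) → (∀ a : E, a ^ s = 1) →
    Nat.card E ≤ s ^ D * D.factorial

/-- Consequences of largeness. -/
def MrStmt : Prop :=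
  ∀ N : ℕ, ∃ k : ℕ, ∀ (H S : Type) [Group H] [Finite H] [Group S] (φ : H →* S) (R : Subgroup H)
    (g : H), Hd φ R → Big φ R k g → Rk R g N ∧ Lo R N ∧ Mov R g N ∧ Sm R N

/-- The bottom of the action of `R` on the kernel. -/
def AaStmt : Prop :=
  ∀ (H S : Type) [Group H] [Finite H] [Group S] (φ : H →* S) (R : Subgroup H), Hd φ R →
    Sch (φ.ker ⊓ R) → (⁅φ.ker, R⁆ : Subgroup H) ≠ ⊥ → ∃ A : Subgroup H, Mn R A ∧ A ≤ φ.ker ∧
      ((∃ l : ℕ, l.Prime ∧ NilT l R A) ∨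
        ∃ (J : Type) (_ : Finite J) (_ : MulAction H J) (L : J → Subgroup H), Cs R A L)

/-- An elementary abelian section as a module. -/
def QuotStmt : Prop :=
  ∀ (l : ℕ) [Fact l.Prime] (H T : Type) [Group H] [Finite H] [Group T] (ι : T →* H)
    (A Z : Subgroup H), Z ≤ A → ⁅A, A⁆ ≤ Z → (∀ a ∈ A, a ^ l ∈ Z) →
    (∀ t, ∀ a ∈ A, ι t * a * (ι t)⁻¹ ∈ A) → (∀ t, ∀ a ∈ Z, ι t * a * (ι t)⁻¹ ∈ Z) →
    ∃ (W : Type) (_ : AddCommGroup W) (_ : Module (ZMod l) W) (_ : Finite W) (π : H → W)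
      (ρ : T →* Module.End (ZMod l) W), (∀ w, ∃ a ∈ A, π a = w) ∧
      (∀ a ∈ A, ∀ b ∈ A, π (a * b) = π a + π b) ∧ (∀ a ∈ A, π a = 0 ↔ a ∈ Z) ∧
      ∀ t, ∀ a ∈ A, ρ t (π a) = π (ι t * a * (ι t)⁻¹)

/-- Dense conjugates and components. -/
def KercStmt : Prop :=
  ∀ c : ℕ, ∃ N : ℕ, ∀ (H : Type) [Group H] [Finite H] (R A T : Subgroup H) (J : Type) [Finite J]
    [MulAction H J] (L : J → Subgroup H) (g : H), Cs R A L → T ⊔ A = ⊤ → Sm R N → Mov R g N →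
    Dn c A g T → A ≤ T

/-- Dense conjugates and the kernel. -/
def KerStmt : Prop :=
  ∀ c : ℕ, ∃ k : ℕ, ∀ (H S : Type) [Group H] [Finite H] [Group S] (φ : H →* S) (R T : Subgroup H)
    (g : H), Hd φ R → Sch (φ.ker ⊓ R) → Big φ R k g → R.map φ ≤ T.map φ → Dn c R g T → R ≤ T

/-- Fixed point ratios lift through the kernel. -/
def McStmt : Prop :=
  ∀ c : ℕ, ∃ k : ℕ, ∀ (H S : Type) [Group H] [Finite H] [Group S] (φ : H →* S) (R : Subgroup H)
    (g : H), Hd φ R → Sch (φ.ker ⊓ R) → Big φ R k g → Low (R.map φ) (φ g) c → Low R g c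

/-- Fixed point free permutations have a small fixed point ratio. -/
def GfStmt : Prop :=
  ∀ c : ℕ, ∃ n : ℕ, ∀ (Ω : Type) [Fintype Ω] [DecidableEq Ω] (f : Equiv.Perm Ω),
    (∀ a, f a ≠ a) → n ≤ Fintype.card Ω → Low (alternatingGroup Ω) f c

/-- Permutations of large degree are large. -/
def BigAltStmt : Prop :=
  ∀ k : ℕ, ∃ n : ℕ, ∀ (H Ω : Type) [Group H] [Fintype Ω] [DecidableEq Ω] (R : Subgroup H),
    (∀ (φ : H →* Equiv.Perm Ω) (g : H) (Δ : Finset Ω), Alt.AltOn Δ ≤ R.map φ →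
      n ≤ ((φ g).support ∩ Δ).card → Big φ R k g) ∧
    ∀ (S : Type) [Group S] (φ : H →* S) (α : alternatingGroup Ω →* S), Function.Injective α →
      α.range ≤ R.map φ → n ≤ Fintype.card Ω → ∃ g ∈ R, Big φ R k g

/-! Statements: modules. -/

/-- Separated vectors are good. -/
def GvStmt : Prop :=
  ∀ (H K V ι : Type) [Group H] [Finite H] [Field K] [AddCommGroup V] [Module K V] [Finite ι]
    (ρ : H →* Module.End K V) (R : Subgroup H) (Φ : Finset H) (t : ι → H) (v : V), R.Normal →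
    Pat ρ R Φ v → (∀ i i', i ≠ i' → ∃ g ∈ Φ, ∃ z ∈ center H, (t i)⁻¹ * t i' = g * z) →
    Good ρ R t v

/-- A subspace with a maximal support. -/
def WiStmt : Prop :=
  ∀ (H K V J : Type) [Group H] [Field K] [AddCommGroup V] [Module K V] [Finite J]
    (ρ : H →* Module.End K V) (L : J → Subgroup H), (∀ j, ⁅L j, L j⁆ = L j) →
    (∀ i j, i ≠ j → ∀ a ∈ L i, ∀ b ∈ L j, Commute a b) → (∃ j, ∃ y ∈ L j, ρ y ≠ 1) →
    ∃ (W : Submodule K V) (I : Set J), W ≠ ⊥ ∧ I.Nonempty ∧ (∀ j, Iv ρ (L j) W) ∧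
      (∀ i ∈ I, W ≤ Br ρ (L i) W) ∧ ∀ j, j ∉ I → ∀ w ∈ W, Fx ρ (L j) w

/-- Patterns from commuting quasisimple groups. -/
def CorStmt : Prop :=
  ∀ (r : ℕ) [Fact r.Prime] (H K V I : Type) [Group H] [Finite H] [Field K] [AddCommGroup V]
    [Module K V] (ρ : H →* Module.End K V) (R : Subgroup H) (L : I → Subgroup H) (a : I → H)
    (W : Submodule K V) (Φ1 Φ2 Φ : Finset H) (σ : H → I) (τ : H → Fin 4 → I), (r : K) ≠ 0 →
    (∀ i, L i ≤ R ∧ Qs (L i) ∧ a i ∈ L i ∧ a i ∉ centralizer (L i : Set H) ∧ PEl r (a i)) →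
    (∀ i j, i ≠ j → ∀ x ∈ L i, ∀ y ∈ L j, Commute x y) → W ≠ ⊥ → (∀ i, Iv ρ (L i) W) →
    (∀ i, W ≤ Br ρ (L i) W) → (∀ g ∈ Φ, g ∈ Φ1 ∨ g ∈ Φ2) →
    (∀ g ∈ Φ1, ∀ w ∈ W, ρ (a (σ g)) (ρ g w) = ρ g w) →
    (∀ g ∈ Φ2, g⁻¹ * a (τ g 0) * g = a (τ g 2) ∧ g⁻¹ * a (τ g 1) * g = a (τ g 3)) →
    (∀ g ∈ Φ2, ∀ g' ∈ Φ2, ∀ m m', τ g m = τ g' m' → g = g' ∧ m = m') →
    (∀ g ∈ Φ1, ∀ g' ∈ Φ2, ∀ m, σ g ≠ τ g' m) → ∃ v, Pat ρ R Φ v

/-- The component case. -/
def CmpStmt : Prop :=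
  ∀ n : ℕ, ∃ c : ℕ, ∀ (l : ℕ) [Fact l.Prime] (H K V J : Type) [Group H] [Finite H] [Field K]
    [CharP K l] [AddCommGroup V] [Module K V] [Finite J] [MulAction H J]
    (ρ : H →* Module.End K V) (R A : Subgroup H) (L : J → Subgroup H) (Φ : Finset H), R.Normal →
    A ≤ R → Cs R A L → (∃ y ∈ A, ρ y ≠ 1) → Φ.card ≤ n → (∀ g ∈ Φ, Low R g c) → Sm R c →
    ∃ v, Pat ρ R Φ v

/-- The case of a central extension of an alternating group. -/
def CenStmt : Prop :=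
  ∀ (F : Type) [Group F] [Finite F], ∃ n : ℕ, ∀ (l : ℕ) [Fact l.Prime] (H K V Ω : Type) [Group H]
    [Finite H] [Field K] [CharP K l] [AddCommGroup V] [Module K V] [Fintype Ω] [DecidableEq Ω]
    (ρ : H →* Module.End K V) (φ : H →* Equiv.Perm Ω) (j : F →* H) (Φ : Finset H),
    alternatingGroup Ω ≤ φ.range → (∀ f a, φ (j f) a = a → f = 1) →
    n ≤ Fintype.card Ω → (⁅φ.ker, Alt.R φ Finset.univ⁆ : Subgroup H) = ⊥ →
    (∃ r ∈ Alt.R φ Finset.univ, ρ r ≠ 1) → (∀ g ∈ Φ, ∃ f, f ≠ 1 ∧ g = j f) →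
    ∃ v, Pat ρ (Alt.R φ Finset.univ) Φ v

/-- The abelian case. -/
def AbStmt : Prop :=
  ∀ (r : ℕ) [Fact r.Prime] (H K V : Type) [Group H] [Finite H] [Field K] [AddCommGroup V]
    [Module K V] (ρ : H →* Module.End K V) (R A : Subgroup H) (Φ : Finset H) (c : ℕ),
    (r : K) ≠ 0 → Function.Injective ρ → Irr ρ → R.Normal → ⁅R, R⁆ = R → Mn R A →
    IsPGroup r A → (∀ a ∈ A, ∀ b ∈ A, Commute a b) → Φ.card ≤ c → (∀ g ∈ Φ, Low R g c) →
    ∃ v, Pat ρ R Φ v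

/-- Generic subspaces over a finite field. -/
def ZzStmt : Prop :=
  ∀ c y m : ℕ, ∃ N : ℕ, ∀ (K X ι : Type) [Field K] [Finite K] [AddCommGroup X] [Module K X]
    [FiniteDimensional K X] [Finite ι] (g : ι → Module.End K X) (Y X0 : Submodule K X),
    Nat.card ι ≤ c → Module.finrank K Y ≤ y → Module.finrank K X ≤ Module.finrank K X0 + y →
    N < Module.finrank K X → (∀ i, ∀ t : K, N < rk (g i - t • 1)) →
    ∃ Z : Submodule K X, Z ≤ X0 ∧ Module.finrank K Z = m ∧ Disjoint Z Y ∧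
      ∀ i, ∀ z ∈ Z, ∀ z' ∈ Z, z + g i z' ∈ Y → z = 0 ∧ z' = 0

/-- Common zeros of additive quadratic maps over a finite field. -/
def CwStmt : Prop :=
  ∀ (K X ι : Type) [Field K] [Finite K] [AddCommGroup X] [Module K X] [FiniteDimensional K X]
    [Finite ι] (q : ι → X → K) (b : ι → X →+ X →+ K),
    (∀ i x y, q i (x + y) = q i x + q i y + b i x y) → 2 * Nat.card ι < Module.finrank K X → ∃ v, v ≠ 0 ∧ ∀ i, q i v = 0

/-- Isotropic generic vectors. -/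
def GenStmt : Prop :=
  ∀ n : ℕ, ∃ N : ℕ, ∀ (K W ι : Type) [Field K] [Finite K] [AddCommGroup W] [Module K W]
    [FiniteDimensional K W] [Finite ι] (β : LinearMap.BilinForm K W) (g : ι → Module.End K W),
    β.IsAlt → Nat.card ι ≤ n → (∀ i, ∀ t : K, N < rk (g i - t • 1)) →
    ∃ w : ι → W, LinearIndependent K (Sum.elim w fun i => g i (w i)) ∧
      ∀ a b : ι ⊕ ι, β (Sum.elim w (fun i => g i (w i)) a) (Sum.elim w (fun i => g i (w i)) b) = 0

/-- The extraspecial case. -/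
def ExtStmt : Prop :=
  ∀ n : ℕ, ∃ N : ℕ, ∀ (r : ℕ) [Fact r.Prime] (H K V : Type) [Group H] [Finite H] [Field K]
    [AddCommGroup V] [Module K V] (ρ : H →* Module.End K V) (R A : Subgroup H) (Φ : Finset H),
    (r : K) ≠ 0 → Function.Injective ρ → Irr ρ → R.Normal → Mn R A → NilT r R A →
    (∃ a ∈ A, ∃ b ∈ A, ¬ Commute a b) → Φ.card ≤ n → (∀ g ∈ Φ, Rk R g N) → ∃ v, Pat ρ R Φ v

/-- Good vectors in irreducible modules on which the kernel is seen. -/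
def RegStmt : Prop :=
  ∀ n : ℕ, ∃ k c : ℕ, ∀ (l : ℕ) [Fact l.Prime] (H S K V ι : Type) [Group H] [Finite H] [Group S]
    [Field K] [CharP K l] [AddCommGroup V] [Module K V] [Finite ι] (φ : H →* S) (R : Subgroup H)
    (ρ : H →* Module.End K V) (Φ : Finset H) (t : ι → H), Hd φ R → Sch (φ.ker ⊓ R) → Irr ρ →
    (∃ y ∈ (⁅φ.ker, R⁆ : Subgroup H), ρ y ≠ 1) → Φ.card ≤ n → Φ.Nonempty →
    (∀ g ∈ Φ, Big φ R k g ∧ Low (R.map φ) (φ g) c) →
    (∀ i i', i ≠ i' → ∃ g ∈ Φ, ∃ z ∈ center H, (t i)⁻¹ * t i' = g * z) → ∃ v, Good ρ R t v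

/-- Good vectors over an alternating group. -/
def RaltStmt : Prop :=
  ∀ (F : Type) [Group F] [Finite F] [Nontrivial F], ∃ n : ℕ, ∀ (l : ℕ) [Fact l.Prime]
    (H K V Ω : Type) [Group H] [Finite H] [Field K] [CharP K l] [AddCommGroup V] [Module K V]
    [Fintype Ω] [DecidableEq Ω] (ρ : H →* Module.End K V) (φ : H →* Equiv.Perm Ω) (j : F →* H),
    alternatingGroup Ω ≤ φ.range → Sch (φ.ker ⊓ Alt.R φ Finset.univ) →
    (∀ f a, φ (j f) a = a → f = 1) → n ≤ Fintype.card Ω → Irr ρ →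
    (∃ r ∈ Alt.R φ Finset.univ, ρ r ≠ 1) → ∃ v, Good ρ (Alt.R φ Finset.univ) j v

/-! Statements: alternating type. -/

/-- The main finite lemma for a free action. -/
def Ml0Stmt : Prop :=
  ∀ (F : Type) [Group F] [Finite F], ∃ n : ℕ, ∀ (H Ω : Type) [Group H] [Finite H] [Fintype Ω]
    [DecidableEq Ω] (φ : H →* Equiv.Perm Ω) (j : F →* H), alternatingGroup Ω ≤ φ.range →
    Sch (φ.ker ⊓ Alt.R φ Finset.univ) → (∀ f a, φ (j f) a = a → f = 1) → n ≤ Fintype.card Ω →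
    ∀ (F' : Subgroup F) (g : F), g ∉ F' →
      ∃ c : H, (∀ f ∈ F', Commute (j f) c) ∧ ¬ Commute (j g) c

/-- Regular alternating type. -/
def RichStmt : Prop :=
  ∀ (G : Type) [Group G] [Infinite G], Alt.LF G → (∀ F0 : Subgroup G, Finite F0 → Freqs F0 1) →
    ∀ (x : G) (d : ℕ), ¬ Alt.NoChain x d

/-- Point stabilisers of a later level are giants. -/
def KeyStmt : Prop :=
  ∀ (F : Type) [Group F] [Fintype F], ∃ N : ℕ, ∀ (H Ω Ω2 : Type) [Group H] [Finite H] [Fintype Ω]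
    [DecidableEq Ω] (φ : H →* Equiv.Perm Ω) (ψ : H →* Equiv.Perm Ω2) (j : F →* H) (a : Ω) (e : F),
    alternatingGroup Ω ≤ φ.range → Sch (φ.ker ⊓ Alt.R φ Finset.univ) → e ≠ 1 → φ (j e) a = a →
    (∀ f, f ≠ 1 → N ≤ (φ (j f)).support.card) →
    (∀ ω, (∃ f, ψ (j f) ω = ω ∧ φ (j f) a ≠ a) ∨ ψ (j e) ω = ω) →
    ∀ ω, ∃ Λ : Finset Ω, Λᶜ.card ≤ 1 ∧ 5 ≤ Λ.card ∧ ∀ y ∈ Alt.R φ Λ, ψ y ω = ω

/-- Chains from points with a common stabiliser. -/
def ChainStmt : Prop :=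
  ∀ (H Ω Ω2 : Type) [Group H] [Finite H] [Fintype Ω] [DecidableEq Ω] [Finite Ω2]
    (φ : H →* Equiv.Perm Ω) (ψ : H →* Equiv.Perm Ω2) (x : H) (d k N : ℕ),
    alternatingGroup Ω ≤ φ.range → Function.Injective ψ →
    (∀ ω, ∃ Λ : Finset Ω, Λᶜ.card ≤ 1 ∧ 5 ≤ Λ.card ∧ ∀ y ∈ Alt.R φ Λ, ψ y ω = ω) →
    {ω | {z | z ∈ zpowers x ∧ ψ z ω = ω}.ncard < k}.ncard ≤ N →
    5 * orderOf x * (d + 1) + N ≤ {a | {z | z ∈ zpowers x ∧ φ z a = a}.ncard = k}.ncard →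
    ¬ Alt.NoChain x d

/-- Alternating type. -/
def AltStmt : Prop :=
  ∀ (G : Type) [Group G] [Infinite G] [IsSimpleGroup G], Alt.LF G →
    (∀ F : Subgroup G, Finite F → ∃ L : Alt.Lv G, SLv L ∧ L.Deg F 1) →
    ∀ (x : G) (d : ℕ), ¬ Alt.NoChain x d

/-! Statements: geometry. -/

/-- The special linear group of a hyperbolic frame. -/
def EtaStmt : Prop :=
  ∀ (K V ι : Type) [Field K] [AddCommGroup V] [Module K V] [Fintype ι] [DecidableEq ι]
    (Φ : Frm K V) (e f : ι → V), Φ.Fr e f → ∃ η : SL ι K →* (V ≃ₗ[K] V), (∀ A, η A ∈ Φ.iso) ∧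
      (∀ A j, η A (e j) = ∑ i, A.1 i j • e i) ∧
      (∀ A v, (∀ i, Φ.B (e i) v = 0) → η A v - v ∈ Submodule.span K (Set.range e)) ∧
      (∀ A v, η A v - v ∈ Submodule.span K (Set.range e) ⊔ Submodule.span K (Set.range f)) ∧
      ∀ (i j : ι) (h : i ≠ j) (c : K) v, η (SpecialLinearGroup.transvection h c) v =
        v + (c * Φ.B (f j) v) • e i - (Φ.ε * Φ.σ c * Φ.B (e i) v) • f j

/-- Existence of hyperbolic frames. -/
def FrameStmt : Prop :=
  (∀ (K V ι1 ι2 : Type) [Field K] [AddCommGroup V] [Module K V] [FiniteDimensional K V]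
    [Finite ι1] [Finite ι2] [DecidableEq ι1] [DecidableEq ι2] (Φ : Frm K V) (e f : ι1 → V)
    (e' : ι2 → V), Φ.Fr e f → Φ.Ts e' → LinearIndependent K e' →
    (∀ i j, Φ.B (e i) (e' j) = 0 ∧ Φ.B (f i) (e' j) = 0) →
    ∃ f' : ι2 → V, Φ.Fr (Sum.elim e' e) (Sum.elim f' f)) ∧
  ∀ y m : ℕ, ∃ n : ℕ, ∀ (K V : Type) [Field K] [Finite K] [AddCommGroup V] [Module K V]
    [FiniteDimensional K V] (Φ : Frm K V) (Y : Submodule K V), Module.finrank K Y ≤ y →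
    n ≤ Module.finrank K V → ∃ e f : Fin m → V, Φ.Fr e f ∧
      ∀ i, ∀ u ∈ Y, Φ.B u (e i) = 0 ∧ Φ.B u (f i) = 0

/-- Geometry for elements of bounded rank. -/
def GeoFStmt : Prop :=
  ∀ c N M : ℕ, ∃ n : ℕ, ∀ (K V : Type) [Field K] [Finite K] [AddCommGroup V] [Module K V]
    [FiniteDimensional K V] (I : Subgroup (V ≃ₗ[K] V)) (Y : Finset (V ≃ₗ[K] V)) (s : V ≃ₗ[K] V),
    IsCl I → 1 ≤ M → n ≤ Module.finrank K V → Y.card ≤ c → s ∈ Y → s ≠ 1 →
    (∀ y ∈ Y, Nz I y ∧ rk ((y : Module.End K V) - 1) ≤ N) →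
    ∃ η : SL (Fin 2 ⊕ Fin M) K →* (V ≃ₗ[K] V), (∀ A, η A ∈ ⁅I, I⁆) ∧ (∀ A, Scal (η A) → A = 1) ∧
      (∀ y ∈ Y, ∀ A : SL (Fin M) K, Commute y (η (PT.blkR (Fin 2) A))) ∧
      ∃ E ∈ ⁅I, I⁆, ∃ E' ∈ ⁅I, I⁆, ∃ (i j : Fin 2 ⊕ Fin M) (h : i ≠ j),
        η (SpecialLinearGroup.transvection h 1) = ⁅⁅s, E⁆, E'⁆

/-- Geometry for finite groups of elements of large rank. -/
def GeoRStmt : Prop :=
  ∀ c N : ℕ, ∃ n : ℕ, ∀ (K V F : Type) [Field K] [Finite K] [AddCommGroup V] [Module K V]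
    [FiniteDimensional K V] [Group F] [Finite F] (I : Subgroup (V ≃ₗ[K] V)) (y : F → V ≃ₗ[K] V),
    IsCl I → Nat.card F ≤ c → n ≤ Module.finrank K V → (∀ f, y f ∈ I) →
    (∀ f f', Scal ((y (f * f'))⁻¹ * (y f * y f'))) →
    (∀ f, f ≠ 1 → ∀ t : K, n < rk ((y f : Module.End K V) - t • 1)) →
    ∃ (m : ℕ) (e : Fin m → V) (U U' : Submodule K V) (η : SL (Fin m) K →* (V ≃ₗ[K] V)),
      N ≤ m ∧ LinearIndependent K e ∧ U = Submodule.span K (Set.range e) ∧ U ≤ U' ∧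
      (∀ f, ∀ u ∈ U, y f u ∈ U) ∧
      (∀ f, f ≠ 1 → ∀ t : K,
        N < Module.finrank K (U.map ((y f : Module.End K V) - t • 1))) ∧
      (∀ g ∈ I, (∀ u ∈ U, g u ∈ U) → (∀ u ∈ U', g u ∈ U') ∧
        ((∃ c : K, ∀ u ∈ U, g u = c • u) → ∃ c : K, ∀ v, g v - c • v ∈ U')) ∧
      (∀ A, η A ∈ ⁅I, I⁆) ∧ (∀ A j, η A (e j) = ∑ i, A.1 i j • e i) ∧
      (∀ A, ∀ u ∈ U', η A u - u ∈ U) ∧
      ∀ a ∈ U, a ≠ 0 → ∃ z ∈ ⁅I, I⁆, (∀ u ∈ U, z u = u) ∧ rk ((z : Module.End K V) - 1) ≤ 2 ∧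
        LinearMap.range ((z : Module.End K V) - 1) ⊓ U = Submodule.span K {a}

/-- From classical levels to linear levels. -/
def ResStmt : Prop :=
  ∀ c N : ℕ, ∃ n : ℕ, ∀ (G : Type) [Group G] (L : CL G) (F : Subgroup G) [Finite F], F ≠ ⊥ →
    Nat.card F ≤ c → L.Deg F n → ∃ P : PL G, P.Deg ⁅F, F⁆ N

/-- Matrices far from scalars are large. -/
def BigPslStmt : Prop :=
  ∀ k : ℕ, ∃ N : ℕ, ∀ (H ι K : Type) [Group H] [Fintype ι] [DecidableEq ι] [Field K] [Finite K]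
    (φ : H →* PSL ι K) (R : Subgroup H) (g : H) (A : SL ι K), R.map φ = ⊤ →
    (A : PSL ι K) = φ g → (∀ t : K, N < (A.1 - t • 1).rank) → Big φ R k g

/-- Subgroups with many transvections. -/
def StrStmt : Prop :=
  ∀ (ι K : Type) [Fintype ι] [DecidableEq ι] [Nontrivial ι] [Field K] (T : Subgroup (SL ι K))
    (e y : ℕ) (𝓕 : Set (Submodule K (ι → K) × Submodule K (ι → K))),
    (∀ p ∈ 𝓕, p.1 ≤ p.2 ∧ Module.finrank K p.2 + e ≤ y ∧ e < Module.finrank K p.1 ∧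
      ∃ Q : Submodule K (Matrix ι ι K), Q ≤ Hm p.2 p.1 ∧
        Module.finrank K (Hm p.2 p.1) ≤ Module.finrank K Q + e ∧
        ∀ A : SL ι K, A.1 - 1 ∈ Q → A ∈ T) →
    (∀ Y : Submodule K (ι → K), Module.finrank K Y ≤ y → ∃ p ∈ 𝓕, Disjoint p.2 Y) →
    (∀ Y : Submodule K (ι → K), Y ≠ ⊤ → ∃ p ∈ 𝓕, ¬ p.1 ≤ Y) → T = ⊤

/-- Reduction to elements of bounded rank. -/
def P1Stmt : Prop :=
  ∀ c : ℕ, ∃ c' : ℕ, ∀ m : ℕ, ∃ N : ℕ, ∀ (ι K : Type) [Fintype ι] [DecidableEq ι] [Field K]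
    [Finite K] (A : SL ι K) (T : Subgroup (SL ι K)), (∀ t : K, N < (A.1 - t • 1).rank) →
    Dn c ⊤ A T → ∃ g : SL ι K, m ≤ (g.1 - 1).rank ∧ (g.1 - 1).rank ≤ 4 * m ∧ Dn c' ⊤ g T

/-- Matrices far from scalars have a small fixed point ratio. -/
def PmcStmt : Prop :=
  ∀ c : ℕ, ∃ N : ℕ, ∀ (ι K : Type) [Fintype ι] [DecidableEq ι] [Field K] [Finite K] (A : SL ι K),
    (∀ t : K, N < (A.1 - t • 1).rank) → Low (⊤ : Subgroup (PSL ι K)) (A : PSL ι K) c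

/-- A free orbit at a later level. -/
def LocStmt : Prop :=
  ∀ c : ℕ, ∃ N : ℕ, ∀ (G : Type) [Group G] (P1 P2 : PL G) (F : Subgroup G) [Finite F] (l : ℕ)
    [Fact l.Prime] [CharP P2.K l], F ≠ ⊥ → Nat.card F ≤ c → P1.Deg F N → P2.Deg P1.H 0 →
    ¬ IsPGroup l (⁅P1.φ.ker, P1.R⁆ : Subgroup P1.H) →
    ∃ (A : F → SL (Fin P2.n) P2.K) (v : Fin P2.n → P2.K),
      (∀ (f : F) (h : (f : G) ∈ P2.H), (A f : PSL (Fin P2.n) P2.K) = P2.φ ⟨f, h⟩) ∧
      LinearIndependent P2.K fun f => (A f).1 *ᵥ v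

/-- From a free orbit to an alternating level. -/
def AlvStmt : Prop :=
  ∀ (G : Type) [Group G] (P : PL G) (F : Subgroup G) [Finite F] (A : F → SL (Fin P.n) P.K)
    (v : Fin P.n → P.K), F ≤ P.H → 5 ≤ Nat.card F →
    (∀ (f : F) (h : (f : G) ∈ P.H), (A f : PSL (Fin P.n) P.K) = P.φ ⟨f, h⟩) →
    (LinearIndependent P.K fun f => (A f).1 *ᵥ v) → ∃ L : Alt.Lv G, SLv L ∧ L.Deg F 1

/-! Statements: the finitary case. -/

/-- The only composition factor on which `s` acts. -/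
def TopStmt : Prop :=
  ∀ (l : ℕ) [Fact l.Prime] (H K W : Type) [Group H] [Finite H] [Field K] [CharP K l]
    [AddCommGroup W] [Module K W] [FiniteDimensional K W] (ρ : H →* Module.End K W) (s : H),
    Function.Injective ρ → s ≠ 1 → QEl l s →
    (∀ (V : Type) [AddCommGroup V] [Module K V] [FiniteDimensional K V]
      (σ : H →* Module.End K V), σ s ≠ 1 → rk (ρ s - 1) ≤ rk (σ s - 1)) →
    ∃ (V : Type) (_ : AddCommGroup V) (_ : Module K V) (_ : FiniteDimensional K V)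
      (σ : H →* Module.End K V), Irr σ ∧ σ s ≠ 1 ∧ rk (σ s - 1) ≤ rk (ρ s - 1) ∧
      (∀ y ∈ normalClosure {s}, σ y = 1 → PEl l y) ∧
      ∀ t ∈ normalClosure {s}, ∀ t' ∈ normalClosure {s}, QEl l t → QEl l t' →
        (σ t - 1) * (σ t' - 1) = 0 → (σ t' - 1) * (σ t - 1) = 0 → Commute t t'

/-- An element of small rank forces the kernel to centralize `R`. -/
def RkStmt : Prop :=
  ∀ N : ℕ, ∃ D : ℕ, ∀ (l : ℕ) [Fact l.Prime] (H S K V : Type) [Group H] [Finite H] [Group S]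
    [Field K] [CharP K l] [AddCommGroup V] [Module K V] [FiniteDimensional K V] (φ : H →* S)
    (R : Subgroup H) (ρ : H →* Module.End K V) (s : H), Hd φ R → Sch (φ.ker ⊓ R) →
    Function.Injective ρ → Irr ρ → φ s ≠ 1 → rk (ρ s - 1) ≤ N → Mov R s D → Sm R D → Lo R D →
    (⁅φ.ker, R⁆ : Subgroup H) = ⊥

/-- Elements of a classical group of large degree move many points. -/
def MdsStmt : Prop :=
  ∀ L : ℕ, ∃ M0 : ℕ, ∀ (M : ℕ) (H X : Type) [Group H] [Finite H] [Group X] (φ : H →* X)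
    (R : Subgroup H) (s : H) (Ψ : Finset X), M0 ≤ M → Hd φ R → Function.Surjective φ →
    GeoX Ψ (φ s) M → Mov R s L

open Classical in
/-- The local lemma in the finitary case. -/
def FlocStmt : Prop :=
  ∀ N d : ℕ, ∃ M : ℕ, 1 ≤ M ∧ ∀ (l : ℕ) [Fact l.Prime] (H X K W : Type) [Group H] [Finite H]
    [Group X] [IsSimpleGroup X] [Field K] [CharP K l] [AddCommGroup W] [Module K W]
    [FiniteDimensional K W]
    (φ : H →* X) (ρ : H →* Module.End K W) (s x : H) (Ψ : Finset H), Function.Surjective φ →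
    Sch φ.ker → Function.Injective ρ → QEl l s → rk (ρ s - 1) ≤ N →
    (∀ (V : Type) [AddCommGroup V] [Module K V] [FiniteDimensional K V]
      (σ : H →* Module.End K V), σ s ≠ 1 → rk (ρ s - 1) ≤ rk (σ s - 1)) →
    (∀ y ∈ Ψ, IsConj s y) → x ∈ closure (Ψ : Set H) → GeoX (Ψ.image φ) (φ s) M →
    ¬ Alt.NoChain x d

/-- Finitary classical type. -/
def FinCStmt : Prop :=
  ∀ (G : Type) [Group G] [Infinite G] [IsSimpleGroup G], Alt.LF G → ∀ (f : G) (N : ℕ), f ≠ 1 →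
    (∀ F : Subgroup G, Finite F → ∀ n, ∃ L : CL G, L.Inj F ∧ n ≤ Module.finrank L.K L.V ∧
      L.Small f N) → ∀ (x : G) (d : ℕ), ¬ Alt.NoChain x d

/-- Bounded degree. -/
def LinStmt : Prop :=
  (∀ (G : Type) [Group G] (N : ℕ), Alt.LF G → (∀ F : Subgroup G, Finite F → LinN N F) → Lin G) ∧
  (∀ (G : Type) [Group G] [Finite G], Lin G) ∧
  ∀ (G : Type) [Group G] (L : CL G), LinN (Module.finrank L.K L.V * Module.finrank L.K L.V) L.X

/-- The three kinds of forms. -/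
def ConvStmt : Prop :=
  ∀ (K V : Type) [Field K] [AddCommGroup V] [Module K V] (I : Subgroup (V ≃ₗ[K] V)),
    (∀ B : LinearMap.BilinForm K V, B.IsAlt → B.Nondegenerate →
      (∀ g, g ∈ I ↔ ∀ x y, B (g x) (g y) = B x y) → IsCl I) ∧
    (∀ (σ : K →+* K) (B : V →ₛₗ[σ] V →ₗ[K] K), σ ≠ RingHom.id K → (∀ a, σ (σ a) = a) →
      (∀ x y, B y x = σ (B x y)) → (∀ x, (∀ y, B x y = 0) → x = 0) →
      (∀ g, g ∈ I ↔ ∀ x y, B (g x) (g y) = B x y) → IsCl I) ∧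
    ∀ Q : QuadraticForm K V, (∀ x, (∀ y, QuadraticMap.polar Q x y = 0) → x = 0) →
      (∀ g, g ∈ I ↔ ∀ x, Q (g x) = Q x) → IsCl I

end Pool.Agent.Lib.MP_679d9b_al.KG
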