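import Mathlib
import Pool.Agent.Lib.MP_679d9b_al.KG.Defs

/-!
Transfer lemmas for heads, the Schreier property and largeness.
-/

set_option autoImplicit false

namespace Pool.Agent.Lib.MP_679d9b_al.KG

open Subgroup
open scoped commutatorElement
open PT (SL PSL PEl QEl)

section Grp
variable {H H' S : Type} [Group H] [Group H'] [Group S] {φ : H →* S} {R : Subgroup H}

namespace Basic1

/-- Normal subgroups of `Y` whose image contains `A`. -/
def Fm (κ : H' →* H) (Y : Subgroup H') (A : Subgroup H) : Set (Subgroup H') :=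
  {J | J ≤ Y ∧ (∀ y ∈ Y, ∀ j ∈ J, y * j * y⁻¹ ∈ J) ∧ A ≤ J.map κ}

theorem comm_mem {A B : Subgroup H} (h : ∀ b ∈ B, ∀ a ∈ A, b * a * b⁻¹ ∈ A) : ⁅A, B⁆ ≤ A :=
  commutator_le.2 fun a ha b hb => by
    have := mul_mem ha (h b hb _ (inv_mem ha))
    rwa [← mul_assoc, ← mul_assoc] at this

theorem comm_mem' {A B : Subgroup H} (h : ∀ a ∈ A, ∀ b ∈ B, a * b * a⁻¹ ∈ B) : ⁅A, B⁆ ≤ B :=
  commutator_le.2 fun a ha b hb => B.mul_mem (h a ha b hb) (B.inv_mem hb)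

theorem sInf_mem [Finite H'] {κ : H' →* H} {Y : Subgroup H'} {A : Subgroup H}
    (hA : A ≤ ⁅A, A⁆) (hY : A ≤ Y.map κ) : sInf (Fm κ Y A) ∈ Fm κ Y A := by
  obtain ⟨J, hJ, hmin⟩ := exists_minimal_of_wellFoundedLT (· ∈ Fm κ Y A)
    ⟨Y, le_rfl, fun y hy j hj => mul_mem (mul_mem hy hj) (inv_mem hy), hY⟩
  have : sInf (Fm κ Y A) = J := by
    refine le_antisymm (sInf_le hJ) (le_sInf fun J' hJ' => ?_)
    have h1 : J ⊓ J' ∈ Fm κ Y A := by
      refine ⟨inf_le_left.trans hJ.1, fun y hy j hj => ⟨hJ.2.1 y hy j hj.1, hJ'.2.1 y hy j hj.2⟩,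
        hA.trans ((commutator_mono hJ.2.2 hJ'.2.2).trans ?_)⟩
      rw [← map_commutator]
      exact map_mono (le_inf (comm_mem fun b hb => hJ.2.1 b (hJ'.1 hb))
        (comm_mem' fun a ha => hJ'.2.1 a (hJ.1 ha)))
    exact (hmin h1 inf_le_left).trans inf_le_right
  rwa [this]

theorem comap_perf (hR : ⁅R, R⁆ = R) (ι : H' →* H) (hι : Function.Injective ι)
    (h : R ≤ ι.range) : ⁅R.comap ι, R.comap ι⁆ = R.comap ι := by
  apply map_injective hι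
  rw [map_commutator, map_comap_eq_self h, hR]

theorem map_norm (ι : H' →* H) (h : R ≤ ι.range) {J : Subgroup H'}
    (hJ : ∀ r ∈ R.comap ι, ∀ y ∈ J, r * y * r⁻¹ ∈ J) :
    ∀ r ∈ R, ∀ y ∈ J.map ι, r * y * r⁻¹ ∈ J.map ι := by
  rintro r hr _ ⟨y, hy, rfl⟩
  obtain ⟨r', rfl⟩ := h hr
  exact ⟨r' * y * r'⁻¹, hJ r' hr y hy, by simp⟩

theorem perfect_of_simple {X : Type} [Group X] [IsSimpleGroup X] (h : ∃ a b : X, ¬ Commute a b) :
    Group.IsPerfect X := by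
  obtain ⟨a, b, hab⟩ := h
  refine ⟨((inferInstance : (commutator X).Normal).eq_bot_or_eq_top).resolve_left fun h => hab ?_⟩
  have h1 : ⁅a, b⁆ ∈ commutator X := commutator_mem_commutator (mem_top a) (mem_top b)
  rw [h, mem_bot] at h1
  exact commutatorElement_eq_one_iff_commute.1 h1

end Basic1

theorem Hd.le_ker (h : Hd φ R) {N : Subgroup H} (hN : N.Normal) (h1 : ¬ R ≤ N) : N ≤ φ.ker := by
  intro y hy
  by_contra h2
  exact h1 (h.min N (fun r _ z hz => hN.conj_mem z hz r) y hy h2)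

theorem Hd.unique {R' : Subgroup H} (h : Hd φ R) (h' : Hd φ R') : R = R' := by
  obtain ⟨r, hr, h1⟩ := h.ne
  obtain ⟨r', hr', h1'⟩ := h'.ne
  exact le_antisymm (h.min R' (fun a _ z hz => h'.nrm.conj_mem z hz a) r' hr' h1')
    (h'.min R (fun a _ z hz => h.nrm.conj_mem z hz a) r hr h1)

theorem Hd.map (h : Hd φ R) (q : H →* H') (hq : Function.Surjective q) (φ' : H' →* S)
    (e : ∀ y, φ' (q y) = φ y) : Hd φ' (R.map q) := by
  obtain ⟨r, hr, h1⟩ := h.ne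
  refine ⟨h.nrm.map q hq, by rw [← map_commutator, h.perf], ⟨q r, ⟨r, hr, rfl⟩, by rwa [e]⟩,
    fun J hJ y hy h2 => ?_⟩
  obtain ⟨y, rfl⟩ := hq y
  refine map_le_iff_le_comap.2 (h.min _ (fun a ha z hz => ?_) y hy (by rwa [e] at h2))
  rw [mem_comap, map_mul, map_mul, map_inv]
  exact hJ _ ⟨a, ha, rfl⟩ _ hz

theorem Hd.comap (h : Hd φ R) (ι : H' →* H) (hι : Function.Injective ι) (hR : R ≤ ι.range) :
    Hd (φ.comp ι) (R.comap ι) := by
  obtain ⟨r, hr, h1⟩ := h.ne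
  obtain ⟨r, rfl⟩ := hR hr
  refine ⟨h.nrm.comap ι, Basic1.comap_perf h.perf ι hι hR, ⟨r, hr, h1⟩, fun J hJ y hy h2 => ?_⟩
  have := comap_mono (f := ι) (h.min _ (Basic1.map_norm ι hR hJ) (ι y) ⟨y, hy, rfl⟩ h2)
  rwa [comap_map_eq_self_of_injective hι] at this

theorem Hd.lift [Finite H'] (h : Hd φ R) (κ : H' →* H) (hκ : Function.Surjective κ) :
    ∃ R' : Subgroup H', Hd (φ.comp κ) R' ∧ R'.map κ = R := by
  have h1 := Basic1.sInf_mem (κ := κ) (Y := ⊤) h.perf.ge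
    (by rw [map_top_of_surjective κ hκ]; exact le_top)
  have hle : ∀ J : Subgroup H', J.Normal → R ≤ J.map κ → sInf (Basic1.Fm κ ⊤ R) ≤ J :=
    fun J hJ h2 => sInf_le ⟨le_top, fun y _ j hj => hJ.conj_mem j hj y, h2⟩
  generalize sInf (Basic1.Fm κ ⊤ R) = R' at h1 hle
  have hn : R'.Normal := ⟨fun j hj y => h1.2.1 y trivial j hj⟩
  have e : R'.map κ = R := le_antisymm (map_le_iff_le_comap.2 (hle _ (h.nrm.comap κ)
    (map_comap_eq_self_of_surjective hκ R).ge)) h1.2.2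
  refine ⟨R', ⟨hn, le_antisymm (commutator_le_self _) (hle _ inferInstance ?_), ?_,
    fun J hJ y hy h2 => ?_⟩, e⟩
  · rw [map_commutator, e, h.perf]
  · obtain ⟨r, hr, h2⟩ := h.ne
    obtain ⟨r, hr', rfl⟩ := h1.2.2 hr
    exact ⟨r, hr', h2⟩
  have h3 : R ≤ J.map κ := by
    refine h.min _ ?_ (κ y) ⟨y, hy, rfl⟩ h2
    rintro r hr _ ⟨z, hz, rfl⟩
    obtain ⟨r, hr', rfl⟩ := h1.2.2 hr
    exact ⟨r * z * r⁻¹, hJ r hr' z hz, by simp⟩
  have h4 : R' ⊓ J ∈ Basic1.Fm κ R' R := by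
    refine ⟨inf_le_left, fun r hr z hz => ⟨hn.conj_mem z hz.1 r, hJ r hr z hz.2⟩,
      h.perf.ge.trans ((commutator_mono h1.2.2 h3).trans ?_)⟩
    rw [← map_commutator]
    exact map_mono (le_inf (commutator_le_left _ _) (Basic1.comm_mem' hJ))
  have h5 := Basic1.sInf_mem h.perf.ge h1.2.2
  refine (hle _ ⟨fun u hu g => ?_⟩ h5.2.2).trans ((sInf_le h4).trans inf_le_right)
  have h6 : R' ⊓ (sInf (Basic1.Fm κ R' R)).comap (MulAut.conj g).toMonoidHom ∈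
      Basic1.Fm κ R' R := by
    refine ⟨inf_le_left, fun r hr v hv => ⟨hn.conj_mem v hv.1 r, ?_⟩, fun σ hσ => ?_⟩
    · simpa [mul_assoc] using h5.2.1 _ (hn.conj_mem r hr g) _ hv.2
    · obtain ⟨v, hv, e'⟩ := h5.2.2 (h.nrm.conj_mem σ hσ (κ g))
      refine ⟨g⁻¹ * v * g, ⟨hn.conj_mem' v (h5.1 hv) g, by simpa [mul_assoc] using hv⟩, ?_⟩
      simp [e', mul_assoc]
  exact (sInf_le h6 hu).2

theorem exists_hd [Finite H] [IsSimpleGroup S] (φ : H →* S) (hφ : Function.Surjective φ)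
    (hS : ∃ a b : S, ¬ Commute a b) : ∃ R : Subgroup H, Hd φ R ∧ R.map φ = ⊤ := by
  have h1 : Hd (MonoidHom.id S) ⊤ := by
    obtain ⟨a, ha⟩ := exists_ne (1 : S)
    refine ⟨inferInstance, (Basic1.perfect_of_simple hS).commutator_eq_top, ⟨a, trivial, ha⟩,
      fun J hJ y hy h2 => ?_⟩
    have hn : J.Normal := ⟨fun z hz g => hJ g trivial z hz⟩
    rcases hn.eq_bot_or_eq_top with h | h
    · rw [h] at hy
      exact absurd hy h2
    · exact h.ge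
  exact h1.lift φ hφ

theorem exists_hd_psl [Finite H] {ι K : Type} [Fintype ι] [DecidableEq ι] [Field K]
    (φ : H →* PSL ι K) (hφ : Function.Surjective φ) (h3 : 3 ≤ Fintype.card ι) :
    ∃ R : Subgroup H, Hd φ R ∧ R.map φ = ⊤ := by
  have hp := PT.sl_perfect (K := K) h3
  have hq : Function.Surjective (QuotientGroup.mk' (center (SL ι K))) :=
    QuotientGroup.mk'_surjective _
  have h1 : Hd (MonoidHom.id (PSL ι K)) ⊤ := by
    refine ⟨inferInstance, (Group.IsPerfect.ofSurjective hq).commutator_eq_top, ?_,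
      fun J hJ y hy h2 => ?_⟩
    · by_contra h
      push Not at h
      have h4 : center (SL ι K) = ⊤ := eq_top_iff.2 fun A _ =>
        (QuotientGroup.eq_one_iff A).1 (h _ trivial)
      have h5 := (commutator_eq_bot_iff_center_eq_top _).2 h4
      rw [hp.commutator_eq_top] at h5
      obtain ⟨i, j, hij⟩ := Fintype.exists_pair_of_one_lt_card (α := ι) (by omega)
      have h6 : Matrix.SpecialLinearGroup.transvection hij (1 : K) ∈ (⊥ : Subgroup (SL ι K)) :=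
        h5 ▸ mem_top _
      have h7 := congrArg (fun A : SL ι K => A.1 i j) (mem_bot.1 h6)
      simp [PT.SLn.tv_val, hij] at h7
    · have hn : J.Normal := ⟨fun z hz g => hJ g trivial z hz⟩
      have := hn.comap (QuotientGroup.mk' (center (SL ι K)))
      rcases PT.normal_eq h3 (J.comap (QuotientGroup.mk' (center (SL ι K)))) with h | h
      · obtain ⟨A, rfl⟩ := hq y
        exact absurd ((QuotientGroup.eq_one_iff A).2 (h hy)) h2
      · intro z _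
        obtain ⟨A, rfl⟩ := hq z
        exact h.ge (mem_top A)
  exact h1.lift φ hφ

section Alt
variable {Ω : Type} [Fintype Ω] [DecidableEq Ω] [Finite H] {ψ : H →* Equiv.Perm Ω}

theorem altOn_univ : Alt.AltOn (Finset.univ : Finset Ω) = alternatingGroup Ω :=
  le_antisymm (Alt.altOn_le _) fun _ h => ⟨h, fun a ha => absurd (Finset.mem_univ a) ha⟩

theorem R_map (hψ : alternatingGroup Ω ≤ ψ.range) {Δ : Finset Ω} (h5 : 5 ≤ Δ.card) :
    (Alt.R ψ Δ).map ψ = Alt.AltOn Δ :=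
  le_antisymm (map_le_iff_le_comap.2 (Alt.R_mem hψ h5).1) (Alt.R_mem hψ h5).2.2

namespace Basic1

theorem exists_ne_one {Δ : Finset Ω} (h5 : 5 ≤ Δ.card) : ∃ σ ∈ Alt.AltOn Δ, σ ≠ 1 := by
  obtain ⟨σ, hσ, τ, _, a, _, h⟩ := Alt.exists_noncomm (Δ := Δ) (by omega)
  exact ⟨σ, hσ, fun h1 => h (by simp [h1])⟩

theorem exists_not_comm {Λ : Finset Ω} (h5 : 5 ≤ Λ.card) (h1 : Λᶜ.card ≤ 1) {σ : Equiv.Perm Ω}
    (hσ : ∀ a ∈ Λ, σ a ∈ Λ) (h : σ ≠ 1) : ∃ τ ∈ Alt.AltOn Λ, ¬ Commute σ τ := by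
  obtain ⟨a, ha, h2⟩ : ∃ a ∈ Λ, σ a ≠ a := by
    by_contra h2
    push Not at h2
    refine h (Equiv.ext fun a => ?_)
    by_cases ha : a ∈ Λ
    · exact h2 a ha
    · by_cases hb : σ a ∈ Λ
      · exact σ.injective (h2 _ hb)
      · exact Finset.card_le_one.1 h1 _ (Finset.mem_compl.2 hb) _ (Finset.mem_compl.2 ha)
  have h3 : 1 < ((Λ.erase a).erase (σ a)).card := by
    have := Finset.pred_card_le_card_erase (s := Λ) (a := a)
    have := Finset.pred_card_le_card_erase (s := Λ.erase a) (a := σ a)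
    omega
  obtain ⟨c, hc, d, hd, hcd⟩ := Finset.one_lt_card.1 h3
  simp only [Finset.mem_erase] at hc hd
  refine ⟨_, Alt.swap2_mem hc.2.2 hd.2.2 (hσ a ha) hc.2.2 hcd (Ne.symm hc.1), fun h4 => ?_⟩
  have h6 := congrArg (fun τ : Equiv.Perm Ω => τ a) h4.eq
  simp only [Equiv.Perm.mul_apply, Equiv.swap_apply_left] at h6
  rw [Equiv.swap_apply_of_ne_of_ne h2.symm (Ne.symm hc.2.1),
    Equiv.swap_apply_of_ne_of_ne (Ne.symm hc.2.1) (Ne.symm hd.2.1)] at h6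
  exact hd.1 h6.symm

end Basic1

theorem R_perf (hψ : alternatingGroup Ω ≤ ψ.range) {Δ : Finset Ω} (h5 : 5 ≤ Δ.card) :
    ⁅Alt.R ψ Δ, Alt.R ψ Δ⁆ = Alt.R ψ Δ := by
  obtain ⟨σ, hσ, h1⟩ := Basic1.exists_ne_one h5
  have h2 := Alt.altOn_perfect h5 hσ
  rw [← R_map hψ h5, ← map_commutator] at h2
  obtain ⟨j, hj, rfl⟩ := h2
  exact le_antisymm (commutator_le_self _) (Alt.R_min hψ h5 (fun r hr y hy =>
    (mem_normalizer_iff.1 (normalizer_commutator_ge_left _ _ hr) y).1 hy) hj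
    (commutator_le_self _ hj) h1)

theorem Basic1.hd_co (hψ : alternatingGroup Ω ≤ ψ.range) {Λ : Finset Ω} (h5 : 5 ≤ Λ.card)
    (h1 : Λᶜ.card ≤ 1) (ι : H' →* H) (hι : Function.Injective ι) (hR : Alt.R ψ Λ ≤ ι.range)
    (hΛ : ∀ t, ∀ a ∈ Λ, ψ (ι t) a ∈ Λ) : Hd (ψ.comp ι) ((Alt.R ψ Λ).comap ι) := by
  have hn : ((Alt.R ψ Λ).comap ι).Normal := ⟨fun r hr t => by
    rw [mem_comap, map_mul, map_mul, map_inv]
    exact Alt.R_conj hψ h5 (hΛ t) hr⟩
  refine ⟨hn, Basic1.comap_perf (R_perf hψ h5) ι hι hR, ?_, fun J hJ y hy h2 => ?_⟩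
  · obtain ⟨σ, hσ, h2⟩ := Basic1.exists_ne_one h5
    obtain ⟨r, hr, rfl⟩ := Alt.R_surj hψ h5 hσ
    obtain ⟨r, rfl⟩ := hR hr
    exact ⟨r, hr, h2⟩
  · obtain ⟨τ, hτ, h3⟩ := Basic1.exists_not_comm h5 h1 (hΛ y) h2
    obtain ⟨r, hr, rfl⟩ := Alt.R_surj hψ h5 hτ
    obtain ⟨r, rfl⟩ := hR hr
    have h4 : ⁅y, r⁆ ∈ ⁅J, (Alt.R ψ Λ).comap ι⁆ := commutator_mem_commutator hy hr
    have := comap_mono (f := ι) (Alt.R_min hψ h5 (Basic1.map_norm ι hR hJ)
      ⟨_, Basic1.comm_mem hJ h4, rfl⟩ (commutator_le_right J _ h4 :) fun h6 => h3 (by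
        rwa [map_commutatorElement, map_commutatorElement,
          commutatorElement_eq_one_iff_commute] at h6))
    rwa [comap_map_eq_self_of_injective hι] at this

theorem hd_R (hψ : alternatingGroup Ω ≤ ψ.range) (h5 : 5 ≤ Fintype.card Ω) :
    Hd ψ (Alt.R ψ Finset.univ) :=
  Basic1.hd_co hψ (Λ := Finset.univ) h5 (by simp) (MonoidHom.id H) (fun _ _ h => h)
    (fun r _ => ⟨r, rfl⟩) fun _ _ _ => Finset.mem_univ _

theorem hd_R_co (hψ : alternatingGroup Ω ≤ ψ.range) {Λ : Finset Ω} (h5 : 5 ≤ Λ.card)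
    (h1 : Λᶜ.card ≤ 1) (ι : H' →* H) (hι : Function.Injective ι) (hR : Alt.R ψ Λ ≤ ι.range)
    (hΛ : ∀ t, ∀ a ∈ Λ, ψ (ι t) a ∈ Λ) : Hd (ψ.comp ι) ((Alt.R ψ Λ).comap ι) :=
  Basic1.hd_co hψ h5 h1 ι hι hR hΛ

/-- The central case: the supplements are quasisimple and commute for disjoint sets. -/
theorem R_cen (hψ : alternatingGroup Ω ≤ ψ.range)
    (hc : (⁅ψ.ker, Alt.R ψ Finset.univ⁆ : Subgroup H) = ⊥) {Δ : Finset Ω} (h5 : 5 ≤ Δ.card) :
    Qs (Alt.R ψ Δ) ∧ ∀ Δ' : Finset Ω, 5 ≤ Δ'.card → Disjoint Δ Δ' →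
      ∀ a ∈ Alt.R ψ Δ, ∀ b ∈ Alt.R ψ Δ', Commute a b := by
  have h0 : ∀ N : Subgroup H, N ≤ ψ.ker → ⁅N, Alt.R ψ Δ⁆ = ⊥ := fun N hN =>
    le_bot_iff.1 ((commutator_mono hN (Alt.R_mono hψ (h5.trans (Finset.card_le_univ Δ))
      (Finset.subset_univ Δ))).trans hc.le)
  refine ⟨⟨R_perf hψ h5, fun h => ?_, fun N hN hN' => ?_⟩, fun Δ' h5' hd a ha b hb => ?_⟩
  · obtain ⟨σ, hσ, h2⟩ := Basic1.exists_ne_one h5
    obtain ⟨r, hr, rfl⟩ := Alt.R_surj hψ h5 hσ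
    rw [h, mem_bot] at hr
    exact h2 (by rw [hr, map_one])
  · by_cases h : N ≤ ψ.ker
    · exact Or.inl (commutator_eq_bot_iff_le_centralizer.1 (h0 N h))
    · obtain ⟨j, hj, h1⟩ := SetLike.not_le_iff_exists.1 h
      exact Or.inr (le_antisymm hN (Alt.R_min hψ h5 hN' hj (hN hj) h1))
  · have h1 : ⁅Alt.R ψ Δ, Alt.R ψ Δ'⁆ ≤ ψ.ker := commutator_le.2 fun x hx y hy => by
      rw [MonoidHom.mem_ker, map_commutatorElement, commutatorElement_eq_one_iff_commute]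
      refine Equiv.Perm.Disjoint.commute fun z => ?_
      by_cases hz : z ∈ Δ
      · exact Or.inr ((Alt.R_le hψ h5' hy).2 z (Finset.disjoint_left.1 hd hz))
      · exact Or.inl ((Alt.R_le hψ h5 hx).2 z hz)
    have h2 := commutator_commutator_eq_bot_of_rotate (h0 _ h1)
      (h0 _ ((commutator_comm_le _ _).trans h1))
    rw [R_perf hψ h5] at h2
    exact commutatorElement_eq_one_iff_commute.1
      (mem_bot.1 (h2 ▸ commutator_mem_commutator ha hb))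

end Alt

theorem Sch.mono {N N' : Subgroup H} (h : Sch N) (hN : N' ≤ N)
    (hn : ∀ x ∈ N, ∀ y ∈ N', x * y * x⁻¹ ∈ N') : Sch N' := fun T hT hs =>
  h T (hT.trans hN) (IsSubnormal.trans (K := N'.subgroupOf N) (fun _ hy => hT hy)
    (hs.comap (subgroupOfEquivOfLe hN).toMonoidHom)
    (Normal.isSubnormal ⟨fun y hy x => hn x x.2 y hy⟩))

theorem Sch.nrm {N N' : Subgroup H} (h : Sch N) (hN : N' ≤ N) (hn : N'.Normal) : Sch N' :=
  h.mono hN fun x _ y hy => hn.conj_mem y hy x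

theorem Sch.map {N : Subgroup H} (h : Sch N) (q : H →* H') : Sch (N.map q) := by
  intro T hT hs X _ _ π hπ hX
  refine h (N ⊓ T.comap q) inf_le_left ?_ X
    (π.comp ((q.comp (N ⊓ T.comap q).subtype).codRestrict T fun y => y.2.2)) (fun x => ?_) hX
  · convert hs.comap (q.subgroupMap N) using 1
    exact Subgroup.ext fun y => ⟨fun h => h.2, fun h => ⟨y.2, h⟩⟩
  obtain ⟨⟨t, ht⟩, rfl⟩ := hπ x
  obtain ⟨y, hy, rfl⟩ := hT ht
  exact ⟨⟨y, hy, ht⟩, rfl⟩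

theorem Sch.comap {N : Subgroup H} (h : Sch N) (ι : H' →* H) (hι : Function.Injective ι)
    (hr : N ≤ ι.range) : Sch (N.comap ι) := by
  intro T hT hs X _ _ π hπ hX
  refine h (T.map ι) (map_le_iff_le_comap.2 hT) ?_ X
    (π.comp (T.equivMapOfInjective ι hι).symm.toMonoidHom)
    (hπ.comp (T.equivMapOfInjective ι hι).symm.surjective) hX
  convert hs.map (f := ι.subgroupComap N) fun y => (hr y.2).elim fun z hz =>
    ⟨⟨z, show ι z ∈ N from hz ▸ y.2⟩, Subtype.ext hz⟩ using 1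
  exact Subgroup.ext fun y => ⟨fun ⟨z, h1, h2⟩ => ⟨⟨z, hT h1⟩, h1, Subtype.ext h2⟩,
    fun ⟨z, h1, h2⟩ => ⟨z, h1, congrArg Subtype.val h2⟩⟩

theorem Sch.of_ker {N : Subgroup H} (q : H →* H') (h : Sch (N ⊓ q.ker))
    (hs : Group.IsSolvable (N.map q)) : Sch N := by
  intro T hT hsn X _ _ π hπ hX
  have hp := Basic1.perfect_of_simple hX
  obtain ⟨n, hn⟩ := hs.solvable
  refine h (T ⊓ q.ker) (inf_le_inf_right _ hT) ?_ X (π.comp (inclusion inf_le_left))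
    (fun x => ?_) hX
  · convert hsn.comap (inclusion (inf_le_left : N ⊓ q.ker ≤ N)) using 1
    exact Subgroup.ext fun y => ⟨fun h => h.1, fun h => ⟨h, y.2.2⟩⟩
  have h1 : x ∈ derivedSeries X n := by
    rw [Group.IsPerfect.derivedSeries_eq_top]
    trivial
  obtain ⟨t, ht, rfl⟩ := derivedSeries_le_map_derivedSeries hπ n h1
  have h2 := map_derivedSeries_le_derivedSeries
    ((q.comp T.subtype).codRestrict (N.map q) fun y => ⟨y, hT y.2, rfl⟩) n ⟨t, ht, rfl⟩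
  rw [hn, mem_bot] at h2
  exact ⟨⟨t, t.2, congrArg Subtype.val h2⟩, rfl⟩

theorem Sch.of_map {N : Subgroup H} (q : H →* H') (h : Sch (N.map q))
    (hs : Group.IsSolvable (N ⊓ q.ker : Subgroup H)) : Sch N := by
  intro T hT hsn X _ _ π hπ hX
  let f : T →* T.map q := (q.comp T.subtype).codRestrict (T.map q) fun y => ⟨y, y.2, rfl⟩
  have hf : Function.Surjective f := by
    rintro ⟨_, y, hy, rfl⟩
    exact ⟨⟨y, hy⟩, rfl⟩
  have hk : f.ker ≤ π.ker := by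
    rcases ((inferInstance : f.ker.Normal).map π hπ).eq_bot_or_eq_top with h1 | h1
    · exact (Subgroup.map_eq_bot_iff _).1 h1
    · exfalso
      have h2 : Group.IsSolvable f.ker := Group.isSolvable_of_isSolvable_injective
        (f := (T.subtype.comp f.ker.subtype).codRestrict (N ⊓ q.ker)
          fun y => ⟨hT y.1.2, congrArg Subtype.val y.2⟩)
        fun a b hab => Subtype.ext (Subtype.ext (congrArg Subtype.val hab :))
      have h3 : Group.IsSolvable X := Group.isSolvable_of_surjective (f := π.comp f.ker.subtype)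
        fun x => by
          obtain ⟨t, ht, rfl⟩ := h1.ge (mem_top x)
          exact ⟨⟨t, ht⟩, rfl⟩
      obtain ⟨a, b, hab⟩ := hX
      exact hab (IsSimpleGroup.comm_iff_isSolvable.2 h3 a b)
  refine h (T.map q) (map_mono hT) ?_ X (f.liftOfSurjective hf ⟨π, hk⟩) (fun x => ?_) hX
  · convert hsn.map (q.subgroupMap_surjective N) using 1
    exact Subgroup.ext fun y => ⟨fun ⟨z, h1, h2⟩ => ⟨⟨z, hT h1⟩, h1, Subtype.ext h2⟩,
      fun ⟨z, h1, h2⟩ => ⟨z, h1, congrArg Subtype.val h2⟩⟩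
  obtain ⟨t, rfl⟩ := hπ x
  exact ⟨f t, f.liftOfRightInverse_comp_apply _ _ ⟨π, hk⟩ t⟩

theorem Sch.ker_map (h : Sch (φ.ker ⊓ R)) (q : H →* H') (φ' : H' →* S)
    (e : ∀ y, φ' (q y) = φ y) : Sch (φ'.ker ⊓ R.map q) := by
  convert h.map q using 1
  refine le_antisymm ?_ ?_
  · rintro _ ⟨h1, r, hr, rfl⟩
    exact ⟨r, ⟨(e r).symm.trans h1, hr⟩, rfl⟩
  · rintro _ ⟨r, hr, rfl⟩
    exact ⟨(e r).trans hr.1, r, hr.2, rfl⟩

theorem Sch.ker_comap (h : Sch (φ.ker ⊓ R)) (ι : H' →* H) (hι : Function.Injective ι)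
    (hr : R ≤ ι.range) : Sch ((φ.comp ι).ker ⊓ R.comap ι) :=
  h.comap ι hι (inf_le_right.trans hr)

variable {k : ℕ} {g : H}

theorem Big.mono {k' : ℕ} (h : Big φ R k g) (hk : k' ≤ k) : Big φ R k' g := by
  obtain ⟨r, hr, θ, h1, h2, h3⟩ := h
  exact ⟨r, hr, θ.comp (Equiv.Perm.viaEmbeddingHom (Fin.castLEEmb hk)),
    h1.comp (Equiv.Perm.viaEmbeddingHom_injective _), fun a => h2 _, fun a b => h3 _ _⟩

theorem Big.map (h : Big φ R k g) (q : H →* H') (φ' : H' →* S) (e : ∀ y, φ' (q y) = φ y) :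
    Big φ' (R.map q) k (q g) := by
  obtain ⟨r, hr, θ, h1, h2, h3⟩ := h
  refine ⟨q r, ⟨r, hr, rfl⟩, θ, h1, fun a => ?_, fun a b => ?_⟩
  · obtain ⟨s, hs, h4⟩ := h2 a
    exact ⟨q s, ⟨s, hs, rfl⟩, (e s).trans h4⟩
  · rw [← map_commutatorElement, e]
    exact h3 a b

theorem Big.comap (ι : H' →* H) (hR : R ≤ ι.range) {g' : H'} (h : Big φ R k (ι g')) :
    Big (φ.comp ι) (R.comap ι) k g' := by
  obtain ⟨r, hr, θ, h1, h2, h3⟩ := h
  obtain ⟨r, rfl⟩ := hR hr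
  refine ⟨r, hr, θ, h1, fun a => ?_, fun a b => ?_⟩
  · obtain ⟨s, hs, h4⟩ := h2 a
    obtain ⟨s, rfl⟩ := hR hs
    exact ⟨s, hs, h4⟩
  · rw [MonoidHom.comp_apply, map_commutatorElement]
    exact h3 a b

theorem Big.conj (h : Big φ R k g) {r : H} (hr : r ∈ R) : Big φ R k (r⁻¹ * g * r) := by
  obtain ⟨s, hs, θ, h1, h2, h3⟩ := h
  refine ⟨r⁻¹ * s * r, mul_mem (mul_mem (inv_mem hr) hs) hr,
    (MulAut.conj (φ r)⁻¹).toMonoidHom.comp θ, (MulAut.conj (φ r)⁻¹).injective.comp h1,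
    fun a => ?_, fun a b => ?_⟩
  · obtain ⟨t, ht, h4⟩ := h2 a
    exact ⟨r⁻¹ * t * r, mul_mem (mul_mem (inv_mem hr) ht) hr, by simp [h4]⟩
  · have h4 := (h3 a b).map (MulAut.conj (φ r)⁻¹)
    have h5 : ⁅r⁻¹ * g * r, r⁻¹ * s * r⁆ = r⁻¹ * ⁅g, s⁆ * r := by
      simp only [commutatorElement_def]
      group
    rw [h5]
    simpa [mul_assoc] using h4

theorem Big.congr (h : Big φ R k g) {g' : H} (e : φ g = φ g') : Big φ R k g' := by
  obtain ⟨r, hr, θ, h1, h2, h3⟩ := h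
  refine ⟨r, hr, θ, h1, h2, fun a b => ?_⟩
  rw [map_commutatorElement, ← e, ← map_commutatorElement]
  exact h3 a b

theorem Big.not_comm (h : Big φ R k g) (hk : 3 ≤ k) : ∃ r ∈ R, ¬ Commute (φ r) (φ g) := by
  obtain ⟨r, hr, θ, h1, -, h3⟩ := h.mono hk
  refine ⟨r, hr, fun h4 => ?_⟩
  have h5 := h3 (Equiv.swap 0 1) (Equiv.swap 1 2)
  rw [map_commutatorElement, h4.symm.commutator_eq, one_mul, inv_one, mul_one] at h5
  have h6 := h1 (by rw [map_mul, map_mul, h5.eq] :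
    θ (Equiv.swap 0 1 * Equiv.swap 1 2) = θ (Equiv.swap 1 2 * Equiv.swap 0 1))
  exact absurd h6 (by decide)

end Grp

end Pool.Agent.Lib.MP_679d9b_al.KG
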