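import Mathlib
import Pool.Agent.Lib.MP_679d9b_al.KG.Defs
import Pool.Agent.Lib.MP_679d9b_al.KG.Basic1

-- part Pool.Agent.Lib.MP_679d9b_al.KG.Basic2
section

/-!
Counting lemmas, quasisimple subgroups and ranks.
-/

set_option autoImplicit false

namespace Pool.Agent.Lib.MP_679d9b_al.KG

open Subgroup
open scoped commutatorElement
open PT (SL PSL PEl QEl)

namespace Basic2
variable {H X : Type} [Group H] {P : Subgroup H}

/-- All fibres of a map which is constant on cosets have the same size. -/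
theorem fib (f : H → X) (C : Subgroup H) (hf : ∀ a b, f a = f b ↔ a⁻¹ * b ∈ C) {F : Set X}
    (hF : F ⊆ f '' P) :
    {m | m ∈ P ∧ f m ∈ F}.ncard = Nat.card (C ⊓ P : Subgroup H) * F.ncard := by
  choose σ h1 h2 using hF
  rw [← Nat.card_coe_set_eq, ← Nat.card_coe_set_eq, ← Nat.card_prod]
  refine Nat.card_congr
    { toFun := fun m => (⟨(σ m.2.2)⁻¹ * m, (hf _ _).1 (h2 _), P.mul_mem (P.inv_mem (h1 _)) m.2.1⟩,
        ⟨f m, m.2.2⟩)
      invFun := fun q => ⟨σ q.2.2 * q.1, P.mul_mem (h1 _) q.1.2.2, by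
        rw [← (hf (σ q.2.2) _).2 (by simpa using q.1.2.1), h2]
        exact q.2.2⟩
      left_inv := fun m => by simp
      right_inv := fun q => ?_ }
  have e : f (σ q.2.2 * q.1) = q.2 := by rw [← (hf (σ q.2.2) _).2 (by simpa using q.1.2.1), h2]
  refine Prod.ext (Subtype.ext ?_) (Subtype.ext e)
  simp only [e, inv_mul_cancel_left]

theorem fib_top (f : H → X) (C : Subgroup H) (hf : ∀ a b, f a = f b ↔ a⁻¹ * b ∈ C) :
    Nat.card P = Nat.card (C ⊓ P : Subgroup H) * (f '' P).ncard := by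
  rw [← fib f C hf subset_rfl, ← Nat.card_coe_set_eq]
  exact Nat.card_congr (Equiv.setCongr (Set.ext fun m =>
    ⟨fun h => ⟨h, m, h, rfl⟩, fun h => h.1⟩))

theorem fin [Finite P] (p : H → Prop) : {m | m ∈ P ∧ p m}.Finite :=
  (Set.toFinite (P : Set H)).subset fun _ h => h.1

theorem card_pos [Finite P] (C : Subgroup H) : 0 < Nat.card (C ⊓ P : Subgroup H) :=
  have : Finite (C ⊓ P : Subgroup H) := Finite.of_injective _ (inclusion_injective inf_le_right)
  Nat.card_pos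

/-- Double counting. -/
theorem avg [Fintype P] (p : H → Prop) {ι : Type} [Finite ι] (y : ι → H) (hy : ∀ i, y i ∈ P) :
    ∑ a : P, {i | p (a * y i)}.ncard = Nat.card ι * {m | m ∈ P ∧ p m}.ncard := by
  classical
  have := Fintype.ofFinite ι
  have h1 : ∀ i, (Finset.univ.filter fun a : P => p (a * y i)).card =
      {m | m ∈ P ∧ p m}.ncard := by
    intro i
    rw [← Set.ncard_coe_finset]
    refine Set.ncard_congr (fun a _ => a * y i) (fun a ha => ⟨mul_mem a.2 (hy i), by simpa using ha⟩)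
      (fun a b _ _ e => Subtype.ext (mul_right_cancel e)) fun m hm =>
        ⟨⟨m * (y i)⁻¹, mul_mem hm.1 (inv_mem (hy i))⟩, by simpa using hm.2, by simp⟩
  have h2 : ∀ a : P, {i | p (a * y i)}.ncard = ∑ i, if p (a * y i) then 1 else 0 := fun a => by
    rw [Set.ncard_eq_toFinset_card', Set.toFinset_ofPred, Finset.card_filter]
  simp only [h2]
  rw [Finset.sum_comm]
  simp only [← Finset.card_filter, h1]
  simp

end Basic2

open Basic2

section Grp
variable {H H' S : Type} [Group H] [Group H'] [Group S] {φ : H →* S} {R : Subgroup H}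
variable {k : ℕ} {g : H}
variable {c : ℕ} {P T : Subgroup H}

theorem Dn.mono {c' : ℕ} (h : Dn c P g T) (hc : c ≤ c') : Dn c' P g T :=
  le_trans h (Nat.mul_le_mul_right _ hc)

theorem Dn.map [Finite P] (h : Dn c P g T) (q : H →* H') :
    Dn c (P.map q) (q g) (T.map q) := by
  have hf : ∀ a b, q a = q b ↔ a⁻¹ * b ∈ q.ker := fun a b => by simp [inv_mul_eq_one]
  have h1 := fib (P := P) q q.ker hf
    (F := {m | m ∈ P.map q ∧ m⁻¹ * q g * m ∈ T.map q}) fun _ h => h.1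
  have h2 := h1.le.trans' (Set.ncard_le_ncard (s := {m | m ∈ P ∧ m⁻¹ * g * m ∈ T})
    (fun m hm => ⟨hm.1, mem_map_of_mem q hm.1,
      by simpa only [map_mul, map_inv] using mem_map_of_mem q hm.2⟩) (fin _))
  refine Nat.le_of_mul_le_mul_left ?_ (card_pos (P := P) q.ker)
  rw [mul_left_comm]
  exact (fib_top q q.ker hf).ge.trans (h.trans (Nat.mul_le_mul_left _ h2))

theorem Dn.of_map [Finite P] (q : H →* H') {T' : Subgroup H'} (h : Dn c (P.map q) (q g) T') :
    Dn c P g (T'.comap q) := by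
  have hf : ∀ a b, q a = q b ↔ a⁻¹ * b ∈ q.ker := fun a b => by simp [inv_mul_eq_one]
  have h1 := fib (P := P) q q.ker hf
    (F := {m | m ∈ P.map q ∧ m⁻¹ * q g * m ∈ T'}) fun _ h => h.1
  have e : {m | m ∈ P ∧ m⁻¹ * g * m ∈ T'.comap q} =
      {m | m ∈ P ∧ q m ∈ {m | m ∈ P.map q ∧ m⁻¹ * q g * m ∈ T'}} :=
    Set.ext fun m => and_congr_right fun hm => by simpa using fun _ => ⟨m, hm, rfl⟩
  rw [Dn, e, h1, fib_top q q.ker hf, mul_left_comm]
  exact Nat.mul_le_mul_left _ h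

theorem Dn.comap (ι : H' →* H) (hι : Function.Injective ι) (hP : P ≤ ι.range) {g' : H'}
    (h : Dn c P (ι g') T) : Dn c (P.comap ι) g' (T.comap ι) := by
  have e : {m | m ∈ P.comap ι ∧ m⁻¹ * g' * m ∈ T.comap ι} =
      ι ⁻¹' {m | m ∈ P ∧ m⁻¹ * ι g' * m ∈ T} := by ext m; simp
  have h1 : Nat.card (P.comap ι) = Nat.card P :=
    Set.ncard_preimage_of_injective_subset_range hι hP
  rw [Dn, e, h1, Set.ncard_preimage_of_injective_subset_range hι fun _ h => hP h.1]
  exact h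

theorem Dn.sub [Finite P] (h : Dn c P g T) {A : Subgroup H} (hA : A ≤ P) :
    ∃ m ∈ P, m⁻¹ * g * m ∈ T ∧ Dn c A (m⁻¹ * g * m) T := by
  have := Fintype.ofFinite P
  have : Finite A := Finite.of_injective _ (inclusion_injective hA)
  have h1 := avg (fun m => m⁻¹ * g * m ∈ T) (fun a : A => (a : H)) fun a => hA a.2
  obtain ⟨m, -, hm⟩ : ∃ m ∈ (Finset.univ : Finset P),
      Nat.card A ≤ c * {a : A | ((m : H) * a)⁻¹ * g * (m * a) ∈ T}.ncard := by
    refine Finset.exists_le_of_sum_le Finset.univ_nonempty ?_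
    rw [← Finset.mul_sum, h1, Finset.sum_const, Finset.card_univ, smul_eq_mul, mul_comm,
      mul_left_comm, Fintype.card_eq_nat_card]
    exact Nat.mul_le_mul_left _ h
  obtain ⟨a, ha⟩ : {a : A | ((m : H) * a)⁻¹ * g * (m * a) ∈ T}.Nonempty :=
    Set.nonempty_of_ncard_ne_zero fun e => Nat.card_pos.not_ge (by rwa [e] at hm)
  refine ⟨m * a, mul_mem m.2 (hA a.2), ha, hm.trans (Nat.mul_le_mul_left _ ?_)⟩
  refine Set.ncard_le_ncard_of_injOn (fun b => (a : H)⁻¹ * b) (fun b hb =>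
    ⟨mul_mem (inv_mem a.2) b.2, ?_⟩) (fun b _ b' _ e => Subtype.ext (mul_left_cancel e)) (fin _)
  simpa [mul_assoc] using hb

theorem Dn.test [Finite P] (h : Dn c P g T) (y : Fin (c + 1) → H) (hy : ∀ i, y i ∈ P) :
    ∃ a ∈ P, ∃ i i', i ≠ i' ∧ (a * y i)⁻¹ * g * (a * y i) ∈ T ∧
      (a * y i')⁻¹ * g * (a * y i') ∈ T := by
  have := Fintype.ofFinite P
  have h1 := avg (fun m => m⁻¹ * g * m ∈ T) y hy
  obtain ⟨a, -, ha⟩ : ∃ a ∈ (Finset.univ : Finset P),
      1 < {i | ((a : H) * y i)⁻¹ * g * (a * y i) ∈ T}.ncard := by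
    refine Finset.exists_lt_of_sum_lt ?_
    have h2 : 0 < Nat.card P := Nat.card_pos
    rw [h1, Finset.sum_const, Finset.card_univ, smul_eq_mul, mul_one, Fintype.card_eq_nat_card,
      Nat.card_fin, add_mul, one_mul]
    refine lt_add_of_le_of_pos h (Nat.pos_of_ne_zero fun e => ?_)
    rw [Dn, e] at h
    omega
  obtain ⟨i, hi, i', hi', e⟩ := (Set.one_lt_ncard (Set.toFinite _)).1 ha
  exact ⟨a, a.2, i, i', e, hi, hi'⟩

theorem Dn.relIndex_le [Finite P] (h : Dn c P g T) (C : Subgroup H)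
    (hC : ∀ m ∈ P, ∀ m' ∈ P, m⁻¹ * g * m ∈ T → m'⁻¹ * g * m' ∈ T → m * m'⁻¹ ∈ C) :
    C.relIndex P ≤ c := by
  classical
  obtain ⟨m, hm, h1, -⟩ := h.sub bot_le
  have h2 : {m | m ∈ P ∧ m⁻¹ * g * m ∈ T}.ncard ≤ Nat.card (C.subgroupOf P) :=
    Set.ncard_le_ncard_of_injOn (t := (C.subgroupOf P : Set P))
      (fun b => if hb : b ∈ P then ⟨b * m⁻¹, mul_mem hb (inv_mem hm)⟩ else 1)
      (fun b hb => by simpa [hb.1, mem_subgroupOf] using hC b hb.1 m hm hb.2 h1)
      (fun b hb b' hb' e => by simpa [hb.1, hb'.1] using e) (Set.toFinite _)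
  refine Nat.le_of_mul_le_mul_right ?_ (Nat.card_pos (α := C.subgroupOf P))
  rw [relIndex, index_mul_card]
  exact h.trans (Nat.mul_le_mul_left _ h2)

theorem Dn.of_cover [Finite P] (Φ : Finset H) (hc : Φ.card ≤ c)
    (h : ∀ m ∈ P, ∃ g ∈ Φ, m⁻¹ * g * m ∈ T) : ∃ g ∈ Φ, Dn c P g T := by
  obtain ⟨g0, h0, -⟩ := h 1 (one_mem P)
  refine Finset.exists_le_of_sum_le ⟨g0, h0⟩ ?_
  rw [← Finset.mul_sum, Finset.sum_const, smul_eq_mul]
  refine Nat.mul_le_mul hc (le_trans (Set.ncard_le_ncard (s := (P : Set H)) (fun m hm => ?_)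
    (Φ.finite_toSet.biUnion fun _ _ => fin _)) (Finset.set_ncard_biUnion_le _ _))
  obtain ⟨g, h1, h2⟩ := h m hm
  exact Set.mem_biUnion h1 ⟨hm, h2⟩

theorem Low.mono [Finite R] {c' : ℕ} (h : Low R g c) (hc : c' ≤ c) : Low R g c' :=
  fun T hT => h T (hT.mono hc)

theorem Low.avoid [Finite R] (Φ : Finset H) (hc : Φ.card ≤ c) (h : ∀ g ∈ Φ, Low R g c)
    (hT : ¬ R ≤ T) : ∃ r ∈ R, ∀ g ∈ Φ, r⁻¹ * g * r ∉ T := by
  by_contra h1
  push Not at h1
  obtain ⟨g, h2, h3⟩ := Dn.of_cover Φ hc h1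
  exact hT (h g h2 T h3)

/-- Fixed points in an orbit of `R`. -/
theorem Low.fix [Finite H] {X : Type} [MulAction H X] (h : Low R g c) {x : X}
    (hx : ∃ r ∈ R, r • x ≠ x) :
    c * {y | y ∈ MulAction.orbit R x ∧ g • y = y}.ncard < (MulAction.orbit R x).ncard := by
  obtain ⟨r, hr, hx⟩ := hx
  have hf : ∀ a b : H, a • x = b • x ↔ a⁻¹ * b ∈ MulAction.stabilizer H x := fun a b => by
    rw [MulAction.mem_stabilizer_iff, mul_smul, inv_smul_eq_iff, eq_comm]
  have e0 : (fun a : H => a • x) '' R = MulAction.orbit R x :=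
    Set.ext fun y => ⟨fun ⟨a, ha, e⟩ => ⟨⟨a, ha⟩, e⟩, fun ⟨a, e⟩ => ⟨a, a.2, e⟩⟩
  have h1 := fib (P := R) _ _ hf (F := {y | y ∈ MulAction.orbit R x ∧ g • y = y})
    fun _ h => e0 ▸ h.1
  have e : {m | m ∈ R ∧ m⁻¹ * g * m ∈ MulAction.stabilizer H x} =
      {m | m ∈ R ∧ m • x ∈ {y | y ∈ MulAction.orbit R x ∧ g • y = y}} :=
    Set.ext fun m => and_congr_right fun hm => by
      rw [mul_assoc, ← hf, mul_smul, eq_comm]
      exact (and_iff_right ⟨⟨m, hm⟩, rfl⟩).symm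
  have h2 := not_le.1 fun h2 => hx (h (MulAction.stabilizer H x) h2 hr)
  rw [e, h1, fib_top (P := R) _ _ hf, mul_left_comm, e0] at h2
  exact Nat.lt_of_mul_lt_mul_left h2

theorem Sm.orbit [Finite H] {X : Type} [MulAction H X] (h : Sm R c) {x : X}
    (hx : ∃ r ∈ R, r • x ≠ x) : c < (MulAction.orbit R x).ncard := by
  obtain ⟨r, hr, hx⟩ := hx
  rw [← MulAction.index_stabilizer]
  exact not_le.1 fun h2 => hx (h (MulAction.stabilizer H x) h2 hr)

theorem Sm.mono [Finite R] {c' : ℕ} (h : Sm R c) (hc : c' ≤ c) : Sm R c' :=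
  fun T hT => h T (hT.trans hc)

theorem Mov.mono {c' : ℕ} (h : Mov R g c) (hc : c' ≤ c) : Mov R g c' :=
  fun X _ _ hX => hc.trans_lt (h X hX)

theorem Lo.mono {c' : ℕ} (h : Lo R c) (hc : c' ≤ c) : Lo R c' :=
  fun K V _ _ _ _ σ hV => h K V σ (hV.trans hc)

theorem Rk.mono {c' : ℕ} (h : Rk R g c) (hc : c' ≤ c) : Rk R g c' :=
  fun T _ ι h1 h2 g' h3 K V _ _ _ _ ρ h4 t => hc.trans_lt (h T ι h1 h2 g' h3 K V ρ h4 t)

/-- Many moved points whose images are new. -/
theorem exists_moved {X : Type} [Finite X] [MulAction H X] (g : H) (n : ℕ)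
    (h : 3 * n ≤ {x : X | g • x ≠ x}.ncard) :
    ∃ y : Fin n → X, Function.Injective y ∧ ∀ i j, g • y i ≠ y j := by
  classical
  have := Fintype.ofFinite X
  obtain ⟨A, -, h1, h2⟩ := Alt.exists_free (MulAction.toPerm g : Equiv.Perm X) Finset.univ n (by
    rw [Finset.inter_univ, ← Set.ncard_coe_finset]
    convert h using 2
    ext x
    simp)
  let e := (A.equivFinOfCardEq h1).symm
  exact ⟨fun i => e i, Subtype.val_injective.comp e.injective,
    fun i j h3 => h2 _ (e i).2 (by rw [MulAction.toPerm_apply, h3]; exact (e j).2)⟩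

theorem Qs.noncomm {L : Subgroup H} (h : Qs L) : ∃ a ∈ L, ∃ b ∈ L, ¬ Commute a b := by
  by_contra h1
  push Not at h1
  refine h.ne (h.perf.symm.trans (eq_bot_iff.2 (commutator_le.2 fun a ha b hb => ?_)))
  exact commutatorElement_eq_one_iff_commute.2 (h1 a ha b hb)

theorem Qs.exists_el [Finite H] {L : Subgroup H} (h : Qs L) (l : ℕ) :
    ∃ r : ℕ, r.Prime ∧ r ≠ l ∧ ∃ a ∈ L, a ∉ centralizer (L : Set H) ∧ PEl r a := by
  obtain ⟨a, ha, b, hb, hab⟩ := h.noncomm
  have : Nontrivial (L ⧸ center L) := ⟨⟨((⟨a, ha⟩ : L) : L ⧸ center L), 1, fun e =>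
    hab (congrArg Subtype.val (mem_center_iff.1 ((QuotientGroup.eq_one_iff _).1 e) ⟨b, hb⟩)).symm⟩⟩
  have h1 : commutator L = ⊤ := map_injective L.subtype_injective (by
    rw [map_subtype_commutator, h.perf, ← MonoidHom.range_eq_map, range_subtype])
  have h2 : commutator (L ⧸ center L) = ⊤ := by
    rw [_root_.commutator_def, ← map_top_of_surjective _ (QuotientGroup.mk'_surjective _),
      ← map_commutator, ← _root_.commutator_def, h1]
  obtain ⟨r, hr, hl, hd⟩ : ∃ r : ℕ, r.Prime ∧ r ≠ l ∧ r ∣ Nat.card (L ⧸ center L) := by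
    by_contra h3
    push Not at h3
    obtain ⟨r, hr, hd⟩ := Nat.exists_prime_and_dvd (Finite.one_lt_card (α := L ⧸ center L)).ne'
    have e : ∀ {s : ℕ}, s.Prime → s ∣ Nat.card (L ⧸ center L) → s = l := fun hs h4 =>
      by_contra fun h5 => h3 _ hs h5 h4
    have : Fact l.Prime := ⟨e hr hd ▸ hr⟩
    have := (IsPGroup.of_card (Nat.eq_prime_pow_of_unique_prime_dvd Nat.card_pos.ne' e)).isNilpotent
    exact (Group.IsSolvable.commutator_lt_top_of_nontrivial (L ⧸ center L)).ne h2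
  have : Fact r.Prime := ⟨hr⟩
  obtain ⟨x, hx⟩ := exists_prime_orderOf_dvd_card' r hd
  obtain ⟨y, rfl⟩ := QuotientGroup.mk'_surjective _ x
  obtain ⟨z, -, ⟨j, h4⟩, h5⟩ := PT.pel_lift (p := r) (QuotientGroup.mk' (center L))
    (isOfFinOrder_of_finite y) ⟨1, by rw [pow_one, ← hx, pow_orderOf_eq_one]⟩
  refine ⟨r, hr, hl, z, z.2, fun h6 => hr.ne_one ?_, j, congrArg Subtype.val h4⟩
  rw [← hx, ← h5, orderOf_eq_one_iff]
  exact (QuotientGroup.eq_one_iff _).2 (mem_center_iff.2 fun w => Subtype.ext (h6 w w.2))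

section Cs
variable {A : Subgroup H} {J : Type} [MulAction H J] {L : J → Subgroup H}

theorem Basic2.eq_of_le (h : Cs R A L) {i j : J} (e : L i ≤ L j) : i = j := by
  obtain ⟨a, ha, b, hb, hab⟩ := (h.qs i).noncomm
  exact by_contra fun h1 => hab (h.comm i j h1 a ha b (e hb))

theorem Cs.inj (h : Cs R A L) : Function.Injective L := fun _ _ e => eq_of_le h e.le

theorem Cs.normal (h : Cs R A L) : A.Normal := by
  refine ⟨fun a ha x => ?_⟩
  rw [← h.sup] at ha ⊢
  exact (iSup_le fun j y hy => le_iSup L (x • j) (h.conj x j y hy) :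
    ⨆ j, L j ≤ (⨆ j, L j).comap (MulAut.conj x).toMonoidHom) ha

theorem Cs.smul_eq (h : Cs R A L) {a : H} (ha : a ∈ A) (j : J) : a • j = j := by
  rw [← h.sup] at ha
  refine (iSup_le fun i x hx => (eq_of_le h fun y hy => ?_ : x • j = j) :
    ⨆ j, L j ≤ MulAction.stabilizer H j) ha
  have h1 := h.conj x⁻¹ _ y hy
  rw [inv_smul_smul, inv_inv] at h1
  by_cases e : i = j
  · subst e
    convert mul_mem (mul_mem hx h1) (inv_mem hx) using 1
    group
  · rw [← (h.comm i j e x hx _ h1).mul_inv_cancel] at h1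
    convert h1 using 1
    group

theorem Cs.mem_iff (h : Cs R A L) (x y : H) (j : J) : x * y * x⁻¹ ∈ L (x • j) ↔ y ∈ L j :=
  ⟨fun h1 => by simpa [mul_assoc] using h.conj x⁻¹ _ _ h1, h.conj x j y⟩

end Cs

/-- A perfect subgroup which commutes with `s` modulo an abelian group centralizing it. -/
theorem commute_of_perfect {E Z : Subgroup H} (hE : ⁅E, E⁆ = E) {s : H}
    (hZ : ∀ z ∈ Z, ∀ z' ∈ Z, Commute z z') (hZE : ∀ z ∈ Z, ∀ e ∈ E, Commute z e)
    (h : ∀ e ∈ E, ⁅s, e⁆ ∈ Z) : ∀ e ∈ E, Commute s e := by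
  have h1 : ⁅E, E⁆ ≤ centralizer {s} := by
    refine commutator_le.2 fun a ha b hb => mem_centralizer_singleton_iff.2 ?_
    have k1 : Commute ⁅s, a⁆ (a * ⁅s, b⁆ * b * a⁻¹) := (((hZE _ (h a ha) a ha).mul_right
      (hZ _ (h a ha) _ (h b hb))).mul_right (hZE _ (h a ha) b hb)).mul_right
      (hZE _ (h a ha) a ha).inv_right
    have k2 : Commute ⁅s, b⁆ (b * a⁻¹ * b⁻¹) :=
      hZE _ (h b hb) _ (mul_mem (mul_mem hb (inv_mem ha)) (inv_mem hb))
    calc ⁅a, b⁆ * s = a * (⁅s, b⁆ * (b * a⁻¹ * b⁻¹) * ⁅s, b⁆⁻¹) * s := by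
          rw [k2.mul_inv_cancel]; group
      _ = (a * ⁅s, b⁆ * b * a⁻¹) * b⁻¹ * ⁅s, b⁆⁻¹ * s := by group
      _ = (⁅s, a⁆ * (a * ⁅s, b⁆ * b * a⁻¹) * ⁅s, a⁆⁻¹) * b⁻¹ * ⁅s, b⁆⁻¹ * s := by
          rw [k1.mul_inv_cancel]
      _ = s * ⁅a, b⁆ := by group
  exact fun e he => (mem_centralizer_singleton_iff.1 (h1 (hE.symm ▸ he))).symm

/-- The faithful quotient. -/
theorem exists_faithful {M : Type} [Monoid M] (ρ : H →* M) :
    ∃ ρ' : H ⧸ ρ.ker →* M, Function.Injective ρ' ∧ ∀ y : H, ρ' y = ρ y := by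
  refine ⟨QuotientGroup.lift _ ρ fun _ h => h, (injective_iff_map_eq_one _).2 fun a ha => ?_,
    fun _ => rfl⟩
  obtain ⟨y, rfl⟩ := QuotientGroup.mk_surjective a
  exact (QuotientGroup.eq_one_iff y).2 ha

end Grp

section Rank
variable {H K V : Type} [Group H] [Field K] [AddCommGroup V] [Module K V] [FiniteDimensional K V]

theorem rk_le (a : Module.End K V) : rk a ≤ Module.finrank K V := Submodule.finrank_le _

theorem rk_eq_zero {a : Module.End K V} : rk a = 0 ↔ a = 0 := by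
  rw [rk, Submodule.finrank_eq_zero, LinearMap.range_eq_bot]

theorem rk_add_le (a b : Module.End K V) : rk (a + b) ≤ rk a + rk b :=
  (Submodule.finrank_mono (LinearMap.range_add_le a b)).trans
    (Submodule.finrank_add_le_finrank_add_finrank _ _)

theorem rk_sub_le (a b : Module.End K V) : rk (a - b) ≤ rk a + rk b := by
  rw [sub_eq_add_neg]
  exact (rk_add_le a (-b)).trans_eq (by rw [rk.eq_def (-b), LinearMap.range_neg, ← rk])

theorem rk_mul_le_left (a b : Module.End K V) : rk (a * b) ≤ rk a :=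
  Submodule.finrank_mono (LinearMap.range_comp_le_range b a)

theorem rk_mul_le_right (a b : Module.End K V) : rk (a * b) ≤ rk b := by
  rw [rk, Module.End.mul_eq_comp, LinearMap.range_comp]
  exact Submodule.finrank_map_le _ _

theorem rk_smul_le (c : K) (a : Module.End K V) : rk (c • a) ≤ rk a := by
  simpa using rk_mul_le_left a (c • 1)

theorem rk_mul_sub (a b : Module.End K V) (s t : K) :
    rk (a * b - (s * t) • 1) ≤ rk (a - s • 1) + rk (b - t • 1) := by
  have e : a * b - (s * t) • 1 = t • (a - s • 1) + a * (b - t • 1) := by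
    simp [mul_sub, smul_sub, smul_smul, mul_comm]
  rw [e]
  exact (rk_add_le _ _).trans (add_le_add (rk_smul_le _ _) (rk_mul_le_right _ _))

variable (ρ : H →* Module.End K V)

theorem rk_map (g : H) : rk (ρ g) = Module.finrank K V := by
  refine (rk_le _).antisymm (le_trans (le_of_eq ?_) (rk_mul_le_left (ρ g) (ρ g⁻¹)))
  rw [← map_mul, mul_inv_cancel, map_one, rk, Module.End.one_eq_id, LinearMap.range_id, finrank_top]

theorem rk_map_mul (a b : H) : rk (ρ (a * b) - 1) ≤ rk (ρ a - 1) + rk (ρ b - 1) := by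
  simpa using rk_mul_sub (ρ a) (ρ b) 1 1

theorem rk_map_inv (a : H) : rk (ρ a⁻¹ - 1) = rk (ρ a - 1) := by
  have h : ∀ a : H, rk (ρ a⁻¹ - 1) ≤ rk (ρ a - 1) := fun a => by
    have e : ρ a⁻¹ - 1 = -ρ a⁻¹ * (ρ a - 1) := by simp [mul_sub, ← map_mul, neg_add_eq_sub]
    rw [e]
    exact rk_mul_le_right _ _
  exact (h a).antisymm (by simpa using h a⁻¹)

theorem rk_map_conj (a b : H) (t : K) : rk (ρ (b * a * b⁻¹) - t • 1) = rk (ρ a - t • 1) := by
  have h : ∀ a b : H, rk (ρ (b * a * b⁻¹) - t • 1) ≤ rk (ρ a - t • 1) := fun a b => by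
    have e : ρ (b * a * b⁻¹) - t • 1 = ρ b * (ρ a - t • 1) * ρ b⁻¹ := by
      simp [mul_sub, sub_mul, ← map_mul]
    rw [e]
    exact (rk_mul_le_left _ _).trans (rk_mul_le_right _ _)
  exact (h a b).antisymm (by simpa [mul_assoc] using h (b * a * b⁻¹) b⁻¹)

theorem rk_map_comm (a b : H) (t : K) : rk (ρ ⁅a, b⁆ - 1) ≤ 2 * rk (ρ a - t • 1) := by
  have e : ρ ⁅a, b⁆ - 1 = ((ρ a - t • 1) * ρ b - ρ b * (ρ a - t • 1)) * ρ (a⁻¹ * b⁻¹) := by
    simp [mul_sub, sub_mul, ← map_mul, commutatorElement_def, mul_assoc]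
  rw [e, two_mul]
  exact (rk_mul_le_left _ _).trans ((rk_sub_le _ _).trans
    (add_le_add (rk_mul_le_left _ _) (rk_mul_le_right _ _)))

/-- A subgroup without small representations fixes small invariant subspaces. -/
theorem Lo.fx {R : Subgroup H} {D : ℕ} (h : Lo R D) {U : Submodule K V} (hU : Iv ρ R U)
    (hD : Module.finrank K U ≤ D) : ∀ u ∈ U, Fx ρ R u := by
  intro u hu r hr
  let σ : R →* Module.End K U :=
    { toFun := fun y => (ρ y).restrict (hU y y.2)
      map_one' := by ext; simp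
      map_mul' := fun a b => by ext; simp }
  exact congrArg Subtype.val (LinearMap.congr_fun (h K U σ hD ⟨r, hr⟩) ⟨u, hu⟩)

omit [FiniteDimensional K V] in
/-- Normal subgroups with a nonzero fixed vector act trivially on irreducible modules. -/
theorem Irr.eq_one (h : Irr ρ) {N : Subgroup H} (hN : N.Normal) {v : V} (hv : v ≠ 0)
    (hf : Fx ρ N v) : ∀ y ∈ N, ρ y = 1 := by
  let U : Submodule K V :=
    { carrier := {w | Fx ρ N w}
      zero_mem' := fun _ _ => map_zero _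
      add_mem' := fun ha hb y hy => by rw [map_add, ha y hy, hb y hy]
      smul_mem' := fun c _ ha y hy => by rw [map_smul, ha y hy] }
  have h1 := (h U fun g w hw y hy => ?_).resolve_left fun e => hv (e.le hf)
  · exact fun y hy => LinearMap.ext fun w => h1.ge Submodule.mem_top y hy
  · rw [← Module.End.mul_apply, ← map_mul, show y * g = g * (g⁻¹ * y * g) by group, map_mul,
      Module.End.mul_apply, hw _ (hN.conj_mem' y hy g)]

end Rank

end Pool.Agent.Lib.MP_679d9b_al.KG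
end

-- part Pool.Agent.Lib.MP_679d9b_al.KG.Basic
section

end
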