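import Mathlib
import Pool.Agent.Lib.MP_679d9b_al.KG.Basic

/-!
Averaging operators and types of vectors.
-/

set_option autoImplicit false

namespace Pool.Agent.Lib.MP_679d9b_al.KG

open Subgroup
open scoped commutatorElement

variable {H K V : Type} [Group H] [Finite H] [Field K] [AddCommGroup V] [Module K V]
  {ρ : H →* Module.End K V} {P P' D κ κ' : Subgroup H} {v w : V}

namespace TyAux

omit [Finite H] in
theorem av_def (ρ : H →* Module.End K V) (P : Subgroup H) [Fintype P] :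
    av ρ P = (Nat.card P : K)⁻¹ • ∑ y : P, ρ y := by
  rw [av, finsum_eq_sum_of_fintype]

omit [Finite H] in
theorem card_ne_of_le (hD : (Nat.card D : K) ≠ 0) (hP : P ≤ D) : (Nat.card P : K) ≠ 0 := by
  obtain ⟨c, hc⟩ := Subgroup.card_dvd_of_le hP
  intro h
  apply hD
  rw [hc, Nat.cast_mul, h, zero_mul]

omit [Finite H] in
theorem map_mul_apply (ρ : H →* Module.End K V) (x y : H) (u : V) :
    ρ (x * y) u = ρ x (ρ y u) := by
  rw [map_mul, Module.End.mul_apply]

/-- The stabiliser of a vector. -/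
def stab (ρ : H →* Module.End K V) (u : V) : Subgroup H where
  carrier := {y | ρ y u = u}
  mul_mem' := fun {a b} ha hb => by
    have ha' : ρ a u = u := ha
    have hb' : ρ b u = u := hb
    change ρ (a * b) u = u
    rw [map_mul, Module.End.mul_apply, hb', ha']
  one_mem' := by
    change ρ 1 u = u
    rw [map_one, Module.End.one_apply]
  inv_mem' := fun {a} ha => by
    have ha' : ρ a u = u := ha
    change ρ a⁻¹ u = u
    conv_lhs => rw [← ha']
    rw [← Module.End.mul_apply, ← map_mul, inv_mul_cancel, map_one, Module.End.one_apply]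

omit [Finite H] in
theorem fx_iff : Fx ρ P v ↔ P ≤ stab ρ v := Iff.rfl

omit [Finite H] in
theorem fx_sup (h : Fx ρ P v) (h' : Fx ρ P' v) : Fx ρ (P ⊔ P') v :=
  fx_iff.2 (sup_le (fx_iff.1 h) (fx_iff.1 h'))

omit [Finite H] in
/-- Subgroups between the commutator subgroup and the group are normalized. -/
theorem conj_mem_of_comm {E : Subgroup H} (hc : ⁅E, E⁆ ≤ P) (hP : P ≤ E) {x y : H} (hx : x ∈ E)
    (hy : y ∈ P) : x * y * x⁻¹ ∈ P := by
  have h1 : ⁅x, y⁆ ∈ P := hc (commutator_mem_commutator hx (hP hy))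
  have h2 : x * y * x⁻¹ = ⁅x, y⁆ * y := by
    rw [commutatorElement_def]; group
  rw [h2]
  exact P.mul_mem h1 hy

end TyAux

open TyAux

theorem card_ne {r : ℕ} [Fact r.Prime] (hr : (r : K) ≠ 0) (h : IsPGroup r D) (hP : P ≤ D) :
    (Nat.card P : K) ≠ 0 := by
  obtain ⟨k, hk⟩ := IsPGroup.iff_card.1 h
  refine card_ne_of_le ?_ hP
  rw [hk, Nat.cast_pow]
  exact pow_ne_zero _ hr

theorem mul_av {y : H} (hy : y ∈ P) : ρ y * av ρ P = av ρ P := by
  have := Fintype.ofFinite P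
  rw [av_def, mul_smul_comm, Finset.mul_sum]
  congr 1
  refine Fintype.sum_equiv (Equiv.mulLeft (⟨y, hy⟩ : P)) _ _ fun z => ?_
  rw [← map_mul]
  rfl

theorem av_mul {y : H} (hy : y ∈ P) : av ρ P * ρ y = av ρ P := by
  have := Fintype.ofFinite P
  rw [av_def, smul_mul_assoc, Finset.sum_mul]
  congr 1
  refine Fintype.sum_equiv (Equiv.mulRight (⟨y, hy⟩ : P)) _ _ fun z => ?_
  rw [← map_mul]
  rfl

theorem fx_av (v : V) : Fx ρ P (av ρ P v) := by
  intro y hy
  rw [← Module.End.mul_apply, mul_av hy]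

theorem av_of_fx (hP : (Nat.card P : K) ≠ 0) (h : Fx ρ P v) : av ρ P v = v := by
  have := Fintype.ofFinite P
  rw [av_def, LinearMap.smul_apply, LinearMap.sum_apply,
    Finset.sum_congr rfl fun (y : P) _ => h y y.2, Finset.sum_const, Finset.card_univ,
    ← Nat.card_eq_fintype_card, ← Nat.cast_smul_eq_nsmul K, smul_smul, inv_mul_cancel₀ hP,
    one_smul]

theorem av_mem {W : Submodule K V} (hW : Iv ρ P W) (hv : v ∈ W) : av ρ P v ∈ W := by
  have := Fintype.ofFinite P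
  rw [av_def, LinearMap.smul_apply, LinearMap.sum_apply]
  exact W.smul_mem _ (W.sum_mem fun y _ => hW y y.2 v hv)

/-- Operators which commute with the subgroup commute with its average. -/
theorem commute_av {T : Module.End K V} (h : ∀ y ∈ P, Commute T (ρ y)) : Commute T (av ρ P) := by
  have := Fintype.ofFinite P
  rw [av_def]
  exact (Commute.sum_right _ _ _ fun (y : P) _ => h y y.2).smul_right _

theorem TyAux.av_conj' (x : H) :
    av ρ (P.map (MulAut.conj x).toMonoidHom) = ρ x * av ρ P * ρ x⁻¹ := by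
  have := Fintype.ofFinite P
  have := Fintype.ofFinite (P.map (MulAut.conj x).toMonoidHom)
  let e : P ≃ P.map (MulAut.conj x).toMonoidHom :=
    (P.equivMapOfInjective (MulAut.conj x).toMonoidHom (MulAut.conj x).injective).toEquiv
  rw [av_def, av_def, ← Nat.card_congr e, mul_smul_comm, smul_mul_assoc, Finset.mul_sum,
    Finset.sum_mul]
  congr 1
  refine (Fintype.sum_equiv e _ _ fun z => ?_).symm
  rw [← map_mul, ← map_mul]
  rfl

theorem commute_av_of_norm {x : H} (h : ∀ y ∈ P, x * y * x⁻¹ ∈ P) : Commute (ρ x) (av ρ P) := by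
  have hle : P.map (MulAut.conj x).toMonoidHom ≤ P := by
    rintro _ ⟨y, hy, rfl⟩
    exact h y hy
  have he : P.map (MulAut.conj x).toMonoidHom = P :=
    Subgroup.eq_of_le_of_card_ge hle
      (Subgroup.card_map_of_injective (MulAut.conj x).injective).ge
  have h1 := TyAux.av_conj' (ρ := ρ) (P := P) x
  rw [he] at h1
  change ρ x * av ρ P = av ρ P * ρ x
  conv_rhs => rw [h1]
  rw [mul_assoc, ← map_mul, inv_mul_cancel, map_one, mul_one]

theorem av_conj (x : H) :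
    av ρ (P.map (MulAut.conj x).toMonoidHom) = ρ x * av ρ P * ρ x⁻¹ :=
  TyAux.av_conj' x

theorem av_mul_av_of_le (hP : (Nat.card P : K) ≠ 0) (h : P ≤ P') :
    av ρ P' * av ρ P = av ρ P' ∧ av ρ P * av ρ P' = av ρ P' := by
  have := Fintype.ofFinite P
  constructor
  · rw [av_def ρ P, mul_smul_comm, Finset.mul_sum,
      Finset.sum_congr rfl fun (y : P) _ => av_mul (h y.2), Finset.sum_const, Finset.card_univ,
      ← Nat.card_eq_fintype_card, ← Nat.cast_smul_eq_nsmul K, smul_smul, inv_mul_cancel₀ hP,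
      one_smul]
  · ext u
    rw [Module.End.mul_apply]
    exact av_of_fx hP fun y hy => fx_av u y (h hy)

/-- If `P'` normalizes `P` and fixes `w`, the average over `P` is fixed by both. -/
theorem fx_sup_av (h : ∀ x ∈ P', ∀ y ∈ P, x * y * x⁻¹ ∈ P) (hw : Fx ρ P' w) :
    Fx ρ (P ⊔ P') (av ρ P w) := by
  refine fx_sup (fx_av w) fun x hx => ?_
  rw [← Module.End.mul_apply, (commute_av_of_norm (h x hx)).eq, Module.End.mul_apply, hw x hx]

theorem av_sup (hP : (Nat.card (P ⊔ P' : Subgroup H) : K) ≠ 0)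
    (h : ∀ x ∈ P', ∀ y ∈ P, x * y * x⁻¹ ∈ P) (hw : Fx ρ P' w) :
    av ρ (P ⊔ P') w = av ρ P w := by
  rw [← (av_mul_av_of_le (card_ne_of_le hP le_sup_left) (le_sup_left : P ≤ P ⊔ P')).1,
    Module.End.mul_apply]
  exact av_of_fx hP (fx_sup_av h hw)

/-- A maximal subgroup whose average does not kill `W`. -/
theorem exists_ty (hD : (Nat.card D : K) ≠ 0) {W : Submodule K V} (hW : W ≠ ⊥) (hP : P ≤ D)
    (hf : ∀ w ∈ W, Fx ρ P w) :
    ∃ κ, P ≤ κ ∧ W.map (av ρ κ) ≠ ⊥ ∧ ∀ w ∈ W, Ty ρ D κ (av ρ κ w) := by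
  have hP0 : W.map (av ρ P) ≠ ⊥ := by
    obtain ⟨u, hu, hu0⟩ := (Submodule.ne_bot_iff W).1 hW
    exact (Submodule.ne_bot_iff _).2
      ⟨u, ⟨u, hu, av_of_fx (card_ne_of_le hD hP) (hf u hu)⟩, hu0⟩
  obtain ⟨κ, ⟨h1, h2, h3⟩, hmax⟩ := exists_maximal_of_wellFoundedGT
    (fun κ : Subgroup H => P ≤ κ ∧ κ ≤ D ∧ W.map (av ρ κ) ≠ ⊥) ⟨P, le_rfl, hP, hP0⟩
  refine ⟨κ, h1, h3, fun u hu => ⟨h2, fx_av u, fun κ' hlt hle => ?_⟩⟩
  have h4 : W.map (av ρ κ') = ⊥ := by
    by_contra hne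
    exact hlt.not_ge (hmax ⟨h1.trans hlt.le, hle, hne⟩ hlt.le)
  rw [← Module.End.mul_apply, (av_mul_av_of_le (card_ne_of_le hD h2) hlt.le).1]
  have h5 : av ρ κ' u ∈ W.map (av ρ κ') := ⟨u, hu, rfl⟩
  rwa [h4, Submodule.mem_bot] at h5

theorem Ty.conj (h : Ty ρ D κ v) (x : H) :
    Ty ρ (D.map (MulAut.conj x).toMonoidHom) (κ.map (MulAut.conj x).toMonoidHom) (ρ x v) := by
  obtain ⟨h1, h2, h3⟩ := h
  refine ⟨map_mono h1, ?_, fun κ' hlt hle => ?_⟩
  · rintro _ ⟨y, hy, rfl⟩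
    change ρ (x * y * x⁻¹) (ρ x v) = ρ x v
    rw [← map_mul_apply, inv_mul_cancel_right, map_mul_apply, h2 y hy]
  · have hinj : Function.Injective (MulAut.conj x).toMonoidHom := (MulAut.conj x).injective
    have hsurj : Function.Surjective (MulAut.conj x).toMonoidHom := (MulAut.conj x).surjective
    have he : (κ'.comap (MulAut.conj x).toMonoidHom).map (MulAut.conj x).toMonoidHom = κ' :=
      map_comap_eq_self_of_surjective hsurj κ'
    have hlt' : κ < κ'.comap (MulAut.conj x).toMonoidHom := by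
      refine lt_of_le_of_ne (map_le_iff_le_comap.1 hlt.le) fun e => hlt.ne ?_
      rw [← he, ← e]
    have hle' : κ'.comap (MulAut.conj x).toMonoidHom ≤ D := by
      rw [← map_le_map_iff_of_injective hinj, he]
      exact hle
    rw [← he, av_conj, Module.End.mul_apply, Module.End.mul_apply, ← map_mul_apply,
      inv_mul_cancel, map_one, Module.End.one_apply, h3 _ hlt' hle', map_zero]

theorem Ty.le (hD : (Nat.card D : K) ≠ 0) (h : Ty ρ D κ v) (hv : v ≠ 0) (hP : P ≤ D)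
    (hf : Fx ρ P v) : P ≤ κ := by
  obtain ⟨h1, h2, h3⟩ := h
  by_contra hne
  have hlt : κ < κ ⊔ P := left_lt_sup.2 hne
  have hle : κ ⊔ P ≤ D := sup_le h1 hP
  exact hv ((av_of_fx (card_ne_of_le hD hle) (fx_sup h2 hf)).symm.trans (h3 _ hlt hle))

/-- The average over a subgroup which is not inside the type kills the vector. -/
theorem TyAux.av_eq_zero (hD : (Nat.card D : K) ≠ 0) (h : Ty ρ D κ v) (hP : P ≤ D)
    (hc : ⁅D, D⁆ ≤ P) (hne : ¬ P ≤ κ) : av ρ P v = 0 := by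
  obtain ⟨h1, h2, h3⟩ := h
  have hle : P ⊔ κ ≤ D := sup_le hP h1
  rw [← av_sup (card_ne_of_le hD hle) (fun x hx y hy => conj_mem_of_comm hc hP (h1 hx) hy) h2]
  exact h3 _ (right_lt_sup.2 hne) hle

theorem Ty.restrict {E : Subgroup H} (hE : (Nat.card E : K) ≠ 0) (h : Ty ρ E κ v) (hD : D ≤ E)
    (hc : ⁅E, E⁆ ≤ κ ⊓ D) : Ty ρ D (κ ⊓ D) v := by
  refine ⟨inf_le_right, fun y hy => h.2.1 y hy.1, fun κ' hlt hle => ?_⟩
  exact av_eq_zero hE h (hle.trans hD) (hc.trans hlt.le) fun h1 => hlt.not_ge (le_inf h1 hle)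

/-- Vectors of different types are separated. -/
theorem Ty.sep (hD : (Nat.card D : K) ≠ 0) (h : Ty ρ D κ v) (h' : Ty ρ D κ' w) (hne : κ ≠ κ')
    (hc : ⁅D, D⁆ ≤ κ ⊓ κ') : Sep ρ κ v w ∨ Sep ρ κ' v w := by
  by_cases h1 : κ ≤ κ'
  · have h2 : ¬ κ' ≤ κ := fun h2 => hne (le_antisymm h1 h2)
    exact Or.inr (Or.inr ⟨av_eq_zero hD h h'.1 (hc.trans inf_le_right) h2, h'.2.1⟩)
  · exact Or.inl (Or.inl ⟨h.2.1, av_eq_zero hD h' h.1 (hc.trans inf_le_left) h1⟩)

namespace TyAux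

section Ab
variable {A : Type} [Group A] {r : ℕ}

/-- Elements of order `r` generate the same subgroup. -/
theorem socle (hp : r.Prime) (hr : (r : K) ≠ 0) (hc : ∀ a b : A, Commute a b) (f : A → V)
    (hf : ∀ (a c : A) (m : ℕ), a ≠ 1 → a ^ m = 1 → ∑ j ∈ Finset.range m, f (c * a ^ j) = 0)
    (h1 : f 1 ≠ 0) {a b : A} (ha : a ≠ 1) (har : a ^ r = 1) (hbr : b ^ r = 1) :
    ∃ n : ℕ, b * a ^ n = 1 := by
  by_contra hn
  push Not at hn
  have : Fact r.Prime := ⟨hp⟩
  have ho : orderOf a = r := orderOf_eq_prime har ha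
  have h2 : ∑ i ∈ Finset.range r, ∑ j ∈ Finset.range r, f (1 * (b * a ^ i) ^ j) = 0 :=
    Finset.sum_eq_zero fun i _ => hf _ _ _ (hn i) (by
      rw [(hc _ _).mul_pow, hbr, one_mul, ← pow_mul, mul_comm, pow_mul, har, one_pow])
  rw [Finset.sum_comm, Finset.sum_eq_single 0] at h2
  · simp only [pow_zero, mul_one, Finset.sum_const, Finset.card_range] at h2
    rw [← Nat.cast_smul_eq_nsmul K] at h2
    exact h1 ((smul_eq_zero.1 h2).resolve_left hr)
  · intro j hj hj0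
    have h3 : a ^ j ≠ 1 := pow_ne_one_of_lt_orderOf hj0 (by rw [ho]; exact Finset.mem_range.1 hj)
    refine (Finset.sum_congr rfl fun i _ => ?_).trans (hf (a ^ j) (b ^ j) r h3 ?_)
    · rw [one_mul, (hc _ _).mul_pow, ← pow_mul, ← pow_mul, mul_comm i j]
    · rw [← pow_mul, mul_comm, pow_mul, har, one_pow]
  · intro h
    exact absurd (Finset.mem_range.2 hp.pos) h

theorem mem_of_socle (hp : r.Prime) (hc : ∀ a b : A, Commute a b)
    (hs : ∀ a b : A, a ≠ 1 → a ^ r = 1 → b ^ r = 1 → ∃ n : ℕ, b * a ^ n = 1) (k : ℕ) :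
    ∀ x y : A, orderOf y = r ^ k → x ^ r ^ k = 1 → x ∈ zpowers y := by
  induction k with
  | zero =>
    intro x y _ hx
    rw [pow_zero, pow_one] at hx
    rw [hx]
    exact one_mem _
  | succ k ih =>
    intro x y hy hx
    have h1 : y ^ r ^ k ≠ 1 := pow_ne_one_of_lt_orderOf (pow_ne_zero _ hp.ne_zero)
      (by rw [hy]; exact Nat.pow_lt_pow_right hp.one_lt (Nat.lt_succ_self k))
    obtain ⟨n, hn⟩ := hs (y ^ r ^ k) (x ^ r ^ k) h1
      (by rw [← pow_mul, ← pow_succ, ← hy, pow_orderOf_eq_one])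
      (by rw [← pow_mul, ← pow_succ, hx])
    have h2 : orderOf (y ^ r) = r ^ k := by
      rw [orderOf_pow' y hp.ne_zero, hy, pow_succ, Nat.gcd_mul_left_left,
        Nat.mul_div_cancel _ hp.pos]
    have h3 : x * y ^ n ∈ zpowers (y ^ r) := ih _ _ h2 (by
      rw [(hc _ _).mul_pow, ← pow_mul y, mul_comm n, pow_mul y, hn])
    have h4 : zpowers (y ^ r) ≤ zpowers y := zpowers_le_of_mem (npow_mem_zpowers y r)
    have h5 := mul_mem (h4 h3) (inv_mem (npow_mem_zpowers y n))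
    rwa [mul_inv_cancel_right] at h5

end Ab

/-- The common core of the chain and the cyclicity lemma. -/
theorem core {r : ℕ} [Fact r.Prime] (hr : (r : K) ≠ 0) (hD : IsPGroup r D) (h : Ty ρ D κ v)
    (hv : v ≠ 0) (hc : ⁅D, D⁆ ≤ κ) :
    ∃ o : D → ℕ, ∀ x y : D, o x ≤ o y → ∃ n : ℕ, (x : H)⁻¹ * (y : H) ^ n ∈ κ := by
  have hp : r.Prime := Fact.out
  have hDK : (Nat.card D : K) ≠ 0 := card_ne hr hD le_rfl
  have hN : (κ.subgroupOf D).Normal :=
    ⟨fun y hy x => conj_mem_of_comm hc h.1 x.2 (mem_subgroupOf.1 hy)⟩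
  have hq : ∀ x y : D, (x : D ⧸ κ.subgroupOf D) = y ↔ (x : H)⁻¹ * y ∈ κ := fun x y => by
    rw [QuotientGroup.eq, mem_subgroupOf]
    rfl
  have hcomm : ∀ a b : D ⧸ κ.subgroupOf D, Commute a b := by
    intro a b
    obtain ⟨x, rfl⟩ := QuotientGroup.mk_surjective a
    obtain ⟨y, rfl⟩ := QuotientGroup.mk_surjective b
    change ((x * y : D) : D ⧸ κ.subgroupOf D) = (y * x : D)
    rw [hq]
    have h1 := hc (commutator_mem_commutator (inv_mem y.2) (inv_mem x.2))
    have h2 : ((x * y : D) : H)⁻¹ * (y * x : D) = ⁅(y : H)⁻¹, (x : H)⁻¹⁆ := by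
      rw [commutatorElement_def, coe_mul, coe_mul]; group
    rwa [h2]
  have hwd : ∀ x y : D, (x : D ⧸ κ.subgroupOf D) = y → ρ x v = ρ y v := fun x y e => by
    have h1 := h.2.1 _ ((hq x y).1 e)
    conv_lhs => rw [← h1]
    rw [← map_mul_apply, mul_inv_cancel_left]
  let f : D ⧸ κ.subgroupOf D → V := fun a => ρ (a.out : D) v
  have hf : ∀ x : D, f x = ρ x v := fun x => hwd _ _ (QuotientGroup.out_eq' _)
  have hsum : ∀ (a c : D ⧸ κ.subgroupOf D) (m : ℕ), a ≠ 1 → a ^ m = 1 →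
      ∑ j ∈ Finset.range m, f (c * a ^ j) = 0 := by
    intro a c m ha ham
    obtain ⟨x, rfl⟩ := QuotientGroup.mk_surjective a
    obtain ⟨y, rfl⟩ := QuotientGroup.mk_surjective c
    have hx : (x : H) ∉ κ := fun hx => ha ((QuotientGroup.eq_one_iff x).2 (mem_subgroupOf.2 hx))
    have hxm : (x : H) ^ m ∈ κ := by
      have h1 : ((x ^ m : D) : D ⧸ κ.subgroupOf D) = 1 := by
        rw [QuotientGroup.mk_pow, ham]
      exact mem_subgroupOf.1 ((QuotientGroup.eq_one_iff _).1 h1)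
    have hle : κ ⊔ zpowers (x : H) ≤ D := sup_le h.1 (zpowers_le_of_mem x.2)
    have hlt : κ < κ ⊔ zpowers (x : H) :=
      left_lt_sup.2 fun h1 => hx (h1 (mem_zpowers _))
    have hfix : Fx ρ (κ ⊔ zpowers (x : H)) (∑ j ∈ Finset.range m, ρ ((x : H) ^ j) v) := by
      refine fx_sup (fun z hz => ?_) (fx_iff.2 (zpowers_le_of_mem ?_))
      · rw [map_sum]
        refine Finset.sum_congr rfl fun j _ => ?_
        have h1 := h.2.1 _ (conj_mem_of_comm hc h.1 (inv_mem (pow_mem x.2 j)) hz)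
        conv_rhs => rw [← h1]
        rw [← map_mul_apply, ← map_mul_apply]
        congr 2
        group
      · change ρ x _ = _
        rw [map_sum]
        have h1 := Finset.sum_range_succ' (fun j => ρ ((x : H) ^ j) v) m
        rw [Finset.sum_range_succ, h.2.1 _ hxm, pow_zero, map_one, Module.End.one_apply,
          add_left_inj] at h1
        rw [h1]
        refine Finset.sum_congr rfl fun j _ => ?_
        rw [← map_mul_apply, pow_succ']
    have h0 : ∑ j ∈ Finset.range m, ρ ((x : H) ^ j) v = 0 := by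
      rw [← av_of_fx (card_ne_of_le hDK hle) hfix, map_sum]
      refine Finset.sum_eq_zero fun j _ => ?_
      rw [← Module.End.mul_apply, av_mul (mem_sup_right (npow_mem_zpowers (x : H) j))]
      exact h.2.2 _ hlt hle
    have h2 : ∀ j : ℕ, f ((y : D ⧸ κ.subgroupOf D) * (x : D ⧸ κ.subgroupOf D) ^ j) =
        ρ y (ρ ((x : H) ^ j) v) := fun j => by
      rw [← QuotientGroup.mk_pow, ← QuotientGroup.mk_mul, hf, ← map_mul_apply]
      rfl
    rw [Finset.sum_congr rfl fun j _ => h2 j, ← map_sum, h0, map_zero]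
  have hf1 : f 1 ≠ 0 := by
    rw [← QuotientGroup.mk_one, hf, coe_one, map_one, Module.End.one_apply]
    exact hv
  have hQ : IsPGroup r (D ⧸ κ.subgroupOf D) := hD.to_quotient _
  refine ⟨fun x => orderOf (x : D ⧸ κ.subgroupOf D), fun x y hxy => ?_⟩
  obtain ⟨a, ha⟩ := IsPGroup.iff_orderOf.1 hQ (x : D ⧸ κ.subgroupOf D)
  obtain ⟨b, hb⟩ := IsPGroup.iff_orderOf.1 hQ (y : D ⧸ κ.subgroupOf D)
  have hab : a ≤ b := by
    have h1 : r ^ a ≤ r ^ b := by rw [← ha, ← hb]; exact hxy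
    exact (Nat.pow_le_pow_iff_right hp.one_lt).1 h1
  have h1 := mem_of_socle hp hcomm
    (fun a b ha har hbr => socle hp hr hcomm f hsum hf1 ha har hbr) b
    (x : D ⧸ κ.subgroupOf D) y hb
    (orderOf_dvd_iff_pow_eq_one.1 (by rw [ha]; exact pow_dvd_pow r hab))
  obtain ⟨n, hn⟩ := mem_powers_iff_mem_zpowers.2 h1
  refine ⟨n, ?_⟩
  have h2 : (x : D ⧸ κ.subgroupOf D) = (y ^ n : D) := by
    rw [QuotientGroup.mk_pow]; exact hn.symm
  exact (hq x (y ^ n)).1 h2

end TyAux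

/-- Modulo a type the cyclic subgroups form a chain. -/
theorem Ty.chain {r : ℕ} [Fact r.Prime] (hr : (r : K) ≠ 0) (hD : IsPGroup r D) (h : Ty ρ D κ v)
    (hv : v ≠ 0) (hc : ⁅D, D⁆ ≤ κ) {x y : H} (hx : x ∈ D) (hy : y ∈ D) :
    (∃ n : ℕ, x⁻¹ * y ^ n ∈ κ) ∨ ∃ n : ℕ, y⁻¹ * x ^ n ∈ κ := by
  obtain ⟨o, ho⟩ := core hr hD h hv hc
  rcases le_total (o ⟨x, hx⟩) (o ⟨y, hy⟩) with h1 | h1
  · exact Or.inl (ho _ _ h1)
  · exact Or.inr (ho _ _ h1)

/-- Modulo a type the group is cyclic. -/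
theorem Ty.cyclic {r : ℕ} [Fact r.Prime] (hr : (r : K) ≠ 0) (hD : IsPGroup r D) (h : Ty ρ D κ v)
    (hv : v ≠ 0) (hc : ⁅D, D⁆ ≤ κ) : ∃ y ∈ D, ∀ x ∈ D, ∃ n : ℕ, x⁻¹ * y ^ n ∈ κ := by
  obtain ⟨o, ho⟩ := core hr hD h hv hc
  obtain ⟨y, hy⟩ := Finite.exists_max o
  exact ⟨y, y.2, fun x hx => ho ⟨x, hx⟩ y (hy _)⟩

namespace TyAux

theorem sep_central (h : Sep ρ P v w) {z : H} (hz : z ∈ center H) : Sep ρ P v (ρ z w) := by
  have hc : ∀ y, Commute (ρ z) (ρ y) := fun y =>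
    (show Commute z y from (mem_center_iff.1 hz y).symm).map ρ
  rcases h with ⟨h1, h2⟩ | ⟨h1, h2⟩
  · refine Or.inl ⟨h1, ?_⟩
    rw [← Module.End.mul_apply, ← (commute_av fun y _ => hc y).eq, Module.End.mul_apply, h2,
      map_zero]
  · refine Or.inr ⟨h1, fun y hy => ?_⟩
    rw [← Module.End.mul_apply, ← (hc y).eq, Module.End.mul_apply, h2 y hy]

theorem orth_aux {Q : Type} [AddCommGroup Q] (b : V →+ V →+ Q) (hP : (Nat.card P : K) ≠ 0)
    (hb : ∀ y ∈ P, ∀ u w, b (ρ y u) (ρ y w) = b u w) (h1 : Fx ρ P v) (h2 : av ρ P w = 0) :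
    b v w = 0 := by
  have := Fintype.ofFinite P
  have h3 : ∑ y : P, ρ y w = 0 := by
    rw [av_def, LinearMap.smul_apply, LinearMap.sum_apply] at h2
    exact (smul_eq_zero.1 h2).resolve_left (inv_ne_zero hP)
  have h4 : ∀ y : P, b ((Nat.card P : K)⁻¹ • v) (ρ y w) = b ((Nat.card P : K)⁻¹ • v) w :=
    fun y => by
      rw [← hb y y.2 _ w, map_smul (ρ y), h1 y y.2]
  have h5 : b ((Nat.card P : K)⁻¹ • v) (∑ y : P, ρ y w) = 0 := by rw [h3, map_zero]
  rw [map_sum, Finset.sum_congr rfl fun y _ => h4 y, Finset.sum_const, Finset.card_univ,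
    ← Nat.card_eq_fintype_card, ← AddMonoidHom.nsmul_apply, ← map_nsmul,
    ← Nat.cast_smul_eq_nsmul K, smul_smul, mul_inv_cancel₀ hP, one_smul] at h5
  exact h5

theorem orth {Q : Type} [AddCommGroup Q] (b : V →+ V →+ Q) (hP : (Nat.card P : K) ≠ 0)
    (hb : ∀ y ∈ P, ∀ u w, b (ρ y u) (ρ y w) = b u w) (h : Sep ρ P v w) : b v w = 0 := by
  rcases h with ⟨h1, h2⟩ | ⟨h1, h2⟩
  · exact orth_aux b hP hb h1 h2
  · exact orth_aux b.flip hP (fun y hy u w => hb y hy w u) h2 h1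

/-- A projection which separates. -/
theorem exists_proj (hP : (Nat.card P : K) ≠ 0) (g : H) (h : Sep ρ P v (ρ g v)) :
    ∃ π : Module.End K V, (π = av ρ P ∨ π = 1 - av ρ P) ∧ π v = v ∧
      ∀ z ∈ center H, π (ρ (g * z) v) = 0 := by
  have hz : ∀ z ∈ center H, ρ (g * z) v = ρ z (ρ g v) := fun z hz => by
    rw [mem_center_iff.1 hz g, map_mul_apply]
  rcases h with ⟨h1, h2⟩ | ⟨h1, h2⟩
  · refine ⟨av ρ P, Or.inl rfl, av_of_fx hP h1, fun z hz' => ?_⟩
    have hc : ∀ y, Commute (ρ z) (ρ y) := fun y =>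
      (show Commute z y from (mem_center_iff.1 hz' y).symm).map ρ
    rw [hz z hz', ← Module.End.mul_apply, ← (commute_av fun y _ => hc y).eq,
      Module.End.mul_apply, h2, map_zero]
  · refine ⟨1 - av ρ P, Or.inr rfl, ?_, fun z hz' => ?_⟩
    · rw [LinearMap.sub_apply, h1, sub_zero, Module.End.one_apply]
    · have hc : ∀ y, Commute (ρ z) (ρ y) := fun y =>
        (show Commute z y from (mem_center_iff.1 hz' y).symm).map ρ
      rw [hz z hz', LinearMap.sub_apply, Module.End.one_apply, ← Module.End.mul_apply (av ρ P),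
        ← (commute_av fun y _ => hc y).eq, Module.End.mul_apply, av_of_fx hP h2, sub_self]

omit [Group H] [Finite H] in
/-- The product of commuting projections. -/
theorem exists_prod {Φ : Finset H} (π : H → Module.End K V) (U : H → Set V)
    (hc : ∀ g ∈ Φ, ∀ g' ∈ Φ, Commute (π g) (π g')) (h1 : ∀ g ∈ Φ, π g v = v)
    (h2 : ∀ g ∈ Φ, ∀ u ∈ U g, π g u = 0) (S : Finset H) (hS : S ⊆ Φ) :
    ∃ T : Module.End K V, T v = v ∧ (∀ g ∈ S, ∀ u ∈ U g, T u = 0) ∧
      ∀ g ∈ Φ, Commute T (π g) := by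
  classical
  induction S using Finset.induction_on with
  | empty =>
    exact ⟨1, rfl, fun g hg => absurd hg (Finset.notMem_empty g), fun g _ => Commute.one_left _⟩
  | insert a S _ ih =>
    obtain ⟨T, t1, t2, t3⟩ := ih ((Finset.subset_insert a S).trans hS)
    have ha : a ∈ Φ := hS (Finset.mem_insert_self a S)
    refine ⟨T * π a, ?_, fun g hg u hu => ?_, fun g hg => (t3 g hg).mul_left (hc a ha g hg)⟩
    · rw [Module.End.mul_apply, h1 a ha, t1]
    · rcases Finset.mem_insert.1 hg with rfl | hg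
      · rw [Module.End.mul_apply, h2 g ha u hu, map_zero]
      · rw [(t3 a ha).eq, Module.End.mul_apply, t2 g hg u hu, map_zero]

end TyAux

theorem gvStmt : GvStmt := by
  intro H K V ι _ _ _ _ _ _ ρ R Φ t v hR ⟨hv, P, hP, hn⟩ ht
  classical
  have hav : ∀ g ∈ Φ, ∀ g' ∈ Φ, Commute (av ρ (P g')) (av ρ (P g)) := fun g hg g' hg' =>
    commute_av fun x hx => (commute_av_of_norm (hn g hg g' hg' x hx)).symm
  have hπ : ∀ g, ∃ π : Module.End K V, g ∈ Φ → (π = av ρ (P g) ∨ π = 1 - av ρ (P g)) ∧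
      π v = v ∧ ∀ z ∈ center H, π (ρ (g * z) v) = 0 := fun g => by
    by_cases hg : g ∈ Φ
    · obtain ⟨π, h⟩ := exists_proj (hP g hg).2.1 g (hP g hg).2.2
      exact ⟨π, fun _ => h⟩
    · exact ⟨0, fun h => absurd h hg⟩
  choose π hπ using hπ
  have hc : ∀ g ∈ Φ, ∀ g' ∈ Φ, Commute (π g) (π g') := fun g hg g' hg' => by
    have h := hav g' hg' g hg
    rcases (hπ g hg).1 with e | e <;> rcases (hπ g' hg').1 with e' | e' <;> rw [e, e']
    · exact h
    · exact (Commute.one_right _).sub_right h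
    · exact (Commute.one_left _).sub_left h
    · exact (Commute.one_left _).sub_left ((Commute.one_right _).sub_right h)
  obtain ⟨T, t1, t2, -⟩ := exists_prod π (fun g => {u | ∃ z ∈ center H, u = ρ (g * z) v}) hc
    (fun g hg => (hπ g hg).2.1)
    (fun g hg u ⟨z, hz, e⟩ => by rw [e]; exact (hπ g hg).2.2 z hz) Φ subset_rfl
  constructor
  · rw [linearIndependent_iff']
    intro s c hs i hi
    have h1 := congrArg (fun u => T (ρ (t i)⁻¹ u)) hs
    simp only [map_sum, map_smul, map_zero] at h1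
    rw [Finset.sum_eq_single i] at h1
    · rw [← map_mul_apply, inv_mul_cancel, map_one, Module.End.one_apply, t1] at h1
      exact (smul_eq_zero.1 h1).resolve_right hv
    · intro i' _ hne
      obtain ⟨g, hg, z, hz, e⟩ := ht i i' hne.symm
      rw [← map_mul_apply, e, t2 g hg _ ⟨z, hz, rfl⟩, smul_zero]
    · intro h
      exact absurd hi h
  · intro Q _ b hb i i' hne
    obtain ⟨g, hg, z, hz, e⟩ := ht i i' hne
    let L : V →+ V := (ρ (t i)).toAddMonoidHom
    have h1 := orth (ρ := ρ) (P := P g) (b.compl₂ L |>.comp L) (hP g hg).2.1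
      (fun y hy u w => by
        change b (ρ (t i) (ρ y u)) (ρ (t i) (ρ y w)) = b (ρ (t i) u) (ρ (t i) w)
        rw [← hb _ (hR.conj_mem y ((hP g hg).1 hy) (t i)) (ρ (t i) u), ← map_mul_apply,
          ← map_mul_apply, ← map_mul_apply, ← map_mul_apply, inv_mul_cancel_right])
      (sep_central (hP g hg).2.2 hz)
    change b (ρ (t i) v) (ρ (t i) (ρ z (ρ g v))) = 0 at h1
    rwa [← map_mul_apply ρ z, ← mem_center_iff.1 hz g, ← e, ← map_mul_apply,
      mul_inv_cancel_left] at h1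

end Pool.Agent.Lib.MP_679d9b_al.KG
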