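import Mathlib
import Pool.Agent.Lib.MP_679d9b_al.KG.Ty

-- part Pool.Agent.Lib.MP_679d9b_al.KG.Aa
section

/-!
The bottom of the action of `R` on the kernel.
-/

set_option autoImplicit false

namespace Pool.Agent.Lib.MP_679d9b_al.KG

open Subgroup
open scoped commutatorElement
open PT (PEl)

namespace Aa

variable {H : Type} [Group H]

theorem three {X Y : Subgroup H} (hY : ⁅Y, Y⁆ = Y) (h : ⁅X, Y⁆ ≤ centralizer (Y : Set H)) :
    X ≤ centralizer (Y : Set H) := by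
  have h1 := commutator_eq_bot_iff_le_centralizer.2 h
  have h2 := commutator_commutator_eq_bot_of_rotate (H₁ := Y) (H₂ := Y) (H₃ := X)
    (by rwa [Subgroup.commutator_comm Y X]) h1
  rwa [hY, Subgroup.commutator_comm, commutator_eq_bot_iff_le_centralizer] at h2

/-- `A` normalizes `K`. -/
def Nm (A K : Subgroup H) : Prop := ∀ a ∈ A, ∀ y ∈ K, a * y * a⁻¹ ∈ K

theorem Nm.of_normal (A K : Subgroup H) [h : K.Normal] : Nm A K :=
  fun a _ y hy => h.conj_mem y hy a

theorem Nm.comm {A K K' : Subgroup H} (h : Nm A K) (h' : Nm A K') : Nm A ⁅K, K'⁆ := by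
  intro a ha
  have : ⁅K, K'⁆ ≤ (⁅K, K'⁆ : Subgroup H).comap (MulAut.conj a).toMonoidHom :=
    commutator_le.2 fun x hx y hy => by
      show a * ⁅x, y⁆ * a⁻¹ ∈ (⁅K, K'⁆ : Subgroup H)
      rw [conjugate_commutatorElement]
      exact commutator_mem_commutator (h a ha x hx) (h' a ha y hy)
  exact this

theorem Nm.inf {A K K' : Subgroup H} (h : Nm A K) (h' : Nm A K') : Nm A (K ⊓ K') :=
  fun a ha y hy => ⟨h a ha y hy.1, h' a ha y hy.2⟩

theorem Nm.le {A K K' : Subgroup H} (h : Nm A K) (h' : K' ≤ A) : ⁅K, K'⁆ ≤ K :=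
  le_normalizer_iff_commutator_le_left.1 (h'.trans (le_normalizer_iff.2 h))

/-- The conjugate subgroup. -/
def cj (h : H) (K : Subgroup H) : Subgroup H := K.comap (MulAut.conj h⁻¹).toMonoidHom

theorem mem_cj {h y : H} {K : Subgroup H} : y ∈ cj h K ↔ h⁻¹ * y * h ∈ K := by
  simp [cj]

theorem cj_cj (g h : H) (K : Subgroup H) : cj g (cj h K) = cj (g * h) K := by
  ext y
  simp only [mem_cj, mul_inv_rev, mul_assoc]

theorem cj_one (K : Subgroup H) : cj 1 K = K := by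
  ext y
  simp only [mem_cj, inv_one, one_mul, mul_one]

theorem cj_mono (h : H) {K K' : Subgroup H} (e : K ≤ K') : cj h K ≤ cj h K' := comap_mono e

theorem cj_normal (h : H) (K : Subgroup H) [hK : K.Normal] : cj h K = K := by
  ext y
  rw [mem_cj]
  exact ⟨fun e => by simpa [mul_assoc] using hK.conj_mem _ e h, fun e => hK.conj_mem' _ e h⟩

theorem Nm.cj {A K : Subgroup H} [hA : A.Normal] (h : Nm A K) (g : H) : Nm A (cj g K) := by
  intro a ha y hy
  rw [mem_cj] at hy ⊢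
  have := h _ (hA.conj_mem' a ha g) _ hy
  simpa [mul_assoc] using this

/-- Minimal among the subgroups normalized by `A` and not inside `C`. -/
structure Mi (C A K : Subgroup H) : Prop where
  le : K ≤ A
  nm : Nm A K
  ne : ¬ K ≤ C
  min : ∀ K' ≤ K, Nm A K' → K' ≤ C ∨ K' = K

theorem Mi.cj {C A K : Subgroup H} [C.Normal] [A.Normal] (h : Mi C A K) (g : H) :
    Mi C A (cj g K) := by
  have inv : ∀ K : Subgroup H, Aa.cj g⁻¹ (Aa.cj g K) = K := fun K => by
    rw [cj_cj, inv_mul_cancel, cj_one]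
  have inv' : ∀ K : Subgroup H, Aa.cj g (Aa.cj g⁻¹ K) = K := fun K => by
    rw [cj_cj, mul_inv_cancel, cj_one]
  refine ⟨(cj_mono g h.le).trans (cj_normal g A).le, h.nm.cj g, fun e => h.ne ?_,
    fun K' e n => ?_⟩
  · exact (inv K).ge.trans ((cj_mono _ e).trans (cj_normal _ C).le)
  · rcases h.min _ ((cj_mono g⁻¹ e).trans (inv K).le) (n.cj g⁻¹) with e1 | e1
    · exact Or.inl ((inv' K').ge.trans ((cj_mono _ e1).trans (cj_normal _ C).le))
    · exact Or.inr (by rw [← e1, inv'])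

theorem exists_mi [Finite H] {C A : Subgroup H} [A.Normal] (h : ¬ A ≤ C) : ∃ K, Mi C A K := by
  obtain ⟨K, hK, hm⟩ := (wellFounded_lt (α := Subgroup H)).has_min
    {K | K ≤ A ∧ Nm A K ∧ ¬ K ≤ C} ⟨A, le_rfl, Nm.of_normal A A, h⟩
  refine ⟨K, hK.1, hK.2.1, hK.2.2, fun K' e n => or_iff_not_imp_left.2 fun c => ?_⟩
  exact e.eq_of_not_lt (hm K' ⟨e.trans hK.1, n, c⟩)

/-- The conjugacy class of a subgroup. -/
abbrev Cl (L : Subgroup H) : Type := {K : Subgroup H // ∃ h, K = cj h L}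

instance (L : Subgroup H) : MulAction H (Cl L) where
  smul g K := ⟨cj g K.1, K.2.elim fun h e => ⟨g * h, by rw [e, cj_cj]⟩⟩
  one_smul K := Subtype.ext (cj_one K.1)
  mul_smul g h K := Subtype.ext (cj_cj g h K.1).symm

theorem exists_mn [Finite H] {S : Type} [Group S] {φ : H →* S} {R : Subgroup H} (h : Hd φ R)
    (hn : (⁅φ.ker, R⁆ : Subgroup H) ≠ ⊥) :
    ∃ A : Subgroup H, Mn R A ∧ A ≤ φ.ker ∧ ¬ A ≤ centralizer (R : Set H) := by
  have := h.nrm
  obtain ⟨A, hA, hm⟩ := (wellFounded_lt (α := Subgroup H)).has_min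
    {N | N.Normal ∧ N ≤ φ.ker ∧ ¬ N ≤ centralizer (R : Set H)}
    ⟨φ.ker, inferInstance, le_rfl, fun e => hn (commutator_eq_bot_iff_le_centralizer.2 e)⟩
  obtain ⟨a1, a2, a3⟩ := hA
  have mn : ∀ N : Subgroup H, N.Normal → N ≤ A → N ≤ centralizer (R : Set H) ∨ N = A :=
    fun N n e => or_iff_not_imp_left.2 fun c => e.eq_of_not_lt (hm N ⟨n, e.trans a2, c⟩)
  have e : ⁅A, R⁆ = A := (mn _ inferInstance (commutator_le_left A R)).resolve_left fun c =>
    a3 (three h.perf c)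
  exact ⟨A, ⟨a1, e ▸ commutator_le_right A R, e, fun c => a3 (c ▸ bot_le), mn⟩, a2, a3⟩

theorem nil [Finite H] {R A : Subgroup H} [R.Normal] (h : Mn R A)
    (hn : ¬ A ≤ centralizer (R : Set H)) (hc : ⁅A, A⁆ ≠ A) : ∃ l : ℕ, l.Prime ∧ NilT l R A := by
  have := h.nrm
  have c1 := (h.min _ inferInstance (commutator_le_self A)).resolve_right hc
  let q := QuotientGroup.mk' (centralizer (R : Set H))
  have hq : ∀ y, q y = 1 ↔ y ∈ centralizer (R : Set H) := fun y => QuotientGroup.eq_one_iff y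
  have cm : ∀ a ∈ A, ∀ b ∈ A, Commute (q a) (q b) := fun a ha b hb => by
    rw [← commutatorElement_eq_one_iff_commute, ← map_commutatorElement, hq]
    exact c1 (commutator_mem_commutator ha hb)
  obtain ⟨a, ha, ha'⟩ := SetLike.not_le_iff_exists.1 hn
  have o1 : orderOf (q a) ≠ 1 := fun e => ha' ((hq a).1 (orderOf_eq_one_iff.1 e))
  obtain ⟨l, hl, m, hm⟩ := Nat.exists_prime_and_dvd o1
  have o2 : 0 < orderOf (q a) := orderOf_pos _
  have m0 : m ≠ 0 := fun e => by simp [hm, e] at o2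
  have x1 : a ^ m ∉ centralizer (R : Set H) := fun e => by
    rw [← hq, map_pow] at e
    refine pow_ne_one_of_lt_orderOf m0 ?_ e
    rw [hm]
    exact lt_mul_left (Nat.pos_of_ne_zero m0) hl.one_lt
  have x2 : (a ^ m) ^ l ∈ centralizer (R : Set H) := by
    rw [← hq, ← pow_mul, map_pow, mul_comm, ← hm, pow_orderOf_eq_one]
  let N : Subgroup H :=
    { carrier := {y | y ∈ A ∧ y ^ l ∈ centralizer (R : Set H)}
      one_mem' := ⟨A.one_mem, by rw [one_pow]; exact one_mem _⟩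
      mul_mem' := fun {x y} hx hy => ⟨A.mul_mem hx.1 hy.1, by
        rw [← hq, map_pow, map_mul, (cm x hx.1 y hy.1).mul_pow, ← map_pow, ← map_pow,
          (hq _).2 hx.2, (hq _).2 hy.2, mul_one]⟩
      inv_mem' := fun {x} hx => ⟨A.inv_mem hx.1, by rw [inv_pow]; exact inv_mem hx.2⟩ }
  have nN : N.Normal := ⟨fun y hy g => ⟨h.nrm.conj_mem y hy.1 g, by
    rw [conj_pow]
    exact Normal.conj_mem inferInstance _ hy.2 g⟩⟩
  have eN := (h.min N nN fun y hy => hy.1).resolve_left fun e => x1 (e ⟨A.pow_mem ha m, x2⟩)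
  have pw : ∀ y ∈ A, y ^ l ∈ centralizer (R : Set H) := fun y hy => (eN.ge hy).2
  have := Fact.mk hl
  have b0 : (⁅A, A ⊓ centralizer (R : Set H)⁆ : Subgroup H) = ⊥ := by
    rw [Subgroup.commutator_comm, commutator_eq_bot_iff_le_centralizer]
    exact inf_le_right.trans (centralizer_le h.le)
  obtain ⟨P, nP, hP⟩ := PT.exists_pk (p := l) A (A ⊓ centralizer (R : Set H))
    (fun g hg => ⟨1, by rw [pow_one]; exact ⟨A.pow_mem hg l, pw g hg⟩⟩) (b0 ▸ IsPGroup.of_bot)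
  obtain ⟨b, hb, pb, eb⟩ := PT.pel_lift (p := l) q (isOfFinOrder_of_finite a)
    ⟨1, by rw [pow_one, ← map_pow, hq]; exact pw a ha⟩
  have eP := (h.min P nP fun y hy => ((hP y).1 hy).1).resolve_left fun e => ha' (by
    rw [← hq, ← eb, hq]
    exact e ((hP b).2 ⟨zpowers_le.2 ha hb, pb⟩))
  exact ⟨l, hl, PT.Grp.isPGroup_of_pel fun y hy => ((hP y).1 (eP.ge hy)).2, c1, pw⟩

section Comp
variable {R A L : Subgroup H} [R.Normal] (h : Mn R A) (hc : ⁅A, A⁆ = A)
include h hc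

omit [R.Normal] in
theorem cen_le : A ⊓ centralizer (A : Set H) ≤ centralizer (R : Set H) := by
  have := h.nrm
  refine (h.min _ inferInstance inf_le_left).resolve_right fun e => h.ne ?_
  rw [← hc, commutator_eq_bot_iff_le_centralizer]
  exact e.ge.trans inf_le_right

omit [R.Normal] in
theorem mi_eq {K : Subgroup H} (hK : Mi (centralizer (R : Set H)) A K) : ⁅K, A⁆ = K := by
  have := h.nrm
  refine (hK.min _ (hK.nm.le le_rfl) (hK.nm.comm (Nm.of_normal A A))).resolve_left fun e => ?_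
  exact hK.ne ((le_inf hK.le (three hc (e.trans (centralizer_le h.le)))).trans (cen_le h hc))

omit [R.Normal] h hc in
theorem mi_ne {C K K' : Subgroup H} (hK : Mi C A K) (hK' : Mi C A K') (hne : K ≠ K') :
    ⁅K, K'⁆ ≤ C := by
  have e : ⁅K, K'⁆ ≤ K ⊓ K' := le_inf (hK.nm.le hK'.le)
    (Subgroup.commutator_comm K K' ▸ hK'.nm.le hK.le)
  refine e.trans ((hK.min _ inf_le_left (hK.nm.inf hK'.nm)).resolve_right fun e1 => ?_)
  exact hne ((hK'.min K (e1.ge.trans inf_le_right) hK.nm).resolve_left hK.ne)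

omit hc in
theorem mi_cl (hL : Mi (centralizer (R : Set H)) A L) (j : Cl L) :
    Mi (centralizer (R : Set H)) A j.1 := by
  have := h.nrm
  obtain ⟨g, e⟩ := j.2
  exact e ▸ hL.cj g

omit hc in
theorem sup_eq (hL : Mi (centralizer (R : Set H)) A L) : ⨆ j : Cl L, j.1 = A := by
  have e : L ≤ ⨆ j : Cl L, j.1 := le_iSup (fun j : Cl L => j.1) ⟨L, 1, (cj_one L).symm⟩
  refine (h.min _ ⟨fun y hy g => ?_⟩ (iSup_le fun j => (mi_cl h hL j).le)).resolve_left
    fun c => hL.ne (e.trans c)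
  have : (⨆ j : Cl L, j.1) ≤ cj g⁻¹ (⨆ j : Cl L, j.1) := iSup_le fun j y hy => by
    refine mem_cj.2 (le_iSup (fun j : Cl L => j.1) (g • j) (mem_cj.2 ?_))
    simpa [mul_assoc] using hy
  simpa using mem_cj.1 (this hy)

theorem mi_perf (hL : Mi (centralizer (R : Set H)) A L) (j : Cl L) : ⁅j.1, j.1⁆ = j.1 := by
  have hj := mi_cl h hL j
  refine (hj.min _ (commutator_le_self _) (hj.nm.comm hj.nm)).resolve_left fun e => hj.ne ?_
  let q := QuotientGroup.mk' (centralizer (R : Set H))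
  have key : ∀ X : Subgroup H, ⁅X, j.1⁆ ≤ centralizer (R : Set H) ↔
      X ≤ (centralizer (j.1.map q : Set _)).comap q := fun X => by
    rw [← map_le_iff_le_comap, ← commutator_eq_bot_iff_le_centralizer (H₁ := X.map q),
      ← map_commutator, Subgroup.map_eq_bot_iff, QuotientGroup.ker_mk']
  rw [← mi_eq h hc hj, Subgroup.commutator_comm, key]
  refine (sup_eq h hL).ge.trans (iSup_le fun i => (key _).1 ?_)
  by_cases ij : i.1 = j.1
  · rwa [ij]
  · exact mi_ne (mi_cl h hL i) hj ij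

theorem mi_comm (hL : Mi (centralizer (R : Set H)) A L) {i j : Cl L} (ij : i ≠ j) :
    i.1 ≤ centralizer (j.1 : Set H) :=
  three (mi_perf h hc hL j) ((mi_ne (mi_cl h hL i) (mi_cl h hL j) fun e =>
    ij (Subtype.ext e)).trans (centralizer_le ((mi_cl h hL j).le.trans h.le)))

theorem mi_qs (hL : Mi (centralizer (R : Set H)) A L) (j : Cl L) (N : Subgroup H) (hN : N ≤ j.1)
    (n : Nm j.1 N) : N ≤ centralizer (R : Set H) ∨ N = j.1 := by
  refine (mi_cl h hL j).min N hN (le_normalizer_iff.1 ((sup_eq h hL).ge.trans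
    (iSup_le fun i => le_normalizer_iff.2 ?_)))
  by_cases ij : i = j
  · exact ij ▸ n
  · intro a ha y hy
    rw [← mi_comm h hc hL ij ha y (hN hy), mul_inv_cancel_right]
    exact hy

end Comp

/-- A component in the kernel is not normalized by `R`. -/
theorem moved {S : Type} [Group S] {φ : H →* S} {R K : Subgroup H} (h : Hd φ R)
    (hs : Sch (φ.ker ⊓ R)) (k1 : K ≤ φ.ker) (k2 : K ≤ R) (k3 : K.IsSubnormal) (kp : ⁅K, K⁆ = K)
    (kn : ¬ K ≤ centralizer (R : Set H))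
    (km : ∀ N ≤ K, Nm K N → N ≤ centralizer (R : Set H) ∨ N = K) : ¬ Nm R K := by
  intro hn
  have := h.nrm
  let q := QuotientGroup.mk' (centralizer (R : Set H))
  have key : ∀ X : Subgroup H, X.map q = ⊥ ↔ X ≤ centralizer (R : Set H) := fun X => by
    rw [Subgroup.map_eq_bot_iff, QuotientGroup.ker_mk']
  have nc : ¬ K.map q ≤ centralizer (K.map q : Set _) := by
    rwa [← commutator_eq_bot_iff_le_centralizer, ← map_commutator, kp, key]
  have nt : Nontrivial (K.map q) := (nontrivial_iff_ne_bot _).2 fun e => kn ((key K).1 e)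
  have sm : IsSimpleGroup (K.map q) := ⟨fun N hN => by
    rcases km ((N.comap (q.subgroupMap K)).map K.subtype) (map_subtype_le _) (by
      rintro a ha _ ⟨y, hy, rfl⟩
      exact ⟨_, (hN.comap (q.subgroupMap K)).conj_mem y hy ⟨a, ha⟩, rfl⟩) with e | e
    · refine Or.inl (eq_bot_iff.2 fun x hx => ?_)
      obtain ⟨y, rfl⟩ := q.subgroupMap_surjective K x
      exact Subtype.ext ((QuotientGroup.eq_one_iff y.1).2 (e ⟨y, hx, rfl⟩))
    · refine Or.inr (eq_top_iff.2 fun x _ => ?_)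
      obtain ⟨y, rfl⟩ := q.subgroupMap_surjective K x
      obtain ⟨y', hy', e'⟩ := e.ge y.2
      obtain rfl : y' = y := Subtype.ext e'
      exact hy'⟩
  obtain ⟨n, hO⟩ := hs K (le_inf k1 k2) k3.subgroupOf (K.map q) (q.subgroupMap K)
    (q.subgroupMap_surjective K) (by
    obtain ⟨a, ha, ha'⟩ := SetLike.not_le_iff_exists.1 nc
    by_contra c
    push Not at c
    exact ha' fun b hb => congrArg Subtype.val (c ⟨b, hb⟩ ⟨a, ha⟩).eq)
  have rn : R.map q ≤ normalizer (K.map q : Set _) := le_normalizer_iff.2 (by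
    rintro _ ⟨r, hr, rfl⟩ _ ⟨y, hy, rfl⟩
    exact ⟨_, hn r hr y hy, by simp only [map_mul, map_inv]⟩)
  let ψ : R →* MulAut (K.map q) :=
    (K.map q).normalizerMonoidHom.comp ((inclusion rn).comp (q.subgroupMap R))
  have hψ : ∀ (r : R) (x : K.map q), (ψ r x : H ⧸ centralizer (R : Set H)) = q r * x * (q r)⁻¹ :=
    fun _ _ => rfl
  have tp : ⁅(⊤ : Subgroup R), (⊤ : Subgroup R)⁆ = ⊤ := map_injective R.subtype_injective (by
    rw [map_commutator, ← MonoidHom.range_eq_map, range_subtype, h.perf])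
  have ds : ∀ m, (⊤ : Subgroup R).map ψ ≤ derivedSeries (MulAut (K.map q)) m := by
    intro m
    induction m with
    | zero => exact le_top
    | succ m ih =>
      rw [← tp, map_commutator]
      exact commutator_mono ih ih
  obtain ⟨r, hr, hr'⟩ := h.ne
  obtain ⟨x, hx⟩ := hO (ds n ⟨⟨r, hr⟩, mem_top _, rfl⟩)
  obtain ⟨k, rfl⟩ := q.subgroupMap_surjective K x
  have e : ∀ y ∈ K.map q, q k * y * (q k)⁻¹ = q r * y * (q r)⁻¹ := fun y hy =>
    (congrArg (fun f : MulAut (K.map q) => (f ⟨y, hy⟩ : H ⧸ centralizer (R : Set H))) hx).trans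
      (hψ ⟨r, hr⟩ ⟨y, hy⟩)
  have le := h.min ((centralizer (K.map q : Set _)).comap q) (fun s hs' y hy z hz => by
    have h1 := hy _ ((rn ⟨s⁻¹, inv_mem hs', rfl⟩ z).1 hz)
    simp only [map_mul, map_inv, inv_inv] at h1 ⊢
    calc _ = q s * ((q s)⁻¹ * z * q s * q y) * (q s)⁻¹ := by group
      _ = _ := by rw [h1]; group) (r⁻¹ * k) (fun z hz => by
    simp only [map_mul, map_inv]
    calc _ = (q r)⁻¹ * (q r * z * (q r)⁻¹) * q k := by group
      _ = _ := by rw [← e z hz]; group) (by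
    rw [map_mul, map_inv, (MonoidHom.mem_ker.1 (k1 k.2)), mul_one]
    exact inv_ne_one.2 hr')
  exact nc (map_le_iff_le_comap.2 (k2.trans le))

end Aa

open Aa in
theorem aaStmt : AaStmt := by
  intro H S _ _ _ φ R h hs hn
  have := h.nrm
  obtain ⟨A, hA, a1, a2⟩ := exists_mn h hn
  refine ⟨A, hA, a1, ?_⟩
  by_cases hc : ⁅A, A⁆ = A
  swap
  · exact Or.inl (nil hA a2 hc)
  have := hA.nrm
  obtain ⟨L, hL⟩ := exists_mi a2
  refine Or.inr ⟨Cl L, inferInstance, inferInstance,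
    fun j => j.1, fun g j y hy => mem_cj.2 (by simpa [mul_assoc] using hy),
    fun i j ij a ha b hb => (mi_comm hA hc hL ij ha b hb).symm, sup_eq hA hL, fun j => ?_,
    fun i j => ?_, fun j => ?_⟩
  · have hj := mi_cl hA hL j
    exact ⟨mi_perf hA hc hL j, fun e => hj.ne (e ▸ bot_le), fun N hN n =>
      (mi_qs hA hc hL j N hN n).imp_left fun e => e.trans (centralizer_le (hj.le.trans hA.le))⟩
  · obtain ⟨g, e⟩ := i.2
    obtain ⟨g', e'⟩ := j.2
    refine ⟨g' * g⁻¹, Subtype.ext ?_⟩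
    show cj (g' * g⁻¹) i.1 = j.1
    rw [e, e', cj_cj, inv_mul_cancel_right]
  · have hj := mi_cl hA hL j
    by_contra c
    push Not at c
    refine moved h hs (hj.le.trans a1) (hj.le.trans hA.le) (.step _ A hj.le this.isSubnormal
      ⟨fun y hy x => hj.nm x x.2 y hy⟩) (mi_perf hA hc hL j) hj.ne
      (mi_qs hA hc hL j) fun r hr y hy => ?_
    rw [← c r hr]
    exact mem_cj.2 (by simpa [mul_assoc] using hy)

end Pool.Agent.Lib.MP_679d9b_al.KG
end

-- part Pool.Agent.Lib.MP_679d9b_al.KG.AltG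
section

/-!
Alternating type: the three cases.
-/

set_option autoImplicit false

namespace Pool.Agent.Lib.MP_679d9b_al.KG

open Equiv Subgroup
open Alt (LF Lv NoChain chain_of_small)

namespace AltG

variable {G : Type} [Group G]

/-- An element of bounded degree at late levels. -/
theorem small [Infinite G] [IsSimpleGroup G] (hlf : LF G) {f : G} {N : ℕ} (hf1 : f ≠ 1)
    (hf : ∀ F : Subgroup G, Finite F → ∃ L : Lv G, L.Deg F 1 ∧ L.deg f < N) (x : G) (d : ℕ) :
    ¬ NoChain x d := by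
  classical
  let B : Subgroup G :=
    { carrier := {g | ∃ (s : Set G) (c : ℕ), s.Finite ∧ ∀ L : Lv G, s ⊆ L.H →
        L.deg g ≤ c * L.deg f}
      one_mem' := ⟨∅, 0, Set.finite_empty, fun L _ => by simpa using (L.deg_eq 1).le⟩
      mul_mem' := by
        rintro a b ⟨s, c, hs, h⟩ ⟨s', c', hs', h'⟩
        refine ⟨insert a (insert b (s ∪ s')), c + c', ((hs.union hs').insert b).insert a,
          fun L hL => ?_⟩
        have ha : a ∈ L.H := hL (by simp)
        have hb : b ∈ L.H := hL (by simp)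
        have h1 := h L fun y hy => hL (by simp [hy])
        have h2 := h' L fun y hy => hL (by simp [hy])
        have h3 := (Finset.card_le_card (Perm.support_mul_le (L.φ ⟨a, ha⟩) (L.φ ⟨b, hb⟩))).trans
          (Finset.card_union_le _ _)
        rw [← map_mul, ← L.deg_eq, ← L.deg_eq, ← L.deg_eq] at h3
        rw [add_mul]
        exact h3.trans (Nat.add_le_add h1 h2)
      inv_mem' := by
        rintro a ⟨s, c, hs, h⟩
        refine ⟨insert a s, c, hs.insert a, fun L hL => ?_⟩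
        have ha : a ∈ L.H := hL (by simp)
        have h1 := L.deg_eq (⟨a, ha⟩⁻¹)
        rw [map_inv, Perm.support_inv, ← L.deg_eq] at h1
        exact h1.le.trans (h L fun y hy => hL (by simp [hy])) }
  have hBn : B.Normal := ⟨by
    rintro a ⟨s, c, hs, h⟩ g
    refine ⟨insert a (insert g s), c, (hs.insert g).insert a, fun L hL => ?_⟩
    have ha : a ∈ L.H := hL (by simp)
    have hg : g ∈ L.H := hL (by simp)
    have h1 := L.deg_eq (⟨g, hg⟩ * ⟨a, ha⟩ * ⟨g, hg⟩⁻¹)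
    rw [map_mul, map_mul, map_inv, Perm.card_support_conj, ← L.deg_eq] at h1
    exact h1.le.trans (h L fun y hy => hL (by simp [hy]))⟩
  obtain ⟨s, c, hs, hc⟩ : x ∈ B := by
    rcases hBn.eq_bot_or_eq_top with h | h
    · have : f ∈ B := ⟨∅, 1, Set.finite_empty, fun L _ => by simp⟩
      rw [h] at this
      exact absurd this hf1
    · rw [h]
      trivial
  set M := 4 * N * (c * N + 4 * N * d) with hM
  obtain ⟨t, ht⟩ := Infinite.exists_subset_card_eq G ((M + N + 4).factorial + 1)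
  obtain ⟨F, h1, h2⟩ := hlf.exists_fin (((hs.union t.finite_toSet).insert f).insert x)
  obtain ⟨L, hL, hLf⟩ := hf F h1
  have := L.fin
  obtain ⟨L2, hL2, hLf2⟩ := hf L.H L.fin
  have hm : M + N + 4 < L.m := by
    have a1 : Nat.card F ≤ L.m.factorial := by
      simpa [Fintype.card_perm] using Nat.card_le_card_of_injective _ hL.inj
    have a2 : t.card ≤ Nat.card F := by
      rw [← Set.ncard_coe_finset]
      exact Set.ncard_le_ncard (fun y hy => h2 (by simp [hy])) (Set.toFinite (F : Set G))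
    by_contra hh
    have := Nat.factorial_le (not_lt.1 hh)
    omega
  have hfF : f ∈ F := h2 (by simp)
  have hxF : x ∈ F := h2 (by simp)
  refine fun hno => chain_of_small L.alt _ hL2.inj ⟨f, hL.1 hfF⟩ ⟨x, hL.1 hxF⟩ N (c * N) d
    (fun h => hf1 (congrArg Subtype.val (hL.inj (a₁ := ⟨f, hfF⟩) (h.trans (map_one _).symm))))
    ?_ ?_ ?_ ?_ (Alt.NoChain.comap L.H.subtype L.H.subtype_injective hno)
  · rw [← L.deg_eq, Fintype.card_fin]
    change L.deg f + 4 ≤ _
    omega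
  · exact (L2.deg_eq _).ge.trans hLf2.le
  · exact (L2.deg_eq _).ge.trans ((hc L2 fun y hy => hL2.1 (hL.1 (h2 (by simp [hy])))).trans
      (Nat.mul_le_mul_left c hLf2.le))
  · have : Nontrivial (Fin L.m) := Fin.nontrivial_iff_two_le.2 (by omega)
    have h4 := two_mul_nat_card_alternatingGroup (α := Fin L.m)
    rw [Nat.card_perm, Nat.card_fin] at h4
    have h5 : (M + 1 + 1 + 1).factorial ≤ _ := Nat.factorial_le (show _ ≤ L.m by omega)
    have h6 := Nat.factorial_pos M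
    rw [Nat.factorial_succ, Nat.factorial_succ, Nat.factorial_succ] at h5
    have h7 : 3 * (2 * (1 * M.factorial)) ≤
        (M + 1 + 1 + 1) * ((M + 1 + 1) * ((M + 1) * M.factorial)) := by
      gcongr <;> omega
    have h8 := h7.trans h5
    rw [← hM]
    omega

theorem case_three [Infinite G] [IsSimpleGroup G] (hlf : LF G)
    (hcov : ∀ F : Subgroup G, Finite F → ∃ L : Lv G, SLv L ∧ L.Deg F 1) (hNF : ¬ NFs G) (x : G)
    (d : ℕ) : ¬ NoChain x d := by
  classical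
  unfold NFs at hNF
  push Not at hNF
  obtain ⟨F0, hF0, N, hN⟩ := hNF
  obtain ⟨f, hf1, hf⟩ : ∃ f : G, f ≠ 1 ∧ ∀ F : Subgroup G, Finite F →
      ∃ L : Lv G, SLv L ∧ L.Deg F 1 ∧ L.deg f < N := by
    by_contra hh
    push Not at hh
    choose! A hA1 hA2 using hh
    obtain ⟨F, h1, h2⟩ := hlf.exists_fin ((Set.toFinite (F0 : Set G)).union
      ((Set.toFinite {f ∈ (F0 : Set G) | f ≠ 1}).biUnion
        fun f hf => (hA1 f hf.2 : (A f : Set G).Finite)))
    obtain ⟨L, hs, hL⟩ := hcov F h1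
    exact hN L hs ⟨fun g hg => hL.1 (h2 (Or.inl hg)), fun g hg hg1 => hA2 g hg1 L hs
      (hL.mono (fun y hy => h2 (Or.inr (Set.mem_biUnion (show g ∈ _ from ⟨hg, hg1⟩) hy))) le_rfl)⟩
  exact small hlf hf1 (fun F hF => (hf F hF).imp fun _ h => h.2) x d

theorem freqs_anti (hlf : LF G) {F0 F1 : Subgroup G} [Finite F1] (hle : F0 ≤ F1) {k : ℕ}
    (h : Freqs F1 k) : Freqs F0 k := by
  intro F hF _ N
  obtain ⟨F', h1, h2⟩ := hlf.exists_fin
    ((Set.toFinite (F : Set G)).union (Set.toFinite (F1 : Set G)))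
  obtain ⟨L, hs, hL, ω, hω⟩ := h F' h1 (fun y hy => h2 (Or.inr hy)) N
  refine ⟨L, hs, hL.mono (fun y hy => h2 (Or.inl hy)) le_rfl, ω, le_trans ?_ hω⟩
  exact Set.ncard_le_ncard (fun g hg => ⟨hle hg.1, hg.2⟩)
    ((Set.toFinite (F1 : Set G)).subset fun g hg => hg.1)

theorem st_card (L : Lv G) {H' : Subgroup G} (hle : H' ≤ L.H) (χ : H' →* Perm (Fin L.m))
    (hχ : ∀ z, χ z = L.φ ⟨z, hle z.2⟩) (x : H') (ω : Fin L.m) :
    {z | z ∈ zpowers x ∧ χ z ω = ω}.ncard = (L.St (zpowers (x : G)) ω).ncard := by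
  rw [← Set.ncard_image_of_injective _ H'.subtype_injective]
  congr 1
  ext g
  constructor
  · rintro ⟨z, ⟨⟨n, rfl⟩, hz⟩, rfl⟩
    exact ⟨⟨n, by simp⟩, hle (x ^ n).2, by rwa [hχ] at hz⟩
  · rintro ⟨⟨n, rfl⟩, h, hz⟩
    refine ⟨x ^ n, ⟨⟨n, rfl⟩, ?_⟩, by simp⟩
    rw [hχ]
    exact hz

/-- Levels with a small stabiliser in `F0` and many small stabilisers in `X`. -/
def Qk (F0 X : Subgroup G) (k0 k : ℕ) : Prop :=
  ∀ F : Subgroup G, Finite F → F0 ≤ F → ∀ N, ∃ L : Lv G, SLv L ∧ L.Deg F N ∧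
    (∃ a, (L.St F0 a).ncard ≤ k0) ∧ N ≤ {ω | (L.St X ω).ncard ≤ k}.ncard

theorem case_two (hK : KeyStmt) (hC : ChainStmt) (hlf : LF G) (hNF : NFs G) (F0 : Subgroup G)
    [Finite F0] (h : ¬ Freqs F0 1) {g0 : G} (hg0 : g0 ∈ F0) (hg1 : g0 ≠ 1) {x : G} (hx : x ∈ F0)
    (d : ℕ) : ¬ NoChain x d := by
  classical
  have hXle : zpowers x ≤ F0 := zpowers_le.2 hx
  have hfin : ∀ (L : Lv G) ω, (L.St F0 ω).Finite := fun L ω =>
    (Set.toFinite (F0 : Set G)).subset fun g hg => hg.1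
  have hfinX : ∀ (L : Lv G) ω, (L.St (zpowers x) ω).Finite := fun L ω =>
    (Set.toFinite (F0 : Set G)).subset fun g hg => hXle hg.1
  have hbig : ∀ (L : Lv G) (F : Subgroup G) N, F0 ≤ F → L.Deg F N → N ≤ L.m :=
    fun L F N hle hL => (hL.2 g0 (hle hg0) hg1).trans (L.deg_le g0)
  have hex : ∃ k, Freqs F0 k := ⟨(F0 : Set G).ncard, fun F hF hle N => by
    obtain ⟨L, hs, hL⟩ := hNF F hF (N + 1)
    have hm := hbig L F _ hle hL
    exact ⟨L, hs, hL.mono le_rfl (by omega), ⟨0, by omega⟩,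
      Set.ncard_le_ncard (fun g hg => hg.1) (Set.toFinite _)⟩⟩
  obtain ⟨k0, hk0, hmin⟩ : ∃ k0, Freqs F0 k0 ∧ ∀ k < k0, ¬ Freqs F0 k :=
    ⟨Nat.find hex, Nat.find_spec hex, fun k => Nat.find_min hex⟩
  have hk2 : 2 ≤ k0 := by
    by_contra hh
    refine h fun F hF hle N => ?_
    obtain ⟨L, hs, hL, ω, hω⟩ := hk0 F hF hle N
    exact ⟨L, hs, hL, ω, by omega⟩
  have h1 := hmin (k0 - 1) (by omega)
  unfold Freqs at h1
  push Not at h1
  obtain ⟨Fa, hFa, hlea, Na, hNa⟩ := h1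
  have hexQ : ∃ k, Qk F0 (zpowers x) k0 k := ⟨(F0 : Set G).ncard, fun F hF hle N => by
    obtain ⟨L, hs, hL, ha⟩ := hk0 F hF hle N
    refine ⟨L, hs, hL, ha, (hbig L F N hle hL).trans (le_of_eq ?_)⟩
    rw [Set.eq_univ_of_forall (s := {ω | (L.St (zpowers x) ω).ncard ≤ (F0 : Set G).ncard})
      fun ω => Set.ncard_le_ncard (fun g hg => hXle hg.1) (Set.toFinite _)]
    simp⟩
  obtain ⟨k1, hk1, hmin1⟩ : ∃ k1, Qk F0 (zpowers x) k0 k1 ∧ ∀ k < k1, ¬ Qk F0 (zpowers x) k0 k :=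
    ⟨Nat.find hexQ, Nat.find_spec hexQ, fun k => Nat.find_min hexQ⟩
  have hk3 : 1 ≤ k1 := by
    by_contra hh
    obtain ⟨L, -, -, -, hN⟩ := hk1 F0 inferInstance le_rfl 1
    obtain ⟨ω, hω⟩ := Set.nonempty_of_ncard_ne_zero (Nat.one_le_iff_ne_zero.1 hN)
    have h2 : 0 < (L.St (zpowers x) ω).ncard :=
      (Set.ncard_pos (hfinX L ω)).2 ⟨1, one_mem _, one_mem _, by
        change L.φ 1 ω = ω
        simp⟩
    have h3 : (L.St (zpowers x) ω).ncard ≤ k1 := hω
    omega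
  have h2 := hmin1 (k1 - 1) (by omega)
  unfold Qk at h2
  push Not at h2
  obtain ⟨F1, hF1, -, N1, hN1⟩ := h2
  have hN2 : ∀ L : Lv G, SLv L → L.Deg F1 N1 → ∀ a, (L.St F0 a).ncard ≤ k0 →
      {ω | (L.St (zpowers x) ω).ncard < k1}.ncard ≤ N1 := fun L hs hL a ha => by
    refine le_trans (le_of_eq ?_) (hN1 L hs hL ⟨a, ha⟩).le
    congr 1
    ext ω
    simp only [Set.mem_ofPred_eq]
    omega
  let _ := Fintype.ofFinite F0
  obtain ⟨NK, hNK⟩ := hK F0
  obtain ⟨F, hF, hFs⟩ := hlf.exists_fin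
    ((Set.toFinite (Fa : Set G)).union (Set.toFinite (F1 : Set G)))
  have ea : Fa ≤ F := fun y hy => hFs (Or.inl hy)
  have e1 : F1 ≤ F := fun y hy => hFs (Or.inr hy)
  have hle : F0 ≤ F := hlea.trans ea
  obtain ⟨L, hs, hL, ⟨a, ha⟩, hQ⟩ := hk1 F hF hle
    (Na + NK + (5 * orderOf x * (d + 1) + N1) + N1)
  have := L.fin
  obtain ⟨L2, hs2, hL2, a2, ha2⟩ := hk0 L.H L.fin (hle.trans hL.1) (Na + N1 + 1)
  have h3 := hNa L2 hs2 (hL2.mono (ea.trans hL.1) (by omega))
  obtain ⟨e, he, he1⟩ := Set.exists_ne_of_one_lt_ncard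
    (show 1 < (L.St F0 a).ncard by have := hNa L hs (hL.mono ea (by omega)) a; omega) 1
  have key := hNK L.H (Fin L.m) (Fin L2.m) L.φ (L2.φ.comp (inclusion hL2.1))
    (inclusion (hle.trans hL.1)) a ⟨e, he.1⟩ L.alt hs (fun h => he1 (congrArg Subtype.val h))
    he.2.2 (fun f hf => le_trans (by omega) ((hL.2 f (hle f.2) fun e => hf (Subtype.ext e)).trans_eq
      (L.deg_eq (inclusion (hle.trans hL.1) f)))) (fun ω => by
      by_contra hh
      push Not at hh
      have h4 : L2.St F0 ω ⊂ L.St F0 a :=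
        ⟨fun g hg => ⟨hg.1, hL.1 (hle hg.1), hh.1 ⟨g, hg.1⟩ hg.2.2⟩, fun h => hh.2 (h he).2.2⟩
      have := Set.ncard_lt_ncard h4 (hfin L a)
      have := h3 ω
      omega)
  have hxL : x ∈ L.H := hL.1 (hle hx)
  have ho : orderOf (⟨x, hxL⟩ : L.H) = orderOf x := Subgroup.orderOf_mk x hxL
  refine fun hno => hC L.H (Fin L.m) (Fin L2.m) L.φ (L2.φ.comp (inclusion hL2.1)) ⟨x, hxL⟩ d k1 N1
    L.alt (hL2.mono le_rfl (by omega : 1 ≤ Na + N1 + 1)).inj key ?_ ?_
    (Alt.NoChain.comap L.H.subtype L.H.subtype_injective hno)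
  · simp only [st_card L2 hL2.1 (L2.φ.comp (inclusion hL2.1)) (fun _ => rfl)]
    exact hN2 L2 hs2 (hL2.mono (e1.trans hL.1) (by omega)) a2 ha2
  · simp only [st_card L le_rfl L.φ (fun _ => rfl), ho]
    have h4 := hN2 L hs (hL.mono e1 (by omega)) a ha
    have h5 : {ω | (L.St (zpowers x) ω).ncard ≤ k1} ⊆
        {ω | (L.St (zpowers x) ω).ncard = k1} ∪ {ω | (L.St (zpowers x) ω).ncard < k1} :=
      fun ω hω => Nat.eq_or_lt_of_le hω
    have h6 := (Set.ncard_le_ncard h5).trans (Set.ncard_union_le _ _)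
    omega

end AltG

open AltG in
/-- Alternating type. -/
theorem altStmt (hR : RichStmt) (hK : KeyStmt) (hC : ChainStmt) : AltStmt := by
  intro G _ _ _ hlf hcov x d
  by_cases hNF : NFs G
  · by_cases hall : ∀ F0 : Subgroup G, Finite F0 → Freqs F0 1
    · exact hR G hlf hall x d
    · push Not at hall
      obtain ⟨F0, hF0, h0⟩ := hall
      obtain ⟨g, hg⟩ := exists_ne (1 : G)
      obtain ⟨F, h1, h2⟩ := hlf.exists_fin (((Set.toFinite (F0 : Set G)).insert g).insert x)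
      exact case_two hK hC hlf hNF F
        (fun h => h0 (freqs_anti hlf (fun y hy => h2 (by simp [hy])) h)) (h2 (by simp)) hg
        (h2 (by simp)) d
  · exact case_three hlf hcov hNF x d

end Pool.Agent.Lib.MP_679d9b_al.KG
end

-- part Pool.Agent.Lib.MP_679d9b_al.KG.Alv
section

/-!
From a free orbit of vectors to an alternating level.
-/

set_option autoImplicit false

namespace Pool.Agent.Lib.MP_679d9b_al.KG

open Subgroup Matrix
open scoped commutatorElement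
open PT (SL PSL)

namespace Alv

/-- Groups which are abelian by abelian are solvable. -/
theorem solv_of_two {X : Type} [Group X] (S S' : Subgroup X) (h1 : ⁅S, S⁆ ≤ S')
    (h2 : ∀ a ∈ S', ∀ b ∈ S', Commute a b) : Group.IsSolvable S := by
  have h3 : (⁅(⊤ : Subgroup S), (⊤ : Subgroup S)⁆ : Subgroup S) ≤ S'.subgroupOf S :=
    commutator_le.2 fun a _ b _ => h1 (commutator_mem_commutator a.2 b.2)
  refine ⟨⟨2, eq_bot_iff.2 (commutator_le.2 fun a ha b hb => ?_)⟩⟩
  exact Subtype.ext (h2 a (h3 ha) b (h3 hb)).commutator_eq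

/-- A level from an abstract finite group. -/
theorem exists_lv {G T : Type} [Group G] [Group T] [Finite T] {m : ℕ} (h5 : 5 ≤ m) (μ : T →* G)
    (hμ : Function.Injective μ) (ψ : T →* Equiv.Perm (Fin m))
    (hψ : alternatingGroup (Fin m) ≤ ψ.range) (J : Subgroup T) (hJ : J.Normal)
    (hne : ∃ y ∈ J, ψ y ≠ 1) (hS : Sch (ψ.ker ⊓ J)) :
    ∃ L : Alt.Lv G, SLv L ∧ ∀ t, μ t ∈ L.H ∧ (ψ t ≠ 1 → 1 ≤ L.deg (μ t)) := by
  let ε := MonoidHom.ofInjective hμ
  have hfin : Finite μ.range := Finite.of_surjective _ μ.rangeRestrict_surjective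
  have halt : alternatingGroup (Fin m) ≤ (ψ.comp ε.symm.toMonoidHom).range := fun s hs => by
    obtain ⟨t, rfl⟩ := hψ hs
    exact ⟨ε t, congrArg ψ (ε.symm_apply_apply t)⟩
  refine ⟨⟨μ.range, m, ψ.comp ε.symm.toMonoidHom, hfin, halt⟩, ?_, fun t => ⟨⟨t, rfl⟩, fun h => ?_⟩⟩
  · obtain ⟨y, hy, hy1⟩ := hne
    have h1 := (hd_R halt (by simpa using h5)).min (J.comap ε.symm.toMonoidHom)
      (fun r _ z hz => (hJ.comap _).conj_mem z hz r) (ε y)
      (by rw [mem_comap]; exact (ε.symm_apply_apply y).symm ▸ hy)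
      fun h => hy1 ((congrArg ψ (ε.symm_apply_apply y)).symm.trans h)
    have := (hd_R halt (by simpa using h5)).nrm
    exact (hS.comap ε.symm.toMonoidHom ε.symm.injective fun z _ => ε.symm.surjective z).nrm
      (fun z hz => ⟨hz.1, h1 hz.2⟩) inferInstance
  · refine le_of_le_of_eq ?_ (Alt.Lv.deg_eq ⟨μ.range, m, ψ.comp ε.symm.toMonoidHom, hfin, halt⟩
      (ε t)).symm
    change 1 ≤ (ψ (ε.symm (ε t))).support.card
    rw [ε.symm_apply_apply, Finset.one_le_card, Finset.nonempty_iff_ne_empty]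
    exact fun e => h (Equiv.Perm.support_eq_empty_iff.1 e)

section Mon
variable {X K V ι : Type} [Group X] [Field K] [AddCommGroup V] [Module K V]
  (ρ : X →* Module.End K V) (b : ι → V)

theorem app_mul (M N : X) (w : V) : ρ (M * N) w = ρ M (ρ N w) := by
  rw [map_mul, Module.End.mul_apply]

theorem app_one (w : V) : ρ 1 w = w := by rw [map_one, Module.End.one_apply]

/-- `M` permutes the lines through the vectors `b i` by `s`. -/
def Rel (M : X) (s : Equiv.Perm ι) : Prop := ∀ i, ∃ c : K, c ≠ 0 ∧ ρ M (b i) = c • b (s i)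

/-- Elements which are scalar modulo `U`. -/
def Sc (U : Submodule K V) : Subgroup X where
  carrier := {M | ∃ c : K, c ≠ 0 ∧ ∀ w, ρ M w - c • w ∈ U}
  one_mem' := ⟨1, one_ne_zero, fun w => by rw [app_one, one_smul, sub_self]; exact U.zero_mem⟩
  mul_mem' := fun {M N} ⟨c, hc, hM⟩ ⟨d, hd, hN⟩ => ⟨c * d, mul_ne_zero hc hd, fun w => by
    have := U.add_mem (hM (ρ N w)) (U.smul_mem c (hN w))
    rwa [smul_sub, sub_add_sub_cancel, smul_smul, ← app_mul] at this⟩
  inv_mem' := fun {M} ⟨c, hc, hM⟩ => ⟨c⁻¹, inv_ne_zero hc, fun w => by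
    have := U.neg_mem (U.smul_mem c⁻¹ (hM (ρ M⁻¹ w)))
    rwa [← app_mul, mul_inv_cancel, app_one, smul_sub, inv_smul_smul₀ hc, neg_sub] at this⟩

/-- Elements which are trivial on `U` and modulo `U`. -/
def Un (U : Submodule K V) : Subgroup X where
  carrier := {M | (∀ u ∈ U, ρ M u = u) ∧ ∀ w, ρ M w - w ∈ U}
  one_mem' := ⟨fun u _ => app_one ρ u, fun w => by rw [app_one, sub_self]; exact U.zero_mem⟩
  mul_mem' := fun {M N} hM hN => ⟨fun u hu => by rw [app_mul, hN.1 u hu, hM.1 u hu], fun w => by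
    have := U.add_mem (hM.2 (ρ N w)) (hN.2 w)
    rwa [sub_add_sub_cancel, ← app_mul] at this⟩
  inv_mem' := fun {M} hM => ⟨fun u hu => by
    conv_lhs => rw [← hM.1 u hu, ← app_mul, inv_mul_cancel, app_one], fun w => by
    have := U.neg_mem (hM.2 (ρ M⁻¹ w))
    rwa [← app_mul, mul_inv_cancel, app_one, neg_sub] at this⟩

variable {ρ b}

theorem Rel.one : Rel ρ b 1 1 := fun i => ⟨1, one_ne_zero, by rw [app_one, one_smul]; rfl⟩

theorem Rel.mul {M N : X} {s t : Equiv.Perm ι} (h : Rel ρ b M s) (h' : Rel ρ b N t) :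
    Rel ρ b (M * N) (s * t) := fun i => by
  obtain ⟨c, hc, e⟩ := h' i
  obtain ⟨d, hd, e'⟩ := h (t i)
  exact ⟨c * d, mul_ne_zero hc hd, by rw [app_mul, e, map_smul, e', smul_smul]; rfl⟩

theorem Rel.inv {M : X} {s : Equiv.Perm ι} (h : Rel ρ b M s) : Rel ρ b M⁻¹ s⁻¹ := fun i => by
  obtain ⟨c, hc, e⟩ := h (s⁻¹ i)
  refine ⟨c⁻¹, inv_ne_zero hc, ?_⟩
  have := congrArg (ρ M⁻¹) e
  rw [← app_mul, inv_mul_cancel, app_one, map_smul, Equiv.Perm.coe_inv,
    Equiv.apply_symm_apply] at this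
  rw [Equiv.Perm.coe_inv, this, inv_smul_smul₀ hc]

theorem Rel.smul {M N : X} {s : Equiv.Perm ι} (h : Rel ρ b M s) {c : K} (hc : c ≠ 0)
    (e : ∀ w, ρ N w = c • ρ M w) : Rel ρ b N s := fun i => by
  obtain ⟨d, hd, e'⟩ := h i
  exact ⟨c * d, mul_ne_zero hc hd, by rw [e, e', smul_smul]⟩

theorem Rel.eq (hb : LinearIndependent K b) {M : X} {s t : Equiv.Perm ι} (h : Rel ρ b M s)
    (h' : Rel ρ b M t) : s = t := by
  ext i
  obtain ⟨c, hc, e⟩ := h i
  obtain ⟨d, -, e'⟩ := h' i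
  exact hb.eq_of_smul_apply_eq_smul_apply c d _ _ hc (e.symm.trans e')

theorem Rel.mem {M : X} {s : Equiv.Perm ι} (h : Rel ρ b M s) {u : V}
    (hu : u ∈ Submodule.span K (Set.range b)) : ρ M u ∈ Submodule.span K (Set.range b) := by
  refine (Submodule.span_le (p := (Submodule.span K (Set.range b)).comap (ρ M))).2 ?_ hu
  rintro _ ⟨i, rfl⟩
  obtain ⟨c, -, e⟩ := h i
  change ρ M (b i) ∈ Submodule.span K (Set.range b)
  rw [e]
  exact Submodule.smul_mem _ c (Submodule.subset_span ⟨_, rfl⟩)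

variable (ρ b)

/-- Elements which preserve the lines through the vectors `b i`. -/
def Dg : Subgroup X where
  carrier := {M | Rel ρ b M 1}
  one_mem' := Rel.one
  mul_mem' := fun hM hN => Rel.mul hM hN
  inv_mem' := fun hM => Rel.inv hM

theorem solv (hρ : Function.Injective ρ) :
    Group.IsSolvable (Dg ρ b ⊓ Sc ρ (Submodule.span K (Set.range b)) : Subgroup X) := by
  refine solv_of_two _ (Un ρ (Submodule.span K (Set.range b)))
    (commutator_le.2 fun M hM N hN => ?_) fun M hM N hN => ?_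
  · have e : ∀ w, ρ ⁅M, N⁆ w = ρ M (ρ N (ρ (N * M)⁻¹ w)) := fun w => by
      rw [← app_mul, ← app_mul, commutatorElement_def, _root_.mul_inv_rev, mul_assoc (M * N)]
    have e' : ∀ w, ρ N (ρ M (ρ (N * M)⁻¹ w)) = w := fun w => by
      rw [← app_mul, ← app_mul, mul_inv_cancel, app_one]
    refine ⟨fun u hu => ?_, fun w => ?_⟩
    · have h1 : ∀ u ∈ Submodule.span K (Set.range b), ρ M (ρ N u) = ρ N (ρ M u) := fun u hu =>
        LinearMap.eqOn_span' (f := ρ M * ρ N) (g := ρ N * ρ M) (by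
          rintro _ ⟨i, rfl⟩
          obtain ⟨c, -, e1⟩ := hM.1 i
          obtain ⟨d, -, e2⟩ := hN.1 i
          rw [Equiv.Perm.one_apply] at e1 e2
          rw [Module.End.mul_apply, Module.End.mul_apply, e1, e2, map_smul, map_smul, e1, e2,
            smul_comm]) hu
      rw [e, h1 _ (Rel.mem (Rel.inv (Rel.mul hN.1 hM.1)) hu), e']
    · obtain ⟨c, -, e1⟩ := hM.2
      obtain ⟨d, -, e2⟩ := hN.2
      have h1 := Submodule.add_mem _ (e1 (ρ N (ρ (N * M)⁻¹ w)))
        (Submodule.smul_mem _ c (e2 (ρ (N * M)⁻¹ w)))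
      have h2 := Submodule.add_mem _ (e2 (ρ M (ρ (N * M)⁻¹ w)))
        (Submodule.smul_mem _ d (e1 (ρ (N * M)⁻¹ w)))
      rw [smul_sub, sub_add_sub_cancel] at h1 h2
      have h3 := Submodule.sub_mem _ h1 h2
      rwa [smul_comm c d, sub_sub_sub_cancel_right, ← e, e'] at h3
  · refine hρ (LinearMap.ext fun w => ?_)
    have h1 := hM.1 _ (hN.2 w)
    have h2 := hN.1 _ (hM.2 w)
    rw [map_sub, sub_eq_iff_eq_add] at h1 h2
    rw [app_mul, app_mul, h1, h2]
    abel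

/-- Pairs of an element and the permutation of the lines induced by a lift. -/
def Tt {H Y : Type} [Group H] [Group Y] (π : X →* Y) (φ : H →* Y) :
    Subgroup (H × Equiv.Perm ι) where
  carrier := {x | ∃ M, π M = φ x.1 ∧ Rel ρ b M x.2}
  one_mem' := ⟨1, by rw [map_one, Prod.fst_one, map_one], Rel.one⟩
  mul_mem' := fun ⟨M, hM, e⟩ ⟨N, hN, e'⟩ =>
    ⟨M * N, by rw [map_mul, Prod.fst_mul, map_mul, hM, hN], e.mul e'⟩
  inv_mem' := fun ⟨M, hM, e⟩ => ⟨M⁻¹, by rw [map_inv, Prod.fst_inv, map_inv, hM], e.inv⟩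

end Mon

theorem core {G H X Y K V : Type} [Group G] [Group H] [Finite H] [Group X] [Group Y] [Field K]
    [AddCommGroup V] [Module K V] {m : ℕ} (h5 : 5 ≤ m) (μ : H →* G) (hμ : Function.Injective μ)
    (φ : H →* Y) (R : Subgroup H) (hR : R.Normal) (hφ : R.map φ = ⊤) (hS : Sch (φ.ker ⊓ R))
    (ρ : X →* Module.End K V) (hρ : Function.Injective ρ) (π : X →* Y)
    (hπ : ∀ M N, π M = π N → ∃ c : K, c ≠ 0 ∧ ∀ w, ρ N w = c • ρ M w) (b : Fin m → V)
    (hb : LinearIndependent K b)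
    (hex : ∀ s ∈ alternatingGroup (Fin m), ∃ M, (∀ i, ρ M (b i) = b (s i)) ∧
      ∀ w, ρ M w - w ∈ Submodule.span K (Set.range b)) :
    ∃ L : Alt.Lv G, SLv L ∧ ∀ h M s, π M = φ h → Rel ρ b M s →
      μ h ∈ L.H ∧ (s ≠ 1 → 1 ≤ L.deg (μ h)) := by
  set U := Submodule.span K (Set.range b) with hU
  let κ : Tt ρ b π φ →* H := (MonoidHom.fst _ _).comp (Tt ρ b π φ).subtype
  let ψ : Tt ρ b π φ →* Equiv.Perm (Fin m) := (MonoidHom.snd _ _).comp (Tt ρ b π φ).subtype
  have hκ : Function.Injective κ := fun x y h => by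
    obtain ⟨M, hM, e⟩ := x.2
    obtain ⟨N, hN, e'⟩ := y.2
    obtain ⟨c, hc, h1⟩ := hπ M N (hM.trans ((congrArg φ h).trans hN.symm))
    exact Subtype.ext (Prod.ext h ((e.smul hc h1).eq hb e'))
  let J : Subgroup (Tt ρ b π φ) := (R ⊓ ((Sc ρ U).map π).comap φ).comap κ
  have hJ : J.Normal := ⟨fun y hy x => ⟨by
      rw [map_mul, map_mul, map_inv]; exact hR.conj_mem _ hy.1 _, by
    obtain ⟨N, ⟨c, hc, h1⟩, hN⟩ := hy.2
    obtain ⟨M, hM, e⟩ := x.2
    refine ⟨M * N * M⁻¹, ⟨c, hc, fun w => ?_⟩, ?_⟩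
    · have h2 := e.mem (h1 (ρ M⁻¹ w))
      rwa [map_sub, map_smul, ← app_mul, ← app_mul, ← app_mul, mul_inv_cancel, app_one] at h2
    · rw [map_mul, map_mul, map_inv, map_mul, map_mul, map_inv, map_mul, map_mul, map_inv, hM, hN]
      rfl⟩⟩
  have hJs : ∀ s ∈ alternatingGroup (Fin m), ∃ y ∈ J, ψ y = s := fun s hs => by
    obtain ⟨M, h1, h2⟩ := hex s hs
    obtain ⟨r, hr, e⟩ : π M ∈ R.map φ := hφ ▸ mem_top _
    exact ⟨⟨(r, s), M, e.symm, fun i => ⟨1, one_ne_zero, by rw [h1, one_smul]⟩⟩,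
      ⟨hr, M, ⟨1, one_ne_zero, fun w => by rw [one_smul]; exact h2 w⟩, e.symm⟩, rfl⟩
  have hne : ∃ y ∈ J, ψ y ≠ 1 := by
    have : Nontrivial (alternatingGroup (Fin m)) :=
      alternatingGroup.nontrivial_of_three_le_card (by simpa using by omega)
    obtain ⟨s, hs⟩ := exists_ne (1 : alternatingGroup (Fin m))
    obtain ⟨y, hy, e⟩ := hJs s s.2
    exact ⟨y, hy, fun h => hs (Subtype.ext (e.symm.trans h))⟩
  have hsch : Sch (ψ.ker ⊓ J) := by
    refine Sch.of_ker (φ.comp κ) ((hS.comap κ hκ fun y hy => ⟨⟨(y, 1), 1,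
      (map_one π).trans hy.1.symm, fun i => ⟨1, one_ne_zero, by rw [app_one, one_smul]; rfl⟩⟩,
      rfl⟩).nrm (fun y hy => ⟨hy.2, hy.1.2.1⟩) inferInstance) ?_
    have h1 := solv ρ b hρ
    have h2 := Group.isSolvable_of_surjective (π.subgroupMap_surjective (Dg ρ b ⊓ Sc ρ U))
    refine Group.isSolvable_of_isSolvable_injective (inclusion_injective
      (K := (Dg ρ b ⊓ Sc ρ U).map π) ?_)
    rintro _ ⟨y, hy, rfl⟩
    obtain ⟨N, hN, e⟩ := hy.2.2
    obtain ⟨M, hM, e'⟩ := y.2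
    obtain ⟨c, hc, h3⟩ := hπ M N (hM.trans e.symm)
    have h4 := e'.smul hc h3
    rw [show y.1.2 = 1 from hy.1] at h4
    exact ⟨N, ⟨h4, hN⟩, e⟩
  obtain ⟨L, hL, h1⟩ := exists_lv h5 (μ.comp κ) (hμ.comp hκ) ψ (fun s hs => by
    obtain ⟨y, -, e⟩ := hJs s hs
    exact ⟨y, e⟩) J hJ hne hsch
  exact ⟨L, hL, fun h M s e e' => h1 ⟨(h, s), M, e, e'⟩⟩

/-- Even permutations of an independent family are induced by matrices of determinant one. -/
theorem exists_sl {ι K A : Type} [Fintype ι] [DecidableEq ι] [Field K] [Fintype A] [DecidableEq A]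
    {b : A → ι → K} (hb : LinearIndependent K b) (τ : Equiv.Perm A)
    (hτ : Equiv.Perm.sign τ = 1) : ∃ M : SL ι K, (∀ a, M.1 *ᵥ b a = b (τ a)) ∧
      ∀ w, M.1 *ᵥ w - w ∈ Submodule.span K (Set.range b) := by
  classical
  let B := Module.Basis.extend hb.linearIndepOn_id
  let _ := FiniteDimensional.fintypeBasisIndex B
  let e : A ↪ hb.linearIndepOn_id.extend (Set.subset_univ _) :=
    ⟨fun a => ⟨b a, hb.linearIndepOn_id.subset_extend _ ⟨a, rfl⟩⟩,
      fun a a' h => hb.injective (congrArg Subtype.val h)⟩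
  let τ' := τ.viaFintypeEmbedding e
  let T : (ι → K) →ₗ[K] ι → K := B.constr K (B ∘ τ')
  have hT : ∀ x, T (B x) = B (τ' x) := fun x => B.constr_basis K _ x
  have hdet : LinearMap.det T = 1 := by
    have h1 := B.det_comp T B
    have h2 : (T ∘ B) = B ∘ τ' := funext hT
    rw [h2, AlternatingMap.map_perm, Equiv.Perm.viaFintypeEmbedding_sign, hτ, B.det_self,
      one_smul, mul_one] at h1
    exact h1.symm
  have hB : ∀ a, B (e a) = b a := fun a => Module.Basis.extend_apply_self _ _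
  have h3 : ∀ a, T (b a) = b (τ a) := fun a => by
    rw [← hB, hT, Equiv.Perm.viaFintypeEmbedding_apply_image, hB]
  refine ⟨⟨LinearMap.toMatrix' T, by rw [LinearMap.det_toMatrix', hdet]⟩,
    fun a => (LinearMap.toMatrix'_mulVec T _).trans (h3 a), fun w => ?_⟩
  change LinearMap.toMatrix' T *ᵥ w - w ∈ _
  rw [LinearMap.toMatrix'_mulVec]
  have h4 : Submodule.span K (Set.range B) ≤
      (Submodule.span K (Set.range b)).comap (T - LinearMap.id) := by
    refine Submodule.span_le.2 ?_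
    rintro _ ⟨x, rfl⟩
    change T (B x) - B x ∈ Submodule.span K (Set.range b)
    by_cases hx : x ∈ Set.range e
    · obtain ⟨a, rfl⟩ := hx
      rw [hB, h3]
      exact Submodule.sub_mem _ (Submodule.subset_span ⟨_, rfl⟩) (Submodule.subset_span ⟨_, rfl⟩)
    · rw [hT, Equiv.Perm.viaFintypeEmbedding_apply_notMem_range _ _ hx, sub_self]
      exact Submodule.zero_mem _
  exact h4 (B.mem_span w)

end Alv

open Alv

theorem alvStmt : AlvStmt := by
  intro G _ P F _ A v hF h5 hA hb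
  let ρ : SL (Fin P.n) P.K →* Module.End P.K (Fin P.n → P.K) :=
    { toFun := fun M => toLin' M.1
      map_one' := toLin'_one
      map_mul' := fun M N => toLin'_mul _ _ }
  have hρ : ∀ M w, ρ M w = M.1 *ᵥ w := fun M w => toLin'_apply _ _
  have hπ : ∀ M N : SL (Fin P.n) P.K, (M : PSL (Fin P.n) P.K) = N →
      ∃ c : P.K, c ≠ 0 ∧ ∀ w, ρ N w = c • ρ M w := fun M N h => by
    obtain ⟨c, hc, e⟩ := PT.exists_smul_of_mk_eq h
    exact ⟨c, hc, fun w => by rw [hρ, hρ, e, smul_mulVec]⟩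
  let e := Finite.equivFin F
  have hb' := hb.comp e.symm e.symm.injective
  obtain ⟨L, hL, h1⟩ := core h5 P.H.subtype P.H.subtype_injective P.φ P.R P.hd.nrm P.surj P.sch ρ
    (fun M N h => Subtype.ext (toLin'.injective h)) (QuotientGroup.mk' _) hπ _ hb'
    fun s hs => by simpa only [hρ] using exists_sl hb' s hs
  have h2 := fun f : F => h1 ⟨f, hF f.2⟩ (A f) (e.permCongr (Equiv.mulLeft f)) (hA f _) fun i => by
    obtain ⟨c, hc, h3⟩ := hπ (A (f * e.symm i)) (A f * A (e.symm i)) (by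
      rw [QuotientGroup.mk_mul, hA _ (hF (f * e.symm i).2), hA _ (hF f.2), hA _ (hF (e.symm i).2),
        ← map_mul]
      rfl)
    refine ⟨c, hc, ?_⟩
    have h4 := h3 v
    rw [app_mul, hρ (A (e.symm i)), hρ (A (f * _))] at h4
    simpa using h4
  refine ⟨L, hL, fun f hf => (h2 ⟨f, hf⟩).1, fun f hf h0 => (h2 ⟨f, hf⟩).2 fun h => h0 ?_⟩
  have h3 := Equiv.congr_fun h (e 1)
  simpa using h3

end Pool.Agent.Lib.MP_679d9b_al.KG
end
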