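import Mathlib
import Pool.Agent.Lib.MP_679d9b_al.KG.Ty

/-!
The case of a central extension of an alternating group.
-/

set_option autoImplicit false

namespace Pool.Agent.Lib.MP_679d9b_al.KG

open Subgroup
open scoped commutatorElement
open PT (PEl)

namespace Cen

variable {H K V J : Type} [Group H] [Field K] [AddCommGroup V] [Module K V]
  {ρ : H →* Module.End K V} {L : J → Subgroup H}

/-- A subspace with support `I`. -/
def Wd (ρ : H →* Module.End K V) (L : J → Subgroup H) (W : Submodule K V) (I : Set J) : Prop :=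
  W ≠ ⊥ ∧ (∀ j, Iv ρ (L j) W) ∧ (∀ i ∈ I, W ≤ Br ρ (L i) W) ∧ ∀ j, j ∉ I → ∀ w ∈ W, Fx ρ (L j) w

theorem app_mul (x y : H) (v : V) : ρ x (ρ y v) = ρ (x * y) v := by
  rw [map_mul, Module.End.mul_apply]

theorem Wd.move {W : Submodule K V} {I : Set J} (hW : Wd ρ L W I) (h : H) (π : Equiv.Perm J)
    (hh : ∀ i y, y ∈ L i ↔ h * y * h⁻¹ ∈ L (π i)) : Wd ρ L (W.map (ρ h)) (π '' I) := by
  have back : ∀ i y, y ∈ L (π i) → h⁻¹ * y * h ∈ L i := fun i y hy =>
    (hh i _).2 (by simpa [mul_assoc] using hy)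
  refine ⟨fun h0 => hW.1 ?_, fun j y hy w hw => ?_, ?_, fun j hj w hw y hy => ?_⟩
  · rw [eq_bot_iff]
    intro w hw
    have h1 : ρ h w = 0 := (Submodule.eq_bot_iff _).1 h0 _ ⟨w, hw, rfl⟩
    have h2 : ρ h⁻¹ (ρ h w) = w := by rw [app_mul, inv_mul_cancel, map_one, Module.End.one_apply]
    rw [Submodule.mem_bot, ← h2, h1, map_zero]
  · obtain ⟨i, rfl⟩ := π.surjective j
    obtain ⟨w, hw, rfl⟩ := hw
    refine ⟨ρ (h⁻¹ * y * h) w, hW.2.1 i _ (back i y hy) w hw, ?_⟩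
    rw [app_mul, app_mul]
    simp [mul_assoc]
  · rintro _ ⟨i, hi, rfl⟩
    refine (Submodule.map_mono (hW.2.2.1 i hi)).trans ?_
    rw [Br, Submodule.map_span]
    refine Submodule.span_mono ?_
    rintro _ ⟨_, ⟨y, hy, w, hw, rfl⟩, rfl⟩
    refine ⟨h * y * h⁻¹, (hh i y).1 hy, ρ h w, ⟨w, hw, rfl⟩, ?_⟩
    rw [map_sub, app_mul, app_mul]
    simp [mul_assoc]
  · obtain ⟨i, rfl⟩ := π.surjective j
    obtain ⟨w, hw, rfl⟩ := hw
    have h1 := hW.2.2.2 i (fun hi => hj ⟨i, hi, rfl⟩) w hw _ (back i y hy)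
    rw [app_mul]
    conv_rhs => rw [← h1, app_mul]
    simp [mul_assoc]

/-- Noncentral elements of prime power order. -/
def El (r : ℕ) (L : Subgroup H) (a : H) : Prop :=
  a ∈ L ∧ a ∉ centralizer (L : Set H) ∧ PEl r a

theorem El.conj {r : ℕ} {L L' : Subgroup H} {a : H} (ha : El r L a) (h : H)
    (hh : ∀ y, y ∈ L ↔ h * y * h⁻¹ ∈ L') : El r L' (h * a * h⁻¹) := by
  refine ⟨(hh a).1 ha.1, fun hc => ha.2.1 ?_, ?_⟩
  · rw [mem_centralizer_iff] at hc ⊢
    intro y hy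
    have h1 := hc _ ((hh y).1 hy)
    have h2 : h * (y * a) * h⁻¹ = h * (a * y) * h⁻¹ := by
      simpa [mul_assoc] using h1
    exact mul_left_cancel (mul_right_cancel h2)
  · obtain ⟨k, hk⟩ := ha.2.2
    exact ⟨k, by rw [conj_pow, hk, mul_one, mul_inv_cancel]⟩

theorem core (hWi : WiStmt) (hCor : CorStmt) {F C : Type} [Group F] [Fintype F] [Fintype C]
    [Finite H] (l : ℕ) [Fact l.Prime] [CharP K l] (c : F × Bool → C) (hc : Function.Injective c)
    (h5 : 5 ≤ Fintype.card C) (R : Subgroup H) (L : F × C → Subgroup H) (j : F →* H)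
    (Φ : Finset H) (hL : ∀ i, L i ≤ R ∧ Qs (L i))
    (hcomm : ∀ i i', i ≠ i' → ∀ x ∈ L i, ∀ y ∈ L i', Commute x y)
    (hmove : ∀ π : Equiv.Perm (F × C), ∃ h : H, ∀ i y, y ∈ L i ↔ h * y * h⁻¹ ∈ L (π i))
    (hj : ∀ f f' x y, y ∈ L (f', x) ↔ j f * y * (j f)⁻¹ ∈ L (f * f', x))
    (hnt : ∃ i, ∃ y ∈ L i, ρ y ≠ 1) (hΦ : ∀ g ∈ Φ, ∃ f, f ≠ 1 ∧ g = j f) :
    ∃ v, Pat ρ R Φ v := by
  classical
  obtain ⟨W0, I0, w1, ⟨i0, hi0⟩, w2, w3, w4⟩ := hWi H K V (F × C) ρ L (fun i => (hL i).2.perf)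
    hcomm hnt
  have hW0 : Wd ρ L W0 I0 := ⟨w1, w2, w3, w4⟩
  have shift : ∀ S : Finset (F × C), S.card = I0.toFinset.card → ∃ W, Wd ρ L W (S : Set _) := by
    intro S hS
    obtain ⟨π, hπ⟩ := Equiv.Perm.exists_map_finset_eq _ _ hS.symm
    obtain ⟨h, hh⟩ := hmove π
    refine ⟨W0.map (ρ h), ?_⟩
    have e : (S : Set (F × C)) = π '' I0 := by
      rw [← hπ]
      simp
    rw [e]
    exact hW0.move h π hh
  set c0 := c (1, false) with hc0
  obtain ⟨r, hr, hrl, a0, ha0⟩ := (hL (1, c0)).2.exists_el l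
  have : Fact r.Prime := ⟨hr⟩
  have hrK : (r : K) ≠ 0 := fun h0 => hrl
    ((Nat.prime_dvd_prime_iff_eq Fact.out hr).1 ((CharP.cast_eq_zero_iff K l r).1 h0)).symm
  have hb : ∀ x : C, ∃ b, El r (L (1, x)) b := fun x => by
    obtain ⟨h, hh⟩ := hmove (Equiv.swap (1, c0) (1, x))
    have h1 := hh (1, c0)
    rw [Equiv.swap_apply_left] at h1
    exact ⟨_, El.conj (show El r (L (1, c0)) a0 from ha0) h h1⟩
  choose b hb using hb
  set a : F × C → H := fun i => j i.1 * b i.2 * (j i.1)⁻¹ with ha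
  have hel : ∀ i, El r (L i) (a i) := fun i => (hb i.2).conj (j i.1) fun y => by
    simpa using hj i.1 1 i.2 y
  have hfg : ∀ g : H, ∃ f : F, g ∈ Φ → f ≠ 1 ∧ g = j f := fun g => by
    by_cases hg : g ∈ Φ
    · obtain ⟨f, hf⟩ := hΦ g hg
      exact ⟨f, fun _ => hf⟩
    · exact ⟨1, fun h => absurd h hg⟩
  choose fg hfg using hfg
  have hconj : ∀ g ∈ Φ, ∀ x, g⁻¹ * a (1, x) * g = a ((fg g)⁻¹, x) := fun g hg x => by
    simp only [ha, map_one, map_inv, ← (hfg g hg).2]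
    group
  have cor : ∀ (S : Finset (F × C)) (W : Submodule K V), Wd ρ L W (S : Set _) →
      ∀ (Φ1 Φ2 : Finset H) (σ : H → S) (τ : H → Fin 4 → S), (∀ g ∈ Φ, g ∈ Φ1 ∨ g ∈ Φ2) →
      (∀ g ∈ Φ1, ∀ w ∈ W, ρ (a (σ g)) (ρ g w) = ρ g w) →
      (∀ g ∈ Φ2, g⁻¹ * a (τ g 0) * g = a (τ g 2) ∧ g⁻¹ * a (τ g 1) * g = a (τ g 3)) →
      (∀ g ∈ Φ2, ∀ g' ∈ Φ2, ∀ m m', τ g m = τ g' m' → g = g' ∧ m = m') →
      (∀ g ∈ Φ1, ∀ g' ∈ Φ2, ∀ m, σ g ≠ τ g' m) → ∃ v, Pat ρ R Φ v :=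
    fun S W hW Φ1 Φ2 σ τ => hCor r H K V S ρ R (fun i => L i) (fun i => a i) W Φ1 Φ2 Φ σ τ hrK
      (fun i => ⟨(hL i).1, (hL i).2, hel i⟩)
      (fun i i' hne => hcomm i i' fun h => hne (Subtype.ext h)) hW.1 (fun i => hW.2.1 i)
      fun i => hW.2.2.1 i i.2
  rcases le_or_gt (4 * Fintype.card F) I0.toFinset.card with hI | hI
  · let q : F → Fin 4 → F × C := fun f =>
      ![(1, c (f, false)), (1, c (f, true)), (f⁻¹, c (f, false)), (f⁻¹, c (f, true))]
    obtain ⟨S, hS1, -, hS2⟩ := Finset.exists_subsuperset_card_eq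
      (Finset.subset_univ (Finset.univ.image fun x : F × Fin 4 => q x.1 x.2))
      (n := I0.toFinset.card) (Finset.card_image_le.trans (by simpa [mul_comm] using hI))
      (Finset.card_le_univ _)
    obtain ⟨W, hW⟩ := shift S hS2
    have hq : ∀ f m, q f m ∈ S := fun f m =>
      hS1 (Finset.mem_image.2 ⟨(f, m), Finset.mem_univ _, rfl⟩)
    refine cor S W hW ∅ Φ (fun _ => ⟨_, hq 1 0⟩) (fun g m => ⟨_, hq (fg g) m⟩)
      (fun g hg => Or.inr hg) (by simp) (fun g hg => ⟨hconj g hg _, hconj g hg _⟩)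
      (fun g hg g' hg' m m' e => ?_) (by simp)
    have e1 : q (fg g) m = q (fg g') m' := congrArg Subtype.val e
    have n1 := (hfg g hg).1
    have n2 := (hfg g' hg').1
    have key : fg g = fg g' ∧ m = m' := by
      fin_cases m <;> fin_cases m' <;> simp [q, hc.eq_iff, n1, n2] at e1 ⊢ <;> tauto
    exact ⟨by rw [(hfg g hg).2, (hfg g' hg').2, key.1], key.2⟩
  · obtain ⟨S, hS1, hS3, hS2⟩ := Finset.exists_subsuperset_card_eq
      (s := {((1 : F), c0)}) (t := insert (1, c0) (Finset.univ ×ˢ Finset.univ.erase c0))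
      (by simp) (n := I0.toFinset.card)
      (by rw [Finset.card_singleton]; exact Finset.card_pos.2 ⟨i0, by simpa using hi0⟩)
      (le_trans (by
        rw [Finset.card_product, Finset.card_erase_of_mem (Finset.mem_univ _), Finset.card_univ,
          Finset.card_univ]
        have := Nat.mul_le_mul_left (Fintype.card F) (show 4 ≤ Fintype.card C - 1 by omega)
        omega) (Finset.card_le_card (Finset.subset_insert _ _)))
    obtain ⟨W, hW⟩ := shift S hS2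
    have h1 : ((1 : F), c0) ∈ S := hS1 (Finset.mem_singleton_self _)
    refine cor S W hW Φ ∅ (fun _ => ⟨_, h1⟩) (fun _ _ => ⟨_, h1⟩) (fun g hg => Or.inl hg)
      (fun g hg w hw => ?_) (by simp) (by simp) (by simp)
    have h2 : ((fg g)⁻¹, c0) ∉ (S : Set (F × C)) := fun h => by
      have := hS3 h
      simp [(hfg g hg).1] at this
    have h3 := hW.2.2.2 _ h2 w hw _ (hel ((fg g)⁻¹, c0)).1
    rw [← hconj g hg] at h3
    conv_rhs => rw [← h3, app_mul]
    rw [app_mul]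
    simp [mul_assoc]

end Cen

theorem cenStmt (hWi : WiStmt) (hCor : CorStmt) : CenStmt := by
  intro F _ _
  classical
  let _ := Fintype.ofFinite F
  refine ⟨Fintype.card ((F × ((F × Bool) × Fin 3)) × Fin 6), ?_⟩
  intro l _ H K V Ω _ _ _ _ _ _ _ _ ρ φ j Φ hφ hfree hn hcen hnt hΦ
  let _ : MulAction F ((F × ((F × Bool) × Fin 3)) × Fin 6) :=
    { smul := fun f a => ((f * a.1.1, a.1.2), a.2)
      one_smul := fun a => by
        change ((1 * a.1.1, a.1.2), a.2) = a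
        simp
      mul_smul := fun f g a => by
        change ((f * g * a.1.1, a.1.2), a.2) = ((f * (g * a.1.1), a.1.2), a.2)
        rw [mul_assoc] }
  let _ : MulAction F Ω := MulAction.compHom Ω (φ.comp j)
  obtain ⟨e0, he0, he0'⟩ := exists_equivariant (F := F)
    (A := (F × ((F × Bool) × Fin 3)) × Fin 6) (B := Ω)
    (fun f a h => by
      have h1 : f * a.1.1 = a.1.1 := congrArg (fun x => x.1.1) h
      exact mul_eq_right.1 h1)
    (fun f b h => hfree f b h) (by simpa only [Nat.card_eq_fintype_card] using hn)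
  let e : (F × ((F × Bool) × Fin 3)) × Fin 6 ↪ Ω := ⟨e0, he0⟩
  let B : F × ((F × Bool) × Fin 3) → Finset Ω := fun i => Finset.univ.image fun m => e (i, m)
  have hB : ∀ i, 5 ≤ (B i).card := fun i => by
    rw [Finset.card_image_of_injective _ fun m m' h => (Prod.ext_iff.1 (e.injective h)).2]
    simp
  have h5 : 5 ≤ (Finset.univ : Finset Ω).card := (hB (1, (1, false), 0)).trans (Finset.card_le_univ _)
  have hcj : ∀ (h : H) (i i'), (∀ m, φ h (e (i, m)) = e (i', m)) →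
      ∀ y, y ∈ Alt.R φ (B i) ↔ h * y * h⁻¹ ∈ Alt.R φ (B i') := by
    intro h i i' hh y
    refine ⟨Alt.R_conj hφ (hB i') fun a ha => ?_, fun hy => ?_⟩
    · obtain ⟨m, -, rfl⟩ := Finset.mem_image.1 ha
      exact Finset.mem_image.2 ⟨m, Finset.mem_univ _, (hh m).symm⟩
    · have := Alt.R_conj (h := h⁻¹) hφ (hB i) (fun a ha => by
        obtain ⟨m, -, rfl⟩ := Finset.mem_image.1 ha
        refine Finset.mem_image.2 ⟨m, Finset.mem_univ _, ?_⟩
        rw [map_inv, ← hh m]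
        simp) hy
      simpa [mul_assoc] using this
  refine Cen.core hWi hCor l (fun x => (x, (0 : Fin 3))) (fun x y h => (Prod.ext_iff.1 h).1) ?_ _
    (fun i => Alt.R φ (B i)) j Φ
    (fun i => ⟨Alt.R_mono hφ h5 (Finset.subset_univ _), (R_cen hφ hcen (hB i)).1⟩)
    (fun i i' hne => (R_cen hφ hcen (hB i)).2 _ (hB i') ?_) (fun π => ?_)
    (fun f f' x => hcj _ _ _ fun m => (he0' f ((f', x), m)).symm) ?_ hΦ
  · have := Fintype.card_pos (α := F)
    simp only [Fintype.card_prod, Fintype.card_bool, Fintype.card_fin]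
    omega
  · rw [Finset.disjoint_left]
    intro a ha ha'
    obtain ⟨m, -, rfl⟩ := Finset.mem_image.1 ha
    obtain ⟨m', -, h⟩ := Finset.mem_image.1 ha'
    exact hne (Prod.ext_iff.1 (e.injective h)).1.symm
  · obtain ⟨h, hh⟩ := hφ (x := Equiv.Perm.viaFintypeEmbedding
      (Equiv.prodCongrLeft fun _ : Fin 6 => π) e) (by
        rw [Equiv.Perm.mem_alternatingGroup, Equiv.Perm.viaFintypeEmbedding_sign,
          Equiv.Perm.sign_prodCongrLeft, Finset.prod_const, Finset.card_univ, Fintype.card_fin]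
        exact (Int.units_pow_eq_pow_mod_two _ 6).trans (pow_zero _))
    refine ⟨h, fun i => hcj h i (π i) fun m => ?_⟩
    rw [hh, Equiv.Perm.viaFintypeEmbedding_apply_image]
    rfl
  · by_contra hall
    push Not at hall
    obtain ⟨σ, hσ, τ, -, a, -, hne⟩ := Alt.exists_noncomm (Δ := B (1, (1, false), 0))
      (le_trans (by norm_num) (hB _))
    obtain ⟨y, hy, rfl⟩ := Alt.R_surj hφ (hB _) hσ
    have h1 := (hd_R hφ h5).min ρ.ker (fun r _ z hz => (MonoidHom.normal_ker ρ).conj_mem z hz r) y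
      (hall _ y hy) fun h0 => hne (by rw [h0]; rfl)
    obtain ⟨r, hr, h2⟩ := hnt
    exact h2 (h1 hr)

end Pool.Agent.Lib.MP_679d9b_al.KG
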