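import Mathlib
import Pool.Agent.Lib.MP_679d9b_al.KG.Ty

/-!
The component case.
-/

set_option autoImplicit false

namespace Pool.Agent.Lib.MP_679d9b_al.KG

open Subgroup
open scoped commutatorElement Pointwise
open PT (PEl)

namespace Cmp

variable {H K V J : Type} [Group H] [Field K] [AddCommGroup V] [Module K V] [MulAction H J]
  {ρ : H →* Module.End K V} {R A : Subgroup H} {L : J → Subgroup H}

/-- A subspace with its support. -/
structure WI (ρ : H →* Module.End K V) (L : J → Subgroup H) (W : Submodule K V) (I : Set J) :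
    Prop where
  ne : W ≠ ⊥
  nonempty : I.Nonempty
  iv : ∀ j, Iv ρ (L j) W
  br : ∀ i ∈ I, W ≤ Br ρ (L i) W
  fx : ∀ j, j ∉ I → ∀ w ∈ W, Fx ρ (L j) w

theorem rho_conj (h y : H) (w : V) : ρ y (ρ h w) = ρ h (ρ (h⁻¹ * y * h) w) := by
  rw [← Module.End.mul_apply, ← Module.End.mul_apply, ← map_mul, ← map_mul]
  congr 2
  group

theorem mem_inv (hL : Cs R A L) (h : H) {j : J} {y : H} (hy : y ∈ L j) :
    h⁻¹ * y * h ∈ L (h⁻¹ • j) := by
  simpa using hL.conj h⁻¹ j y hy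

theorem WI.smul (hL : Cs R A L) {W : Submodule K V} {I : Set J} (h : WI ρ L W I) (g : H) :
    WI ρ L (W.map (ρ g)) (g • I) where
  ne e := h.ne (eq_bot_iff.2 fun w hw => by
    have h1 : ρ g w = 0 := (eq_bot_iff.1 e) (Submodule.mem_map_of_mem hw)
    have h2 : ρ g⁻¹ (ρ g w) = w := by
      rw [← Module.End.mul_apply, ← map_mul, inv_mul_cancel, map_one, Module.End.one_apply]
    rw [h1, map_zero] at h2
    exact h2.symm)
  nonempty := h.nonempty.smul_set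
  iv j y hy := by
    rintro _ ⟨w, hw, rfl⟩
    rw [rho_conj]
    exact Submodule.mem_map_of_mem (h.iv _ _ (mem_inv hL g hy) w hw)
  br := by
    rintro _ ⟨i, hi, rfl⟩
    refine (Submodule.map_mono (h.br i hi)).trans ?_
    rw [Br, Submodule.map_span_le]
    rintro _ ⟨y, hy, w, hw, rfl⟩
    refine Submodule.subset_span ⟨g * y * g⁻¹, hL.conj g i y hy, ρ g w,
      Submodule.mem_map_of_mem hw, ?_⟩
    rw [map_sub, rho_conj g (g * y * g⁻¹)]
    congr 4
    group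
  fx j hj := by
    rintro _ ⟨w, hw, rfl⟩ y hy
    rw [rho_conj, h.fx (g⁻¹ • j) (fun k => hj (Set.mem_smul_set_iff_inv_smul_mem.2 k)) w hw _
      (mem_inv hL g hy)]

/-- Noncentral `r`-elements of a component. -/
def Gd (r : ℕ) (L : J → Subgroup H) (j : J) (x : H) : Prop :=
  x ∈ L j ∧ x ∉ centralizer (L j : Set H) ∧ PEl r x

theorem Gd.conj (hL : Cs R A L) {r : ℕ} {j : J} {x : H} (h : Gd r L j x) (g : H) :
    Gd r L (g • j) (g * x * g⁻¹) := by
  obtain ⟨h1, h2, k, h3⟩ := h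
  refine ⟨hL.conj g j x h1, fun c => h2 (mem_centralizer_iff.2 fun y hy => ?_), k, ?_⟩
  · have := mem_centralizer_iff.1 c _ (hL.conj g j y hy)
    calc y * x = g⁻¹ * (g * y * g⁻¹ * (g * x * g⁻¹)) * g := by group
      _ = g⁻¹ * (g * x * g⁻¹ * (g * y * g⁻¹)) * g := by rw [this]
      _ = x * y := by group
  · rw [conj_pow, h3, mul_one, mul_inv_cancel]

theorem cor' (hC : CorStmt) [Finite H] {r : ℕ} [Fact r.Prime] (hr : (r : K) ≠ 0) (hA : A ≤ R)
    (hL : Cs R A L) {W : Submodule K V} {I : Set J} (h : WI ρ L W I) (a : J → H)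
    (ha : ∀ j, Gd r L j (a j)) (Φ1 Φ2 Φ : Finset H) (σ : H → J) (τ : H → Fin 4 → J)
    (h0 : ∀ g ∈ Φ, g ∈ Φ1 ∨ g ∈ Φ2) (h1 : ∀ g ∈ Φ1, σ g ∈ I ∧ σ g ∉ g • I)
    (h2 : ∀ g ∈ Φ2, ∀ m, τ g m ∈ I)
    (h3 : ∀ g ∈ Φ2, g⁻¹ * a (τ g 0) * g = a (τ g 2) ∧ g⁻¹ * a (τ g 1) * g = a (τ g 3))
    (h4 : ∀ g ∈ Φ2, ∀ g' ∈ Φ2, ∀ m m', τ g m = τ g' m' → g = g' ∧ m = m')
    (h5 : ∀ g ∈ Φ1, ∀ g' ∈ Φ2, ∀ m, σ g ≠ τ g' m) : ∃ v, Pat ρ R Φ v := by
  classical
  obtain ⟨i0, hi0⟩ := h.nonempty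
  let p : J → I := fun j => if k : j ∈ I then ⟨j, k⟩ else ⟨i0, hi0⟩
  have hp : ∀ j ∈ I, (p j : J) = j := fun j hj => by simp [p, hj]
  refine hC r H K V I ρ R (fun i => L i) (fun i => a i) W Φ1 Φ2 Φ (fun g => p (σ g))
    (fun g m => p (τ g m)) hr
    (fun i => ⟨(hL.sup ▸ le_iSup L i : L i ≤ A).trans hA, hL.qs i, ha i⟩)
    (fun i j k => hL.comm i j fun e => k (Subtype.ext e)) h.ne (fun i => h.iv i)
    (fun i => h.br i i.2) h0 (fun g hg w hw => ?_) (fun g hg => ?_)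
    (fun g hg g' hg' m m' e => h4 g hg g' hg' m m' ?_)
    (fun g hg g' hg' m e => h5 g hg g' hg' m ?_)
  · rw [hp _ (h1 g hg).1]
    exact (h.smul hL g).fx _ (h1 g hg).2 _ (Submodule.mem_map_of_mem hw) _ (ha _).1
  · simp only [hp _ (h2 g hg _)]
    exact h3 g hg
  · rw [← hp _ (h2 g hg m), ← hp _ (h2 g' hg' m')]
    exact congrArg Subtype.val e
  · rw [← hp _ (h1 g hg).1, ← hp _ (h2 g' hg' m)]
    exact congrArg Subtype.val e

theorem exists_diff [Finite J] {I : Set J} {g : H} (h : g • I ≠ I) : ∃ i ∈ I, i ∉ g • I := by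
  by_contra k
  push Not at k
  exact h (Set.eq_of_subset_of_ncard_le k (Set.ncard_smul_set g I).le).symm

/-- Greedy choice of moved points. -/
theorem greedy {ι : Type} [Finite J] [Nonempty J] (p : ι → H) (M : ι → Set J) (N : ℕ)
    (hM : ∀ i, ∀ y ∈ M i, p i • y ≠ y) (Ψ : Finset ι) (hN : Ψ.card ≤ N)
    (hΨ : ∀ i ∈ Ψ, 4 * N < (M i).ncard) :
    ∃ x : ι → J, ∀ i ∈ Ψ, x i ∈ M i ∧ ∀ i' ∈ Ψ, (x i = x i' → i = i') ∧ x i ≠ p i' • x i' ∧
      (p i • x i = p i' • x i' → i = i') := by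
  classical
  induction Ψ using Finset.induction_on with
  | empty => exact ⟨fun _ => Classical.arbitrary J, by simp⟩
  | insert i0 Ψ h0 ih =>
    rw [Finset.card_insert_of_notMem h0] at hN
    obtain ⟨x, hx⟩ := ih (by omega) fun i hi => hΨ i (Finset.mem_insert_of_mem hi)
    let U : Finset J := Ψ.image x ∪ Ψ.image fun i => p i • x i
    have hU : U.card ≤ 2 * N := by
      have : U.card ≤ _ := Finset.card_union_le (Ψ.image x) (Ψ.image fun i => p i • x i)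
      have := Finset.card_image_le (s := Ψ) (f := x)
      have := Finset.card_image_le (s := Ψ) (f := fun i => p i • x i)
      omega
    have hU' : (U ∪ U.image fun y => (p i0)⁻¹ • y).card ≤ 4 * N := by
      have := Finset.card_union_le U (U.image fun y => (p i0)⁻¹ • y)
      have := Finset.card_image_le (s := U) (f := fun y => (p i0)⁻¹ • y)
      omega
    obtain ⟨y, hy, hy'⟩ : ∃ y ∈ M i0, y ∉ ((U ∪ U.image fun y => (p i0)⁻¹ • y : Finset J) : Set J) :=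
      Set.exists_mem_notMem_of_ncard_lt_ncard (by
        rw [Set.ncard_coe_finset]
        exact hU'.trans_lt (hΨ i0 (Finset.mem_insert_self _ _)))
    have y1 : y ∉ U := fun k => hy' (Finset.mem_union_left _ k)
    have y2 : p i0 • y ∉ U := fun k => hy' (Finset.mem_union_right _
      (Finset.mem_image.2 ⟨_, k, inv_smul_smul _ _⟩))
    have u1 : ∀ i ∈ Ψ, x i ∈ U := fun i hi =>
      Finset.mem_union_left _ (Finset.mem_image_of_mem _ hi)
    have u2 : ∀ i ∈ Ψ, p i • x i ∈ U := fun i hi =>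
      Finset.mem_union_right _ (Finset.mem_image_of_mem (fun i => p i • x i) hi)
    have e : ∀ i ∈ Ψ, Function.update x i0 y i = x i := fun i hi =>
      Function.update_of_ne (fun k : i = i0 => h0 (k ▸ hi)) _ _
    refine ⟨Function.update x i0 y, fun i hj => ?_⟩
    rcases Finset.mem_insert.1 hj with rfl | hi
    · rw [Function.update_self]
      refine ⟨hy, fun i' hj' => ?_⟩
      rcases Finset.mem_insert.1 hj' with rfl | hi'
      · rw [Function.update_self]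
        exact ⟨fun _ => rfl, (hM _ y hy).symm, fun _ => rfl⟩
      · rw [e i' hi']
        exact ⟨fun k => absurd (k ▸ u1 i' hi') y1, fun k => y1 (k ▸ u2 i' hi'),
          fun k => absurd (k ▸ u2 i' hi') y2⟩
    · rw [e i hi]
      refine ⟨(hx i hi).1, fun i' hj' => ?_⟩
      rcases Finset.mem_insert.1 hj' with rfl | hi'
      · rw [Function.update_self]
        exact ⟨fun k => absurd (k ▸ u1 i hi) y1, fun k => y2 (k ▸ u1 i hi),
          fun k => absurd (k ▸ u2 i hi) y2⟩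
      · rw [e i' hi']
        exact (hx i hi).2 i' hi'

theorem moved [Finite H] [Finite J] {g : H} {n : ℕ} (h : Low R g (16 * n + 2))
    (hS : Sm R (16 * n + 2)) {I : Set J} {i : J} (hi : ∃ r ∈ R, r • i ≠ i)
    (hI : MulAction.orbit R i ⊆ I) : 4 * (2 * n) < {y | y ∈ I ∧ g⁻¹ • y ≠ y}.ncard := by
  have h1 := h.fix hi
  have h2 := hS.orbit hi
  have h3 : (MulAction.orbit R i).ncard ≤ {y | y ∈ MulAction.orbit R i ∧ g • y = y}.ncard
      + {y | y ∈ I ∧ g⁻¹ • y ≠ y}.ncard := by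
    refine le_trans (Set.ncard_le_ncard fun y hy => ?_) (Set.ncard_union_le _ _)
    by_cases k : g • y = y
    · exact Or.inl ⟨hy, k⟩
    · exact Or.inr ⟨hI hy, fun e => k (inv_smul_eq_iff.1 e).symm⟩
  nlinarith

theorem case_two (hC : CorStmt) [Finite H] [Finite J] {r n : ℕ} [Fact r.Prime] (hr : (r : K) ≠ 0)
    (hR : R.Normal) (hA : A ≤ R) (hL : Cs R A L) {W : Submodule K V} {I : Set J} (h : WI ρ L W I)
    (a : J → H) (ha : ∀ j, Gd r L j (a j)) (Φ : Finset H) (hn : Φ.card ≤ n)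
    (hΦ : ∀ g ∈ Φ, Low R g (16 * n + 2)) (hS : Sm R (16 * n + 2)) (hI : ∀ y ∈ R, y • I = I) :
    ∃ v, Pat ρ R Φ v := by
  classical
  obtain ⟨i0, hi0⟩ := h.nonempty
  have : Nonempty J := ⟨i0⟩
  have orb : ∀ i ∈ I, MulAction.orbit R i ⊆ I := by
    rintro i hi _ ⟨y, rfl⟩
    rw [← hI y y.2]
    exact Set.smul_mem_smul_set hi
  let Φ2 := Φ.filter fun g => g • I = I
  have c2 : Φ2.card ≤ n := (Finset.card_filter_le _ _).trans hn
  obtain ⟨x, hx⟩ := greedy (fun q : H × Bool => q.1⁻¹) (fun q => {y | y ∈ I ∧ q.1⁻¹ • y ≠ y})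
    (2 * n) (fun _ _ k => k.2) (Φ2 ×ˢ Finset.univ)
    (by rw [Finset.card_product, Finset.card_univ, Fintype.card_bool]; omega)
    fun q hq => moved (hΦ _ (Finset.mem_filter.1 (Finset.mem_product.1 hq).1).1) hS (hL.mov i0)
      (orb i0 hi0)
  have mem : ∀ g ∈ Φ2, ∀ b : Bool, (g, b) ∈ Φ2 ×ˢ (Finset.univ : Finset Bool) := fun g hg b =>
    Finset.mem_product.2 ⟨hg, Finset.mem_univ _⟩
  let τ : H → Fin 4 → J := fun g =>
    ![x (g, false), x (g, true), g⁻¹ • x (g, false), g⁻¹ • x (g, true)]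
  let a' : J → H := fun j =>
    if k : ∃ q ∈ Φ2 ×ˢ (Finset.univ : Finset Bool), j = q.1⁻¹ • x q then
      k.choose.1⁻¹ * a (x k.choose) * k.choose.1 else a j
  have a1 : ∀ q ∈ Φ2 ×ˢ (Finset.univ : Finset Bool), a' (x q) = a (x q) := fun q hq =>
    dif_neg fun ⟨q', hq', e⟩ => ((hx q hq).2 q' hq').2.1 e
  have a2 : ∀ q ∈ Φ2 ×ˢ (Finset.univ : Finset Bool),
      a' (q.1⁻¹ • x q) = q.1⁻¹ * a (x q) * q.1 := fun q hq => by
    have k : ∃ q' ∈ Φ2 ×ˢ (Finset.univ : Finset Bool), q.1⁻¹ • x q = q'.1⁻¹ • x q' := ⟨q, hq, rfl⟩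
    have e : q = k.choose := ((hx q hq).2 _ k.choose_spec.1).2.2 k.choose_spec.2
    refine (dif_pos k).trans ?_
    rw [← e]
  have ha' : ∀ j, Gd r L j (a' j) := fun j => by
    by_cases k : ∃ q ∈ Φ2 ×ˢ (Finset.univ : Finset Bool), j = q.1⁻¹ • x q
    · obtain ⟨q, hq, rfl⟩ := k
      rw [a2 q hq]
      simpa using (ha (x q)).conj hL q.1⁻¹
    · rw [show a' j = a j from dif_neg k]
      exact ha j
  let U : Finset J := (Φ2 ×ˢ (Finset.univ : Finset (Fin 4))).image fun q => τ q.1 q.2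
  have hU : U.card ≤ 4 * n := Finset.card_image_le.trans (by
    rw [Finset.card_product, Finset.card_univ, Fintype.card_fin]
    omega)
  have ex : ∀ g : H, ∃ s : J, g • I ≠ I → s ∈ I ∧ s ∉ g • I ∧ s ∉ U := fun g => by
    by_cases k : g • I = I
    · exact ⟨i0, fun e => absurd k e⟩
    obtain ⟨i, hi, hi'⟩ := exists_diff k
    obtain ⟨s, hs, hs'⟩ : ∃ s ∈ MulAction.orbit R i, s ∉ (U : Set J) :=
      Set.exists_mem_notMem_of_ncard_lt_ncard (by
        rw [Set.ncard_coe_finset]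
        have := hS.orbit (hL.mov i)
        omega)
    refine ⟨s, fun _ => ⟨orb i hi hs, fun e => hi' ?_, hs'⟩⟩
    obtain ⟨y, rfl⟩ := hs
    rw [Set.mem_smul_set_iff_inv_smul_mem] at e ⊢
    rw [← hI _ (hR.conj_mem' _ (R.inv_mem y.2) g)]
    refine ⟨_, e, ?_⟩
    simp [Subgroup.smul_def, smul_smul, mul_assoc]
  choose σ hσ using ex
  refine cor' hC hr hA hL h a' ha' (Φ.filter fun g => g • I ≠ I) Φ2 Φ σ τ (fun g hg => ?_)
    (fun g hg => ⟨(hσ g (Finset.mem_filter.1 hg).2).1, (hσ g (Finset.mem_filter.1 hg).2).2.1⟩)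
    (fun g hg m => ?_) (fun g hg => ?_) (fun g hg g' hg' m m' e => ?_)
    fun g hg g' hg' m e => (hσ g (Finset.mem_filter.1 hg).2).2.2 (Finset.mem_image.2
      ⟨(g', m), Finset.mem_product.2 ⟨hg', Finset.mem_univ _⟩, e.symm⟩)
  · by_cases k : g • I = I
    · exact Or.inr (Finset.mem_filter.2 ⟨hg, k⟩)
    · exact Or.inl (Finset.mem_filter.2 ⟨hg, k⟩)
  · have k1 : ∀ b, x (g, b) ∈ I := fun b => (hx _ (mem g hg b)).1.1
    have k2 : ∀ b, g⁻¹ • x (g, b) ∈ I := fun b => Set.mem_smul_set_iff_inv_smul_mem.1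
      ((Finset.mem_filter.1 hg).2.symm ▸ k1 b)
    fin_cases m
    exacts [k1 false, k1 true, k2 false, k2 true]
  · exact ⟨(congrArg (g⁻¹ * · * g) (a1 _ (mem g hg false))).trans (a2 _ (mem g hg false)).symm,
      (congrArg (g⁻¹ * · * g) (a1 _ (mem g hg true))).trans (a2 _ (mem g hg true)).symm⟩
  · have k1 : ∀ b b', x (g, b) = x (g', b') → g = g' ∧ b = b' := fun b b' e =>
      Prod.ext_iff.1 (((hx _ (mem g hg b)).2 _ (mem g' hg' b')).1 e)
    have k2 : ∀ b b', x (g, b) ≠ g'⁻¹ • x (g', b') := fun b b' =>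
      ((hx _ (mem g hg b)).2 _ (mem g' hg' b')).2.1
    have k3 : ∀ b b', g⁻¹ • x (g, b) ≠ x (g', b') := fun b b' =>
      ((hx _ (mem g' hg' b')).2 _ (mem g hg b)).2.1.symm
    have k4 : ∀ b b', g⁻¹ • x (g, b) = g'⁻¹ • x (g', b') → g = g' ∧ b = b' := fun b b' e =>
      Prod.ext_iff.1 (((hx _ (mem g hg b)).2 _ (mem g' hg' b')).2.2 e)
    fin_cases m <;> fin_cases m'
    all_goals first
      | exact ⟨(k1 _ _ e).1, rfl⟩
      | exact ⟨(k4 _ _ e).1, rfl⟩
      | exact absurd e (k2 _ _)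
      | exact absurd e (k3 _ _)
      | exact absurd (k1 _ _ e).2 (by simp)
      | exact absurd (k4 _ _ e).2 (by simp)

end Cmp

open Cmp in
/-- The component case. -/
theorem cmpStmt (hW : WiStmt) (hC : CorStmt) : CmpStmt := by
  intro n
  refine ⟨16 * n + 2, fun l _ H K V J _ _ _ _ _ _ _ _ ρ R A L Φ hR hA hL hρ hn hΦ hS => ?_⟩
  obtain ⟨W, I, w1, w2, w3, w4, w5⟩ := hW H K V J ρ L (fun j => (hL.qs j).perf) hL.comm (by
    by_contra k
    push Not at k
    obtain ⟨y, hy, e⟩ := hρ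
    exact e ((hL.sup ▸ iSup_le fun j y hy => k j y hy : A ≤ ρ.ker) hy))
  have h : WI ρ L W I := ⟨w1, w2, w3, w4, w5⟩
  obtain ⟨j0, -⟩ := w2
  obtain ⟨r, hr, hrl, a0, g0⟩ := (hL.qs j0).exists_el l
  have : Fact r.Prime := ⟨hr⟩
  have hK : (r : K) ≠ 0 := fun e => hrl ((Nat.prime_dvd_prime_iff_eq Fact.out hr).1
    ((CharP.cast_eq_zero_iff K l r).1 e)).symm
  have ex : ∀ j, ∃ x, Gd r L j x := fun j => by
    obtain ⟨t, rfl⟩ := hL.trans j0 j
    exact ⟨_, Gd.conj hL g0 t⟩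
  choose a ha using ex
  by_cases hT : R ≤ MulAction.stabilizer H I
  · exact case_two hC hK hR hA hL h a ha Φ hn hΦ hS fun y hy => hT hy
  obtain ⟨t, -, ht⟩ := Low.avoid Φ (by omega) hΦ hT
  have ex : ∀ g : H, ∃ s : J, g ∈ Φ → s ∈ t • I ∧ s ∉ g • t • I := fun g => by
    by_cases k : g ∈ Φ
    · obtain ⟨s, hs⟩ := exists_diff (g := g) (I := t • I) fun e => ht g k (by
        rw [MulAction.mem_stabilizer_iff, mul_smul, mul_smul, e, inv_smul_smul])
      exact ⟨s, fun _ => hs⟩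
    · exact ⟨j0, fun e => absurd e k⟩
  choose σ hσ using ex
  exact cor' hC hK hA hL (h.smul hL t) a ha Φ ∅ Φ σ (fun _ _ => j0) (fun _ k => Or.inl k) hσ
    (by simp) (by simp) (by simp) (by simp)

end Pool.Agent.Lib.MP_679d9b_al.KG
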