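import Mathlib
import Pool.Agent.Lib.MP_679d9b_al.KG.Ty

-- part Pool.Agent.Lib.MP_679d9b_al.KG.Bpsl
section

/-!
Matrices far from scalars are large.
-/

set_option autoImplicit false

namespace Pool.Agent.Lib.MP_679d9b_al.KG

open Subgroup Matrix
open scoped commutatorElement
open PT (SL PSL)

namespace Bpsl

variable {ι K : Type} [Fintype ι] [DecidableEq ι] [Field K]

theorem ext_basis {κ : Type} (b : Module.Basis κ K (ι → K)) {M M' : Matrix ι ι K}
    (h : ∀ x, M *ᵥ b x = M' *ᵥ b x) : M = M' :=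
  toLin'.injective (b.ext fun x => by simpa only [toLin'_apply] using h x)

/-- Even permutations of a basis. -/
theorem perm_basis {κ : Type} [Fintype κ] [DecidableEq κ] (b : Module.Basis κ K (ι → K)) :
    ∃ Θ : alternatingGroup κ →* SL ι K, ∀ σ x, (Θ σ).1 *ᵥ b x = b (σ.1 x) := by
  have h1 : ∀ (σ : Equiv.Perm κ) x, LinearMap.toMatrix' (b.constr K (b ∘ σ)) *ᵥ b x = b (σ x) :=
    fun σ x => by rw [LinearMap.toMatrix'_mulVec, b.constr_basis, Function.comp_apply]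
  have h2 : ∀ σ : alternatingGroup κ, (LinearMap.toMatrix' (b.constr K (b ∘ σ.1))).det = 1 := by
    intro σ
    have e := b.det_comp (b.constr K (b ∘ σ.1)) b
    rw [show b.constr K (b ∘ σ.1) ∘ b = b ∘ σ.1 from funext fun x => b.constr_basis K _ x,
      b.det.map_perm, Equiv.Perm.mem_alternatingGroup.1 σ.2, one_smul,
      b.det_self, mul_one] at e
    rw [LinearMap.det_toMatrix', ← e]
  refine ⟨MonoidHom.mk' (fun σ => ⟨_, h2 σ⟩) fun σ τ => Subtype.ext (ext_basis b fun x => ?_),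
    fun σ x => h1 σ x⟩
  exact (h1 _ x).trans ((h1 σ (τ.1 x)).symm.trans ((congrArg _ (h1 τ x).symm).trans
    (mulVec_mulVec _ _ _)))

/-- Even permutations of an independent family, trivial on a complement. -/
theorem perm_indep {α : Type} [Fintype α] [DecidableEq α] {v : α → ι → K}
    (hv : LinearIndependent K v) : ∃ (Θ : alternatingGroup α →* SL ι K) (W : Set (ι → K)),
      (∀ σ x, (Θ σ).1 *ᵥ v x = v (σ.1 x)) ∧ (∀ σ, ∀ w ∈ W, (Θ σ).1 *ᵥ w = w) ∧
      ∀ M : Matrix ι ι K, (∀ x, M *ᵥ v x = 0) → (∀ w ∈ W, M *ᵥ w = 0) → M = 0 := by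
  classical
  let b := Module.Basis.extend hv.linearIndepOn_id
  let _ := FiniteDimensional.fintypeBasisIndex b
  obtain ⟨Θ, hΘ⟩ := perm_basis b
  let ε : α ↪ hv.linearIndepOn_id.extend (Set.subset_univ _) :=
    ⟨fun x => ⟨v x, hv.linearIndepOn_id.subset_extend _ ⟨x, rfl⟩⟩,
      fun x y h => hv.injective (congrArg Subtype.val h)⟩
  have hb : ∀ x, b (ε x) = v x := fun x => Module.Basis.extend_apply_self _ _
  refine ⟨Θ.comp (((Equiv.Perm.viaEmbeddingHom ε).comp (alternatingGroup α).subtype).codRestrict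
    _ fun σ => ?_), b '' (Set.range ε)ᶜ, fun σ x => ?_, ?_, fun M h1 h2 => ext_basis b fun x => ?_⟩
  · rw [Equiv.Perm.mem_alternatingGroup, ← Equiv.Perm.mem_alternatingGroup.1 σ.2]
    show Equiv.Perm.sign (Equiv.Perm.viaEmbedding σ.1 ε) = _
    unfold Equiv.Perm.viaEmbedding
    exact @Equiv.Perm.sign_extendDomain _ _ _ _ _ _ σ.1 _ (_) _
  · rw [← hb, ← hb, MonoidHom.comp_apply, hΘ]
    exact congrArg b (Equiv.Perm.viaEmbedding_apply σ.1 ε x)
  · rintro σ _ ⟨x, hx, rfl⟩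
    rw [MonoidHom.comp_apply, hΘ]
    exact congrArg b (Equiv.Perm.viaEmbedding_apply_of_notMem σ.1 ε x hx)
  · rw [zero_mulVec]
    by_cases hx : x ∈ Set.range ε
    · obtain ⟨y, rfl⟩ := hx
      rw [hb, h1]
    · exact h2 _ ⟨x, hx, rfl⟩

theorem ring_comm {A : Type} [Ring A] {p q y z : A} (h1 : y * z = 1)
    (h2 : (p - 1) * y * (q - 1) = 0) (h3 : (q - 1) * z * (p - 1) = 0) :
    p * (y * q * z) = y * q * z * p := by
  obtain ⟨n, rfl⟩ : ∃ n, p = n + 1 := ⟨p - 1, (sub_add_cancel p 1).symm⟩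
  obtain ⟨m, rfl⟩ : ∃ m, q = m + 1 := ⟨q - 1, (sub_add_cancel q 1).symm⟩
  rw [add_sub_cancel_right, add_sub_cancel_right] at h2 h3
  have e : y * (m + 1) * z = y * m * z + 1 := by rw [mul_add, add_mul, mul_one, h1]
  have e1 : n * (y * m * z) = 0 := by rw [← mul_assoc, ← mul_assoc, h2, zero_mul]
  have e2 : y * m * z * n = 0 := by rw [mul_assoc y, mul_assoc y, h3, mul_zero]
  rw [e]
  simp only [mul_add, add_mul, e1, e2, mul_one, one_mul, zero_add]
  abel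

/-- The index set of the blocks. -/
abbrev J (k : ℕ) : Type := Fin k × Bool × Bool

/-- The doubled permutations of the first block. -/
def tau (k : ℕ) : Equiv.Perm (Fin k) →* alternatingGroup (J k ⊕ J k) :=
  MonoidHom.mk' (fun a => ⟨Equiv.Perm.sumCongr
      (Equiv.prodCongrLeft fun s : Bool × Bool => if s.1 then a else 1) 1, by
    simp [Equiv.Perm.mem_alternatingGroup, Equiv.Perm.sign_prodCongrLeft, Fintype.prod_prod_type]⟩)
    fun a b => Subtype.ext (Equiv.ext fun x => by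
      rcases x with ⟨i, s, t⟩ | x
      · cases s <;> rfl
      · rfl)

/-- The exchange of the two blocks. -/
def beta (k : ℕ) : alternatingGroup (J k ⊕ J k) :=
  ⟨Equiv.Perm.sumCongr (Equiv.prodCongrRight fun _ : Fin k =>
      Equiv.prodCongrLeft fun _ : Bool => Equiv.swap false true) 1, by
    simp [Equiv.Perm.mem_alternatingGroup, Equiv.Perm.sign_prodCongrLeft,
      Equiv.Perm.sign_prodCongrRight]⟩

theorem beta_inl {k : ℕ} (i : Fin k) (s t : Bool) :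
    (beta k).1 (.inl (i, s, t)) = .inl (i, !s, t) := by
  cases s <;> rfl

theorem main {k : ℕ} {v : J k ⊕ J k → ι → K} (hv : LinearIndependent K v) (A : SL ι K)
    (hA : ∀ j, A.1 *ᵥ v (.inr j) = v (.inl j)) :
    ∃ (B : SL ι K) (θ : Equiv.Perm (Fin k) →* SL ι K), (∀ a, θ a ∈ center (SL ι K) → a = 1) ∧
      ∀ a b, Commute (θ a) (⁅A, B⁆ * θ b * ⁅A, B⁆⁻¹) := by
  obtain ⟨Θ, W, h1, h2, h3⟩ := perm_indep hv
  have inv : ∀ (Z : SL ι K) (x y : ι → K), Z.1 *ᵥ x = y → (Z⁻¹).1 *ᵥ y = x := fun Z x y e => by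
    rw [← e, mulVec_mulVec, PT.SLn.val_inv_mul, one_mulVec]
  have y1 : ∀ i s t, ⁅A, Θ (beta k)⁆.1 *ᵥ v (.inl (i, s, t)) = v (.inl (i, !s, t)) := by
    intro i s t
    have e := inv _ _ _ (h1 (beta k) (.inl (i, !s, t)))
    rw [beta_inl, Bool.not_not] at e
    rw [commutatorElement_def, PT.SLn.mul_val, PT.SLn.mul_val, PT.SLn.mul_val, ← mulVec_mulVec,
      ← mulVec_mulVec, ← mulVec_mulVec, e, inv _ _ _ (hA _), h1]
    exact hA _
  have y2 : ∀ i s t, (⁅A, Θ (beta k)⁆⁻¹).1 *ᵥ v (.inl (i, s, t)) = v (.inl (i, !s, t)) :=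
    fun i s t => inv _ _ _ (by rw [y1, Bool.not_not])
  have zero : ∀ Z : Matrix ι ι K, (∀ i s t, Z *ᵥ v (.inl (i, s, t)) = v (.inl (i, !s, t))) →
      ∀ a b, ((Θ (tau k a)).1 - 1) * Z * ((Θ (tau k b)).1 - 1) = 0 := by
    intro Z hZ a b
    refine h3 _ (fun x => ?_) fun w hw => ?_ <;>
      rw [← mulVec_mulVec, ← mulVec_mulVec, sub_mulVec _ _ (_ : ι → K), sub_mulVec, one_mulVec,
        one_mulVec]
    · rw [h1]
      rcases x with ⟨i, _ | _, t⟩ | x
      · rw [show (tau k b).1 (.inl (i, false, t)) = .inl (i, false, t) from rfl]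
        simp only [sub_self, mulVec_zero]
      · rw [show (tau k b).1 (.inl (i, true, t)) = .inl (b i, true, t) from rfl, mulVec_sub, hZ, hZ,
          mulVec_sub, h1, h1]
        exact sub_self _
      · rw [show (tau k b).1 (.inr x) = .inr x from rfl]
        simp only [sub_self, mulVec_zero]
    · rw [h2 _ w hw]
      simp only [sub_self, mulVec_zero]
  refine ⟨Θ (beta k), Θ.comp (tau k), fun a ha => Equiv.ext fun i => ?_,
    fun a b => Subtype.ext ?_⟩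
  · obtain ⟨r, -, hr⟩ := Matrix.SpecialLinearGroup.mem_center_iff.1 ha
    have e := h1 (tau k a) (.inl (i, true, true))
    rw [show (Θ (tau k a)).1 = scalar ι r from hr.symm, scalar_apply, ← smul_one_eq_diagonal,
      smul_mulVec, one_mulVec] at e
    have e1 := hv.eq_of_smul_apply_eq_smul_apply 1 r _ _ one_ne_zero ((one_smul _ _).trans e.symm)
    exact congrArg Prod.fst (Sum.inl_injective e1)
  · exact ring_comm (PT.SLn.val_mul_inv _) (zero _ y1 a b) (zero _ y2 b a)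

end Bpsl

open Bpsl in
theorem bigPslStmt (h : ZzStmt) : BigPslStmt := by
  intro k
  obtain ⟨N, hN⟩ := h 1 0 (Fintype.card (J k))
  refine ⟨N, fun H ι K _ _ _ _ _ φ R g A hR hA hr => ?_⟩
  obtain ⟨Z, -, z1, -, z2⟩ := hN K (ι → K) Unit (fun _ => toLin' A.1) ⊥ ⊤ (by simp) (by simp)
    (by simp) (by simpa using (hr 0).trans_le (rank_le_card_width _)) fun _ t => by
      have e : toLin' A.1 - t • (1 : Module.End K (ι → K)) = (A.1 - t • 1).mulVecLin := by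
        rw [← toLin'_apply', map_sub, map_smul, toLin'_one]
        rfl
      rw [rk, e]
      exact hr t
  let b := (Module.finBasisOfFinrankEq K Z z1).reindex (Fintype.equivFin (J k)).symm
  have b1 : LinearIndependent K (Z.subtype ∘ b) := b.linearIndependent.map' _ Z.ker_subtype
  have ai : ∀ x, A.1 *ᵥ ((A⁻¹).1 *ᵥ x) = x := fun x => by
    rw [mulVec_mulVec, PT.SLn.val_mul_inv, one_mulVec]
  have b2 : LinearIndependent K (toLin' (A⁻¹).1 ∘ Z.subtype ∘ b) :=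
    b1.map' _ (LinearMap.ker_eq_bot'.2 fun x hx => by
      rw [← ai x, ← toLin'_apply (A⁻¹).1, hx, mulVec_zero])
  have s1 : Submodule.span K (Set.range (Z.subtype ∘ b)) ≤ Z :=
    Submodule.span_le.2 (Set.range_subset_iff.2 fun j => (b j).2)
  have s2 : Submodule.span K (Set.range (toLin' (A⁻¹).1 ∘ Z.subtype ∘ b)) ≤
      Z.comap (toLin' A.1) :=
    Submodule.span_le.2 (Set.range_subset_iff.2 fun j => by
      show A.1 *ᵥ ((A⁻¹).1 *ᵥ (b j).1) ∈ Z
      rw [ai]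
      exact (b j).2)
  obtain ⟨B, θ, t1, t2⟩ := main (b1.sum_type b2 (Submodule.disjoint_def.2 fun x h1 h2 =>
    (z2 () _ (Z.neg_mem (s2 h2)) x (s1 h1) (by simp)).2)) A fun j => ai _
  have su : ∀ y : PSL ι K, ∃ r ∈ R, φ r = y := fun y => (hR.ge (mem_top y) : y ∈ R.map φ)
  obtain ⟨r, r1, r2⟩ := su B
  refine ⟨r, r1, (QuotientGroup.mk' (center (SL ι K))).comp θ,
    (injective_iff_map_eq_one _).2 fun a ha => t1 a ((QuotientGroup.eq_one_iff _).1 ha),
    fun a => su _, fun a c => ?_⟩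
  have e : φ ⁅g, r⁆ = QuotientGroup.mk' (center (SL ι K)) ⁅A, B⁆ := by
    rw [map_commutatorElement, map_commutatorElement, ← hA, r2]
    rfl
  have := (t2 a c).map (QuotientGroup.mk' (center (SL ι K)))
  rw [map_mul, map_mul, map_inv, ← e] at this
  exact this

end Pool.Agent.Lib.MP_679d9b_al.KG
end

-- part Pool.Agent.Lib.MP_679d9b_al.KG.Cor
section

/-!
Patterns from commuting quasisimple groups.
-/

set_option autoImplicit false

namespace Pool.Agent.Lib.MP_679d9b_al.KG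

open Subgroup
open scoped commutatorElement
open PT (PEl)

namespace Cor
variable {H K V : Type} [Group H] [Field K] [AddCommGroup V] [Module K V]
  {ρ : H →* Module.End K V} {L L' : Subgroup H} {W : Submodule K V}

theorem mem_br {y : H} (hy : y ∈ L) {w : V} (hw : w ∈ W) : ρ y w - w ∈ Br ρ L W :=
  Submodule.subset_span ⟨y, hy, w, hw, rfl⟩

theorem br_le {U : Submodule K V} (h : ∀ y ∈ L, ∀ w ∈ W, ρ y w - w ∈ U) : Br ρ L W ≤ U :=
  Submodule.span_le.2 fun _ ⟨y, hy, w, hw, e⟩ => e ▸ h y hy w hw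

theorem app (x y : H) (w : V) : ρ (x * y) w = ρ x (ρ y w) := by rw [map_mul]; rfl

theorem app_inv (x : H) (w : V) : ρ x (ρ x⁻¹ w) = w := by rw [← app]; simp

theorem br_perf (hL : ⁅L, L⁆ = L) (hW : Iv ρ L W) : Br ρ L W ≤ Br ρ L (Br ρ L W) := by
  let N : Subgroup H :=
    { carrier := {y | y ∈ L ∧ ∀ w ∈ W, ρ y w - w ∈ Br ρ L (Br ρ L W)}
      one_mem' := ⟨one_mem _, fun w _ => by simp⟩
      mul_mem' := fun {x y} hx hy => ⟨mul_mem hx.1 hy.1, fun w hw => by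
        simpa [app] using add_mem (hx.2 _ (hW y hy.1 w hw)) (hy.2 w hw)⟩
      inv_mem' := fun {x} hx => ⟨inv_mem hx.1, fun w hw => by
        simpa [app_inv] using neg_mem (hx.2 _ (hW _ (inv_mem hx.1) w hw))⟩ }
  have h : ⁅L, L⁆ ≤ N := commutator_le.2 fun a ha b hb =>
    ⟨mul_mem (mul_mem (mul_mem ha hb) (inv_mem ha)) (inv_mem hb), fun w hw => by
      have h1 := hW _ (inv_mem ha) _ (hW _ (inv_mem hb) w hw)
      convert sub_mem (mem_br ha (mem_br hb h1)) (mem_br hb (mem_br ha h1)) using 1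
      simp only [commutatorElement_def, app, map_sub, app_inv]
      abel⟩
  exact br_le fun y hy => (h (hL.symm ▸ hy)).2

theorem map_br {p : Module.End K V} (hp : ∀ y ∈ L, Commute p (ρ y)) :
    (Br ρ L W).map p ≤ Br ρ L (W.map p) := by
  refine Submodule.map_le_iff_le_comap.2 (br_le fun y hy w hw => ?_)
  rw [Submodule.mem_comap, map_sub, ← Module.End.mul_apply, (hp y hy).eq]
  exact mem_br hy (Submodule.mem_map_of_mem hw)

theorem br_mono {W' : Submodule K V} (h : W ≤ W') : Br ρ L W ≤ Br ρ L W' :=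
  br_le fun _ hy _ hw => mem_br hy (h hw)

/-- Invariant and equal to its commutator space. -/
def Gd (ρ : H →* Module.End K V) (L : Subgroup H) (W : Submodule K V) : Prop :=
  Iv ρ L W ∧ W ≤ Br ρ L W

theorem Gd.map (h : Gd ρ L W) {p : Module.End K V} (hp : ∀ y ∈ L, Commute p (ρ y)) :
    Gd ρ L (W.map p) := by
  refine ⟨?_, (Submodule.map_mono h.2).trans (map_br hp)⟩
  rintro y hy _ ⟨w, hw, rfl⟩
  exact ⟨ρ y w, h.1 y hy w hw, LinearMap.congr_fun (hp y hy).eq w⟩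

theorem iv_br_self : Iv ρ L (Br ρ L W) := fun x hx w hw =>
  br_le (U := (Br ρ L W).comap (ρ x)) (fun y hy w hw => by
    simpa [app] using sub_mem (mem_br (ρ := ρ) (mul_mem hx hy) hw) (mem_br hx hw)) hw

theorem iv_br (hc : ∀ a ∈ L', ∀ b ∈ L, Commute a b) (h : Iv ρ L' W) : Iv ρ L' (Br ρ L W) :=
  fun x hx _ hw => br_mono (Submodule.map_le_iff_le_comap.2 (h x hx))
    (map_br (fun y hy => (hc x hx y hy).map ρ) (Submodule.mem_map_of_mem hw))

theorem le_br (hc : ∀ a ∈ L', ∀ b ∈ L, Commute a b) (h : W ≤ Br ρ L' W) :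
    Br ρ L W ≤ Br ρ L' (Br ρ L W) := by
  refine br_le fun y hy w hw => br_mono (W := W.map (ρ y - 1)) ?_ (map_br (fun x hx =>
    ((hc x hx y hy).symm.map ρ).sub_left (Commute.one_left _)) (Submodule.mem_map_of_mem (h hw)))
  rintro _ ⟨u, hu, rfl⟩
  exact mem_br hy hu

theorem iv_sup (h : Iv ρ L W) (h' : Iv ρ L' W) : Iv ρ (L ⊔ L') W := by
  let N : Subgroup H :=
    { carrier := {y | (∀ w ∈ W, ρ y w ∈ W) ∧ ∀ w ∈ W, ρ y⁻¹ w ∈ W}
      one_mem' := by simp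
      mul_mem' := fun {x y} hx hy => ⟨fun w hw => app (ρ := ρ) x y w ▸ hx.1 _ (hy.1 w hw), fun w hw => by
        rw [mul_inv_rev, app]
        exact hy.2 _ (hx.2 w hw)⟩
      inv_mem' := fun {x} hx => ⟨hx.2, by simpa using hx.1⟩ }
  exact fun y hy => ((sup_le (fun x hx => ⟨h x hx, h _ (inv_mem hx)⟩)
    fun x hx => ⟨h' x hx, h' _ (inv_mem hx)⟩ : L ⊔ L' ≤ N) hy).1

/-- Elements which fix the subspace are central. -/
theorem Gd.cen (h : Gd ρ L W) (hq : Qs L) (hW : W ≠ ⊥) {x : H} (hx : x ∈ L)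
    (hf : ∀ w ∈ W, ρ x w = w) : x ∈ centralizer (L : Set H) := by
  let N : Subgroup H :=
    { carrier := {y | y ∈ L ∧ ∀ w ∈ W, ρ y w = w}
      one_mem' := ⟨one_mem _, by simp⟩
      mul_mem' := fun {x y} hx hy => ⟨mul_mem hx.1 hy.1, fun w hw => by
        rw [app, hy.2 w hw, hx.2 w hw]⟩
      inv_mem' := fun {x} hx => ⟨inv_mem hx.1, fun w hw => by
        rw [← hx.2 _ (h.1 _ (inv_mem hx.1) w hw), app_inv]⟩ }
  rcases hq.qsi N (fun _ hy => hy.1) fun a ha y hy => ⟨mul_mem (mul_mem ha hy.1) (inv_mem ha),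
    fun w hw => by rw [app, app, hy.2 _ (h.1 _ (inv_mem ha) w hw), app_inv]⟩ with h1 | h1
  · exact h1 ⟨hx, hf⟩
  · refine (hW (eq_bot_iff.2 (h.2.trans (br_le fun y hy w hw => ?_)))).elim
    rw [(h1.ge hy).2 w hw, sub_self]
    exact zero_mem _

/-- A noncentral element does not act as an element of the centralizer. -/
theorem Gd.not_eq (h : Gd ρ L W) (hq : Qs L) (hW : W ≠ ⊥) {x z : H} (hx : x ∈ L)
    (hz : ∀ y ∈ L, Commute z y) (hf : ∀ w ∈ W, ρ (x⁻¹ * z) w = w) :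
    x ∈ centralizer (L : Set H) := by
  have e : ∀ w ∈ W, ρ x w = ρ z w := fun w hw => by
    rw [← app_inv (ρ := ρ) x (ρ z w), ← app x⁻¹, hf w hw]
  refine fun y hy => (commute_of_perfect (Z := L ⊓ centralizer (L : Set H)) hq.perf
    (fun a ha b hb => hb.2 a ha.1) (fun a ha b hb => (ha.2 b hb).symm) (fun b hb => ?_) y hy).symm
  have h1 : ⁅x, b⁆ ∈ L := mul_mem (mul_mem (mul_mem hx hb) (inv_mem hx)) (inv_mem hb)
  refine ⟨h1, h.cen hq hW h1 fun w hw => ?_⟩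
  have h2 := h.1 _ (inv_mem hx) _ (h.1 _ (inv_mem hb) w hw)
  rw [commutatorElement_def, app, app, app, e _ (h.1 b hb _ h2), ← app z, (hz b hb).eq, app,
    ← e _ h2, app_inv, app_inv]

section Red
variable {I : Type} (ρ) (L : I → Subgroup H)

/-- A reduction which respects the groups outside `S`. -/
def Red (S : Set I) (W W' : Submodule K V) : Prop :=
  W' ≤ W ∧ W' ≠ ⊥ ∧ ∀ i, i ∉ S → Gd ρ (L i) W → Gd ρ (L i) W'

variable {ρ L}

theorem Red.trans {S S' S'' : Set I} {W' W'' : Submodule K V} (h : Red ρ L S W W')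
    (h' : Red ρ L S' W' W'') (h1 : S ⊆ S'') (h2 : S' ⊆ S'') : Red ρ L S'' W W'' :=
  ⟨h'.1.trans h.1, h'.2.1, fun i hi hg =>
    h'.2.2 i (fun e => hi (h2 e)) (h.2.2 i (fun e => hi (h1 e)) hg)⟩

theorem iter {T : Type} (s : Finset T) (S : T → Set I) (Q : T → V → Prop) (hW : W ≠ ⊥)
    (hG : ∀ i, Gd ρ (L i) W) (hd : ∀ t ∈ s, ∀ t' ∈ s, t ≠ t' → Disjoint (S t) (S t'))
    (step : ∀ t ∈ s, ∀ W', W' ≠ ⊥ → (∀ i ∈ S t, Gd ρ (L i) W') →
      ∃ W'', Red ρ L (S t) W' W'' ∧ ∀ v ∈ W'', Q t v) :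
    ∃ W', Red ρ L (⋃ t ∈ s, S t) W W' ∧ ∀ t ∈ s, ∀ v ∈ W', Q t v := by
  classical
  induction s using Finset.induction_on with
  | empty => exact ⟨W, ⟨le_rfl, hW, fun _ _ h => h⟩, by simp⟩
  | insert t s ht ih =>
    have m := Finset.mem_insert_self t s
    have m' := fun u (hu : u ∈ s) => Finset.mem_insert_of_mem (b := t) hu
    obtain ⟨W1, h1, h2⟩ := ih (fun a ha b hb => hd a (m' a ha) b (m' b hb))
      fun a ha => step a (m' a ha)
    obtain ⟨W2, h3, h4⟩ := step t m W1 h1.2.1 fun i hi => h1.2.2 i (fun e => by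
      obtain ⟨u, hu, e⟩ := Set.mem_iUnion₂.1 e
      exact Set.disjoint_left.1 (hd t m u (m' u hu) fun e1 => ht (e1 ▸ hu)) hi e) (hG i)
    refine ⟨W2, h1.trans h3 (Set.biUnion_subset_biUnion_left m')
      (Set.subset_biUnion_of_mem (u := S) m), fun u hu v hv => ?_⟩
    rcases Finset.mem_insert.1 hu with rfl | hu
    exacts [h4 v hv, h2 u hu v (h3.1 hv)]

variable [Finite H] {S : Set I} {κ : Subgroup H}

theorem red_av (hi : Iv ρ κ W) (hc : ∀ i, i ∉ S → ∀ y ∈ L i, ∀ x ∈ κ, Commute y x)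
    (h0 : W.map (av ρ κ) ≠ ⊥) : Red ρ L S W (W.map (av ρ κ)) :=
  ⟨Submodule.map_le_iff_le_comap.2 fun _ hw => av_mem hi hw, h0, fun i h1 hg =>
    hg.map fun y hy => (commute_av fun x hx => (hc i h1 y hy x hx).map ρ).symm⟩

theorem red_sub (hi : Iv ρ κ W) (hc : ∀ i, i ∉ S → ∀ y ∈ L i, ∀ x ∈ κ, Commute y x)
    (h0 : W.map (1 - av ρ κ) ≠ ⊥) : Red ρ L S W (W.map (1 - av ρ κ)) :=
  ⟨Submodule.map_le_iff_le_comap.2 fun _ hw => sub_mem hw (av_mem hi hw), h0, fun i h1 hg =>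
    hg.map fun y hy => (Commute.one_left _).sub_left
      (commute_av fun x hx => (hc i h1 y hy x hx).map ρ).symm⟩

theorem av_sub (hκ : (Nat.card κ : K) ≠ 0) {v : V} (hv : v ∈ W.map (1 - av ρ κ)) :
    av ρ κ v = 0 := by
  obtain ⟨w, -, rfl⟩ := hv
  simp [av_of_fx hκ (fx_av w)]

theorem fx_of_bot (h : W.map (1 - av ρ κ) = ⊥) {w : V} (hw : w ∈ W) : Fx ρ κ w := by
  have h1 : w - av ρ κ w = 0 := h.le (Submodule.mem_map_of_mem hw)
  rw [sub_eq_zero.1 h1]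
  exact fx_av w

/-- Reduction to vectors of one type. -/
theorem red_ty {D P : Subgroup H} (hD : (Nat.card D : K) ≠ 0) (hi : Iv ρ D W)
    (hc : ∀ i, i ∉ S → ∀ y ∈ L i, ∀ x ∈ D, Commute y x) (hW : W ≠ ⊥) (hP : P ≤ D)
    (hf : ∀ w ∈ W, Fx ρ P w) : ∃ κ, κ ≤ D ∧ Red ρ L S W (W.map (av ρ κ)) ∧
      ∀ w ∈ W, Ty ρ D κ (av ρ κ w) := by
  obtain ⟨κ, -, h1, h2⟩ := exists_ty hD hW hP hf
  have h3 := (h2 0 (zero_mem _)).1
  exact ⟨κ, h3, red_av (fun y hy => hi y (h3 hy)) (fun i h y hy x hx => hc i h y hy x (h3 hx)) h1,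
    h2⟩

/-- Two commuting quasisimple groups allow to avoid a given type. -/
theorem red_ne {r : ℕ} [Fact r.Prime] (hr : (r : K) ≠ 0) {i j : I} {a b : H} (hi : Qs (L i))
    (hj : Qs (L j)) (ha : a ∈ L i) (hb : b ∈ L j) (ha' : a ∉ centralizer (L i : Set H))
    (hb' : b ∉ centralizer (L j : Set H)) (hij : ∀ x ∈ L i, ∀ y ∈ L j, Commute x y)
    {D : Subgroup H} (hD : IsPGroup r D) (hDc : ⁅D, D⁆ = ⊥) (haD : a ∈ D) (hbD : b ∈ D)
    (hv : Iv ρ D W) (hc : ∀ i, i ∉ S → ∀ y ∈ L i, ∀ x ∈ D, Commute y x) (hW : W ≠ ⊥)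
    (gi : Gd ρ (L i) W) (gj : Gd ρ (L j) W) (hκ : κ ≤ D) :
    ∃ W' κ', Red ρ L S W W' ∧ κ' ≠ κ ∧ ∀ v ∈ W', Ty ρ D κ' v := by
  have c0 := card_ne hr hD le_rfl
  have c1 := card_ne hr hD hκ
  by_cases h0 : W.map (1 - av ρ κ) = ⊥
  · obtain ⟨κ', -, h2, h3⟩ := red_ty (L := L) c0 hv hc hW hκ fun w hw => fx_of_bot h0 hw
    refine ⟨_, κ', h2, ?_, fun _ ⟨w, hw, e⟩ => e ▸ h3 w hw⟩
    rintro rfl
    obtain ⟨w, hw, h4⟩ := (Submodule.ne_bot_iff W).1 hW
    have h5 := h3 w hw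
    rw [av_of_fx c1 (fx_of_bot h0 hw)] at h5
    rcases h5.chain hr hD h4 (hDc ▸ bot_le) haD hbD with ⟨n, hn⟩ | ⟨n, hn⟩
    · exact ha' (gi.not_eq hi hW ha (fun y hy => (hij y hy b hb).symm.pow_left n)
        fun u hu => fx_of_bot h0 hu _ hn)
    · exact hb' (gj.not_eq hj hW hb (fun y hy => (hij a ha y hy).pow_left n)
        fun u hu => fx_of_bot h0 hu _ hn)
  · have h1 := red_sub (L := L) (fun y hy => hv y (hκ hy))
      (fun i h y hy x hx => hc i h y hy x (hκ hx)) h0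
    have h2 : Iv ρ D (W.map (1 - av ρ κ)) := by
      rintro y hy _ ⟨w, hw, rfl⟩
      refine ⟨ρ y w, hv y hy w hw, LinearMap.congr_fun ((Commute.one_left _).sub_left
        (commute_av fun x hx => Commute.map ?_ ρ).symm).eq w⟩
      exact commutatorElement_eq_one_iff_commute.1
        (hDc.le (commutator_mem_commutator hy (hκ hx)))
    obtain ⟨κ', -, h3, h4⟩ := red_ty (L := L) c0 h2 hc h0 bot_le fun w _ y hy => by
      simp [mem_bot.1 hy]
    refine ⟨_, κ', h1.trans h3 subset_rfl subset_rfl, ?_, fun _ ⟨w, hw, e⟩ => e ▸ h4 w hw⟩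
    rintro rfl
    refine h3.2.1 (eq_bot_iff.2 ?_)
    rintro _ ⟨w, hw, rfl⟩
    exact av_sub c1 hw

end Red

end Cor

open Cor

theorem wiStmt : WiStmt := by
  intro H K V J _ _ _ _ _ ρ L hp hc ⟨j0, y0, hy0, h0⟩
  let Ok : Set J → Prop := fun I => ∃ W : Submodule K V, W ≠ ⊥ ∧ (∀ j, Iv ρ (L j) W) ∧
    ∀ i ∈ I, W ≤ Br ρ (L i) W
  have ext : ∀ (I : Set J) (W : Submodule K V), (∀ j, Iv ρ (L j) W) →
      (∀ i ∈ I, W ≤ Br ρ (L i) W) → ∀ j, ∀ y ∈ L j, ∀ w ∈ W, ρ y w ≠ w → Ok (insert j I) := by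
    intro I W h1 h2 j y hy w hw hne
    refine ⟨Br ρ (L j) W, fun e => hne (sub_eq_zero.1 (e.le (mem_br hy hw))), fun i => ?_,
      fun i hi => ?_⟩ <;> rcases eq_or_ne i j with rfl | e
    exacts [iv_br_self, iv_br (hc i j e) (h1 i), br_perf (hp i) (h1 i),
      le_br (hc i j e) (h2 i (hi.resolve_left e))]
  obtain ⟨w0, hw0⟩ := not_forall.1 fun e => h0 (LinearMap.ext e)
  obtain ⟨I, h1, ⟨W, h2, h3, h4⟩, h5⟩ := Finite.exists_le_maximal (p := Ok)
    (ext ∅ ⊤ (fun _ _ _ _ _ => trivial) (by simp) j0 y0 hy0 w0 trivial hw0)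
  refine ⟨W, I, h2, ⟨j0, h1 (Set.mem_insert _ _)⟩, h3, h4, fun j hj w hw y hy => ?_⟩
  exact by_contra fun e =>
    hj (h5 (ext I W h3 h4 j y hy w hw e) (Set.subset_insert _ _) (Set.mem_insert _ _))

theorem corStmt : CorStmt := by
  intro r _ H K V I _ _ _ _ _ ρ R L a W Φ1 Φ2 Φ σ τ hr hL hc hW hi hb hΦ h1 h2 h3 h4
  classical
  let E := closure (Set.range a)
  have aE : ∀ i, a i ∈ E := fun i => subset_closure ⟨i, rfl⟩
  have hE : ∀ x ∈ E, ∀ y ∈ E, Commute x y := by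
    have k : E ≤ centralizer (Set.range a) := (closure_le _).2 fun _ ⟨i, ei⟩ _ ⟨j, ej⟩ => by
      subst ei ej
      rcases eq_or_ne j i with rfl | e
      exacts [rfl, hc j i e _ (hL j).2.2.1 _ (hL i).2.2.1]
    have k' : E ≤ centralizer E := (closure_le _).2 fun x hx y hy => (k hy x hx).symm
    exact fun x hx y hy => k' hy x hx
  have hP : IsPGroup r E := fun x => by
    have : ∀ x ∈ E, PEl r x := fun x hx => closure_induction (p := fun x _ => PEl r x)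
      (by rintro _ ⟨i, rfl⟩; exact (hL i).2.2.2.2) ⟨0, by simp⟩
      (fun x y hx hy => PT.Grp.pel_mul_comm (hE x hx y hy)) (fun _ _ => PT.Grp.pel_inv) hx
    exact (this x x.2).imp fun k hk => Subtype.ext hk
  let D : I → I → Subgroup H := fun i j => zpowers (a i) ⊔ zpowers (a j)
  have DE : ∀ i j, D i j ≤ E := fun i j =>
    sup_le (zpowers_le.2 (aE i)) (zpowers_le.2 (aE j))
  have Dc : ∀ i j, ⁅D i j, D i j⁆ = ⊥ := fun i j => eq_bot_iff.2 (commutator_le.2 fun x hx y hy =>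
    commutatorElement_eq_one_iff_commute.2 (hE x (DE i j hx) y (DE i j hy)))
  have Dv : ∀ i j (U : Submodule K V), Gd ρ (L i) U → Gd ρ (L j) U → Iv ρ (D i j) U :=
    fun i j U gi gj y hy => iv_sup gi.1 gj.1 y
      (sup_le_sup (zpowers_le.2 (hL i).2.2.1) (zpowers_le.2 (hL j).2.2.1) hy)
  have Dk : ∀ i j k, k ∉ ({i, j} : Set I) → ∀ y ∈ L k, ∀ x ∈ D i j, Commute y x := by
    intro i j k hk y hy x hx
    have : ∀ l ∈ ({i, j} : Set I), zpowers (a l) ≤ centralizer {y} := fun l hl =>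
      zpowers_le.2 (mem_centralizer_singleton_iff.2
        (hc l k (fun e => hk (e ▸ hl)) _ (hL l).2.2.1 y hy))
    exact (mem_centralizer_singleton_iff.1
      (sup_le (this i (Or.inl rfl)) (this j (Or.inr rfl)) hx)).symm
  have key := iter (ρ := ρ) (L := L) ((Φ1.image σ).disjSum Φ2)
    (Sum.elim (fun i => {i}) fun g => Set.range (τ g))
    (Sum.elim (fun i v => av ρ (zpowers (a i)) v = 0) fun g v => ∃ P ≤ E, Sep ρ P v (ρ g v))
    hW (fun i => ⟨hi i, hb i⟩) ?_ ?_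
  · obtain ⟨W', k1, k2⟩ := key
    obtain ⟨v, hv, h0⟩ := (Submodule.ne_bot_iff _).1 k1.2.1
    have : ∀ g, ∃ P, g ∈ Φ → P ≤ E ∧ Sep ρ P v (ρ g v) := fun g => by
      by_cases hg : g ∈ Φ
      · rcases hΦ g hg with e | e
        · refine ⟨zpowers (a (σ g)), fun _ => ⟨zpowers_le.2 (aE _), Or.inr ⟨k2 (.inl (σ g))
            (Finset.inl_mem_disjSum.2 (Finset.mem_image_of_mem σ e)) v hv, fun y hy => ?_⟩⟩⟩
          obtain ⟨n, rfl⟩ := (mem_powers_iff_mem_zpowers.2 hy : y ∈ Submonoid.powers _)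
          simp only [map_pow]
          exact Module.End.pow_apply (ρ _) n _ ▸
            Function.iterate_fixed (h1 g e v (k1.1 hv)) n
        · exact (k2 (.inr g) (Finset.inr_mem_disjSum.2 e) v hv).imp fun P hP _ => hP
      · exact ⟨⊥, fun e => (hg e).elim⟩
    choose P hP' using this
    refine ⟨v, h0, P, fun g hg => ⟨(hP' g hg).1.trans ((closure_le _).2 fun _ ⟨i, e⟩ =>
      e ▸ (hL i).1 (hL i).2.2.1), card_ne hr hP (hP' g hg).1, (hP' g hg).2⟩,
      fun g hg g' hg' x hx y hy => ?_⟩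
    rwa [(hE x ((hP' g hg).1 hx) y ((hP' g' hg').1 hy)).mul_inv_cancel]
  · have k : ∀ i ∈ Φ1.image σ, ∀ g ∈ Φ2, Disjoint {i} (Set.range (τ g)) := fun i hi g hg => by
      obtain ⟨g', hg', rfl⟩ := Finset.mem_image.1 hi
      exact Set.disjoint_singleton_left.2 fun ⟨m, e⟩ => h4 g' hg' g hg m e.symm
    rintro (i | g) ht (j | g') ht' hne
    · exact Set.disjoint_singleton.2 fun e => hne (congrArg _ e)
    · exact k i (Finset.inl_mem_disjSum.1 ht) g' (Finset.inr_mem_disjSum.1 ht')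
    · exact (k j (Finset.inl_mem_disjSum.1 ht') g (Finset.inr_mem_disjSum.1 ht)).symm
    · exact Set.disjoint_left.2 fun _ ⟨m, e⟩ ⟨m', e'⟩ => hne (congrArg _ (h3 g
        (Finset.inr_mem_disjSum.1 ht) g' (Finset.inr_mem_disjSum.1 ht') m m' (e.trans e'.symm)).1)
  · rintro (i | g) ht U hU hG
    · have gi := hG i rfl
      refine ⟨_, red_sub (fun y hy => gi.1 y (zpowers_le.2 (hL i).2.2.1 hy))
        (fun k hk y hy x hx => hc k i hk y hy x (zpowers_le.2 (hL i).2.2.1 hx)) fun e => ?_,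
        fun v => av_sub (card_ne hr hP (zpowers_le.2 (aE i)))⟩
      exact (hL i).2.2.2.1 (gi.cen (hL i).2.1 hU (hL i).2.2.1
        fun w hw => fx_of_bot e hw _ (mem_zpowers _))
    · have hg := Finset.inr_mem_disjSum.1 ht
      have ne : ∀ m m', m ≠ m' → τ g m ≠ τ g m' := fun m m' e e' => e (h3 g hg g hg m m' e').2
      have gm : ∀ m, Gd ρ (L (τ g m)) U := fun m => hG _ ⟨m, rfl⟩
      obtain ⟨κ', -, m1, m2⟩ := red_ty (L := L) (card_ne hr hP (DE (τ g 2) (τ g 3)))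
        (Dv _ _ U (gm 2) (gm 3)) (Dk _ _) hU bot_le fun w _ y hy => by simp [mem_bot.1 hy]
      have g0 := m1.2.2 (τ g 0) (by simp [ne]) (gm 0)
      have g1 := m1.2.2 (τ g 1) (by simp [ne]) (gm 1)
      have e : (D (τ g 2) (τ g 3)).map (MulAut.conj g).toMonoidHom = D (τ g 0) (τ g 1) := by
        simp [D, Subgroup.map_sup, MonoidHom.map_zpowers, ← (h2 g hg).1, ← (h2 g hg).2, mul_assoc]
      have ty : ∀ v ∈ U.map (av ρ κ'), Ty ρ (D (τ g 0) (τ g 1))
          (κ'.map (MulAut.conj g).toMonoidHom) (ρ g v) := fun _ ⟨w, hw, e1⟩ =>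
        e ▸ e1 ▸ (m2 w hw).conj g
      obtain ⟨U', κ, m3, m4, m5⟩ := red_ne hr (hL _).2.1 (hL _).2.1 (hL _).2.2.1 (hL _).2.2.1
        (hL _).2.2.2.1 (hL _).2.2.2.1 (hc _ _ (ne 0 1 (by simp))) (hP.to_le (DE _ _)) (Dc _ _)
        (mem_sup_left (mem_zpowers _)) (mem_sup_right (mem_zpowers _)) (Dv _ _ _ g0 g1) (Dk _ _)
        m1.2.1 g0 g1 (ty 0 (zero_mem _)).1
      refine ⟨U', m1.trans m3 (by simp [Set.insert_subset_iff]) (by simp [Set.insert_subset_iff]),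
        fun v hv => ?_⟩
      rcases (m5 v hv).sep (card_ne hr hP (DE _ _)) (ty v (m3.1 hv)) m4 (Dc _ _ ▸ bot_le) with
        s | s
      exacts [⟨_, (m5 v hv).1.trans (DE _ _), s⟩, ⟨_, (ty v (m3.1 hv)).1.trans (DE _ _), s⟩]

end Pool.Agent.Lib.MP_679d9b_al.KG
end

-- part Pool.Agent.Lib.MP_679d9b_al.KG.Eta
section

/-!
The special linear group of a hyperbolic frame.
-/

set_option autoImplicit false

namespace Pool.Agent.Lib.MP_679d9b_al.KG

open Matrix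
open PT (SL)

namespace Eta

variable {K V ι : Type} [Field K] [AddCommGroup V] [Module K V] [Fintype ι] [DecidableEq ι]

/-- Linear combinations of a family. -/
def lc (e : ι → V) : (ι → K) →ₗ[K] V := Fintype.linearCombination K e

omit [DecidableEq ι] in
theorem lc_apply (e : ι → V) (x : ι → K) : lc e x = ∑ i, x i • e i :=
  Fintype.linearCombination_apply K e x

theorem lc_single (e : ι → V) (i : ι) (c : K) : lc e (Pi.single i c) = c • e i :=
  Fintype.linearCombination_apply_single K e i c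

omit [DecidableEq ι] in
theorem lc_mem (e : ι → V) (x : ι → K) : lc e x ∈ Submodule.span K (Set.range e) := by
  rw [lc_apply]
  exact Submodule.sum_mem _ fun i _ => Submodule.smul_mem _ _ (Submodule.subset_span ⟨i, rfl⟩)

variable (Φ : Frm K V) (e f : ι → V)

/-- Coordinates along `e`. -/
def ca : V →ₗ[K] (ι → K) := LinearMap.pi fun i => Φ.B (f i)

/-- Coordinates along `f`. -/
def cb : V →ₗ[K] (ι → K) := LinearMap.pi fun i => Φ.ε • Φ.B (e i)

/-- The map given by a matrix on the span of `e` and a matrix on the span of `f`. -/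
def T (M N : Matrix ι ι K) : Module.End K V :=
  1 + lc e ∘ₗ (M - 1).mulVecLin ∘ₗ ca Φ f + lc f ∘ₗ (N - 1).mulVecLin ∘ₗ cb Φ e

theorem T_apply (M N : Matrix ι ι K) (v : V) : T Φ e f M N v =
    v + lc e ((M - 1) *ᵥ ca Φ f v) + lc f ((N - 1) *ᵥ cb Φ e v) := rfl

/-- The contragredient matrix. -/
def st (A : SL ι K) : Matrix ι ι K := ((A⁻¹).1ᵀ).map Φ.σ

theorem val_mul (A A' : SL ι K) : (A * A').1 = A.1 * A'.1 := rfl

theorem val_one : (1 : SL ι K).1 = 1 := rfl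

theorem st_one : st Φ (1 : SL ι K) = 1 := by
  rw [st, inv_one, val_one, transpose_one, Matrix.map_one _ (map_zero _) (map_one _)]

theorem st_mul (A A' : SL ι K) : st Φ (A * A') = st Φ A * st Φ A' := by
  rw [st, st, st, _root_.mul_inv_rev, val_mul, transpose_mul, Matrix.map_mul]

theorem ee : Φ.ε * Φ.ε = 1 := by
  rcases Φ.εε with h | h <;> rw [h] <;> norm_num

omit [DecidableEq ι] in
theorem B_lc_left (g : ι → V) (x : ι → K) (v : V) :
    Φ.B (lc g x) v = ∑ i, Φ.σ (x i) * Φ.B (g i) v := by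
  rw [lc_apply, map_sum, LinearMap.sum_apply]
  simp only [LinearMap.map_smulₛₗ, LinearMap.smul_apply, smul_eq_mul]

omit [DecidableEq ι] in
theorem B_lc_right (g : ι → V) (x : ι → K) (v : V) :
    Φ.B v (lc g x) = ∑ i, x i * Φ.B v (g i) := by
  rw [lc_apply, map_sum]
  simp only [map_smul, smul_eq_mul]

theorem q_zero : Φ.q 0 = 0 := by
  have := Φ.qsmul 0 0
  rwa [zero_smul, mul_zero, zero_mul] at this

variable {Φ e f}

omit [DecidableEq ι] in
theorem B_ts {g : ι → V} (h : Φ.Ts g) (x y : ι → K) : Φ.B (lc g x) (lc g y) = 0 := by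
  rw [B_lc_left]
  refine Finset.sum_eq_zero fun i _ => ?_
  rw [B_lc_right, Finset.sum_eq_zero fun j _ => by rw [h.2, mul_zero], mul_zero]

omit [DecidableEq ι] in
theorem q_ts {g : ι → V} (h : Φ.Ts g) (x : ι → K) : Φ.q (lc g x) = 0 := by
  classical
  rw [lc_apply]
  induction (Finset.univ : Finset ι) using Finset.induction_on with
  | empty => rw [Finset.sum_empty, q_zero]
  | insert i s hi ih =>
    rw [Finset.sum_insert hi, Φ.qadd, ih, Φ.qsmul, h.1, map_sum,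
      Finset.sum_eq_zero fun j _ => by
        rw [map_smul, LinearMap.map_smulₛₗ, LinearMap.smul_apply, h.2, smul_zero, smul_zero],
      map_zero]
    simp

section Frame
variable (h : Φ.Fr e f)
include h

omit [Fintype ι] in
theorem dual' (i j : ι) : Φ.ε * Φ.B (e i) (f j) = if i = j then 1 else 0 := by
  rw [Φ.refl, h.dual, ← mul_assoc, ee, one_mul]
  by_cases hij : i = j
  · simp [hij]
  · simp [hij, Ne.symm hij]

theorem ca_e (x : ι → K) : ca Φ f (lc e x) = x := by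
  ext i
  simp [ca, B_lc_right, h.dual]

theorem ca_f (x : ι → K) : ca Φ f (lc f x) = 0 := by
  ext i
  simp [ca, B_lc_right, h.tf.2]

theorem cb_e (x : ι → K) : cb Φ e (lc e x) = 0 := by
  ext i
  simp [cb, B_lc_right, h.te.2]

theorem cb_f (x : ι → K) : cb Φ e (lc f x) = x := by
  ext i
  have : ∀ j, Φ.ε * (x j * Φ.B (e i) (f j)) = if i = j then x j else 0 := fun j => by
    rw [mul_left_comm, dual' h]; simp
  simp [cb, B_lc_right, Finset.mul_sum, this]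

theorem ca_T (M N : Matrix ι ι K) (v : V) : ca Φ f (T Φ e f M N v) = M *ᵥ ca Φ f v := by
  rw [T_apply, map_add, map_add, ca_e h, ca_f h, sub_mulVec, one_mulVec]
  abel

theorem cb_T (M N : Matrix ι ι K) (v : V) : cb Φ e (T Φ e f M N v) = N *ᵥ cb Φ e v := by
  rw [T_apply, map_add, map_add, cb_e h, cb_f h, sub_mulVec, one_mulVec]
  abel

theorem T_mul (M N M' N' : Matrix ι ι K) :
    T Φ e f (M * M') (N * N') = T Φ e f M N * T Φ e f M' N' := by
  ext v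
  rw [Module.End.mul_apply, T_apply Φ e f M N, ca_T h, cb_T h, T_apply, T_apply]
  simp only [sub_mulVec, one_mulVec, ← mulVec_mulVec, map_sub]
  abel

theorem B_fe (x y : ι → K) : Φ.B (lc f y) (lc e x) = ∑ i, Φ.σ (y i) * x i := by
  rw [B_lc_left]
  exact Finset.sum_congr rfl fun i _ => congrArg _ (congrFun (ca_e h x) i)

theorem B_fe_inv (A : SL ι K) (x y : ι → K) :
    Φ.B (lc f (st Φ A *ᵥ y)) (lc e (A.1 *ᵥ x)) = Φ.B (lc f y) (lc e x) := by
  rw [B_fe h, B_fe h]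
  have h1 : ∀ i, Φ.σ ((st Φ A *ᵥ y) i) = ((fun j => Φ.σ (y j)) ᵥ* (A⁻¹).1) i := fun i => by
    simp [st, mulVec, vecMul, dotProduct, Φ.σσ, mul_comm]
  simp only [h1]
  change ((fun j => Φ.σ (y j)) ᵥ* (A⁻¹).1) ⬝ᵥ (A.1 *ᵥ x) = (fun j => Φ.σ (y j)) ⬝ᵥ x
  rw [← dotProduct_mulVec, mulVec_mulVec, ← val_mul, inv_mul_cancel, val_one, one_mulVec]

theorem decomp (v : V) : ∃ x y z, v = lc e x + lc f y + z ∧ (∀ i, Φ.B (e i) z = 0) ∧
    (∀ i, Φ.B (f i) z = 0) ∧ ∀ M N, T Φ e f M N v = lc e (M *ᵥ x) + lc f (N *ᵥ y) + z := by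
  refine ⟨ca Φ f v, cb Φ e v, v - lc e (ca Φ f v) - lc f (cb Φ e v), by abel, fun i => ?_,
    fun i => ?_, fun M N => ?_⟩
  · have h1 : cb Φ e (v - lc e (ca Φ f v) - lc f (cb Φ e v)) = 0 := by
      rw [map_sub, map_sub, cb_e h, cb_f h]; abel
    have h2 : Φ.ε * Φ.B (e i) (v - lc e (ca Φ f v) - lc f (cb Φ e v)) = 0 := congrFun h1 i
    rw [← one_mul (Φ.B _ _), ← ee Φ, mul_assoc, h2, mul_zero]
  · have h1 : ca Φ f (v - lc e (ca Φ f v) - lc f (cb Φ e v)) = 0 := by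
      rw [map_sub, map_sub, ca_e h, ca_f h]; abel
    exact congrFun h1 i
  · rw [T_apply]
    simp only [sub_mulVec, one_mulVec, map_sub]
    abel

omit h [DecidableEq ι] in
theorem B_perp {g : ι → V} {z : V} (hz : ∀ i, Φ.B (g i) z = 0) (x : ι → K) :
    Φ.B (lc g x) z = 0 ∧ Φ.B z (lc g x) = 0 := by
  have h1 : Φ.B (lc g x) z = 0 := by
    rw [B_lc_left]
    exact Finset.sum_eq_zero fun i _ => by rw [hz, mul_zero]
  exact ⟨h1, by rw [Φ.refl, h1, map_zero, mul_zero]⟩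

theorem B_dec (x y x' y' : ι → K) {z z' : V} (h1 : ∀ i, Φ.B (e i) z = 0)
    (h2 : ∀ i, Φ.B (f i) z = 0) (h1' : ∀ i, Φ.B (e i) z' = 0) (h2' : ∀ i, Φ.B (f i) z' = 0) :
    Φ.B (lc e x + lc f y + z) (lc e x' + lc f y' + z') =
      Φ.ε * Φ.σ (Φ.B (lc f y') (lc e x)) + Φ.B (lc f y) (lc e x') + Φ.B z z' := by
  simp only [map_add, LinearMap.add_apply, B_ts h.te, B_ts h.tf, (B_perp h1 _).2, (B_perp h2 _).2,
    (B_perp h1' _).1, (B_perp h2' _).1]
  rw [Φ.refl (lc f y') (lc e x)]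
  ring

theorem q_dec (x y : ι → K) {z : V} (h1 : ∀ i, Φ.B (e i) z = 0) (h2 : ∀ i, Φ.B (f i) z = 0) :
    Φ.q (lc e x + lc f y + z) = Φ.τ (Φ.ε * Φ.σ (Φ.B (lc f y) (lc e x))) + Φ.q z := by
  rw [Φ.qadd, Φ.qadd, q_ts h.te, q_ts h.tf, map_add, LinearMap.add_apply, (B_perp h1 _).1,
    (B_perp h2 _).1, Φ.refl (lc f y) (lc e x)]
  simp

end Frame

/-- The action as endomorphisms. -/
def hom (h : Φ.Fr e f) : SL ι K →* Module.End K V where
  toFun A := T Φ e f A.1 (st Φ A)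
  map_one' := by
    ext v
    simp [T_apply, st_one]
  map_mul' A A' := by rw [st_mul, val_mul, T_mul h]

/-- The action as automorphisms. -/
def eta (h : Φ.Fr e f) : SL ι K →* (V ≃ₗ[K] V) :=
  (LinearMap.GeneralLinearGroup.generalLinearEquiv K V).toMonoidHom.comp (hom h).toHomUnits

theorem eta_apply (h : Φ.Fr e f) (A : SL ι K) (v : V) :
    eta h A v = T Φ e f A.1 (st Φ A) v := rfl

theorem val_tv {i j : ι} (hij : i ≠ j) (c : K) :
    (SpecialLinearGroup.transvection hij c : SL ι K).1 = 1 + single i j c := rfl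

theorem st_tv {i j : ι} (hij : i ≠ j) (c : K) :
    st Φ (SpecialLinearGroup.transvection hij c) - 1 = single j i (-Φ.σ c) := by
  rw [st, SpecialLinearGroup.transvection_inv, val_tv, transpose_add,
    transpose_one, transpose_single, Matrix.map_add _ (map_add Φ.σ),
    Matrix.map_one _ (map_zero _) (map_one _), map_single, map_neg, add_sub_cancel_left]

end Eta

open Eta in
theorem etaStmt : EtaStmt := by
  intro K V ι _ _ _ _ _ Φ e f h
  refine ⟨eta h, fun A => ⟨fun v w => ?_, fun v => ?_⟩, fun A j => ?_, fun A v hv => ?_,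
    fun A v => ?_, fun i j hij c v => ?_⟩
  · obtain ⟨x, y, z, rfl, h1, h2, h3⟩ := decomp h v
    obtain ⟨x', y', z', rfl, h1', h2', h3'⟩ := decomp h w
    rw [eta_apply, eta_apply, h3, h3', B_dec h _ _ _ _ h1 h2 h1' h2', B_dec h _ _ _ _ h1 h2 h1' h2',
      B_fe_inv h, B_fe_inv h]
  · obtain ⟨x, y, z, rfl, h1, h2, h3⟩ := decomp h v
    rw [eta_apply, h3, q_dec h _ _ h1 h2, q_dec h _ _ h1 h2, B_fe_inv h]
  · have h1 : e j = lc e (Pi.single j (1 : K)) := by rw [lc_single, one_smul]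
    rw [eta_apply, T_apply, h1, ca_e h, cb_e h, mulVec_zero, map_zero, add_zero, ← map_add,
      sub_mulVec, one_mulVec, add_sub_cancel, lc_apply]
    simp
  · have h1 : cb Φ e v = 0 := funext fun i => by simp [cb, hv]
    rw [eta_apply, T_apply, h1, mulVec_zero, map_zero, add_zero, add_sub_cancel_left]
    exact lc_mem e _
  · rw [eta_apply, T_apply, add_assoc, add_sub_cancel_left]
    exact Submodule.add_mem_sup (lc_mem e _) (lc_mem f _)
  · rw [eta_apply, T_apply, st_tv, val_tv, add_sub_cancel_left,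
      single_mulVec_eq, single_mulVec_eq, map_smul, map_smul, lc_single, lc_single, one_smul,
      one_smul, sub_eq_add_neg, ← neg_smul]
    congr 2
    simp only [cb, LinearMap.pi_apply, LinearMap.smul_apply, smul_eq_mul]
    ring

end Pool.Agent.Lib.MP_679d9b_al.KG
end

-- part Pool.Agent.Lib.MP_679d9b_al.KG.Ext
section

/-!
The extraspecial case.
-/

set_option autoImplicit false

namespace Pool.Agent.Lib.MP_679d9b_al.KG

open Subgroup
open scoped commutatorElement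

namespace Ext

variable {H : Type} [Group H]

theorem mem_cj {P : Subgroup H} {x y : H} :
    y ∈ P.map (MulAut.conj x).toMonoidHom ↔ x⁻¹ * y * x ∈ P := by
  rw [mem_map_equiv, MulAut.conj_symm_apply]

theorem cj_eq {P : Subgroup H} {x : H} (h : ∀ y, y ∈ P ↔ x⁻¹ * y * x ∈ P) :
    P.map (MulAut.conj x).toMonoidHom = P := by
  ext y
  rw [mem_cj, ← h]

theorem cj_mem {P : Subgroup H} {d : H} (h : ∀ y ∈ P, ⁅d, y⁆ ∈ P) {y : H} (hy : y ∈ P) :
    d * y * d⁻¹ ∈ P := by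
  have := P.mul_mem (h y hy) hy
  rwa [commutatorElement_def, inv_mul_cancel_right] at this

/-- A class two group with a central subgroup. -/
structure Cl (r : ℕ) (A B : Subgroup H) : Prop where
  le : B ≤ A
  cen : ∀ b ∈ B, ∀ a ∈ A, Commute b a
  com : ∀ a ∈ A, ∀ a' ∈ A, ⁅a, a'⁆ ∈ B
  pow : ∀ a ∈ A, a ^ r ∈ B

variable {r : ℕ} {A B K0 : Subgroup H}

theorem Cl.mul (h : Cl r A B) {a b c : H} (ha : a ∈ A) (hb : b ∈ A) (hc : c ∈ A) :
    ⁅a * b, c⁆ = ⁅a, c⁆ * ⁅b, c⁆ := by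
  have e : ⁅a * b, c⁆ = a * ⁅b, c⁆ * a⁻¹ * ⁅a, c⁆ := by
    simp only [commutatorElement_def]
    group
  rw [e, ← (h.cen _ (h.com b hb c hc) a ha).eq, mul_inv_cancel_right,
    (h.cen _ (h.com b hb c hc) _ (h.le (h.com a ha c hc))).eq]

theorem Cl.pw (h : Cl r A B) {a c : H} (ha : a ∈ A) (hc : c ∈ A) (n : ℕ) :
    ⁅a ^ n, c⁆ = ⁅a, c⁆ ^ n := by
  induction n with
  | zero => simp
  | succ n ih => rw [pow_succ, h.mul (A.pow_mem ha n) ha hc, ih, pow_succ]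

/-- The commutator modulo `K0` as a map to the prime field. -/
theorem exists_form (hQ : QuotStmt) [Finite H] [Fact r.Prime] (h : Cl r A B) (hK : K0 ≤ B)
    (hc : ∀ x ∈ B, ∀ y ∈ B, (∃ n : ℕ, x⁻¹ * y ^ n ∈ K0) ∨ ∃ n : ℕ, y⁻¹ * x ^ n ∈ K0) :
    ∃ c : H → H → ZMod r, (∀ a ∈ A, ∀ b ∈ A, ∀ e ∈ A, c (a * b) e = c a e + c b e) ∧
      (∀ a ∈ A, ∀ b ∈ A, c a b = -c b a) ∧ ∀ a ∈ A, ∀ b ∈ A, (c a b = 0 ↔ ⁅a, b⁆ ∈ K0) := by
  let C : Subgroup H :=
    { carrier := {b | b ∈ B ∧ b ^ r ∈ K0}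
      one_mem' := ⟨B.one_mem, by simp⟩
      mul_mem' := fun {a b} ha hb => ⟨B.mul_mem ha.1 hb.1, by
        rw [(h.cen a ha.1 b (h.le hb.1)).mul_pow]
        exact K0.mul_mem ha.2 hb.2⟩
      inv_mem' := fun {a} ha => ⟨B.inv_mem ha.1, by rw [inv_pow]; exact K0.inv_mem ha.2⟩ }
  obtain ⟨W, _, _, _, p, -, p1, p2, p3, -⟩ := hQ r H Unit 1 C K0
    (fun k hk => ⟨hK hk, K0.pow_mem hk r⟩) (commutator_le.2 fun a ha b hb => by
      rw [(h.cen a ha.1 b (h.le hb.1)).commutator_eq]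
      exact K0.one_mem) (fun a ha => ha.2) (by simp) (by simp)
  have p0 : p 1 = 0 := (p3 1 C.one_mem).2 K0.one_mem
  have pn : ∀ a ∈ C, ∀ n : ℕ, p (a ^ n) = n • p a := fun a ha n => by
    induction n with
    | zero => simp [p0]
    | succ n ih => rw [pow_succ, p2 _ (C.pow_mem ha n) a ha, ih, succ_nsmul]
  have pi : ∀ a ∈ C, p a⁻¹ = -p a := fun a ha =>
    eq_neg_of_add_eq_zero_left (by rw [← p2 _ (C.inv_mem ha) a ha, inv_mul_cancel, p0])
  have q : ∀ x ∈ C, ∀ y ∈ C, ∀ n : ℕ, x⁻¹ * y ^ n ∈ K0 → p x = (n : ZMod r) • p y :=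
    fun x hx y hy n e => by
      have := (p3 _ (C.mul_mem (C.inv_mem hx) (C.pow_mem hy n))).2 e
      rw [p2 _ (C.inv_mem hx) _ (C.pow_mem hy n), pi x hx, pn y hy, neg_add_eq_zero] at this
      rw [this, Nat.cast_smul_eq_nsmul]
  obtain ⟨l, hl⟩ : ∃ l : Module.Dual (ZMod r) W, ∀ w, l w = 0 → w = 0 := by
    by_cases a : ∀ w : W, w = 0
    · exact ⟨0, fun w _ => a w⟩
    obtain ⟨w0, a⟩ := not_forall.1 a
    obtain ⟨l, b⟩ := not_forall.1 (mt (Module.forall_dual_apply_eq_zero_iff (ZMod r) w0).1 a)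
    refine ⟨l, fun w e => ?_⟩
    obtain ⟨x, hx, rfl⟩ := p1 w
    obtain ⟨y, hy, rfl⟩ := p1 w0
    rcases hc x hx.1 y hy.1 with ⟨n, f⟩ | ⟨n, f⟩
    · rw [q x hx y hy n f] at e ⊢
      rw [map_smul, smul_eq_mul, mul_eq_zero] at e
      rw [e.resolve_right b, zero_smul]
    · rw [q y hy x hx n f, map_smul, e, smul_zero] at b
      exact absurd rfl b
  have m : ∀ a ∈ A, ∀ b ∈ A, ⁅a, b⁆ ∈ C := fun a ha b hb => ⟨h.com a ha b hb, by
    rw [← h.pw ha hb, (h.cen _ (h.pow a ha) b hb).commutator_eq]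
    exact K0.one_mem⟩
  refine ⟨fun a b => l (p ⁅a, b⁆), fun a ha b hb e he => ?_, fun a ha b hb => ?_,
    fun a ha b hb => ⟨fun e => (p3 _ (m a ha b hb)).1 (hl _ e), fun e => ?_⟩⟩
  · simp only [h.mul ha hb he, p2 _ (m a ha e he) _ (m b hb e he), map_add]
  · simp only [← map_neg, ← pi _ (m b hb a ha), commutatorElement_inv]
  · simp only [(p3 _ (m a ha b hb)).2 e, map_zero]

section Quot
variable {F W : Type} [Field F] [AddCommGroup W] [Module F W] {p : H → W}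

theorem p_one (hp : ∀ a ∈ A, ∀ b ∈ A, p (a * b) = p a + p b) : p 1 = 0 := by
  simpa using hp 1 A.one_mem 1 A.one_mem

theorem p_inv (hp : ∀ a ∈ A, ∀ b ∈ A, p (a * b) = p a + p b) {a : H} (ha : a ∈ A) :
    p a⁻¹ = -p a :=
  eq_neg_of_add_eq_zero_left (by rw [← hp _ (A.inv_mem ha) a ha, inv_mul_cancel, p_one hp])

theorem p_pow (hp : ∀ a ∈ A, ∀ b ∈ A, p (a * b) = p a + p b) {a : H} (ha : a ∈ A) (n : ℕ) :
    p (a ^ n) = n • p a := by
  induction n with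
  | zero => simp [p_one hp]
  | succ n ih => rw [pow_succ, hp _ (A.pow_mem ha n) a ha, ih, succ_nsmul]

/-- The preimage of a subspace. -/
def sb (hp : ∀ a ∈ A, ∀ b ∈ A, p (a * b) = p a + p b) (Y : Submodule F W) : Subgroup H where
  carrier := {a | a ∈ A ∧ p a ∈ Y}
  one_mem' := ⟨A.one_mem, by rw [p_one hp]; exact Y.zero_mem⟩
  mul_mem' := fun {a b} ha hb => ⟨A.mul_mem ha.1 hb.1, by
    rw [hp a ha.1 b hb.1]
    exact Y.add_mem ha.2 hb.2⟩
  inv_mem' := fun {a} ha => ⟨A.inv_mem ha.1, by rw [p_inv hp ha.1]; exact Y.neg_mem ha.2⟩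

theorem exists_fun {ι : Type} {X : ι → W} (h : LinearIndependent F X) (val : ι → F) :
    ∃ f : Module.Dual F W, ∀ i, f (X i) = val i := by
  obtain ⟨f, hf⟩ := LinearMap.exists_extend (Finsupp.linearCombination F val ∘ₗ h.repr)
  refine ⟨f, fun i => ?_⟩
  have := LinearMap.congr_fun hf ⟨X i, Submodule.subset_span ⟨i, rfl⟩⟩
  rw [LinearMap.comp_apply, LinearMap.comp_apply, h.repr_eq_single i _ rfl] at this
  simpa using this

end Quot

/-- The form on the quotient. -/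
theorem exists_bil [Fact r.Prime] {W : Type} [AddCommGroup W] [Module (ZMod r) W] {p : H → W}
    {c : H → H → ZMod r} (p1 : ∀ w, ∃ a ∈ A, p a = w)
    (hp : ∀ a ∈ A, ∀ b ∈ A, p (a * b) = p a + p b)
    (c1 : ∀ a ∈ A, ∀ b ∈ A, ∀ e ∈ A, c (a * b) e = c a e + c b e)
    (c2 : ∀ a ∈ A, ∀ b ∈ A, c a b = -c b a) (c3 : ∀ a ∈ A, p a = 0 → ∀ b ∈ A, c a b = 0) :
    ∃ β : LinearMap.BilinForm (ZMod r) W, ∀ a ∈ A, ∀ b ∈ A, β (p a) (p b) = c a b := by
  choose s s1 s2 using p1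
  have k : ∀ a ∈ A, ∀ b ∈ A, c (s (p a)) b = c a b := fun a ha b hb => by
    have m := A.mul_mem (A.inv_mem ha) (s1 (p a))
    rw [← mul_inv_cancel_left a (s (p a)), c1 a ha _ m b hb, c3 _ m ?_ b hb, add_zero]
    rw [hp _ (A.inv_mem ha) _ (s1 _), p_inv hp ha, s2, neg_add_cancel]
  have k1 : ∀ w w' : W, ∀ b ∈ A, c (s (w + w')) b = c (s w) b + c (s w') b := fun w w' b hb => by
    rw [← c1 _ (s1 w) _ (s1 w') b hb, ← k _ (A.mul_mem (s1 w) (s1 w')) b hb,
      hp _ (s1 w) _ (s1 w'), s2, s2]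
  have k2 : ∀ (t : ZMod r) (w : W), ∀ b ∈ A, c (s (t • w)) b = t • c (s w) b := fun t w b hb =>
    ZMod.map_smul (AddMonoidHom.mk' (fun w => c (s w) b) fun w w' => k1 w w' b hb) t w
  refine ⟨LinearMap.mk₂ (ZMod r) (fun w w' => c (s w) (s w')) (fun w w' u => k1 w w' _ (s1 u))
    (fun t w u => k2 t w _ (s1 u)) (fun u w w' => ?_) (fun t u w => ?_), fun a ha b hb => ?_⟩
  · rw [c2 _ (s1 u) _ (s1 _), k1 _ _ _ (s1 u), c2 _ (s1 u) _ (s1 w), c2 _ (s1 u) _ (s1 w'), neg_add]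
  · rw [c2 _ (s1 u) _ (s1 _), k2 _ _ _ (s1 u), c2 _ (s1 u) _ (s1 w), smul_neg]
  · rw [LinearMap.mk₂_apply, k a ha _ (s1 _), c2 a ha _ (s1 _), k b hb a ha, ← c2 a ha b hb]

theorem inf_eq {κ D : Subgroup H} (hκ : K0 ≤ κ) {d : H}
    (hD : ∀ y ∈ D, ⁅d⁻¹, y⁆ ∈ K0) : κ.map (MulAut.conj d).toMonoidHom ⊓ D = κ ⊓ D := by
  ext y
  refine and_congr_left fun hy => mem_cj.trans ?_
  have e : d⁻¹ * y * d = ⁅d⁻¹, y⁆ * y := by
    simp only [commutatorElement_def]
    group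
  rw [e]
  exact κ.mul_mem_cancel_left (hκ (hD y hy))

/-- A vector which is separated from its images under elements normalizing `K0`. -/
theorem core [Finite H] [Fact r.Prime] {K V F W I : Type} [Field K] [AddCommGroup V] [Module K V]
    [Field F] [AddCommGroup W] [Module F W] {ρ : H →* Module.End K V} (hr : (r : K) ≠ 0)
    (hA : IsPGroup r A) (nA : A.Normal) (nB : B.Normal) (h : Cl r A B) (hK : K0 ≤ B)
    {U : Submodule K V} (hU : U ≠ ⊥) (tU : ∀ u ∈ U, Ty ρ B K0 u) (iU : Iv ρ A U) {g : I → H}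
    (hg : ∀ i, ∀ y ∈ K0, (g i)⁻¹ * y * g i ∈ K0) {p : H → W}
    (hp : ∀ a ∈ A, ∀ b ∈ A, p (a * b) = p a + p b) (pB : ∀ b ∈ B, p b = 0)
    {β : LinearMap.BilinForm F W} (hβ : ∀ a ∈ A, ∀ b ∈ A, β (p a) (p b) = 0 ↔ ⁅a, b⁆ ∈ K0)
    (sβ : ∀ f : Module.Dual F W, ∃ d ∈ A, β (p d) = f) {σ : I → Module.End F W}
    (hσ : ∀ i, ∀ a ∈ A, σ i (p a) = p (g i * a * (g i)⁻¹)) {a : I × Bool → H} (ha : ∀ j, a j ∈ A)
    {X : (I × Bool) ⊕ (I × Bool) → W} (x1 : ∀ j, X (.inl j) = p (a j))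
    (x2 : ∀ j, X (.inr j) = σ j.1 (p (a j))) (li : LinearIndependent F X)
    (iso : ∀ j j', β (X j) (X j') = 0) :
    ∃ E ≤ A, ⁅E, E⁆ ≤ K0 ∧ ∃ v ∈ U, v ≠ 0 ∧
      ∀ i, ∃ P, K0 ≤ P ∧ P ≤ E ∧ Sep ρ P v (ρ (g i) v) := by
  classical
  let E := sb hp (Submodule.span F (Set.range X))
  have EA : E ≤ A := fun _ hy => hy.1
  have sbB : ∀ Y : Submodule F W, B ≤ sb hp Y := fun Y b hb =>
    ⟨h.le hb, by rw [pB b hb]; exact Y.zero_mem⟩
  have EE : ⁅E, E⁆ ≤ K0 := commutator_le.2 fun x hx y hy => (hβ x hx.1 y hy.1).1 (by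
    have k : ∀ j, ∀ w ∈ Submodule.span F (Set.range X), β (X j) w = 0 := fun j w hw =>
      (Submodule.span_le (p := LinearMap.ker (β (X j)))).2 (Set.range_subset_iff.2 (iso j)) hw
    exact (Submodule.span_le (p := LinearMap.ker (β.flip (p y)))).2
      (Set.range_subset_iff.2 fun j => k j _ hy.2) hx.2)
  have cE : (Nat.card E : K) ≠ 0 := card_ne hr hA EA
  obtain ⟨κ, k1, k2, k3⟩ := exists_ty (ρ := ρ) cE hU (hK.trans (sbB _)) fun u hu => (tU u hu).2.1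
  obtain ⟨_, ⟨u, hu, rfl⟩, v0⟩ := Submodule.exists_mem_ne_zero_of_ne_bot k2
  have ty := k3 u hu
  have vU : av ρ κ u ∈ U := av_mem (fun y hy => iU y (EA (ty.1 hy))) hu
  generalize av ρ κ u = v at v0 ty vU
  have κB : κ ⊓ B ≤ K0 := (tU v vU).le (card_ne hr hA h.le) v0 inf_le_right
    fun y hy => ty.2.1 y hy.1
  let D' : I → Subgroup H := fun i => sb hp (Submodule.span F (Set.range fun b => p (a (i, b))))
  let D : I → Subgroup H := fun i => (D' i).map (MulAut.conj (g i)).toMonoidHom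
  have BD : ∀ i, B ≤ D i := fun i b hb => mem_cj.2 (sbB _ (nB.conj_mem' b hb _))
  have Dp : ∀ i, ∀ y ∈ D i, y ∈ A ∧
      p y ∈ Submodule.span F (Set.range fun b => X (.inr (i, b))) := by
    rintro i _ ⟨y, hy, rfl⟩
    refine ⟨nA.conj_mem y hy.1 _, ?_⟩
    have := Submodule.mem_map_of_mem (f := σ i) hy.2
    rw [Submodule.map_span, ← Set.range_comp, hσ i y hy.1] at this
    simp only [x2]
    exact this
  have DE : ∀ i, D i ≤ E := fun i y hy =>
    ⟨(Dp i y hy).1, Submodule.span_mono (by rintro _ ⟨b, rfl⟩; exact ⟨_, rfl⟩) (Dp i y hy).2⟩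
  have DE' : ∀ i, D' i ≤ E := fun i y hy =>
    ⟨hy.1, Submodule.span_mono (by rintro _ ⟨b, rfl⟩; exact ⟨_, x1 _⟩) hy.2⟩
  have aD : ∀ i b, g i * a (i, b) * (g i)⁻¹ ∈ D i := fun i b =>
    ⟨a (i, b), ⟨ha _, Submodule.subset_span ⟨b, rfl⟩⟩, rfl⟩
  have ch : ∀ i, ∃ (b : Bool) (n : ℕ), (g i * a (i, b) * (g i)⁻¹)⁻¹ *
      (g i * a (i, !b) * (g i)⁻¹) ^ n ∈ κ := fun i => by
    rcases ty.chain hr (hA.to_le EA) v0 (EE.trans k1) (DE i (aD i true)) (DE i (aD i false)) with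
      c | c
    exacts [⟨true, c⟩, ⟨false, c⟩]
  choose bb nn ch using ch
  obtain ⟨f, hf⟩ := exists_fun li (Sum.elim (fun _ => 0) fun j =>
    if κ ⊓ D j.1 = (κ ⊓ D' j.1).map (MulAut.conj (g j.1)).toMonoidHom ∧ j.2 = bb j.1 then 1 else 0)
  obtain ⟨d, dA, hd⟩ := sβ f
  have fd : ∀ y ∈ A, f (p y) = 0 → ⁅d⁻¹, y⁆ ∈ K0 := fun y hy e =>
    (hβ _ (A.inv_mem dA) y hy).1 (by rw [p_inv hp dA, map_neg, LinearMap.neg_apply, hd, e, neg_zero])
  have e1 : ∀ i, κ.map (MulAut.conj d).toMonoidHom ⊓ D' i = κ ⊓ D' i := fun i =>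
    inf_eq k1 fun y hy => fd y hy.1 ((Submodule.span_le (p := LinearMap.ker f)).2
      (Set.range_subset_iff.2 fun b => (congrArg f (x1 _)).symm.trans (hf _)) hy.2)
  have nE : E.map (MulAut.conj d).toMonoidHom = E := cj_eq fun y =>
    ⟨fun hy => by
      simpa using cj_mem (fun y hy => sbB _ (h.com _ (A.inv_mem dA) y (EA hy))) hy,
    fun hy => by
      simpa [mul_assoc] using cj_mem (fun y hy => sbB _ (h.com _ dA y (EA hy))) hy⟩
  have ty' := ty.conj d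
  rw [nE] at ty'
  have k4 : K0 ≤ κ.map (MulAut.conj d).toMonoidHom := fun y hy => mem_cj.2 (by
    rw [mul_assoc, (h.cen y (hK hy) d dA).eq, inv_mul_cancel_left]
    exact k1 hy)
  refine ⟨E, EA, EE, ρ d v, iU d dA v vU, fun e => v0 ?_, fun i => ?_⟩
  · rw [← Module.End.one_apply (R := K) v, ← map_one ρ, ← inv_mul_cancel d, map_mul,
      Module.End.mul_apply, e, map_zero]
  have t1 := ty'.restrict cE (DE i) (EE.trans (le_inf k4 (hK.trans (BD i))))
  have t2 := (ty'.restrict cE (DE' i) (EE.trans (le_inf k4 (hK.trans (sbB _))))).conj (g i)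
  rw [e1] at t2
  have l1 : K0 ≤ κ.map (MulAut.conj d).toMonoidHom ⊓ D i := le_inf k4 (hK.trans (BD i))
  have l2 : K0 ≤ (κ ⊓ D' i).map (MulAut.conj (g i)).toMonoidHom := fun y hy =>
    mem_cj.2 ⟨k1 (hg i y hy), sbB _ (hK (hg i y hy))⟩
  refine (t1.sep (card_ne hr hA ((DE i).trans EA)) t2 (fun e => ?_)
    ((commutator_mono (DE i) (DE i)).trans (EE.trans (le_inf l1 l2)))).elim
    (fun s => ⟨_, l1, t1.1.trans (DE i), s⟩) fun s => ⟨_, l2, t2.1.trans (DE i), s⟩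
  by_cases bad : κ ⊓ D i = (κ ⊓ D' i).map (MulAut.conj (g i)).toMonoidHom
  · have m1 := aD i (bb i)
    have m2 := aD i (!bb i)
    have a1 := EA (DE i m1)
    have a2 := EA (DE i m2)
    have xD := (D i).mul_mem ((D i).inv_mem m1) ((D i).pow_mem m2 (nn i))
    have xA := EA (DE i xD)
    have fx := (hβ d dA _ xA).2 (κB ⟨κ.mul_mem (And.left (bad.ge (e.le ⟨⟨_, ch i, rfl⟩,
      cj_mem (fun y hy => BD i (h.com d dA y (EA (DE i hy)))) xD⟩))) (κ.inv_mem (ch i)),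
      h.com d dA _ xA⟩)
    rw [hd, hp _ (A.inv_mem a1) _ (A.pow_mem a2 _), p_inv hp a1, p_pow hp a2, ← hσ i _ (ha _),
      ← hσ i _ (ha _), ← x2 (i, bb i), ← x2 (i, !bb i), map_add, map_neg, map_nsmul, hf, hf,
      Sum.elim_inr, Sum.elim_inr, if_pos ⟨bad, rfl⟩, if_neg fun c => by simpa using c.2] at fx
    simp at fx
  · refine bad (e ▸ (inf_eq k1 fun y hy => fd y (Dp i y hy).1 ?_).symm)
    exact (Submodule.span_le (p := LinearMap.ker f)).2
      (Set.range_subset_iff.2 fun b => (hf _).trans (by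
        rw [Sum.elim_inr, if_neg fun c => bad c.1])) (Dp i y hy).2

end Ext

open Ext in
theorem extStmt (hQ : QuotStmt) (hG : GenStmt) : ExtStmt := fun n => by
  classical
  obtain ⟨N, hN⟩ := hG (n * 2)
  refine ⟨N, fun r _ H K V _ _ _ _ _ ρ R A Φ hr inj irr nR mn nil ⟨a0, ha0, b0, hb0, nc⟩ hΦ rk' => ?_⟩
  have nA := mn.nrm
  let B := A ⊓ centralizer (R : Set H)
  have nB : B.Normal := inferInstance
  have cR : ∀ b ∈ B, ∀ y ∈ R, Commute b y := fun b hb y hy => (hb.2 y hy).symm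
  have mc : ∀ a ∈ A, ∀ b ∈ A, ⁅a, b⁆ ∈ A := fun a ha b hb =>
    A.mul_mem (nA.conj_mem b hb a) (A.inv_mem hb)
  have h : Cl r A B := ⟨inf_le_left, fun b hb a ha => cR b hb a (mn.le ha),
    fun a ha b hb => ⟨mc a ha b hb, nil.2.1 (commutator_mem_commutator ha hb)⟩,
    fun a ha => ⟨A.pow_mem ha r, nil.2.2 a ha⟩⟩
  have cB : (Nat.card B : K) ≠ 0 := card_ne hr nil.1 h.le
  have tp : (⊤ : Submodule K V) ≠ ⊥ := fun e => nc (inj (LinearMap.ext fun v => by
    have : ∀ w : V, w = 0 := fun w => (Submodule.mem_bot K).1 (e ▸ Submodule.mem_top)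
    rw [this (ρ _ v), this (ρ _ v)]))
  obtain ⟨K0, -, hU, tU⟩ := exists_ty (ρ := ρ) cB tp bot_le fun w _ y hy => by
    rw [mem_bot.1 hy, map_one, Module.End.one_apply]
  replace tU : ∀ u ∈ (⊤ : Submodule K V).map (av ρ K0), Ty ρ B K0 u := by
    rintro _ ⟨w, hw, rfl⟩
    exact tU w hw
  obtain ⟨u0, hu0, u1⟩ := Submodule.exists_mem_ne_zero_of_ne_bot hU
  have hK : K0 ≤ B := (tU u0 hu0).1
  have BB : ⁅B, B⁆ ≤ ⊥ := commutator_le.2 fun x hx y hy => (h.cen x hx y (h.le hy)).commutator_eq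
  let T := normalizer (K0 : Set H)
  have RT : R ≤ T := fun y hy =>
    centralizer_le_normalizer _ fun k hk => (cR k (hK hk) y hy).eq
  have tK : ∀ t ∈ T, ∀ y ∈ K0, t * y * t⁻¹ ∈ K0 := fun t ht y => (mem_normalizer_iff.1 ht y).1
  obtain ⟨c, c1, c2, c3⟩ := exists_form hQ h hK fun x hx y hy =>
    (tU u0 hu0).chain hr (nil.1.to_le h.le) u1 (BB.trans bot_le) hx hy
  let Z : Subgroup H :=
    { carrier := {a | a ∈ A ∧ ∀ b ∈ A, ⁅a, b⁆ ∈ K0}
      one_mem' := ⟨A.one_mem, by simp⟩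
      mul_mem' := fun {a b} ha hb => ⟨A.mul_mem ha.1 hb.1, fun e he => by
        rw [h.mul ha.1 hb.1 he]
        exact K0.mul_mem (ha.2 e he) (hb.2 e he)⟩
      inv_mem' := fun {a} ha => ⟨A.inv_mem ha.1, fun e he => by
        have := h.mul (A.inv_mem ha.1) ha.1 he
        rw [inv_mul_cancel, commutatorElement_one_left, eq_comm, mul_eq_one_iff_eq_inv] at this
        rw [this]
        exact K0.inv_mem (ha.2 e he)⟩ }
  have BZ : B ≤ Z := fun b hb => ⟨h.le hb, fun e he => by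
    rw [(h.cen b hb e he).commutator_eq]
    exact K0.one_mem⟩
  obtain ⟨W, _, _, _, p, σ, p1, p2, p3, p4⟩ := hQ r H T T.subtype A Z (fun _ hy => hy.1)
    (commutator_le.2 fun a ha b hb => BZ (h.com a ha b hb)) (fun a ha => BZ (h.pow a ha))
    (fun t a ha => nA.conj_mem a ha _) fun t a ha => ⟨nA.conj_mem a ha.1 _, fun e he => by
      have := tK t t.2 _ (ha.2 _ (nA.conj_mem' e he t))
      convert this using 1
      simp only [commutatorElement_def, coe_subtype]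
      group⟩
  obtain ⟨β, hβ⟩ := exists_bil p1 p2 c1 c2 fun a ha e b hb =>
    (c3 a ha b hb).2 (((p3 a ha).1 e).2 b hb)
  have hβ' : ∀ a ∈ A, ∀ b ∈ A, β (p a) (p b) = 0 ↔ ⁅a, b⁆ ∈ K0 := fun a ha b hb => by
    rw [hβ a ha b hb, c3 a ha b hb]
  have nt : ∃ y : T, T.subtype y ∈ R ∧ σ y ≠ 1 := by
    by_contra e
    push Not at e
    have AZ : A ≤ Z := mn.eq.ge.trans (commutator_le.2 fun a ha y hy => by
      have m := nA.conj_mem _ (A.inv_mem ha) y
      have := p4 ⟨y, RT hy⟩ _ (A.inv_mem ha)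
      rw [e ⟨y, RT hy⟩ hy, Module.End.one_apply, p_inv p2 ha] at this
      have e2 : ⁅a, y⁆ = a * (y * a⁻¹ * y⁻¹) := by simp only [commutatorElement_def, mul_assoc]
      rw [e2]
      refine (p3 _ (A.mul_mem ha m)).1 ?_
      rw [p2 a ha _ m]
      exact add_eq_zero_iff_neg_eq.2 this)
    have AA : ⁅A, A⁆ ≤ K0 := commutator_le.2 fun a ha b hb => (AZ ha).2 b hb
    have := irr.eq_one ρ (commutator_normal A A) u1 (fun y hy => (tU u0 hu0).2.1 y (AA hy)) _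
      (commutator_mem_commutator ha0 hb0)
    exact nc (commutatorElement_eq_one_iff_commute.1 (inj (this.trans (map_one ρ).symm)))
  let I := ↥(Φ.filter (· ∈ T))
  let g : I → T := fun i => ⟨i.1, (Finset.mem_filter.1 i.2).2⟩
  obtain ⟨w, li, iso⟩ := hN (ZMod r) W (I × Bool) β (fun j => σ (g j.1)) (fun w => by
      obtain ⟨a, ha, rfl⟩ := p1 w
      exact (hβ' a ha a ha).2 (by simp))
    (by
      rw [Nat.card_prod, Nat.card_eq_fintype_card, Fintype.card_coe, Nat.card_eq_fintype_card,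
        Fintype.card_bool]
      exact Nat.mul_le_mul_right 2 ((Finset.card_filter_le _ _).trans hΦ))
    fun j t => rk' _ (Finset.mem_filter.1 j.1.2).1 T T.subtype T.subtype_injective
      (by rwa [range_subtype]) (g j.1) rfl _ W σ nt t
  choose a ha ea using fun j => p1 (w j)
  have iU : Iv ρ A ((⊤ : Submodule K V).map (av ρ K0)) := by
    rintro y hy _ ⟨u, -, rfl⟩
    exact ⟨ρ y u, trivial,
      (LinearMap.congr_fun (commute_av_of_norm (tK y (RT (mn.le hy)))).eq u).symm⟩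
  obtain ⟨E, EA, EE, v, vU, v0, hv⟩ := core hr nil.1 nA nB h hK hU tU iU (g := fun i => g i)
    (fun i y => (mem_normalizer_iff''.1 (g i).2 y).1) p2 (fun b hb => (p3 b (h.le hb)).2 (BZ hb))
    hβ' (fun f => by
      obtain ⟨x, e⟩ := (LinearMap.injective_iff_surjective_of_finrank_eq_finrank (f := β)
        Subspace.dual_finrank_eq.symm).1 ((injective_iff_map_eq_zero β).2 fun x e => by
          obtain ⟨a, ha, rfl⟩ := p1 x
          exact (p3 a ha).2 ⟨ha, fun b hb => (hβ' a ha b hb).1 (by rw [e]; rfl)⟩) f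
      obtain ⟨d, hd, rfl⟩ := p1 x
      exact ⟨d, hd, e⟩)
    (σ := fun i => σ (g i)) (fun i => p4 (g i)) ha (fun j => (ea j).symm)
    (fun j => by rw [ea]; rfl) li iso
  have key : ∀ x ∈ Φ, ∃ P, (P ≤ B ∨ K0 ≤ P ∧ P ≤ E) ∧ Sep ρ P v (ρ x v) := fun x hx => by
    by_cases e : x ∈ T
    · obtain ⟨P, q1, q2, q3⟩ := hv ⟨x, Finset.mem_filter.2 ⟨hx, e⟩⟩
      exact ⟨P, Or.inr ⟨q1, q2⟩, q3⟩
    have t2 := (tU v vU).conj x
    rw [cj_eq fun y => ⟨fun hy => nB.conj_mem' y hy x, fun hy => by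
      simpa [mul_assoc] using nB.conj_mem _ hy x⟩] at t2
    exact ((tU v vU).sep cB t2 (fun e' => e (mem_normalizer_iff_map_conj_eq.2 e'.symm))
      (BB.trans bot_le)).elim (fun s => ⟨_, Or.inl hK, s⟩) fun s => ⟨_, Or.inl t2.1, s⟩
  choose! P q1 q2 using key
  have PA : ∀ x ∈ Φ, P x ≤ A := fun x hx => (q1 x hx).elim (·.trans h.le) (·.2.trans EA)
  refine ⟨v, v0, P, fun x hx => ⟨(PA x hx).trans mn.le, card_ne hr nil.1 (PA x hx), q2 x hx⟩,
    fun x hx x' hx' y hy z hz => ?_⟩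
  rcases q1 x hx with e | e
  · rwa [(h.cen y (e hy) z (PA x' hx' hz)).eq, mul_inv_cancel_right]
  rcases q1 x' hx' with e' | e'
  · rwa [← (h.cen z (e' hz) y (PA x hx hy)).eq, mul_inv_cancel_right]
  exact cj_mem (fun z hz => e'.1 (EE (commutator_mem_commutator (e.2 hy) (e'.2 hz)))) hz

end Pool.Agent.Lib.MP_679d9b_al.KG
end
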