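import Mathlib
import Pool.Agent.Lib.MP_679d9b_al.PT.All
import Pool.Agent.Lib.MP_679d9b_al.KG.Ty

-- part Pool.Agent.Lib.MP_679d9b_al.KG.Main
section

/-!
The global argument.
-/

set_option autoImplicit false

namespace Pool.Agent.Lib.MP_679d9b_al.KG

open Subgroup Matrix Filter
open scoped commutatorElement
open PT (SL PSL PEl QEl)

variable {G : Type} [Group G]

/-- Covers by projective special linear groups of unbounded degree with a `p`-kernel. -/
theorem nf {p : ℕ} [Fact p.Prime] [Infinite G] (hlf : Alt.LF G)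
    (hcov : ∀ F : Subgroup G, Finite F → ∀ b : ℕ, ∃ L : PT.Lv p G, F ≤ L.H ∧ ∀ f ∈ F, f ≠ 1 →
      ∀ (A : SL (Fin L.n) L.K) (l : L.K), (A : PSL (Fin L.n) L.K) = L.r f →
        b < (A.1 - l • 1).rank)
    (x : G) (d : ℕ) : ¬ Alt.NoChain x d := by
  classical
  intro hx
  have hD := PT.dichStmt PT.structStmt PT.sectStmt
    (PT.claimStmt PT.structStmt PT.cfStmt PT.tensStmt PT.secStmt) PT.secStmt
  have hK := PT.coreStmt PT.structStmt (PT.coreStStmt (PT.bigStmt PT.structStmt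
    (PT.smallStmt (PT.grStmt PT.structStmt))) PT.starStmt PT.blockStmt PT.ncStmt)
  choose L h2 h3 using fun i : Finset G => hcov (closure (i : Set G)) (hlf i) i.card
  let U : Ultrafilter (Finset G) := Ultrafilter.of atTop
  have hU : ∀ g : G, ∀ᶠ i in U, g ∈ closure ((i : Finset G) : Set G) := fun g =>
    (Ultrafilter.of_le atTop) ((eventually_ge_atTop ({g} : Finset G)).mono fun i hi =>
      subset_closure (hi (Finset.mem_singleton_self g)))
  have hb : ∀ b : ℕ, ∀ᶠ i in U, b ≤ (i : Finset G).card := fun b => by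
    obtain ⟨t, ht⟩ := Infinite.exists_subset_card_eq G b
    exact (Ultrafilter.of_le atTop) ((eventually_ge_atTop t).mono fun i hi =>
      ht ▸ Finset.card_le_card hi)
  have hL : ∀ g, ∀ᶠ i in U, g ∈ (L i).H := fun g => (hU g).mono fun i hi => h2 i hi
  have hmul : ∀ g h, ∀ᶠ i in U, (L i).r (g * h) = (L i).r g * (L i).r h := fun g h => by
    filter_upwards [hL g, hL h] with i a1 a2
    rw [(L i).r_eq a1, (L i).r_eq a2, (L i).r_eq (mul_mem a1 a2), ← map_mul]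
    rfl
  obtain ⟨W⟩ := PT.exists_world (U := U) p (fun i => (L i).r) hmul fun g hg b => by
    filter_upwards [hU g, hb b] with i a1 a2 A l hA
    exact a2.trans_lt (h3 i g a1 hg A l hA)
  obtain ⟨X, _, hX⟩ := hlf.exists_fin (Set.finite_singleton x)
  obtain ⟨u, a1, s, a2, a3, a4, rfl⟩ := PT.exists_pq (p := p) (g := x)
    ((X.subtype.isOfFinOrder (isOfFinOrder_of_finite (⟨x, hX rfl⟩ : X))))
  have hus : Commute u s := by
    obtain ⟨m, hm⟩ := a1
    obtain ⟨n, hn⟩ := a2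
    rw [← hm]
    nth_rewrite 2 [← hn]
    exact (Commute.refl _).zpow_zpow m n
  by_cases hc : ∃ F : Subgroup W.Γ, Finite F ∧ IsPGroup p F ∧
      PT.cdim W.k (fun f : F => W.ρ f) < Nat.card F
  · obtain ⟨F, _, b1, b2⟩ := hc
    exact W.case_two hL hD PT.primStmt PT.compStmt hK a3 a4 hus F b1 b2 d hx
  · exact W.case_one hL PT.primStmt PT.compStmt PT.caseOneStmt a3 a4 hus
      (fun F b1 b2 b3 => hc ⟨F, b1, b2, b3⟩) d hx

theorem fin_sup (hlf : Alt.LF G) (F F' : Subgroup G) [Finite F] [Finite F'] :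
    ∃ E : Subgroup G, Finite E ∧ F ≤ E ∧ F' ≤ E := by
  obtain ⟨E, h1, h2⟩ := hlf.exists_fin ((Set.toFinite (F : Set G)).union (Set.toFinite (F' : Set G)))
  exact ⟨E, h1, fun g hg => h2 (Or.inl hg), fun g hg => h2 (Or.inr hg)⟩

theorem LinN.mono {N N' : ℕ} {A B : Type} [Group A] [Group B] (h : LinN N B) (hN : N ≤ N')
    (μ : A →* B) (hμ : Function.Injective μ) : LinN N' A := by
  obtain ⟨K, _, n, ρ, h1, h2⟩ := h
  exact ⟨K, inferInstance, n, ρ.comp μ, h1.trans hN, h2.comp hμ⟩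

theorem CL.Inj.mono {L : CL G} {F F' : Subgroup G} (h : L.Inj F') (hF : F ≤ F') : L.Inj F :=
  ⟨hF.trans h.1, fun y hy => h.2 y (hF hy)⟩

theorem CL.Inj.inj {L : CL G} {F : Subgroup G} (h : L.Inj F) :
    Function.Injective (L.φ.comp (inclusion h.1)) :=
  (injective_iff_map_eq_one _).2 fun f hf =>
    inclusion_injective h.1 ((h.2 (inclusion h.1 f) f.2 hf).trans (map_one _).symm)

theorem PL.Deg.mono {P : PL G} {F F' : Subgroup G} {N N' : ℕ} (h : P.Deg F' N') (hF : F ≤ F')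
    (hN : N ≤ N') : P.Deg F N :=
  ⟨hF.trans h.1, fun y hy h1 A t e => hN.trans_lt (h.2 y (hF hy) h1 A t e)⟩

/-- Finite subgroups lie in derived groups of finite subgroups. -/
theorem exists_derived [Infinite G] [IsSimpleGroup G] (hlf : Alt.LF G) (F0 : Subgroup G)
    [Finite F0] : ∃ F : Subgroup G, Finite F ∧ F ≠ ⊥ ∧ F0 ≤ ⁅F, F⁆ := by
  have hc : commutator G = ⊤ := by
    rcases (inferInstance : (commutator G).Normal).eq_bot_or_eq_top with h | h
    · exfalso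
      obtain ⟨g, hg⟩ := exists_ne (1 : G)
      obtain ⟨X, _, hX⟩ := hlf.exists_fin (Set.finite_singleton g)
      have hn : X.Normal := ⟨fun a ha b => by
        have : ⁅b, a⁆ ∈ commutator G := commutator_mem_commutator (Subgroup.mem_top b) (Subgroup.mem_top a)
        rw [h, Subgroup.mem_bot, commutatorElement_eq_one_iff_commute] at this
        rwa [this.eq, mul_inv_cancel_right]⟩
      rcases hn.eq_bot_or_eq_top with h1 | h1
      · exact hg (Subgroup.mem_bot.1 (h1 ▸ hX rfl))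
      · have : Finite (⊤ : Subgroup G) := h1 ▸ inferInstance
        exact not_finite_iff_infinite.2 ‹Infinite G› (Finite.of_equiv _ topEquiv.toEquiv)
    · exact h
  have h1 : ∀ g : G, ∃ F : Subgroup G, Finite F ∧ g ∈ ⁅F, F⁆ := by
    intro g
    have hg : g ∈ commutator G := hc ▸ Subgroup.mem_top g
    rw [_root_.commutator_def, Subgroup.commutator_def] at hg
    induction hg using closure_induction with
    | mem y hy =>
      obtain ⟨a, -, b, -, rfl⟩ := hy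
      obtain ⟨F, h1, h2⟩ := hlf.exists_fin ((Set.finite_singleton b).insert a)
      exact ⟨F, h1, commutator_mem_commutator (h2 (by simp)) (h2 (by simp))⟩
    | one => exact ⟨⊥, inferInstance, one_mem _⟩
    | mul a b _ _ ha hb =>
      obtain ⟨F, _, h1⟩ := ha
      obtain ⟨F', _, h2⟩ := hb
      obtain ⟨E, h3, h4, h5⟩ := fin_sup hlf F F'
      exact ⟨E, h3, mul_mem (commutator_mono h4 h4 h1) (commutator_mono h5 h5 h2)⟩
    | inv a _ ha =>
      obtain ⟨F, h1, h2⟩ := ha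
      exact ⟨F, h1, inv_mem h2⟩
  choose A hA1 hA2 using h1
  obtain ⟨g, hg⟩ := exists_ne (1 : G)
  obtain ⟨F, h2, h3⟩ := hlf.exists_fin (((Set.toFinite (F0 : Set G)).biUnion
    fun f _ => (hA1 f : (A f : Set G).Finite)).insert g)
  refine ⟨F, h2, fun h => hg (Subgroup.mem_bot.1 (h ▸ h3 (Set.mem_insert _ _))), fun f hf => ?_⟩
  have h4 : A f ≤ F := fun y hy => h3 (Set.mem_insert_of_mem _ (Set.mem_biUnion hf hy))
  exact commutator_mono h4 h4 (hA2 f)

theorem of_pl (hLoc : LocStmt) (hAlv : AlvStmt) [Infinite G] (hlf : Alt.LF G) (Fa : Subgroup G)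
    [Finite Fa] (hFa : ∀ L : Alt.Lv G, SLv L → ¬ L.Deg Fa 1)
    (hP : ∀ F : Subgroup G, Finite F → ∀ N, ∃ P : PL G, P.Deg F N) (x : G) (d : ℕ) :
    ¬ Alt.NoChain x d := by
  classical
  obtain ⟨t, ht⟩ := Infinite.exists_subset_card_eq G 5
  obtain ⟨F, hF, h1⟩ := hlf.exists_fin ((Set.toFinite (Fa : Set G)).union t.finite_toSet)
  have h5 : 5 ≤ Nat.card F := by
    rw [← ht, ← Set.ncard_coe_finset]
    exact Set.ncard_le_ncard (fun y hy => h1 (Or.inr hy)) (Set.toFinite (F : Set G))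
  have hF1 : F ≠ ⊥ := fun h => by simp [h] at h5
  obtain ⟨N, hN⟩ := hLoc (Nat.card F)
  have key : ∀ (P1 P2 : PL G) (l : ℕ) [Fact l.Prime] [CharP P2.K l], P1.Deg F N →
      P2.Deg P1.H 0 → IsPGroup l (⁅P1.φ.ker, P1.R⁆ : Subgroup P1.H) := by
    intro P1 P2 l _ _ a1 a2
    by_contra a3
    obtain ⟨A, v, a4, a5⟩ := hN G P1 P2 F l hF1 le_rfl a1 a2 a3
    obtain ⟨L, a6, a7⟩ := hAlv G P2 F A v (a1.1.trans a2.1) h5 a4 a5
    exact hFa L a6 (a7.mono (fun y hy => h1 (Or.inl hy)) le_rfl)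
  obtain ⟨P0, hP0⟩ := hP F hF N
  obtain ⟨p, hp, hpd⟩ := Nat.exists_prime_and_dvd (mt card_eq_one.1 P0.nt)
  have := Fact.mk hp
  have chr : ∀ P : PL G, P.Deg P0.H 0 → CharP P.K p := by
    intro P a1
    obtain ⟨l, hl⟩ := CharP.exists P.K
    have := Fact.mk (CharP.char_is_prime P.K l)
    obtain ⟨n, hn⟩ := IsPGroup.iff_card.1 (key P0 P l hP0 a1)
    rw [hn] at hpd
    rwa [(Nat.prime_dvd_prime_iff_eq hp this.out).1 (hp.dvd_of_dvd_pow hpd)]
  refine nf (p := p) hlf (fun E hE b => ?_) x d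
  obtain ⟨E', a1, a2, a3⟩ := fin_sup hlf E P0.H
  obtain ⟨P1, b1⟩ := hP E' a1 (N + b)
  obtain ⟨P2, b2⟩ := hP P1.H inferInstance 0
  have c1 := chr P1 (b1.mono a3 (Nat.zero_le _))
  have c2 := chr P2 (b2.mono (a3.trans b1.1) le_rfl)
  have c3 := P1.hd.nrm
  refine ⟨{ H := P1.H, n := P1.n, K := P1.K, φ := P1.φ, R := P1.R, surj := P1.surj
            cen := key P1 P2 p (b1.mono (hP0.1.trans a3) (Nat.le_add_right _ _)) b2 },
    a2.trans b1.1, fun f hf hf1 A l e => ?_⟩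
  rw [PT.Lv.r_eq _ (b1.1 (a2 hf))] at e
  exact (Nat.le_add_left b N).trans_lt
    (b1.2 ⟨f, b1.1 (a2 hf)⟩ (a2 hf) (fun h => hf1 (congrArg Subtype.val h)) A l e)

theorem main (hAlt : AltStmt) (hFin : FinCStmt) (hLin : LinStmt) (hRes : ResStmt) (hLoc : LocStmt)
    (hAlv : AlvStmt) [IsSimpleGroup G] (hlf : Alt.LF G) (N : ℕ)
    (hcov : ∀ F : Subgroup G, Finite F → (∃ L : Alt.Lv G, SLv L ∧ L.Deg F 1) ∨
      (∃ L : CL G, L.Inj F) ∨ LinN N F) (x : G) (d : ℕ) (hx : Alt.NoChain x d) : Lin G := by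
  classical
  rcases finite_or_infinite G with hG | hG
  · exact hLin.2.1 G
  by_contra hnl
  obtain ⟨Fa, hFa, hFa'⟩ : ∃ F : Subgroup G, Finite F ∧ ∀ L : Alt.Lv G, SLv L → ¬ L.Deg F 1 := by
    by_contra h
    push Not at h
    exact hAlt G hlf h x d hx
  have hL : ∀ n, ∃ F : Subgroup G, Finite F ∧ ¬ LinN n F := fun n => by
    by_contra h
    push Not at h
    exact hnl (hLin.1 G n hlf h)
  have hC : ∀ F : Subgroup G, Finite F → ∀ n, ∃ L : CL G, L.Inj F ∧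
      n ≤ Module.finrank L.K L.V := by
    intro F hF n
    obtain ⟨F1, _, a1⟩ := hL (N + n * n)
    obtain ⟨E, _, a2, a3⟩ := fin_sup hlf F Fa
    obtain ⟨E', a4, a5, a6⟩ := fin_sup hlf E F1
    rcases hcov E' a4 with ⟨L, b1, b2⟩ | ⟨L, b1⟩ | b1
    · exact absurd (b2.mono (a3.trans a5) le_rfl) (hFa' L b1)
    · refine ⟨L, b1.mono (a2.trans a5), not_lt.1 fun h => a1 ?_⟩
      exact (hLin.2.2 G L).mono ((Nat.mul_le_mul h.le h.le).trans (Nat.le_add_left _ _)) _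
        (b1.mono a6).inj
    · exact absurd (b1.mono (Nat.le_add_right _ _) _ (inclusion_injective a6)) a1
  have hS : ∀ (f : G) (n : ℕ), f ≠ 1 → ∃ F : Subgroup G, Finite F ∧ ∃ m, ∀ L : CL G, L.Inj F →
      m ≤ Module.finrank L.K L.V → ¬ L.Small f n := fun f n hf => by
    by_contra h
    push Not at h
    exact hFin G hlf f n hf h x d hx
  refine of_pl hLoc hAlv hlf Fa hFa' (fun F0 hF0 n => ?_) x d hx
  obtain ⟨F, hF, a1, a2⟩ := exists_derived hlf F0
  obtain ⟨m, hm⟩ := hRes (Nat.card F) n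
  choose! A hA1 b hA2 using fun f => hS f m
  obtain ⟨E, a3, a4⟩ := hlf.exists_fin ((Set.toFinite (F : Set G)).union
    ((Set.toFinite {f ∈ (F : Set G) | f ≠ 1}).biUnion
      fun f hf => (hA1 f hf.2 : (A f : Set G).Finite)))
  obtain ⟨c, hc⟩ := ((Set.toFinite (F : Set G)).image b).bddAbove
  obtain ⟨L, a5, a6⟩ := hC E a3 c
  obtain ⟨P, hP⟩ := hm G L F a1 le_rfl ⟨fun y hy => a5.1 (a4 (Or.inl hy)), fun f hf hf1 =>
    hA2 f hf1 L (a5.mono fun y hy => a4 (Or.inr (Set.mem_biUnion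
      (show f ∈ {f ∈ (F : Set G) | f ≠ 1} from ⟨hf, hf1⟩) hy))) ((hc ⟨f, hf, rfl⟩).trans a6)⟩
  exact ⟨P, hP.mono a2 le_rfl⟩

end Pool.Agent.Lib.MP_679d9b_al.KG
end

-- part Pool.Agent.Lib.MP_679d9b_al.KG.Kegel
section

/-!
Covers of simple locally finite groups by finite groups with a simple quotient.
-/

set_option autoImplicit false

namespace Pool.Agent.Lib.MP_679d9b_al.KG

open Subgroup

variable {G : Type} [Group G]

theorem exists_simple_quot (N : Type) [Group N] [Finite N] [Nontrivial N] :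
    ∃ (X : Type) (_ : Group X) (_ : IsSimpleGroup X) (φ : N →* X), Function.Surjective φ := by
  obtain ⟨M, hM, hm⟩ := (Set.toFinite {M : Subgroup N | M.Normal ∧ M ≠ ⊤}).exists_maximal
    ⟨⊥, inferInstance, bot_ne_top⟩
  have := hM.1
  have : Nontrivial (N ⧸ M) := QuotientGroup.nontrivial_iff.2 hM.2
  refine ⟨N ⧸ M, inferInstance, ⟨fun J hJ => ?_⟩, QuotientGroup.mk' M,
    QuotientGroup.mk'_surjective M⟩
  have h1 : M ≤ J.comap (QuotientGroup.mk' M) := QuotientGroup.le_comap_mk' M J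
  rw [← map_comap_eq_self_of_surjective (QuotientGroup.mk'_surjective M) J]
  by_cases h : J.comap (QuotientGroup.mk' M) = ⊤
  · right
    rw [h, map_top_of_surjective _ (QuotientGroup.mk'_surjective M)]
  · left
    rw [Subgroup.map_eq_bot_iff, QuotientGroup.ker_mk']
    exact hm ⟨hJ.comap _, h⟩ h1

/-- Subgroups normalized by `E`. -/
def Nb (E N : Subgroup G) : Prop := ∀ x ∈ E, ∀ y ∈ N, x * y * x⁻¹ ∈ N

theorem absorb1 [IsSimpleGroup G] (hlf : Alt.LF G) {f : G} (hf : f ≠ 1) (g : G) :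
    ∃ E : Subgroup G, Finite E ∧ ∀ N : Subgroup G, Nb E N → f ∈ N → g ∈ N := by
  have h : normalClosure ({f} : Set G) = ⊤ :=
    (normalClosure_normal.eq_bot_or_eq_top).resolve_left fun h =>
      hf (Subgroup.mem_bot.1 (h ▸ subset_normalClosure rfl))
  have hg : g ∈ normalClosure ({f} : Set G) := h ▸ Subgroup.mem_top g
  rw [normalClosure] at hg
  induction hg using closure_induction with
  | mem y hy =>
    obtain ⟨a, rfl, hy'⟩ := Group.mem_conjugatesOfSet_iff.1 hy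
    obtain ⟨c, rfl⟩ := isConj_iff.1 hy'
    obtain ⟨E, h1, h2⟩ := hlf.exists_fin (Set.finite_singleton c)
    exact ⟨E, h1, fun N a1 a2 => a1 c (h2 rfl) _ a2⟩
  | one => exact ⟨⊥, inferInstance, fun N _ _ => one_mem _⟩
  | mul a b _ _ ha hb =>
    obtain ⟨E, _, h1⟩ := ha
    obtain ⟨E', _, h2⟩ := hb
    obtain ⟨D, h3, h4, h5⟩ := fin_sup hlf E E'
    exact ⟨D, h3, fun N a1 a2 => mul_mem (h1 N (fun x hx => a1 x (h4 hx)) a2)
      (h2 N (fun x hx => a1 x (h5 hx)) a2)⟩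
  | inv a _ ha =>
    obtain ⟨E, h1, h2⟩ := ha
    exact ⟨E, h1, fun N a1 a2 => inv_mem (h2 N a1 a2)⟩

theorem absorb [IsSimpleGroup G] (hlf : Alt.LF G) (F : Subgroup G) [Finite F] :
    ∃ E : Subgroup G, Finite E ∧ F ≤ E ∧
      ∀ N : Subgroup G, Nb E N → ∀ f ∈ F, f ≠ 1 → f ∈ N → F ≤ N := by
  choose A h1 h2 using fun (p : {f : F // f ≠ 1} × F) =>
    absorb1 hlf (f := (p.1.1 : G)) (fun h => p.1.2 (Subtype.ext h)) (p.2 : G)
  obtain ⟨E, h3, h4⟩ := hlf.exists_fin ((Set.toFinite (F : Set G)).union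
    (Set.finite_iUnion fun p => (h1 p : (A p : Set G).Finite)))
  refine ⟨E, h3, fun y hy => h4 (Or.inl hy), fun N a1 f a2 a3 a4 g hg => ?_⟩
  exact h2 (⟨⟨f, a2⟩, fun h => a3 (congrArg Subtype.val h)⟩, ⟨g, hg⟩) N
    (fun x hx => a1 x (h4 (Or.inr (Set.mem_iUnion_of_mem _ hx)))) a4

theorem kegel [IsSimpleGroup G] (hlf : Alt.LF G) (F : Subgroup G) [Finite F] (hF : F ≠ ⊥) :
    ∃ H : Subgroup G, Finite H ∧ F ≤ H ∧ ∃ (X : Type) (_ : Group X) (_ : IsSimpleGroup X)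
      (φ : H →* X), Function.Surjective φ ∧ ∀ h : H, (h : G) ∈ F → φ h = 1 → h = 1 := by
  obtain ⟨F1, _, a1, a2⟩ := absorb hlf F
  obtain ⟨F2, _, b1, b2⟩ := absorb hlf F1
  obtain ⟨N, n1, n2, n4⟩ : ∃ N : Subgroup G, F1 ≤ N ∧ Nb F2 N ∧
      ∀ M : Subgroup G, F1 ≤ M → Nb F2 M → N ≤ M :=
    ⟨sInf {N | F1 ≤ N ∧ Nb F2 N}, le_sInf fun _ h => h.1, fun x hx y hy =>
      Subgroup.mem_sInf.2 fun M h => h.2 x hx y (Subgroup.mem_sInf.1 hy M h),
      fun M h1 h2 => sInf_le ⟨h1, h2⟩⟩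
  have n3 : N ≤ F2 := n4 F2 b1 fun x hx y hy => mul_mem (mul_mem hx hy) (inv_mem hx)
  have hN : Finite N := Finite.of_injective _ (inclusion_injective n3)
  obtain ⟨f, hf, hf2⟩ := (bot_or_exists_ne_one F).resolve_left hF
  have : Nontrivial N := (nontrivial_iff_ne_bot N).2 fun h => hF (le_bot_iff.1 (h ▸ a1.trans n1))
  obtain ⟨X, _, _, φ, hφ⟩ := exists_simple_quot N
  obtain ⟨c, hc⟩ : ∃ c : F2 → N →* N, ∀ x y, (c x y : G) = x * y * (x : G)⁻¹ :=
    ⟨fun x => ((MulAut.conj (x : G)).toMonoidHom.comp N.subtype).codRestrict N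
      fun y => n2 x x.2 y y.2, fun _ _ => rfl⟩
  have hcs : ∀ x, Function.Surjective (c x) := fun x y =>
    ⟨⟨(x : G)⁻¹ * y * (x : G)⁻¹⁻¹, n2 _ (inv_mem x.2) y y.2⟩,
      Subtype.ext (by rw [hc]; simp [mul_assoc])⟩
  by_cases h0 : ∃ x, ∀ h : N, (h : G) ∈ F → φ.comp (c x) h = 1 → h = 1
  · obtain ⟨x, hx⟩ := h0
    exact ⟨N, hN, a1.trans n1, X, inferInstance, inferInstance, φ.comp (c x), hφ.comp (hcs x), hx⟩
  exfalso
  push Not at h0
  have k1 : ∀ x, F ≤ (φ.comp (c x)).ker.map N.subtype := fun x => by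
    obtain ⟨h, e1, e2, e3⟩ := h0 x
    refine a2 _ ?_ h e1 (fun e => e3 (Subtype.ext e)) ⟨h, e2, rfl⟩
    rintro z hz _ ⟨y, hy, rfl⟩
    exact ⟨⟨z, n1 hz⟩ * y * (⟨z, n1 hz⟩ : N)⁻¹, (MonoidHom.normal_ker _).conj_mem y hy _, rfl⟩
  have k2 : Nb F2 (⨅ x, (φ.comp (c x)).ker.map N.subtype) := fun z hz y hy => by
    rw [Subgroup.mem_iInf] at hy ⊢
    intro x
    obtain ⟨y', e1, rfl⟩ := hy (x * ⟨z, hz⟩)
    refine ⟨⟨z * y' * z⁻¹, n2 z hz _ y'.2⟩, ?_, rfl⟩
    have e2 : c x ⟨z * y' * z⁻¹, n2 z hz _ y'.2⟩ = c (x * ⟨z, hz⟩) y' :=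
      Subtype.ext (by rw [hc, hc]; simp [mul_assoc])
    change φ (c x _) = 1
    rw [e2]
    exact e1
  have k3 := n4 _ (b2 _ k2 f (a1 hf) hf2 (Subgroup.mem_iInf.2 fun x => k1 x hf)) k2
  obtain ⟨y, hy⟩ := exists_ne (1 : X)
  obtain ⟨z, rfl⟩ := (hφ.comp (hcs 1)) y
  obtain ⟨z', e1, e2⟩ := Subgroup.mem_iInf.1 (k3 z.2) 1
  obtain rfl : z' = z := Subtype.ext e2
  exact hy e1

end Pool.Agent.Lib.MP_679d9b_al.KG
end

-- part Pool.Agent.Lib.MP_679d9b_al.KG.Mds
section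

/-!
Elements of a classical group of large degree move many points.
-/

set_option autoImplicit false

namespace Pool.Agent.Lib.MP_679d9b_al.KG

open Subgroup Matrix Equiv
open Matrix.SpecialLinearGroup (transvection)
open scoped commutatorElement
open PT (SL PSL PEl QEl)

namespace Mds

/-- A length function on the elements of a group. -/
structure Len {X : Type} [Group X] (P : ℕ → X → Prop) : Prop where
  mul : ∀ {n m x y}, P n x → P m y → P (n + m) (x * y)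
  inv : ∀ {n x}, P n x → P n x⁻¹
  conj : ∀ {n x} (g : X), P n x → P n (g * x * g⁻¹)
  mono : ∀ {n m x}, P n x → n ≤ m → P m x

variable {X : Type} [Group X] {P : ℕ → X → Prop}

theorem Len.left (h : Len P) {n : ℕ} {x : X} (hx : P n x) (g : X) : P (2 * n) ⁅x, g⁆ := by
  have := h.mul hx (h.conj g (h.inv hx))
  rwa [← two_mul, ← mul_assoc, ← mul_assoc] at this

theorem Len.right (h : Len P) {n : ℕ} {x : X} (hx : P n x) (g : X) : P (2 * n) ⁅g, x⁆ := by
  have := h.mul (h.conj g hx) (h.inv hx)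
  rwa [← two_mul] at this

theorem Len.lift {H : Type} [Group H] (φ : H →* X) (hφ : Function.Surjective φ) {Q : ℕ → H → Prop}
    (h : Len Q) : Len fun n x => ∃ y, φ y = x ∧ Q n y where
  mul := fun ⟨a, a1, a2⟩ ⟨b, b1, b2⟩ => ⟨a * b, by rw [map_mul, a1, b1], h.mul a2 b2⟩
  inv := fun ⟨a, a1, a2⟩ => ⟨a⁻¹, by rw [map_inv, a1], h.inv a2⟩
  conj := fun g ⟨a, a1, a2⟩ => by
    obtain ⟨b, rfl⟩ := hφ g
    exact ⟨b * a * b⁻¹, by rw [map_mul, map_mul, map_inv, a1], h.conj b a2⟩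
  mono := fun ⟨a, a1, a2⟩ e => ⟨a, a1, h.mono a2 e⟩

theorem Len.tv {ι K : Type} [Fintype ι] [DecidableEq ι] [Field K] (h : Len P) (η : SL ι K →* X)
    (h5 : 5 ≤ Fintype.card ι) {n : ℕ} {s E E' : X} {i j : ι} {hij : i ≠ j} (hs : P n s)
    (e : η (transvection hij 1) = ⁅⁅s, E⁆, E'⁆) {a b : ι} (hab : a ≠ b) :
    P (32 * n) (η (transvection hab 1)) := by
  obtain ⟨c, hc⟩ : ∃ c, c ∉ ({i, j, a, b} : Finset ι) := by
    by_contra hc
    push Not at hc
    have := (Finset.card_le_card fun c (_ : c ∈ Finset.univ) => hc c).trans Finset.card_le_four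
    rw [Finset.card_univ] at this
    omega
  simp only [Finset.mem_insert, Finset.mem_singleton, not_or] at hc
  obtain ⟨c1, c2, c3, c4⟩ := hc
  have h1 := (h.left (h.left hs E) E')
  rw [← e] at h1
  have h2 := h.left h1 (η (transvection (Ne.symm c2) 1))
  rw [← map_commutatorElement, PT.SLn.comm_eq hij (Ne.symm c2) (Ne.symm c1)] at h2
  have h3 : P (2 * (2 * (2 * (2 * n)))) (η (transvection (Ne.symm c3) 1)) := by
    by_cases hai : a = i
    · subst hai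
      exact h.mono h2 (by omega)
    · have := h.right h2 (η (transvection hai 1))
      rwa [← map_commutatorElement, PT.SLn.comm_eq hai (Ne.symm c1) (Ne.symm c3)] at this
  have h4 := h.left h3 (η (transvection c4 1))
  rw [← map_commutatorElement, PT.SLn.comm_eq (Ne.symm c3) c4 hab] at h4
  exact h.mono h4 (by omega)

theorem len_moved {H Y : Type} [Group H] [Finite Y] [MulAction H Y] :
    Len fun n (g : H) => {y : Y | g • y ≠ y}.ncard ≤ n where
  mul := fun {n m a b} ha hb => by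
    refine (Set.ncard_le_ncard (fun y hy => ?_) (Set.toFinite _)).trans
      ((Set.ncard_union_le _ _).trans (add_le_add ha hb))
    by_contra h
    simp only [Set.mem_union, Set.mem_ofPred_eq, not_or, not_not] at h
    exact hy (by rw [mul_smul, h.2, h.1])
  inv := fun {n a} ha => by
    refine le_trans (Set.ncard_le_ncard ?_ (Set.toFinite _)) ha
    exact fun y hy h => hy (inv_smul_eq_iff.2 h.symm)
  conj := fun {n a} g ha => by
    refine le_trans (Set.ncard_le_ncard_of_injOn (fun y => g⁻¹ • y) ?_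
      (MulAction.injective g⁻¹).injOn (Set.toFinite _)) ha
    intro y hy h
    exact hy (by rw [mul_smul, mul_smul, h, smul_inv_smul])
  mono := fun h e => h.trans e

theorem exists_big (C : ℕ) : ∃ m, 2 ≤ m ∧ (m * C) ^ (m * C) < 2 ^ (m * m) := by
  have h1 : 3 * C + 1 < 2 ^ (3 * C + 1) := Nat.lt_two_pow_self
  have h2 : (3 * C + 1 + (3 * C + 1) + C) * C + 2 ≤ 2 ^ (3 * C + 1 + (3 * C + 1)) := by
    rw [pow_add]
    nlinarith
  generalize 3 * C + 1 + (3 * C + 1) = t at h2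
  refine ⟨2 ^ t, by omega, ?_⟩
  have h3 : 2 ^ t * C ≤ 2 ^ (t + C) := by
    rw [pow_add]
    exact Nat.mul_le_mul_left _ Nat.lt_two_pow_self.le
  refine (Nat.pow_le_pow_left h3 _).trans_lt ?_
  rw [← pow_mul]
  refine Nat.pow_lt_pow_right one_lt_two ?_
  rw [mul_left_comm]
  exact Nat.mul_lt_mul_of_pos_left (by omega) (by positivity)

theorem exists_prod {ι κ K : Type} [Fintype ι] [DecidableEq ι] [Field K] (a b : κ → ι)
    (hab : ∀ i j, a i ≠ b j) (T : Subgroup (SL ι K)) (hT : ∀ i j, transvection (hab i j) 1 ∈ T)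
    (s : Finset (κ × κ)) : ∃ A ∈ T, A.1 = 1 + ∑ p ∈ s, single (a p.1) (b p.2) (1 : K) := by
  classical
  induction s using Finset.induction_on with
  | empty => exact ⟨1, one_mem _, by simp⟩
  | insert p s hp ih =>
    obtain ⟨A, h1, h2⟩ := ih
    refine ⟨_, mul_mem (hT p.1 p.2) h1, ?_⟩
    have h3 : single (a p.1) (b p.2) (1 : K) * ∑ q ∈ s, single (a q.1) (b q.2) (1 : K) = 0 := by
      rw [Finset.mul_sum]
      exact Finset.sum_eq_zero fun q _ => single_mul_single_of_ne _ _ _ _ (hab q.1 p.2).symm _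
    rw [PT.SLn.mul_val, PT.SLn.tv_val, h2, Finset.sum_insert hp, add_mul, one_mul, mul_add,
      mul_one, h3]
    abel

end Mds

open Mds in
theorem mdsStmt : MdsStmt := by
  classical
  intro L
  obtain ⟨m, hm, hm'⟩ := exists_big (2 * (32 * L))
  refine ⟨m + m, fun M H X _ _ _ φ R s Ψ hM hd hφ ⟨K, _, η, h1, _, E, E', i, j, hij, e⟩ Y _ _
    ⟨r, hr, y, hy⟩ => ?_⟩
  by_contra hs
  have hk : (MulAction.toPermHom H Y).ker ≤ φ.ker :=
    hd.le_ker inferInstance fun h => hy (congrArg (fun τ : Perm Y => τ y) (h hr :))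
  have hP := fun {a b} (hab : a ≠ b) => ((len_moved (Y := Y)).lift φ hφ).tv η
    (by simp; omega) ⟨s, rfl, not_lt.1 hs⟩ e hab
  obtain ⟨f⟩ : Nonempty (Fin m ⊕ Fin m ↪ Fin M) :=
    Function.Embedding.nonempty_of_card_le (by simpa using hM)
  choose u hu hu' using fun i => hP (Sum.inr_ne_inl (a := 0) (b := f (.inl i)))
  choose w hw hw' using fun i => hP (Sum.inl_ne_inr (a := 0) (b := f (.inr i)))
  let S : Set Y := ⋃ i, {y | u i • y ≠ y} ∪ {y | w i • y ≠ y}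
  have hS : S.ncard ≤ m * (2 * (32 * L)) := by
    refine (Set.ncard_iUnion_le_of_fintype _).trans ((Finset.sum_le_card_nsmul _ _ _ fun i _ =>
      (Set.ncard_union_le _ _).trans (add_le_add (hu' i) (hw' i))).trans ?_)
    simp [two_mul]
  let Γ := fixingSubgroup H Sᶜ
  have hΓ : ∀ {g}, g ∈ Γ ↔ ∀ y, y ∉ S → g • y = y := mem_fixingSubgroup_iff H
  have hab : ∀ i j, (Sum.inr (f (.inl i)) : Fin 2 ⊕ Fin M) ≠ Sum.inr (f (.inr j)) := by simp
  choose A hA hA' using exists_prod (K := K) _ _ hab ((Γ.map φ).comap η) fun i j => by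
    rw [← PT.SLn.comm_eq (Sum.inr_ne_inl (a := 0)) Sum.inl_ne_inr (hab i j), mem_comap,
      map_commutatorElement, ← hu, ← hw, ← map_commutatorElement]
    have a1 : u i ∈ Γ := hΓ.2 fun y hy => by_contra fun h => hy (Set.mem_iUnion_of_mem i (.inl h))
    have a2 : w j ∈ Γ := hΓ.2 fun y hy => by_contra fun h => hy (Set.mem_iUnion_of_mem j (.inr h))
    exact mem_map_of_mem _ (mul_mem (mul_mem (mul_mem a1 a2) (inv_mem a1)) (inv_mem a2))
  choose g hg hg' using hA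
  have hmap : ∀ t, ∀ y ∈ S, g t • y ∈ S := fun t y hy => by_contra fun h =>
    h (by rwa [(smul_left_cancel_iff (g t)).1 (hΓ.1 (hg t) _ h)])
  have hinj : Function.Injective fun t (y : S) => (⟨g t • y, hmap t y y.2⟩ : S) := by
    intro t t' h
    have a1 : (g t)⁻¹ * g t' ∈ (MulAction.toPermHom H Y).ker := Equiv.ext fun y => by
      change ((g t)⁻¹ * g t') • y = y
      rw [mul_smul, inv_smul_eq_iff]
      by_cases hy : y ∈ S
      · exact (congrArg Subtype.val (congrFun h ⟨y, hy⟩)).symm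
      · rw [hΓ.1 (hg t) y hy, hΓ.1 (hg t') y hy]
    have a2 := hk a1
    rw [MonoidHom.mem_ker, map_mul, map_inv, inv_mul_eq_one, hg', hg'] at a2
    have a3 := congrArg Subtype.val (h1 a2)
    rw [hA', hA', add_right_inj] at a3
    ext p
    have a4 := congrFun (congrFun a3 (.inr (f (.inl p.1)))) (.inr (f (.inr p.2)))
    simp only [Matrix.sum_apply, single_apply, Sum.inr.injEq, EmbeddingLike.apply_eq_iff_eq,
      Sum.inl.injEq, ← Prod.ext_iff, Finset.sum_ite_eq'] at a4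
    by_cases b1 : p ∈ t <;> by_cases b2 : p ∈ t' <;> simp_all
  have := Nat.card_le_card_of_injective _ hinj
  rw [Nat.card_fun, Nat.card_eq_fintype_card, Fintype.card_finset, Fintype.card_prod,
    Fintype.card_fin, Nat.card_coe_set_eq] at this
  rcases Nat.eq_zero_or_pos (m * (2 * (32 * L))) with h0 | h0
  · rw [h0] at hS hm'
    rw [Nat.le_zero.1 hS] at this
    omega
  · exact absurd (this.trans ((Nat.pow_le_pow_left hS _).trans (Nat.pow_le_pow_right h0 hS)))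
      (not_le.2 hm')

end Pool.Agent.Lib.MP_679d9b_al.KG
end

-- part Pool.Agent.Lib.MP_679d9b_al.KG.FinC
section

/-!
Finitary classical type.
-/

set_option autoImplicit false

namespace Pool.Agent.Lib.MP_679d9b_al.KG

open Subgroup
open scoped commutatorElement
open PT (SL PSL PEl QEl)

namespace FinC

section Lin
variable {K V : Type} [Field K] [AddCommGroup V] [Module K V]

theorem scal_comm {c : V ≃ₗ[K] V} (h : Scal c) (g : V ≃ₗ[K] V) : Commute c g := by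
  obtain ⟨a, ha⟩ := h
  exact LinearEquiv.ext fun v => by simp [ha]

theorem comm_scal {c : V ≃ₗ[K] V} (h : Scal c) (y g : V ≃ₗ[K] V) : ⁅y * c, g⁆ = ⁅y, g⁆ := by
  rw [commutatorElement_def, commutatorElement_def, mul_assoc y, (scal_comm h g).eq]
  group

variable [FiniteDimensional K V]

theorem rk_coe (y : V ≃ₗ[K] V) : rk (y : Module.End K V) = Module.finrank K V :=
  rk_map LinearEquiv.automorphismGroup.toLinearMapMonoidHom y

theorem len_scal : Mds.Len fun n (y : V ≃ₗ[K] V) =>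
    ∃ t : K, rk ((y : Module.End K V) - t • 1) ≤ n where
  mul := fun {_ _ a b} ⟨s, hs⟩ ⟨t, ht⟩ =>
    ⟨s * t, (rk_mul_sub (a : Module.End K V) b s t).trans (add_le_add hs ht)⟩
  inv := fun {_ a} ⟨t, ht⟩ => ⟨t⁻¹, by
    rcases eq_or_ne t 0 with rfl | h
    · rw [zero_smul, sub_zero, rk_coe] at ht
      exact (rk_le _).trans ht
    · refine le_trans (le_of_eq (congrArg rk ?_)) ((rk_smul_le (-t⁻¹) _).trans
        ((rk_mul_le_right ((a⁻¹ : V ≃ₗ[K] V) : Module.End K V) _).trans ht))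
      ext v
      simp [smul_smul, inv_mul_cancel₀ h, sub_eq_neg_add]⟩
  conj := fun {_ a} g ⟨t, ht⟩ =>
    ⟨t, (rk_map_conj LinearEquiv.automorphismGroup.toLinearMapMonoidHom a g t).trans_le ht⟩
  mono := fun ⟨t, ht⟩ e => ⟨t, ht.trans e⟩

end Lin

variable {G : Type} [Group G]

/-- Elements of the simple quotient which are close to scalars. -/
def Q (L : CL G) (n : ℕ) (x : L.X) : Prop :=
  ∃ y, L.π y = x ∧ ∃ t : L.K, rk (((y : L.V ≃ₗ[L.K] L.V) : Module.End L.K L.V) - t • 1) ≤ n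

theorem len_Q (L : CL G) : Mds.Len (Q L) :=
  Mds.Len.lift L.π L.πs ⟨len_scal.mul, len_scal.inv, fun g => len_scal.conj g.1, len_scal.mono⟩

theorem sm_iff {L : CL G} {g : G} {n : ℕ} (h : g ∈ L.H) : L.Small g n ↔ Q L n (L.φ ⟨g, h⟩) :=
  ⟨fun ⟨_, y, t, a, b⟩ => ⟨y, a, t, b⟩, fun ⟨y, a, t, b⟩ => ⟨h, y, t, a, b⟩⟩

/-- Lifts up to scalars. -/
def Lf (L : CL G) (x : L.X) (z : L.V ≃ₗ[L.K] L.V) : Prop :=
  ∃ y c, L.π y = x ∧ Scal c ∧ z = y.1 * c

theorem norm_lift {L : CL G} {n : ℕ} {x : L.X} (h : Q L n x) (hn : n < Module.finrank L.K L.V) :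
    ∃ z, Lf L x z ∧ rk ((z : Module.End L.K L.V) - 1) ≤ n := by
  obtain ⟨y, a, t, b⟩ := h
  have ht : t ≠ 0 := by
    rintro rfl
    rw [zero_smul, sub_zero, rk_coe] at b
    omega
  refine ⟨_, ⟨y, LinearEquiv.smulOfNeZero _ _ t⁻¹ (inv_ne_zero ht), a, ⟨t⁻¹, fun _ => rfl⟩, rfl⟩,
    le_trans (le_of_eq (congrArg rk ?_)) ((rk_smul_le t⁻¹ _).trans b)⟩
  ext v
  simp [smul_sub, smul_smul, inv_mul_cancel₀ ht]

theorem Lf.mul_eq {L : CL G} {n : ℕ} {x x' : L.X} {z z' w : L.V ≃ₗ[L.K] L.V} (h : Lf L x z)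
    (h' : Lf L x' z') (hw : Lf L (x * x') w) (r : rk ((z : Module.End L.K L.V) - 1) ≤ n)
    (r' : rk ((z' : Module.End L.K L.V) - 1) ≤ n) (r2 : rk ((w : Module.End L.K L.V) - 1) ≤ n)
    (hn : 3 * n < Module.finrank L.K L.V) : w = z * z' := by
  obtain ⟨y, c, rfl, c1, rfl⟩ := h
  obtain ⟨y', c', rfl, ⟨a', c2⟩, rfl⟩ := h'
  obtain ⟨u, b, e, ⟨b', c3⟩, rfl⟩ := hw
  obtain ⟨a, c1⟩ := c1
  obtain ⟨t, ht⟩ := (L.πk ((y * y')⁻¹ * u)).1 (by rw [map_mul, map_inv, e, map_mul, inv_mul_cancel])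
  let ρ : (L.V ≃ₗ[L.K] L.V) →* Module.End L.K L.V :=
    LinearEquiv.automorphismGroup.toLinearMapMonoidHom
  obtain ⟨p, hp⟩ : ∃ p : L.V ≃ₗ[L.K] L.V, p = (y.1 * c * (y'.1 * c'))⁻¹ * (u.1 * b) := ⟨_, rfl⟩
  have h1 : rk (ρ p - 1) ≤ 3 * n := by
    have a1 := rk_map_mul ρ (y.1 * c) (y'.1 * c')
    have a2 := rk_map_mul ρ (y.1 * c * (y'.1 * c'))⁻¹ (u.1 * b)
    rw [rk_map_inv, ← hp] at a2
    have : rk (ρ (y.1 * c) - 1) ≤ n := r
    have : rk (ρ (y'.1 * c') - 1) ≤ n := r'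
    have : rk (ρ (u.1 * b) - 1) ≤ n := r2
    omega
  have h2 : ∀ v, (a * a') • p v = (b' * t) • v := fun v => by
    apply (y * y').1.injective
    have a1 : (y.1 * c * (y'.1 * c')) (p v) = (u.1 * b) v := by
      rw [← LinearEquiv.mul_apply, hp, mul_inv_cancel_left]
    have a2 : u.1 v = (y * y').1 (t • v) := by
      rw [← ht, ← LinearEquiv.mul_apply, ← coe_mul, mul_inv_cancel_left]
    simp only [LinearEquiv.mul_apply, c1, c2, c3, map_smul, a2, coe_mul, smul_smul] at a1 ⊢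
    rw [← a1, mul_comm]
  have h3 : LinearMap.ker (ρ p - 1) ≠ ⊥ := fun h => by
    have := LinearMap.finrank_range_add_finrank_ker (ρ p - 1)
    rw [h, finrank_bot] at this
    unfold rk at h1
    omega
  obtain ⟨v, v1, v2⟩ := Submodule.exists_mem_ne_zero_of_ne_bot h3
  have v3 : p v = v := sub_eq_zero.1 v1
  have h4 : a * a' = b' * t := smul_left_injective _ v2 (by simpa only [v3] using h2 v)
  have h5 : a * a' ≠ 0 := mul_ne_zero
    (fun h => v2 (c.injective (by rw [c1, h, zero_smul, map_zero])))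
    (fun h => v2 (c'.injective (by rw [c2, h, zero_smul, map_zero])))
  have h6 : p = 1 := LinearEquiv.ext fun v => smul_right_injective _ h5 ((h2 v).trans (h4 ▸ rfl))
  rw [h6] at hp
  exact (inv_mul_eq_one.1 hp.symm).symm

theorem Lf.ne_one {L : CL G} {x : L.X} {z : L.V ≃ₗ[L.K] L.V} (h : Lf L x z) (hx : x ≠ 1) :
    z ≠ 1 := by
  obtain ⟨y, c, rfl, ⟨a, c1⟩, rfl⟩ := h
  refine fun e => hx ((L.πk y).2 ⟨a⁻¹, fun v => ?_⟩)
  have h1 : ∀ v, a • (y : L.V ≃ₗ[L.K] L.V) v = v := fun v => by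
    simpa [c1] using congrArg (fun g : L.V ≃ₗ[L.K] L.V => g v) e
  rcases eq_or_ne a 0 with rfl | ha
  · rw [← h1 v, zero_smul, map_zero, smul_zero]
  · rw [eq_inv_smul_iff₀ ha, h1]

theorem geo (hG : GeoFStmt) (c N M : ℕ) (hM : 1 ≤ M) : ∃ n, ∀ (L : CL G) (Ψ : Finset L.X)
    (s : L.X), n ≤ Module.finrank L.K L.V → Ψ.card ≤ c → s ≠ 1 → Q L N s → (∀ y ∈ Ψ, Q L N y) →
    GeoX Ψ s M := by
  classical
  obtain ⟨n, hn⟩ := hG (c + 1) N M
  refine ⟨n + N + 1, fun L Ψ s h1 h2 h3 h4 h5 => ?_⟩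
  choose! z z1 z2 using fun (x : L.X) (h : Q L N x) => norm_lift h (by omega)
  obtain ⟨η, a1, a2, a3, E, a4, E', a5, i, j, hij, a6⟩ := hn L.K L.V L.I ((insert s Ψ).image z)
    (z s) L.cl hM (by omega) (Finset.card_image_le.trans ((Finset.card_insert_le _ _).trans
      (by omega))) (Finset.mem_image_of_mem _ (Finset.mem_insert_self _ _)) ((z1 s h4).ne_one h3)
    (by
      intro y hy
      obtain ⟨x, hx, rfl⟩ := Finset.mem_image.1 hy
      have hx' : Q L N x := (Finset.mem_insert.1 hx).elim (fun e => e ▸ h4) (h5 x)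
      obtain ⟨y, c, -, ⟨a, b2⟩, b3⟩ := z1 x hx'
      exact ⟨⟨y, commutator_le_self _ y.2, a, fun v => by simp [b3, b2]⟩, z2 x hx'⟩)
  refine ⟨L.K, inferInstance, L.π.comp (η.codRestrict _ a1),
    (injective_iff_map_eq_one _).2 fun A h => a2 A ((L.πk _).1 h), fun x hx A => ?_,
    L.π ⟨E, a4⟩, L.π ⟨E', a5⟩, i, j, hij, ?_⟩
  · obtain ⟨y, c, rfl, b2, b3⟩ := z1 x (h5 x hx)
    have := a3 _ (Finset.mem_image_of_mem z (Finset.mem_insert_of_mem hx)) A
    rw [← commutatorElement_eq_one_iff_commute, b3, comm_scal b2,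
      commutatorElement_eq_one_iff_commute] at this
    exact Commute.map (Subtype.ext this.eq) L.π
  · obtain ⟨y, c, rfl, b2, b3⟩ := z1 s h4
    rw [b3, comm_scal b2] at a6
    rw [← map_commutatorElement, ← map_commutatorElement]
    exact congrArg L.π (Subtype.ext a6)

theorem spread [IsSimpleGroup G] (hlf : Alt.LF G) {f : G} (hf : f ≠ 1) (N : ℕ) (g : G) :
    ∃ (E : Subgroup G) (n : ℕ), Finite E ∧ g ∈ E ∧ ∀ L : CL G, E ≤ L.H → L.Small f N →
      L.Small g n := by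
  have h : normalClosure ({f} : Set G) = ⊤ :=
    (normalClosure_normal.eq_bot_or_eq_top).resolve_left fun h =>
      hf (Subgroup.mem_bot.1 (h ▸ subset_normalClosure rfl))
  have hg : g ∈ normalClosure ({f} : Set G) := h ▸ Subgroup.mem_top g
  rw [normalClosure] at hg
  induction hg using closure_induction with
  | mem y hy =>
    obtain ⟨a, rfl, hy'⟩ := Group.mem_conjugatesOfSet_iff.1 hy
    obtain ⟨c, rfl⟩ := isConj_iff.1 hy'
    obtain ⟨E, h1, h2⟩ := hlf.exists_fin ((Set.finite_singleton c).insert a)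
    have a1 : a ∈ E := h2 (by simp)
    have a2 : c ∈ E := h2 (by simp)
    have a3 := mul_mem (mul_mem a2 a1) (inv_mem a2)
    refine ⟨E, N, h1, a3, fun L b1 b2 => (sm_iff (b1 a3)).2 ?_⟩
    have := (len_Q L).conj (L.φ ⟨c, b1 a2⟩) ((sm_iff (b1 a1)).1 b2)
    rwa [← map_inv, ← map_mul, ← map_mul] at this
  | one =>
    refine ⟨⊥, 0, inferInstance, one_mem _, fun L _ _ => ⟨one_mem _, 1, 1, ?_, ?_⟩⟩
    · exact (map_one _).trans (map_one _).symm
    · exact le_of_eq (rk_eq_zero.2 (by ext; simp))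
  | mul a b _ _ ha hb =>
    obtain ⟨E, n, _, h1, h1'⟩ := ha
    obtain ⟨E', n', _, h2, h2'⟩ := hb
    obtain ⟨D, h3, h4, h5⟩ := fin_sup hlf E E'
    have a3 := mul_mem (h4 h1) (h5 h2)
    refine ⟨D, n + n', h3, a3, fun L b1 b2 => (sm_iff (b1 a3)).2 ?_⟩
    have := (len_Q L).mul ((sm_iff (b1 (h4 h1))).1 (h1' L (h4.trans b1) b2))
      ((sm_iff (b1 (h5 h2))).1 (h2' L (h5.trans b1) b2))
    rwa [← map_mul] at this
  | inv a _ ha =>
    obtain ⟨E, n, h0, h1, h2⟩ := ha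
    refine ⟨E, n, h0, inv_mem h1, fun L b1 b2 => (sm_iff (b1 (inv_mem h1))).2 ?_⟩
    have := (len_Q L).inv ((sm_iff (b1 h1)).1 (h2 L b1 b2))
    rwa [← map_inv] at this

/-- Levels on which `f` is small and `s` has order prime to the characteristic are cofinal. -/
def Cof (f s : G) (N : ℕ) : Prop :=
  ∀ F : Subgroup G, Finite F → ∀ n, ∃ L : CL G, L.Inj F ∧ n ≤ Module.finrank L.K L.V ∧
    L.Small f N ∧ ∃ l : ℕ, l.Prime ∧ CharP L.K l ∧ QEl l s

theorem prime_el {g : G} (h : IsOfFinOrder g) (h1 : g ≠ 1) :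
    ∃ p : ℕ, p.Prime ∧ p ∣ orderOf g ∧ ∃ s : G, s ≠ 1 ∧ s ^ p = 1 := by
  obtain ⟨p, hp, hd⟩ := Nat.exists_prime_and_dvd (mt orderOf_eq_one_iff.1 h1)
  have := orderOf_pow_orderOf_div h.orderOf_pos.ne' hd
  exact ⟨p, hp, hd, _, fun e => hp.ne_one (by rw [← this, e, orderOf_one]),
    this ▸ pow_orderOf_eq_one _⟩

theorem exists_cof [Infinite G] [IsSimpleGroup G] (hlf : Alt.LF G) {f : G} {N : ℕ}
    (h : ∀ F : Subgroup G, Finite F → ∀ n, ∃ L : CL G, L.Inj F ∧ n ≤ Module.finrank L.K L.V ∧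
      L.Small f N) : ∃ s, s ≠ 1 ∧ Cof f s N := by
  obtain ⟨g, hg⟩ := exists_ne (1 : G)
  obtain ⟨F1, _, a0⟩ := hlf.exists_fin (Set.finite_singleton g)
  obtain ⟨F2, _, -, a1⟩ := exists_derived hlf F1
  obtain ⟨p, hp, -, s, s1, s2⟩ := prime_el
    (F1.subtype.isOfFinOrder (isOfFinOrder_of_finite (⟨g, a0 rfl⟩ : F1))) hg
  have := Fact.mk hp
  obtain ⟨L, b1, -⟩ := h F2 inferInstance 0
  have : Finite L.X := Finite.of_surjective _ L.φs
  have b2 : ⁅(⊤ : Subgroup L.X), ⊤⁆ = ⊤ :=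
    (inferInstance : (commutator L.X).Normal).eq_bot_or_eq_top.resolve_left fun e => by
      have : ⁅F2, F2⁆ ≤ ⊥ := commutator_le.2 fun a ha b hb => by
        have c1 : ⁅L.φ ⟨a, b1.1 ha⟩, L.φ ⟨b, b1.1 hb⟩⁆ ∈ commutator L.X :=
          commutator_mem_commutator trivial trivial
        rw [e, Subgroup.mem_bot, ← map_commutatorElement] at c1
        exact congrArg Subtype.val (b1.2 _
          (mul_mem (mul_mem (mul_mem ha hb) (inv_mem ha)) (inv_mem hb)) c1)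
      exact hg (this (a1 (a0 rfl)))
  obtain ⟨y, y1, y2⟩ : ∃ y : L.X, QEl p y ∧ y ≠ 1 := by
    by_contra c
    push Not at c
    exact top_ne_bot (le_bot_iff.1 (PT.le_of_qel (p := p) (S := ⊥) b2 fun y _ hy => c y hy))
  obtain ⟨z, rfl⟩ := L.φs y
  obtain ⟨w, -, ⟨m, w1, w2⟩, w3⟩ := PT.qel_lift L.φ (isOfFinOrder_of_finite z) y1
  obtain ⟨p', hp', d', s', s1', s2'⟩ := prime_el
    (L.H.subtype.isOfFinOrder (isOfFinOrder_of_finite w))
    fun e => y2 (by rw [← w3, show w = 1 from Subtype.ext e, map_one])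
  have hne : p' ≠ p := by
    rintro rfl
    rw [orderOf_injective _ L.H.subtype_injective] at d'
    exact hp.ne_one (Nat.eq_one_of_dvd_coprimes w1 (d'.trans (orderOf_dvd_of_pow_eq_one w2)) dvd_rfl)
  by_contra c
  push Not at c
  have c1 := c s s1
  have c2 := c s' s1'
  unfold Cof at c1 c2
  push Not at c1 c2
  obtain ⟨E, _, n, c1⟩ := c1
  obtain ⟨E', _, n', c2⟩ := c2
  obtain ⟨D, d1, d2, d3⟩ := fin_sup hlf E E'
  obtain ⟨L', e1, e2, e3⟩ := h D d1 (n + n')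
  obtain ⟨l, hl⟩ := CharP.exists L'.K
  have hl' := CharP.char_is_prime L'.K l
  by_cases e : l = p
  · exact c2 L' (e1.mono d3) (by omega) e3 l hl' hl
      ⟨p', (Nat.coprime_primes hp' hl').2 (e ▸ hne), s2'⟩
  · exact c1 L' (e1.mono d2) (by omega) e3 l hl' hl
      ⟨p, (Nat.coprime_primes hp hl').2 (Ne.symm e), s2⟩

/-- Representations in which `s` has small rank. -/
def Rp (F : Subgroup G) (s : F) (n : ℕ) : Prop :=
  ∃ (l : ℕ) (_ : Fact l.Prime) (K W : Type) (_ : Field K) (_ : CharP K l) (_ : AddCommGroup W)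
    (_ : Module K W) (_ : FiniteDimensional K W) (σ : F →* Module.End K W),
    QEl l s ∧ σ s ≠ 1 ∧ rk (σ s - 1) ≤ n

theorem exists_sys [IsSimpleGroup G] (hlf : Alt.LF G) {f s : G} (hf : f ≠ 1) (hs : s ≠ 1) {N : ℕ}
    (h : Cof f s N) : ∃ n, ∀ F : Subgroup G, Finite F → ∀ hs : s ∈ F, Rp F ⟨s, hs⟩ n := by
  choose A b h1 h2 h3 using spread hlf hf N
  refine ⟨b s, fun F _ hsF => ?_⟩
  obtain ⟨E, e1, e2⟩ := hlf.exists_fin ((Set.toFinite (F : Set G)).biUnion
    fun g _ => (h1 g : (A g : Set G).Finite))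
  obtain ⟨c, hc⟩ := ((Set.toFinite (F : Set G)).image b).bddAbove
  obtain ⟨L, a1, a2, a3, l, l1, l2, m, l3, l4⟩ := h E e1 (3 * c + 1)
  have a4 : ∀ g : F, A g ≤ E := fun g y hy => e2 (Set.mem_biUnion g.2 hy)
  have a5 : F ≤ L.H := fun g hg => a1.1 (a4 ⟨g, hg⟩ (h2 g))
  have a6 : ∀ g : F, b g ≤ c := fun g => hc ⟨g, g.2, rfl⟩
  choose z z1 z2 using fun g : F => norm_lift ((sm_iff (a5 g.2)).1
    (h3 g L ((a4 g).trans a1.1) a3)) (by have := a6 g; omega)
  let σ : F →* (L.V ≃ₗ[L.K] L.V) := MonoidHom.mk' z fun g g' =>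
    (z1 g).mul_eq (z1 g') (by rw [← map_mul]; exact z1 (g * g')) ((z2 _).trans (a6 _))
      ((z2 _).trans (a6 _)) ((z2 _).trans (a6 _)) a2
  refine ⟨l, ⟨l1⟩, L.K, L.V, inferInstance, l2, inferInstance, inferInstance, inferInstance,
    LinearEquiv.automorphismGroup.toLinearMapMonoidHom.comp σ, ⟨m, l3, Subtype.ext l4⟩,
    fun e => (z1 ⟨s, hsF⟩).ne_one (fun e' => hs (congrArg Subtype.val
      (a1.2 _ (a4 ⟨s, hsF⟩ (h2 s)) e'))) (LinearEquiv.toLinearMap_injective e), z2 ⟨s, hsF⟩⟩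

theorem exists_conj [IsSimpleGroup G] {s : G} (hs : s ≠ 1) (x : G) :
    ∃ C : Set G, C.Finite ∧ x ∈ closure ((fun c => c * s * c⁻¹) '' C) := by
  have h : normalClosure ({s} : Set G) = ⊤ :=
    (normalClosure_normal.eq_bot_or_eq_top).resolve_left fun h =>
      hs (Subgroup.mem_bot.1 (h ▸ subset_normalClosure rfl))
  have hg : x ∈ normalClosure ({s} : Set G) := h ▸ Subgroup.mem_top x
  rw [normalClosure] at hg
  induction hg using closure_induction with
  | mem y hy =>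
    obtain ⟨a, rfl, hy'⟩ := Group.mem_conjugatesOfSet_iff.1 hy
    obtain ⟨c, rfl⟩ := isConj_iff.1 hy'
    exact ⟨{c}, Set.finite_singleton c, subset_closure ⟨c, rfl, rfl⟩⟩
  | one => exact ⟨∅, Set.finite_empty, one_mem _⟩
  | mul a b _ _ ha hb =>
    obtain ⟨C, h1, h2⟩ := ha
    obtain ⟨C', h3, h4⟩ := hb
    exact ⟨C ∪ C', h1.union h3, mul_mem (closure_mono (Set.image_mono Set.subset_union_left) h2)
      (closure_mono (Set.image_mono Set.subset_union_right) h4)⟩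
  | inv a _ ha =>
    obtain ⟨C, h1, h2⟩ := ha
    exact ⟨C, h1, inv_mem h2⟩

end FinC

open FinC in
theorem finCStmt (hG : GeoFStmt) (hF : FlocStmt) : FinCStmt := by
  classical
  intro G _ _ _ hlf f N hf h x d hx
  obtain ⟨s, hs, hc⟩ := exists_cof hlf h
  have hex := exists_sys hlf hf hs hc
  obtain ⟨F1, _, s1, hF1⟩ : ∃ F : Subgroup G, Finite F ∧ ∃ hs : s ∈ F, ∀ n, Rp F ⟨s, hs⟩ n →
      Nat.find hex ≤ n := by
    rcases Nat.eq_zero_or_pos (Nat.find hex) with h0 | h0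
    · obtain ⟨F, h1, h2⟩ := hlf.exists_fin (Set.finite_singleton s)
      exact ⟨F, h1, h2 rfl, fun n _ => by omega⟩
    · have := Nat.find_min hex (Nat.sub_one_lt h0.ne')
      push Not at this
      obtain ⟨F, h1, h2, h3⟩ := this
      refine ⟨F, h1, h2, fun n ⟨l, a1, K, W, a2, a3, a4, a5, a6, σ, b1, b2, b3⟩ =>
        not_lt.1 fun e => h3 ⟨l, a1, K, W, a2, a3, a4, a5, a6, σ, b1, b2, by omega⟩⟩
  obtain ⟨M, hM, hM'⟩ := hF (Nat.find hex) d
  obtain ⟨C, c1, c2⟩ := exists_conj hs x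
  obtain ⟨A, b, _, -, a1⟩ := spread hlf hf N s
  obtain ⟨n, hn⟩ := geo (G := G) hG C.ncard b M hM
  obtain ⟨E, _, e1⟩ := hlf.exists_fin
    (((Set.toFinite (F1 : Set G)).union (Set.toFinite (A : Set G))).union (c1.insert x))
  obtain ⟨L, l1, l2, l3⟩ := h E inferInstance n
  have m1 : F1 ≤ L.H := fun y hy => l1.1 (e1 (.inl (.inl hy)))
  have m2 : x ∈ L.H := l1.1 (e1 (.inr (.inl rfl)))
  have m3 : C ⊆ L.H := fun y hy => l1.1 (e1 (.inr (.inr hy)))
  obtain ⟨H2, _, k1, k2⟩ := absorb hlf L.H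
  obtain ⟨l, _, K, W, _, _, _, _, _, σ, b1, b2, b3⟩ := Nat.find_spec hex H2 inferInstance
    (k1 (m1 s1))
  let s' : L.H := ⟨s, m1 s1⟩
  have c3 : (Subtype.val ⁻¹' C : Set L.H).Finite := c1.preimage Subtype.val_injective.injOn
  have q1 : Q L b (L.φ s') := (sm_iff _).1 (a1 L (fun y hy => l1.1 (e1 (.inl (.inr hy)))) l3)
  have q2 : QEl l s' := by
    obtain ⟨m, r1, r2⟩ := b1
    exact ⟨m, r1, Subtype.ext (congrArg Subtype.val r2 :)⟩
  refine hM' l L.H L.X K W L.φ (σ.comp (inclusion k1)) s' ⟨x, m2⟩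
    (c3.toFinset.image fun c => c * s' * c⁻¹) L.φs L.sch (fun u v e => ?_) q2 b3
    (fun V _ _ _ τ e => b3.trans (hF1 _ ⟨l, inferInstance, K, V, inferInstance, inferInstance,
      inferInstance, inferInstance, inferInstance, τ.comp (inclusion m1), ?_, e, le_rfl⟩))
    (fun y hy => ?_) ?_ (hn L _ _ l2 ?_ (fun e => hs (congrArg Subtype.val
      (l1.2 s' (e1 (.inl (.inl s1))) e))) q1 fun y hy => ?_)
    (Alt.NoChain.comap L.H.subtype L.H.subtype_injective hx)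
  · by_contra hne
    obtain ⟨t, t1, t2⟩ := k2 (σ.ker.map H2.subtype) (by
        rintro y hy _ ⟨z, hz, rfl⟩
        exact ⟨_, (MonoidHom.normal_ker σ).conj_mem z hz ⟨y, hy⟩, rfl⟩) _ (u⁻¹ * v).2
      (fun e' => hne (inv_mul_eq_one.1 (Subtype.ext e'))) ⟨inclusion k1 (u⁻¹ * v), by
        change σ.comp (inclusion k1) _ = 1
        rw [map_mul, ← e, ← map_mul, inv_mul_cancel, map_one], rfl⟩ (m1 s1)
    exact b2 ((Subtype.ext t2 : t = ⟨s, _⟩) ▸ t1)
  · obtain ⟨m, r1, r2⟩ := b1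
    exact ⟨m, r1, Subtype.ext (congrArg Subtype.val r2 :)⟩
  · obtain ⟨c, -, rfl⟩ := Finset.mem_image.1 hy
    exact isConj_iff.2 ⟨c, rfl⟩
  · rw [← mem_map_iff_mem L.H.subtype_injective, MonoidHom.map_closure]
    refine closure_mono ?_ c2
    rintro _ ⟨c, hc, rfl⟩
    exact ⟨_, Finset.mem_image_of_mem _ (c3.mem_toFinset.2 (show (⟨c, m3 hc⟩ : L.H) ∈ _ from hc)),
      rfl⟩
  · refine Finset.card_image_le.trans (Finset.card_image_le.trans ?_)
    rw [← Set.ncard_eq_toFinset_card _ c3]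
    exact Set.ncard_le_ncard_of_injOn Subtype.val (fun _ h => h) Subtype.val_injective.injOn c1
  · obtain ⟨z, hz, rfl⟩ := Finset.mem_image.1 hy
    obtain ⟨c, -, rfl⟩ := Finset.mem_image.1 hz
    rw [map_mul, map_mul, map_inv]
    exact (len_Q L).conj _ q1

end Pool.Agent.Lib.MP_679d9b_al.KG
end

-- part Pool.Agent.Lib.MP_679d9b_al.KG.Fin
section

/-!
Groups with a cover over known simple groups.
-/

set_option autoImplicit false

namespace Pool.Agent.Lib.MP_679d9b_al.KG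

open Subgroup

variable {G : Type} [Group G]

/-- Simple classical groups. -/
def ClX (X : Type) [Group X] : Prop :=
  ∃ (K V : Type) (_ : Field K) (_ : Finite K) (_ : AddCommGroup V) (_ : Module K V)
    (_ : FiniteDimensional K V) (I : Subgroup (V ≃ₗ[K] V))
    (π : (⁅I, I⁆ : Subgroup (V ≃ₗ[K] V)) →* X), IsCl I ∧ Function.Surjective π ∧
      ∀ y, π y = 1 ↔ Scal (y : V ≃ₗ[K] V)

theorem sch_of {H : Type} [Group H] {N : Subgroup H}
    (h : ∀ T : Subgroup N, T.IsSubnormal → ∀ (X : Type) [Group X] [IsSimpleGroup X] (π : T →* X),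
      Function.Surjective π → (∃ a b : X, ¬ Commute a b) → OutSolv X) : Sch N :=
  fun T hT hs X _ _ π h1 h2 => h (T.subgroupOf N) hs X
    (π.comp (subgroupOfEquivOfLe hT).toMonoidHom) (h1.comp (subgroupOfEquivOfLe hT).surjective) h2

theorem final (hAlt : AltStmt) (hFin : FinCStmt) (hLin : LinStmt) (hRes : ResStmt) (hLoc : LocStmt)
    (hAlv : AlvStmt) [IsSimpleGroup G] (hlf : Alt.LF G) (N : ℕ)
    (hK : ∀ F : Subgroup G, Finite F → ∃ H : Subgroup G, Finite H ∧ F ≤ H ∧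
      ∃ (X : Type) (_ : Group X) (_ : IsSimpleGroup X) (φ : H →* X), Function.Surjective φ ∧
        (∀ h : H, (h : G) ∈ F → φ h = 1 → h = 1) ∧ Sch φ.ker ∧
        ((∃ n, Nonempty (X ≃* alternatingGroup (Fin n))) ∨ ClX X ∨ LinN N X))
    (x : G) (d : ℕ) (hx : Alt.NoChain x d) : Lin G := by
  classical
  rcases finite_or_infinite G with hG | hG
  · exact hLin.2.1 G
  refine main hAlt hFin hLin hRes hLoc hAlv hlf N (fun F0 _ => ?_) x d hx
  obtain ⟨t, ht⟩ := Infinite.exists_subset_card_eq G 25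
  obtain ⟨F, hF, h1⟩ := hlf.exists_fin ((Set.toFinite (F0 : Set G)).union t.finite_toSet)
  have h5 : 25 ≤ Nat.card F := by
    rw [← ht, ← Set.ncard_coe_finset]
    exact Set.ncard_le_ncard (fun y hy => h1 (Or.inr hy)) (Set.toFinite (F : Set G))
  have a2 : F0 ≤ F := fun y hy => h1 (Or.inl hy)
  obtain ⟨H, hH, b1, X, _, _, φ, b2, b3, hs, hc⟩ := hK F hF
  have b4 : ∀ h : H, (h : G) ∈ F0 → φ h = 1 → h = 1 := fun h e => b3 h (a2 e)
  have b5 : Function.Injective (φ.comp (inclusion b1)) := (injective_iff_map_eq_one _).2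
    fun f hf => inclusion_injective b1 ((b3 _ f.2 hf).trans (map_one _).symm)
  obtain ⟨n, ⟨e⟩⟩ | ⟨K, V, _, _, _, _, _, I, π, c1, c2, c3⟩ | c := hc
  · left
    let L : Alt.Lv G :=
      { H := H, m := n, φ := ((alternatingGroup (Fin n)).subtype.comp e.toMonoidHom).comp φ
        fin := hH
        alt := fun y hy => by
          obtain ⟨z, hz⟩ := (e.surjective.comp b2) ⟨y, hy⟩
          exact ⟨z, congrArg Subtype.val hz⟩ }
    have hk : ∀ y : H, L.φ y = 1 → φ y = 1 := fun y h =>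
      e.injective (Subtype.ext (by rw [map_one]; exact h))
    have hn : 5 ≤ n := by
      have d1 := Nat.card_le_card_of_injective _
        (((alternatingGroup (Fin n)).subtype_injective.comp e.injective).comp b5)
      rw [Nat.card_perm, Nat.card_eq_fintype_card (α := Fin n), Fintype.card_fin] at d1
      by_contra d2
      have := Nat.factorial_le (show n ≤ 4 by omega)
      simp only [Nat.factorial] at this
      omega
    have := (hd_R L.alt (by simpa using hn)).nrm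
    refine ⟨L, hs.nrm (fun y hy => hk y hy.1) inferInstance, a2.trans b1, fun f hf hf1 => ?_⟩
    rw [L.deg_eq ⟨f, b1 (a2 hf)⟩, Nat.one_le_iff_ne_zero, Ne, Finset.card_eq_zero,
      Equiv.Perm.support_eq_empty_iff]
    exact fun h => hf1 (congrArg Subtype.val (b4 ⟨f, b1 (a2 hf)⟩ hf (hk _ h)))
  · let L : CL G :=
      { H := H, K := K, V := V, X := X, I := I, cl := c1, π := π, πs := c2, πk := c3, φ := φ
        φs := b2, sch := hs }
    exact Or.inr (Or.inl ⟨L, a2.trans b1, b4⟩)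
  · exact Or.inr (Or.inr (c.mono le_rfl ((φ.comp (inclusion b1)).comp (inclusion a2))
      (b5.comp (inclusion_injective a2))))

/-- The simple quotients in a cover can be chosen nonabelian. -/
theorem kegel' [Infinite G] [IsSimpleGroup G] (hlf : Alt.LF G) (F0 : Subgroup G) [Finite F0] :
    ∃ H : Subgroup G, Finite H ∧ F0 ≤ H ∧ ∃ (X : Type) (_ : Group X) (_ : IsSimpleGroup X)
      (φ : H →* X), Function.Surjective φ ∧ (∀ h : H, (h : G) ∈ F0 → φ h = 1 → h = 1) ∧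
        ∃ a b : X, ¬ Commute a b := by
  obtain ⟨g, hg⟩ := exists_ne (1 : G)
  obtain ⟨F1, _, a0⟩ := hlf.exists_fin (Set.finite_singleton g)
  obtain ⟨F2, _, -, a1⟩ := exists_derived hlf F1
  obtain ⟨F, _, a2, a3⟩ := fin_sup hlf F0 F2
  obtain ⟨a, ha, b, hb, hab⟩ : ∃ a ∈ F, ∃ b ∈ F, ¬ Commute a b := by
    by_contra h
    push Not at h
    have : ⁅F2, F2⁆ ≤ ⊥ := commutator_le.2 fun a ha b hb =>
      Subgroup.mem_bot.2 (commutatorElement_eq_one_iff_commute.2 (h a (a3 ha) b (a3 hb)))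
    exact hg (Subgroup.mem_bot.1 (this (a1 (a0 rfl))))
  obtain ⟨H, hH, b1, X, _, _, φ, b2, b3⟩ := kegel hlf F fun h =>
    hab (by rw [h] at ha; rw [Subgroup.mem_bot.1 ha]; exact Commute.one_left _)
  refine ⟨H, hH, a2.trans b1, X, inferInstance, inferInstance, φ, b2, fun h e => b3 h (a2 e),
    φ ⟨a, b1 ha⟩, φ ⟨b, b1 hb⟩, fun h => hab ?_⟩
  rw [← commutatorElement_eq_one_iff_commute, ← map_commutatorElement] at h
  have := b3 _ (mul_mem (mul_mem (mul_mem ha hb) (inv_mem ha)) (inv_mem hb)) h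
  exact commutatorElement_eq_one_iff_commute.1 (congrArg Subtype.val this)

end Pool.Agent.Lib.MP_679d9b_al.KG
end

-- part Pool.Agent.Lib.MP_679d9b_al.KG.Floc
section

/-!
The local lemma in the finitary case.
-/

set_option autoImplicit false

namespace Pool.Agent.Lib.MP_679d9b_al.KG

open Subgroup Matrix Equiv
open Matrix.SpecialLinearGroup (transvection)
open scoped commutatorElement
open PT (SL PSL PEl QEl)

namespace Floc

section Mat
variable {ι K : Type} [Fintype ι] [DecidableEq ι] [Field K]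

/-- Permutation matrices. -/
def pm (ι K : Type) [Fintype ι] [DecidableEq ι] [Field K] : alternatingGroup ι →* SL ι K where
  toFun σ := ⟨permMatrixHom σ.1, by
    have h : Perm.sign σ.1 = 1 := σ.2
    simp [h]⟩
  map_one' := Subtype.ext (map_one (permMatrixHom : Perm ι →* Matrix ι ι K))
  map_mul' a b := Subtype.ext (map_mul (permMatrixHom : Perm ι →* Matrix ι ι K) a.1 b.1)

theorem pm_apply (σ : alternatingGroup ι) (x y : ι) :
    (pm ι K σ).1 x y = if σ.1 y = x then 1 else 0 := by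
  change (σ.1⁻¹).permMatrix K x y = _
  simp [Equiv.eq_symm_apply, eq_comm, Perm.inv_def]

theorem pm_injective : Function.Injective (pm ι K) :=
  (injective_iff_map_eq_one _).2 fun σ h => Subtype.ext (Equiv.ext fun a => by
    have := pm_apply (K := K) σ a a
    rw [h] at this
    by_contra h1
    simp [show σ.1 a ≠ a from h1] at this)

theorem pm_three {a b c : ι} (hab : a ≠ b) (hbc : b ≠ c) (hac : a ≠ c)
    (h : swap a b * swap b c ∈ alternatingGroup ι) :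
    pm ι K ⟨_, h⟩ = (transvection hab.symm 1 * transvection hab (-(1 : K)⁻¹) *
      transvection hab.symm 1) * (transvection hbc.symm 1 * transvection hbc (-(1 : K)⁻¹) *
      transvection hbc.symm 1) := by
  apply Subtype.ext
  rw [PT.SLn.mul_val, PT.SLn.weyl hab.symm one_ne_zero, PT.SLn.weyl hbc.symm one_ne_zero]
  simp only [mul_add, add_mul, mul_sub, sub_mul, mul_one, one_mul, single_mul_single_same,
    single_mul_single_of_ne _ _ _ _ hab, single_mul_single_of_ne _ _ _ _ hbc,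
    single_mul_single_of_ne _ _ _ _ hac, inv_one]
  ext x y
  rw [pm_apply]
  by_cases hxa : x = a <;> by_cases hxb : x = b <;> by_cases hxc : x = c <;>
    by_cases hya : y = a <;> by_cases hyb : y = b <;> by_cases hyc : y = c <;>
    simp_all [one_apply, single_apply, eq_comm, swap_apply_def]

theorem blkR_tv {κ : Type} [Fintype κ] [DecidableEq κ] {i j : ι} (h : i ≠ j) (a : K) :
    PT.blkR κ (transvection h a) = transvection (Sum.inr_injective.ne h) a := Subtype.ext (by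
  change fromBlocks 1 0 0 (1 + single i j a) = 1 + single (Sum.inr i) (Sum.inr j) a
  ext (x | x) (y | y) <;> simp [one_apply, single_apply])

end Mat

section Rep
variable {T K V Ω : Type} [Group T] [Field K] [AddCommGroup V] [Module K V] [FiniteDimensional K V]
  (σ : T →* Module.End K V)

theorem len_rk : Mds.Len fun n (g : T) => rk (σ g - 1) ≤ n where
  mul := fun {_ _ a b} ha hb => (rk_map_mul σ a b).trans (add_le_add ha hb)
  inv := fun {_ a} ha => (rk_map_inv σ a).trans_le ha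
  conj := fun {_ a} g ha => by
    have := rk_map_conj σ a g 1
    rw [one_smul] at this
    exact this.trans_le ha
  mono := fun h e => h.trans e

theorem kill {E : Subgroup T} {D : ℕ} (hLo : Lo E D) {u : Module.End K V}
    (hu : ∀ e ∈ E, Commute u (σ e)) (hr : rk u ≤ D) : ∀ e ∈ E, σ e * u = u := fun e he =>
  LinearMap.ext fun v => hLo.fx σ (U := LinearMap.range u) (by
    rintro y hy _ ⟨w, rfl⟩
    exact ⟨σ y w, congrArg (fun f : Module.End K V => f w) (hu y hy).eq⟩) hr _ ⟨v, rfl⟩ e he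

variable [Finite T] [Fintype Ω] [DecidableEq Ω] {ψ : T →* Perm Ω} {Δ Δ' : Finset Ω}

theorem core (hψ : alternatingGroup Ω ≤ ψ.range)
    (hc : (⁅ψ.ker, Alt.R ψ Finset.univ⁆ : Subgroup T) = ⊥) (h5 : 5 ≤ Δ.card) (h5' : 5 ≤ Δ'.card)
    (hd : Disjoint Δ Δ') {D : ℕ} (hLo : Lo (Alt.R ψ Δ') D) {e : T} (he : e ∈ Alt.R ψ Δ)
    (he1 : ψ e ≠ 1) {z : Module.End K V} (hz : ∀ t, Commute z (σ t)) (hr : rk (σ e - z) ≤ D) :
    ∀ a ∈ Alt.R ψ Δ, ∀ b ∈ Alt.R ψ Δ', (σ a - 1) * (σ b - 1) = 0 := by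
  intro a ha b hb
  have hcm := (R_cen hψ hc h5).2 Δ' h5' hd
  obtain ⟨u, hu⟩ : ∃ u, u = σ b - 1 := ⟨_, rfl⟩
  have c1 : ∀ t ∈ Alt.R ψ Δ, σ t * u = u * σ t := fun t ht =>
    hu ▸ (((hcm t ht b hb).map σ).sub_right (Commute.one_right _)).eq
  have c2 : σ e * u = z * u := by
    have h1 : Commute (σ e - z) (σ b) := ((hcm e he b hb).map σ).sub_left (hz b)
    have h2 := kill σ hLo (fun y hy => ((hcm e he y hy).map σ).sub_left (hz y)) hr b hb
    rw [← sub_eq_zero, ← sub_mul, hu, mul_sub, h1.eq, h2, mul_one, sub_self]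
  let J : Subgroup T :=
    { carrier := {t | σ t * u = u}
      one_mem' := by simp
      mul_mem' := fun {x y} hx hy => by
        change σ (x * y) * u = u
        rw [map_mul, mul_assoc, hy, hx]
      inv_mem' := fun {x} hx => by
        change σ x⁻¹ * u = u
        nth_rewrite 1 [← hx]
        rw [← mul_assoc, ← map_mul, inv_mul_cancel, map_one, one_mul] }
  obtain ⟨t, ht, ht'⟩ : ∃ t ∈ Alt.R ψ Δ, ¬ Commute (ψ e) (ψ t) := by
    by_contra h
    push Not at h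
    obtain ⟨x, hx, y, hy, c, -, h1⟩ := Alt.exists_noncomm (Δ := Δ) (by omega)
    have h2 := Alt.altOn_simple h5 (N := centralizer (Alt.AltOn Δ : Set (Perm Ω)))
      (fun g hg w hw => by
        rwa [(mem_centralizer_iff.1 hw g hg), mul_inv_cancel_right]) (τ := ψ e)
      (fun g hg => by
        obtain ⟨r, hr, rfl⟩ := Alt.R_surj hψ h5 hg
        exact (h r hr).eq.symm) (Alt.R_le hψ h5 he) he1
    exact h1 (congrArg (fun g : Perm Ω => g c) (h2 hy x hx))
  have hm : ⁅e, t⁆ ∈ Alt.R ψ Δ := mul_mem (mul_mem (mul_mem he ht) (inv_mem he)) (inv_mem ht)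
  have h3 : Alt.R ψ Δ ≤ J := Alt.R_min hψ h5 (J := J) (fun r hr j hj => by
      change σ (r * j * r⁻¹) * u = u
      rw [map_mul, map_mul, mul_assoc, c1 _ (inv_mem hr), mul_assoc, ← mul_assoc (σ j), hj,
        ← c1 _ (inv_mem hr), ← mul_assoc, ← map_mul, mul_inv_cancel, map_one, one_mul])
    (by
      change σ ⁅e, t⁆ * u = u
      have h4 : σ (e * t) * u = σ (t * e) * u := by
        rw [map_mul, map_mul, mul_assoc, c1 t ht, ← mul_assoc, c2, mul_assoc, ← c1 t ht,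
          ← mul_assoc, (hz t).eq, mul_assoc, mul_assoc, c2]
      have h5 : (t * e)⁻¹ ∈ Alt.R ψ Δ := inv_mem (mul_mem ht he)
      rw [show ⁅e, t⁆ = e * t * (t * e)⁻¹ by group, map_mul, mul_assoc, c1 _ h5, ← mul_assoc, h4,
        mul_assoc, ← c1 _ h5, ← mul_assoc, ← map_mul, mul_inv_cancel, map_one, one_mul])
    hm (by rwa [map_commutatorElement, Ne, commutatorElement_eq_one_iff_commute])
  rw [← hu, sub_mul, one_mul, show σ a * u = u from h3 ha, sub_self]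

theorem exists_qel (l : ℕ) [Fact l.Prime] (hψ : alternatingGroup Ω ≤ ψ.range) (h5 : 5 ≤ Δ.card) :
    ∃ a ∈ Alt.R ψ Δ, ∃ b ∈ Alt.R ψ Δ, QEl l a ∧ QEl l b ∧ ¬ Commute (ψ a) (ψ b) := by
  by_contra h
  push Not at h
  obtain ⟨x, hx, y, hy, c, -, h1⟩ := Alt.exists_noncomm (Δ := Δ) (by omega)
  obtain ⟨a, ha, rfl⟩ := Alt.R_surj hψ h5 hx
  obtain ⟨b, hb, rfl⟩ := Alt.R_surj hψ h5 hy
  have h2 := PT.le_of_qel (p := l) (S := (centralizer {ψ b}).comap ψ) (R_perf hψ h5)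
    (fun g hg hq => mem_centralizer_singleton_iff.2 (mem_centralizer_singleton_iff.1
      (PT.le_of_qel (p := l) (S := (centralizer {ψ g}).comap ψ) (R_perf hψ h5)
        (fun g' hg' hq' => mem_centralizer_singleton_iff.2 (h g' hg' g hg hq' hq).eq) hb)).symm) ha
  exact h1 (congrArg (fun g : Perm Ω => g c) (mem_centralizer_singleton_iff.1 h2))

end Rep

theorem lo_R (hM : MrStmt) (hB : BigAltStmt) (D : ℕ) : ∃ k, 5 ≤ k ∧ ∀ (T Ω : Type) [Group T]
    [Finite T] [Fintype Ω] [DecidableEq Ω] (ψ : T →* Perm Ω) (Δ : Finset Ω),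
    alternatingGroup Ω ≤ ψ.range → k ≤ Δ.card → Lo (Alt.R ψ Δ) D := by
  obtain ⟨k, hk⟩ := hM D
  obtain ⟨n, hn⟩ := hB k
  refine ⟨n + 5, by omega, fun T Ω _ _ _ _ ψ Δ hψ h K V _ _ _ _ σ hD r => ?_⟩
  have h5 : 5 ≤ Δ.card := by omega
  have hd : Hd (ψ.comp (Alt.R ψ Δ).subtype) ⊤ := by
    refine ⟨inferInstance, (isPerfect_iff.2 (R_perf hψ h5)).commutator_eq_top, ?_,
      fun J hJ y hy h1 z _ => ?_⟩
    · obtain ⟨x, hx, y, -, c, -, h1⟩ := Alt.exists_noncomm (Δ := Δ) (by omega)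
      obtain ⟨a, ha, rfl⟩ := Alt.R_surj hψ h5 hx
      exact ⟨⟨a, ha⟩, trivial, fun e => h1 (by rw [show ψ a = 1 from e]; rfl)⟩
    · obtain ⟨z', e1, e2⟩ := Alt.R_min hψ h5 (J := J.map (Alt.R ψ Δ).subtype) (by
        rintro a ha _ ⟨b, hb, rfl⟩
        exact ⟨_, hJ ⟨a, ha⟩ trivial b hb, rfl⟩) ⟨y, hy, rfl⟩ y.2 h1 z.2
      exact (Subtype.ext e2 : z' = z) ▸ e1
  obtain ⟨g, -, hg⟩ := (hn (Alt.R ψ Δ) Δ ⊤).2 _ (ψ.comp (Alt.R ψ Δ).subtype)
    ((alternatingGroup Ω).subtype.comp (alternatingGroup.ofSubtype Δ))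
    ((alternatingGroup Ω).subtype_injective.comp alternatingGroup.ofSubtype_injective) (by
      rintro _ ⟨c, rfl⟩
      obtain ⟨a, ha, e⟩ := Alt.R_surj hψ h5 (σ := alternatingGroup.ofSubtype Δ c)
        ⟨(alternatingGroup.ofSubtype Δ c).2, fun a ha => by_contra fun h2 =>
          ha ((alternatingGroup.mem_range_ofSubtype_iff Δ _).1 ⟨c, rfl⟩ (Perm.mem_support.2 h2))⟩
      exact ⟨⟨a, ha⟩, trivial, e⟩) (by simp; omega)
  exact (hk _ _ _ _ g hd hg).2.1 K V (σ.comp topEquiv.toMonoidHom) hD ⟨r, trivial⟩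

/-- Elements which act on independent parts. -/
def Ind {H A : Type} [Group H] [Ring A] (σ : H →* A) (u v : H) : Prop :=
  (σ u - 1) * (σ v - 1) = 0 ∧ (σ v - 1) * (σ u - 1) = 0

theorem mid (l : ℕ) [Fact l.Prime] {H X K V Ω : Type} [Group H] [Finite H] [Group X] [Field K]
    [AddCommGroup V] [Module K V] [FiniteDimensional K V] [Fintype Ω] [DecidableEq Ω]
    (φ : H →* X) (R : Subgroup H) [hn : R.Normal] (hR : R.map φ = ⊤)
    (hc : (⁅φ.ker, R⁆ : Subgroup H) = ⊥) (σ : H →* Module.End K V) (β : alternatingGroup Ω →* X)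
    (hβ : Function.Injective β) {d D : ℕ} (Δ : Fin d → Finset Ω) (h5 : ∀ i, 5 ≤ (Δ i).card)
    (hd : ∀ i j, i ≠ j → Disjoint (Δ i) (Δ j))
    (hLo : ∀ (T : Type) [Group T] [Finite T] (ψ : T →* Perm Ω) (i : Fin d),
      alternatingGroup Ω ≤ ψ.range → Lo (Alt.R ψ (Δ i)) D) (Ψ : Set H)
    (hΨ : ∀ y ∈ Ψ, rk (σ y - 1) ≤ D ∧ ∀ c, Commute (φ y) (β c))
    (hs : ∀ i, ∃ c : alternatingGroup Ω, c.1 ∈ Alt.AltOn (Δ i) ∧ c.1 ≠ 1 ∧ ∃ h, φ h = β c ∧
      rk (σ h - 1) ≤ D) :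
    ∃ a b : Fin d → H, (∀ i, a i ∈ R ∧ b i ∈ R ∧ QEl l (a i) ∧ QEl l (b i) ∧
      ¬ Commute (φ (a i)) (φ (b i)) ∧ ∀ y ∈ Ψ, Ind σ y (a i) ∧ Ind σ y (b i)) ∧
      ∀ i j, i ≠ j → Ind σ (a i) (b j) := by
  have cz : ∀ z, φ z = 1 → ∀ r ∈ R, Commute z r := fun z hz r hr =>
    commutatorElement_eq_one_iff_commute.1
      (Subgroup.mem_bot.1 (hc ▸ commutator_mem_commutator hz hr))
  let T : Subgroup (H × alternatingGroup Ω) := R.comap (MonoidHom.fst _ _) ⊓
    (φ.comp (MonoidHom.fst _ _)).eqLocus (β.comp (MonoidHom.snd _ _))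
  obtain ⟨ι, hι⟩ : ∃ ι : T →* H, ∀ t, ι t = t.1.1 := ⟨(MonoidHom.fst _ _).comp T.subtype,
    fun _ => rfl⟩
  obtain ⟨ψ, hψ⟩ : ∃ ψ : T →* Perm Ω, ∀ t, ψ t = t.1.2 :=
    ⟨(alternatingGroup Ω).subtype.comp ((MonoidHom.snd _ _).comp T.subtype), fun _ => rfl⟩
  have t1 : ∀ t, ι t ∈ R := fun t => hι t ▸ t.2.1
  have t2 : ∀ t, φ (ι t) = β t.1.2 := fun t => hι t ▸ t.2.2
  have t3 : alternatingGroup Ω ≤ ψ.range := fun c hc => by
    obtain ⟨r, hr, e⟩ : β ⟨c, hc⟩ ∈ R.map φ := hR ▸ Subgroup.mem_top _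
    exact ⟨⟨(r, ⟨c, hc⟩), hr, e⟩, hψ _⟩
  have t4 : Function.Injective ι := (injective_iff_map_eq_one _).2 fun t ht =>
    Subtype.ext (Prod.ext ((hι t).symm.trans ht) (hβ (by
      rw [← t2, ht, map_one]
      exact (map_one β).symm)))
  have t5 : (⁅ψ.ker, Alt.R ψ Finset.univ⁆ : Subgroup T) = ⊥ := by
    refine le_bot_iff.1 (commutator_le.2 fun z hz r _ => Subgroup.mem_bot.2 (t4 ?_))
    rw [map_commutatorElement, map_one, commutatorElement_eq_one_iff_commute]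
    refine cz _ ?_ _ (t1 r)
    rw [t2, show z.1.2 = 1 from Subtype.ext ((hψ z).symm.trans hz), map_one]
  have k1 : ∀ i, ∀ y ∈ Ψ, ∀ e ∈ Alt.R ψ (Δ i), Ind σ y (ι e) := by
    intro i y hy
    have c1 : ∀ e ∈ Alt.R ψ (Δ i), Commute (σ y - 1) (σ (ι e)) := fun e he => by
      refine ((commute_of_perfect (E := (Alt.R ψ (Δ i)).map ι) (Z := φ.ker ⊓ R)
        (by rw [← map_commutator, R_perf t3 (h5 i)]) (fun z hz z' hz' => cz z hz.1 z' hz'.2) ?_ ?_
        _ ⟨e, he, rfl⟩).map σ).sub_left (Commute.one_left _)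
      · rintro z hz _ ⟨t, -, rfl⟩
        exact cz z hz.1 _ (t1 t)
      · rintro _ ⟨t, -, rfl⟩
        refine ⟨?_, R.mul_mem (hn.conj_mem _ (t1 t) y) (R.inv_mem (t1 t))⟩
        change φ _ = 1
        rw [map_commutatorElement, t2, commutatorElement_eq_one_iff_commute]
        exact (hΨ y hy).2 _
    intro e he
    have c2 : (σ (ι e) - 1) * (σ y - 1) = 0 := by
      rw [sub_mul, one_mul, sub_eq_zero]
      exact kill (σ.comp ι) (hLo T ψ i t3) c1 (hΨ y hy).1 e he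
    exact ⟨((c1 e he).sub_right (Commute.one_right _)).eq.trans c2, c2⟩
  have k2 : ∀ i j, i ≠ j → ∀ a ∈ Alt.R ψ (Δ i), ∀ b ∈ Alt.R ψ (Δ j),
      (σ (ι a) - 1) * (σ (ι b) - 1) = 0 := by
    intro i j hij
    obtain ⟨c, c1, c2, h, c3, c4⟩ := hs i
    obtain ⟨e, he, e1⟩ := Alt.R_surj t3 (h5 i) c1
    have e2 : φ (h⁻¹ * ι e) = 1 := by
      rw [map_mul, map_inv, t2, c3, show e.1.2 = c from Subtype.ext ((hψ e).symm.trans e1),
        inv_mul_cancel]
    refine core (σ.comp ι) t3 t5 (h5 i) (h5 j) (hd i j hij) (hLo T ψ j t3) he (e1 ▸ c2)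
      (z := σ (h⁻¹ * ι e)) (fun t => (cz _ e2 _ (t1 t)).map σ) (le_trans ?_ c4)
    refine le_of_eq_of_le (congrArg rk ?_) (rk_mul_le_left _ (σ (h⁻¹ * ι e)))
    rw [sub_mul, one_mul, ← map_mul, mul_inv_cancel_left]
    rfl
  choose a ha b hb qa qb hab using fun i => exists_qel l t3 (h5 i)
  refine ⟨fun i => ι (a i), fun i => ι (b i), fun i => ⟨t1 _, t1 _, PT.Grp.qel_map ι (qa i),
    PT.Grp.qel_map ι (qb i), fun h => hab i ?_, fun y hy => ⟨k1 i y hy _ (ha i),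
      k1 i y hy _ (hb i)⟩⟩, fun i j h => ⟨k2 i j h _ (ha i) _ (hb j), k2 j i h.symm _ (hb j) _ (ha i)⟩⟩
  rw [t2, t2] at h
  rw [hψ, hψ]
  exact congrArg Subtype.val (Commute.of_map hβ h).eq

end Floc

open Floc in
theorem flocStmt (hT : TopStmt) (hK : RkStmt) (hD : MdsStmt) (hM : MrStmt) (hB : BigAltStmt) :
    FlocStmt := by
  classical
  intro N d
  obtain ⟨D, hD1⟩ := hK N
  obtain ⟨M0, hM0⟩ := hD D
  obtain ⟨k0, hk0⟩ := hM D
  obtain ⟨n0, hn0⟩ := hB k0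
  obtain ⟨k, k5, hk⟩ := lo_R hM hB (192 * N)
  have hle : k + M0 + n0 ≤ (d + 1) * (k + M0 + n0) := Nat.le_mul_of_pos_left _ d.succ_pos
  refine ⟨(d + 1) * (k + M0 + n0), by omega,
    fun l _ H X K W _ _ _ _ _ _ _ _ _ φ ρ s x Ψ hφ hS hρ hs hN hm hΨ hx hG => ?_⟩
  have hG' := hG
  obtain ⟨K', _, η, h1, h2, E, E', i, j, hij, e⟩ := hG'
  have hne : (⁅⁅φ s, E⁆, E'⁆ : X) ≠ 1 := fun h => by
    have := congrFun (congrFun (congrArg Subtype.val (h1 ((e.trans h).trans (map_one η).symm))) i) j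
    simp [PT.SLn.tv_val, hij] at this
  have hs1 : φ s ≠ 1 := fun h => hne (by simp [h])
  obtain ⟨V, _, _, _, σ, v1, -, v3, v4, v5⟩ := hT l H K W ρ s hρ (fun h => hs1 (by simp [h])) hs hm
  obtain ⟨R, hd, hR⟩ := exists_hd φ hφ ⟨_, _, mt commutatorElement_eq_one_iff_commute.2 hne⟩
  have hn := hd.nrm
  have r1 : R ≤ normalClosure {s} := hd.min _
    (fun r _ y hy => normalClosure_normal.conj_mem y hy r) s (subset_normalClosure rfl) hs1
  have r2 : σ.ker ≤ φ.ker := hd.le_ker inferInstance fun h => by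
    obtain ⟨r, hr, e⟩ : φ s ∈ R.map φ := hR ▸ Subgroup.mem_top _
    obtain ⟨a, a1, a2, a3⟩ := PT.qel_lift φ (isOfFinOrder_of_finite r)
      (e ▸ PT.Grp.qel_map φ hs)
    have a4 : a ∈ R := zpowers_le.2 hr a1
    rw [PT.eq_one_of_pel_qel (v4 a (r1 a4) (h a4)) a2, map_one, e] at a3
    exact hs1 a3.symm
  obtain ⟨σ', s1, s2⟩ := exists_faithful σ
  let q := QuotientGroup.mk' σ.ker
  have hq : Function.Surjective q := QuotientGroup.mk'_surjective _
  obtain ⟨φ', f1⟩ : ∃ φ' : H ⧸ σ.ker →* X, ∀ y, φ' (q y) = φ y :=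
    ⟨QuotientGroup.lift _ φ r2, fun _ => rfl⟩
  have s3 : ∀ y, σ' (q y) = σ y := s2
  have hd' := hd.map q hq φ' f1
  have hφ' : Function.Surjective φ' := fun y => (hφ y).elim fun a ha => ⟨q a, (f1 a).trans ha⟩
  have hR' : (R.map q).map φ' = ⊤ := by
    rw [Subgroup.map_map, show φ'.comp q = φ from MonoidHom.ext f1, hR]
  let β := (η.comp (PT.blkR (Fin 2))).comp (pm (Fin ((d + 1) * (k + M0 + n0))) K')
  have hβ : Function.Injective β := (h1.comp PT.blkR_injective).comp pm_injective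
  obtain ⟨g, -, hg⟩ := (hn0 _ _ (R.map q)).2 X φ' β hβ (hR' ▸ le_top) (by simp; omega)
  obtain ⟨-, m1, -, m2⟩ := hk0 _ _ _ _ g hd' hg
  have hc := hD1 l _ X K V φ' (R.map q) σ' (q s) hd' ((hS.nrm inf_le_left inferInstance).ker_map q φ' f1) s1
    (fun U hU => v1 U fun g v hv => s3 g ▸ hU (q g) v hv) (f1 s ▸ hs1) (s3 s ▸ v3.trans hN)
    (hM0 _ _ X φ' _ _ _ (by omega) hd' hφ' (f1 s ▸ hG)) m2 m1
  have := hd'.nrm
  let Δ : Fin (d + 1) → Finset (Fin ((d + 1) * (k + M0 + n0))) := fun i =>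
    Finset.univ.image fun a => finProdFinEquiv (i, a)
  have hΔ : ∀ i, (Δ i).card = k + M0 + n0 := fun i => by
    rw [Finset.card_image_of_injective _ fun a b h => (Prod.ext_iff.1
      (finProdFinEquiv.injective h)).2, Finset.card_univ, Fintype.card_fin]
  have hL := (len_rk σ').lift φ' hφ'
  have hP := fun {a b} (hab : a ≠ b) => hL.tv η (by simp; omega)
    ⟨q s, f1 s, s3 s ▸ v3.trans hN⟩ e hab
  obtain ⟨a, b, c1, c2⟩ := mid l φ' (R.map q) hR' hc σ' β hβ (D := 192 * N) Δ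
    (fun i => by rw [hΔ]; omega) (fun i j h => Finset.disjoint_left.2 fun z a1 a2 => by
      obtain ⟨u, -, rfl⟩ := Finset.mem_image.1 a1
      obtain ⟨w, -, a3⟩ := Finset.mem_image.1 a2
      exact h (Prod.ext_iff.1 (finProdFinEquiv.injective a3)).1.symm)
    (fun T _ _ ψ i h => hk T _ ψ _ h (by rw [hΔ]; omega)) (q '' Ψ) (by
      rintro _ ⟨y, hy, rfl⟩
      refine ⟨?_, fun c => f1 y ▸ h2 _ (Finset.mem_image_of_mem _ hy) _⟩
      obtain ⟨c, rfl⟩ := isConj_iff.1 (hΨ y hy)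
      rw [s3]
      exact ((len_rk σ).conj c (v3.trans hN)).trans (by omega)) fun i => by
      obtain ⟨a, b, c, ha, hb, hc, hab, hac, hbc⟩ :=
        Finset.two_lt_card_iff.1 (show 2 < (Δ i).card by rw [hΔ]; omega)
      have w := Alt.swap2_mem ha hb hb hc hab hbc
      refine ⟨⟨_, w.1⟩, w, fun h => hab ?_, ?_⟩
      · simpa [swap_apply_of_ne_of_ne hab hac, eq_comm] using congrArg (fun g : Perm _ => g a) h
      · have t : ∀ {u v} (h : u ≠ v), _ := fun {u v} (h : u ≠ v) =>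
          hL.mul (hL.mul (hP (Sum.inr_injective.ne h.symm)) (hL.inv (hP (Sum.inr_injective.ne h))))
            (hP (Sum.inr_injective.ne h.symm))
        have t2 := hL.mono (hL.mul (t hab) (t hbc)) (show _ ≤ 192 * N by omega)
        rw [show β ⟨_, w.1⟩ = _ from congrArg (fun A => η (PT.blkR _ A)) (pm_three hab hbc hac w.1)]
        simpa only [map_mul, blkR_tv, inv_one, ← SpecialLinearGroup.transvection_inv, map_inv]
          using t2
  have lift : ∀ y ∈ R.map q, QEl l y → ∃ g ∈ normalClosure {s}, QEl l g ∧ q g = y := by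
    rintro _ ⟨r, hr, rfl⟩ h
    obtain ⟨a, a1, a2, a3⟩ := PT.qel_lift q (isOfFinOrder_of_finite r) h
    exact ⟨a, r1 (zpowers_le.2 hr a1), a2, a3⟩
  choose g g1 g2 g3 using fun i => lift _ (c1 i).1 (c1 i).2.2.1
  choose g' g1' g2' g3' using fun i => lift _ (c1 i).2.1 (c1 i).2.2.2.1
  have key : ∀ t ∈ normalClosure {s}, ∀ t' ∈ normalClosure {s}, QEl l t → QEl l t' →
      Ind σ' (q t) (q t') → Commute t t' := fun t a1 t' a2 a3 a4 h =>
    v5 t a1 t' a2 a3 a4 (s3 t ▸ s3 t' ▸ h.1) (s3 t ▸ s3 t' ▸ h.2)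
  have kx : ∀ t ∈ normalClosure {s}, QEl l t → (∀ y ∈ q '' Ψ, Ind σ' y (q t)) → Commute x t := by
    intro t a1 a2 a3
    refine mem_centralizer_singleton_iff.1 ((closure_le (centralizer {t})).2 (fun y hy => ?_) hx)
    obtain ⟨c, rfl⟩ := isConj_iff.1 (hΨ y hy)
    have a4 : QEl l (c * s * c⁻¹) := PT.Grp.qel_map (MulAut.conj c).toMonoidHom hs
    have a5 : s ∈ normalClosure {s} := subset_normalClosure rfl
    exact mem_centralizer_singleton_iff.2 (key _ (normalClosure_normal.conj_mem _ a5 c) t a1 a4 a2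
      (a3 _ ⟨_, hy, rfl⟩)).eq
  refine PT.not_noChain g g' (fun i => ⟨kx _ (g1 i) (g2 i) fun y hy => ?_,
    kx _ (g1' i) (g2' i) fun y hy => ?_⟩) (fun i j h => key _ (g1 i) _ (g1' j) (g2 i) (g2' j) ?_)
    fun i h => (c1 i).2.2.2.2.1 ?_
  · exact g3 i ▸ ((c1 i).2.2.2.2.2 y hy).1
  · exact g3' i ▸ ((c1 i).2.2.2.2.2 y hy).2
  · exact g3 i ▸ g3' j ▸ c2 i j h
  · exact g3 i ▸ g3' i ▸ (h.map q).map φ'

end Pool.Agent.Lib.MP_679d9b_al.KG
end
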