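import Mathlib
import Pool.Agent.Lib.MP_679d9b_al.KG.Ty

/-! Geometry for elements of bounded rank. -/

set_option autoImplicit false

namespace Pool.Agent.Lib.MP_679d9b_al.KG

open Subgroup Matrix
open scoped commutatorElement
open PT (SL PSL PEl QEl)

namespace GeoF

variable {K V : Type} [Field K] [AddCommGroup V] [Module K V]

section Common
variable {ι : Type} [Fintype ι] [DecidableEq ι]

theorem mem_comm {I : Subgroup (V ≃ₗ[K] V)} (η : SL ι K →* (V ≃ₗ[K] V))
    (h3 : 3 ≤ Fintype.card ι) (hI : ∀ A, η A ∈ I) (A : SL ι K) : η A ∈ ⁅I, I⁆ := by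
  have hp : ⁅(⊤ : Subgroup (SL ι K)), (⊤ : Subgroup (SL ι K))⁆ = ⊤ :=
    (PT.sl_perfect (K := K) h3).commutator_eq_top
  have h1 : η A ∈ (⁅(⊤ : Subgroup (SL ι K)), (⊤ : Subgroup (SL ι K))⁆).map η :=
    mem_map_of_mem η (by rw [hp]; exact mem_top A)
  rw [map_commutator] at h1
  have le : (⊤ : Subgroup (SL ι K)).map η ≤ I := by
    rintro _ ⟨B, -, rfl⟩
    exact hI B
  exact commutator_mono le le h1

theorem scal_one (η : SL ι K →* (V ≃ₗ[K] V)) {e : ι → V} {g : ι → V →ₗ[K] K}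
    (hd : ∀ i j, g i (e j) = if i = j then 1 else 0)
    (he : ∀ A j, η A (e j) = ∑ i, A.1 i j • e i) {U : Submodule K V} (hU : U ≠ ⊤)
    (hv : ∀ A v, η A v - v ∈ U) (A : SL ι K) (h : Scal (η A)) : A = 1 := by
  obtain ⟨c, hc⟩ := h
  have c1 : c = 1 := by
    by_contra hne
    refine hU (Submodule.eq_top_iff'.2 fun v => ?_)
    have := hv A v
    rw [hc, show c • v - v = (c - 1) • v by rw [sub_smul, one_smul]] at this
    exact (U.smul_mem_iff (sub_ne_zero.2 hne)).1 this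
  apply Subtype.ext
  ext i j
  have := congrArg (g i) (he A j)
  rw [hc, c1, one_smul, hd, map_sum] at this
  simp only [map_smul, hd, smul_eq_mul, mul_ite, mul_one, mul_zero, Finset.sum_ite_eq,
    Finset.mem_univ, if_true] at this
  rw [← this]
  simp [one_apply]

theorem comm_all [Nontrivial ι] (η : SL ι K →* (V ≃ₗ[K] V)) {y : V ≃ₗ[K] V}
    (h : ∀ (i j : ι) (hij : i ≠ j) (c : K),
      Commute y (η (SpecialLinearGroup.transvection hij c))) (A : SL ι K) : Commute y (η A) :=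
  PT.tv_induction (fun A => Commute y (η A)) h
    (fun A B hA hB => by rw [map_mul]; exact hA.mul_right hB) A

end Common

theorem comm_iff {G : Type} [Group G] {x y z : G} (h : x * y = z * y * x) : ⁅x, y⁆ = z := by
  rw [commutatorElement_def, h]
  group

variable [FiniteDimensional K V]

theorem exW (Y : Finset (V ≃ₗ[K] V)) (N : ℕ)
    (h : ∀ y ∈ Y, rk ((y : Module.End K V) - 1) ≤ N) :
    ∃ W : Submodule K V, Module.finrank K W ≤ Y.card * N ∧ ∀ y ∈ Y, ∀ v, y v - v ∈ W := by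
  classical
  induction Y using Finset.induction_on with
  | empty => exact ⟨⊥, by simp, by simp⟩
  | insert a Y ha ih =>
    obtain ⟨W, h1, h2⟩ := ih fun y hy => h y (Finset.mem_insert_of_mem hy)
    refine ⟨LinearMap.range ((a : Module.End K V) - 1) ⊔ W, ?_, fun y hy v => ?_⟩
    · have := Submodule.finrank_add_le_finrank_add_finrank
        (LinearMap.range ((a : Module.End K V) - 1)) W
      have h3 := h a (Finset.mem_insert_self _ _)
      unfold rk at h3
      rw [Finset.card_insert_of_notMem ha, add_mul, one_mul]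
      omega
    · rcases Finset.mem_insert.1 hy with rfl | hy
      · exact Submodule.mem_sup_left ⟨v, rfl⟩
      · exact Submodule.mem_sup_right (h2 y hy v)

theorem exF (Y : Finset (V ≃ₗ[K] V)) (N : ℕ)
    (h : ∀ y ∈ Y, rk ((y : Module.End K V) - 1) ≤ N) :
    ∃ F : Submodule K V, Module.finrank K V ≤ Module.finrank K F + Y.card * N ∧
      ∀ y ∈ Y, ∀ v ∈ F, y v = v := by
  classical
  induction Y using Finset.induction_on with
  | empty => exact ⟨⊤, by simp, by simp⟩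
  | insert a Y ha ih =>
    obtain ⟨F, h1, h2⟩ := ih fun y hy => h y (Finset.mem_insert_of_mem hy)
    refine ⟨LinearMap.ker ((a : Module.End K V) - 1) ⊓ F, ?_, fun y hy v hv => ?_⟩
    · have e1 := Submodule.finrank_sup_add_finrank_inf_eq
        (LinearMap.ker ((a : Module.End K V) - 1)) F
      have e2 := LinearMap.finrank_range_add_finrank_ker ((a : Module.End K V) - 1)
      have e3 := Submodule.finrank_le (LinearMap.ker ((a : Module.End K V) - 1) ⊔ F)
      have h3 := h a (Finset.mem_insert_self _ _)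
      unfold rk at h3
      rw [Finset.card_insert_of_notMem ha, add_mul, one_mul]
      omega
    · rcases Finset.mem_insert.1 hy with rfl | hy
      · exact sub_eq_zero.1 (show y v - v = 0 from hv.1)
      · exact h2 y hy v hv.2

theorem sup_span (W : Submodule K V) (v : V) :
    Module.finrank K (W ⊔ Submodule.span K {v} : Submodule K V) ≤ Module.finrank K W + 1 := by
  have := Submodule.finrank_add_le_finrank_add_finrank W (Submodule.span K {v})
  have h := finrank_span_le_card (R := K) ({v} : Set V)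
  simp only [Set.toFinset_singleton, Finset.card_singleton] at h
  omega

theorem span_ne_top {ι : Type} [Fintype ι] (e f : ι → V)
    (h : 2 * Fintype.card ι < Module.finrank K V) :
    Submodule.span K (Set.range e) ⊔ Submodule.span K (Set.range f) ≠ ⊤ := by
  intro ht
  have := Submodule.finrank_add_le_finrank_add_finrank (Submodule.span K (Set.range e))
    (Submodule.span K (Set.range f))
  have h1 := finrank_range_le_card (R := K) e
  have h2 := finrank_range_le_card (R := K) f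
  rw [ht, finrank_top] at this
  unfold Set.finrank at h1 h2
  omega

/-! ### The linear case -/

omit [FiniteDimensional K V] in
/-- transvections -/
theorem ex_tv (a : V) (φ : V →ₗ[K] K) (h : φ a = 0) :
    ∃ t : V ≃ₗ[K] V, ∀ v, t v = v + φ v • a :=
  ⟨LinearEquiv.ofLinear (LinearMap.id + φ.smulRight a) (LinearMap.id - φ.smulRight a)
    (by ext v; simp [h]) (by ext v; simp [h]), fun v => by simp⟩

omit [FiniteDimensional K V] in
theorem tv_top {a b : V} {φ ψ : V →ₗ[K] K} (h1 : φ a = 0) (h2 : φ b = 1) (h3 : ψ a = 0)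
    (h4 : ψ b = 0) : ∃ t ∈ (⁅(⊤ : Subgroup (V ≃ₗ[K] V)), ⊤⁆ : Subgroup (V ≃ₗ[K] V)),
      ∀ v, t v = v + ψ v • a := by
  obtain ⟨x, hx⟩ := ex_tv a φ h1
  obtain ⟨y, hy⟩ := ex_tv b ψ h4
  obtain ⟨z, hz⟩ := ex_tv a ψ h3
  refine ⟨z, ?_, hz⟩
  rw [← comm_iff (x := x) (y := y) (z := z)]
  · exact commutator_mem_commutator (mem_top _) (mem_top _)
  · ext v
    simp only [LinearEquiv.mul_apply, hx, hy, hz, map_add, map_smul, h1, h2, h3, h4, smul_eq_mul,
      mul_zero, mul_one, add_zero]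
    module

omit [FiniteDimensional K V] in
theorem ex_eta {ι : Type} [Fintype ι] [DecidableEq ι] (e : ι → V) (g : ι → V →ₗ[K] K)
    (hd : ∀ i j, g i (e j) = if i = j then 1 else 0) : ∃ η : SL ι K →* (V ≃ₗ[K] V),
      (∀ A j, η A (e j) = ∑ i, A.1 i j • e i) ∧
      (∀ A v, η A v - v ∈ Submodule.span K (Set.range e)) ∧
      ∀ (i j : ι) (h : i ≠ j) (c : K) v,
        η (SpecialLinearGroup.transvection h c) v = v + (c * g j v) • e i := by
  let P : (ι → K) →ₗ[K] V := Fintype.linearCombination K e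
  let Q : V →ₗ[K] ι → K := LinearMap.pi g
  have Qe : ∀ j, Q (e j) = Pi.single j 1 := fun j => by
    ext i
    simp [Q, hd, Pi.single_apply]
  have QP : ∀ x, Q (P x) = x := fun x => by
    simp only [P, Fintype.linearCombination_apply, map_sum, map_smul, Qe]
    ext i
    simp [Finset.sum_apply, Pi.single_apply]
  let T : Matrix ι ι K → V →ₗ[K] V := fun A => LinearMap.id + P ∘ₗ (A - 1).mulVecLin ∘ₗ Q
  have Tv : ∀ A v, T A v = v + P ((A - 1) *ᵥ Q v) := fun A v => rfl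
  have Tm : ∀ A B v, T A (T B v) = T (A * B) v := fun A B v => by
    rw [Tv, Tv, Tv, map_add, QP, add_assoc, ← map_add, mulVec_add, mulVec_mulVec, ← add_mulVec,
      ← add_mulVec]
    congr 3
    noncomm_ring
  have T1 : ∀ v, T 1 v = v := fun v => by simp [Tv]
  let η : SL ι K →* (V ≃ₗ[K] V) :=
    { toFun := fun A => LinearEquiv.ofLinear (T A.1) (T (A⁻¹).1)
        (LinearMap.ext fun v => by
          rw [LinearMap.comp_apply, Tm, PT.SLn.val_mul_inv, T1, LinearMap.id_apply])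
        (LinearMap.ext fun v => by
          rw [LinearMap.comp_apply, Tm, PT.SLn.val_inv_mul, T1, LinearMap.id_apply])
      map_one' := LinearEquiv.ext fun v => T1 v
      map_mul' := fun A B => LinearEquiv.ext fun v => (Tm A.1 B.1 v).symm }
  have ηv : ∀ A v, η A v = v + P ((A.1 - 1) *ᵥ Q v) := fun A v => rfl
  refine ⟨η, fun A j => ?_, fun A v => ?_, fun i j h c v => ?_⟩
  · rw [ηv, Qe, sub_mulVec, one_mulVec, map_sub]
    simp [P, Fintype.linearCombination_apply, Pi.single_apply]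
  · rw [ηv, add_sub_cancel_left, ← Fintype.range_linearCombination]
    exact ⟨_, rfl⟩
  · rw [ηv, PT.SLn.tv_val, add_sub_cancel_left, single_mulVec]
    simp [P, Q, Fintype.linearCombination_apply, Function.update_apply]

theorem lin_frame {ι : Type} [Fintype ι] [DecidableEq ι] (F W : Submodule K V)
    (h : Fintype.card ι + Module.finrank K W ≤ Module.finrank K F) :
    ∃ (e : ι → V) (g : ι → V →ₗ[K] K), (∀ i j, g i (e j) = if i = j then 1 else 0) ∧
      (∀ i, e i ∈ F) ∧ ∀ i, ∀ w ∈ W, g i w = 0 := by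
  have e1 := LinearMap.finrank_range_add_finrank_ker (W.mkQ ∘ₗ F.subtype)
  have e2 : Module.finrank K (LinearMap.ker (W.mkQ ∘ₗ F.subtype)) ≤ Module.finrank K W := by
    rw [LinearMap.ker_comp, Submodule.ker_mkQ, ← Submodule.finrank_map_subtype_eq]
    exact Submodule.finrank_mono (Submodule.map_comap_le _ _)
  obtain ⟨b, hb⟩ := exists_linearIndependent_of_le_finrank (R := K)
    (M := LinearMap.range (W.mkQ ∘ₗ F.subtype)) (n := Fintype.card ι) (by omega)
  have hb' := (hb.map' _ (Submodule.ker_subtype _)).comp _ (Fintype.equivFin ι).injective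
  choose x hx using fun i => (b (Fintype.equivFin ι i)).2
  obtain ⟨G, hG⟩ := LinearMap.exists_leftInverse_of_injective (Fintype.linearCombination K _)
    (LinearMap.ker_eq_bot.2 hb'.fintypeLinearCombination_injective)
  refine ⟨fun i => x i, fun i => LinearMap.proj i ∘ₗ G ∘ₗ W.mkQ, fun i j => ?_, fun i => (x i).2,
    fun i w hw => ?_⟩
  · have := congrFun (LinearMap.congr_fun hG (Pi.single j 1)) i
    rw [LinearMap.comp_apply, Fintype.linearCombination_apply_single, one_smul] at this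
    simp only [Function.comp_apply, Submodule.subtype_apply, ← hx j] at this
    simpa [Pi.single_apply] using this
  · simp [(Submodule.Quotient.mk_eq_zero W).2 hw]

/-- the statement for one group -/
def Out (M : ℕ) (I : Subgroup (V ≃ₗ[K] V)) (Y : Finset (V ≃ₗ[K] V)) (s : V ≃ₗ[K] V) : Prop :=
  ∃ η : SL (Fin 2 ⊕ Fin M) K →* (V ≃ₗ[K] V), (∀ A, η A ∈ ⁅I, I⁆) ∧ (∀ A, Scal (η A) → A = 1) ∧
    (∀ y ∈ Y, ∀ A : SL (Fin M) K, Commute y (η (PT.blkR (Fin 2) A))) ∧
    ∃ E ∈ ⁅I, I⁆, ∃ E' ∈ ⁅I, I⁆, ∃ (i j : Fin 2 ⊕ Fin M) (h : i ≠ j),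
      η (SpecialLinearGroup.transvection h 1) = ⁅⁅s, E⁆, E'⁆

omit [FiniteDimensional K V] in
theorem ex_moved {s : V ≃ₗ[K] V} (h : s ≠ 1) : ∃ v, s v - v ≠ 0 := by
  by_contra hn
  push Not at hn
  exact h (LinearEquiv.ext fun v => sub_eq_zero.1 (hn v))

theorem linear {c N M : ℕ} {Y : Finset (V ≃ₗ[K] V)} {s : V ≃ₗ[K] V} (hM : 1 ≤ M)
    (hn : 2 * (c * N) + 2 * M + 5 ≤ Module.finrank K V) (hc : Y.card ≤ c) (hs : s ∈ Y)
    (hs1 : s ≠ 1) (hY : ∀ y ∈ Y, rk ((y : Module.End K V) - 1) ≤ N) : Out M ⊤ Y s := by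
  obtain ⟨W, w1, w2⟩ := exW Y N hY
  obtain ⟨F, f1, f2⟩ := exF Y N hY
  obtain ⟨v, hv⟩ := ex_moved hs1
  have cN := Nat.mul_le_mul_right N hc
  have d := sup_span W v
  obtain ⟨e, g, hd, he, hg⟩ := lin_frame (ι := Fin 2 ⊕ Fin M) F (W ⊔ Submodule.span K {v})
    (by simp only [Fintype.card_sum, Fintype.card_fin]; omega)
  have gW : ∀ i, ∀ y ∈ Y, ∀ x, g i (y x) = g i x := fun i y hy x => by
    rw [← sub_eq_zero, ← map_sub]
    exact hg i _ (Submodule.mem_sup_left (w2 y hy x))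
  have gv : ∀ i, g i v = 0 := fun i =>
    hg i _ (Submodule.mem_sup_right (Submodule.mem_span_singleton_self v))
  have gb : ∀ i, g i (s v - v) = 0 := fun i => by rw [map_sub, gW i s hs, sub_self]
  obtain ⟨η, η1, η2, η3⟩ := ex_eta e g hd
  obtain ⟨χ, hχ⟩ := Module.Projective.exists_dual_eq_one K hv
  let ψ : V →ₗ[K] K := χ - ∑ i, χ (e i) • g i
  have ψb : ψ (s v - v) = 1 := by simp [ψ, LinearMap.sum_apply, gb, hχ, -map_sub]
  have ψe : ∀ j, ψ (e j) = 0 := fun j => by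
    simp [ψ, LinearMap.sum_apply, hd, -Fintype.sum_sum_type]
  let k : Fin M := ⟨0, hM⟩
  haveI : Nontrivial (Fin 2 ⊕ Fin M) := ⟨⟨.inl 0, .inl 1, by simp⟩⟩
  obtain ⟨E, hE, Ev⟩ := tv_top (a := v) (b := e (.inr k)) (φ := g (.inr k)) (ψ := g (.inl 1))
    (gv _) (by simp [hd]) (gv _) (by simp [hd])
  obtain ⟨E', hE', Ev'⟩ := tv_top (a := -e (.inl 0)) (b := e (.inr k)) (φ := g (.inr k)) (ψ := ψ)
    (by simp [hd]) (by simp [hd]) (by simp [ψe]) (ψe _)
  obtain ⟨t, ht⟩ := ex_tv (s v - v) (g (.inl 1)) (gb _)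
  refine ⟨η, mem_comm η (by simp only [Fintype.card_sum, Fintype.card_fin]; omega)
    fun _ => mem_top _, scal_one η hd η1 (span_ne_top e e
      (by simp only [Fintype.card_sum, Fintype.card_fin]; omega))
      fun A v => Submodule.mem_sup_left (η2 A v), fun y hy A => comm_all η (fun i j h c => ?_) _,
    E, hE, E', hE', .inl 0, .inl 1, by simp, ?_⟩
  · refine LinearEquiv.ext fun x => ?_
    simp only [LinearEquiv.mul_apply, η3, map_add, map_smul, gW j y hy, f2 y hy _ (he i)]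
  · have e1 : ⁅s, E⁆ = t := comm_iff (LinearEquiv.ext fun x => by
      simp only [LinearEquiv.mul_apply, Ev, ht, map_add, map_smul, gW _ s hs, gv, smul_eq_mul,
        mul_zero, add_zero]
      module)
    rw [e1]
    refine (comm_iff (LinearEquiv.ext fun x => ?_)).symm
    have g10 : g (.inl 1) (e (.inl 0)) = 0 := by simp [hd]
    simp only [LinearEquiv.mul_apply, Ev', ht, η3, map_add, map_smul, map_neg, gb, ψb, g10,
      smul_eq_mul, mul_zero, mul_one, add_zero, neg_zero, one_mul]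
    module

/-! ### The case of a form -/

section Form
omit [FiniteDimensional K V]
variable (Φ : Frm K V)

theorem B0 {x y : V} (h : Φ.B x y = 0) : Φ.B y x = 0 := by rw [Φ.refl, h, map_zero, mul_zero]

theorem ε2 : Φ.ε * Φ.ε = 1 := by rcases Φ.εε with h | h <;> simp [h]

theorem σε : Φ.σ Φ.ε = Φ.ε := by rcases Φ.εε with h | h <;> simp [h]

theorem Bs (c : K) (x y : V) : Φ.B (c • x) y = Φ.σ c * Φ.B x y := by
  rw [LinearMap.map_smulₛₗ₂, smul_eq_mul]

theorem q_neg (x : V) : Φ.q (-x) = Φ.q x := by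
  rw [← neg_one_smul K x, Φ.qsmul]
  simp

/-- Siegel transformations -/
def IsE (g : V ≃ₗ[K] V) (u w : V) : Prop :=
  ∀ x, g x = x + Φ.B w x • u - (Φ.ε * Φ.B u x) • w

variable {Φ}

theorem IsE.conj {g s : V ≃ₗ[K] V} {u w : V} (h : IsE Φ g u w) (hs : s ∈ Φ.iso) :
    IsE Φ (s * g * s⁻¹) (s u) (s w) := fun x => by
  obtain ⟨z, rfl⟩ := s.surjective x
  have e : (s * g * s⁻¹) (s z) = s (g z) := by simp
  rw [e, h, hs.1, hs.1, map_sub, map_add, map_smul, map_smul]

theorem IsE.mul {g g' : V ≃ₗ[K] V} {u u' w : V} (h : IsE Φ g u w) (h' : IsE Φ g' u' w)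
    (a1 : Φ.B w u' = 0) (a2 : Φ.B w w = 0) (a3 : Φ.B u w = 0) (a4 : Φ.B u u' = 0) :
    IsE Φ (g * g') (u + u') w := fun x => by
  rw [LinearEquiv.mul_apply, h, h']
  simp only [map_add, map_sub, map_smul, a1, a2, a3, a4, smul_eq_mul, mul_zero, add_zero, sub_zero,
    LinearMap.add_apply]
  module

theorem IsE.inv {g : V ≃ₗ[K] V} {u w : V} (h : IsE Φ g u w)
    (a1 : Φ.B w u = 0) (a2 : Φ.B w w = 0) (a4 : Φ.B u u = 0) : IsE Φ g⁻¹ (-u) w := fun x => by
  have a3 := B0 Φ a1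
  apply g.injective
  have e : g (g⁻¹ x) = x := by simp
  rw [e, h]
  simp only [map_add, map_sub, map_smul, map_neg, a1, a2, a3, a4, smul_eq_mul, mul_zero, add_zero,
    sub_zero, neg_zero, LinearMap.neg_apply]
  module

theorem IsE.uniq {g g' : V ≃ₗ[K] V} {u w : V} (h : IsE Φ g u w) (h' : IsE Φ g' u w) : g = g' :=
  LinearEquiv.ext fun x => (h x).trans (h' x).symm

variable {ι : Type} [DecidableEq ι] {e f : ι → V}

theorem fr_ef (h : Φ.Fr e f) (i j : ι) : Φ.B (e i) (f j) = if i = j then Φ.ε else 0 := by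
  rw [Φ.refl, h.dual]
  by_cases hij : i = j
  · simp [hij]
  · simp [hij, Ne.symm hij]

theorem fr_comp (h : Φ.Fr e f) {κ : Type} [DecidableEq κ] {g : κ → ι}
    (hg : Function.Injective g) : Φ.Fr (e ∘ g) (f ∘ g) :=
  ⟨⟨fun i => h.te.1 _, fun i j => h.te.2 _ _⟩, ⟨fun i => h.tf.1 _, fun i j => h.tf.2 _ _⟩,
    fun i j => by simp [h.dual, hg.eq_iff]⟩

theorem fr_update (h : Φ.Fr e f) (k : ι) {v : V} (hv : ∀ i, Φ.B v (e i) = 0 ∧ Φ.B v (f i) = 0) :
    ∃ c : K, Φ.Fr (Function.update e k (v + e k - c • f k)) f := by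
  obtain ⟨c, hc⟩ := Φ.lift (f k) (v + e k) (h.tf.1 k)
    (by rw [map_add, B0 Φ (hv k).2, h.dual]; simp)
  have key : ∀ j, j ≠ k → Φ.B (v + e k - c • f k) (e j) = 0 := fun j hj => by
    simp [Bs, (hv j).1, h.te.2, h.dual, Ne.symm hj]
  refine ⟨c, ⟨fun i => ?_, fun i j => ?_⟩, h.tf, fun i j => ?_⟩
  · by_cases hi : i = k
    · simpa [hi] using hc
    · simpa [hi] using h.te.1 i
  · by_cases hi : i = k <;> by_cases hj : j = k
    · simpa only [hi, hj, Function.update_self] using Φ.sing _ hc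
    · simpa only [hi, Function.update_self, Function.update_of_ne hj] using key j hj
    · simpa only [hj, Function.update_self, Function.update_of_ne hi] using B0 Φ (key i hi)
    · simpa only [Function.update_of_ne hi, Function.update_of_ne hj] using h.te.2 i j
  · by_cases hj : j = k
    · simp [hj, B0 Φ (hv i).2, h.dual, h.tf.2]
    · simpa only [Function.update_of_ne hj] using h.dual i j

theorem fr_swap (h : Φ.Fr e f) (k : ι) :
    Φ.Fr (Function.update e k (-(Φ.ε • f k))) (Function.update f k (-e k)) := by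
  refine ⟨⟨fun i => ?_, fun i j => ?_⟩, ⟨fun i => ?_, fun i j => ?_⟩, fun i j => ?_⟩
  · by_cases hi : i = k
    · simp [hi, q_neg, Φ.qsmul, h.tf.1]
    · simpa [hi] using h.te.1 i
  · by_cases hi : i = k <;> by_cases hj : j = k <;>
      simp [hi, hj, Bs, h.te.2, h.tf.2, h.dual, fr_ef h, Ne.symm, eq_comm]
  · by_cases hi : i = k
    · simp [hi, q_neg, h.te.1]
    · simpa [hi] using h.tf.1 i
  · by_cases hi : i = k <;> by_cases hj : j = k <;>
      simp [hi, hj, h.te.2, h.tf.2, h.dual, fr_ef h, Ne.symm, eq_comm]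
  · by_cases hi : i = k <;> by_cases hj : j = k <;>
      simp [hi, hj, h.te.2, h.tf.2, h.dual, fr_ef h, ε2, Ne.symm, eq_comm]

theorem ex_E (hE : EtaStmt) [Fintype ι] (h3 : 3 ≤ Fintype.card ι) (h : Φ.Fr e f) {i j : ι}
    (hij : i ≠ j) : ∃ g ∈ (⁅Φ.iso, Φ.iso⁆ : Subgroup (V ≃ₗ[K] V)), g ∈ Φ.iso ∧
      IsE Φ g (e i) (f j) := by
  obtain ⟨η, η0, -, -, -, η4⟩ := hE K V ι Φ e f h
  exact ⟨_, mem_comm η h3 η0 (SpecialLinearGroup.transvection hij 1), η0 _,
    fun x => by rw [η4]; simp⟩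

theorem fixed {y : V ≃ₗ[K] V} {l : K} (hy : ∀ x z, Φ.B (y x) (y z) = l * Φ.B x z) {u : V}
    (hu : ∀ x, Φ.B (y x - x) u = 0) : y u = l • u := by
  rw [← sub_eq_zero]
  refine Φ.nd _ fun z => B0 Φ ?_
  obtain ⟨x, rfl⟩ := y.surjective z
  have := hu x
  rw [map_sub, LinearMap.sub_apply, sub_eq_zero] at this
  rw [map_sub, map_smul, hy, this, smul_eq_mul, sub_self]

theorem mem_iso {y : V ≃ₗ[K] V} (hy : Nz Φ.iso y) {u w : V} (huw : Φ.B w u = 1)
    (hu : ∀ x, Φ.B (y x - x) u = 0) (hw : ∀ x, Φ.B (y x - x) w = 0) : y ∈ Φ.iso := by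
  obtain ⟨y0, h0, c, hc⟩ := hy
  have hB : ∀ x z, Φ.B (y x) (y z) = (Φ.σ c * c) * Φ.B x z := fun x z => by
    rw [hc, hc, Bs, map_smul, h0.1, smul_eq_mul, mul_assoc]
  have l1 : Φ.σ c * c = 1 := by
    have a := hu w
    rw [fixed hB hw, map_sub, LinearMap.sub_apply, Bs, huw, mul_one, sub_eq_zero] at a
    rw [← Φ.σσ (Φ.σ c * c), a, map_one]
  exact ⟨fun x z => by rw [hB, l1, one_mul], fun x => by rw [hc, Φ.qsmul, l1, one_mul, h0.2]⟩

end Form

theorem form (hE : EtaStmt) (Φ : Frm K V) {M : ℕ} {Y : Finset (V ≃ₗ[K] V)} {s : V ≃ₗ[K] V}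
    (hM : 1 ≤ M) (hn : 2 * M + 5 ≤ Module.finrank K V) (hs : s ∈ Y)
    (hY : ∀ y ∈ Y, Nz Φ.iso y) {v v' : V} (hv : Φ.B (s v - v) v' = 1)
    {e f : (Fin 2 ⊕ Fin M) ⊕ Fin 2 → V} (h : Φ.Fr e f)
    (hW : ∀ y ∈ Y, ∀ x i, Φ.B (y x - x) (e i) = 0 ∧ Φ.B (y x - x) (f i) = 0)
    (h0 : ∀ i, Φ.B v (e i) = 0 ∧ Φ.B v (f i) = 0)
    (h1 : ∀ i, Φ.B v' (e i) = 0 ∧ Φ.B v' (f i) = 0) : Out M Φ.iso Y s := by
  have iso : ∀ y ∈ Y, y ∈ Φ.iso := fun y hy =>
    mem_iso (hY y hy) (u := e (.inr 0)) (w := f (.inr 0)) (by simp [h.dual])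
      (fun x => (hW y hy x _).1) fun x => (hW y hy x _).2
  have fe : ∀ y ∈ Y, ∀ i, y (e i) = e i := fun y hy i => by
    simpa using fixed (l := 1) (fun x z => by rw [(iso y hy).1, one_mul]) fun x => (hW y hy x i).1
  have ff : ∀ y ∈ Y, ∀ i, y (f i) = f i := fun y hy i => by
    simpa using fixed (l := 1) (fun x z => by rw [(iso y hy).1, one_mul]) fun x => (hW y hy x i).2
  let k : Fin M := ⟨0, hM⟩
  haveI : Nontrivial (Fin 2 ⊕ Fin M) := ⟨⟨.inl 0, .inl 1, by simp⟩⟩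
  have c3 : 3 ≤ Fintype.card ((Fin 2 ⊕ Fin M) ⊕ Fin 2) := by
    simp only [Fintype.card_sum, Fintype.card_fin]; omega
  obtain ⟨c, fa⟩ := fr_update h (.inr 0) h0
  obtain ⟨c', fb⟩ := fr_update h (.inr 1) h1
  obtain ⟨E, hE1, hE2, hE3⟩ := ex_E hE c3 fa (i := .inr 0) (j := .inl (.inl 0)) (by simp)
  obtain ⟨E', hF1, -, hF3⟩ := ex_E hE c3 fb (i := .inr 1) (j := .inl (.inr k)) (by simp)
  have aa := fa.te.2 (.inr 0) (.inr 0)
  have bb := fb.te.2 (.inr 1) (.inr 1)
  have wa : ∀ i, Φ.B (f (.inl i)) _ = 0 := fun i => (fa.dual (.inl i) (.inr 0)).trans (by simp)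
  have wb : ∀ i, Φ.B (f (.inl i)) _ = 0 := fun i => (fb.dual (.inl i) (.inr 1)).trans (by simp)
  rw [Function.update_self] at hE3 hF3 aa bb
  simp only [Function.update_self] at wa wb
  have sa : s (v + e (.inr 0) - c • f (.inr 0)) = (v + e (.inr 0) - c • f (.inr 0)) + (s v - v) := by
    rw [map_sub, map_add, map_smul, fe s hs, ff s hs]
    abel
  have ba : Φ.B (s v - v) (v' + e (.inr 1) - c' • f (.inr 1)) = 1 := by
    rw [map_sub (Φ.B (s v - v)), map_add, map_smul, hv, (hW s hs v _).1, (hW s hs v _).2]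
    simp
  have bw : ∀ i, Φ.B (s v - v) (f i) = 0 := fun i => (hW s hs v i).2
  generalize v + e (.inr 0) - c • f (.inr 0) = a at hE3 aa wa sa
  generalize v' + e (.inr 1) - c' • f (.inr 1) = b at hF3 bb wb ba
  generalize s v - v = d at sa ba bw
  have E1 := hE3.conj (iso s hs)
  rw [sa, ff s hs] at E1
  have E2 := hE3.inv (wa _) (h.tf.2 _ _) aa
  have y1 : ⁅s, E⁆ ∈ Φ.iso := by
    rw [commutatorElement_def]
    exact mul_mem (mul_mem (mul_mem (iso s hs) hE2) (inv_mem (iso s hs))) (inv_mem hE2)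
  have yv : ∀ x, ⁅s, E⁆ x = (s * E * s⁻¹) (E⁻¹ x) := fun x => rfl
  have yw : ⁅s, E⁆ (f (.inl (.inr k))) = f (.inl (.inr k)) := by
    rw [yv, E2, E1]
    simp [h.tf.2, B0 Φ (wa _), bw]
  have yb : ⁅s, E⁆ b = b - Φ.ε • f (.inl (.inl 0)) := by
    rw [yv, E2, E1]
    simp only [map_add, map_sub, map_smul, map_neg, wb, h.tf.2, B0 Φ (wa _), bw, ba, smul_eq_mul,
      mul_zero, add_zero, sub_zero, zero_smul, LinearMap.add_apply, LinearMap.neg_apply]
    module
  have F1 := hF3.conj y1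
  rw [yw, yb] at F1
  have F2 := F1.mul (hF3.inv (wb _) (h.tf.2 _ _) bb) (by simp [wb]) (h.tf.2 _ _)
    (by simp [Bs, B0 Φ (wb _), h.tf.2]) (by simp [Bs, wb, bb])
  have fr := fr_comp (fr_swap h (.inl (.inl 0))) Sum.inl_injective
  obtain ⟨η, η0, η1, -, η3, η4⟩ := hE K V _ Φ _ _ fr
  refine ⟨η, mem_comm η (by simp only [Fintype.card_sum, Fintype.card_fin]; omega) η0,
    scal_one η (g := fun i => Φ.B _) fr.dual η1 (span_ne_top _ _
      (by simp only [Fintype.card_sum, Fintype.card_fin]; omega)) η3,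
    fun y hy A => comm_all η (fun i j hij c => ?_) _, E, hE1, E', hF1, .inl 0, .inr k, by simp, ?_⟩
  · have fe' : ∀ i, y ((Function.update e (.inl (.inl 0)) (-(Φ.ε • f (.inl (.inl 0)))) ∘ Sum.inl) i)
        = (Function.update e (.inl (.inl 0)) (-(Φ.ε • f (.inl (.inl 0)))) ∘ Sum.inl) i := fun i => by
      by_cases hi : i = .inl 0 <;> simp [hi, fe y hy, ff y hy]
    have ff' : ∀ i, y ((Function.update f (.inl (.inl 0)) (-e (.inl (.inl 0))) ∘ Sum.inl) i)
        = (Function.update f (.inl (.inl 0)) (-e (.inl (.inl 0))) ∘ Sum.inl) i := fun i => by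
      by_cases hi : i = .inl 0 <;> simp [hi, fe y hy, ff y hy]
    have B1 : ∀ u x, y u = u → Φ.B u (y x) = Φ.B u x := fun u x hu => by
      rw [← (iso y hy).1 u x, hu]
    refine LinearEquiv.ext fun x => ?_
    rw [LinearEquiv.mul_apply, LinearEquiv.mul_apply, η4, η4, map_sub, map_add, map_smul,
      map_smul, fe', ff', B1 _ _ (fe' _), B1 _ _ (ff' _)]
  · refine IsE.uniq (Φ := Φ) (u := -(Φ.ε • f (.inl (.inl 0)))) (w := f (.inl (.inr k)))
      (fun x => ?_) ?_
    · rw [η4]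
      simp
    · rw [show -(Φ.ε • f (.inl (.inl 0))) = b - Φ.ε • f (.inl (.inl 0)) + -b by abel]
      exact F2

end GeoF

theorem geoFStmt (hE : EtaStmt) (hF : FrameStmt) : GeoFStmt := by
  intro c N M
  obtain ⟨n, hn⟩ := hF.2 (c * N + 2) (Fintype.card ((Fin 2 ⊕ Fin M) ⊕ Fin 2))
  refine ⟨n + (2 * (c * N) + 2 * M + 5), ?_⟩
  intro K V _ _ _ _ _ I Y s hI hM hd hc hs hs1 hY
  rcases hI with rfl | ⟨Φ, rfl⟩
  · exact GeoF.linear hM (by omega) hc hs hs1 fun y hy => (hY y hy).2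
  obtain ⟨W, w1, w2⟩ := GeoF.exW Y N fun y hy => (hY y hy).2
  obtain ⟨v, hv⟩ := GeoF.ex_moved hs1
  obtain ⟨v', hv'⟩ : ∃ v', Φ.B (s v - v) v' = 1 := by
    obtain ⟨z, hz⟩ : ∃ z, Φ.B (s v - v) z ≠ 0 := by
      by_contra hz
      push Not at hz
      exact hv (Φ.nd _ hz)
    exact ⟨(Φ.B (s v - v) z)⁻¹ • z, by rw [map_smul, smul_eq_mul, inv_mul_cancel₀ hz]⟩
  have cN := Nat.mul_le_mul_right N hc
  have d1 := GeoF.sup_span W v
  have d2 := GeoF.sup_span (W ⊔ Submodule.span K {v}) v'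
  obtain ⟨e, f, h, hp⟩ := hn K V Φ ((W ⊔ Submodule.span K {v}) ⊔ Submodule.span K {v'})
    (by omega) (by omega)
  exact GeoF.form hE Φ hM (by omega) hs (fun y hy => (hY y hy).1) hv'
    (GeoF.fr_comp h (Fintype.equivFin _).injective)
    (fun y hy x i => hp _ _ (Submodule.mem_sup_left (Submodule.mem_sup_left (w2 y hy x))))
    (fun i => hp _ _ (Submodule.mem_sup_left
      (Submodule.mem_sup_right (Submodule.mem_span_singleton_self v))))
    fun i => hp _ _ (Submodule.mem_sup_right (Submodule.mem_span_singleton_self v'))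

end Pool.Agent.Lib.MP_679d9b_al.KG
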