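import Mathlib
import Pool.Agent.Lib.MP_679d9b_al.KG.Ty

-- part Pool.Agent.Lib.MP_679d9b_al.KG.Frame
section

/-! Existence of hyperbolic frames. -/

set_option autoImplicit false

namespace Pool.Agent.Lib.MP_679d9b_al.KG

namespace Frame

variable {K V : Type} [Field K] [AddCommGroup V] [Module K V]

theorem eps_sq (Φ : Frm K V) : Φ.ε * Φ.ε = 1 := by
  rcases Φ.εε with h | h <;> rw [h] <;> ring

theorem sig_eps (Φ : Frm K V) : Φ.σ Φ.ε = Φ.ε := by
  rcases Φ.εε with h | h <;> rw [h] <;> simp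

theorem flip0 (Φ : Frm K V) {x y : V} (h : Φ.B x y = 0) : Φ.B y x = 0 := by
  rw [Φ.refl, h, map_zero, mul_zero]

theorem flip1 (Φ : Frm K V) {x y : V} (h : Φ.B x y = 1) : Φ.B y x = Φ.ε := by
  rw [Φ.refl, h, map_one, mul_one]

/-- Every functional is represented by a vector. -/
theorem exists_rep [FiniteDimensional K V] (Φ : Frm K V) (φ : V →ₗ[K] K) : ∃ y, Φ.B y = φ := by
  have : RingHomSurjective Φ.σ := ⟨fun a => ⟨Φ.σ a, Φ.σσ a⟩⟩
  have h1 : (LinearMap.range Φ.B).dualCoannihilator = ⊥ := by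
    rw [eq_bot_iff]
    intro v hv
    rw [Submodule.mem_dualCoannihilator] at hv
    exact Φ.nd v fun y => flip0 Φ (hv _ ⟨y, rfl⟩)
  have h2 : (LinearMap.range Φ.B).dualCoannihilator.dualAnnihilator = LinearMap.range Φ.B :=
    Subspace.dualCoannihilator_dualAnnihilator_eq
  rw [h1, Submodule.dualAnnihilator_bot] at h2
  have h3 : φ ∈ LinearMap.range Φ.B := by
    rw [← h2]
    trivial
  exact h3

/-- A singular partner with prescribed products. -/
theorem partner [FiniteDimensional K V] (Φ : Frm K V) {u : V} (hu : Φ.q u = 0) (φ : V →ₗ[K] K)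
    (h1 : φ u = 1) : ∃ f, Φ.q f = 0 ∧ ∀ z, Φ.B u z = 0 → Φ.B f z = φ z := by
  obtain ⟨y, hy⟩ := exists_rep Φ φ
  have a1 : Φ.B y u = 1 := by rw [hy, h1]
  have a2 : Φ.B (Φ.ε • u) y = 1 := by
    rw [LinearMap.map_smulₛₗ, LinearMap.smul_apply, flip1 Φ a1, sig_eps, smul_eq_mul, eps_sq]
  have a3 : Φ.q (Φ.ε • u) = 0 := by rw [Φ.qsmul, hu, mul_zero]
  obtain ⟨c, hc⟩ := Φ.lift _ y a3 a2
  refine ⟨_, hc, fun z hz => ?_⟩
  rw [map_sub, LinearMap.sub_apply, smul_smul, LinearMap.map_smulₛₗ, LinearMap.smul_apply, hz,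
    smul_zero, sub_zero, hy]

theorem step1 [FiniteDimensional K V] {ι1 ι2 : Type} [Fintype ι1] [DecidableEq ι1]
    [DecidableEq ι2] (Φ : Frm K V) {e f : ι1 → V} {e' : ι2 → V} (hF : Φ.Fr e f) (hT : Φ.Ts e')
    (hl : LinearIndependent K e') (hp : ∀ i j, Φ.B (e i) (e' j) = 0 ∧ Φ.B (f i) (e' j) = 0)
    (s : Finset ι2) : ∃ f' : ι2 → V, ∀ j ∈ s, Φ.q (f' j) = 0 ∧
      (∀ k, Φ.B (f' j) (e' k) = if j = k then 1 else 0) ∧
      (∀ i, Φ.B (f' j) (e i) = 0 ∧ Φ.B (f' j) (f i) = 0) ∧ ∀ k ∈ s, Φ.B (f' j) (f' k) = 0 := by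
  induction s using Finset.induction_on with
  | empty => exact ⟨0, fun j hj => absurd hj (Finset.notMem_empty j)⟩
  | insert j0 s hj0 ih =>
    obtain ⟨f', hf'⟩ := ih
    obtain ⟨φ0, hφ0⟩ : ∃ φ0 : V →ₗ[K] K, ∀ k, φ0 (e' k) = if j0 = k then 1 else 0 := by
      obtain ⟨g, hg⟩ := LinearMap.exists_extend
        ((Finsupp.lapply j0 : (ι2 →₀ K) →ₗ[K] K).comp hl.repr)
      refine ⟨g, fun k => ?_⟩
      have hk : e' k ∈ Submodule.span K (Set.range e') := Submodule.subset_span ⟨k, rfl⟩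
      have h1 := LinearMap.congr_fun hg ⟨e' k, hk⟩
      simp only [LinearMap.comp_apply, Submodule.subtype_apply, Finsupp.lapply_apply] at h1
      rw [h1, hl.repr_eq_single k _ rfl, Finsupp.single_apply]
      simp only [eq_comm]
    have ef : ∀ i k, Φ.B (e i) (f k) = if k = i then Φ.ε else 0 := by
      intro i k
      rw [Φ.refl, hF.dual]
      split_ifs <;> simp
    have ef' : ∀ j, ∀ k ∈ s, Φ.B (e' j) (f' k) = if k = j then Φ.ε else 0 := by
      intro j k hk
      rw [Φ.refl, (hf' k hk).2.1]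
      split_ifs <;> simp
    obtain ⟨φ, hφ⟩ : ∃ φ : V →ₗ[K] K, ∀ v, φ v = φ0 v - ∑ i, φ0 (e i) * Φ.B (f i) v
        - ∑ i, Φ.ε * φ0 (f i) * Φ.B (e i) v - ∑ j ∈ s, Φ.ε * φ0 (f' j) * Φ.B (e' j) v := by
      refine ⟨φ0 - ∑ i, φ0 (e i) • Φ.B (f i) - ∑ i, (Φ.ε * φ0 (f i)) • Φ.B (e i)
        - ∑ j ∈ s, (Φ.ε * φ0 (f' j)) • Φ.B (e' j), fun v => ?_⟩
      simp only [LinearMap.sub_apply, LinearMap.sum_apply, LinearMap.smul_apply, smul_eq_mul]
    have p1 : ∀ k, φ (e' k) = if j0 = k then 1 else 0 := by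
      intro k
      rw [hφ, hφ0]
      simp only [(hp _ k).1, (hp _ k).2, hT.2, mul_zero, Finset.sum_const_zero, sub_zero]
    have p2 : ∀ i, φ (e i) = 0 := by
      intro i
      rw [hφ]
      simp only [hF.dual, hF.te.2, flip0 Φ (hp i _).1, mul_zero, Finset.sum_const_zero,
        mul_ite, mul_one, Finset.sum_ite_eq', Finset.mem_univ, if_true, sub_self]
    have p3 : ∀ i, φ (f i) = 0 := by
      intro i
      rw [hφ]
      simp only [ef, hF.tf.2, flip0 Φ (hp i _).2, mul_zero, Finset.sum_const_zero, sub_zero,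
        mul_ite, Finset.sum_ite_eq, Finset.mem_univ, if_true]
      linear_combination (-φ0 (f i)) * eps_sq Φ
    have p4 : ∀ k ∈ s, φ (f' k) = 0 := by
      intro k hk
      have b1 : ∀ i, Φ.B (e i) (f' k) = 0 := fun i => flip0 Φ ((hf' k hk).2.2.1 i).1
      have b2 : ∀ i, Φ.B (f i) (f' k) = 0 := fun i => flip0 Φ ((hf' k hk).2.2.1 i).2
      rw [hφ]
      simp only [ef' _ k hk, b1, b2, mul_zero, Finset.sum_const_zero, sub_zero,
        mul_ite, Finset.sum_ite_eq, hk, if_true]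
      linear_combination (-φ0 (f' k)) * eps_sq Φ
    obtain ⟨f0, q0, hf0⟩ := partner Φ (hT.1 j0) φ (by rw [p1, if_pos rfl])
    have c1 : ∀ k ∈ s, Φ.B f0 (f' k) = 0 := by
      intro k hk
      rw [hf0, p4 k hk]
      rw [ef' j0 k hk, if_neg]
      rintro rfl
      exact hj0 hk
    have hne : ∀ k ∈ s, Function.update f' j0 f0 k = f' k := fun k hk =>
      Function.update_of_ne (by rintro rfl; exact hj0 hk) _ _
    refine ⟨Function.update f' j0 f0, fun j hj1 => ?_⟩
    rcases Finset.mem_insert.1 hj1 with rfl | hj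
    · rw [Function.update_self]
      refine ⟨q0, fun k => ?_, fun i => ⟨?_, ?_⟩, fun k hk1 => ?_⟩
      · rw [hf0 _ (hT.2 _ _), p1]
      · rw [hf0 _ (flip0 Φ (hp i _).1), p2]
      · rw [hf0 _ (flip0 Φ (hp i _).2), p3]
      · rcases Finset.mem_insert.1 hk1 with rfl | hk
        · rw [Function.update_self]
          exact Φ.sing _ q0
        · rw [hne k hk]
          exact c1 k hk
    · rw [hne j hj]
      refine ⟨(hf' j hj).1, (hf' j hj).2.1, (hf' j hj).2.2.1, fun k hk1 => ?_⟩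
      rcases Finset.mem_insert.1 hk1 with rfl | hk
      · rw [Function.update_self]
        exact flip0 Φ (c1 j hj)
      · rw [hne k hk]
        exact (hf' j hj).2.2.2 k hk

theorem part1 [FiniteDimensional K V] {ι1 ι2 : Type} [Finite ι1] [Finite ι2] [DecidableEq ι1]
    [DecidableEq ι2] (Φ : Frm K V) {e f : ι1 → V} {e' : ι2 → V} (hF : Φ.Fr e f) (hT : Φ.Ts e')
    (hl : LinearIndependent K e') (hp : ∀ i j, Φ.B (e i) (e' j) = 0 ∧ Φ.B (f i) (e' j) = 0) :
    ∃ f' : ι2 → V, Φ.Fr (Sum.elim e' e) (Sum.elim f' f) := by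
  have := Fintype.ofFinite ι1
  have := Fintype.ofFinite ι2
  obtain ⟨f', hf'⟩ := step1 Φ hF hT hl hp Finset.univ
  have h := fun j => hf' j (Finset.mem_univ j)
  refine ⟨f', ⟨?_, ?_⟩, ⟨?_, ?_⟩, ?_⟩
  · rintro (j | i)
    · exact hT.1 j
    · exact hF.te.1 i
  · rintro (j | i) (k | l)
    · exact hT.2 j k
    · exact flip0 Φ (hp l j).1
    · exact (hp i k).1
    · exact hF.te.2 i l
  · rintro (j | i)
    · exact (h j).1
    · exact hF.tf.1 i
  · rintro (j | i) (k | l)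
    · exact (h j).2.2.2 k (Finset.mem_univ k)
    · exact ((h j).2.2.1 l).2
    · exact flip0 Φ ((h k).2.2.1 i).2
    · exact hF.tf.2 i l
  · rintro (j | i) (k | l)
    · simp only [Sum.elim_inl, Sum.inl.injEq]
      exact (h j).2.1 k
    · simp only [Sum.elim_inl, Sum.elim_inr, reduceCtorEq, if_false]
      exact ((h j).2.2.1 l).1
    · simp only [Sum.elim_inl, Sum.elim_inr, reduceCtorEq, if_false]
      exact (hp i k).2
    · simp only [Sum.elim_inr, Sum.inr.injEq]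
      exact hF.dual i l

/-- The perpendicular space is large. -/
theorem exists_perp [FiniteDimensional K V] (Φ : Frm K V) (Y : Submodule K V) :
    ∃ X : Submodule K V, Module.finrank K V ≤ Module.finrank K X + Module.finrank K Y ∧
      ∀ v ∈ X, ∀ u ∈ Y, Φ.B u v = 0 := by
  let b := Module.finBasis K Y
  let T : V →ₗ[K] (Fin (Module.finrank K Y) → K) := LinearMap.pi fun i => Φ.B (b i : V)
  refine ⟨LinearMap.ker T, ?_, fun v hv u hu => ?_⟩
  · have h1 := T.finrank_range_add_finrank_ker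
    have h2 := (LinearMap.range T).finrank_le
    rw [Module.finrank_fin_fun] at h2
    omega
  · have h1 : ∀ i, Φ.B (b i : V) v = 0 := fun i => congrFun (LinearMap.mem_ker.1 hv) i
    have h2 : u = ∑ i, b.repr ⟨u, hu⟩ i • (b i : V) := by
      have := congrArg (Y.subtype) (b.sum_repr ⟨u, hu⟩)
      rw [map_sum] at this
      simpa using this.symm
    rw [h2, map_sum, LinearMap.sum_apply]
    refine Finset.sum_eq_zero fun i _ => ?_
    rw [LinearMap.map_smulₛₗ, LinearMap.smul_apply, h1, smul_zero]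

/-- One hyperbolic pair perpendicular to a given subspace. -/
theorem pair (h : CwStmt) [Finite K] [FiniteDimensional K V] (Φ : Frm K V) (Y : Submodule K V)
    (hn : 2 * Module.finrank K Y + 3 ≤ Module.finrank K V) :
    ∃ e f : V, Φ.q e = 0 ∧ Φ.q f = 0 ∧ Φ.B f e = 1 ∧ ∀ u ∈ Y, Φ.B u e = 0 ∧ Φ.B u f = 0 := by
  obtain ⟨X0, hX0, hp⟩ := exists_perp Φ Y
  obtain ⟨C, hC⟩ := Submodule.exists_isCompl Y
  have d1 := Submodule.finrank_add_eq_of_isCompl hC
  have d2 := Submodule.finrank_sup_add_finrank_inf_eq X0 C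
  have d3 := (X0 ⊔ C).finrank_le
  let b : ↥(X0 ⊓ C) →+ ↥(X0 ⊓ C) →+ K :=
    { toFun := fun x => Φ.τ.comp ((Φ.B (x : V)).comp (X0 ⊓ C).subtype).toAddMonoidHom
      map_zero' := by
        ext
        simp
      map_add' := by
        intro x y
        ext
        simp }
  obtain ⟨v, hv0, hv⟩ := h K ↥(X0 ⊓ C) Unit (fun _ x => Φ.q (x : V)) (fun _ => b)
    (fun _ x y => Φ.qadd _ _) (by rw [Nat.card_unique]; omega)
  have hq : Φ.q (v : V) = 0 := hv ()
  have hY : (v : V) ∉ Y := fun hy =>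
    hv0 (Subtype.ext ((Submodule.disjoint_def.1 hC.disjoint) _ hy v.2.2))
  obtain ⟨φ, h1, h2⟩ := Submodule.exists_dual_map_eq_bot_of_notMem hY inferInstance
  have h3 : ∀ u ∈ Y, φ u = 0 := fun u hu => by
    have : φ u ∈ Y.map φ := ⟨u, hu, rfl⟩
    rwa [h2] at this
  obtain ⟨f, q0, hf⟩ := partner Φ hq ((φ v)⁻¹ • φ) (by
    rw [LinearMap.smul_apply, smul_eq_mul, inv_mul_cancel₀ h1])
  refine ⟨v, f, hq, q0, ?_, fun u hu => ⟨hp _ v.2.1 u hu, flip0 Φ ?_⟩⟩
  · rw [hf _ (Φ.sing _ hq), LinearMap.smul_apply, smul_eq_mul, inv_mul_cancel₀ h1]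
  · rw [hf _ (flip0 Φ (hp _ v.2.1 u hu)), LinearMap.smul_apply, h3 u hu, smul_zero]

theorem part2 (h : CwStmt) [Finite K] [FiniteDimensional K V] (Φ : Frm K V) (m : ℕ)
    (Y : Submodule K V) (hn : 2 * Module.finrank K Y + 4 * m ≤ Module.finrank K V) :
    ∃ e f : Fin m → V, Φ.Fr e f ∧ ∀ i, ∀ u ∈ Y, Φ.B u (e i) = 0 ∧ Φ.B u (f i) = 0 := by
  induction m generalizing Y with
  | zero =>
    exact ⟨0, 0, ⟨⟨fun i => i.elim0, fun i => i.elim0⟩, ⟨fun i => i.elim0, fun i => i.elim0⟩,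
      fun i => i.elim0⟩, fun i => i.elim0⟩
  | succ m ih =>
    obtain ⟨e0, f0, q1, q2, b0, hY⟩ := pair h Φ Y (by omega)
    have d1 := Submodule.finrank_add_le_finrank_add_finrank Y
      (Submodule.span K {e0} ⊔ Submodule.span K {f0})
    have d2 := Submodule.finrank_add_le_finrank_add_finrank (Submodule.span K {e0})
      (Submodule.span K {f0})
    have d3 : ∀ x : V, Module.finrank K (Submodule.span K {x}) ≤ 1 := fun x => by
      simpa using finrank_span_le_card (R := K) ({x} : Set V)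
    have d4 := d3 e0
    have d5 := d3 f0
    obtain ⟨e, f, hF, hp⟩ := ih (Y ⊔ (Submodule.span K {e0} ⊔ Submodule.span K {f0})) (by omega)
    have m1 : e0 ∈ Y ⊔ (Submodule.span K {e0} ⊔ Submodule.span K {f0}) :=
      Submodule.mem_sup_right (Submodule.mem_sup_left (Submodule.mem_span_singleton_self _))
    have m2 : f0 ∈ Y ⊔ (Submodule.span K {e0} ⊔ Submodule.span K {f0}) :=
      Submodule.mem_sup_right (Submodule.mem_sup_right (Submodule.mem_span_singleton_self _))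
    refine ⟨Fin.cons e0 e, Fin.cons f0 f, ⟨⟨?_, ?_⟩, ⟨?_, ?_⟩, ?_⟩, ?_⟩
    · refine Fin.cases q1 fun i => hF.te.1 i
    · refine Fin.cases (Fin.cases (Φ.sing _ q1) fun k => (hp k _ m1).1) fun i =>
        Fin.cases (flip0 Φ (hp i _ m1).1) fun k => hF.te.2 i k
    · refine Fin.cases q2 fun i => hF.tf.1 i
    · refine Fin.cases (Fin.cases (Φ.sing _ q2) fun k => (hp k _ m2).2) fun i =>
        Fin.cases (flip0 Φ (hp i _ m2).2) fun k => hF.tf.2 i k
    · refine Fin.cases (Fin.cases ?_ fun k => ?_) fun i => Fin.cases ?_ fun k => ?_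
      · rw [if_pos rfl]
        exact b0
      · rw [if_neg (Fin.succ_ne_zero k).symm]
        exact (hp k _ m2).1
      · rw [if_neg (Fin.succ_ne_zero i)]
        exact flip0 Φ (hp i _ m1).2
      · simp only [Fin.cons_succ, Fin.succ_inj]
        exact hF.dual i k
    · refine Fin.cases hY fun i u hu => hp i u (Submodule.mem_sup_left hu)

end Frame

theorem frameStmt (h : CwStmt) : FrameStmt := by
  refine ⟨fun K V ι1 ι2 _ _ _ _ _ _ _ _ Φ e f e' hF hT hl hp => Frame.part1 Φ hF hT hl hp,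
    fun y m => ⟨2 * y + 4 * m, fun K V _ _ _ _ _ Φ Y hY hn => Frame.part2 h Φ m Y ?_⟩⟩
  omega

end Pool.Agent.Lib.MP_679d9b_al.KG
end

-- part Pool.Agent.Lib.MP_679d9b_al.KG.GeoR
section

/-!
Geometry for finite groups of elements of large rank.
-/

set_option autoImplicit false

namespace Pool.Agent.Lib.MP_679d9b_al.KG

open Subgroup Matrix Module
open scoped commutatorElement
open PT (SL)

namespace GeoR

variable {K V : Type} [Field K] [AddCommGroup V] [Module K V]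

theorem perf_mem {ι H : Type} [Fintype ι] [DecidableEq ι] [Group H] (h : 3 ≤ Fintype.card ι)
    (η : SL ι K →* H) {I : Subgroup H} (hI : ∀ A, η A ∈ I) (A : SL ι K) : η A ∈ ⁅I, I⁆ := by
  have h1 : η.range ≤ I := by
    rintro _ ⟨B, rfl⟩
    exact hI B
  refine commutator_mono h1 h1 ?_
  rw [← map_commutator_eq, (PT.sl_perfect (K := K) h).commutator_eq_top]
  exact ⟨A, trivial, rfl⟩

theorem exists_coord {ι : Type} [Fintype ι] [DecidableEq ι] {e : ι → V}
    (he : LinearIndependent K e) :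
    ∃ π : V →ₗ[K] ι → K, ∀ x, π (Fintype.linearCombination K e x) = x := by
  obtain ⟨π, hπ⟩ := (Fintype.linearCombination K e).exists_leftInverse_of_injective
    (LinearMap.ker_eq_bot.2 he.fintypeLinearCombination_injective)
  exact ⟨π, fun x => LinearMap.congr_fun hπ x⟩

theorem lin_eta {ι : Type} [Fintype ι] [DecidableEq ι] {e : ι → V} (π : V →ₗ[K] ι → K)
    (hπ : ∀ x, π (Fintype.linearCombination K e x) = x) :
    ∃ η : SL ι K →* (V ≃ₗ[K] V), ∀ A v,
      η A v = v + Fintype.linearCombination K e ((A.1 - 1) *ᵥ π v) := by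
  let θ : SL ι K →* Module.End K V :=
    { toFun := fun A => 1 + Fintype.linearCombination K e ∘ₗ (A.1 - 1).mulVecLin ∘ₗ π
      map_one' := by simp
      map_mul' := fun A B => by
        ext v
        have : (A * B).1 - 1 = (A.1 - 1) + ((B.1 - 1) + (A.1 - 1) * (B.1 - 1)) := by
          show A.1 * B.1 - 1 = _
          noncomm_ring
        simp only [this, LinearMap.add_apply, Module.End.one_apply,
          LinearMap.comp_apply, mulVecLin_apply, Module.End.mul_apply, map_add, hπ,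
          mulVec_mulVec, add_assoc] }
  exact ⟨(LinearMap.GeneralLinearGroup.generalLinearEquiv K V).toMonoidHom.comp θ.toHomUnits,
    fun A v => rfl⟩

theorem rk_le_two [FiniteDimensional K V] {T : Module.End K V} {a w : V}
    (h : ∀ v, ∃ s t : K, T v = s • a + t • w) : rk T ≤ 2 := by
  have h1 : LinearMap.range T ≤ Submodule.span K (Set.range ![a, w]) := by
    rintro _ ⟨v, rfl⟩
    obtain ⟨s, t, e⟩ := h v
    rw [e]
    exact add_mem (Submodule.smul_mem _ _ (Submodule.subset_span ⟨0, rfl⟩))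
      (Submodule.smul_mem _ _ (Submodule.subset_span ⟨1, rfl⟩))
  exact (Submodule.finrank_mono h1).trans ((finrank_range_le_card _).trans (by simp))

theorem card_le_of_mem [FiniteDimensional K V] {n : ℕ} {w : Fin n → V}
    (hw : LinearIndependent K w) {U : Submodule K V} (h : ∀ i, w i ∈ U) : n ≤ finrank K U := by
  have := Submodule.finrank_mono (Submodule.span_le.2 (Set.range_subset_iff.2 h) :
    Submodule.span K (Set.range w) ≤ U)
  rwa [finrank_span_eq_card hw, Fintype.card_fin] at this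

/-- The span of the images of a family. -/
def orb {F : Type} {n : ℕ} (y : F → V ≃ₗ[K] V) (v : Fin n → V) : Submodule K V :=
  Submodule.span K (Set.range fun p : F × Fin n => y p.1 (v p.2))

section core
variable {F : Type} [Group F] {y : F → V ≃ₗ[K] V}
  (hs : ∀ f f', Scal ((y (f * f'))⁻¹ * (y f * y f'))) {n : ℕ} {v : Fin n → V}
include hs

theorem mul_eq (f f' : F) : ∃ c : K, ∀ x, y f (y f' x) = c • y (f * f') x := by
  obtain ⟨c, hc⟩ := hs f f'
  refine ⟨c, fun x => ?_⟩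
  rw [← map_smul, ← hc]
  exact ((y (f * f')).apply_symm_apply _).symm

theorem orb_inv (f : F) : ∀ u ∈ orb y v, y f u ∈ orb y v := by
  intro u hu
  induction hu using Submodule.span_induction with
  | mem x hx =>
    obtain ⟨p, rfl⟩ := hx
    obtain ⟨c, hc⟩ := mul_eq hs f p.1
    rw [hc]
    exact Submodule.smul_mem _ _ (Submodule.subset_span ⟨(f * p.1, p.2), rfl⟩)
  | zero => simp
  | add a b _ _ ha hb => rw [map_add]; exact add_mem ha hb
  | smul c a _ ha => rw [map_smul]; exact Submodule.smul_mem _ _ ha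

theorem mem_orb (i : Fin n) : v i ∈ orb y v := by
  obtain ⟨c, hc⟩ := mul_eq hs 1 1
  have h1 : y 1 (v i) ∈ orb y v := Submodule.subset_span ⟨(1, i), rfl⟩
  have h2 : y 1 (v i) = c • v i := by
    refine (y 1).injective ?_
    rw [hc, mul_one, map_smul]
  by_cases h0 : c = 0
  · rw [h0, zero_smul, map_eq_zero_iff _ (y 1).injective] at h2
    rw [h2]; exact zero_mem _
  · rw [h2] at h1
    exact (Submodule.smul_mem_iff _ h0).1 h1

omit hs [Group F] in
theorem finrank_orb [Finite F] : finrank K (orb y v) ≤ Nat.card F * n := by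
  have := Fintype.ofFinite F
  exact (finrank_range_le_card _).trans (by simp)

theorem rank_orb [FiniteDimensional K V] (hv : LinearIndependent K v) {Z : Submodule K V}
    (hZ : ∀ i, v i ∈ Z) {f : F} (hf : ∀ z ∈ Z, ∀ z' ∈ Z, z + y f z' = 0 → z' = 0) (t : K) :
    n ≤ finrank K ((orb y v).map ((y f : Module.End K V) - t • 1)) := by
  refine card_le_of_mem (hv.map (f := (y f : Module.End K V) - t • 1) ?_)
    fun i => Submodule.mem_map_of_mem (mem_orb hs i)
  rw [Submodule.disjoint_def]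
  intro x hx hx'
  have h1 : x ∈ Z := Submodule.span_le.2 (Set.range_subset_iff.2 hZ) hx
  refine hf (-(t • x)) (neg_mem (Z.smul_mem _ h1)) x h1 ?_
  rw [neg_add_eq_sub]
  exact hx'

end core

theorem exists_basis [FiniteDimensional K V] (U : Submodule K V) :
    ∃ e : Fin (finrank K U) → V, LinearIndependent K e ∧ U = Submodule.span K (Set.range e) := by
  refine ⟨U.subtype ∘ Module.finBasis K U,
    (Module.finBasis K U).linearIndependent.map' _ U.ker_subtype, ?_⟩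
  rw [Set.range_comp, ← Submodule.map_span, Basis.span_eq, Submodule.map_subtype_top]

section forms
variable (Φ : Frm K V)

theorem B_symm {x y : V} (h : Φ.B x y = 0) : Φ.B y x = 0 := by
  rw [Φ.refl, h, map_zero, mul_zero]

theorem eps_ne : Φ.ε ≠ 0 := by rcases Φ.εε with h | h <;> simp [h]

/-- The form as a biadditive map. -/
def bi {X : Type} [AddCommGroup X] [Module K X] (g h : X →ₗ[K] V) : X →+ X →+ K :=
  AddMonoidHom.mk' (fun x => (Φ.B (g x) ∘ₗ h).toAddMonoidHom) fun a b => by ext; simp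

theorem bi_apply {X : Type} [AddCommGroup X] [Module K X] (g h : X →ₗ[K] V) (x x' : X) :
    bi Φ g h x x' = Φ.B (g x) (h x') := rfl

theorem iso_fam (hC : CwStmt) [Finite K] [FiniteDimensional K V] {F : Type} [Fintype F]
    (g : F → Module.End K V) (Z : Submodule K V) (k : ℕ)
    (hk : (Fintype.card F * Fintype.card F + 1) * k +
      2 * (Fintype.card F + Fintype.card F * Fintype.card F) < finrank K Z) :
    ∃ v : Fin k → V, LinearIndependent K v ∧ (∀ i, v i ∈ Z) ∧ (∀ f i, Φ.q (g f (v i)) = 0) ∧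
      ∀ f f' i j, Φ.B (g f (v i)) (g f' (v j)) = 0 := by
  induction k with
  | zero => exact ⟨Fin.elim0, linearIndependent_empty_type, fun i => i.elim0, fun _ i => i.elim0,
      fun _ _ i => i.elim0⟩
  | succ k ih =>
    obtain ⟨v, h1, h2, h3, h4⟩ := ih (by rw [mul_add] at hk; omega)
    obtain ⟨π, hπ⟩ := exists_coord h1
    let L : Z →ₗ[K] Option (F × F) × Fin k → K := LinearMap.pi fun p =>
      (p.1.elim (LinearMap.proj p.2 ∘ₗ π) fun ff => Φ.B (g ff.1 (v p.2)) ∘ₗ g ff.2) ∘ₗ Z.subtype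
    have d1 := L.finrank_range_add_finrank_ker
    have d2 : finrank K (LinearMap.range L) ≤ (Fintype.card F * Fintype.card F + 1) * k :=
      (Submodule.finrank_le _).trans (by simp)
    let j : LinearMap.ker L →ₗ[K] V := Z.subtype ∘ₗ (LinearMap.ker L).subtype
    obtain ⟨x, x0, hx⟩ := hC K (LinearMap.ker L) (F ⊕ F × F)
      (Sum.elim (fun f x => Φ.q (g f (j x))) fun ff x => Φ.B (g ff.1 (j x)) (g ff.2 (j x)))
      (Sum.elim (fun f => (bi Φ (g f ∘ₗ j) (g f ∘ₗ j)).compr₂ Φ.τ) fun ff =>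
        bi Φ (g ff.1 ∘ₗ j) (g ff.2 ∘ₗ j) + (bi Φ (g ff.1 ∘ₗ j) (g ff.2 ∘ₗ j)).flip)
      (by
        rintro (f | ff) a b
        · simp [Φ.qadd, bi_apply]
        · simp [bi_apply]; ring)
      (by rw [mul_add] at hk; simp only [Nat.card_eq_fintype_card, Fintype.card_sum,
        Fintype.card_prod]; omega)
    have k1 : ∀ p, L x p = 0 := fun p => congrFun x.2 p
    have k2 : ∀ f f' i, Φ.B (g f (v i)) (g f' (j x)) = 0 := fun f f' i => k1 (some (f, f'), i)
    refine ⟨Fin.cons (j x) v, h1.finCons fun h => x0 ?_, Fin.cases x.1.2 h2,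
      fun f => Fin.cases (hx (.inl f)) (h3 f), fun f f' => Fin.cases
        (Fin.cases (hx (.inr (f, f'))) fun i => B_symm Φ (k2 f' f i))
        fun i => Fin.cases (k2 f f' i) (h4 f f' i)⟩
    rw [← Fintype.range_linearCombination] at h
    obtain ⟨c, hc⟩ := h
    have k3 : π (j x) = 0 := funext fun i => k1 (none, i)
    rw [← hc, hπ] at k3
    rw [k3, map_zero] at hc
    exact Subtype.ext (Subtype.ext hc.symm)

theorem ts_span {s : Set V} (h1 : ∀ x ∈ s, Φ.q x = 0) (h2 : ∀ x ∈ s, ∀ x' ∈ s, Φ.B x x' = 0) :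
    (∀ u ∈ Submodule.span K s, Φ.q u = 0) ∧
      ∀ u ∈ Submodule.span K s, ∀ u' ∈ Submodule.span K s, Φ.B u u' = 0 := by
  have k : ∀ x, (∀ x' ∈ s, Φ.B x x' = 0) → ∀ u' ∈ Submodule.span K s, Φ.B x u' = 0 :=
    fun x hx u' hu' => (Submodule.span_le (p := LinearMap.ker (Φ.B x))).2 hx hu'
  have k2 : ∀ u ∈ Submodule.span K s, ∀ u' ∈ Submodule.span K s, Φ.B u u' = 0 :=
    fun u hu => k u fun x' hx' => B_symm Φ (k x' (h2 x' hx') u hu)
  refine ⟨fun u hu => ?_, k2⟩
  induction hu using Submodule.span_induction with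
  | mem x hx => exact h1 x hx
  | zero => simpa using Φ.qsmul 0 0
  | add a b ha hb ha' hb' => rw [Φ.qadd, ha', hb', k2 a ha b hb]; simp
  | smul c a _ ha => rw [Φ.qsmul, ha, mul_zero]

/-- The perpendicular space. -/
def perp (U : Submodule K V) : Submodule K V where
  carrier := {v | ∀ u ∈ U, Φ.B u v = 0}
  zero_mem' := fun _ _ => map_zero _
  add_mem' := fun ha hb u hu => by rw [map_add, ha u hu, hb u hu, add_zero]
  smul_mem' := fun c a ha u hu => by rw [map_smul, ha u hu, smul_zero]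

theorem stab [FiniteDimensional K V] {U : Submodule K V} (hU : U ≠ ⊥) {g : V ≃ₗ[K] V}
    (hg : g ∈ Φ.iso) (h : ∀ u ∈ U, g u ∈ U) : (∀ u ∈ perp Φ U, g u ∈ perp Φ U) ∧
      ((∃ c : K, ∀ u ∈ U, g u = c • u) → ∃ c : K, ∀ v, g v - c • v ∈ perp Φ U) := by
  constructor
  · have e : U.map (g : V →ₗ[K] V) = U :=
      Submodule.eq_of_le_of_finrank_eq (Submodule.map_le_iff_le_comap.2 h) (g.finrank_map_eq U)
    intro w hw u hu
    rw [← e] at hu
    obtain ⟨u, hu, rfl⟩ := hu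
    exact (hg.1 u w).trans (hw u hu)
  · rintro ⟨c, hc⟩
    have c0 : c ≠ 0 := fun c0 => hU (U.eq_bot_iff.2 fun u hu => by
      have := hc u hu
      rwa [c0, zero_smul, map_eq_zero_iff _ g.injective] at this)
    refine ⟨Φ.σ c⁻¹, fun w u hu => ?_⟩
    have e : u = g (c⁻¹ • u) := by rw [hc _ (U.smul_mem _ hu), smul_inv_smul₀ c0]
    rw [map_sub, map_smul]
    conv_lhs => rw [e, hg.1, ← e]
    simp

theorem exists_z (hE : EtaStmt) (hF : FrameStmt) [FiniteDimensional K V] {U : Submodule K V}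
    (h1 : ∀ u ∈ U, Φ.q u = 0) (h2 : ∀ u ∈ U, ∀ u' ∈ U, Φ.B u u' = 0) {e f : Fin 2 → V}
    (hf : Φ.Fr e f) (hp : ∀ i, ∀ u ∈ U, Φ.B u (e i) = 0 ∧ Φ.B u (f i) = 0) {a : V} (ha : a ∈ U)
    (a0 : a ≠ 0) : ∃ z ∈ ⁅Φ.iso, Φ.iso⁆, (∀ u ∈ U, z u = u) ∧
      rk ((z : Module.End K V) - 1) ≤ 2 ∧
      LinearMap.range ((z : Module.End K V) - 1) ⊓ U = Submodule.span K {a} := by
  obtain ⟨f', hf'⟩ := hF.1 K V (Fin 2) Unit Φ e f (fun _ => a) hf
    ⟨fun _ => h1 a ha, fun _ _ => h2 a ha a ha⟩ (by simpa using a0)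
    fun i _ => ⟨B_symm Φ (hp i a ha).1, B_symm Φ (hp i a ha).2⟩
  obtain ⟨η, k1, -, -, -, k5⟩ := hE K V (Unit ⊕ Fin 2) Φ _ _ hf'
  have hz : ∀ v, ((η (SpecialLinearGroup.transvection (i := .inl ()) (j := .inr 0)
      Sum.inl_ne_inr 1) : Module.End K V) - 1) v =
      Φ.B (f 0) v • a + (-(Φ.ε * Φ.B a v)) • f 0 := fun v => by
    simp [k5]; abel
  refine ⟨_, perf_mem (by simp) η k1 (SpecialLinearGroup.transvection (i := .inl ())
    (j := .inr 0) Sum.inl_ne_inr 1), fun u hu => ?_, rk_le_two fun v => ⟨_, _, hz v⟩,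
    le_antisymm ?_ ?_⟩
  · simp [k5, B_symm Φ (hp 0 u hu).2, h2 a ha u hu]
  · rintro _ ⟨⟨v, rfl⟩, hv⟩
    have e1 := B_symm Φ (hp 0 _ hv).1
    have e2 : Φ.B (e 0) (f 0) = Φ.ε := by rw [Φ.refl, hf.dual]; simp
    rw [hz, map_add, map_smul, map_smul, B_symm Φ (hp 0 a ha).1, e2, smul_zero, zero_add,
      smul_eq_mul, mul_eq_zero, or_iff_left (eps_ne Φ)] at e1
    rw [hz, e1, zero_smul, add_zero]
    exact Submodule.smul_mem _ _ (Submodule.mem_span_singleton_self a)
  · rw [Submodule.span_singleton_le_iff_mem]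
    refine ⟨⟨e 0, ?_⟩, ha⟩
    rw [hz, hf.dual, (hp 0 a ha).1]
    simp

end forms

theorem exists_z_lin [FiniteDimensional K V] {m : ℕ} (hm : 2 ≤ m) {e : Fin m → V}
    (he : LinearIndependent K e) (hlt : m < finrank K V) {U : Submodule K V}
    (hU : U = Submodule.span K (Set.range e)) {a : V} (ha : a ∈ U) :
    ∃ z ∈ ⁅(⊤ : Subgroup (V ≃ₗ[K] V)), (⊤ : Subgroup (V ≃ₗ[K] V))⁆, (∀ u ∈ U, z u = u) ∧
      rk ((z : Module.End K V) - 1) ≤ 2 ∧
      LinearMap.range ((z : Module.End K V) - 1) ⊓ U = Submodule.span K {a} := by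
  subst hU
  obtain ⟨w, hw⟩ : ∃ w, w ∉ Submodule.span K (Set.range e) := by
    by_contra h
    have : Submodule.span K (Set.range e) = ⊤ := eq_top_iff.2 fun w _ => not_not.1 fun k => h ⟨w, k⟩
    have h2 := finrank_span_eq_card he
    rw [this, finrank_top, Fintype.card_fin] at h2
    omega
  obtain ⟨π, hπ⟩ := exists_coord (he.option hw)
  obtain ⟨η, hη⟩ := lin_eta π hπ
  have k0 : ∀ u ∈ Submodule.span K (Set.range e), ∃ x : Option (Fin m) → K, x none = 0 ∧
      Fintype.linearCombination K (fun o => Option.casesOn' o w e) x = u := fun u hu => by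
    obtain ⟨c, rfl⟩ := (Submodule.mem_span_range_iff_exists_fun K).1 hu
    exact ⟨fun o => o.elim 0 c, rfl, by simp [Fintype.linearCombination_apply]⟩
  obtain ⟨α, α0, hα⟩ := k0 a ha
  have hd : (Pi.single none 1 : Option (Fin m) → K) ⬝ᵥ α = 0 := by simp [α0]
  have hz : ∀ v, ((η (PT.SLn.tv α (Pi.single none 1) hd) : Module.End K V) - 1) v =
      π v none • a := fun v => by
    show η _ v - v = _
    rw [hη]
    simp [PT.SLn.tv, vecMulVec_mulVec, hα]
  refine ⟨_, perf_mem (by simp; omega) η (fun _ => mem_top _) (PT.SLn.tv α (Pi.single none 1) hd),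
    fun u hu => ?_, rk_le_two (w := 0) fun v => ⟨π v none, 0, by rw [hz, zero_smul, add_zero]⟩,
    le_antisymm ?_ ?_⟩
  · obtain ⟨x, x0, rfl⟩ := k0 u hu
    have := hz (Fintype.linearCombination K (fun o => Option.casesOn' o w e) x)
    rw [hπ, x0, zero_smul] at this
    exact sub_eq_zero.1 this
  · rintro _ ⟨⟨v, rfl⟩, -⟩
    rw [hz]
    exact Submodule.smul_mem _ _ (Submodule.mem_span_singleton_self a)
  · rw [Submodule.span_singleton_le_iff_mem]
    refine ⟨⟨Fintype.linearCombination K (fun o => Option.casesOn' o w e) (Pi.single none 1), ?_⟩,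
      ha⟩
    rw [hz, hπ]
    simp

end GeoR

open GeoR in
theorem geoRStmt (hZ : ZzStmt) (hC : CwStmt) (hE : EtaStmt) (hF : FrameStmt) : GeoRStmt := by
  intro c N
  obtain ⟨n1, h1⟩ := hZ c 0 ((c * c + 1) * (N + 3) + 2 * (c + c * c) + 1)
  obtain ⟨n2, h2⟩ := hF.2 (c * (N + 3)) 2
  refine ⟨n1 + n2 + c * (N + 3) + 1, fun K V F _ _ _ _ _ _ _ I y hI hc hn hy hs hr => ?_⟩
  obtain ⟨Z, -, z1, -, z2⟩ := h1 K V {f : F // f ≠ 1} (fun f => (y f : Module.End K V)) ⊥ ⊤
    ((Finite.card_subtype_le _).trans hc) (by simp) (by simp) (by omega)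
    fun f t => lt_of_le_of_lt (by omega) (hr f f.2 t)
  have := Fintype.ofFinite F
  have hc' : Fintype.card F ≤ c := by rwa [← Nat.card_eq_fintype_card]
  have com : ∀ v : Fin (N + 3) → V, LinearIndependent K v → (∀ i, v i ∈ Z) →
      N + 3 ≤ finrank K (orb y v) ∧ finrank K (orb y v) ≤ c * (N + 3) ∧
      ∀ f, f ≠ 1 → ∀ t : K, N < finrank K ((orb y v).map ((y f : Module.End K V) - t • 1)) :=
    fun v v1 v2 => ⟨card_le_of_mem v1 (mem_orb hs), finrank_orb.trans (by gcongr),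
      fun f hf t => lt_of_lt_of_le (by omega)
        (rank_orb hs v1 v2 (fun z hz z' hz' e => (z2 ⟨f, hf⟩ z hz z' hz' e).2) t)⟩
  rcases hI with rfl | ⟨Φ, rfl⟩
  · obtain ⟨v0, w1, w2⟩ := exists_basis Z
    have hle : N + 3 ≤ finrank K Z := by rw [z1]; nlinarith [Nat.zero_le (c * c * (N + 3))]
    obtain ⟨c1, c2, c3⟩ := com (v0 ∘ Fin.castLE hle) (w1.comp _ (Fin.castLE_injective hle))
      fun i => w2.ge (Submodule.subset_span ⟨_, rfl⟩)
    obtain ⟨e, e1, e2⟩ := exists_basis (orb y (v0 ∘ Fin.castLE hle))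
    obtain ⟨π, hπ⟩ := exists_coord e1
    obtain ⟨η, hη⟩ := lin_eta π hπ
    refine ⟨_, e, _, ⊤, η, by omega, e1, e2, le_top, orb_inv hs, c3,
      fun g _ _ => ⟨fun _ _ => trivial, fun _ => ⟨0, fun _ => trivial⟩⟩,
      perf_mem (by simp; omega) η fun _ => mem_top _, fun A j => ?_, fun A u _ => ?_,
      fun a ha _ => ?_⟩
    · have : π (e j) = Pi.single j 1 := by rw [← hπ (Pi.single j 1)]; simp
      rw [hη, this, sub_mulVec, map_sub]
      simp [Fintype.linearCombination_apply, Matrix.one_apply]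
    · rw [hη, add_sub_cancel_left]
      exact e2.ge (by rw [← Fintype.range_linearCombination]; exact ⟨_, rfl⟩)
    · exact exists_z_lin (by omega) e1 (by omega) e2 ha
  · obtain ⟨v, v1, v2, v3, v4⟩ := iso_fam Φ hC (fun f => (y f : Module.End K V)) Z (N + 3) (by
      rw [z1, Nat.lt_succ_iff]; gcongr)
    obtain ⟨c1, c2, c3⟩ := com v v1 v2
    obtain ⟨t1, t2⟩ : (∀ u ∈ orb y v, Φ.q u = 0) ∧ ∀ u ∈ orb y v, ∀ u' ∈ orb y v, Φ.B u u' = 0 :=
      ts_span Φ (by rintro _ ⟨p, rfl⟩; exact v3 p.1 p.2)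
        (by rintro _ ⟨p, rfl⟩ _ ⟨p', rfl⟩; exact v4 p.1 p'.1 p.2 p'.2)
    obtain ⟨e, e1, e2⟩ := exists_basis (orb y v)
    have e3 : ∀ i, e i ∈ orb y v := fun i => e2.ge (Submodule.subset_span ⟨i, rfl⟩)
    obtain ⟨f', hf'⟩ := hF.1 K V Empty _ Φ Empty.elim Empty.elim e
      ⟨⟨fun i => i.elim, fun i => i.elim⟩, ⟨fun i => i.elim, fun i => i.elim⟩, fun i => i.elim⟩
      ⟨fun i => t1 _ (e3 i), fun i j => t2 _ (e3 i) _ (e3 j)⟩ e1 fun i => i.elim
    obtain ⟨η, k1, k2, k3, -⟩ := hE K V _ Φ e f'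
      ⟨⟨fun i => t1 _ (e3 i), fun i j => t2 _ (e3 i) _ (e3 j)⟩,
        ⟨fun i => hf'.tf.1 (.inl i), fun i j => hf'.tf.2 (.inl i) (.inl j)⟩,
        fun i j => by simpa using hf'.dual (.inl i) (.inl j)⟩
    obtain ⟨p, q, hpq, hp⟩ := h2 K V Φ (orb y v) c2 (by omega)
    refine ⟨_, e, _, perp Φ (orb y v), η, by omega, e1, e2, fun u hu u' hu' => t2 u' hu' u hu,
      orb_inv hs, c3, fun g hg => stab Φ (fun h => ?_) hg, perf_mem (by simp; omega) η k1, k2,
      fun A u hu => e2.ge (k3 A u fun i => hu _ (e3 i)),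
      fun a ha a0 => exists_z Φ hE hF t1 t2 hpq hp ha a0⟩
    rw [h, finrank_bot] at c1
    omega

end Pool.Agent.Lib.MP_679d9b_al.KG
end

-- part Pool.Agent.Lib.MP_679d9b_al.KG.Gf
section

/-!
Fixed point ratios of fixed point free permutations; large permutations.
-/

set_option autoImplicit false

namespace Pool.Agent.Lib.MP_679d9b_al.KG

open Equiv Equiv.Perm Finset Alt
open scoped commutatorElement

namespace Gf

variable {Ω : Type} [Fintype Ω] [DecidableEq Ω]

/-- Averaging over translates. -/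
theorem avg {I : Type} (s : Finset I) (γ δ : I → Perm Ω) (hγ : ∀ i ∈ s, sign (γ i) = 1)
    (hδ : ∀ i ∈ s, sign (δ i) = 1) (p : Perm Ω → Prop) [DecidablePred p] (c : ℕ)
    (h : #{g : Perm Ω | sign g = 1} ≤ c * #{g : Perm Ω | sign g = 1 ∧ p g}) :
    ∃ g : Perm Ω, #s ≤ c * #{i ∈ s | p (γ i * g * δ i)} := by
  obtain ⟨g, -, hg⟩ : ∃ g ∈ ({g | sign g = 1} : Finset (Perm Ω)),
      #s ≤ c * #{i ∈ s | p (γ i * g * δ i)} := by
    apply exists_le_of_sum_le ⟨1, by simp⟩
    have h1 : ∑ g ∈ ({g | sign g = 1} : Finset (Perm Ω)), #{i ∈ s | p (γ i * g * δ i)}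
        = #s * #{g : Perm Ω | sign g = 1 ∧ p g} := by
      rw [← filter_filter, card_filter p]
      simp only [card_filter]
      rw [sum_comm, ← smul_eq_mul, ← sum_const]
      refine sum_congr rfl fun i hi => ?_
      refine sum_bij' (fun g _ => γ i * g * δ i) (fun g _ => (γ i)⁻¹ * g * (δ i)⁻¹)
        (fun g hg => ?_) (fun g hg => ?_) (fun g _ => by group) (fun g _ => by group)
        fun g _ => rfl
      · simp only [mem_filter, mem_univ, true_and] at hg ⊢
        simp [hg, hγ i hi, hδ i hi]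
      · simp only [mem_filter, mem_univ, true_and] at hg ⊢
        simp [hg, hγ i hi, hδ i hi]
    rw [sum_const, smul_eq_mul, ← mul_sum, h1]
    calc _ ≤ c * #{g : Perm Ω | sign g = 1 ∧ p g} * #s := Nat.mul_le_mul_right _ h
      _ = _ := by ring
  exact ⟨g, hg⟩

open Classical in
theorem seed' (S : Subgroup (Perm Ω)) (f : Perm Ω) (c d : ℕ) (hd : 4 ≤ d)
    (hdeg : 3 * (c * d + 2) ≤ #f.support)
    (h : #{g : Perm Ω | sign g = 1} ≤ c * #{g : Perm Ω | sign g = 1 ∧ g * f * g⁻¹ ∈ S}) :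
    ∃ Δ, d ≤ #Δ ∧ AltOn Δ ≤ S := by
  set k := c * d + 1 with hk
  obtain ⟨A, hA, hAc, hAf⟩ := Alt.exists_free f univ (k + 1) (by simpa using hdeg)
  obtain ⟨z, hz⟩ : A.Nonempty := card_pos.1 (by omega)
  obtain ⟨B, hB, hBc⟩ : ∃ B ⊆ (A ∪ A.image f)ᶜ, #B = k := by
    apply exists_subset_card_eq
    have a1 := card_union_le A (A.image f)
    have a2 := card_image_le (s := A) (f := f)
    have a3 := hdeg.trans (card_le_univ _)
    rw [card_compl]
    omega
  have hI : #(A.erase z) = k := by rw [card_erase_of_mem hz, hAc]; rfl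
  let γ : Ω → Ω → Perm Ω := fun b i => swap z i * swap (f z) b
  let Y : Perm Ω → Ω → Finset Ω := fun g b =>
    {i ∈ A.erase z | (g * γ b i) * f * (g * γ b i)⁻¹ ∈ S}
  obtain ⟨g, hg⟩ : ∃ g, k * k ≤ c * ∑ b ∈ B, #(Y g b) := by
    obtain ⟨g, hg⟩ := avg (B ×ˢ A.erase z) (fun _ => 1) (fun q => γ q.1 q.2) (fun _ _ => sign_one)
      (fun q hq => by
        obtain ⟨hb, hi⟩ := mem_product.1 hq
        have h1 : f z ≠ q.1 := fun e => mem_compl.1 (hB hb)
          (mem_union_right _ (e ▸ mem_image_of_mem _ hz))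
        simp [γ, sign_swap (mem_erase.1 hi).1.symm, sign_swap h1])
      (fun g => g * f * g⁻¹ ∈ S) c h
    refine ⟨g, ?_⟩
    rw [card_product, hBc, hI, card_filter, sum_product] at hg
    simpa only [Y, card_filter, one_mul] using hg
  obtain ⟨b, hb, b', hb', hbb⟩ : ∃ b ∈ {b ∈ B | d ≤ #(Y g b)}, ∃ b' ∈ {b ∈ B | d ≤ #(Y g b)},
      b ≠ b' := by
    apply one_lt_card.1
    by_contra h1
    have h2 : ∑ b ∈ B, #(Y g b) ≤ k + k * (d - 1) := by
      rw [← sum_filter_add_sum_filter_not B fun b => d ≤ #(Y g b)]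
      apply Nat.add_le_add
      · refine (sum_le_card_nsmul _ _ k fun b _ => hI ▸ card_filter_le _ _).trans ?_
        rw [smul_eq_mul]
        exact (Nat.mul_le_mul_right _ (not_lt.1 h1)).trans (by omega)
      · refine (sum_le_card_nsmul _ _ (d - 1) fun b hb => by
          have := (mem_filter.1 hb).2
          omega).trans ?_
        rw [smul_eq_mul]
        exact Nat.mul_le_mul_right _ (hBc ▸ card_filter_le _ _)
    have h3 : k + k * (d - 1) = k * d := by
      obtain ⟨d', rfl⟩ : ∃ d', d = d' + 1 := ⟨d - 1, by omega⟩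
      rw [Nat.add_sub_cancel]
      ring
    have h4 := hg.trans (Nat.mul_le_mul_left c (h3 ▸ h2))
    have h5 : k ≤ c * d := by
      apply Nat.le_of_mul_le_mul_left _ (show 0 < k by omega)
      calc k * k ≤ c * (k * d) := h4
        _ = _ := by ring
    omega
  obtain ⟨hb1, hb2⟩ := mem_filter.1 hb
  obtain ⟨hb1', hb2'⟩ := mem_filter.1 hb'
  have hS : AltOn (insert z (Y g b)) ≤ S.comap (MulAut.conj g).toMonoidHom :=
    two_rows hz hAf (filter_subset _ _) (filter_subset _ _) (mem_compl.1 (hB hb1))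
      (mem_compl.1 (hB hb1')) hbb (hd.trans hb2) (hd.trans hb2')
      (fun i hi => by simpa [γ, mul_assoc] using (mem_filter.1 hi).2)
      (fun i hi => by simpa [γ, mul_assoc] using (mem_filter.1 hi).2)
  refine ⟨(insert z (Y g b)).image g, ?_, fun σ hσ => ?_⟩
  · rw [card_image_of_injective _ g.injective]
    exact hb2.trans (card_le_card (subset_insert _ _))
  · have := hS (altOn_conj (g := g⁻¹) (Δ' := insert z (Y g b)) (fun a ha => by
      obtain ⟨a', ha', rfl⟩ := mem_image.1 ha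
      simpa using ha') hσ)
    simpa [mul_assoc] using this

/-- A maximal support of an alternating subgroup is a block. -/
theorem block {S : Subgroup (Perm Ω)} {Δ : Finset Ω} (hΔ : AltOn Δ ≤ S)
    (hmax : ∀ Δ', AltOn Δ' ≤ S → #Δ' ≤ #Δ) (h3 : 3 ≤ #Δ) :
    ∀ σ ∈ S, ∀ y ∈ Δ, σ y ∈ Δ → ∀ u ∈ Δ, σ u ∈ Δ := by
  have inv : ∀ σ ∈ S, ∀ y ∈ Δ, ∀ y' ∈ Δ, y ≠ y' → σ y ∈ Δ → σ y' ∈ Δ → ∀ u ∈ Δ, σ u ∈ Δ := by
    intro σ hσ y hy y' hy' hne h1 h2 u hu
    have h3 : AltOn (Δ.image σ) ≤ S := fun τ hτ => by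
      have := hΔ (altOn_conj (g := σ⁻¹) (Δ' := Δ) (fun a ha => by
        obtain ⟨a', ha', rfl⟩ := mem_image.1 ha
        simpa using ha') hτ)
      simpa [mul_assoc] using mul_mem (mul_mem hσ this) (inv_mem hσ)
    have h4 := hmax _ (altOn_union hΔ h3 (σ.injective.ne hne) h1 (mem_image_of_mem _ hy) h2
      (mem_image_of_mem _ hy'))
    rw [eq_of_subset_of_card_le subset_union_left h4]
    exact mem_union_right _ (mem_image_of_mem _ hu)
  have two : ∀ p ∈ Δ, ∃ a ∈ Δ, ∃ b ∈ Δ, a ≠ p ∧ b ≠ p ∧ a ≠ b := fun p hp => by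
    obtain ⟨a, ha, b, hb, hab⟩ := one_lt_card.1
      (show 1 < #(Δ.erase p) by rw [card_erase_of_mem hp]; omega)
    exact ⟨a, (mem_erase.1 ha).2, b, (mem_erase.1 hb).2, (mem_erase.1 ha).1, (mem_erase.1 hb).1,
      hab⟩
  intro σ hσ y hy h1 u hu
  by_contra h2
  have out : ∀ y' ∈ Δ, y' ≠ y → σ y' ∉ Δ := fun y' hy' hne h4 =>
    h2 (inv σ hσ y' hy' y hy hne h4 h1 u hu)
  obtain ⟨a, ha, b, hb, hap, hbp, hab⟩ := two _ h1
  obtain ⟨a', ha', b', hb', hay, hby, hab'⟩ := two _ hy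
  have hτ := swap2_mem h1 ha h1 hb hap.symm hbp.symm
  have fix : ∀ y' ∈ Δ, y' ≠ y → (σ⁻¹ * (swap (σ y) a * swap (σ y) b) * σ) y' ∈ Δ := by
    intro y' hy' hne
    rw [Perm.mul_apply, Perm.mul_apply, hτ.2 _ (out y' hy' hne)]
    simpa using hy'
  have h4 := inv _ (mul_mem (mul_mem (inv_mem hσ) (hΔ hτ)) hσ) a' ha' b' hb' hab'
    (fix a' ha' hay) (fix b' hb' hby) y hy
  simp only [Perm.mul_apply, swap_apply_left, swap_apply_of_ne_of_ne hbp hab.symm] at h4
  refine out _ h4 (fun h5 => hbp ?_) (by simpa using hb)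
  rw [← h5]
  simp

omit [Fintype Ω] in
theorem pair {S : Subgroup (Perm Ω)} {Δ : Finset Ω}
    (inv : ∀ σ ∈ S, ∀ y ∈ Δ, σ y ∈ Δ → ∀ u ∈ Δ, σ u ∈ Δ) (h7 : 7 ≤ #Δ) {σ : Perm Ω} (hσ : σ ∈ S)
    {z u u' : Ω} (hz : z ∉ Δ) (hu : u ∈ Δ) (hu' : u' ∈ Δ) (hne : u ≠ u') (hf : σ z ≠ z)
    (h : (swap z u' * swap z u) * σ * (swap z u' * swap z u)⁻¹ ∈ S) : σ z = u' := by
  have zu : z ≠ u := (ne_of_mem_of_not_mem hu hz).symm
  obtain ⟨y, hy, hy'⟩ := exists_mem_notMem_of_card_lt_card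
    (show #({z, u, u'} ∪ ({z, u, u'} : Finset Ω).image σ.symm) < #Δ by
      have a1 := card_union_le {z, u, u'} (({z, u, u'} : Finset Ω).image σ.symm)
      have a2 := card_image_le (s := ({z, u, u'} : Finset Ω)) (f := σ.symm)
      have a3 : #({z, u, u'} : Finset Ω) ≤ 3 := card_le_three
      omega)
  simp only [mem_union, image_insert, image_singleton, mem_insert, mem_singleton, not_or,
    eq_symm_apply] at hy'
  obtain ⟨⟨a1, a2, a3⟩, b1, b2, b3⟩ := hy'
  have h1 := inv _ (mul_mem (inv_mem hσ) h) y hy (by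
    simpa [swap_apply_of_ne_of_ne a1 a2, swap_apply_of_ne_of_ne a1 a3,
      swap_apply_of_ne_of_ne b1 b2, swap_apply_of_ne_of_ne b1 b3] using hy) u hu
  simp only [mul_inv_rev, swap_inv, Perm.mul_apply, swap_apply_of_ne_of_ne zu.symm hne,
    swap_apply_right] at h1
  by_contra h2
  by_cases h3 : σ z = u
  · rw [h3, swap_apply_right, swap_apply_left] at h1
    have h4 := inv _ (inv_mem hσ) u' hu' h1 u hu
    rw [← h3] at h4
    exact hz (by simpa using h4)
  · rw [swap_apply_of_ne_of_ne hf h3, swap_apply_of_ne_of_ne hf h2] at h1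
    exact hz (by simpa using h1)

open Classical in
theorem dens {S : Subgroup (Perm Ω)} {f : Perm Ω} {c : ℕ} (h : Dn c (alternatingGroup Ω) f S) :
    #{g : Perm Ω | sign g = 1} ≤ c * #{g : Perm Ω | sign g = 1 ∧ g * f * g⁻¹ ∈ S} := by
  have h1 : Nat.card (alternatingGroup Ω) = #{g : Perm Ω | sign g = 1} := by
    rw [Nat.card_eq_fintype_card, Fintype.card_subtype]
    simp only [mem_alternatingGroup]
  have h2 : {m | m ∈ alternatingGroup Ω ∧ m⁻¹ * f * m ∈ S}.ncard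
      = #{g : Perm Ω | sign g = 1 ∧ g * f * g⁻¹ ∈ S} := by
    rw [← Set.ncard_coe_finset, ← Set.ncard_inv]
    congr 1
    ext g
    simp [mem_alternatingGroup]
  rw [← h1, ← h2]
  exact h

/-- The index set of the blocks. -/
abbrev D (k : ℕ) : Type := Fin k × Bool × Bool

/-- The diagonal action on half of the blocks. -/
def th (k : ℕ) : Perm (Fin k) →* Perm (D k) :=
  MonoidHom.mk' (fun a => prodCongrLeft fun j : Bool × Bool => if j.2 then a else 1) fun a b => by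
    ext ⟨x, i, j⟩ : 1
    cases j <;> rfl

/-- The exchange of the two halves. -/
def rh (k : ℕ) : Perm (D k) :=
  prodCongrRight fun _ => prodCongrRight fun _ => swap true false

theorem th_true {k : ℕ} (a : Perm (Fin k)) (x : Fin k) (i : Bool) :
    th k a (x, i, true) = (a x, i, true) := rfl

theorem th_false {k : ℕ} (a : Perm (Fin k)) (x : Fin k) (i : Bool) :
    th k a (x, i, false) = (x, i, false) := rfl

theorem rh_apply {k : ℕ} (x : Fin k) (i j : Bool) : rh k (x, i, j) = (x, i, !j) := by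
  cases j <;> rfl

theorem rh_inv {k : ℕ} (x : Fin k) (i j : Bool) : (rh k)⁻¹ (x, i, j) = (x, i, !j) := by
  rw [Perm.inv_eq_iff_eq, rh_apply, Bool.not_not]

theorem sign_th {k : ℕ} (a : Perm (Fin k)) : sign (th k a) = 1 := by
  refine (sign_prodCongrLeft fun j : Bool × Bool => if j.2 then a else 1).trans ?_
  simp [Fintype.prod_prod_type]

theorem sign_rh (k : ℕ) : sign (rh k) = 1 := by
  simp [rh, sign_prodCongrRight]

theorem th_inj (k : ℕ) : Function.Injective (th k) := fun a b h => by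
  ext x
  have := congrArg (fun σ : Perm (D k) => (σ (x, true, true)).1) h
  exact congrArg Fin.val this

theorem th_comm {k : ℕ} (a b : Perm (Fin k)) : Commute (th k a) ((rh k)⁻¹ * th k b * rh k) := by
  ext ⟨x, i, j⟩ : 1
  cases j <;> simp only [Perm.mul_apply, th_true, th_false, rh_apply, rh_inv, Bool.not_true,
    Bool.not_false]

theorem via_mem {X : Type} [Fintype X] [DecidableEq X] (e : X ↪ Ω) {Δ : Finset Ω}
    (he : ∀ x, e x ∈ Δ) {π : Perm X} (h : sign π = 1) : viaEmbeddingHom e π ∈ AltOn Δ := by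
  classical
  refine ⟨?_, fun a ha => viaEmbedding_apply_of_notMem _ _ _ ?_⟩
  · rw [viaEmbeddingHom_apply, viaEmbedding, sign_extendDomain, h]
  · rintro ⟨x, rfl⟩
    exact ha (he x)

omit [Fintype Ω] [DecidableEq Ω] in
theorem via_comm {X : Type} (e : X ↪ Ω) {f : Perm Ω} (hf : ∀ x y, f (e x) ≠ e y) (π π' : Perm X) :
    Commute (viaEmbeddingHom e π) (f * viaEmbeddingHom e π' * f⁻¹) := by
  refine Disjoint.commute fun a => ?_
  by_cases h : a ∈ Set.range e
  · obtain ⟨y, rfl⟩ := h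
    right
    rw [Perm.mul_apply, Perm.mul_apply, viaEmbeddingHom_apply, viaEmbedding_apply_of_notMem]
    · simp
    · rintro ⟨x, hx⟩
      exact hf x y (by simp [hx])
  · exact Or.inl (viaEmbedding_apply_of_notMem _ _ _ h)

theorem core (k : ℕ) (f : Perm Ω) (Δ : Finset Ω) (h : 3 * (4 * k) ≤ #(f.support ∩ Δ)) :
    ∃ ρ ∈ AltOn Δ, ∃ θ : Perm (Fin k) →* Perm Ω, Function.Injective θ ∧ (∀ a, θ a ∈ AltOn Δ) ∧
      ∀ a b, Commute (θ a) (⁅f, ρ⁆ * θ b * ⁅f, ρ⁆⁻¹) := by
  obtain ⟨A, hA, hc, hf⟩ := Alt.exists_free f Δ _ h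
  obtain ⟨e0⟩ : Nonempty (D k ≃ A) := Fintype.card_eq.1 (by simp [hc, mul_comm])
  let e : D k ↪ Ω := e0.toEmbedding.trans (Function.Embedding.subtype _)
  have h1 : ∀ x, e x ∈ A := fun x => (e0 x).2
  have h2 : ∀ x, e x ∈ Δ := fun x => (mem_inter.1 (hA (h1 x))).2
  have h3 : ∀ x y, f (e x) ≠ e y := fun x y h4 => hf _ (h1 x) (h4 ▸ h1 y)
  refine ⟨_, via_mem e h2 (sign_rh k), (viaEmbeddingHom e).comp (th k),
    (viaEmbeddingHom_injective e).comp (th_inj k), fun a => via_mem e h2 (sign_th a),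
    fun a b => ?_⟩
  have h4 := (via_comm e h3 ((rh k)⁻¹ * th k b * rh k) (rh k)).eq
  have h5 : ⁅f, viaEmbeddingHom e (rh k)⁆ * (viaEmbeddingHom e).comp (th k) b *
      ⁅f, viaEmbeddingHom e (rh k)⁆⁻¹ = viaEmbeddingHom e ((rh k)⁻¹ * th k b * rh k) := by
    rw [mul_inv_eq_iff_eq_mul, commutatorElement_def, ← mul_assoc _ _ (viaEmbeddingHom e _)⁻¹, h4]
    simp [mul_assoc]
  rw [h5]
  exact (th_comm a b).map (viaEmbeddingHom e)

end Gf

open Gf

theorem gfStmt : GfStmt := by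
  classical
  refine fun c => ⟨3 * (c * (2 * c + 7) + 2), fun Ω _ _ f hf hn S hS => ?_⟩
  have hd := dens hS
  obtain ⟨Δ0, h0, h0'⟩ := seed' S f c (2 * c + 7) (by omega)
    (by rwa [eq_univ_iff_forall.2 fun a => mem_support.2 (hf a)]) hd
  obtain ⟨Δ, hΔ, hmax⟩ := exists_max_image {Δ : Finset Ω | AltOn Δ ≤ S} card ⟨Δ0, by simpa⟩
  simp only [mem_filter, mem_univ, true_and] at hΔ hmax
  have hbig : 2 * c + 7 ≤ #Δ := h0.trans (hmax _ h0')
  have inv := block hΔ hmax (by omega)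
  refine fun σ hσ => hΔ ⟨hσ, fun z hz => (?_ : False).elim⟩
  obtain ⟨w, hw⟩ : Δ.Nonempty := card_pos.1 (by omega)
  have zn : ∀ u ∈ Δ, z ≠ u := fun u hu => (ne_of_mem_of_not_mem hu hz).symm
  obtain ⟨g, hg⟩ := avg Δ (fun u => swap z u * swap z w) (fun _ => 1)
    (fun u hu => by simp [sign_swap (zn u hu), sign_swap (zn w hw)]) (fun _ _ => sign_one)
    (fun g => g * f * g⁻¹ ∈ S) c hd
  obtain ⟨u, hu, u', hu', u'', hu'', n1, n2, n3⟩ := two_lt_card.1
    (show 2 < _ from lt_of_not_ge fun h => by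
      have := hg.trans (Nat.mul_le_mul_left c h)
      omega)
  obtain ⟨a1, a2⟩ := mem_filter.1 hu
  have key : ∀ v ∈ {u ∈ Δ | (swap z u * swap z w * g * 1) * f * (swap z u * swap z w * g * 1)⁻¹ ∈ S},
      u ≠ v → ((swap z u * swap z w * g * 1) * f * (swap z u * swap z w * g * 1)⁻¹) z = v := by
    intro v hv hne
    obtain ⟨b1, b2⟩ := mem_filter.1 hv
    refine pair inv (by omega) a2 hz a1 b1 hne (fun h => ?_) (by simpa [mul_assoc] using b2)
    rw [Perm.mul_apply, Perm.mul_apply, ← Perm.eq_inv_iff_eq] at h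
    exact hf _ h
  exact n3 ((key u' hu' n1).symm.trans (key u'' hu'' n2))

theorem bigAltStmt : BigAltStmt := by
  refine fun k => ⟨4 * (3 * k), fun H Ω _ _ _ R => ⟨fun φ g Δ hΔ hn => ?_,
    fun S _ φ α hα hR hn => ?_⟩⟩
  · obtain ⟨ρ, hρ, θ, h1, h2, h3⟩ := core k (φ g) Δ (by omega)
    obtain ⟨r, hr, rfl⟩ := hΔ hρ
    refine ⟨r, hr, θ, h1, fun a => hΔ (h2 a), fun a b => ?_⟩
    rw [map_commutatorElement]
    exact h3 a b
  · obtain ⟨e⟩ : Nonempty (D (3 * k) ↪ Ω) :=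
      Function.Embedding.nonempty_of_card_le (by simpa [mul_comm] using hn)
    have hf := via_mem e (fun _ => mem_univ _) (sign_rh _)
    obtain ⟨ρ, hρ, θ, h1, h2, h3⟩ := core k (viaEmbeddingHom e (rh _)) univ (by
      have h4 : univ.map e ⊆ (viaEmbeddingHom e (rh (3 * k))).support ∩ univ := by
        intro a ha
        obtain ⟨⟨x, i, j⟩, -, rfl⟩ := mem_map.1 ha
        rw [inter_univ, mem_support, viaEmbeddingHom_apply, viaEmbedding_apply, rh_apply]
        simp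
      have h5 := card_le_card h4
      simp only [card_map, card_univ, Fintype.card_prod, Fintype.card_fin, Fintype.card_bool] at h5
      omega)
    obtain ⟨g, hg, e1⟩ := hR ⟨⟨_, hf.1⟩, rfl⟩
    obtain ⟨r, hr, e2⟩ := hR ⟨⟨_, hρ.1⟩, rfl⟩
    refine ⟨g, hg, r, hr, α.comp (θ.codRestrict _ fun a => (h2 a).1),
      hα.comp fun a b h => h1 (congrArg Subtype.val h), fun a => hR ⟨_, rfl⟩, fun a b => ?_⟩
    rw [map_commutatorElement, e1, e2, ← map_commutatorElement, MonoidHom.comp_apply,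
      MonoidHom.comp_apply, ← map_inv, ← map_mul, ← map_mul]
    exact Commute.map (Subtype.ext (h3 a b).eq) α

end Pool.Agent.Lib.MP_679d9b_al.KG
end
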