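import Mathlib
import Pool.Agent.Lib.MP_679d9b_al.KG.Ty

-- part Pool.Agent.Lib.MP_679d9b_al.KG.Js
section

/-!
Elementary abelian quotients of linear groups of prime power order in coprime characteristic.
-/

set_option autoImplicit false

namespace Pool.Agent.Lib.MP_679d9b_al.KG

open Subgroup

namespace Js

/-- A nilpotent finite group has a self-centralizing normal subgroup. -/
theorem exists_self {P : Type} [Group P] [Finite P] [h : Group.IsNilpotent P] :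
    ∃ A : Subgroup P, A.Normal ∧ centralizer (A : Set P) = A := by
  obtain ⟨A, ⟨hA1, hA2⟩, hmax⟩ := Set.Finite.exists_maximal
    (Set.toFinite {A : Subgroup P | A.Normal ∧ A ≤ centralizer (A : Set P)})
    ⟨⊥, inferInstance, bot_le⟩
  refine ⟨A, hA1, le_antisymm ?_ hA2⟩
  have key : ∀ n, ∀ x ∈ Subgroup.upperCentralSeries P n,
      x ∈ centralizer (A : Set P) → x ∈ A := by
    intro n
    induction n with
    | zero =>
      intro x hx _
      rw [Subgroup.upperCentralSeries_zero, mem_bot] at hx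
      exact hx ▸ A.one_mem
    | succ n ih =>
      intro x hx hc
      rw [Subgroup.mem_upperCentralSeries_succ_iff] at hx
      have hxB : x ∈ A ⊔ zpowers x := mem_sup_right (mem_zpowers x)
      have hZ : zpowers x ≤ centralizer (A : Set P) := zpowers_le.2 hc
      refine hmax (y := A ⊔ zpowers x) ⟨⟨fun y hy g => ?_⟩, ?_⟩ le_sup_left hxB
      · refine (sup_le (c := (A ⊔ zpowers x).comap (MulAut.conj g).toMonoidHom)
          (fun a ha => mem_sup_left (hA1.conj_mem a ha g)) (zpowers_le.2 ?_)) hy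
        have h1 : x * g * x⁻¹ * g⁻¹ ∈ A := by
          refine ih _ (hx g) ?_
          have := mul_mem hc ((normal_centralizer (H := A)).conj_mem _ (inv_mem hc) g)
          simpa only [mul_assoc] using this
        have h2 := mul_mem (inv_mem (mem_sup_left (T := zpowers x) h1)) hxB
        simpa [mul_assoc] using h2
      · refine sup_le (le_centralizer_iff.2 (sup_le hA2 hZ))
          (le_centralizer_iff.2 (sup_le (le_centralizer_iff.2 hZ) ?_))
        exact le_centralizer _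
  obtain ⟨n, hn⟩ := h.nilpotent
  exact fun x hx => key n x (hn ▸ mem_top x) hx

variable {P K V : Type} [Group P] [Field K] [AddCommGroup V] [Module K V]

/-- The weight space of a function on a subgroup. -/
def Wt (σ : P →* Module.End K V) (A : Subgroup P) (χ : A → K) : Submodule K V :=
  ⨅ a : A, (σ a).eigenspace (χ a)

theorem mem_Wt {σ : P →* Module.End K V} {A : Subgroup P} {χ : A → K} {v : V} :
    v ∈ Wt σ A χ ↔ ∀ a : A, σ a v = χ a • v := by
  simp [Wt]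

/-- The weights. -/
def X (σ : P →* Module.End K V) (A : Subgroup P) : Type := {χ : A → K // Wt σ A χ ≠ ⊥}

/-- The conjugation action on the weights. -/
@[reducible] def act (σ : P →* Module.End K V) (A : Subgroup P) [A.Normal] :
    MulAction P (X σ A) where
  smul g χ := ⟨fun a => χ.1 (MulAut.conjNormal g⁻¹ a), by
    obtain ⟨v, hv, hv0⟩ := Submodule.exists_mem_ne_zero_of_ne_bot χ.2
    refine (Submodule.ne_bot_iff _).2 ⟨σ g v, mem_Wt.2 fun a => ?_, fun h => hv0 ?_⟩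
    · rw [← map_smul, ← mem_Wt.1 hv, ← Module.End.mul_apply, ← Module.End.mul_apply, ← map_mul,
        ← map_mul]
      simp [mul_assoc]
    · have := congrArg (σ g⁻¹) h
      rwa [← Module.End.mul_apply, ← map_mul, inv_mul_cancel, map_one, map_zero] at this⟩
  one_smul χ := Subtype.ext (funext fun a => congrArg χ.1 (by simp))
  mul_smul g h χ := Subtype.ext (funext fun a => congrArg χ.1 (by simp))

theorem weights [FiniteDimensional K V] [IsAlgClosed K] (σ : P →* Module.End K V)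
    (A : Subgroup P) (hA : A ≤ centralizer (A : Set P)) {n : ℕ} (hn : (n : K) ≠ 0)
    (hP : ∀ y : P, y ^ n = 1) : iSupIndep (Wt σ A) ∧ ⨆ χ, Wt σ A χ = ⊤ := by
  have hss : ∀ (y : P) (μ : K), (σ y).maxGenEigenspace μ = (σ y).eigenspace μ := fun y μ =>
    (Module.End.isSemisimple_of_squarefree_aeval_eq_zero
      (Polynomial.X_pow_sub_one_separable_iff.2 hn).squarefree
      (by rw [map_sub, map_pow, Polynomial.aeval_X, ← map_pow, hP, map_one, map_one, sub_self])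
      ).isFinitelySemisimple.maxGenEigenspace_eq_eigenspace μ
  have hm : ∀ (a b : A) (μ : K), Set.MapsTo (σ a) ((σ b).maxGenEigenspace μ)
      ((σ b).maxGenEigenspace μ) := fun a b μ =>
    Module.End.mapsTo_maxGenEigenspace_of_comm
      (Commute.map (show Commute (b : P) a from hA a.2 b b.2) σ) μ
  have e : Wt σ A = fun χ => ⨅ a : A, (σ a).maxGenEigenspace (χ a) := by
    funext χ
    simp only [hss, Wt]
  rw [e]
  exact ⟨Module.End.independent_iInf_maxGenEigenspace_of_forall_mapsTo _ hm,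
    Module.End.iSup_iInf_maxGenEigenspace_eq_top_of_forall_mapsTo _ hm
      fun a => Module.End.iSup_maxGenEigenspace_eq_top _⟩

theorem core (s : ℕ) [hs : Fact s.Prime] {E : Type} [Finite P] [Group E] [FiniteDimensional K V]
    [IsAlgClosed K] (σ : P →* Module.End K V) (ψ : P →* E) (D : ℕ) (hP : IsPGroup s P)
    (hK : (s : K) ≠ 0) (hD : Module.finrank K V ≤ D) (hψ : Function.Surjective ψ)
    (hσ : Function.Injective σ) (hE : ∀ a : E, a ^ s = 1) :
    Nat.card E ≤ s ^ D * D.factorial := by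
  classical
  have := hP.isNilpotent
  obtain ⟨A, hA, hc⟩ := exists_self (P := P)
  obtain ⟨m, hm⟩ := hP.exists_card_eq
  obtain ⟨hind, htop⟩ := weights σ A hc.ge (n := s ^ m) (by simpa using fun h => absurd h hK)
    fun y => hm ▸ pow_card_eq_one'
  have : Fintype {χ // Wt σ A χ ≠ ⊥} := hind.fintypeNeBotOfFiniteDimensional
  have : Finite (X σ A) := inferInstanceAs (Finite {χ // Wt σ A χ ≠ ⊥})
  have hX : Nat.card (X σ A) ≤ D :=
    (Nat.card_eq_fintype_card (α := {χ // Wt σ A χ ≠ ⊥})).le.trans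
      (hind.subtype_ne_bot_le_finrank.trans hD)
  have hsep : ∀ a b : A, (∀ χ : X σ A, χ.1 a = χ.1 b) → a = b := by
    intro a b h
    refine Subtype.ext (hσ (LinearMap.ext fun v => ?_))
    have hv : v ∈ ⨆ χ, Wt σ A χ := htop ▸ Submodule.mem_top
    refine (iSup_le (a := LinearMap.eqLocus (σ a) (σ b)) fun χ w hw => ?_) hv
    by_cases h0 : Wt σ A χ = ⊥
    · rw [h0, Submodule.mem_bot] at hw
      exact hw ▸ Submodule.zero_mem _
    · rw [LinearMap.mem_eqLocus, mem_Wt.1 hw, mem_Wt.1 hw]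
      exact congrArg (· • w) (h ⟨χ, h0⟩)
  have h1 : A.index ≤ D.factorial := by
    let _ := act σ A
    have hk : (MulAction.toPermHom P (X σ A)).ker ≤ A := by
      intro g hg
      rw [← hc, mem_centralizer_iff]
      intro a ha
      have := congrArg Subtype.val (hsep (MulAut.conjNormal g⁻¹ ⟨a, ha⟩) ⟨a, ha⟩ fun χ =>
        congrFun (congrArg Subtype.val (Equiv.ext_iff.1 (MonoidHom.mem_ker.1 hg) χ)) _)
      simp only [MulAut.conjNormal_apply, inv_inv] at this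
      rw [mul_assoc, inv_mul_eq_iff_eq_mul] at this
      exact this
    refine (Nat.le_of_dvd (Nat.pos_of_ne_zero index_ne_zero_of_finite)
      (index_dvd_of_le hk)).trans ?_
    rw [index_ker]
    refine (card_le_card_group _).trans ?_
    rw [Nat.card_perm]
    exact Nat.factorial_le hX
  have h2 : Nat.card (A.map ψ) ≤ s ^ D := by
    let _ : CommGroup A :=
      { mul_comm := fun a b => Subtype.ext (hc.ge b.2 a a.2) }
    have h3 : (powMonoidHom s : A →* A).range ≤ (ψ.comp A.subtype).ker := by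
      rintro _ ⟨a, rfl⟩
      simp [hE]
    have h4 := Nat.le_of_dvd (Nat.pos_of_ne_zero index_ne_zero_of_finite) (index_dvd_of_le h3)
    rw [index_ker, index_range, MonoidHom.range_comp, range_subtype] at h4
    refine h4.trans ?_
    have hr : ∀ (a : (powMonoidHom s : A →* A).ker) (χ : X σ A),
        χ.1 a ∈ Polynomial.nthRootsFinset s (1 : K) := by
      intro a χ
      obtain ⟨v, hv, hv0⟩ := Submodule.exists_mem_ne_zero_of_ne_bot χ.2
      have h5 : ((a : A) : P) ^ s = 1 := congrArg Subtype.val (MonoidHom.mem_ker.1 a.2)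
      have h6 := (Module.End.HasEigenvector.pow_apply
        ⟨Module.End.mem_eigenspace_iff.2 (mem_Wt.1 hv a), hv0⟩ s)
      rw [← map_pow, h5, map_one, Module.End.one_apply] at h6
      rw [Polynomial.mem_nthRootsFinset hs.out.pos]
      exact smul_left_injective K hv0 (by simpa using h6.symm)
    refine (Nat.card_le_card_of_injective (fun a χ => (⟨_, hr a χ⟩ :
      Polynomial.nthRootsFinset s (1 : K))) fun a b h => Subtype.ext (hsep _ _ fun χ =>
        congrArg Subtype.val (congrFun h χ))).trans ?_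
    rw [Nat.card_fun]
    refine (Nat.pow_le_pow_left ?_ _).trans (Nat.pow_le_pow_right hs.out.pos hX)
    rw [Nat.card_eq_fintype_card, Fintype.card_coe, Polynomial.nthRootsFinset_def]
    exact (Multiset.toFinset_card_le _).trans (Polynomial.card_nthRoots _ _)
  rw [← (A.map ψ).card_mul_index]
  exact Nat.mul_le_mul h2 ((Nat.le_of_dvd (Nat.pos_of_ne_zero index_ne_zero_of_finite)
    (A.index_map_dvd hψ)).trans h1)

end Js

theorem jsStmt : JsStmt := by
  intro s _ P E K V _ _ _ _ _ _ _ σ ψ D hP hK hD hψ hker _ hE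
  classical
  let b := Module.finBasis K V
  let τ : Module.End K V →* Module.End (AlgebraicClosure K)
      (Fin (Module.finrank K V) → AlgebraicClosure K) :=
    (Matrix.toLinAlgEquiv'.toMulEquiv.toMonoidHom.comp
      (algebraMap K (AlgebraicClosure K)).mapMatrix.toMonoidHom).comp
      (LinearMap.toMatrixAlgEquiv b).toMulEquiv.toMonoidHom
  have hτ : Function.Injective τ :=
    (Matrix.toLinAlgEquiv'.injective.comp
      (Matrix.map_injective (algebraMap K (AlgebraicClosure K)).injective)).comp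
      (LinearMap.toMatrixAlgEquiv b).injective
  refine Js.core s (τ.comp (QuotientGroup.lift σ.ker σ fun _ h => h))
    (QuotientGroup.lift σ.ker ψ hker) D (hP.to_quotient _) ?_ (by simpa using hD)
    (QuotientGroup.lift_surjective_of_surjective _ _ hψ _) (hτ.comp ?_) hE
  · rwa [← map_natCast (algebraMap K (AlgebraicClosure K)), map_ne_zero]
  · intro x y h
    obtain ⟨x, rfl⟩ := QuotientGroup.mk_surjective x
    obtain ⟨y, rfl⟩ := QuotientGroup.mk_surjective y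
    rw [QuotientGroup.lift_mk, QuotientGroup.lift_mk] at h
    rw [QuotientGroup.eq, MonoidHom.mem_ker, map_mul, ← h, ← map_mul, inv_mul_cancel, map_one]

end Pool.Agent.Lib.MP_679d9b_al.KG
end

-- part Pool.Agent.Lib.MP_679d9b_al.KG.Ker
section

/-!
Dense conjugates and the kernel.
-/

set_option autoImplicit false

namespace Pool.Agent.Lib.MP_679d9b_al.KG

open Subgroup
open scoped commutatorElement

namespace Ker

variable {H S : Type} [Group H] [Group S] {φ : H →* S} {R T A : Subgroup H} {g : H} {c : ℕ}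

theorem normal_of (hT : T ⊔ A = ⊤) {N : Subgroup H} (h1 : ∀ t ∈ T, ∀ x ∈ N, t * x * t⁻¹ ∈ N)
    (h2 : ∀ t ∈ A, ∀ x ∈ N, t * x * t⁻¹ ∈ N) : N.Normal := by
  have k : ∀ P : Subgroup H, (∀ t ∈ P, ∀ x ∈ N, t * x * t⁻¹ ∈ N) → P ≤ normalizer N :=
    fun P h t ht => mem_normalizer_iff.2 fun x => ⟨h t ht x, fun hx => by
      simpa [mul_assoc] using h _ (P.inv_mem ht) _ hx⟩
  exact normalizer_eq_top_iff.1 (top_le_iff.1 (hT ▸ sup_le (k T h1) (k A h2)))

theorem not_le (h : Mn R A) : ¬A ≤ centralizer (R : Set H) := fun k =>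
  h.ne (h.eq ▸ commutator_eq_bot_iff_le_centralizer.2 k)

theorem cen (hR : Hd φ R) (h0 : (⁅φ.ker, R⁆ : Subgroup H) = ⊥)
    (hs : ∀ r ∈ R, ∃ t ∈ T, t ∈ R ∧ φ t = φ r) : R ≤ T := by
  have k : ∀ r ∈ R, ∃ t ∈ T, t ∈ R ∧ ∃ p, r = t * p ∧ ∀ x ∈ R, x * p = p * x := fun r hr => by
    obtain ⟨t, h1, h2, h3⟩ := hs r hr
    exact ⟨t, h1, h2, t⁻¹ * r, by simp, mem_centralizer_iff.1
      (commutator_eq_bot_iff_le_centralizer.1 h0 (by simp [h3]))⟩
  rw [← hR.perf, commutator_le]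
  intro a ha b hb
  obtain ⟨t, h1, h2, p, rfl, h3⟩ := k a ha
  obtain ⟨t', h1', h2', p', rfl, h3'⟩ := k b hb
  have e : ⁅t * p, t' * p'⁆ = ⁅t, t'⁆ := by
    calc _ = t * (p * (t' * p')) * p⁻¹ * t⁻¹ * (t' * p')⁻¹ := by
          rw [commutatorElement_def]
          group
      _ = t * t' * (p' * t⁻¹) * (t' * p')⁻¹ := by
          rw [← h3 _ hb]
          group
      _ = _ := by
          rw [← h3' _ (R.inv_mem h2), commutatorElement_def]
          group
  rw [e, commutatorElement_def]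
  exact T.mul_mem (T.mul_mem (T.mul_mem h1 h1') (T.inv_mem h1)) (T.inv_mem h1')

theorem inf_le (hR : R.Normal) (h : Mn R A) (h2 : ⁅A, A⁆ ≤ centralizer (R : Set H))
    (hT : T ⊔ A = ⊤) (hn : ¬A ≤ T) : T ⊓ A ≤ centralizer (R : Set H) := by
  have hA := h.nrm
  have nB : (A ⊓ centralizer (R : Set H)).Normal := inferInstance
  have n1 : ∀ t ∈ T, ∀ x ∈ T ⊓ A, t * x * t⁻¹ ∈ T ⊓ A := fun t ht x hx =>
    ⟨T.mul_mem (T.mul_mem ht hx.1) (T.inv_mem ht), hA.conj_mem x hx.2 t⟩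
  have le : (T ⊓ A) ⊔ (A ⊓ centralizer (R : Set H)) ≤ A := sup_le inf_le_right inf_le_left
  have n2 : ((T ⊓ A) ⊔ (A ⊓ centralizer (R : Set H))).Normal := by
    refine normal_of hT (fun t ht x hx => ?_) fun t ht x hx => ?_
    · obtain ⟨y, hy, z, hz, rfl⟩ := mem_sup_of_normal_right.1 hx
      rw [show t * (y * z) * t⁻¹ = t * y * t⁻¹ * (t * z * t⁻¹) by group]
      exact mul_mem (mem_sup_left (n1 t ht y hy)) (mem_sup_right (nB.conj_mem z hz t))
    · rw [show t * x * t⁻¹ = ⁅t, x⁆ * x by rw [commutatorElement_def]; group]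
      have := commutator_mem_commutator ht (le hx)
      exact mul_mem (mem_sup_right ⟨commutator_le_left A A this, h2 this⟩) hx
  rcases h.min _ n2 le with k | k
  · exact le_sup_left.trans k
  refine (h.min _ (normal_of hT n1 fun a ha x hx => ?_) inf_le_right).resolve_right
    fun e => hn (e ▸ inf_le_left)
  obtain ⟨y, hy, z, hz, rfl⟩ := mem_sup_of_normal_right.1 (k.ge ha)
  have := mem_centralizer_iff.1 hz.2 x (h.le hx.2)
  rw [show y * z * x * (y * z)⁻¹ = y * (z * x) * z⁻¹ * y⁻¹ by group, ← this,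
    show y * (x * z) * z⁻¹ * y⁻¹ = y * x * y⁻¹ by group]
  exact n1 y hy.1 x hx

theorem nil [Finite H] (hQ : QuotStmt) {l : ℕ} (hl : l.Prime) (hR : R.Normal) (h : Mn R A)
    (hN : NilT l R A) (hT : T ⊔ A = ⊤) (hg : g ∈ T) (hD : Dn c A g T) (hk : Rk R g c) :
    A ≤ T := by
  by_contra hn
  have hA := h.nrm
  have := Fact.mk hl
  have nB : (A ⊓ centralizer (R : Set H)).Normal := inferInstance
  have hc := inf_le hR h hN.2.1 hT hn
  obtain ⟨W, _, _, _, π, ρ, p1, p2, p3, p4⟩ := hQ l H H (MonoidHom.id H) A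
    (A ⊓ centralizer (R : Set H)) inf_le_left (le_inf (commutator_le_left A A) hN.2.1)
    (fun a ha => ⟨A.pow_mem ha l, hN.2.2 a ha⟩) (fun t a ha => hA.conj_mem a ha t)
    fun t a ha => nB.conj_mem a ha t
  have p5 : ∀ t, ∀ a ∈ A, ρ t (π a) = π a ↔ t * a * t⁻¹ * a⁻¹ ∈ centralizer (R : Set H) := by
    intro t a ha
    have m := A.mul_mem (hA.conj_mem a ha t) (A.inv_mem ha)
    have e := p2 _ m a ha
    rw [inv_mul_cancel_right] at e
    rw [p4 t a ha, MonoidHom.id_apply, e, add_eq_right, p3 _ m]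
    exact and_iff_right m
  let f : A →* Multiplicative W := MonoidHom.mk'
    (fun a => Multiplicative.ofAdd ((ρ g - (1 : ZMod l) • 1) (π a)))
    fun a b => by rw [coe_mul, p2 _ a.2 _ b.2, map_add, ofAdd_add]
  have gd : ∀ (m : H) (hm : m ∈ A), m⁻¹ * g * m ∈ T → (⟨m, hm⟩ : A)⁻¹ ∈ f.ker := by
    intro m hm k
    have : ρ g⁻¹ (π m⁻¹) = π m⁻¹ := (p5 _ _ (A.inv_mem hm)).2 (hc ⟨by
      simpa [mul_assoc] using T.mul_mem (T.inv_mem hg) k,
      A.mul_mem (hA.conj_mem _ (A.inv_mem hm) _) (A.inv_mem (A.inv_mem hm))⟩)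
    have e : ρ g (π m⁻¹) = π m⁻¹ := by
      conv_lhs => rw [← this, ← Module.End.mul_apply, ← map_mul, mul_inv_cancel, map_one]
      rfl
    exact ofAdd_eq_one.2 (by
      rw [one_smul, LinearMap.sub_apply, Module.End.one_apply]
      exact sub_eq_zero.2 e)
  have i1 := hD.relIndex_le (f.ker.map A.subtype) fun m hm m' hm' k k' =>
    ⟨_, f.ker.mul_mem (f.ker.inv_mem (gd m hm k)) (gd m' hm' k'), by simp⟩
  rw [relIndex, subgroupOf, comap_map_eq_self_of_injective A.subtype_injective, index_ker] at i1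
  have i2 : Nat.card f.range = Nat.card (LinearMap.range (ρ g - (1 : ZMod l) • 1)) :=
    Nat.card_congr (Equiv.subtypeEquiv Multiplicative.toAdd fun w =>
      ⟨fun ⟨a, e⟩ => ⟨_, congrArg Multiplicative.toAdd e⟩, fun ⟨v, e⟩ => by
        obtain ⟨a, ha, rfl⟩ := p1 v
        exact ⟨⟨a, ha⟩, congrArg Multiplicative.ofAdd e⟩⟩)
  rw [i2, Module.natCard_eq_pow_finrank (K := ZMod l), Nat.card_zmod] at i1
  have i3 : ∀ r ∈ R, ρ r = 1 := fun r hr => by_contra fun k =>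
    (hk H (MonoidHom.id H) Function.injective_id (fun x _ => ⟨x, rfl⟩) g rfl (ZMod l) W ρ ⟨r, hr, k⟩ 1).not_ge
      ((Nat.lt_pow_self hl.one_lt).le.trans i1)
  refine not_le h (h.eq ▸ ?_)
  rw [commutator_comm, commutator_le]
  exact fun r hr a ha => (p5 r a ha).1 (by rw [i3 r hr]; rfl)

theorem one (hA : AaStmt) (hQ : QuotStmt) (hM : MrStmt) (hC : KercStmt) (c : ℕ) :
    ∃ k : ℕ, ∀ (n : ℕ) (H S : Type) [Group H] [Finite H] [Group S] (φ : H →* S)
      (R T : Subgroup H) (g : H), Nat.card H = n → Hd φ R → Sch (φ.ker ⊓ R) → Big φ R k g →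
      (∀ r ∈ R, ∃ t ∈ T, t ∈ R ∧ φ t = φ r) → Dn c (φ.ker ⊓ R) g T → R ≤ T := by
  obtain ⟨N, hN⟩ := hC c
  obtain ⟨k, hk⟩ := hM (max N c)
  refine ⟨k, fun n => Nat.strong_induction_on n fun n ih => ?_⟩
  intro H S _ _ _ φ R T g hn hR hS hB hs hD
  subst hn
  by_cases h0 : R ⊔ zpowers g = ⊤
  swap
  · set H0 := R ⊔ zpowers g
    have l1 : R ≤ H0.subtype.range := by rw [range_subtype]; exact le_sup_left
    have m : g ∈ H0 := mem_sup_right (mem_zpowers g)
    have lt : Nat.card H0 < Nat.card H := lt_of_le_of_ne (card_le_card_group H0)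
      fun e => h0 ((card_eq_iff_eq_top H0).1 e)
    have := ih _ lt H0 S (φ.comp H0.subtype) (R.comap H0.subtype) (T.comap H0.subtype) ⟨g, m⟩ rfl
      (hR.comap _ H0.subtype_injective l1) (hS.ker_comap _ H0.subtype_injective l1)
      (Big.comap H0.subtype l1 hB) (fun r hr => by
        obtain ⟨t, h1, h2, h3⟩ := hs r hr
        exact ⟨⟨t, mem_sup_left h2⟩, h1, h2, h3⟩)
      (Dn.comap (g' := ⟨g, m⟩) H0.subtype H0.subtype_injective (inf_le_right.trans l1) hD)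
    exact fun r hr => this (x := ⟨r, mem_sup_left hr⟩) hr
  by_cases h1 : (⁅φ.ker, R⁆ : Subgroup H) = ⊥
  · exact cen hR h1 hs
  obtain ⟨A, a1, a2, a3⟩ := hA H S φ R hR hS h1
  have := a1.nrm
  have e : ∀ y, QuotientGroup.lift A φ a2 (QuotientGroup.mk' A y) = φ y := fun y => rfl
  have lt : Nat.card (H ⧸ A) < Nat.card H := by
    rw [card_eq_card_quotient_mul_card_subgroup A]
    exact lt_mul_of_one_lt_right Nat.card_pos ((one_lt_card_iff_ne_bot A).2 a1.ne)
  have q := ih _ lt (H ⧸ A) S (QuotientGroup.lift A φ a2) (R.map (QuotientGroup.mk' A))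
    (T.map (QuotientGroup.mk' A)) _ rfl (hR.map _ (QuotientGroup.mk'_surjective A) _ e)
    (hS.ker_map _ _ e) (hB.map _ _ e) (by
      rintro _ ⟨r, hr, rfl⟩
      obtain ⟨t, h1, h2, h3⟩ := hs r hr
      exact ⟨_, mem_map_of_mem _ h1, mem_map_of_mem _ h2, h3⟩) (by
      convert hD.map (QuotientGroup.mk' A) using 1
      refine le_antisymm ?_ (map_le_iff_le_comap.2 fun r hr => ⟨hr.1, mem_map_of_mem _ hr.2⟩)
      rintro _ ⟨h1, r, hr, rfl⟩
      exact mem_map_of_mem _ ⟨h1, hr⟩)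
  rw [Subgroup.map_le_map_iff, QuotientGroup.ker_mk'] at q
  obtain ⟨m, hm, g1, d1⟩ := hD.sub (le_inf a2 a1.le)
  have hT : T ⊔ A = ⊤ := by
    refine top_le_iff.1 (h0 ▸ sup_le q (zpowers_le.2 ?_))
    rw [show g = m * (m⁻¹ * g * m) * m⁻¹ by group]
    exact mul_mem (mul_mem (q hm.2) (mem_sup_left g1)) (inv_mem (q hm.2))
  obtain ⟨k1, -, k2, k3⟩ := hk H S φ R _ hR (hB.conj hm.2)
  refine q.trans (sup_le le_rfl ?_)
  rcases a3 with ⟨l, hl, a3⟩ | ⟨J, _, _, L, a3⟩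
  · exact nil hQ hl hR.nrm a1 a3 hT g1 d1 (k1.mono (le_max_right _ _))
  · exact hN H R A T J L _ a3 hT (k3.mono (le_max_left _ _)) (k2.mono (le_max_left _ _)) d1

end Ker

theorem kerStmt (hA : AaStmt) (hQ : QuotStmt) (hM : MrStmt) (hC : KercStmt) : KerStmt := by
  intro c
  obtain ⟨k1, h1⟩ := Ker.one hA hQ hM hC c
  obtain ⟨k2, h2⟩ := hM c
  refine ⟨max k1 (max k2 3), fun H S _ _ _ φ R T g hR hS hB hs hD => ?_⟩
  by_cases h : ∃ y ∈ T ⊓ R, φ y ≠ 1
  · obtain ⟨y, hy, h⟩ := h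
    have k := hR.min (((T ⊓ R).map φ).comap φ) (fun r hr x ⟨t0, h0, e0⟩ => by
      obtain ⟨t, ht, e⟩ := hs (mem_map_of_mem φ hr)
      exact ⟨t * t0 * t⁻¹, ⟨T.mul_mem (T.mul_mem ht h0.1) (T.inv_mem ht),
        hR.nrm.conj_mem _ h0.2 t⟩, by simp [e, e0]⟩) y (mem_map_of_mem φ hy) h
    obtain ⟨m, hm, -, d⟩ := hD.sub (A := φ.ker ⊓ R) inf_le_right
    exact h1 _ H S φ R T _ rfl hR hS ((hB.mono (le_max_left _ _)).conj hm)
      (fun r hr => let ⟨t, ht, e⟩ := k hr; ⟨t, ht.1, ht.2, e⟩) d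
  · push Not at h
    obtain ⟨r, hr, e⟩ := hB.not_comm ((le_max_right _ _).trans (le_max_right _ _))
    have k := (h2 H S φ R g hR (hB.mono ((le_max_left _ _).trans (le_max_right _ _)))).2.2.2
      ((centralizer {φ g}).comap φ) (hD.relIndex_le _ fun m hm m' hm' a b => by
        have m1 : m⁻¹ * g * m * (m'⁻¹ * g * m')⁻¹ ∈ R := by
          rw [show m⁻¹ * g * m * (m'⁻¹ * g * m')⁻¹ = m⁻¹ * (g * (m * m'⁻¹) * g⁻¹) * m' by group]
          exact R.mul_mem (R.mul_mem (R.inv_mem hm)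
            (hR.nrm.conj_mem _ (R.mul_mem hm (R.inv_mem hm')) g)) hm'
        have m2 := h _ ⟨T.mul_mem a (T.inv_mem b), m1⟩
        rw [map_mul, map_inv, mul_inv_eq_one] at m2
        rw [mem_comap, mem_centralizer_singleton_iff, ← map_mul, ← map_mul,
          show m * m'⁻¹ * g = m * (m'⁻¹ * g * m') * m'⁻¹ by group,
          show g * (m * m'⁻¹) = m * (m⁻¹ * g * m) * m'⁻¹ by group,
          map_mul _ _ m'⁻¹, map_mul _ _ m'⁻¹, map_mul _ m, map_mul _ m, m2])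
    exact absurd (mem_centralizer_singleton_iff.1 (k hr)) e

theorem mcStmt (h : KerStmt) : McStmt := by
  intro c
  obtain ⟨k, hk⟩ := h c
  exact ⟨k, fun H S _ _ _ φ R g hR hS hB hL T hD =>
    hk H S φ R T g hR hS hB (hL _ (hD.map φ)) hD⟩

end Pool.Agent.Lib.MP_679d9b_al.KG
end

-- part Pool.Agent.Lib.MP_679d9b_al.KG.Kerc
section

/-!
Dense conjugates and components.
-/

set_option autoImplicit false

namespace Pool.Agent.Lib.MP_679d9b_al.KG

open Subgroup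
open scoped commutatorElement

namespace Kerc

variable {H : Type} [Group H]

section Pr
variable {L Q Q' U : Subgroup H} {y y' z z' : H}

theorem mul_eq (hy : y' ∈ L) (hz : z ∈ centralizer (L : Set H)) :
    y * z * (y' * z') = y * y' * (z * z') := by
  have := mem_centralizer_iff.1 hz y' hy
  rw [mul_assoc, ← mul_assoc z, ← this]
  simp only [mul_assoc]

theorem inv_eq (hy : y ∈ L) (hz : z ∈ centralizer (L : Set H)) : (y * z)⁻¹ = y⁻¹ * z⁻¹ := by
  rw [mem_centralizer_iff.1 hz y hy, mul_inv_rev]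

theorem comm_eq (hy : y ∈ L) (hy' : y' ∈ L) (hz : z ∈ centralizer (L : Set H))
    (hz' : z' ∈ centralizer (L : Set H)) : ⁅y * z, y' * z'⁆ = ⁅y, y'⁆ * ⁅z, z'⁆ := by
  rw [commutatorElement_def, inv_eq hy hz, inv_eq hy' hz', mul_eq hy' hz,
    mul_eq (inv_mem hy) (mul_mem hz hz'), mul_eq (inv_mem hy') (mul_mem (mul_mem hz hz') (inv_mem hz))]
  rfl

/-- The projection of `Q` to `L`. -/
def Pr (L Q : Subgroup H) : Subgroup H where
  carrier := {y | y ∈ L ∧ ∃ z ∈ centralizer (L : Set H), y * z ∈ Q}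
  one_mem' := ⟨one_mem _, 1, one_mem _, mul_mem (one_mem _) (one_mem _)⟩
  mul_mem' := fun ⟨h1, z, h2, h3⟩ ⟨h4, z', h5, h6⟩ =>
    ⟨mul_mem h1 h4, z * z', mul_mem h2 h5, mul_eq h4 h2 ▸ mul_mem h3 h6⟩
  inv_mem' := fun ⟨h1, z, h2, h3⟩ => ⟨inv_mem h1, z⁻¹, inv_mem h2, inv_eq h1 h2 ▸ inv_mem h3⟩

/-- Normal subgroups of `U`. -/
def Nm (U Q : Subgroup H) : Prop := Q ≤ U ∧ ∀ s ∈ U, ∀ t ∈ Q, s * t * s⁻¹ ∈ Q

theorem Nm.inf (h : Nm U Q) (h' : Nm U Q') : Nm U (Q ⊓ Q') :=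
  ⟨inf_le_left.trans h.1, fun s hs t ht => ⟨h.2 s hs t ht.1, h'.2 s hs t ht.2⟩⟩

theorem cov_inf (hL : ⁅L, L⁆ = L) (h : Nm U Q) (h' : Nm U Q') (c : L ≤ Pr L Q) (c' : L ≤ Pr L Q') :
    L ≤ Pr L (Q ⊓ Q') := by
  refine hL.ge.trans (commutator_le.2 fun y hy y' hy' => ?_)
  obtain ⟨-, z, hz, h1⟩ := c hy
  obtain ⟨-, z', hz', h2⟩ := c' hy'
  refine ⟨hL.le (commutator_mem_commutator hy hy'), ⁅z, z'⁆,
    mul_mem (mul_mem (mul_mem hz hz') (inv_mem hz)) (inv_mem hz'),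
    comm_eq hy hy' hz hz' ▸ mem_inf.2 ⟨?_, ?_⟩⟩
  · have := mul_mem h1 (h.2 _ (h'.1 h2) _ (inv_mem h1))
    simpa only [commutatorElement_def, mul_assoc] using this
  · exact mul_mem (h'.2 _ (h.1 h1) _ h2) (inv_mem h2)

theorem cov_of_qs (hL : Qs L) (h : Nm U Q) (c : L ≤ Pr L U) (hy : y ∈ L)
    (hz : z ∈ centralizer (L : Set H)) (hq : y * z ∈ Q) (hn : y * z ∉ centralizer (L : Set H)) :
    L ≤ Pr L Q := by
  refine (hL.qsi (Pr L Q) (fun _ a => a.1) ?_).elim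
    (fun a => absurd (mul_mem (a ⟨hy, z, hz, hq⟩) hz) hn) fun a => a.ge
  rintro x hx a ⟨ha, b, hb, hab⟩
  obtain ⟨-, w, hw, hxw⟩ := c hx
  refine ⟨mul_mem (mul_mem hx ha) (inv_mem hx), w * b * w⁻¹,
    mul_mem (mul_mem hw hb) (inv_mem hw), ?_⟩
  have := h.2 _ hxw _ hab
  rwa [inv_eq hx hw, mul_eq ha hw, mul_eq (inv_mem hx) (mul_mem hw hb)] at this

end Pr

variable {R A T : Subgroup H} {J : Type} [MulAction H J] {L : J → Subgroup H}

theorem le_cen (h : Cs R A L) {i j : J} (e : i ≠ j) : L i ≤ centralizer (L j : Set H) :=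
  fun a ha => mem_centralizer_iff.2 fun b hb => (h.comm i j e a ha b hb).eq.symm

theorem le_A (h : Cs R A L) (j : J) : L j ≤ A := h.sup ▸ le_iSup L j

theorem cen_conj (h : Cs R A L) (x : H) {j : J} {z : H} (hz : z ∈ centralizer (L j : Set H)) :
    x * z * x⁻¹ ∈ centralizer (L (x • j) : Set H) := by
  refine mem_centralizer_iff.2 fun y hy => ?_
  have h1 : x⁻¹ * y * x ∈ L j := (h.mem_iff x _ j).1 (by simpa [mul_assoc] using hy)
  have := congrArg (fun w => x * w * x⁻¹) (mem_centralizer_iff.1 hz _ h1)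
  simpa [mul_assoc] using this

theorem decomp (h : Cs R A L) (j : J) {a : H} (ha : a ∈ A) :
    ∃ y ∈ L j, ∃ z ∈ centralizer (L j : Set H), a = y * z := by
  rw [← h.sup] at ha
  refine iSup_induction L (C := fun a => ∃ y ∈ L j, ∃ z ∈ centralizer (L j : Set H), a = y * z) ha
    (fun i x hx => ?_) ⟨1, one_mem _, 1, one_mem _, (mul_one _).symm⟩ ?_
  · by_cases e : i = j
    · exact ⟨x, e ▸ hx, 1, one_mem _, (mul_one _).symm⟩
    · exact ⟨1, one_mem _, x, le_cen h e hx, (one_mul _).symm⟩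
  · rintro _ _ ⟨y, hy, z, hz, rfl⟩ ⟨y', hy', z', hz', rfl⟩
    exact ⟨_, mul_mem hy hy', _, mul_mem hz hz', mul_eq hy' hz⟩

theorem exists_T (h : Cs R A L) (hT : T ⊔ A = ⊤) (x : H) : ∃ t ∈ T, ∀ j : J, x • j = t • j := by
  have := h.normal
  have hx : x ∈ ((T ⊔ A : Subgroup H) : Set H) := hT ▸ mem_top x
  rw [mul_normal] at hx
  obtain ⟨t, ht, a, ha, rfl⟩ := hx
  exact ⟨t, ht, fun j => by rw [mul_smul, h.smul_eq ha]⟩

/-- The elements of `T ⊓ A` which centralize a component. -/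
def Kr (T A : Subgroup H) (L : J → Subgroup H) (j : J) : Subgroup H :=
  T ⊓ A ⊓ centralizer (L j : Set H)

theorem TA_conj (h : Cs R A L) {t k : H} (ht : t ∈ T) (hk : k ∈ T ⊓ A) : t * k * t⁻¹ ∈ T ⊓ A :=
  mem_inf.2 ⟨mul_mem (mul_mem ht hk.1) (inv_mem ht), h.normal.conj_mem _ hk.2 t⟩

theorem Kr_conj (h : Cs R A L) {t k : H} (ht : t ∈ T) {j : J} (hk : k ∈ Kr T A L j) :
    t * k * t⁻¹ ∈ Kr T A L (t • j) := ⟨TA_conj h ht hk.1, cen_conj h t hk.2⟩

theorem Kr_nm (h : Cs R A L) (j : J) : Nm (T ⊓ A) (Kr T A L j) :=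
  ⟨inf_le_left, fun _ hs _ ht => h.smul_eq hs.2 j ▸ Kr_conj h hs.1 ht⟩

theorem Kr_le (h : Cs R A L) (hT : T ⊔ A = ⊤) (x : H) {i j : J} (e : Kr T A L i ≤ Kr T A L j) :
    Kr T A L (x • i) ≤ Kr T A L (x • j) := by
  obtain ⟨t, ht, et⟩ := exists_T h hT x
  intro k hk
  rw [et] at hk ⊢
  have h1 := Kr_conj h (inv_mem ht) hk
  rw [inv_smul_smul] at h1
  simpa [mul_assoc] using Kr_conj h ht (e h1)

theorem Kr_eq [Finite H] (h : Cs R A L) (hT : T ⊔ A = ⊤) {i j : J} (e : Kr T A L i ≤ Kr T A L j) :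
    Kr T A L i = Kr T A L j := by
  obtain ⟨x, rfl⟩ := h.trans j i
  obtain ⟨t, ht, et⟩ := exists_T h hT x
  refine eq_of_le_of_card_ge e (Nat.card_le_card_of_injective
    (fun k => ⟨t * k.1 * t⁻¹, et j ▸ Kr_conj h ht k.2⟩) fun a b hab => ?_)
  simpa using hab

theorem cov_smul (h : Cs R A L) (hT : T ⊔ A = ⊤) {i : J} (c : L i ≤ Pr (L i) (T ⊓ A)) (j : J) :
    L j ≤ Pr (L j) (T ⊓ A) := by
  obtain ⟨x, rfl⟩ := h.trans i j
  obtain ⟨t, ht, et⟩ := exists_T h hT x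
  rw [et]
  intro y hy
  obtain ⟨-, z, hz, h1⟩ := c ((h.mem_iff t (t⁻¹ * y * t) i).1 (by simpa [mul_assoc] using hy))
  refine ⟨hy, _, cen_conj h t hz, ?_⟩
  simpa [mul_assoc] using TA_conj h ht h1

theorem test [Finite H] (h : Cs R A L) {c : ℕ} {g : H} (hD : Dn c A g T) {x : Fin (c + 1) → J}
    (hx : Function.Injective x) (hg : ∀ i k, g • x i ≠ x k) {y : Fin (c + 1) → H}
    (hy : ∀ i, y i ∈ L (x i)) : ∃ i i', i ≠ i' ∧ ∃ z ∈ centralizer (L (x i) : Set H),
      y i * z ∈ T ⊓ A ∧ ∀ j, j ≠ x i → j ≠ g • x i → j ≠ g • x i' → j ≠ x i' →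
        y i * z ∈ centralizer (L j : Set H) := by
  obtain ⟨a, ha, i, i', e, h1, h2⟩ := hD.test y fun i => le_A h _ (hy i)
  have hs : ∀ j : J, (a⁻¹ * g * a) • j = g • j := fun j => by
    rw [mul_smul, mul_smul, h.smul_eq ha, h.smul_eq (inv_mem ha)]
  have p := h.conj (a⁻¹ * g * a) _ _ (hy i')
  have q := h.conj (a⁻¹ * g * a) _ _ (inv_mem (hy i))
  rw [hs] at p q
  have hz := mul_mem (mul_mem (inv_mem (le_cen h (hx.ne e.symm) (hy i'))) (le_cen h (hg i' i) p))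
    (le_cen h (hg i i) q)
  refine ⟨i, i', e, _, hz, mem_inf.2 ⟨?_, ?_⟩, fun j e1 e2 e3 e4 => ?_⟩
  · rw [mem_centralizer_iff.1 hz _ (hy i)]
    simpa [mul_assoc] using mul_mem h2 (inv_mem h1)
  · exact mul_mem (le_A h _ (hy i))
      (mul_mem (mul_mem (inv_mem (le_A h _ (hy i'))) (le_A h _ p)) (le_A h _ q))
  · exact mul_mem (le_cen h e1.symm (hy i)) (mul_mem (mul_mem (inv_mem (le_cen h e4.symm (hy i')))
      (le_cen h e3.symm p)) (le_cen h e2.symm q))

theorem test' [Finite H] (h : Cs R A L) {c : ℕ} {g : H} (hD : Dn c A g T) {x : Fin (c + 1) → J}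
    (hx : Function.Injective x) (hg : ∀ i k, g • x i ≠ x k) : ∃ i i', i ≠ i' ∧
      ∀ j, Kr T A L j = Kr T A L (x i) → j = x i ∨ j = g • x i ∨ j = g • x i' ∨ j = x i' := by
  have : ∀ i, ∃ y ∈ L (x i), y ∉ centralizer (L (x i) : Set H) := fun i => by
    obtain ⟨a, ha, b, hb, hab⟩ := (h.qs (x i)).noncomm
    exact ⟨b, hb, fun k => hab (mem_centralizer_iff.1 k a ha)⟩
  choose y hy hn using this
  obtain ⟨i, i', e, z, hz, h1, h2⟩ := test h hD hx hg hy
  refine ⟨i, i', e, fun j hj => ?_⟩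
  by_contra hc
  simp only [not_or] at hc
  have : y i * z ∈ Kr T A L (x i) := hj ▸ ⟨h1, h2 j hc.1 hc.2.1 hc.2.2.1 hc.2.2.2⟩
  exact hn i ((mul_mem_cancel_right hz).1 this.2)

theorem final [Finite H] [Finite J] (h : Cs R A L) (hT : T ⊔ A = ⊤)
    (c : ∀ j, L j ≤ Pr (L j) (T ⊓ A)) (hK : Function.Injective (Kr T A L)) : A ≤ T := by
  classical
  rw [← h.sup]
  refine iSup_le fun j => ?_
  have h1 : ∀ i, i ≠ j → L j ≤ Pr (L j) (Kr T A L i) := fun i e => by
    obtain ⟨k, hk, hk'⟩ := SetLike.not_le_iff_exists.1 fun a => e (hK (Kr_eq h hT a))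
    obtain ⟨y, hy, z, hz, rfl⟩ := decomp h j hk.1.2
    exact cov_of_qs (h.qs j) (Kr_nm h i) (c j) hy hz hk fun a => hk' ⟨hk.1, a⟩
  have h2 : ∀ s : Finset J, ∃ Q, Nm (T ⊓ A) Q ∧ L j ≤ Pr (L j) Q ∧
      ∀ i ∈ s, i ≠ j → Q ≤ centralizer (L i : Set H) := fun s => by
    induction s using Finset.induction_on with
    | empty => exact ⟨_, ⟨le_rfl, fun _ hs _ ht => TA_conj h hs.1 ht⟩, c j, by simp⟩
    | insert i s _ ih =>
      obtain ⟨Q, q1, q2, q3⟩ := ih
      by_cases e : i = j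
      · exact ⟨Q, q1, q2, fun k hk e' =>
          q3 k ((Finset.mem_insert.1 hk).resolve_left fun a => e' (a.trans e)) e'⟩
      · refine ⟨Q ⊓ Kr T A L i, q1.inf (Kr_nm h i),
          cov_inf (h.qs j).perf q1 (Kr_nm h i) q2 (h1 i e), fun k hk e' => ?_⟩
        rcases Finset.mem_insert.1 hk with rfl | hk
        · exact inf_le_right.trans inf_le_right
        · exact inf_le_left.trans (q3 k hk e')
  have := Fintype.ofFinite J
  obtain ⟨Q, q1, q2, q3⟩ := h2 Finset.univ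
  refine (h.qs j).perf.ge.trans (commutator_le.2 fun y hy y' hy' => ?_)
  obtain ⟨-, z, hz, h3⟩ := q2 hy
  obtain ⟨-, z', hz', h4⟩ := q2 hy'
  have h5 : A ≤ centralizer {z} := by
    rw [← h.sup]
    refine iSup_le fun i a ha => mem_centralizer_singleton_iff.2 ?_
    refine mem_centralizer_iff.1 (?_ : z ∈ centralizer (L i : Set H)) a ha
    by_cases e : i = j
    · exact e ▸ hz
    · exact (mul_mem_cancel_left (le_cen h (Ne.symm e) hy)).1 (q3 i (Finset.mem_univ i) e h3)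
  have h6 : ⁅z, z'⁆ = 1 := commutatorElement_eq_one_iff_mul_comm.2
    (mem_centralizer_singleton_iff.1 (h5 ((mul_mem_cancel_left (le_A h j hy')).1 (q1.1 h4).2))).symm
  have h7 := comm_eq hy hy' hz hz'
  rw [h6, mul_one] at h7
  rw [← h7]
  exact mul_mem (mul_mem (mul_mem (q1.1 h3).1 (q1.1 h4).1) (inv_mem (q1.1 h3).1))
    (inv_mem (q1.1 h4).1)

/-- The action on the classes. -/
@[reducible] def act (h : Cs R A L) (hT : T ⊔ A = ⊤) :
    MulAction H (Quotient (Setoid.ker (Kr T A L))) where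
  smul x := Quotient.map (x • ·) fun _ _ e =>
    le_antisymm (Kr_le h hT x (le_of_eq e)) (Kr_le h hT x (ge_of_eq e))
  one_smul := Quotient.ind fun j => congrArg (Quotient.mk _) (one_smul H j)
  mul_smul x y := Quotient.ind fun j => congrArg (Quotient.mk _) (mul_smul x y j)

end Kerc

open Kerc in
theorem kercStmt : KercStmt := by
  intro c
  refine ⟨3 * (c + 1) + 4, fun H _ _ R A T J _ _ L g h hT hS hM hD => ?_⟩
  rcases isEmpty_or_nonempty J with hJ | ⟨⟨j0⟩⟩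
  · rw [← h.sup, iSup_of_empty]
    exact bot_le
  obtain ⟨r0, hr0, e0⟩ := h.mov j0
  obtain ⟨x, hx, hg⟩ := exists_moved (X := J) g (c + 1) (by
    have := hM J ⟨r0, hr0, j0, e0⟩
    omega)
  have hc : ∀ j, L j ≤ Pr (L j) (T ⊓ A) := by
    by_contra hc
    have : ∀ i, ∃ y ∈ L (x i), y ∉ Pr (L (x i)) (T ⊓ A) := fun i =>
      SetLike.not_le_iff_exists.1 fun a => hc (cov_smul h hT a)
    choose y hy hn using this
    obtain ⟨i, -, -, z, hz, h1, -⟩ := test h hD hx hg hy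
    exact hn i ⟨hy i, z, hz, h1⟩
  refine final h hT hc ?_
  let _ := act h hT
  have hq : ∀ (a : H) (j : J), a • Quotient.mk (Setoid.ker (Kr T A L)) j = Quotient.mk _ (a • j) :=
    fun _ _ => rfl
  by_cases hR : ∃ r ∈ R, ∃ q : Quotient (Setoid.ker (Kr T A L)), r • q ≠ q
  · obtain ⟨q, hq1, hq2⟩ := exists_moved (X := Quotient (Setoid.ker (Kr T A L))) g (c + 1) (by
      have := hM _ hR
      omega)
    choose w hw using fun i => Quotient.exists_rep (q i)
    obtain ⟨i, i', e, hi⟩ := test' h hD (x := w)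
      (fun a b hab => hq1 (by rw [← hw, ← hw, hab])) fun a b hab =>
        hq2 a b (by rw [← hw, ← hw, hq, hab])
    have h1 : ∀ j, Kr T A L j = Kr T A L (w i) → j = w i := fun j hj => by
      have h2 : Quotient.mk _ j = q i := (Quotient.sound hj).trans (hw i)
      rcases hi j hj with a | a | a | a
      · exact a
      · exact absurd (by rw [← hw, hq, ← a, h2, hw]) (hq2 i i)
      · exact absurd (by rw [← h2, a, ← hq, hw]) (hq2 i' i)
      · exact absurd (hq1 (by rw [← h2, a, hw])) e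
    intro a b hab
    obtain ⟨u, hu⟩ := h.trans b (w i)
    refine MulAction.injective u ((h1 _ ?_).trans hu.symm)
    rw [← hu]
    exact le_antisymm (Kr_le h hT u hab.le) (Kr_le h hT u hab.ge)
  · obtain ⟨i, i', -, hi⟩ := test' h hD hx hg
    have h1 := hS.orbit (h.mov (x i))
    have h2 : MulAction.orbit R (x i) ⊆ {x i, g • x i, g • x i', x i'} := by
      rintro _ ⟨r, rfl⟩
      refine hi _ (Quotient.exact (s := Setoid.ker (Kr T A L)) ?_)
      by_contra hn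
      exact hR ⟨r, r.2, Quotient.mk _ (x i), hn⟩
    have h3 := (Set.ncard_le_ncard h2).trans (Set.ncard_insert_le _ _)
    have h4 := Set.ncard_insert_le (g • x i) {g • x i', x i'}
    have h5 := Set.ncard_insert_le (g • x i') {x i'}
    rw [Set.ncard_singleton] at h5
    omega

end Pool.Agent.Lib.MP_679d9b_al.KG
end

-- part Pool.Agent.Lib.MP_679d9b_al.KG.Key
section

/-!
Point stabilisers of a later level are giants, and chains of centralizers from points with a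
common stabiliser.
-/

set_option autoImplicit false

namespace Pool.Agent.Lib.MP_679d9b_al.KG

open Equiv Equiv.Perm Finset
open scoped commutatorElement
open Alt (AltOn R R_conj R_le R_surj R_mono)

namespace Key

variable {Ω : Type} [Fintype Ω] [DecidableEq Ω] {H : Type} [Group H]

/-- The stabiliser of a set of points. -/
def setStab [Finite H] (φ : H →* Perm Ω) (Λ : Finset Ω) : Subgroup H where
  carrier := {h | ∀ a ∈ Λ, φ h a ∈ Λ}
  one_mem' := fun a ha => by simpa using ha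
  mul_mem' := fun {g h} hg hh a ha => by
    rw [map_mul, Perm.mul_apply]
    exact hg _ (hh a ha)
  inv_mem' := fun {g} hg a ha => by
    have h1 : Λ.image (φ g) = Λ := eq_of_subset_of_card_le
      (fun y hy => by
        obtain ⟨b, hb, rfl⟩ := mem_image.1 hy
        exact hg b hb)
      (card_image_of_injective _ (φ g).injective).ge
    rw [← h1] at ha
    obtain ⟨b, hb, rfl⟩ := mem_image.1 ha
    simpa using hb

/-- The product over the set of conjugates. -/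
theorem exists_nm (Z : Subgroup H) [Fintype Z] (r : H)
    (h : ∀ z ∈ Z, ∀ z' ∈ Z, z * r * z⁻¹ ≠ z' * r * z'⁻¹ →
      Commute (z * r * z⁻¹) (z' * r * z'⁻¹)) :
    ∃ c, (∀ z ∈ Z, Commute z c) ∧ (∀ B : Subgroup H, (∀ z ∈ Z, z * r * z⁻¹ ∈ B) → c ∈ B) ∧
      ∀ B : Subgroup H, (∀ z ∈ Z, z * r * z⁻¹ ≠ r → z * r * z⁻¹ ∈ B) → r⁻¹ * c ∈ B := by
  classical
  let s : Finset H := univ.image fun z : Z => (z : H) * r * (z : H)⁻¹
  have hs : ∀ y, y ∈ s ↔ ∃ z ∈ Z, z * r * z⁻¹ = y := fun y => by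
    simp only [s, mem_image, mem_univ, true_and, Subtype.exists, exists_prop]
  have hc : (s : Set H).Pairwise (Function.onFun Commute id) := by
    intro y hy y' hy' hne
    obtain ⟨z, hz, rfl⟩ := (hs y).1 hy
    obtain ⟨z', hz', rfl⟩ := (hs y').1 hy'
    exact h z hz z' hz' hne
  have hr : r ∈ s := (hs r).2 ⟨1, one_mem _, by simp⟩
  refine ⟨s.noncommProd id hc, fun g hg => ?_, fun B hB => B.noncommProd_mem _ fun y hy => ?_,
    fun B hB => ?_⟩
  · rw [Commute, SemiconjBy, ← mul_inv_eq_iff_eq_mul, ← MulAut.conj_apply, Finset.map_noncommProd]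
    have key : ∀ (a b : Multiset H) (_ : a = b) ha hb, a.noncommProd ha = b.noncommProd hb := by
      intro a b hab ha hb
      subst hab
      rfl
    refine key _ _ ?_ _ _
    have h1 : s.map (MulAut.conj g).toEquiv.toEmbedding = s := eq_of_subset_of_card_le
      (fun y hy => by
        obtain ⟨y', hy', rfl⟩ := Finset.mem_map.1 hy
        obtain ⟨z, hz, rfl⟩ := (hs y').1 hy'
        exact (hs _).2 ⟨g * z, mul_mem hg hz, by simp [mul_assoc]⟩)
      (card_map _).ge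
    conv_rhs => rw [← h1, Finset.map_val, Multiset.map_map]
    rfl
  · obtain ⟨z, hz, rfl⟩ := (hs y).1 hy
    exact hB z hz
  · rw [← mul_noncommProd_erase _ hr]
    simp only [id, inv_mul_cancel_left]
    refine B.noncommProd_mem _ fun y hy => ?_
    obtain ⟨z, hz, rfl⟩ := (hs y).1 (mem_erase.1 hy).2
    exact hB z hz (mem_erase.1 hy).1

theorem chain_gen [Finite H] {φ : H →* Perm Ω} (hφ : alternatingGroup Ω ≤ φ.range)
    (hc : ∀ Δ Δ' : Finset Ω, 5 ≤ #Δ → 5 ≤ #Δ' → Disjoint Δ Δ' →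
      ∀ r ∈ R φ Δ, ∀ r' ∈ R φ Δ', Commute r r') (x : H) (d : ℕ) (Reg : Finset Ω)
    (hReg : ∀ Δ ⊆ Reg, #Δ = 5 → ∀ a ∈ Δ, ∀ z ∈ Subgroup.zpowers x, φ z a = a →
      ∀ r ∈ R φ Δ, Commute z r)
    (hd : 5 * orderOf x * (d + 1) ≤ #Reg) : ¬ Alt.NoChain x d := by
  classical
  intro h
  set Z := Subgroup.zpowers x with hZ
  have := Fintype.ofFinite Z
  have hcard : Fintype.card Z = orderOf x := by
    rw [← Nat.card_eq_fintype_card, Nat.card_zpowers]
  let B : Finset Ω → Subgroup H := fun X => ⨆ Δ : {Δ : Finset Ω // Δ ⊆ X ∧ 5 ≤ #Δ}, R φ Δ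
  refine h (Finset Ω) (fun k X => #X ≤ 5 * orderOf x * k ∧ ∀ z ∈ Z, ∀ a ∈ X, φ z a ∈ X)
    (fun X => B X) ∅ ⟨by simp, by simp⟩ fun k hk X hX => ?_
  obtain ⟨Δ, h1, h2, h3, h4⟩ := Alt.exists_transversal φ Z Reg X 5 (by
    have := Nat.mul_le_mul_left (5 * orderOf x) hk
    rw [hcard]
    nlinarith [hX.1])
  have c5 : ∀ z : H, 5 ≤ #(Δ.image (φ z)) := fun z => by
    rw [card_image_of_injective _ (φ z).injective, h2]
  have cm : ∀ z : H, ∀ r ∈ R φ Δ, z * r * z⁻¹ ∈ R φ (Δ.image (φ z)) := fun z r hr =>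
    R_conj hφ (c5 z) (fun a ha => mem_image_of_mem _ ha) hr
  have dj : ∀ r ∈ R φ Δ, ∀ z ∈ Z, ∀ z' ∈ Z, z * r * z⁻¹ ≠ z' * r * z'⁻¹ →
      Disjoint (Δ.image (φ z)) (Δ.image (φ z')) := by
    intro r hr z hz z' hz' hne
    rw [disjoint_left]
    intro y hy hy'
    obtain ⟨a, ha, rfl⟩ := mem_image.1 hy
    obtain ⟨b, hb, e⟩ := mem_image.1 hy'
    have h5 : φ (z⁻¹ * z') b = a := by simp [e]
    have h6 := h4 b hb a ha _ (mul_mem (inv_mem hz) hz') h5
    have h7 := hReg Δ h1 h2 b hb _ (mul_mem (inv_mem hz) hz') (h5.trans h6.symm) r hr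
    apply hne
    calc z * r * z⁻¹ = z * (r * (z⁻¹ * z')) * z'⁻¹ := by group
      _ = z * (z⁻¹ * z' * r) * z'⁻¹ := by rw [h7.eq]
      _ = z' * r * z'⁻¹ := by group
  have nm : ∀ r ∈ R φ Δ, ∃ c, Commute x c ∧ (∀ B : Subgroup H,
      (∀ z ∈ Z, R φ (Δ.image (φ z)) ≤ B) → c ∈ B) ∧ ∀ a ∈ Δ, φ c a = φ r a := by
    intro r hr
    obtain ⟨c, c1, c2, c3⟩ := exists_nm Z r fun z hz z' hz' hne => hc _ _ (c5 z) (c5 z')
      (dj r hr z hz z' hz' hne) _ (cm z r hr) _ (cm z' r hr)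
    refine ⟨c, c1 x (Subgroup.mem_zpowers x), fun B hB => c2 B fun z hz => hB z hz (cm z r hr),
      fun a ha => ?_⟩
    have h5 : φ (r⁻¹ * c) a = a := c3 ((MulAction.stabilizer (Perm Ω) a).comap φ) fun z hz hz1 =>
      (R_le hφ (c5 z) (cm z r hr)).2 a
        (disjoint_right.1 (dj r hr z hz 1 (one_mem _) (by simpa using hz1))
          (mem_image.2 ⟨a, ha, by simp⟩))
    rw [map_mul, map_inv, Perm.mul_apply, Perm.inv_eq_iff_eq] at h5
    exact h5
  obtain ⟨σ, hσ, τ, hτ, a, ha, hne⟩ := Alt.exists_noncomm (Δ := Δ) (by omega)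
  obtain ⟨r, hr, rfl⟩ := R_surj hφ h2.ge hσ
  obtain ⟨r', hr', rfl⟩ := R_surj hφ h2.ge hτ
  obtain ⟨u, u1, u2, u3⟩ := nm r hr
  obtain ⟨v, v1, v2, v3⟩ := nm r' hr'
  refine ⟨X ∪ (Δ ×ˢ (univ : Finset Z)).image fun q => φ q.2 q.1, ⟨?_, fun z hz y hy => ?_⟩, ?_,
    v, v1, fun y hy => ?_, u, u2 _ fun z hz => ?_, u1, fun e => hne ?_⟩
  · have a1 := card_union_le X ((Δ ×ˢ (univ : Finset Z)).image fun q => φ q.2 q.1)
    have a2 := card_image_le (s := Δ ×ˢ (univ : Finset Z)) (f := fun q => φ q.2 q.1)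
    rw [card_product, h2, card_univ, hcard] at a2
    nlinarith [hX.1]
  · rcases mem_union.1 hy with hy | hy
    · exact mem_union_left _ (hX.2 z hz y hy)
    · obtain ⟨q, hq, rfl⟩ := mem_image.1 hy
      exact mem_union_right _ (mem_image.2 ⟨(q.1, ⟨z, hz⟩ * q.2),
        mem_product.2 ⟨(mem_product.1 hq).1, mem_univ _⟩, by simp⟩)
  · exact (iSup_le fun Λ => le_iSup_of_le (f := fun Λ : {Λ : Finset Ω // Λ ⊆ _ ∧ 5 ≤ #Λ} => R φ Λ)
      ⟨Λ.1, Λ.2.1.trans subset_union_left, Λ.2.2⟩ le_rfl : B X ≤ B _)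
  · have h5 : B X ≤ Subgroup.centralizer {v} := iSup_le fun Λ t ht => by
      rw [Subgroup.mem_centralizer_singleton_iff]
      refine (Subgroup.mem_centralizer_singleton_iff.1 (v2 _ fun z hz s hs => ?_)).symm
      rw [Subgroup.mem_centralizer_singleton_iff]
      refine hc _ _ (c5 z) Λ.2.2 (disjoint_left.2 fun y hy hy' => ?_) s hs t ht
      obtain ⟨b, hb, rfl⟩ := mem_image.1 hy
      exact disjoint_left.1 h3 hb (by simpa using hX.2 _ (inv_mem hz) _ (Λ.2.1 hy'))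
    exact Subgroup.mem_centralizer_singleton_iff.1 (h5 hy)
  · refine le_iSup_of_le (f := fun Λ : {Λ : Finset Ω // Λ ⊆ _ ∧ 5 ≤ #Λ} => R φ Λ)
      ⟨Δ.image (φ z), fun y hy => ?_, c5 z⟩ le_rfl
    obtain ⟨b, hb, rfl⟩ := mem_image.1 hy
    exact mem_union_right _ (mem_image.2 ⟨(b, ⟨z, hz⟩), mem_product.2 ⟨hb, mem_univ _⟩, rfl⟩)
  · rw [← v3 a ha, ← u3 a ha, ← u3 _ (v3 a ha ▸ Alt.altOn_maps hτ ha),
      ← v3 _ (u3 a ha ▸ Alt.altOn_maps hσ ha), ← Perm.mul_apply, ← Perm.mul_apply, ← map_mul,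
      ← map_mul, e.eq]

/-- Supplements of disjoint sets commute. -/
theorem commuting [Finite H] {Ω2 : Type} {φ : H →* Perm Ω} (hφ : alternatingGroup Ω ≤ φ.range)
    (ψ : H →* Perm Ω2) (hψ : Function.Injective ψ)
    (key : ∀ ω, ∃ Λ : Finset Ω, #Λᶜ ≤ 1 ∧ 5 ≤ #Λ ∧ ∀ y ∈ R φ Λ, ψ y ω = ω) {Δ Δ' : Finset Ω}
    (h5 : 5 ≤ #Δ) (h5' : 5 ≤ #Δ') (hd : Disjoint Δ Δ') {r r' : H} (hr : r ∈ R φ Δ)
    (hr' : r' ∈ R φ Δ') : Commute r r' := by
  have c1 : ⁅r, r'⁆ ∈ R φ Δ' := mul_mem (R_conj hφ h5' (fun y hy => by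
    rwa [(R_le hφ h5 hr).2 y (disjoint_right.1 hd hy)]) hr') (inv_mem hr')
  have c2 : ⁅r, r'⁆ ∈ R φ Δ := by
    have := mul_mem hr (R_conj (h := r') hφ h5 (fun y hy => by
      rwa [(R_le hφ h5' hr').2 y (disjoint_left.1 hd hy)]) (inv_mem hr))
    simpa [commutatorElement_def, mul_assoc] using this
  rw [← commutatorElement_eq_one_iff_commute]
  apply hψ
  rw [map_one]
  ext ω
  obtain ⟨Λ, l1, l2, l3⟩ := key ω
  by_cases h : Δ ⊆ Λ
  · exact l3 _ (R_mono hφ l2 h c2)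
  · refine l3 _ (R_mono hφ l2 (fun y hy => ?_) c1)
    obtain ⟨z, hz, hz'⟩ := not_subset.1 h
    by_contra hy'
    exact disjoint_left.1 hd hz
      (card_le_one.1 l1 z (mem_compl.2 hz') y (mem_compl.2 hy') ▸ hy)

/-- An element which fixes `ω` fixes the point outside `Λ`. -/
theorem fix_pt [Finite H] {Ω2 : Type} {φ : H →* Perm Ω} (hφ : alternatingGroup Ω ≤ φ.range)
    (ψ : H →* Perm Ω2) {ω : Ω2} {Λ Δ : Finset Ω} (l1 : #Λᶜ ≤ 1) (l2 : 5 ≤ #Λ)
    (l3 : ∀ y ∈ R φ Λ, ψ y ω = ω) (h5 : #Δ = 5) {b : Ω} (hb : b ∈ Δ) (hb' : b ∉ Λ) {r : H}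
    (hr : r ∈ R φ Δ) (hm : ψ r ω ≠ ω) {z : H} (hz : ψ z ω = ω) : φ z b = b := by
  by_contra hne
  have hΛ : ∀ y, y ≠ b → y ∈ Λ := fun y hy => by
    by_contra hy'
    exact hy (card_le_one.1 l1 y (mem_compl.2 hy') b (mem_compl.2 hb'))
  obtain ⟨c, hc, hc'⟩ : ∃ c ∈ insert b Λ, c ∉ Δ :=
    exists_mem_notMem_of_card_lt_card (by rw [card_insert_of_notMem hb']; omega)
  have hcΛ : c ∈ Λ := hΛ c fun e => hc' (e ▸ hb)
  have hb1 : (φ z)⁻¹ b ∈ Λ := hΛ _ fun e => hne (Perm.inv_eq_iff_eq.1 e).symm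
  obtain ⟨t, ht, htc⟩ : ∃ t ∈ R φ Λ, φ t c = (φ z)⁻¹ b := by
    by_cases e : c = (φ z)⁻¹ b
    · exact ⟨1, one_mem _, by simpa using e⟩
    · obtain ⟨u, hu, v, hv, huv⟩ := one_lt_card.1
        (show 1 < #(Λ.erase c) by rw [card_erase_of_mem hcΛ]; omega)
      obtain ⟨t, ht, e2⟩ := R_surj hφ l2
        (Alt.swap2_mem hcΛ hb1 (mem_erase.1 hu).2 (mem_erase.1 hv).2 e huv)
      refine ⟨t, ht, ?_⟩
      rw [e2, Perm.mul_apply,
        swap_apply_of_ne_of_ne (mem_erase.1 hu).1.symm (mem_erase.1 hv).1.symm, swap_apply_left]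
  have h1 : φ (z * t) c = b := by simp [htc]
  have h2 : z * t * r * (z * t)⁻¹ ∈ R φ Λ := R_conj hφ l2 (fun y hy => hΛ _ fun e =>
    hc' ((φ (z * t)).injective (e.trans h1.symm) ▸ hy)) hr
  have h3 : ψ (z * t) ω = ω := by rw [map_mul, Perm.mul_apply, l3 t ht, hz]
  have h4 := l3 _ h2
  have h6 : (ψ (z * t))⁻¹ ω = ω := Perm.inv_eq_iff_eq.2 h3.symm
  rw [map_mul, map_mul, map_inv, Perm.mul_apply, Perm.mul_apply, h6] at h4
  exact hm ((ψ (z * t)).injective (h4.trans h3.symm))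

theorem ncard_root [Finite H] (x : H) {k : ℕ} (hk : 0 < k) :
    {z | z ∈ Subgroup.zpowers x ∧ z ^ k = 1}.ncard ≤ k := by
  classical
  have := Fintype.ofFinite (Subgroup.zpowers x)
  have h1 := IsCyclic.card_pow_eq_one_le (α := Subgroup.zpowers x) hk
  have h2 : {z | z ∈ Subgroup.zpowers x ∧ z ^ k = 1} =
      (({a : Subgroup.zpowers x | a ^ k = 1} : Finset _).image Subtype.val : Finset H) := by
    ext z
    simp only [Set.mem_ofPred_eq, coe_image, coe_filter, mem_univ, true_and, Set.mem_image,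
      Subtype.exists, exists_and_right, exists_eq_right]
    constructor
    · rintro ⟨h3, h4⟩
      exact ⟨h3, Subtype.ext h4⟩
    · rintro ⟨h3, h4⟩
      exact ⟨h3, congrArg Subtype.val h4⟩
  rw [h2, Set.ncard_coe_finset]
  exact card_image_le.trans h1

omit [Fintype Ω] [DecidableEq Ω] in
theorem pow_eq_one [Finite H] (φ : H →* Perm Ω) (x : H) {a : Ω} {k : ℕ}
    (hk : {z | z ∈ Subgroup.zpowers x ∧ φ z a = a}.ncard = k) :
    0 < k ∧ ∀ z ∈ Subgroup.zpowers x, φ z a = a → z ^ k = 1 := by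
  let A : Subgroup H := Subgroup.zpowers x ⊓ (MulAction.stabilizer (Perm Ω) a).comap φ
  have h1 : Nat.card A = k := hk
  refine ⟨h1 ▸ Nat.card_pos, fun z hz e => ?_⟩
  have h2 := pow_card_eq_one' (x := (⟨z, hz, e⟩ : A))
  rw [h1] at h2
  exact congrArg Subtype.val h2

end Key

open Key

theorem keyStmt (hK : KerStmt) (hB : BigAltStmt) : KeyStmt := by
  intro F _ _
  obtain ⟨k, hk⟩ := hK (Fintype.card F)
  obtain ⟨n, hn⟩ := hB k
  refine ⟨Alt.bd (Fintype.card F) + n + 6, ?_⟩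
  intro H Ω Ω2 _ _ _ _ φ ψ j a e hφ hs he hea hdeg hst ω
  classical
  let S := (MulAction.stabilizer (Perm Ω2) ω).comap ψ
  have hS : ∀ y, y ∈ S ↔ ψ y ω = ω := fun y => Iff.rfl
  have h1 : ∀ h f, ψ (j f) (ψ h ω) = ψ h ω → h⁻¹ * j f * h ∈ S := fun h f hf => by
    simp [hS, hf]
  obtain ⟨Λ, l1, l2, l3⟩ := Alt.giant (φ.comp j) (S.map φ) a e he hea
    (fun f hf => le_trans (by omega) (hdeg f hf)) fun g hg => by
      obtain ⟨h, rfl⟩ := hφ (x := g) hg
      rcases hst (ψ h⁻¹ ω) with ⟨f, f1, f2⟩ | f1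
      · exact Or.inl ⟨f, ⟨_, h1 _ f f1, by simp⟩, f2⟩
      · exact Or.inr ⟨_, h1 _ e f1, by simp⟩
  have h2 : ∀ f, f ≠ 1 → n + 5 ≤ #((φ (j f)).support ∩ Λ) := by
    intro f hf
    have a1 := card_inter_add_card_sdiff (φ (j f)).support Λ
    have a2 : #((φ (j f)).support \ Λ) ≤ #Λᶜ :=
      card_le_card fun y hy => mem_compl.2 (mem_sdiff.1 hy).2
    have := hdeg f hf
    omega
  have h3 : 5 ≤ #Λ := by
    have a1 := (h2 e he).trans (card_le_card inter_subset_right)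
    omega
  have h5 : 5 ≤ #(univ : Finset Ω) := h3.trans (card_le_univ _)
  refine ⟨Λ, l1, h3, ?_⟩
  obtain ⟨g, hg, hD⟩ := Dn.of_cover (P := R φ Λ) (T := S) (c := Fintype.card F)
    ((univ.erase 1).image j) (card_image_le.trans (card_erase_le.trans le_rfl)) fun m _ => by
      rcases hst (ψ m ω) with ⟨f, f1, f2⟩ | f1
      · exact ⟨_, mem_image_of_mem _ (mem_erase.2 ⟨fun h => f2 (by simp [h]), mem_univ _⟩),
          h1 _ f f1⟩
      · exact ⟨_, mem_image_of_mem _ (mem_erase.2 ⟨he, mem_univ _⟩), h1 _ e f1⟩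
  obtain ⟨f, hf, rfl⟩ := mem_image.1 hg
  have hf1 : f ≠ 1 := (mem_erase.1 hf).1
  have hRs : R φ Λ ≤ setStab φ Λ := fun r hr y hy => Alt.altOn_maps (R_le hφ h3 hr) hy
  have hSs : S ≤ setStab φ Λ := fun s hs y hy => l3 _ ⟨s, hs, rfl⟩ y hy
  obtain ⟨m, hm, hm', -⟩ := hD.sub le_rfl
  have hj : j f ∈ setStab φ Λ := by
    have := mul_mem (mul_mem (hRs hm) (hSs hm')) (inv_mem (hRs hm))
    simpa [mul_assoc] using this
  have hι : Function.Injective (setStab φ Λ).subtype := Subtype.val_injective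
  have hR : R φ Λ ≤ (setStab φ Λ).subtype.range := by rwa [Subgroup.range_subtype]
  have h6 := hk (setStab φ Λ) (Perm Ω) (φ.comp (setStab φ Λ).subtype)
    ((R φ Λ).comap (setStab φ Λ).subtype) (S.comap (setStab φ Λ).subtype) ⟨j f, hj⟩
    (hd_R_co hφ h3 l1 _ hι hR fun t => t.2)
    (Sch.ker_comap (hs.mono (inf_le_inf_left _ (R_mono hφ h5 (subset_univ _))) fun x hx y hy =>
      ⟨φ.normal_ker.conj_mem y hy.1 x, R_conj hφ h3 (fun a ha => by
        rwa [show φ x = 1 from hx.1]) hy.2⟩) _ hι hR)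
    (Big.comap _ hR ((hn H Ω (R φ Λ)).1 φ (j f) Λ (R_map hφ h3).ge
      (le_trans (by omega) (h2 f hf1))))
    (by
      rintro _ ⟨r, hr, rfl⟩
      obtain ⟨s, hs, e⟩ := l2 (R_le hφ h3 (show (r : H) ∈ R φ Λ from hr))
      exact ⟨⟨s, hSs hs⟩, hs, e⟩)
    (Dn.comap _ hι hR hD)
  exact fun y hy => h6 (x := ⟨y, hRs hy⟩) hy

theorem chainStmt : ChainStmt := by
  intro H Ω Ω2 _ _ _ _ _ φ ψ x d k N hφ hψ key hN hd
  classical
  have := Fintype.ofFinite Ω2
  have hc := fun Δ Δ' h5 h5' hd r hr r' hr' =>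
    commuting hφ ψ hψ key (Δ := Δ) (Δ' := Δ') h5 h5' hd (r := r) (r' := r') hr hr'
  choose Λ l1 l2 l3 using key
  let E : Finset Ω2 := {ω | {z | z ∈ Subgroup.zpowers x ∧ ψ z ω = ω}.ncard < k}
  let G : Finset Ω := {a | {z | z ∈ Subgroup.zpowers x ∧ φ z a = a}.ncard = k}
  have hE : #E ≤ N := by
    rw [← Set.ncard_coe_finset]
    simpa [E] using hN
  have hG : 5 * orderOf x * (d + 1) + N ≤ #G := by
    rw [← Set.ncard_coe_finset]
    simpa [G] using hd
  have hBad : #(E.biUnion fun ω => (Λ ω)ᶜ) ≤ N := by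
    refine (card_biUnion_le_card_mul E _ 1 fun ω _ => l1 ω).trans ?_
    omega
  refine chain_gen hφ hc x d (G \ E.biUnion fun ω => (Λ ω)ᶜ) ?_ ?_
  · intro Δ hΔ h5 a ha z hz hza r hr
    apply hψ
    rw [map_mul, map_mul]
    refine Perm.Disjoint.commute fun ω => ?_
    by_cases hm : ψ r ω = ω
    · exact Or.inr hm
    left
    obtain ⟨b, hb, hb'⟩ : ∃ b ∈ Δ, b ∉ Λ ω :=
      not_subset.1 fun h => hm (l3 ω r (R_mono hφ (l2 ω) h hr))
    have hω : k ≤ {z | z ∈ Subgroup.zpowers x ∧ ψ z ω = ω}.ncard := by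
      by_contra hlt
      exact (mem_sdiff.1 (hΔ hb)).2 (mem_biUnion.2
        ⟨ω, mem_filter.2 ⟨mem_univ _, not_le.1 hlt⟩, mem_compl.2 hb'⟩)
    obtain ⟨k0, ka⟩ := Key.pow_eq_one φ x (mem_filter.1 (mem_sdiff.1 (hΔ ha)).1).2
    obtain ⟨-, kb⟩ := Key.pow_eq_one φ x (mem_filter.1 (mem_sdiff.1 (hΔ hb)).1).2
    have h1 : {z | z ∈ Subgroup.zpowers x ∧ ψ z ω = ω} =
        {z | z ∈ Subgroup.zpowers x ∧ z ^ k = 1} :=
      Set.eq_of_subset_of_ncard_le
        (fun y hy => ⟨hy.1, kb y hy.1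
          (fix_pt hφ ψ (l1 ω) (l2 ω) (l3 ω) h5 hb hb' hr hm hy.2)⟩)
        ((ncard_root x k0).trans hω)
    have h2 : z ∈ {z | z ∈ Subgroup.zpowers x ∧ ψ z ω = ω} := by
      rw [h1]
      exact ⟨hz, ka z hz hza⟩
    exact h2.2
  · have := le_card_sdiff (E.biUnion fun ω => (Λ ω)ᶜ) G
    omega

end Pool.Agent.Lib.MP_679d9b_al.KG
end
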