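import Mathlib
import Pool.Agent.Lib.MP_679d9b_al.KG.Ty

-- part Pool.Agent.Lib.MP_679d9b_al.KG.Lin
section

/-!
Bounded degree, and the three kinds of forms.
-/

set_option autoImplicit false

namespace Pool.Agent.Lib.MP_679d9b_al.KG

open Subgroup Matrix Filter

namespace Lin

variable {G K : Type} [Group G] [Field K]

theorem of_mat {n : ℕ} (ρ : G →* Matrix (Fin n) (Fin n) K) (h : Function.Injective ρ) :
    LinN n G :=
  ⟨K, inferInstance, n, ρ.toHomUnits, le_rfl, fun _ _ e => h (congrArg Units.val e)⟩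

theorem of_end {V : Type} [AddCommGroup V] [Module K V] [FiniteDimensional K V]
    (ρ : G →* Module.End K V) (h : Function.Injective ρ) : LinN (Module.finrank K V) G :=
  of_mat ((LinearMap.toMatrixAlgEquiv (Module.finBasis K V)).toMonoidHom.comp ρ)
    ((LinearMap.toMatrixAlgEquiv (Module.finBasis K V)).injective.comp h)

theorem pad {N : ℕ} (h : LinN N G) : ∃ (K : Type) (_ : Field K)
    (ρ : G →* Matrix (Fin N) (Fin N) K), Function.Injective ρ := by
  obtain ⟨K, _, n, ρ, h1, h2⟩ := h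
  obtain ⟨m, rfl⟩ := Nat.exists_eq_add_of_le h1
  let P : Matrix (Fin n) (Fin n) K →* Matrix (Fin n ⊕ Fin m) (Fin n ⊕ Fin m) K :=
    { toFun := fun A => fromBlocks A 0 0 1
      map_one' := by simp
      map_mul' := fun A B => by simp [fromBlocks_multiply] }
  exact ⟨K, inferInstance, (reindexAlgEquiv K K finSumFinEquiv).toMonoidHom.comp
    (P.comp ((Units.coeHom _).comp ρ)), (reindexAlgEquiv K K finSumFinEquiv).injective.comp
      fun a b e => h2 (Units.ext (fromBlocks_inj.1 e).1)⟩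

theorem glue (N : ℕ) (hlf : Alt.LF G) (h : ∀ F : Subgroup G, Finite F → LinN N F) : LinN N G := by
  classical
  choose K iK ρ hρ using fun i : Finset G => pad (h (closure (i : Set G)) (hlf i))
  let U : Ultrafilter (Finset G) := Ultrafilter.of atTop
  have hU : ∀ g : G, ∀ᶠ i in U, g ∈ closure ((i : Finset G) : Set G) := fun g =>
    (Ultrafilter.of_le atTop) ((eventually_ge_atTop ({g} : Finset G)).mono fun i hi =>
      subset_closure (hi (Finset.mem_singleton_self g)))
  let Φ : (∀ i, Matrix (Fin N) (Fin N) (K i)) →+* Matrix (Fin N) (Fin N) (PT.UF U K) :=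
    (PT.mkF U K).mapMatrix.comp (piRingEquiv (β := K) (n := Fin N)).symm.toRingHom
  have hΦ : ∀ a b, Φ a = Φ b ↔ ∀ᶠ i in U, a i = b i := fun a b => by
    rw [← sub_eq_zero, ← map_sub, ← Matrix.ext_iff]
    simp only [← Matrix.ext_iff, eventually_all]
    refine forall_congr' fun x => forall_congr' fun y => PT.mkF_eq_zero.trans ?_
    exact eventually_congr (Eventually.of_forall fun i => sub_eq_zero)
  let r : G → ∀ i, Matrix (Fin N) (Fin N) (K i) := fun g i =>
    if h : g ∈ closure ((i : Finset G) : Set G) then ρ i ⟨g, h⟩ else 1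
  have hr : ∀ g i h, r g i = ρ i ⟨g, h⟩ := fun g i h => dif_pos h
  refine of_mat
    { toFun := fun g => Φ (r g)
      map_one' := (congrArg Φ (funext fun i => (hr 1 i (one_mem _)).trans (map_one _))).trans
        (map_one Φ)
      map_mul' := fun a b => ((hΦ _ _).2 ?_).trans (map_mul Φ _ _) } fun a b e => ?_
  · filter_upwards [hU a, hU b] with i h1 h2
    rw [Pi.mul_apply, hr a i h1, hr b i h2, hr _ i (mul_mem h1 h2), ← map_mul]
    rfl
  · obtain ⟨i, e1, h1, h2⟩ := (((hΦ _ _).1 e).and ((hU a).and (hU b))).exists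
    rw [hr a i h1, hr b i h2] at e1
    exact congrArg Subtype.val (hρ i e1)

theorem lin_of {N : ℕ} (h : LinN N G) : KG.Lin G :=
  let ⟨K, a, n, ρ, _, b⟩ := h
  ⟨K, a, n, ρ, b⟩

end Lin

open Lin in
theorem linStmt : LinStmt := by
  refine ⟨fun G _ N h1 h2 => lin_of (glue N h1 h2), fun G _ _ =>
    lin_of (of_end (Representation.ofMulAction ℚ G G) fun a b e => ?_), fun G _ L => ?_⟩
  · simpa [MonoidAlgebra.single_left_inj] using congrArg
      (fun T : Module.End ℚ (MonoidAlgebra ℚ G) => T (MonoidAlgebra.single 1 1)) e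
  · let ρ : (L.V ≃ₗ[L.K] L.V) →* Module.End L.K L.V :=
      LinearEquiv.automorphismGroup.toLinearMapMonoidHom
    let τ : (L.V ≃ₗ[L.K] L.V) →* Module.End L.K (Module.End L.K L.V) :=
      { toFun := fun y => LinearMap.mulLeftRight L.K (ρ y, ρ y⁻¹)
        map_one' := by ext1; simp
        map_mul' := fun a b => by ext1; simp [mul_assoc] }
    have hτ : ∀ y, τ y = 1 ↔ Scal y := fun y => by
      have h1 : τ y = 1 ↔ ρ y ∈ Set.center (Module.End L.K L.V) := by
        rw [Semigroup.mem_center_iff, LinearMap.ext_iff]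
        refine forall_congr' fun T => ?_
        change ρ y * T * ρ y⁻¹ = T ↔ _
        refine ⟨fun e => ?_, fun e => ?_⟩
        · nth_rewrite 1 [← e]
          rw [mul_assoc, ← map_mul, inv_mul_cancel, map_one, mul_one]
        · rw [← e, mul_assoc, ← map_mul, mul_inv_cancel, map_one, mul_one]
      rw [h1, Module.End.mem_center_iff]
      exact ⟨fun ⟨c, _, e⟩ => ⟨c, fun v => congrArg (fun T : Module.End L.K L.V => T v) e⟩,
        fun ⟨c, e⟩ => ⟨c, Semigroup.mem_center_iff.2 fun b => mul_comm b c, LinearMap.ext e⟩⟩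
    obtain ⟨T, hT⟩ := exists_lift L.πs (τ.toHomUnits.comp (Subgroup.subtype _))
      fun y e => Units.ext ((hτ _).2 ((L.πk y).1 e))
    rw [← Module.finrank_linearMap]
    refine of_end ((Units.coeHom _).comp T) ((injective_iff_map_eq_one _).2 fun x e => ?_)
    obtain ⟨y, rfl⟩ := L.πs x
    exact (L.πk y).2 ((hτ _).1 ((congrArg Units.val (hT y)).symm.trans e))

theorem convStmt : ConvStmt := by
  intro K V _ _ _ I
  refine ⟨fun B h1 h2 h3 => Or.inr ⟨?_, ?_⟩, fun σ B h0 h1 h2 h3 h4 => Or.inr ⟨?_, ?_⟩,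
    fun Q h1 h2 => Or.inr ⟨?_, ?_⟩⟩
  · exact
      { σ := RingHom.id K, ε := -1, B := B, q := 0, τ := 0, σσ := fun _ => rfl, εε := Or.inr rfl
        refl := fun x y => by simpa using (h1.neg_eq x y).symm
        nd := h2.1, qadd := by simp, qsmul := by simp, sing := fun x _ => h1 x
        lift := fun _ _ _ _ => ⟨0, rfl⟩ }
  · exact Subgroup.ext fun g => (h3 g).trans ⟨fun h => ⟨h, fun _ => rfl⟩, fun h => h.1⟩
  · exact
      { σ := σ, ε := 1, B := B, q := fun x => B x x
        τ := AddMonoidHom.id K + σ.toAddMonoidHom, σσ := h1, εε := Or.inl rfl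
        refl := fun x y => by rw [one_mul, h2]
        nd := h3
        qadd := fun x y => by
          simp only [map_add, LinearMap.add_apply, h2 x y]
          simp
          ring
        qsmul := fun c x => by simp [mul_assoc, mul_left_comm]
        sing := fun _ h => h
        lift := fun u y a1 a2 => by
          obtain ⟨a, ha⟩ : ∃ a, a + σ a ≠ 0 := by
            by_contra h
            push Not at h
            refine h0 (RingHom.ext fun a => ?_)
            have e1 := h 1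
            have e2 := h a
            rw [map_one] at e1
            change σ a = a
            linear_combination e2 - a * e1
          have a3 : B y u = 1 := by rw [h2, a2, map_one]
          have a4 : σ (B y y) = B y y := (h2 y y).symm
          have a5 : σ (a + σ a) = a + σ a := by rw [map_add, h1, add_comm]
          refine ⟨B y y * a / (a + σ a), ?_⟩
          simp only [map_sub, LinearMap.sub_apply, map_smul, LinearMap.map_smulₛₗ,
            LinearMap.smul_apply, a1, a2, a3, smul_eq_mul, map_div₀, map_mul, a4, a5]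
          field_simp
          ring }
  · exact Subgroup.ext fun g => (h4 g).trans ⟨fun h => ⟨h, fun x => h x x⟩, fun h => h.1⟩
  · exact
      { σ := RingHom.id K, ε := 1, B := Q.polarBilin, q := Q, τ := AddMonoidHom.id K
        σσ := fun _ => rfl, εε := Or.inl rfl
        refl := fun x y => by simp [QuadraticMap.polar_comm]
        nd := h1
        qadd := fun x y => by simp [QuadraticMap.polar]
        qsmul := fun c x => by simp [QuadraticMap.map_smul]
        sing := fun x h => by simp [h]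
        lift := fun u y a1 a2 => ⟨Q y, by
          have a3 : QuadraticMap.polar Q y u = 1 := (QuadraticMap.polar_comm _ _ _).trans a2
          rw [sub_eq_add_neg, ← neg_smul, QuadraticMap.map_add Q, QuadraticMap.map_smul, a1,
            QuadraticMap.polar_smul_right, a3]
          simp⟩ }
  · exact Subgroup.ext fun g => (h2 g).trans ⟨fun h => ⟨fun x y => by
      simp [QuadraticMap.polar, ← map_add, h], h⟩, fun h => h.2⟩

end Pool.Agent.Lib.MP_679d9b_al.KG
end

-- part Pool.Agent.Lib.MP_679d9b_al.KG.Loc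
section

/-!
A free orbit at a later level.
-/

set_option autoImplicit false

namespace Pool.Agent.Lib.MP_679d9b_al.KG

open Subgroup Matrix
open scoped commutatorElement
open PT (SL PSL PEl)

namespace Loc

/-- An irreducible section on which `a` is not unipotent. -/
theorem exists_sec {H K ι : Type} [Group H] [Field K] (a : H) (t : ι → H) (n : ℕ) :
    ∀ (V : Type) [AddCommGroup V] [Module K V] [FiniteDimensional K V]
      (ω : H →* Module.End K V), Module.finrank K V = n → ¬ IsNilpotent (ω a - 1) →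
    ∃ (V' : Type) (_ : AddCommGroup V') (_ : Module K V') (ω' : H →* Module.End K V'),
      ¬ IsNilpotent (ω' a - 1) ∧ Irr ω' ∧ ∀ v', (LinearIndependent K fun i => ω' (t i) v') →
        ∃ v, LinearIndependent K fun i => ω (t i) v := by
  induction n using Nat.strong_induction_on with
  | _ n ih =>
  intro V _ _ _ ω hn h
  by_cases hs : Irr ω
  · exact ⟨V, inferInstance, inferInstance, ω, h, hs, fun v hv => ⟨v, hv⟩⟩
  simp only [Irr, not_forall, not_or] at hs
  obtain ⟨U, hU, h0, h1⟩ := hs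
  let ω₁ : H →* Module.End K U := Representation.subrepresentation ω U fun g v hv => hU g v hv
  let ω₂ : H →* Module.End K (V ⧸ U) := Representation.quotient ω U fun g v hv => hU g v hv
  have hd := U.finrank_quotient_add_finrank
  by_cases c1 : IsNilpotent (ω₁ a - 1)
  · by_cases c2 : IsNilpotent (ω₂ a - 1)
    · exact (h (PT.Coef.nil_of_parts (fun _ => rfl) (fun _ => rfl) c1 c2)).elim
    · have : 0 < Module.finrank K U :=
        Nat.pos_of_ne_zero fun e => h0 (Submodule.finrank_eq_zero.1 e)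
      obtain ⟨V', i1, i2, ω', r1, r2, r3⟩ := ih _ (by omega) (V ⧸ U) ω₂ rfl c2
      refine ⟨V', i1, i2, ω', r1, r2, fun v' hv => ?_⟩
      obtain ⟨w, hw⟩ := r3 v' hv
      obtain ⟨v, rfl⟩ := U.mkQ_surjective w
      exact ⟨v, LinearIndependent.of_comp U.mkQ hw⟩
  · have := Submodule.finrank_lt h1
    obtain ⟨V', i1, i2, ω', r1, r2, r3⟩ := ih _ (by omega) U ω₁ rfl c1
    refine ⟨V', i1, i2, ω', r1, r2, fun v' hv => ?_⟩
    obtain ⟨w, hw⟩ := r3 v' hv
    exact ⟨w, hw.map' U.subtype U.ker_subtype⟩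

end Loc

theorem locStmt (h1 : RegStmt) (h2 : BigPslStmt) (h3 : PmcStmt) : LocStmt := by
  intro c
  obtain ⟨k, c0, h1⟩ := h1 c
  obtain ⟨N1, h2⟩ := h2 k
  obtain ⟨N2, h3⟩ := h3 c0
  refine ⟨max N1 N2, fun G _ P1 P2 F _ l _ _ hF hc d1 d2 hl => ?_⟩
  classical
  let ψ : P1.H →* PSL (Fin P2.n) P2.K := P2.φ.comp (inclusion d2.1)
  let Hh : Subgroup (P1.H × SL (Fin P2.n) P2.K) := (ψ.comp (MonoidHom.fst _ _)).eqLocus
    ((QuotientGroup.mk' _).comp (MonoidHom.snd _ _))
  let κ : Hh →* P1.H := (MonoidHom.fst _ _).comp Hh.subtype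
  let ρ : Hh →* Module.End P2.K (Fin P2.n → P2.K) :=
    { toFun := fun y => Matrix.toLin' y.1.2.1
      map_one' := Matrix.toLin'_one
      map_mul' := fun a b => Matrix.toLin'_mul _ _ }
  have hκ : Function.Surjective κ := fun h => by
    obtain ⟨A, hA⟩ := QuotientGroup.mk'_surjective _ (ψ h)
    exact ⟨⟨(h, A), hA.symm⟩, rfl⟩
  have hz : κ.ker ≤ center Hh := fun z hz => mem_center_iff.2 fun y => by
    have e1 : z.1.1 = 1 := hz
    have e2 : z.1.2 ∈ center (SL (Fin P2.n) P2.K) :=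
      (QuotientGroup.eq_one_iff _).1 (z.2.symm.trans (by simp [e1]))
    exact Subtype.ext (Prod.ext (by simp [e1]) (mem_center_iff.1 e2 _))
  have hρ : Function.Injective ρ := (injective_iff_map_eq_one ρ).2 fun y hy => by
    have e1 : y.1.2 = 1 := Subtype.ext (Matrix.toLin'.injective (hy.trans Matrix.toLin'_one.symm))
    refine Subtype.ext (Prod.ext (by_contra fun e => ?_) e1)
    have := d2.2 (inclusion d2.1 y.1.1) y.1.1.2 (fun e' => e (inclusion_injective d2.1
      (e'.trans (map_one _).symm))) y.1.2 1 y.2.symm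
    simp [e1] at this
  obtain ⟨Rh, r1, r2⟩ := P1.hd.lift κ hκ
  have r3 : Rh.map (P1.φ.comp κ) = ⊤ := by rw [← Subgroup.map_map, r2, P1.surj]
  have r4 : Sch ((P1.φ.comp κ).ker ⊓ Rh) := by
    have := r1.nrm
    refine Sch.of_map κ (P1.sch.nrm ?_ (Normal.map inferInstance κ hκ)) (Group.isSolvable_of_comm fun a b =>
      Subtype.ext (mem_center_iff.1 (hz b.2.2) a))
    rintro _ ⟨y, hy, rfl⟩
    exact ⟨hy.1, r2 ▸ mem_map_of_mem κ hy.2⟩
  obtain ⟨y, hy, hn⟩ : ∃ y ∈ (⁅(P1.φ.comp κ).ker, Rh⁆ : Subgroup Hh), ¬ IsNilpotent (ρ y - 1) := by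
    by_contra h4
    push Not at h4
    have h5 : IsPGroup l (⁅(P1.φ.comp κ).ker, Rh⁆ : Subgroup Hh) := fun y =>
      (PT.pel_of_nil (p := l) (by rw [← map_natCast (algebraMap P2.K _), CharP.cast_eq_zero,
        map_zero]) (h4 y y.2)).imp fun j hj => Subtype.ext (hρ (by simpa using hj))
    have h6 := h5.map κ
    rw [map_commutator, r2, ← MonoidHom.comap_ker, map_comap_eq_self_of_surjective hκ] at h6
    exact hl h6
  choose t ht using fun f : F => hκ (inclusion d1.1 f)
  obtain ⟨V', _, _, ρ', s1, s2, s3⟩ := Loc.exists_sec y t _ _ ρ rfl hn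
  have := Fintype.ofFinite F
  obtain ⟨v', hv'⟩ := h1 l Hh _ P2.K V' F (P1.φ.comp κ) Rh ρ'
    ((Finset.univ.filter fun f : F => f ≠ 1).image t) t r1 r4 s2
    ⟨y, hy, fun e => s1 (by simp [e])⟩
    (Finset.card_image_le.trans ((Finset.card_filter_le _ _).trans
      (by rwa [Finset.card_univ, Fintype.card_eq_nat_card])))
    (by
      obtain ⟨f, hf⟩ := (nontrivial_iff_exists_ne (1 : F)).1 ((nontrivial_iff_ne_bot F).2 hF)
      exact ⟨t f, Finset.mem_image_of_mem t (by simpa using hf)⟩)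
    (fun g hg => by
      obtain ⟨f, hf, rfl⟩ := Finset.mem_image.1 hg
      obtain ⟨A, hA⟩ := QuotientGroup.mk_surjective (P1.φ (κ (t f)))
      have h4 := fun s => d1.2 (inclusion d1.1 f) f.2 (fun e => (Finset.mem_filter.1 hf).2
        (inclusion_injective d1.1 (e.trans (map_one _).symm))) A s (ht f ▸ hA)
      refine ⟨h2 _ _ _ _ Rh _ A r3 hA fun s => (le_max_left _ _).trans_lt (h4 s), ?_⟩
      rw [r3, MonoidHom.comp_apply, ← hA]
      exact h3 _ _ A fun s => (le_max_right _ _).trans_lt (h4 s))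
    (fun i i' e => ⟨t (i⁻¹ * i'), Finset.mem_image_of_mem t (by simpa [inv_mul_eq_one] using e),
      (t (i⁻¹ * i'))⁻¹ * ((t i)⁻¹ * t i'), hz (by simp [ht]), by simp⟩)
  obtain ⟨v, hv⟩ := s3 v' hv'.1
  refine ⟨fun f => (t f).1.2, v, fun f h => (t f).2.symm.trans ?_, hv⟩
  exact congrArg ψ (ht f)

end Pool.Agent.Lib.MP_679d9b_al.KG
end

-- part Pool.Agent.Lib.MP_679d9b_al.KG.Ml
section

/-!
The main finite lemma for a free action.
-/

set_option autoImplicit false

namespace Pool.Agent.Lib.MP_679d9b_al.KG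

open Subgroup
open scoped commutatorElement

namespace Ml

variable {H F : Type} [Group H] [Group F]

/-- The norm of an element with commuting conjugates. -/
theorem norm_lemma [Finite F] (j : F →* H) (a : H) (B : Subgroup H)
    (hc : ∀ f f', f ≠ f' → Commute (j f * a * (j f)⁻¹) (j f' * a * (j f')⁻¹))
    (hB : ∀ f, f ≠ 1 → j f * a * (j f)⁻¹ ∈ B) (ha : a ∉ B) (F' : Subgroup F) (g : F)
    (hg : g ∉ F') : ∃ c : H, (∀ f ∈ F', Commute (j f) c) ∧ ¬ Commute (j g) c := by
  have : Finite (F'.map j) := Finite.of_surjective _ (j.subgroupMap_surjective F')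
  have := Fintype.ofFinite (F'.map j)
  obtain ⟨c, c1, c2, c3⟩ := Alt.exists_nm (F'.map j) a (by
    rintro ⟨_, f, hf, rfl⟩ ⟨_, f', hf', rfl⟩ hne
    exact hc f f' fun e => hne (by subst e; rfl))
  refine ⟨c, fun f hf => c1 _ ⟨f, hf, rfl⟩, fun h => ha ?_⟩
  have h1 : c ∈ B.comap (MulAut.conj (j g)).toMonoidHom := c2 _ (by
    rintro _ ⟨f, hf, rfl⟩
    have := hB (g * f) fun e => hg (by rw [eq_inv_of_mul_eq_one_left e]; exact F'.inv_mem hf)
    simpa [mul_assoc] using this)
  have h2 : c ∈ B := by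
    have e : j g * c * (j g)⁻¹ = c := by rw [h.eq, mul_inv_cancel_right]
    rw [← e]
    exact h1
  have h3 : a⁻¹ * c ∈ B := c3 B (by
    rintro _ ⟨f, -, rfl⟩ hne
    exact hB f fun e => hne (by rw [e, map_one]))
  simpa using B.mul_mem h2 (B.inv_mem h3)

/-- A nonabelian subgroup with commuting conjugates. -/
theorem sub_lemma [Finite F] (j : F →* H) (L : Subgroup H) (hL : Qs L)
    (hc : ∀ f f', f ≠ f' → ∀ x ∈ L, ∀ y ∈ L, Commute (j f * x * (j f)⁻¹) (j f' * y * (j f')⁻¹))
    (F' : Subgroup F) (g : F) (hg : g ∉ F') :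
    ∃ c : H, (∀ f ∈ F', Commute (j f) c) ∧ ¬ Commute (j g) c := by
  obtain ⟨a, ha, b, hb, hab⟩ := hL.noncomm
  refine norm_lemma j a (centralizer {b}) (fun f f' h => hc f f' h a ha a ha) (fun f hf => ?_)
    (fun h => hab (mem_centralizer_singleton_iff.1 h)) F' g hg
  have := hc f 1 hf a ha b hb
  rw [map_one, one_mul, inv_one, mul_one] at this
  exact mem_centralizer_singleton_iff.2 this

section Nil

variable {K W : Type} [Field K] [AddCommGroup W] [Module K W] {A : Subgroup H} {π : H → W}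

theorem pi_one (h : ∀ a ∈ A, ∀ b ∈ A, π (a * b) = π a + π b) : π 1 = 0 := by
  simpa using h 1 A.one_mem 1 A.one_mem

theorem pi_inv (h : ∀ a ∈ A, ∀ b ∈ A, π (a * b) = π a + π b) {a : H} (ha : a ∈ A) :
    π a⁻¹ = -π a := by
  have := h a ha a⁻¹ (A.inv_mem ha)
  rw [mul_inv_cancel, pi_one h] at this
  exact (neg_eq_of_add_eq_zero_right this.symm).symm

/-- The preimage of a subspace. -/
def pre (h : ∀ a ∈ A, ∀ b ∈ A, π (a * b) = π a + π b) (U : Submodule K W) : Subgroup H where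
  carrier := {a | a ∈ A ∧ π a ∈ U}
  one_mem' := ⟨A.one_mem, by rw [pi_one h]; exact U.zero_mem⟩
  mul_mem' := fun {a b} ha hb => ⟨A.mul_mem ha.1 hb.1, by
    rw [h a ha.1 b hb.1]; exact U.add_mem ha.2 hb.2⟩
  inv_mem' := fun {a} ha => ⟨A.inv_mem ha.1, by rw [pi_inv h ha.1]; exact U.neg_mem ha.2⟩

/-- The commutator form. -/
theorem exists_form {R : Subgroup H} (hAR : A ≤ R) (hA : ⁅A, A⁆ ≤ centralizer (R : Set H))
    (hs : ∀ w, ∃ a ∈ A, π a = w) (h : ∀ a ∈ A, ∀ b ∈ A, π (a * b) = π a + π b)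
    (h0 : ∀ a ∈ A, π a = 0 → a ∈ centralizer (R : Set H)) :
    ∃ (Q : Type) (_ : AddCommGroup Q) (b : W →+ W →+ Q) (e : Q → H), e 0 = 1 ∧
      Function.Injective e ∧ ∀ x ∈ A, ∀ y ∈ A, e (b (π x) (π y)) = ⁅x, y⁆ := by
  choose s s1 s2 using hs
  let B : Subgroup H := R ⊓ centralizer (R : Set H)
  let _ : CommGroup B := { (inferInstance : Group B) with
    mul_comm := fun x y => Subtype.ext (y.2.2 x x.2.1) }
  have hc : ∀ x ∈ A, ∀ y ∈ A, ⁅x, y⁆ ∈ B := fun x hx y hy =>
    ⟨R.mul_mem (R.mul_mem (R.mul_mem (hAR hx) (hAR hy)) (R.inv_mem (hAR hx))) (R.inv_mem (hAR hy)),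
      hA (commutator_mem_commutator hx hy)⟩
  have hz : ∀ x ∈ A, ∃ z, (∀ r ∈ R, r * z = z * r) ∧ s (π x) = x * z := by
    intro x hx
    refine ⟨x⁻¹ * s (π x), h0 _ (A.mul_mem (A.inv_mem hx) (s1 _)) ?_, by group⟩
    rw [h _ (A.inv_mem hx) _ (s1 _), s2, pi_inv h hx, neg_add_cancel]
  have hl : ∀ x ∈ A, ∀ y ∈ A, ⁅s (π x), y⁆ = ⁅x, y⁆ := by
    intro x hx y hy
    obtain ⟨z, e1, e2⟩ := hz x hx
    have e3 : z * y * z⁻¹ = y := by rw [← e1 y (hAR hy), mul_inv_cancel_right]
    rw [e2]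
    calc ⁅x * z, y⁆ = x * (z * y * z⁻¹) * x⁻¹ * y⁻¹ := by group
      _ = ⁅x, y⁆ := by rw [e3]; group
  have hr : ∀ x ∈ A, ∀ y ∈ A, ⁅x, s (π y)⁆ = ⁅x, y⁆ := by
    intro x hx y hy
    rw [← commutatorElement_inv, hl y hy x hx, commutatorElement_inv]
  have ml : ∀ x ∈ A, ∀ x' ∈ A, ∀ y ∈ A, ⁅x * x', y⁆ = ⁅x, y⁆ * ⁅x', y⁆ := by
    intro x hx x' hx' y hy
    have e1 := (hc x' hx' y hy).2 x (hAR hx)
    have e2 := (hc x' hx' y hy).2 _ (hc x hx y hy).1
    calc ⁅x * x', y⁆ = (x * ⁅x', y⁆) * x⁻¹ * ⁅x, y⁆ := by group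
      _ = ⁅x', y⁆ * ⁅x, y⁆ := by rw [e1]; group
      _ = _ := e2.symm
  have mr : ∀ x ∈ A, ∀ y ∈ A, ∀ y' ∈ A, ⁅x, y * y'⁆ = ⁅x, y⁆ * ⁅x, y'⁆ := by
    intro x hx y hy y' hy'
    have e1 := (hc x hx y' hy').2 y (hAR hy)
    calc ⁅x, y * y'⁆ = ⁅x, y⁆ * ((y * ⁅x, y'⁆) * y⁻¹) := by group
      _ = _ := by rw [e1]; group
  have sa : ∀ u u', u + u' = π (s u * s u') := fun u u' => by rw [h _ (s1 u) _ (s1 u'), s2, s2]
  let β : W → W → Additive B := fun u w => Additive.ofMul ⟨⁅s u, s w⁆, hc _ (s1 u) _ (s1 w)⟩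
  let b : W →+ W →+ Additive B := AddMonoidHom.mk' (fun u => AddMonoidHom.mk' (β u) fun w w' => by
    apply Additive.toMul.injective
    apply Subtype.ext
    show ⁅s u, s (w + w')⁆ = ⁅s u, s w⁆ * ⁅s u, s w'⁆
    rw [sa, hr _ (s1 u) _ (A.mul_mem (s1 w) (s1 w')), mr _ (s1 u) _ (s1 w) _ (s1 w')])
    fun u u' => by
      ext w
      show ⁅s (u + u'), s w⁆ = ⁅s u, s w⁆ * ⁅s u', s w⁆
      rw [sa, hl _ (A.mul_mem (s1 u) (s1 u')) _ (s1 w), ml _ (s1 u) _ (s1 u') _ (s1 w)]
  refine ⟨Additive B, inferInstance, b, fun q => (q.toMul : H), rfl,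
    fun q q' e => Additive.toMul.injective (Subtype.ext e), fun x hx y hy => ?_⟩
  show ⁅s (π x), s (π y)⁆ = ⁅x, y⁆
  rw [hl x hx _ (s1 _), hr x hx y hy]

end Nil

end Ml

open Ml in
theorem ml0Stmt (hAa : AaStmt) (hQ : QuotStmt) (hMc : McStmt) (hGf : GfStmt) (hB : BigAltStmt)
    (hRa : RaltStmt) : Ml0Stmt := by
  classical
  intro F _ _
  rcases subsingleton_or_nontrivial F with hF | hF
  · exact ⟨0, fun H Ω _ _ _ _ φ j _ _ _ _ F' g hg =>
      absurd (Subsingleton.elim (1 : F) g ▸ F'.one_mem) hg⟩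
  have := Fintype.ofFinite F
  obtain ⟨k, hk⟩ := hMc (Fintype.card F)
  obtain ⟨n1, h1⟩ := hB k
  obtain ⟨n2, h2⟩ := hGf (Fintype.card F)
  obtain ⟨n3, h3⟩ := hRa F
  refine ⟨n1 + n2 + n3 + 5 * Fintype.card F, fun H Ω _ _ _ _ φ j hφ hS hfree hn F' g hg => ?_⟩
  have hFc : 0 < Fintype.card F := Fintype.card_pos
  have h5 : 5 ≤ Fintype.card Ω := by omega
  have hd := hd_R hφ h5
  have hmap : (Alt.R φ Finset.univ).map φ = Alt.AltOn Finset.univ := R_map hφ (by simpa using h5)
  set R := Alt.R φ Finset.univ with hR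
  by_cases hc : (⁅φ.ker, R⁆ : Subgroup H) = ⊥
  · have : Finite j.range := Finite.of_surjective _ j.rangeRestrict_surjective
    have := Fintype.ofFinite j.range
    have hj : Fintype.card j.range ≤ Fintype.card F :=
      Fintype.card_le_of_surjective _ j.rangeRestrict_surjective
    obtain ⟨Δ, -, d2, -, d4⟩ := Alt.exists_transversal φ j.range Finset.univ ∅ 5 (by
      rw [Finset.card_empty, Finset.card_univ]; omega)
    have c5 : ∀ z : H, 5 ≤ (Δ.image (φ z)).card := fun z => by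
      rw [Finset.card_image_of_injective _ (φ z).injective, d2]
    have cm : ∀ z : H, ∀ r ∈ Alt.R φ Δ, z * r * z⁻¹ ∈ Alt.R φ (Δ.image (φ z)) := fun z r hr =>
      Alt.R_conj hφ (c5 z) (fun a ha => Finset.mem_image_of_mem _ ha) hr
    refine sub_lemma j (Alt.R φ Δ) (R_cen hφ hc d2.ge).1 (fun f f' hne x hx y hy => ?_) F' g hg
    refine (R_cen hφ hc (c5 (j f))).2 _ (c5 (j f')) ?_ _ (cm _ x hx) _ (cm _ y hy)
    rw [Finset.disjoint_left]
    intro w hw hw'
    obtain ⟨a, ha, rfl⟩ := Finset.mem_image.1 hw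
    obtain ⟨b, hb, e⟩ := Finset.mem_image.1 hw'
    have e1 : φ (j (f⁻¹ * f')) b = a := by simp [e]
    have e2 := d4 b hb a ha _ ⟨_, rfl⟩ e1
    exact hne (inv_mul_eq_one.1 (hfree _ b (e1.trans e2.symm)))
  obtain ⟨A, hA, -, ⟨l, hl, hN⟩ | ⟨J, _, _, L, hL⟩⟩ := hAa H _ φ R hd hS hc
  · have := Fact.mk hl
    have := hA.nrm
    have := hd.nrm
    obtain ⟨W, _, _, _, π, ρ, p1, p2, p3, p4⟩ := hQ l H H (MonoidHom.id H) A
      (A ⊓ centralizer (R : Set H)) inf_le_left (le_inf (commutator_le_left _ _) hN.2.1)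
      (fun a ha => ⟨A.pow_mem ha l, hN.2.2 a ha⟩) (fun t a ha => hA.nrm.conj_mem a ha t)
      (fun t a ha => Normal.conj_mem inferInstance a ha t)
    simp only [MonoidHom.id_apply] at p4
    have hirr : Irr ρ := by
      intro U hU
      have hn : (pre p2 U).Normal := ⟨fun a ha t =>
        ⟨hA.nrm.conj_mem a ha.1 t, by rw [← p4 t a ha.1]; exact hU t _ ha.2⟩⟩
      rcases hA.min _ hn (fun a ha => ha.1) with e | e
      · left
        rw [eq_bot_iff]
        intro w hw
        obtain ⟨a, ha, rfl⟩ := p1 w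
        exact (p3 a ha).2 ⟨ha, e ⟨ha, hw⟩⟩
      · right
        rw [eq_top_iff]
        intro w _
        obtain ⟨a, ha, rfl⟩ := p1 w
        exact (show a ∈ pre p2 U from e.symm ▸ ha).2
    have hnt : ∃ r ∈ R, ρ r ≠ 1 := by
      by_contra hcon
      push Not at hcon
      have e1 : A ≤ centralizer (R : Set H) := by
        rw [← hA.eq, commutator_comm, commutator_le]
        intro r hr a ha
        have e2 := hA.nrm.conj_mem a ha r
        refine ((p3 _ (A.mul_mem e2 (A.inv_mem ha))).1 ?_).2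
        rw [p2 _ e2 _ (A.inv_mem ha), ← p4 r a ha, hcon r hr, pi_inv p2 ha]
        simp
      exact hA.ne (hA.eq ▸ commutator_eq_bot_iff_le_centralizer.2 e1)
    obtain ⟨v, g1, g2⟩ := h3 l H (ZMod l) W Ω ρ φ j hφ hS hfree (by omega) hirr hnt
    obtain ⟨a, ha, rfl⟩ := p1 v
    obtain ⟨Q, _, b, e, e0, e1, e2⟩ := exists_form hA.le hN.2.1 p1 p2
      fun a ha h => ((p3 a ha).1 h).2
    have hinv : ∀ r ∈ R, ∀ u w, b (ρ r u) (ρ r w) = b u w := by
      intro r hr u w
      obtain ⟨x, hx, rfl⟩ := p1 u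
      obtain ⟨y, hy, rfl⟩ := p1 w
      apply e1
      rw [p4 r x hx, p4 r y hy, e2 _ (hA.nrm.conj_mem x hx r) _ (hA.nrm.conj_mem y hy r),
        e2 x hx y hy, ← conjugate_commutatorElement,
        hN.2.1 (commutator_mem_commutator hx hy) r hr, mul_inv_cancel_right]
    refine norm_lemma j a
      (pre p2 (Submodule.span (ZMod l) ((fun f => ρ (j f) (π a)) '' {1}ᶜ))) (fun f f' hne => ?_)
      (fun f hf => ⟨hA.nrm.conj_mem a ha _, ?_⟩) (fun h => ?_) F' g hg
    · have e3 := congrArg e (g2 Q b hinv f f' hne)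
      rw [p4 _ a ha, p4 _ a ha, e2 _ (hA.nrm.conj_mem a ha _) _ (hA.nrm.conj_mem a ha _), e0] at e3
      exact commutatorElement_eq_one_iff_commute.1 e3
    · rw [← p4 _ a ha]
      exact Submodule.subset_span ⟨f, hf, rfl⟩
    · refine g1.notMem_span_image (s := {1}ᶜ) (x := 1) (by simp) ?_
      simpa using h.2
  · have hJ : Nonempty J := by
      by_contra hcon
      rw [not_nonempty_iff] at hcon
      exact hA.ne (by rw [← hL.sup, iSup_of_empty])
    obtain ⟨j0⟩ := hJ
    obtain ⟨r, -, hr⟩ := Low.avoid (R := R) (T := MulAction.stabilizer H j0)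
      (c := Fintype.card F) ((Finset.univ.erase 1).image j)
      (Finset.card_image_le.trans (Finset.card_le_univ _)) (fun x hx => by
        obtain ⟨f, hf, rfl⟩ := Finset.mem_image.1 hx
        have hf1 : ∀ a, φ (j f) a ≠ a := fun a e => (Finset.mem_erase.1 hf).1 (hfree f a e)
        refine hk H _ φ R _ hd hS ((h1 H Ω R).1 φ _ Finset.univ hmap.ge ?_) ?_
        · have e : (φ (j f)).support = Finset.univ :=
            Finset.eq_univ_of_forall fun a => Equiv.Perm.mem_support.2 (hf1 a)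
          rw [e, Finset.inter_self, Finset.card_univ]
          omega
        · rw [hmap, altOn_univ]
          exact h2 Ω _ hf1 (by omega)) (fun hle => by
        obtain ⟨r, hr, hne⟩ := hL.mov j0
        exact hne (hle hr))
    refine sub_lemma j (L (r • j0)) (hL.qs _) (fun f f' hne x hx y hy => ?_) F' g hg
    refine hL.comm _ _ (fun e => ?_) _ (hL.conj _ _ x hx) _ (hL.conj _ _ y hy)
    refine hr (j (f⁻¹ * f')) (Finset.mem_image_of_mem _ (Finset.mem_erase.2
      ⟨fun e' => hne (inv_mul_eq_one.1 e'), Finset.mem_univ _⟩)) ?_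
    rw [MulAction.mem_stabilizer_iff, mul_smul, mul_smul, map_mul, map_inv, mul_smul, ← e,
      inv_smul_smul, inv_smul_smul]

end Pool.Agent.Lib.MP_679d9b_al.KG
end

-- part Pool.Agent.Lib.MP_679d9b_al.KG.Mr
section

/-!
Large elements are far from scalars, move many points, and force large degrees and indices.
-/

set_option autoImplicit false

namespace Pool.Agent.Lib.MP_679d9b_al.KG

open Subgroup
open scoped commutatorElement

namespace Mr

theorem central_eq_one {k : ℕ} (hk : 3 ≤ k) (s : Equiv.Perm (Fin k))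
    (h : ∀ a, Commute a s) : s = 1 := by
  ext a
  by_contra hne
  have hne' : s a ≠ a := fun e => hne (by rw [e]; rfl)
  obtain ⟨c, hc⟩ : ∃ c : Fin k, c ∉ ({a, s a} : Finset (Fin k)) := by
    by_contra hall
    push Not at hall
    have h1 : (Finset.univ : Finset (Fin k)) ⊆ {a, s a} := fun x _ => hall x
    have h2 := (Finset.card_le_card h1).trans Finset.card_le_two
    simp at h2
    omega
  simp only [Finset.mem_insert, Finset.mem_singleton, not_or] at hc
  have h3 := congrArg (fun p : Equiv.Perm (Fin k) => p a) (h (Equiv.swap (s a) c)).eq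
  simp only [Equiv.Perm.mul_apply, Equiv.swap_apply_left] at h3
  rw [Equiv.swap_apply_of_ne_of_ne hne'.symm (Ne.symm hc.1)] at h3
  exact hc.2 h3

theorem exists_gens {k : ℕ} (hk : 2 ≤ k) :
    ∃ a b : Equiv.Perm (Fin k), closure ({a, b} : Set (Equiv.Perm (Fin k))) = ⊤ := by
  obtain ⟨n, rfl⟩ : ∃ n, k = n + 2 := ⟨k - 2, by omega⟩
  exact ⟨_, _, Equiv.Perm.closure_cycle_adjacent_swap isCycle_finRotate support_finRotate 0⟩

/-- Translations in each block. -/
def tr (m s : ℕ) : Multiplicative (Fin m → ZMod s) →* Equiv.Perm (Fin m × ZMod s) where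
  toFun v := Equiv.prodCongrRight fun i => Equiv.addLeft (v.toAdd i)
  map_one' := by ext ⟨i, a⟩ <;> simp
  map_mul' v w := by ext ⟨i, a⟩ <;> simp

theorem tr_injective (m s : ℕ) : Function.Injective (tr m s) := by
  rw [injective_iff_map_eq_one]
  intro v hv
  ext i
  have := congrArg (fun p : Equiv.Perm (Fin m × ZMod s) => (p (i, 0)).2) hv
  simpa [tr] using this

theorem exists_elem (m s k : ℕ) [NeZero s] (hk : m * s ≤ k) :
    ∃ E : Subgroup (Equiv.Perm (Fin k)), Nat.card E = s ^ m ∧ (∀ a b : E, Commute a b) ∧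
      ∀ a : E, a ^ s = 1 := by
  obtain ⟨ι⟩ : Nonempty (Fin m × ZMod s ↪ Fin k) :=
    Function.Embedding.nonempty_of_card_le (by simpa using hk)
  have hinj : Function.Injective ((Equiv.Perm.viaEmbeddingHom ι).comp (tr m s)) :=
    (Equiv.Perm.viaEmbeddingHom_injective ι).comp (tr_injective m s)
  refine ⟨((Equiv.Perm.viaEmbeddingHom ι).comp (tr m s)).range, ?_, ?_, ?_⟩
  · rw [← Nat.card_congr (MonoidHom.ofInjective hinj).toEquiv]
    simp [Nat.card_eq_fintype_card]
  · rintro ⟨_, v, rfl⟩ ⟨_, w, rfl⟩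
    exact Subtype.ext ((Commute.all v w).map _).eq
  · rintro ⟨_, v, rfl⟩
    refine Subtype.ext ?_
    have : v ^ s = 1 := by
      apply Multiplicative.toAdd.injective
      ext i
      simp
    rw [Subgroup.coe_pow, ← map_pow, this, map_one]
    rfl

theorem eq_one_of_sq {K V : Type} [Field K] [AddCommGroup V] [Module K V] {a : Module.End K V}
    {n : ℕ} (hn : (n : K) ≠ 0) (h2 : (a - 1) * (a - 1) = 0) (h : a ^ n = 1) : a = 1 := by
  have key : ∀ j : ℕ, a ^ j = 1 + (j : K) • (a - 1) := by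
    intro j
    induction j with
    | zero => simp
    | succ j ih =>
      have e : a = 1 + (a - 1) := by abel
      calc a ^ (j + 1) = (1 + (j : K) • (a - 1)) * (1 + (a - 1)) := by rw [pow_succ, ih, ← e]
        _ = 1 + ((j + 1 : ℕ) : K) • (a - 1) := by
          rw [add_mul, mul_add, mul_add, smul_mul_assoc, smul_mul_assoc, h2]
          push_cast
          rw [add_smul]
          simp only [one_mul, mul_one, smul_zero, add_zero, one_smul]
          abel
  rw [key n, add_eq_left, smul_eq_zero] at h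
  exact sub_eq_zero.1 (h.resolve_left hn)

section Core
variable {H S K V : Type} [Group H] [Group S] [Field K] [AddCommGroup V] [Module K V]

/-- Pairs which agree modulo the centralizer. -/
def Lam {k : ℕ} (φ : H →* S) (θ : Equiv.Perm (Fin k) →* S) :
    Subgroup (H × Equiv.Perm (Fin k)) where
  carrier := {p | ∀ a, Commute (θ a) (φ p.1 * (θ p.2)⁻¹)}
  one_mem' a := by simp
  mul_mem' := fun {p q} hp hq a => by
    have e : φ (p * q).1 * (θ (p * q).2)⁻¹
        = (φ p.1 * (θ p.2)⁻¹) * (φ q.1 * (θ q.2)⁻¹) := by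
      have h1 := (hq p.2).inv_left.eq
      simp only [Prod.fst_mul, Prod.snd_mul, map_mul, mul_inv_rev]
      rw [mul_assoc (φ p.1) (θ p.2)⁻¹, h1]
      group
    rw [e]
    exact (hp a).mul_right (hq a)
  inv_mem' := fun {p} hp a => by
    have e : φ p⁻¹.1 * (θ p⁻¹.2)⁻¹ = (φ p.1 * (θ p.2)⁻¹)⁻¹ := by
      have h1 := (hp p.2).eq
      simp only [Prod.fst_inv, Prod.snd_inv, map_inv, inv_inv, mul_inv_rev]
      have h2 : θ p.2 * φ p.1 = φ p.1 * θ p.2 := by
        calc θ p.2 * φ p.1 = θ p.2 * (φ p.1 * (θ p.2)⁻¹) * θ p.2 := by group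
          _ = φ p.1 * θ p.2 := by rw [h1]; group
      exact (Commute.inv_left (show Commute (φ p.1) (θ p.2) from h2.symm)).eq
    rw [e]
    exact (hp a).inv_right

/-- Elements which act trivially modulo a subspace. -/
def Triv (ρ : H →* Module.End K V) (U : Submodule K V) : Subgroup H where
  carrier := {x | ∀ v, ρ x v - v ∈ U}
  one_mem' v := by simp
  mul_mem' := fun {x y} hx hy v => by
    have := U.add_mem (hx (ρ y v)) (hy v)
    rw [map_mul, Module.End.mul_apply]
    simpa using this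
  inv_mem' := fun {x} hx v => by
    have := U.neg_mem (hx (ρ x⁻¹ v))
    rw [← Module.End.mul_apply, ← map_mul, mul_inv_cancel, map_one] at this
    simpa using this

/-- The action on the subspace. -/
def res (ρ : H →* Module.End K V) (U : Submodule K V) : Triv ρ U →* Module.End K U where
  toFun x := (ρ x).restrict fun u hu => by simpa using U.add_mem (x.2 u) hu
  map_one' := by ext u; simp
  map_mul' x y := by ext u; simp

theorem core (hJ : JsStmt) [Finite H] [FiniteDimensional K V] (s : ℕ) [hs : Fact s.Prime]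
    (hsK : (s : K) ≠ 0) {N m k : ℕ} (hk : m * s ≤ k) (hk3 : 3 ≤ k) {φ : H →* S} {R : Subgroup H}
    {y : H} (hd : Hd φ R) (hb : SBig φ R k y) (ρ : H →* Module.End K V)
    (hρ : ∃ r ∈ R, ρ r ≠ 1) (hN : rk (ρ y - 1) ≤ N) : s ^ m ≤ s ^ (4 * N) * (4 * N).factorial := by
  have : NeZero s := ⟨hs.out.ne_zero⟩
  obtain ⟨θ, hθ, hR, hc⟩ := hb
  obtain ⟨a1, a2, hgen⟩ := exists_gens (k := k) (by omega)
  obtain ⟨b1, -, hb1⟩ := hR a1⁻¹
  obtain ⟨b2, -, hb2⟩ := hR a2⁻¹
  set U : Submodule K V :=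
    LinearMap.range (ρ ⁅y, b1⁆ - 1) ⊔ LinearMap.range (ρ ⁅y, b2⁆ - 1) with hU
  have hUd : Module.finrank K U ≤ 4 * N := by
    have h1 := rk_map_comm ρ y b1 1
    have h2 := rk_map_comm ρ y b2 1
    rw [one_smul] at h1 h2
    have h3 := Submodule.finrank_add_le_finrank_add_finrank
      (LinearMap.range (ρ ⁅y, b1⁆ - 1)) (LinearMap.range (ρ ⁅y, b2⁆ - 1))
    unfold rk at h1 h2 hN
    rw [hU]
    omega
  obtain ⟨E, hE, hEc, hEp⟩ := exists_elem m s k hk
  set Γ : Subgroup (H × Equiv.Perm (Fin k)) :=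
    Lam φ θ ⊓ (Triv ρ U).comap (MonoidHom.fst _ _) with hΓ
  have hlam : ∀ (a : Equiv.Perm (Fin k)) (b : H), φ b = θ a⁻¹ → (⁅y, b⁆, a) ∈ Lam φ θ := by
    intro a b hab c
    have e : φ ⁅y, b⁆ * (θ a)⁻¹ = φ y * θ a⁻¹ * (φ y)⁻¹ := by
      rw [commutatorElement_def]
      simp only [map_mul, map_inv, hab, inv_inv]
      group
    change Commute (θ c) (φ ⁅y, b⁆ * (θ a)⁻¹)
    rw [e]
    exact hc c a⁻¹
  have hsurj : Γ.map (MonoidHom.snd _ _) = ⊤ := by
    rw [eq_top_iff, ← hgen, closure_le]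
    rintro a (rfl | rfl)
    · exact ⟨(⁅y, b1⁆, a), ⟨hlam _ _ hb1, fun v => Submodule.mem_sup_left ⟨v, rfl⟩⟩, rfl⟩
    · exact ⟨(⁅y, b2⁆, a), ⟨hlam _ _ hb2, fun v => Submodule.mem_sup_right ⟨v, rfl⟩⟩, rfl⟩
  set G : Subgroup (H × Equiv.Perm (Fin k)) := Γ ⊓ E.comap (MonoidHom.snd _ _) with hG
  let ψ : G →* E := ((MonoidHom.snd _ _).comp G.subtype).codRestrict E fun p => p.2.2
  have hψ : Function.Surjective ψ := by
    intro e
    obtain ⟨p, hp, he⟩ : (e : Equiv.Perm (Fin k)) ∈ Γ.map (MonoidHom.snd _ _) := by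
      rw [hsurj]; trivial
    exact ⟨⟨p, hp, by
      change (MonoidHom.snd _ _) p ∈ E
      rw [he]; exact e.2⟩, Subtype.ext he⟩
  let σ : G →* Module.End K U :=
    (res ρ U).comp (((MonoidHom.fst _ _).comp G.subtype).codRestrict (Triv ρ U) fun p => p.2.1.2)
  obtain ⟨P⟩ : Nonempty (Sylow s G) := inferInstance
  have hEs : IsPGroup s E := fun a => ⟨1, by rw [pow_one]; exact hEp a⟩
  have hP : (P : Subgroup G).map ψ = ⊤ := by
    rw [← Sylow.coe_mapSurjective hψ]
    exact ((P.mapSurjective hψ).is_maximal' (hEs.to_subgroup ⊤) le_top).symm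
  have hker : ρ.ker ≤ φ.ker := hd.le_ker inferInstance fun h => by
    obtain ⟨r, hr, hr'⟩ := hρ
    exact hr' (h hr)
  rw [← hE]
  refine hJ s P E K U (σ.comp (P : Subgroup G).subtype) (ψ.comp (P : Subgroup G).subtype) (4 * N)
    P.isPGroup' hsK hUd ?_ ?_ hEc hEp
  · intro e
    obtain ⟨p, hp, he⟩ : e ∈ (P : Subgroup G).map ψ := by rw [hP]; trivial
    exact ⟨⟨p, hp⟩, he⟩
  · intro p hp
    obtain ⟨j, hj⟩ := P.isPGroup' p
    have h1 : ρ p.1.1.1 = 1 := by
      refine eq_one_of_sq (n := s ^ j) (by push_cast; exact pow_ne_zero _ hsK) ?_ ?_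
      · ext v
        have h2 : ρ p.1.1.1 v - v ∈ U := p.1.2.1.2 v
        have h3 := congrArg (fun T : Module.End K U => (T ⟨_, h2⟩ : V)) hp
        change ρ p.1.1.1 (ρ p.1.1.1 v - v) = ρ p.1.1.1 v - v at h3
        simp only [Module.End.mul_apply, LinearMap.sub_apply, Module.End.one_apply,
          LinearMap.zero_apply]
        rw [h3, sub_self]
      · have h2 : p.1.1.1 ^ s ^ j = 1 := congrArg (fun q : P => q.1.1.1) hj
        rw [← map_pow, h2, map_one]
    have h4 : φ p.1.1.1 = 1 := hker h1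
    refine Subtype.ext (central_eq_one hk3 p.1.1.2 fun a => ?_)
    have h5 : Commute (θ a) (φ p.1.1.1 * (θ p.1.1.2)⁻¹) := p.1.2.1.1 a
    rw [h4, one_mul, Commute.inv_right_iff] at h5
    exact hθ (by rw [map_mul, map_mul]; exact h5.eq)

end Core

theorem core' (hJ : JsStmt) (N : ℕ) : ∃ k : ℕ, ∀ (H S K V : Type) [Group H] [Finite H] [Group S]
    [Field K] [AddCommGroup V] [Module K V] [FiniteDimensional K V] (φ : H →* S) (R : Subgroup H)
    (y : H) (ρ : H →* Module.End K V), Hd φ R → SBig φ R k y → (∃ r ∈ R, ρ r ≠ 1) →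
    N < rk (ρ y - 1) := by
  refine ⟨(4 * N + (4 * N).factorial) * 3 + 3, fun H S K V _ _ _ _ _ _ _ φ R y ρ hd hb hρ => ?_⟩
  by_contra hN
  rw [not_lt] at hN
  obtain ⟨s, hs, hs3, hsK⟩ : ∃ s : ℕ, s.Prime ∧ s ≤ 3 ∧ (s : K) ≠ 0 := by
    by_cases h2 : ((2 : ℕ) : K) = 0
    · refine ⟨3, Nat.prime_three, le_rfl, fun h3 => ?_⟩
      have : ((3 : ℕ) : K) = ((2 : ℕ) : K) + 1 := by push_cast; ring
      rw [h3, h2, zero_add] at this
      exact zero_ne_one this
    · exact ⟨2, Nat.prime_two, by norm_num, h2⟩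
  have : Fact s.Prime := ⟨hs⟩
  have h := core hJ s hsK (m := 4 * N + (4 * N).factorial)
    ((Nat.mul_le_mul_left _ hs3).trans (Nat.le_add_right _ _)) (Nat.le_add_left _ _) hd hb ρ hρ hN
  rw [pow_add] at h
  have h1 := Nat.le_of_mul_le_mul_left h (pow_pos hs.pos _)
  exact absurd (Nat.lt_pow_self hs.one_lt) (not_lt.2 h1)

section Perm
variable (G X : Type) [Group G] [MulAction G X]

/-- The permutation module. -/
def pm : G →* Module.End ℚ (X → ℚ) where
  toFun h := LinearMap.funLeft ℚ ℚ fun x => h⁻¹ • x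
  map_one' := by ext f x; simp [LinearMap.funLeft_apply]
  map_mul' a b := by ext f x; simp [LinearMap.funLeft_apply, mul_smul]

variable {G X}

theorem smul_eq_of_pm {h : G} (e : pm G X h = 1) (x : X) : h • x = x := by
  classical
  have h1 := congrArg (fun T : Module.End ℚ (X → ℚ) => T (Pi.single x 1) (h • x)) e
  simp only [pm, MonoidHom.coe_mk, OneHom.coe_mk, LinearMap.funLeft_apply, inv_smul_smul,
    Pi.single_eq_same, Module.End.one_apply] at h1
  by_contra hne
  rw [Pi.single_eq_of_ne hne] at h1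
  exact one_ne_zero h1

theorem rk_pm [Finite X] (g : G) : rk (pm G X g - 1) ≤ {x : X | g • x ≠ x}.ncard := by
  classical
  let f : LinearMap.range (pm G X g - 1) →ₗ[ℚ] ({x : X | g • x ≠ x} → ℚ) :=
    (LinearMap.funLeft ℚ ℚ (Subtype.val : {x : X | g • x ≠ x} → X)).comp (Submodule.subtype _)
  have hf : Function.Injective f := by
    rw [injective_iff_map_eq_zero]
    rintro ⟨_, w, rfl⟩ h0
    refine Subtype.ext (funext fun x => ?_)
    by_cases hx : g • x = x
    · have : g⁻¹ • x = x := inv_smul_eq_iff.2 hx.symm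
      simp [pm, LinearMap.funLeft_apply, this]
    · exact congrFun h0 ⟨x, hx⟩
  have := Fintype.ofFinite {x : X | g • x ≠ x}
  have h1 := LinearMap.finrank_le_finrank_of_injective hf
  rw [Module.finrank_fintype_fun_eq_card, ← Nat.card_eq_fintype_card, Nat.card_coe_set_eq] at h1
  exact h1

end Perm

end Mr

open Mr in
theorem mrStmt (h : JsStmt) : MrStmt := by
  intro N
  obtain ⟨k, hk⟩ := core' h (2 * N)
  refine ⟨k, fun H S _ _ _ φ R g hd hb => ?_⟩
  have hRk : Rk R g N := by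
    intro T _ ι hι hR g' hg K V _ _ _ _ ρ hρ t
    have : Finite T := Finite.of_injective ι hι
    obtain ⟨r, -, hr⟩ := Big.comap ι hR (hg ▸ hb : Big φ R k (ι g'))
    have h1 := hk T S K V (φ.comp ι) (R.comap ι) _ ρ (hd.comap ι hι hR) hr hρ
    have h2 := rk_map_comm ρ g' r t
    omega
  have hLo : Lo R N := by
    intro K V _ _ _ _ σ hD r
    by_contra hne
    obtain ⟨r0, hr0, θ, hθ, h1, h2⟩ := hb
    have hy : ⁅g, r0⁆ ∈ R := R.mul_mem (hd.nrm.conj_mem r0 hr0 g) (R.inv_mem hr0)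
    have hR : R ≤ R.subtype.range := by rw [range_subtype]
    have h3 := hk R S K V (φ.comp R.subtype) (R.comap R.subtype) ⟨_, hy⟩ σ
      (hd.comap _ R.subtype_injective hR)
      ⟨θ, hθ, fun a => by
        obtain ⟨r', hr', e⟩ := h1 a
        exact ⟨⟨r', hr'⟩, hr', e⟩, h2⟩ ⟨r, r.2, hne⟩
    have h4 := rk_le (σ ⟨_, hy⟩ - 1)
    omega
  refine ⟨hRk, hLo, ?_, ?_⟩
  · rintro X _ _ ⟨r, hr, x, hx⟩
    have h1 := hRk H (MonoidHom.id H) Function.injective_id (fun y _ => ⟨y, rfl⟩) g rfl ℚ (X → ℚ)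
      (pm H X) ⟨r, hr, fun e => hx (smul_eq_of_pm e x)⟩ 1
    rw [one_smul] at h1
    exact h1.trans_le (rk_pm g)
  · intro T hT r hr
    have := Fintype.ofFinite (R ⧸ T.subgroupOf R)
    have h1 := hLo ℚ (R ⧸ T.subgroupOf R → ℚ) (pm R (R ⧸ T.subgroupOf R))
      (by rw [Module.finrank_fintype_fun_eq_card, ← Nat.card_eq_fintype_card]; exact hT) ⟨r, hr⟩
    have h2 := smul_eq_of_pm h1 ((1 : R) : R ⧸ T.subgroupOf R)
    rw [MulAction.Quotient.smul_mk, smul_eq_mul, mul_one, eq_comm, QuotientGroup.eq, inv_one,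
      one_mul] at h2
    exact h2

end Pool.Agent.Lib.MP_679d9b_al.KG
end
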