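import Mathlib
import Pool.Agent.Lib.MP_679d9b_al.KG.Ty

-- part Pool.Agent.Lib.MP_679d9b_al.KG.P1
section

/-!
Reduction to elements of bounded rank.
-/

set_option autoImplicit false

namespace Pool.Agent.Lib.MP_679d9b_al.KG

open Subgroup Matrix
open PT (SL)

namespace P1

theorem bonf {α β : Type} [DecidableEq α] [DecidableEq β] (D : α → Finset β) (e : ℕ)
    (h : ∀ i j, i ≠ j → (D i ∩ D j).card ≤ e) (s : Finset α) :
    ∑ i ∈ s, (D i).card ≤ (s.biUnion D).card + s.card ^ 2 * e := by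
  induction s using Finset.induction_on with
  | empty => simp
  | insert a s ha ih =>
    rw [Finset.sum_insert ha, Finset.biUnion_insert, Finset.card_insert_of_notMem ha]
    have h1 := Finset.card_union_add_card_inter (D a) (s.biUnion D)
    have h2 : (D a ∩ s.biUnion D).card ≤ s.card * e := by
      rw [Finset.inter_biUnion]
      exact Finset.card_biUnion_le_card_mul _ _ _ fun j hj => h a j fun k => ha (k ▸ hj)
    nlinarith [Nat.zero_le (s.card * e), Nat.zero_le e]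

theorem pair {G : Type} [Group G] [Finite G] {c : ℕ} {A : G} {T : Subgroup G}
    (h : Dn c ⊤ A T) (y : Fin (2 * c) → G) : ∃ i j, i ≠ j ∧
      Dn (4 * c ^ 2) ⊤ ((y i)⁻¹ * A * y i * ((y j)⁻¹ * A * y j)⁻¹) T := by
  classical
  have := Fintype.ofFinite G
  unfold Dn at h
  rw [Subgroup.card_top, Nat.card_eq_fintype_card] at h
  have hc : 0 < c := Nat.pos_of_ne_zero fun e => by
    rw [e, zero_mul] at h
    exact absurd h (not_le.2 Fintype.card_pos)
  let D : Fin (2 * c) → Finset G := fun i =>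
    Finset.univ.filter fun z => (y i * z)⁻¹ * A * (y i * z) ∈ T
  have hD : ∀ i, (D i).card = {m | m ∈ (⊤ : Subgroup G) ∧ m⁻¹ * A * m ∈ T}.ncard := fun i => by
    rw [← Set.ncard_coe_finset, ← Set.ncard_image_of_injective _ (mul_right_injective (y i))]
    congr 1
    ext m
    constructor
    · rintro ⟨z, hz, rfl⟩
      exact ⟨mem_top _, (Finset.mem_filter.1 hz).2⟩
    · intro hm
      exact ⟨(y i)⁻¹ * m, Finset.mem_filter.2 ⟨Finset.mem_univ _, by simpa using hm.2⟩, by simp⟩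
  obtain ⟨⟨i, j⟩, hij, hm⟩ := (Finset.univ : Finset (Fin (2 * c))).offDiag.exists_max_image
    (fun q => (D q.1 ∩ D q.2).card)
    ⟨(⟨0, by omega⟩, ⟨1, by omega⟩), by simp [Finset.mem_offDiag]⟩
  refine ⟨i, j, (Finset.mem_offDiag.1 hij).2.2, ?_⟩
  have h1 := bonf D _ (fun a b k => hm (a, b) (Finset.mem_offDiag.2
    ⟨Finset.mem_univ _, Finset.mem_univ _, k⟩)) Finset.univ
  simp only [hD, Finset.sum_const, Finset.card_univ, Fintype.card_fin, smul_eq_mul] at h1
  have h2 := Finset.card_le_univ (Finset.univ.biUnion D)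
  have h3 : (D i ∩ D j).card ≤ {m | m ∈ (⊤ : Subgroup G) ∧
      m⁻¹ * ((y i)⁻¹ * A * y i * ((y j)⁻¹ * A * y j)⁻¹) * m ∈ T}.ncard := by
    rw [← Set.ncard_coe_finset]
    refine Set.ncard_le_ncard fun z hz => ⟨mem_top _, ?_⟩
    have hz' := Finset.mem_inter.1 hz
    convert T.mul_mem (Finset.mem_filter.1 hz'.1).2 (T.inv_mem (Finset.mem_filter.1 hz'.2).2)
      using 1
    group
  unfold Dn
  rw [Subgroup.card_top, Nat.card_eq_fintype_card]
  nlinarith [Nat.mul_le_mul_left (4 * c ^ 2) h3]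

theorem ring_id {R : Type} [Ring R] {x y a b : R} (h0 : a * b = 1) (h1 : x * y = 0)
    (h2 : x * a * x = 0) (h3 : x * a * y = 0) (h4 : x * b * y = 0) (h5 : y * b * y = 0) :
    (1 + -x) * a * (1 + x) * ((1 + -y) * b * (1 + y)) - 1 = a * (x - y) * b - (x - y) := by
  have e1 : (1 + x) * (1 + -y) = 1 + (x - y) := by
    rw [add_mul, mul_add x, mul_neg x, h1]
    noncomm_ring
  have e2 : a * (1 + (x - y)) * b = 1 + a * (x - y) * b := by rw [mul_add, mul_one, add_mul, h0]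
  have e3 : x * (a * (x - y) * b) = 0 := by
    rw [← mul_assoc, ← mul_assoc, mul_sub, h2, h3, sub_zero, zero_mul]
  have e4 : a * (x - y) * b * y = 0 := by
    rw [mul_assoc a, mul_assoc a, sub_mul, sub_mul, h4, h5, sub_zero, mul_zero]
  calc _ = (1 + -x) * (a * ((1 + x) * (1 + -y)) * b) * (1 + y) - 1 := by noncomm_ring
    _ = (1 + -x) * (1 + a * (x - y) * b) * (1 + y) - 1 := by rw [e1, e2]
    _ = a * (x - y) * b - (x - y) - x * y - x * (a * (x - y) * b) + a * (x - y) * b * y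
        - x * (a * (x - y) * b * y) := by noncomm_ring
    _ = _ := by rw [h1, e3, e4]; simp

variable {ι K : Type} [Fintype ι] [DecidableEq ι] [Field K] {m : ℕ}

/-- A unipotent element. -/
def un (P : Matrix (Fin m) ι K) (Q : Matrix ι (Fin m) K) (h : P * Q = 0) : SL ι K :=
  ⟨1 + Q * P, by rw [det_one_add_mul_comm, h, add_zero, det_one]⟩

theorem un_inv (P : Matrix (Fin m) ι K) (Q : Matrix ι (Fin m) K) (h : P * Q = 0) :
    ((un P Q h)⁻¹).1 = 1 + -(Q * P) := by
  have e : un P Q h * un P (-Q) (by rw [Matrix.mul_neg, h, neg_zero]) = 1 := by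
    refine Subtype.ext ?_
    change (1 + Q * P) * (1 + -Q * P) = 1
    rw [add_mul, mul_add (Q * P), Matrix.neg_mul, mul_neg, Matrix.mul_assoc Q P (Q * P),
      ← Matrix.mul_assoc P Q, h]
    simp
  rw [inv_eq_of_mul_eq_one_right e]
  change 1 + -Q * P = _
  rw [Matrix.neg_mul]

theorem cm (X Y : SL ι K) : (X * Y).1 = X.1 * Y.1 := rfl

theorem exists_cov {V : Type} [AddCommGroup V] [Module K V] [FiniteDimensional K V]
    (U : Submodule K V) (h : Module.finrank K U + m ≤ Module.finrank K V) :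
    ∃ φ : V →ₗ[K] (Fin m → K), LinearMap.range φ = ⊤ ∧ ∀ u ∈ U, φ u = 0 := by
  have h1 := U.finrank_quotient_add_finrank
  obtain ⟨f, hf⟩ := (finrank_le_iff_exists_linearMap (R := K) (M := Fin m → K)
    (M' := V ⧸ U)).1 (by rw [Module.finrank_fin_fun]; omega)
  obtain ⟨g, hg⟩ := f.exists_leftInverse_of_injective (LinearMap.ker_eq_bot.2 hf)
  refine ⟨g ∘ₗ U.mkQ, LinearMap.range_eq_top.2 fun x => ?_, fun u hu => ?_⟩
  · obtain ⟨v, hv⟩ := U.mkQ_surjective (f x)
    exact ⟨v, by rw [LinearMap.comp_apply, hv, ← LinearMap.comp_apply, hg, LinearMap.id_apply]⟩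
  · rw [LinearMap.comp_apply, Submodule.mkQ_apply, (Submodule.Quotient.mk_eq_zero U).2 hu,
      map_zero]

end P1

open P1 in
/-- Reduction to elements of bounded rank. -/
theorem p1Stmt (h : ZzStmt) : P1Stmt := by
  intro c
  refine ⟨4 * c ^ 2, fun m => ?_⟩
  obtain ⟨N, hN⟩ := h 1 0 (2 * c * m)
  refine ⟨max N (3 * (2 * c * m) + m), fun ι K _ _ _ _ A T hA hT => ?_⟩
  have hd : max N (3 * (2 * c * m) + m) < Module.finrank K (ι → K) := by
    rw [Module.finrank_fintype_fun_eq_card]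
    exact (hA 0).trans_le (rank_le_card_width _)
  obtain ⟨Z, -, hZ, -, hz⟩ := hN K (ι → K) Unit (fun _ => toLin' A.1) ⊥ ⊤ (by simp) (by simp)
    (by simp) ((le_max_left _ _).trans_lt hd) fun _ t => by
      have e : toLin' A.1 - t • (1 : Module.End K (ι → K)) = (A.1 - t • 1).mulVecLin := by
        rw [← toLin'_apply', map_sub, map_smul, toLin'_one]
        rfl
      rw [e]
      exact (le_max_left _ _).trans_lt (hA t)
  obtain ⟨φ, hφ, h0⟩ := exists_cov (m := m)
    (Z ⊔ Z.map (toLin' A.1) ⊔ Z.map (toLin' (A⁻¹).1)) (by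
      have h1 := Submodule.finrank_add_le_finrank_add_finrank (Z ⊔ Z.map (toLin' A.1))
        (Z.map (toLin' (A⁻¹).1))
      have h2 := Submodule.finrank_add_le_finrank_add_finrank Z (Z.map (toLin' A.1))
      have h3 := Submodule.finrank_map_le (toLin' A.1) Z
      have h4 := Submodule.finrank_map_le (toLin' (A⁻¹).1) Z
      have h5 := (le_max_right _ _).trans_lt hd
      omega)
  let e : (Fin (2 * c) → Fin m → K) ≃ₗ[K] Z := LinearEquiv.ofFinrankEq _ _ (by
    rw [hZ, Module.finrank_pi_fintype]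
    simp)
  let P : Matrix (Fin m) ι K := LinearMap.toMatrix' φ
  let Q : Fin (2 * c) → Matrix ι (Fin m) K := fun i => LinearMap.toMatrix'
    (Z.subtype ∘ₗ e.toLinearMap ∘ₗ LinearMap.single K (fun _ => Fin m → K) i)
  have hP : ∀ v, P *ᵥ v = φ v := LinearMap.toMatrix'_mulVec φ
  have hQ : ∀ i x, Q i *ᵥ x = e (Pi.single i x) := fun i x => LinearMap.toMatrix'_mulVec _ x
  have z0 : ∀ i, P * Q i = 0 := fun i => ext_iff_mulVec.2 fun x => by
    rw [← mulVec_mulVec, hP, hQ, zero_mulVec]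
    exact h0 _ (Submodule.mem_sup_left (Submodule.mem_sup_left (e _).2))
  have z1 : ∀ i, P * A.1 * Q i = 0 := fun i => ext_iff_mulVec.2 fun x => by
    rw [← mulVec_mulVec, ← mulVec_mulVec, hP, hQ, zero_mulVec]
    exact h0 _ (Submodule.mem_sup_left (Submodule.mem_sup_right ⟨_, (e _).2, rfl⟩))
  have z2 : ∀ i, P * (A⁻¹).1 * Q i = 0 := fun i => ext_iff_mulVec.2 fun x => by
    rw [← mulVec_mulVec, ← mulVec_mulVec, hP, hQ, zero_mulVec]
    exact h0 _ (Submodule.mem_sup_right ⟨_, (e _).2, rfl⟩)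
  have w0 : ∀ i j, Q i * P * (Q j * P) = 0 := fun i j => by
    rw [Matrix.mul_assoc, ← Matrix.mul_assoc P, z0, Matrix.zero_mul, Matrix.mul_zero]
  have w1 : ∀ B : Matrix ι ι K, (∀ i, P * B * Q i = 0) → ∀ i j, Q i * P * B * (Q j * P) = 0 :=
    fun B hB i j => by
      rw [Matrix.mul_assoc (Q i), Matrix.mul_assoc (Q i), ← Matrix.mul_assoc (P * B), hB,
        Matrix.zero_mul, Matrix.mul_zero]
  obtain ⟨i, j, hij, hg⟩ := pair hT fun i => un P (Q i) (z0 i)
  refine ⟨_, ?_, ?_, hg⟩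
  all_goals
    have e1 : ((un P (Q i) (z0 i))⁻¹ * A * un P (Q i) (z0 i) *
        ((un P (Q j) (z0 j))⁻¹ * A * un P (Q j) (z0 j))⁻¹).1 - 1
        = A.1 * ((Q i - Q j) * P) * (A⁻¹).1 - (Q i - Q j) * P := by
      rw [_root_.mul_inv_rev, _root_.mul_inv_rev, inv_inv, ← mul_assoc (un P (Q j) (z0 j))⁻¹,
        Matrix.sub_mul]
      rw [cm, cm, cm, cm, cm, un_inv, un_inv]
      exact ring_id (by rw [← cm, mul_inv_cancel]; rfl) (w0 i j)
        (w1 _ z1 i i) (w1 _ z1 i j) (w1 _ z2 i j) (w1 _ z2 j j)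
    rw [e1]
  · have k1 := LinearMap.finrank_range_add_finrank_ker φ
    have k2 := LinearMap.finrank_range_add_finrank_ker
      (A.1 * ((Q i - Q j) * P) * (A⁻¹).1 - (Q i - Q j) * P).mulVecLin
    have hm : ∀ v, ((Q i - Q j) * P) *ᵥ v
        = (e (Pi.single i (φ v) - Pi.single j (φ v)) : Z) := fun v => by
      rw [← mulVec_mulVec, sub_mulVec, hP, hQ, hQ, map_sub, Submodule.coe_sub]
    have k3 : LinearMap.ker (A.1 * ((Q i - Q j) * P) * (A⁻¹).1 - (Q i - Q j) * P).mulVecLin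
        ≤ LinearMap.ker φ := fun v hv => by
      rw [LinearMap.mem_ker, mulVecLin_apply, sub_mulVec, ← mulVec_mulVec, ← mulVec_mulVec, hm,
        hm, sub_eq_neg_add] at hv
      have a1 := (hz () _ (Z.neg_mem (e _).2) _ (e _).2 hv).1
      rw [neg_eq_zero, Submodule.coe_eq_zero, e.map_eq_zero_iff] at a1
      have a2 := congrFun a1 i
      simpa [hij] using a2
    rw [hφ, finrank_top, Module.finrank_fin_fun] at k1
    have k4 := Submodule.finrank_mono k3
    unfold Matrix.rank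
    omega
  · have k1 : ((Q i - Q j) * P).rank ≤ m := 
      (rank_mul_le_right _ _).trans ((rank_le_card_height P).trans_eq (Fintype.card_fin m))
    have k2 : (A.1 * ((Q i - Q j) * P) * (A⁻¹).1).rank ≤ m :=
      (rank_mul_le_left _ _).trans ((rank_mul_le_right _ _).trans k1)
    have k3 := PT.rank_sub_le' (A.1 * ((Q i - Q j) * P) * (A⁻¹).1) ((Q i - Q j) * P)
    omega

end Pool.Agent.Lib.MP_679d9b_al.KG
end

-- part Pool.Agent.Lib.MP_679d9b_al.KG.Pmc
section

/-!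
Matrices far from scalars have a small fixed point ratio.
-/

set_option autoImplicit false

namespace Pool.Agent.Lib.MP_679d9b_al.KG

open Subgroup Matrix Finset
open PT (SL PSL)

namespace Pmc

open Classical in
/-- Double counting. -/
theorem dc {W G : Type} [Fintype W] [Fintype G] [Nonempty W] (r : W → G → Prop) (c : ℕ)
    (h : ∀ w, Fintype.card G ≤ c * #{g | r w g}) :
    Fintype.card G ≤ 2 * c * #{g | Fintype.card W ≤ 2 * c * #{w | r w g}} := by
  have h1 : Fintype.card W * Fintype.card G ≤ c * ∑ g, #{w | r w g} := by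
    have : ∑ g, #{w | r w g} = ∑ w, #{g | r w g} := by
      simp only [card_filter]
      exact sum_comm
    rw [this, mul_sum, ← smul_eq_mul, ← card_univ, ← sum_const]
    exact sum_le_sum fun w _ => h w
  have h2 : ∀ g, 2 * c * #{w | r w g} ≤ 2 * c * Fintype.card W *
      (if Fintype.card W ≤ 2 * c * #{w | r w g} then 1 else 0) + Fintype.card W := fun g => by
    split_ifs with a
    · rw [mul_one]
      exact (Nat.mul_le_mul_left _ (card_le_univ _)).trans (Nat.le_add_right _ _)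
    · omega
  have h3 := sum_le_sum fun g (_ : g ∈ (univ : Finset G)) => h2 g
  rw [sum_add_distrib, ← mul_sum, ← mul_sum, ← card_filter, sum_const, card_univ, smul_eq_mul] at h3
  refine Nat.le_of_mul_le_mul_left ?_ (Fintype.card_pos (α := W))
  nlinarith

/-- Additive subgroups of small index contain subspaces of small codimension. -/
theorem subsp {K W : Type} [Field K] [Finite K] [AddCommGroup W] [Module K W] [Finite W]
    (W0 : AddSubgroup W) (e : ℕ) (h : Nat.card W ≤ e * Nat.card W0) :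
    ∃ Q : Submodule K W, (∀ v ∈ Q, v ∈ W0) ∧ Module.finrank K W ≤ Module.finrank K Q + e := by
  obtain ⟨p, hp⟩ := CharP.exists K
  have pp : p.Prime := CharP.char_is_prime K p
  have : Fact p.Prime := ⟨pp⟩
  let _ := ZMod.algebra K p
  let b := Module.finBasis (ZMod p) K
  let Q : Submodule K W :=
    { carrier := {v | ∀ a : K, a • v ∈ W0}
      zero_mem' := fun a => by rw [smul_zero]; exact zero_mem _
      add_mem' := fun h1 h2 a => by rw [smul_add]; exact add_mem (h1 a) (h2 a)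
      smul_mem' := fun a v h1 a' => by rw [smul_smul]; exact h1 _ }
  refine ⟨Q, fun v hv => one_smul K v ▸ hv 1, ?_⟩
  let f : W →+ (Fin (Module.finrank (ZMod p) K) → W ⧸ W0) :=
    AddMonoidHom.pi fun i => (QuotientAddGroup.mk' W0).comp (DistribSMul.toAddMonoidHom W (b i))
  have h1 : ∀ v ∈ f.ker, v ∈ Q := fun v hv a => by
    rw [← b.sum_repr a, sum_smul]
    refine sum_mem fun i _ => ?_
    rw [← ZMod.natCast_zmod_val (b.repr a i), Nat.cast_smul_eq_nsmul, smul_assoc]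
    exact nsmul_mem ((QuotientAddGroup.eq_zero_iff _).1 (congrFun hv i)) _
  have h2 : Nat.card f.ker ≤ Nat.card Q :=
    Nat.card_le_card_of_injective (fun v => ⟨v.1, h1 v.1 v.2⟩) fun a b hab =>
      Subtype.ext (congrArg Subtype.val hab :)
  have h3 : W0.index ≤ e := by
    rw [← W0.card_mul_index, mul_comm e] at h
    exact Nat.le_of_mul_le_mul_left h Nat.card_pos
  have h4 : f.ker.index ≤ e ^ Module.finrank (ZMod p) K := by
    rw [AddSubgroup.index_ker]
    refine (Finite.card_subtype_le _).trans ?_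
    rw [Nat.card_fun, Nat.card_fin]
    exact Nat.pow_le_pow_left h3 _
  have h5 := Nat.mul_le_mul h2 h4
  rw [AddSubgroup.card_mul_index, Module.natCard_eq_pow_finrank (K := K) (V := W),
    Module.natCard_eq_pow_finrank (K := K) (V := Q),
    Module.natCard_eq_pow_finrank (K := ZMod p) (V := K), Nat.card_zmod, ← pow_mul, ← pow_mul,
    mul_comm, mul_comm _ (Module.finrank K Q), pow_mul, pow_mul, ← mul_pow,
    Nat.pow_le_pow_iff_left Module.finrank_pos.ne'] at h5
  refine (Nat.pow_le_pow_iff_right pp.one_lt).1 (h5.trans ?_)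
  rw [pow_add]
  exact Nat.mul_le_mul_left _ (Nat.lt_pow_self pp.one_lt).le

variable {ι K : Type} [Fintype ι] [DecidableEq ι] [Field K]

theorem trans1 {v w : ι → K} (hv : v ≠ 0) (h : ∀ c : K, c • v ≠ w) :
    ∃ a : SL ι K, a.1 *ᵥ v = w := by
  obtain ⟨f, h1, -, h2⟩ := PT.SLn.ex_dual (v := v) (a := w - v) (w := 0) (by
    rintro ⟨c, d, e⟩
    rw [smul_zero, add_zero] at e
    have hc : c ≠ 0 := by
      rintro rfl
      exact hv (by rw [← e, zero_smul])
    refine h (c⁻¹ + 1) ?_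
    rw [add_smul, one_smul, ← eq_sub_iff_add_eq]
    nth_rewrite 1 [← e]
    rw [inv_smul_smul₀ hc])
  exact ⟨PT.SLn.tv _ f h1, by rw [PT.SLn.tv_mulVec, h2, one_smul, add_sub_cancel]⟩

theorem trans2 [Nontrivial ι] {v w : ι → K} (hv : v ≠ 0) (hw : w ≠ 0) :
    ∃ a : SL ι K, a.1 *ᵥ v = w := by
  by_cases h : ∀ c : K, c • v ≠ w
  · exact trans1 hv h
  push Not at h
  obtain ⟨c, rfl⟩ := h
  obtain ⟨u, hu⟩ := Submodule.exists_of_finrank_lt (K ∙ v) (by
    rw [finrank_span_singleton hv, Module.finrank_fintype_fun_eq_card]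
    exact Fintype.one_lt_card)
  have h0 : u ≠ 0 := by
    rintro rfl
    exact hu 1 one_ne_zero (by simp)
  obtain ⟨a, ha⟩ := trans1 (w := u) hv fun d e =>
    hu 1 one_ne_zero (by rw [one_smul]; exact Submodule.mem_span_singleton.2 ⟨d, e⟩)
  obtain ⟨b, hb⟩ := trans1 (w := c • v) h0 fun d e =>
    hu d (by rintro rfl; exact hw (by rw [← e, zero_smul]))
      (Submodule.mem_span_singleton.2 ⟨c, e.symm⟩)
  exact ⟨b * a, by rw [PT.SLn.mul_val, ← mulVec_mulVec, ha, hb]⟩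

theorem inv_mulVec (h : SL ι K) (v : ι → K) : (h⁻¹).1 *ᵥ (h.1 *ᵥ v) = v := by
  rw [mulVec_mulVec, PT.SLn.val_inv_mul, one_mulVec]

theorem mulVec_inv (h : SL ι K) (v : ι → K) : h.1 *ᵥ ((h⁻¹).1 *ᵥ v) = v := by
  rw [mulVec_mulVec, PT.SLn.val_mul_inv, one_mulVec]

open Classical in
theorem count [Nontrivial ι] [Fintype K] {v : ι → K} (hv : v ≠ 0) (Z : Submodule K (ι → K)) :
    #{h : SL ι K | h.1 *ᵥ v ∈ Z} * (Fintype.card K ^ Fintype.card ι - 1) ≤
      Fintype.card (SL ι K) * Fintype.card K ^ Module.finrank K Z := by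
  have h1 : ∀ z w : ι → K, w ≠ 0 →
      #{h : SL ι K | h.1 *ᵥ v = z} ≤ #{h : SL ι K | h.1 *ᵥ v = w} := fun z w hw => by
    by_cases hz : z = 0
    · rw [filter_false_of_mem, card_empty]
      · exact Nat.zero_le _
      · intro h _ e
        exact hv (by rw [← inv_mulVec h v, e, hz, mulVec_zero])
    obtain ⟨a, ha⟩ := trans2 hz hw
    refine card_le_card_of_injOn (a * ·) (fun h hh => ?_) (mul_right_injective a).injOn
    simp only [coe_filter, mem_univ, true_and, Set.mem_setOf_eq] at hh ⊢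
    rw [PT.SLn.mul_val, ← mulVec_mulVec, hh, ha]
  have h2 : ∀ z : ι → K, #{h : SL ι K | h.1 *ᵥ v = z} * (Fintype.card K ^ Fintype.card ι - 1) ≤
      Fintype.card (SL ι K) := fun z => by
    rw [← card_univ (α := SL ι K), card_eq_sum_card_fiberwise (f := fun h : SL ι K => h.1 *ᵥ v)
      (s := univ) (t := univ) fun _ _ => mem_univ _, ← Fintype.card_fun, ← card_univ,
      ← card_erase_of_mem (mem_univ (0 : ι → K)), mul_comm, ← smul_eq_mul, ← sum_const]
    exact (sum_le_sum fun w hw => h1 z w (ne_of_mem_erase hw)).trans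
      (sum_le_sum_of_subset (erase_subset _ _))
  rw [card_eq_sum_card_fiberwise (f := fun h : SL ι K => h.1 *ᵥ v) (t := {z | z ∈ Z})
    fun _ hh => by simpa using hh, sum_mul, ← Module.card_eq_pow_finrank, mul_comm,
    Fintype.card_subtype, ← smul_eq_mul, ← sum_const]
  refine sum_le_sum fun z _ => le_trans (Nat.mul_le_mul_right _ (card_le_card fun h hh => ?_)) (h2 z)
  simp only [mem_filter, mem_univ, true_and] at hh ⊢
  exact hh.2

theorem arith {q n a c G D B : ℕ} (hq : 2 ≤ q) (hn : a + (c + 2) ≤ n) (hG : 0 < G)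
    (hD : G ≤ c * D) (hB : B * (q ^ n - 1) ≤ G * q ^ a) : B < D := by
  by_contra hc
  have h1 : G * (q ^ n - 1) ≤ G * (c * q ^ a) := by
    calc G * (q ^ n - 1) ≤ c * B * (q ^ n - 1) :=
          Nat.mul_le_mul_right _ (hD.trans (Nat.mul_le_mul_left _ (not_lt.1 hc)))
      _ ≤ c * (G * q ^ a) := by rw [mul_assoc]; exact Nat.mul_le_mul_left _ hB
      _ = _ := by ring
  have h2 := Nat.le_of_mul_le_mul_left h1 hG
  have h3 : q ^ a * (c + 2) ≤ q ^ n := by
    refine le_trans ?_ (Nat.pow_le_pow_right (by omega) hn)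
    rw [pow_add]
    exact Nat.mul_le_mul_left _ (Nat.lt_pow_self hq).le
  have h4 : 0 < q ^ a := by positivity
  have h5 : q ^ a * (c + 2) = c * q ^ a + 2 * q ^ a := by ring
  omega

/-- The preimage of a subspace. -/
def cm (h : SL ι K) (U : Submodule K (ι → K)) : Submodule K (ι → K) := U.comap h.1.mulVecLin

theorem mem_cm {h : SL ι K} {U : Submodule K (ι → K)} {v : ι → K} : v ∈ cm h U ↔ h.1 *ᵥ v ∈ U :=
  Iff.rfl

theorem finrank_cm (h : SL ι K) (U : Submodule K (ι → K)) :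
    Module.finrank K (cm h U) = Module.finrank K U :=
  (LinearEquiv.ofSubmodule' (SpecialLinearGroup.toLin' h) U).finrank_eq

open Classical in
theorem genA [Nontrivial ι] [Fintype K] {D : Finset (SL ι K)} {c : ℕ}
    (hD : Fintype.card (SL ι K) ≤ c * #D) (U Y : Submodule K (ι → K))
    (hn : Module.finrank K Y + Module.finrank K U + (c + 2) ≤ Fintype.card ι) :
    ∃ h ∈ D, Disjoint (cm h U) Y := by
  let B : Finset (SL ι K) := (({v | v ∈ Y} : Finset (ι → K)).erase 0).biUnion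
    fun v => {h : SL ι K | h.1 *ᵥ v ∈ U}
  have hB : #B * (Fintype.card K ^ Fintype.card ι - 1) ≤
      Fintype.card (SL ι K) * Fintype.card K ^ (Module.finrank K Y + Module.finrank K U) := by
    refine (Nat.mul_le_mul_right _ card_biUnion_le).trans ?_
    rw [sum_mul]
    refine (sum_le_card_nsmul _ _ _ fun v hv => count (ne_of_mem_erase hv) U).trans ?_
    rw [smul_eq_mul, pow_add, ← Module.card_eq_pow_finrank (V := Y), mul_left_comm,
      Fintype.card_subtype]
    exact Nat.mul_le_mul_left _ (Nat.mul_le_mul_right _ card_erase_le)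
  obtain ⟨h, h1, h2⟩ := exists_mem_notMem_of_card_lt_card
    (arith Fintype.one_lt_card hn Fintype.card_pos hD hB)
  refine ⟨h, h1, Submodule.disjoint_def.2 fun v a b => by_contra fun e => h2 ?_⟩
  exact mem_biUnion.2 ⟨v, mem_erase.2 ⟨e, by simpa using b⟩, by simpa using mem_cm.1 a⟩

open Classical in
theorem genB [Nontrivial ι] [Fintype K] {D : Finset (SL ι K)} {c : ℕ}
    (hD : Fintype.card (SL ι K) ≤ c * #D) (M : Matrix ι ι K) (hM : c + 2 ≤ M.rank)
    {Y : Submodule K (ι → K)} (hY : Y ≠ ⊤) :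
    ∃ h ∈ D, ¬ cm h (LinearMap.range M.mulVecLin) ≤ Y := by
  obtain ⟨f, hf, hf'⟩ := Submodule.exists_le_ker_of_lt_top Y hY.lt_top
  obtain ⟨φ, rfl⟩ := (dotProductEquiv K ι).surjective f
  have h0 : φ ≠ 0 := fun e => hf (by rw [e, map_zero])
  have hk := LinearMap.finrank_range_add_finrank_ker Mᵀ.mulVecLin
  rw [← rank, rank_transpose, Module.finrank_fintype_fun_eq_card] at hk
  have hB := count h0 (LinearMap.ker Mᵀ.mulVecLin)
  have hlt := arith Fintype.one_lt_card (by omega) Fintype.card_pos hD hB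
  by_contra hc
  push Not at hc
  refine hlt.not_ge (card_le_card_of_injOn (fun h => h⁻¹.transpose) (fun h hh => ?_) ?_)
  · simp only [coe_filter, mem_univ, true_and, Set.mem_setOf_eq, LinearMap.mem_ker,
      mulVecLin_apply, SpecialLinearGroup.coe_transpose, mulVec_transpose]
    refine (dotProduct_eq_zero_iff (R := K)).1 fun w => ?_
    rw [← dotProduct_mulVec, ← dotProduct_mulVec]
    exact hf' (hc h hh (mem_cm.2 ⟨w, (mulVec_inv h _).symm⟩))
  · intro a _ b _ e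
    exact inv_injective (Subtype.ext (transpose_injective (congrArg Subtype.val e :)))

theorem ginv (M : Matrix ι ι K) : ∃ S : Matrix ι ι K,
    ∀ u ∈ LinearMap.range M.mulVecLin, M *ᵥ (S *ᵥ u) = u := by
  obtain ⟨s, hs⟩ := M.mulVecLin.rangeRestrict.exists_rightInverse_of_surjective
    (LinearMap.range_rangeRestrict _)
  obtain ⟨t, ht⟩ := s.exists_extend
  refine ⟨LinearMap.toMatrix' t, fun u hu => ?_⟩
  rw [LinearMap.toMatrix'_mulVec]
  have h1 : t u = s ⟨u, hu⟩ := LinearMap.congr_fun ht ⟨u, hu⟩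
  rw [h1]
  exact congrArg Subtype.val (LinearMap.congr_fun hs ⟨u, hu⟩)

variable {U U1 : Submodule K (ι → K)}

theorem hm_mul {a b : Matrix ι ι K} (ha : a ∈ Hm U U1) (hb : ∀ w, b *ᵥ w ∈ U) : a * b = 0 :=
  mulVec_injective (funext fun w => by rw [← mulVec_mulVec, ha.1 _ (hb w), zero_mulVec])

theorem hm_conj (h : SL ι K) {a : Matrix ι ι K} (ha : a ∈ Hm U U1) :
    (h⁻¹).1 * a * h.1 ∈ Hm (cm h U) (cm h U1) :=
  ⟨fun u hu => by rw [← mulVec_mulVec, ← mulVec_mulVec, ha.1 _ (mem_cm.1 hu), mulVec_zero],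
    fun w => by
      rw [mem_cm, ← mulVec_mulVec, ← mulVec_mulVec, mulVec_inv]
      exact ha.2 _⟩

theorem hm_conj' (h : SL ι K) {a : Matrix ι ι K} (ha : a ∈ Hm (cm h U) (cm h U1)) :
    h.1 * a * (h⁻¹).1 ∈ Hm U U1 :=
  ⟨fun u hu => by
      rw [← mulVec_mulVec, ← mulVec_mulVec, ha.1 _ (by rwa [mem_cm, mulVec_inv]), mulVec_zero],
    fun w => by
      rw [← mulVec_mulVec, ← mulVec_mulVec]
      exact ha.2 _⟩

theorem conj_inj (h : SL ι K) {a b : Matrix ι ι K} (e : h.1 * a * (h⁻¹).1 = h.1 * b * (h⁻¹).1) :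
    a = b := by
  have := congrArg (fun x => (h⁻¹).1 * x * h.1) e
  simpa only [Matrix.mul_assoc, PT.SLn.val_inv_mul, Matrix.mul_one, ← Matrix.mul_assoc (h⁻¹).1 h.1,
    Matrix.one_mul] using this

/-- The unipotent element `1 + a`. -/
def un (hU : U1 ≤ U) (a : Hm U U1) : SL ι K :=
  ⟨1 + a.1, PT.det_one_add_nil ⟨2, by rw [pow_two]; exact hm_mul a.2 fun w => hU (a.2.2 w)⟩⟩

theorem un_add (hU : U1 ≤ U) (a b : Hm U U1) : un hU (a + b) = un hU a * un hU b :=
  Subtype.ext (by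
    change 1 + (a.1 + b.1) = (1 + a.1) * (1 + b.1)
    rw [add_mul, mul_add, mul_add, hm_mul a.2 fun w => hU (b.2.2 w)]
    simp only [one_mul, mul_one]
    abel)

theorem un_zero (hU : U1 ≤ U) : un hU 0 = 1 := Subtype.ext (add_zero _)

theorem un_neg (hU : U1 ≤ U) (a : Hm U U1) : un hU (-a) = (un hU a)⁻¹ :=
  eq_inv_of_mul_eq_one_left (by rw [← un_add, neg_add_cancel, un_zero])

/-- The matrices `a` with `1 + a ∈ T`. -/
def W0 (hU : U1 ≤ U) (T : Subgroup (SL ι K)) : AddSubgroup (Hm U U1) where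
  carrier := {a | un hU a ∈ T}
  zero_mem' := by
    change un hU 0 ∈ T
    rw [un_zero]
    exact one_mem _
  add_mem' := fun {a b} ha hb => by
    change un hU (a + b) ∈ T
    rw [un_add]
    exact mul_mem ha hb
  neg_mem' := fun {a} ha => by
    change un hU (-a) ∈ T
    rw [un_neg]
    exact inv_mem ha

open Classical in
theorem good [Fintype K] (hU : U1 ≤ U) (T : Subgroup (SL ι K)) (g h : SL ι K) (e : ℕ)
    (hc : Fintype.card (Hm U U1) ≤ e * #{a : Hm U U1 | h⁻¹ * (un hU a * g) * h ∈ T}) :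
    ∃ Q : Submodule K (Matrix ι ι K), Q ≤ Hm (cm h U) (cm h U1) ∧
      Module.finrank K (Hm (cm h U) (cm h U1)) ≤ Module.finrank K Q + e ∧
      ∀ A : SL ι K, A.1 - 1 ∈ Q → A ∈ T := by
  have hU' : cm h U1 ≤ cm h U := Submodule.comap_mono hU
  obtain ⟨a0, h0⟩ : ({a : Hm U U1 | h⁻¹ * (un hU a * g) * h ∈ T} : Finset _).Nonempty := by
    refine card_pos.1 (Nat.pos_of_ne_zero fun e0 => ?_)
    rw [e0, mul_zero] at hc
    exact Fintype.card_pos.not_ge hc
  have h1 : Nat.card (Hm (cm h U) (cm h U1)) ≤ Nat.card (Hm U U1) :=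
    Nat.card_le_card_of_injective (fun a => ⟨_, hm_conj' h a.2⟩) fun a b hab =>
      Subtype.ext (conj_inj h (congrArg Subtype.val hab :))
  have h2 : ∀ a : Hm U U1, un hU' ⟨_, hm_conj h a.2⟩ = h⁻¹ * un hU a * h := fun a =>
    Subtype.ext (by
      change 1 + (h⁻¹).1 * a.1 * h.1 = (h⁻¹).1 * (1 + a.1) * h.1
      rw [mul_add, add_mul, mul_one, PT.SLn.val_inv_mul])
  have h3 : #{a : Hm U U1 | h⁻¹ * (un hU a * g) * h ∈ T} ≤ Nat.card (W0 hU' T) := by
    rw [← Nat.card_eq_finsetCard]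
    refine Nat.card_le_card_of_injective (fun a => ⟨⟨_, hm_conj h (a.1 + -a0).2⟩, ?_⟩)
      fun a b hab => ?_
    · change un hU' _ ∈ T
      rw [h2, un_add, un_neg]
      simpa [mul_assoc] using mul_mem (mem_filter.1 a.2).2 (inv_mem (mem_filter.1 h0).2)
    · have := conj_inj h⁻¹ (a := (a.1 + -a0).1) (b := (b.1 + -a0).1)
        (by rw [inv_inv]; exact congrArg (fun x => x.1.1) hab)
      exact Subtype.ext (add_right_cancel (Subtype.ext this))
  obtain ⟨Q, q1, q2⟩ := subsp (K := K) (W0 hU' T) e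
    (h1.trans (Nat.card_eq_fintype_card.le.trans (hc.trans (Nat.mul_le_mul_left _ h3))))
  refine ⟨Q.map (Submodule.subtype _), Submodule.map_subtype_le _ _,
    (Submodule.finrank_map_subtype_eq _ Q).symm ▸ q2, ?_⟩
  rintro A ⟨a, ha, e⟩
  have : A = un hU' a := Subtype.ext (sub_eq_iff_eq_add'.1 e.symm)
  exact this ▸ q1 a ha

open Classical in
theorem main (hs : StrStmt) [Fintype K] {c : ℕ} {g : SL ι K} {T : Subgroup (SL ι K)}
    (h1 : 2 * c + 2 ≤ (g.1 - 1).rank) (h2 : (g.1 - 1).rank ≤ 4 * (2 * c + 2))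
    (hn : 17 * (2 * c + 2) + 2 * c ≤ Fintype.card ι) (hD : Dn c ⊤ g T) : T = ⊤ := by
  have : Nontrivial ι := Fintype.one_lt_card_iff_nontrivial.1 (by omega)
  obtain ⟨S, hS⟩ := ginv (g.1 - 1)
  set U1 := LinearMap.range (g.1 - 1).mulVecLin
  let U := U1 ⊔ U1.map S.mulVecLin
  have hU : U1 ≤ U := le_sup_left
  have r1 : Module.finrank K U1 = (g.1 - 1).rank := rfl
  have r2 : Module.finrank K U ≤ 8 * (2 * c + 2) := by
    have a := Submodule.finrank_add_le_finrank_add_finrank U1 (U1.map S.mulVecLin)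
    have b := Submodule.finrank_map_le S.mulVecLin U1
    change Module.finrank K (U1 ⊔ U1.map S.mulVecLin : Submodule K _) ≤ _
    omega
  have key : ∀ a : Hm U U1, ∃ y : SL ι K, y⁻¹ * g * y = un hU a * g := fun a => by
    have hb : S * a.1 ∈ Hm U U := ⟨fun u hu => by rw [← mulVec_mulVec, a.2.1 u hu, mulVec_zero],
      fun w => Submodule.mem_sup_right ⟨_, a.2.2 w, mulVec_mulVec _ _ _⟩⟩
    refine ⟨un le_rfl ⟨_, hb⟩, ?_⟩
    rw [mul_assoc, inv_mul_eq_iff_eq_mul]
    refine Subtype.ext ?_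
    change g.1 * (1 + S * a.1) = (1 + S * a.1) * ((1 + a.1) * g.1)
    have e1 : (g.1 - 1) * (S * a.1) = a.1 := mulVec_injective (funext fun w => by
      rw [← mulVec_mulVec, ← mulVec_mulVec, hS _ (a.2.2 w)])
    have e2 : a.1 * (g.1 - 1) = 0 := hm_mul a.2 fun w => hU ⟨w, rfl⟩
    have e3 : a.1 * a.1 = 0 := hm_mul a.2 fun w => hU (a.2.2 w)
    rw [mul_sub, mul_one, sub_eq_zero] at e2
    rw [sub_mul, one_mul, sub_eq_iff_eq_add] at e1
    simp only [add_mul, mul_add, one_mul, mul_one, mul_assoc, e1, e2, e3, mul_zero]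
    abel
  have hG : ∀ a : Hm U U1,
      Fintype.card (SL ι K) ≤ c * #{h : SL ι K | h⁻¹ * (un hU a * g) * h ∈ T} := fun a => by
    obtain ⟨y, hy⟩ := key a
    rw [Dn, card_top, Nat.card_eq_fintype_card] at hD
    refine hD.trans (Nat.mul_le_mul_left _ ?_)
    rw [← Set.ncard_coe_finset]
    refine Set.ncard_le_ncard_of_injOn (y⁻¹ * ·) (fun m hm => ?_) (mul_right_injective _).injOn
    simpa [← hy, mul_assoc] using hm.2
  have hD2 := dc _ c hG
  set D : Finset (SL ι K) := {h | Fintype.card (Hm U U1) ≤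
    2 * c * #{a : Hm U U1 | h⁻¹ * (un hU a * g) * h ∈ T}}
  refine hs ι K T (2 * c) (8 * (2 * c + 2) + 2 * c) ((fun h => (cm h U1, cm h U)) '' D) ?_
    (fun Y hY => ?_) fun Y hY => ?_
  · rintro _ ⟨h, hh, rfl⟩
    refine ⟨Submodule.comap_mono hU, ?_, ?_, good hU T g h _ (mem_filter.1 hh).2⟩
    · rw [finrank_cm]
      omega
    · rw [finrank_cm]
      omega
  · obtain ⟨h, a, b⟩ := genA hD2 U Y (by omega)
    exact ⟨_, ⟨h, a, rfl⟩, b⟩
  · obtain ⟨h, a, b⟩ := genB hD2 _ h1 hY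
    exact ⟨_, ⟨h, a, rfl⟩, b⟩

end Pmc

theorem pmcStmt (hp : P1Stmt) (hs : StrStmt) : PmcStmt := by
  intro c
  obtain ⟨c', hc⟩ := hp c
  obtain ⟨N, hN⟩ := hc (2 * c' + 2)
  refine ⟨N + (17 * (2 * c' + 2) + 2 * c'), fun ι K _ _ _ _ A hA T hT => ?_⟩
  have := Fintype.ofFinite K
  have hq := QuotientGroup.mk'_surjective (center (SL ι K))
  obtain ⟨g, h1, h2, h3⟩ := hN ι K A (T.comap (QuotientGroup.mk' _))
    (fun t => (Nat.le_add_right _ _).trans_lt (hA t))
    (Dn.of_map _ (by rw [map_top_of_surjective _ hq]; exact hT))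
  have h4 := Pmc.main hs h1 h2 (by
    have := (hA 0).trans_le (rank_le_card_width _)
    omega) h3
  intro x _
  obtain ⟨y, rfl⟩ := hq x
  exact (h4 ▸ mem_top y : y ∈ T.comap (QuotientGroup.mk' _))

end Pool.Agent.Lib.MP_679d9b_al.KG
end

-- part Pool.Agent.Lib.MP_679d9b_al.KG.QuotAb
section

/-!
Elementary abelian sections as modules, and the abelian case of the regular vector theorem.
-/

set_option autoImplicit false

namespace Pool.Agent.Lib.MP_679d9b_al.KG

open Subgroup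
open scoped commutatorElement

namespace QuotAb

/-- The action on an abelian section. -/
theorem exists_act {H T : Type} [Group H] [Group T] (ι : T →* H) (A Z : Subgroup H)
    (hc : ⁅A, A⁆ ≤ Z) (hA : ∀ t, ∀ a ∈ A, ι t * a * (ι t)⁻¹ ∈ A)
    (hZ : ∀ t, ∀ a ∈ Z, ι t * a * (ι t)⁻¹ ∈ Z) :
    ∃ (W : Type) (_ : CommGroup W) (π : A →* W) (τ : T →* Monoid.End W),
      Function.Surjective π ∧ (∀ a, π a = 1 ↔ (a : H) ∈ Z) ∧
        ∀ t (a : A), τ t (π a) = π ⟨ι t * a * (ι t)⁻¹, hA t a a.2⟩ := by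
  obtain ⟨W, _, π, hs, hπ⟩ := exists_quot A Z hc
  have h : ∀ t, ∃ f : W →* W, ∀ a : A, f (π a) = π ⟨ι t * a * (ι t)⁻¹, hA t a a.2⟩ := fun t =>
    exists_lift hs (π.comp (((MulAut.conj (ι t)).toMonoidHom.comp A.subtype).codRestrict A
      fun a => hA t a a.2)) fun a ha => (hπ _).2 (hZ t a ((hπ a).1 ha))
  choose f hf using h
  refine ⟨W, inferInstance, π, ⟨⟨f, ?_⟩, fun s t => ?_⟩, hs, hπ, hf⟩
  · refine MonoidHom.ext fun w => ?_
    obtain ⟨a, rfl⟩ := hs w
    rw [hf]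
    exact congrArg π (Subtype.ext (by simp))
  · refine MonoidHom.ext fun w => ?_
    obtain ⟨a, rfl⟩ := hs w
    change f (s * t) (π a) = f s (f t (π a))
    rw [hf, hf, hf]
    exact congrArg π (Subtype.ext (by simp [mul_assoc]))

/-- A perfect group acts trivially on a cyclic section. -/
theorem comm_le {H : Type} [Group H] {R A Z : Subgroup H} (hR : ⁅R, R⁆ = R) (hA : A.Normal)
    (hc : ⁅A, A⁆ ≤ Z) (hZ : R ≤ normalizer (Z : Set H)) {y : H} (hy : y ∈ A)
    (hcyc : ∀ x ∈ A, ∃ n : ℕ, x⁻¹ * y ^ n ∈ Z) : ⁅A, R⁆ ≤ Z := by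
  obtain ⟨W, _, π, τ, hs, hπ, hτ⟩ := exists_act R.subtype A Z hc
    (fun t a ha => hA.conj_mem a ha _) fun t a ha => (hZ t.2 a).1 ha
  have hw : ∀ w : W, ∃ n : ℕ, w = π ⟨y, hy⟩ ^ n := fun w => by
    obtain ⟨a, rfl⟩ := hs w
    obtain ⟨n, hn⟩ := hcyc a a.2
    have := (hπ (a⁻¹ * ⟨y, hy⟩ ^ n)).2 hn
    rw [map_mul, map_inv, map_pow, inv_mul_eq_one] at this
    exact ⟨n, this⟩
  have hcomm : ∀ f g : Monoid.End W, f * g = g * f := fun f g => by
    refine MonoidHom.ext fun w => ?_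
    obtain ⟨n, rfl⟩ := hw w
    obtain ⟨i, hi⟩ := hw (f (π ⟨y, hy⟩))
    obtain ⟨j, hj⟩ := hw (g (π ⟨y, hy⟩))
    change f (g _) = g (f _)
    rw [map_pow, map_pow, map_pow, map_pow, hi, hj, map_pow, map_pow, hi, hj, ← pow_mul _ i j,
      ← pow_mul _ j i, mul_comm i j]
  have hk : R ≤ τ.ker.map R.subtype := by
    refine hR.ge.trans (commutator_le.2 fun r hr s hs' => ⟨⁅(⟨r, hr⟩ : R), (⟨s, hs'⟩ : R)⁆, ?_, rfl⟩)
    change τ _ = 1
    rw [commutatorElement_def, map_mul, map_mul, map_mul, hcomm (τ ⟨r, hr⟩), mul_assoc (τ ⟨s, hs'⟩),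
      ← map_mul, mul_inv_cancel, map_one, mul_one, ← map_mul, mul_inv_cancel, map_one]
  rw [commutator_comm]
  refine commutator_le.2 fun r hr a ha => ?_
  obtain ⟨t, ht, rfl⟩ := hk hr
  have h1 := hτ t ⟨a, ha⟩
  rw [MonoidHom.mem_ker.1 ht, Monoid.End.coe_one, id, eq_comm, ← mul_inv_eq_one, ← map_inv π,
    ← map_mul π, hπ] at h1
  exact h1

/-- An additive action on a module over `ZMod l` is linear. -/
theorem exists_lin {l : ℕ} [Fact l.Prime] {T W : Type} [Group T] [AddCommGroup W]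
    [Module (ZMod l) W] (f : T → W →+ W) (h1 : ∀ w, f 1 w = w)
    (h2 : ∀ s t w, f (s * t) w = f s (f t w)) :
    ∃ ρ : T →* Module.End (ZMod l) W, ∀ t w, ρ t w = f t w :=
  ⟨{ toFun := fun t => (f t).toZModLinearMap l
     map_one' := LinearMap.ext h1
     map_mul' := fun s t => LinearMap.ext (h2 s t) }, fun _ _ => rfl⟩

/-- An action on a group of exponent `l` is linear. -/
theorem exists_mod {l : ℕ} [Fact l.Prime] {T W : Type} [Group T] [AddCommGroup W]
    (hW : ∀ x : W, l • x = 0) (f : T → W →+ W) (h1 : ∀ w, f 1 w = w)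
    (h2 : ∀ s t w, f (s * t) w = f s (f t w)) :
    ∃ (_ : Module (ZMod l) W) (ρ : T →* Module.End (ZMod l) W), ∀ t w, ρ t w = f t w :=
  ⟨AddCommGroup.zmodModule hW, @exists_lin l _ T W _ _ (AddCommGroup.zmodModule hW) f h1 h2⟩

end QuotAb

open QuotAb

theorem quotStmt : QuotStmt := by
  intro l _ H T _ _ _ ι A Z _ hc hl hA hZ
  classical
  obtain ⟨W, _, π, τ, hs, hπ, hτ⟩ := exists_act ι A Z hc hA hZ
  have hW : ∀ x : Additive W, l • x = 0 := fun x => by
    obtain ⟨a, ha⟩ := hs x.toMul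
    have h1 : x.toMul ^ l = 1 := by rw [← ha, ← map_pow]; exact (hπ _).2 (hl a a.2)
    exact congrArg Additive.ofMul h1
  have : Finite W := Finite.of_surjective π hs
  obtain ⟨_, ρ, hf⟩ := exists_mod hW (fun t => MonoidHom.toAdditive (τ t))
    (fun w => congrArg Additive.ofMul (DFunLike.congr_fun τ.map_one w.toMul))
    fun s t w => congrArg Additive.ofMul (DFunLike.congr_fun (τ.map_mul s t) w.toMul)
  obtain ⟨p, hp⟩ : ∃ p : H → Additive W, ∀ h (hh : h ∈ A), p h = Additive.ofMul (π ⟨h, hh⟩) :=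
    ⟨fun h => if hh : h ∈ A then Additive.ofMul (π ⟨h, hh⟩) else 0, fun h hh => dif_pos hh⟩
  refine ⟨Additive W, inferInstance, ‹_›, inferInstance, p, ρ,
    fun w => ?_, fun a ha b hb => ?_, fun a ha => ?_, fun t a ha => ?_⟩
  · obtain ⟨a, ha⟩ := hs w.toMul
    exact ⟨a, a.2, by rw [hp _ a.2]; exact congrArg Additive.ofMul ha⟩
  · rw [hp _ ha, hp _ hb, hp _ (A.mul_mem ha hb), ← ofMul_mul, ← map_mul]
    rfl
  · rw [hp _ ha]
    exact hπ ⟨a, ha⟩
  · rw [hp _ ha, hp _ (hA t a ha)]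
    exact (hf _ _).trans (congrArg Additive.ofMul (hτ t ⟨a, ha⟩))

theorem abStmt : AbStmt := by
  intro r _ H K V _ _ _ _ _ ρ R A Φ c hr hρ hI _ hR hA hp hab hc hL
  have hne : ∃ a ∈ A, ρ a ≠ 1 := by
    by_contra h
    push Not at h
    exact hA.ne (eq_bot_iff.2 fun a ha => hρ ((h a ha).trans ρ.map_one.symm))
  obtain ⟨v1, hv1⟩ : ∃ v : V, v ≠ 0 := by
    obtain ⟨a, -, ha⟩ := hne
    by_contra h
    push Not at h
    exact ha (LinearMap.ext fun v => (h _).trans (h _).symm)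
  obtain ⟨K0, ⟨hK0, v0, hv0, hf0⟩, hmax⟩ := Set.exists_max_image
    {P : Subgroup H | P ≤ A ∧ ∃ v : V, v ≠ 0 ∧ Fx ρ P v} (fun P => Nat.card P) (Set.toFinite _)
    ⟨⊥, bot_le, v1, hv1, fun y hy => by rw [mem_bot.1 hy, map_one]; rfl⟩
  have hty : Ty ρ A K0 v0 := ⟨hK0, hf0, fun κ h1 h2 => by
    by_contra h
    exact h1.ne (eq_of_le_of_card_ge h1.le (hmax κ ⟨h2, _, h, fx_av v0⟩))⟩
  have hAA : ⁅A, A⁆ ≤ K0 := commutator_le.2 fun a ha b hb => by
    rw [(hab a ha b hb).commutator_eq]; exact K0.one_mem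
  obtain ⟨y, hy, hcyc⟩ := hty.cyclic hr hp hv0 hAA
  have hnn : ¬ R ≤ normalizer (K0 : Set H) := fun h => by
    have h1 := comm_le hR hA.nrm hAA h hy hcyc
    rw [hA.eq] at h1
    obtain ⟨a, ha, h2⟩ := hne
    exact h2 (hI.eq_one ρ hA.nrm hv0 (fun z hz => hf0 z (h1 hz)) a ha)
  obtain ⟨s, -, hs⟩ := Low.avoid Φ hc hL hnn
  have hmem : ∀ x z : H, z ∈ K0.map (MulAut.conj x).toMonoidHom ↔ x⁻¹ * z * x ∈ K0 :=
    fun x z => mem_map_equiv
  have hle : ∀ x : H, K0.map (MulAut.conj x).toMonoidHom ≤ A := fun x => (hty.conj x).1.trans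
    (map_le_iff_le_comap.2 fun a ha => hA.nrm.conj_mem a ha x)
  refine ⟨ρ s v0, fun h => hv0 ?_, fun _ => K0.map (MulAut.conj s).toMonoidHom,
    fun g hg => ⟨(hle s).trans hA.le, card_ne hr hp (hle s), Or.inl ⟨(hty.conj s).2.1, ?_⟩⟩,
    fun _ _ _ _ x hx z hz => mul_mem (mul_mem hx hz) (inv_mem hx)⟩
  · rw [← Module.End.one_apply (R := K) v0, ← map_one ρ, ← inv_mul_cancel s, map_mul,
      Module.End.mul_apply, h, map_zero]
  · by_contra h
    have h1 := fx_sup_av (P := K0.map (MulAut.conj s).toMonoidHom) (fun x hx z hz => by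
      rw [(hab x (hle _ hx) z (hle _ hz)).eq, mul_inv_cancel_right]; exact hz)
      (hty.conj (g * s)).2.1
    rw [map_mul ρ, Module.End.mul_apply] at h1
    have h2 := hmax _ ⟨sup_le (hle s) (hle (g * s)), _, h, h1⟩
    rw [← card_map_of_injective (K := K0) (f := (MulAut.conj s).toMonoidHom)
      (MulAut.conj s).injective] at h2
    have h3 := le_sup_right.trans (Subgroup.eq_of_le_of_card_ge
      (H := K0.map (MulAut.conj s).toMonoidHom) le_sup_left h2).ge
    refine hs g hg (mem_normalizer_fintype fun n hn => ?_)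
    have h4 := (hmem s _).1 (h3 (mem_map_of_mem (MulAut.conj (g * s)).toMonoidHom hn))
    simpa [mul_assoc] using h4

end Pool.Agent.Lib.MP_679d9b_al.KG
end

-- part Pool.Agent.Lib.MP_679d9b_al.KG.Reg
section

/-!
Good vectors: assembly through the faithful quotient.
-/

set_option autoImplicit false

namespace Pool.Agent.Lib.MP_679d9b_al.KG

open Subgroup
open scoped commutatorElement

namespace Reg

variable {H H' S K V : Type} [Group H] [Group H'] [Group S] [Field K] [AddCommGroup V] [Module K V]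

theorem good_of_map {ι : Type} {ρ : H →* Module.End K V} {ρ' : H' →* Module.End K V} (q : H →* H')
    (e : ∀ y, ρ' (q y) = ρ y) {R : Subgroup H} {t : ι → H} {v : V}
    (h : Good ρ' (R.map q) (fun i => q (t i)) v) : Good ρ R t v := by
  refine ⟨by simpa only [e] using h.1, fun Q _ b hb i i' hi => ?_⟩
  have := h.2 Q b (by
    rintro _ ⟨r, hr, rfl⟩ u w
    rw [e]
    exact hb r hr u w) i i' hi
  simpa only [e] using this

theorem irr_of_map {ρ : H →* Module.End K V} {ρ' : H' →* Module.End K V} (q : H →* H')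
    (e : ∀ y, ρ' (q y) = ρ y) (h : Irr ρ) : Irr ρ' :=
  fun U hU => h U fun g v hv => e g ▸ hU (q g) v hv

/-- The faithful quotient carries the map to `S`. -/
theorem ex_quot {φ : H →* S} {R : Subgroup H} (hd : Hd φ R) (ρ : H →* Module.End K V)
    (hr : ∃ r ∈ R, ρ r ≠ 1) :
    ∃ (φ' : H ⧸ ρ.ker →* S) (ρ' : H ⧸ ρ.ker →* Module.End K V), Function.Injective ρ' ∧
      (∀ y, ρ' (QuotientGroup.mk' ρ.ker y) = ρ y) ∧ ∀ y, φ' (QuotientGroup.mk' ρ.ker y) = φ y := by
  obtain ⟨r, hr, hr1⟩ := hr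
  have hle : ρ.ker ≤ φ.ker := hd.le_ker inferInstance fun h => hr1 (h hr)
  obtain ⟨ρ', h1, h2⟩ := exists_faithful ρ
  exact ⟨QuotientGroup.lift ρ.ker φ hle, ρ', h1, h2, fun y => rfl⟩

theorem ker_eq_map {φ : H →* S} (q : H →* H') (hq : Function.Surjective q) (φ' : H' →* S)
    (e : ∀ y, φ' (q y) = φ y) : φ'.ker = φ.ker.map q := by
  ext x
  constructor
  · intro hx
    obtain ⟨y, rfl⟩ := hq x
    exact ⟨y, (e y).symm.trans hx, rfl⟩
  · rintro ⟨y, hy, rfl⟩
    exact (e y).trans hy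

/-- The faithful case. -/
theorem pat (hAa : AaStmt) (hMr : MrStmt) (hMc : McStmt) (hCmp : CmpStmt) (hAb : AbStmt)
    (hExt : ExtStmt) (n : ℕ) : ∃ k c : ℕ, ∀ (l : ℕ) [Fact l.Prime] (H S K V : Type) [Group H]
    [Finite H] [Group S] [Field K] [CharP K l] [AddCommGroup V] [Module K V] (φ : H →* S)
    (R : Subgroup H) (ρ : H →* Module.End K V) (Φ : Finset H), Hd φ R → Sch (φ.ker ⊓ R) → Irr ρ →
    Function.Injective ρ → (⁅φ.ker, R⁆ : Subgroup H) ≠ ⊥ → Φ.card ≤ n → Φ.Nonempty →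
    (∀ g ∈ Φ, Big φ R k g ∧ Low (R.map φ) (φ g) c) → ∃ v, Pat ρ R Φ v := by
  obtain ⟨c1, hc1⟩ := hCmp n
  obtain ⟨N1, hN1⟩ := hExt n
  obtain ⟨k1, hk1⟩ := hMc (max c1 n)
  obtain ⟨k2, hk2⟩ := hMr (max c1 N1)
  refine ⟨max k1 k2, max c1 n, ?_⟩
  intro l _ H S K V _ _ _ _ _ _ _ φ R ρ Φ hd hs hi hinj hne hn ⟨g0, hg0⟩ hΦ
  have hlow : ∀ g ∈ Φ, Low R g (max c1 n) := fun g hg =>
    hk1 H S φ R g hd hs ((hΦ g hg).1.mono (le_max_left _ _)) (hΦ g hg).2
  have hmr := fun g (hg : g ∈ Φ) => hk2 H S φ R g hd ((hΦ g hg).1.mono (le_max_right _ _))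
  obtain ⟨A, hA, -, hcase⟩ := hAa H S φ R hd hs hne
  obtain ⟨y, hy, hy1⟩ := (A.bot_or_exists_ne_one).resolve_left hA.ne
  have hρ : ρ y ≠ 1 := fun e => hy1 (hinj (e.trans (map_one ρ).symm))
  rcases hcase with ⟨r, hr, hnil⟩ | ⟨J, _, _, L, hL⟩
  · have : Fact r.Prime := ⟨hr⟩
    have : Nontrivial V := by
      by_contra h
      have := not_nontrivial_iff_subsingleton.1 h
      exact hρ (LinearMap.ext fun v => Subsingleton.elim _ _)
    have hrl : (r : K) ≠ 0 := by
      intro h0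
      have hdv := (CharP.cast_eq_zero_iff K l r).1 h0
      have hlr : l = r := (Nat.prime_dvd_prime_iff_eq Fact.out hr).1 hdv
      subst hlr
      exact hρ (PT.Coef.triv_of_simple (p := l) hi A hA.nrm hnil.1 hy)
    by_cases hab : ∀ a ∈ A, ∀ b ∈ A, Commute a b
    · exact hAb r H K V ρ R A Φ (max c1 n) hrl hinj hi hd.nrm hd.perf hA hnil.1 hab
        (hn.trans (le_max_right _ _)) hlow
    · push Not at hab
      exact hN1 r H K V ρ R A Φ hrl hinj hi hd.nrm hA hnil hab hn fun g hg =>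
        (hmr g hg).1.mono (le_max_right _ _)
  · exact hc1 l H K V J ρ R A L Φ hd.nrm hA.le hL ⟨y, hy, hρ⟩ hn
      (fun g hg => (hlow g hg).mono (le_max_left _ _)) ((hmr g0 hg0).2.2.2.mono (le_max_left _ _))

end Reg

open Reg in
theorem regStmt (hAa : AaStmt) (hMr : MrStmt) (hMc : McStmt) (hCmp : CmpStmt) (hAb : AbStmt)
    (hExt : ExtStmt) (hGv : GvStmt) : RegStmt := by
  classical
  intro n
  obtain ⟨k, c, h⟩ := pat hAa hMr hMc hCmp hAb hExt n
  refine ⟨k, c, ?_⟩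
  intro l _ H S K V ι _ _ _ _ _ _ _ _ φ R ρ Φ t hd hs hi ⟨y, hy, hy1⟩ hn hne hΦ ht
  have := hd.nrm
  obtain ⟨φ', ρ', hinj, e1, e2⟩ := ex_quot hd ρ ⟨y, commutator_le_right _ _ hy, hy1⟩
  set q := QuotientGroup.mk' ρ.ker with hq
  have hqs : Function.Surjective q := QuotientGroup.mk'_surjective _
  have hd' := hd.map q hqs φ' e2
  have hmap : (R.map q).map φ' = R.map φ := by
    rw [map_map]
    congr 1
    exact MonoidHom.ext e2
  obtain ⟨v, hv⟩ := h l _ S K V φ' (R.map q) ρ' (Φ.image q) hd' (hs.ker_map q φ' e2)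
    (irr_of_map q e1 hi) hinj (by
      rw [ker_eq_map q hqs φ' e2, ← map_commutator]
      intro h0
      have : q y = 1 := mem_bot.1 (h0 ▸ mem_map_of_mem q hy)
      exact hy1 (by rw [← e1, this, map_one]))
    (Finset.card_image_le.trans hn) (hne.image q) (by
      intro g' hg'
      obtain ⟨g, hg, rfl⟩ := Finset.mem_image.1 hg'
      refine ⟨(hΦ g hg).1.map q φ' e2, ?_⟩
      rw [hmap, e2]
      exact (hΦ g hg).2)
  refine ⟨v, good_of_map q e1 (hGv _ K V ι ρ' (R.map q) (Φ.image q) _ v hd'.nrm hv ?_)⟩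
  intro i i' hii
  obtain ⟨g, hg, z, hz, e⟩ := ht i i' hii
  refine ⟨q g, Finset.mem_image_of_mem q hg, q z, ?_, ?_⟩
  · rw [mem_center_iff] at hz ⊢
    intro x
    obtain ⟨x, rfl⟩ := hqs x
    rw [← map_mul, ← map_mul, hz]
  · rw [← map_inv, ← map_mul, e, map_mul]

open Reg in
theorem raltStmt (hReg : RegStmt) (hCen : CenStmt) (hGv : GvStmt) (hGf : GfStmt)
    (hBig : BigAltStmt) : RaltStmt := by
  classical
  intro F _ _ _
  have := Fintype.ofFinite F
  obtain ⟨k, c, h⟩ := hReg (Fintype.card F)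
  obtain ⟨n1, h1⟩ := hGf c
  obtain ⟨n2, h2⟩ := hBig k
  obtain ⟨n3, h3⟩ := hCen F
  refine ⟨max (max n1 n2) (max n3 5), ?_⟩
  intro l _ H K V Ω _ _ _ _ _ _ _ _ ρ φ j halt hs hfree hn hi hr
  simp only [max_le_iff] at hn
  obtain ⟨⟨a1, a2⟩, a3, a5⟩ := hn
  have hd := hd_R halt a5
  have hsep : ∀ (H' : Type) [Group H'] [DecidableEq H'] (j' : F →* H') (i i' : F), i ≠ i' →
      ∃ g ∈ (Finset.univ.erase (1 : F)).image j', ∃ z ∈ center H', (j' i)⁻¹ * j' i' = g * z := by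
    intro H' _ _ j' i i' hii
    refine ⟨j' (i⁻¹ * i'), Finset.mem_image_of_mem _ (Finset.mem_erase.2
      ⟨fun e => hii (inv_mul_eq_one.1 e), Finset.mem_univ _⟩), 1, one_mem _, ?_⟩
    rw [map_mul, map_inv, mul_one]
  by_cases hc : ∃ y ∈ (⁅φ.ker, Alt.R φ Finset.univ⁆ : Subgroup H), ρ y ≠ 1
  · have hmap : (Alt.R φ Finset.univ).map φ = Alt.AltOn Finset.univ := R_map halt a5
    refine h l H _ K V F φ _ ρ ((Finset.univ.erase (1 : F)).image j) j hd hs hi hc
      (Finset.card_image_le.trans (Finset.card_le_univ _)) ?_ ?_ (hsep H j)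
    · obtain ⟨f, hf⟩ := exists_ne (1 : F)
      exact ⟨j f, Finset.mem_image_of_mem _ (Finset.mem_erase.2 ⟨hf, Finset.mem_univ _⟩)⟩
    · intro g hg
      obtain ⟨f, hf, rfl⟩ := Finset.mem_image.1 hg
      have hf1 : ∀ a, φ (j f) a ≠ a := fun a e => (Finset.mem_erase.1 hf).1 (hfree f a e)
      refine ⟨(h2 H Ω _).1 φ (j f) Finset.univ hmap.ge ?_, ?_⟩
      · have : (φ (j f)).support = Finset.univ :=
          Finset.eq_univ_of_forall fun a => Equiv.Perm.mem_support.2 (hf1 a)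
        rw [this, Finset.inter_self]
        exact a2
      · rw [hmap, altOn_univ]
        exact h1 Ω _ hf1 a1
  · push Not at hc
    obtain ⟨φ', ρ', -, e1, e2⟩ := ex_quot hd ρ hr
    set q := QuotientGroup.mk' ρ.ker with hq
    have hqs : Function.Surjective q := QuotientGroup.mk'_surjective _
    have halt' : alternatingGroup Ω ≤ φ'.range := fun x hx => by
      obtain ⟨y, rfl⟩ := halt hx
      exact ⟨q y, e2 y⟩
    have hR : Alt.R φ' Finset.univ = (Alt.R φ Finset.univ).map q :=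
      (hd_R halt' a5).unique (hd.map q hqs φ' e2)
    obtain ⟨v, hv⟩ := h3 l _ K V Ω ρ' φ' (q.comp j) ((Finset.univ.erase (1 : F)).image (q.comp j))
      halt' (fun f a e => hfree f a (e2 (j f) ▸ e)) a3 (by
        rw [hR, ker_eq_map q hqs φ' e2, ← map_commutator, Subgroup.map_eq_bot_iff, hq,
          QuotientGroup.ker_mk']
        exact fun y hy => hc y hy) (by
        obtain ⟨r, hr, hr1⟩ := hr
        exact ⟨q r, hR ▸ mem_map_of_mem q hr, e1 r ▸ hr1⟩) (by
        intro g hg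
        obtain ⟨f, hf, rfl⟩ := Finset.mem_image.1 hg
        exact ⟨f, (Finset.mem_erase.1 hf).1, rfl⟩)
    have hg := hGv _ K V F ρ' _ _ (q.comp j) v (hd_R halt' a5).nrm hv (hsep _ (q.comp j))
    rw [hR] at hg
    exact ⟨v, good_of_map q e1 hg⟩

end Pool.Agent.Lib.MP_679d9b_al.KG
end
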