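import Mathlib
import Pool.Agent.Lib.MP_679d9b_al.KG.Ty

/-!
Subgroups with many transvections.
-/

set_option autoImplicit false

namespace Pool.Agent.Lib.MP_679d9b_al.KG

open Matrix Module
open PT (SL)

namespace Str

variable {ι K : Type} [Fintype ι] [DecidableEq ι] [Field K] {T : Subgroup (SL ι K)}
  {a b φ ψ : ι → K}

/-- The transvection belongs to `T`. -/
def M (T : Subgroup (SL ι K)) (a φ : ι → K) : Prop := ∃ A ∈ T, A.1 = 1 + vecMulVec a φ

theorem M.ext {a' φ' : ι → K} (h : M T a φ) (e : vecMulVec a φ = vecMulVec a' φ') : M T a' φ' :=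
  let ⟨A, h1, h2⟩ := h; ⟨A, h1, e ▸ h2⟩

theorem M.zero (e : vecMulVec a φ = 0) : M T a φ := ⟨1, T.one_mem, by rw [e, add_zero]; rfl⟩

theorem M.addl (h : M T a φ) (h' : M T b φ) (e : φ ⬝ᵥ b = 0) : M T (a + b) φ := by
  obtain ⟨A, h1, h2⟩ := h
  obtain ⟨B, h3, h4⟩ := h'
  refine ⟨_, T.mul_mem h1 h3, ?_⟩
  rw [PT.SLn.mul_val, h2, h4, mul_add, add_mul, add_mul, vecMulVec_mul_vecMulVec, e,
    add_vecMulVec]
  simp [add_assoc]

theorem M.addr (h : M T a φ) (h' : M T a ψ) (e : φ ⬝ᵥ a = 0) : M T a (φ + ψ) := by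
  obtain ⟨A, h1, h2⟩ := h
  obtain ⟨B, h3, h4⟩ := h'
  refine ⟨_, T.mul_mem h1 h3, ?_⟩
  rw [PT.SLn.mul_val, h2, h4, mul_add, add_mul, add_mul, vecMulVec_mul_vecMulVec, e,
    vecMulVec_add]
  simp [add_assoc]

theorem M.conj (h : M T a ψ) (e : ψ ⬝ᵥ a = 0) (h' : M T b φ) :
    M T (b + (ψ ⬝ᵥ b) • a) (φ - (φ ⬝ᵥ a) • ψ) := by
  obtain ⟨A, h1, h2⟩ := h
  obtain ⟨B, h3, h4⟩ := h'
  obtain rfl : A = PT.SLn.tv a ψ e := Subtype.ext h2
  refine ⟨_, T.mul_mem (T.mul_mem h1 h3) (T.inv_mem h1), ?_⟩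
  rw [PT.SLn.mul_val, PT.SLn.mul_val, h4, mul_add, add_mul, mul_one, PT.SLn.val_mul_inv,
    mul_vecMulVec, vecMulVec_mul, PT.SLn.tv_mulVec, PT.SLn.vecMul_tv_inv]

theorem M.neg (h : M T a φ) (e : φ ⬝ᵥ a = 0) : M T (-a) φ := by
  obtain ⟨A, h1, h2⟩ := h
  obtain rfl : A = PT.SLn.tv a φ e := Subtype.ext h2
  exact ⟨_, T.inv_mem h1, by rw [PT.SLn.tv_inv, neg_vecMulVec, sub_eq_add_neg]⟩

/-- The covectors all of whose multiples give transvections in `T`. -/
def Psi (T : Subgroup (SL ι K)) (a : ι → K) : Submodule K (ι → K) where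
  carrier := {φ | φ ⬝ᵥ a = 0 ∧ ∀ c : K, M T a (c • φ)}
  zero_mem' := ⟨zero_dotProduct a, fun c => M.zero (by simp)⟩
  add_mem' := fun {φ ψ} h h' => ⟨by rw [add_dotProduct, h.1, h'.1, add_zero], fun c => by
    rw [smul_add]
    exact (h.2 c).addr (h'.2 c) (by rw [smul_dotProduct, h.1, smul_zero])⟩
  smul_mem' := fun d φ h => ⟨by rw [smul_dotProduct, h.1, smul_zero], fun c => by
    rw [smul_smul]
    exact h.2 _⟩

/-- The directions all of whose transvections are in `T`. -/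
def Full (T : Subgroup (SL ι K)) : Submodule K (ι → K) where
  carrier := {a | ∀ φ, φ ⬝ᵥ a = 0 → M T a φ}
  zero_mem' := fun φ _ => M.zero (by simp)
  smul_mem' := fun c a h φ e => by
    refine (h (c • φ) ?_).ext (by rw [smul_vecMulVec, vecMulVec_smul])
    rwa [smul_dotProduct, ← dotProduct_smul]
  add_mem' := fun {w a} hw ha θ e => by
    by_cases h : ∃ c d : K, c • a + d • a = w
    · obtain ⟨c, d, rfl⟩ := h
      have k : c • a + d • a + a = (c + d + 1) • a := by module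
      rw [k] at e ⊢
      refine (ha ((c + d + 1) • θ) ?_).ext (by rw [smul_vecMulVec, vecMulVec_smul])
      rwa [smul_dotProduct, ← dotProduct_smul]
    obtain ⟨φ, h1, -, h2⟩ := PT.SLn.ex_dual h
    have := (ha φ h1).conj h1 (hw (θ + (θ ⬝ᵥ a) • φ) (by
      rw [add_dotProduct, smul_dotProduct, h2, smul_eq_mul, mul_one, ← dotProduct_add, e]))
    rwa [h2, one_smul, add_dotProduct, smul_dotProduct, h1, smul_zero, add_zero,
      add_sub_cancel_right] at this

/-- The annihilator. -/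
def An (U : Submodule K (ι → K)) : Submodule K (ι → K) :=
  LinearMap.BilinForm.orthogonal (dotProductBilin K K) U

omit [DecidableEq ι] in
theorem mem_An {U : Submodule K (ι → K)} : φ ∈ An U ↔ ∀ u ∈ U, u ⬝ᵥ φ = 0 := Iff.rfl

omit [DecidableEq ι] in
theorem nd : LinearMap.BilinForm.Nondegenerate (dotProductBilin K K (m := ι) (A := K)) :=
  ⟨fun x h => dotProduct_eq_zero x h,
    fun x h => dotProduct_eq_zero x fun w => (dotProduct_comm _ _).trans (h w)⟩

omit [DecidableEq ι] in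
theorem an_an (U : Submodule K (ι → K)) : An (An U) = U :=
  LinearMap.BilinForm.orthogonal_orthogonal nd (fun x y h => (dotProduct_comm y x).trans h) U

omit [DecidableEq ι] in
theorem rank_An (U : Submodule K (ι → K)) : finrank K (An U) = finrank K (ι → K) - finrank K U :=
  LinearMap.BilinForm.finrank_orthogonal nd U

theorem codim {X Z : Type} [AddCommGroup X] [Module K X] [AddCommGroup Z] [Module K Z]
    [FiniteDimensional K X] [FiniteDimensional K Z] (f : X →ₗ[K] Z) (hf : Function.Injective f)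
    {X0 : Submodule K X} {Q H : Submodule K Z} {e : ℕ} (h1 : ∀ x ∈ X0, f x ∈ H) (h2 : Q ≤ H)
    (h3 : finrank K H ≤ finrank K Q + e) : finrank K X0 ≤ finrank K ↥(X0 ⊓ Q.comap f) + e := by
  have a1 := Submodule.finrank_sup_add_finrank_inf_eq (X0.map f) Q
  have a2 := Submodule.finrank_mono (sup_le (Submodule.map_le_iff_le_comap.2 h1) h2)
  have a3 := (Submodule.equivMapOfInjective f hf X0).finrank_eq
  have a4 := Submodule.finrank_map_le f (X0 ⊓ Q.comap f)
  rw [← Submodule.map_inf_eq_map_inf_comap] at a4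
  omega

omit [DecidableEq ι] in
theorem mem_Hm {U U1 : Submodule K (ι → K)} (ha : a ∈ U1) (h : φ ∈ An U) :
    vecMulVec a φ ∈ Hm U U1 :=
  ⟨fun u hu => by rw [vecMulVec_mulVec, dotProduct_comm, mem_An.1 h u hu]; simp,
    fun w => by rw [vecMulVec_mulVec, op_smul_eq_smul]; exact U1.smul_mem _ ha⟩

theorem psi_of {Q : Submodule K (Matrix ι ι K)} (hQ : ∀ A : SL ι K, A.1 - 1 ∈ Q → A ∈ T)
    (e : φ ⬝ᵥ a = 0) (h : vecMulVec a φ ∈ Q) : φ ∈ Psi T a :=
  ⟨e, fun c => ⟨PT.SLn.tv a (c • φ) (by rw [smul_dotProduct, e, smul_zero]), hQ _ (by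
    change 1 + vecMulVec a (c • φ) - 1 ∈ Q
    rw [add_sub_cancel_left, vecMulVec_smul]
    exact Q.smul_mem c h), rfl⟩⟩

end Str

open Str

theorem strStmt : StrStmt := by
  intro ι K _ _ _ _ T e y F h1 h2 h3
  have key : ∀ p ∈ F, p.1 ≤ Full T := by
    intro p hp a ha
    rcases eq_or_ne a 0 with rfl | a0
    · exact zero_mem _
    obtain ⟨p1, p2, -, Q, q1, q2, q3⟩ := h1 p hp
    have d1 := codim (vecMulVecBilin K K a) (by
      rw [injective_iff_map_eq_zero]
      exact fun φ h => (vecMulVec_eq_zero.1 h).resolve_left a0) (X0 := An p.2)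
      (fun φ h => mem_Hm ha h) q1 q2
    have d2 := Submodule.finrank_mono (show An p.2 ⊓ Q.comap (vecMulVecBilin K K a) ≤ Psi T a from
      fun φ h => psi_of q3 ((dotProduct_comm _ _).trans (h.1 a (p1 ha))) h.2)
    have d3 := rank_An p.2
    obtain ⟨p', hp', dj⟩ := h2 (An (Psi T a)) (by rw [rank_An]; omega)
    obtain ⟨r1, -, r2, Q', s1, s2, s3⟩ := h1 p' hp'
    have k : An (p'.2 ⊔ Submodule.span K {a}) ≤ Psi T a := by
      intro φ hφ
      rcases eq_or_ne φ 0 with rfl | φ0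
      · exact zero_mem _
      have f1 : φ ∈ An p'.2 := fun u hu => hφ u (Submodule.mem_sup_left hu)
      have f2 : φ ⬝ᵥ a = 0 := (dotProduct_comm _ _).trans
        (hφ a (Submodule.mem_sup_right (Submodule.mem_span_singleton_self a)))
      have d4 := codim ((vecMulVecBilin K K).flip φ) (by
        rw [injective_iff_map_eq_zero]
        exact fun b (h : vecMulVec b φ = 0) => (vecMulVec_eq_zero.1 h).resolve_right φ0)
        (X0 := p'.1)
        (fun b h => mem_Hm h f1) s1 s2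
      obtain ⟨b, hb, b0⟩ := Submodule.exists_mem_ne_zero_of_ne_bot
        (p := p'.1 ⊓ Q'.comap ((vecMulVecBilin K K).flip φ)) fun h => by
          rw [h, finrank_bot] at d4
          omega
      have f3 : φ ⬝ᵥ b = 0 := (dotProduct_comm _ _).trans (f1 b (r1 hb.1))
      obtain ⟨ψ, hψ, g1⟩ : ∃ ψ ∈ Psi T a, ψ ⬝ᵥ b ≠ 0 := by
        by_contra! h
        exact b0 (Submodule.disjoint_def.1 dj b (r1 hb.1) h)
      refine ⟨f2, fun c => ?_⟩
      have m1 := (psi_of s3 f3 hb.2).2 (c / ψ ⬝ᵥ b)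
      have m2 := (one_smul K ψ ▸ hψ.2 1 : M T a ψ).conj hψ.1 m1
      have z1 : ((c / ψ ⬝ᵥ b) • φ) ⬝ᵥ b = 0 := by rw [smul_dotProduct, f3, smul_zero]
      rw [smul_dotProduct, f2, smul_zero, zero_smul, sub_zero] at m2
      refine (m2.addl (m1.neg z1) (by rw [dotProduct_neg, z1, neg_zero])).ext ?_
      rw [add_neg_cancel_comm, smul_vecMulVec, ← vecMulVec_smul, smul_smul, mul_div_cancel₀ _ g1]
    have k2 : An (Psi T a) ≤ Submodule.span K {a} := by
      intro z hz
      obtain ⟨u, hu, v, hv, rfl⟩ := Submodule.mem_sup.1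
        ((an_an (p'.2 ⊔ Submodule.span K {a})).le (LinearMap.BilinForm.orthogonal_le k hz))
      have hv' : v ∈ An (Psi T a) :=
        (Submodule.span_singleton_le_iff_mem a _).2 (fun φ h => h.1) hv
      rwa [Submodule.disjoint_def.1 dj u hu ((Submodule.add_mem_iff_left _ hv').1 hz), zero_add]
    intro φ hφ
    have k3 : φ ∈ Psi T a := (an_an _).le (LinearMap.BilinForm.orthogonal_le k2 fun u hu => by
      obtain ⟨c, rfl⟩ := Submodule.mem_span_singleton.1 hu
      exact (dotProduct_comm _ _).trans (by rw [dotProduct_smul, hφ, smul_zero]))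
    exact one_smul K φ ▸ k3.2 1
  have top : Full T = ⊤ := by_contra fun h => let ⟨p, hp, k⟩ := h3 _ h; k (key p hp)
  refine top_le_iff.1 fun A _ => PT.tv_induction (· ∈ T) (fun i j h c => ?_)
    (fun _ _ => T.mul_mem) A
  obtain ⟨B, hB, e⟩ := top.ge (Submodule.mem_top (x := Pi.single i 1)) (Pi.single j c)
    (by simp [h.symm])
  obtain rfl : B = SpecialLinearGroup.transvection h c := Subtype.ext (e.trans (by
    rw [PT.SLn.tv_val]
    congr 1
    ext a b
    simp [vecMulVec_apply, single_apply, Pi.single_apply, ite_and, eq_comm]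
    split_ifs <;> rfl))
  exact hB

end Pool.Agent.Lib.MP_679d9b_al.KG
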