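import Mathlib
import Pool.Agent.Lib.MP_679d9b_al.KG.Ty

-- part Pool.Agent.Lib.MP_679d9b_al.KG.Top
section

/-!
The only composition factor on which an element of minimal rank acts.
-/

set_option autoImplicit false

namespace Pool.Agent.Lib.MP_679d9b_al.KG

open Subgroup Module
open PT (PEl QEl)

namespace Top

theorem pow_exp {R : Type} [Ring R] (T : R) (n : ℕ) :
    ∃ Q, Commute Q T ∧ (T + 1) ^ n - 1 = n • T + T * T * Q := by
  induction n with
  | zero => exact ⟨0, Commute.zero_left _, by simp⟩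
  | succ n ih =>
    obtain ⟨Q, hQ, h⟩ := ih
    refine ⟨n • 1 + T * Q + Q, (((Commute.one_left T).smul_left n).add_left
      ((Commute.refl T).mul_left hQ)).add_left hQ, ?_⟩
    rw [pow_succ', sub_eq_iff_eq_add.1 h, succ_nsmul]
    simp only [mul_add, add_mul, mul_smul_comm, smul_add, mul_one, one_mul, mul_assoc]
    abel

variable {H K W : Type} [Group H] [Field K] [AddCommGroup W] [Module K W]

theorem semi {l : ℕ} [hl : Fact l.Prime] [CharP K l] (ρ : H →* End K W) {t : H} (h : QEl l t) :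
    ∃ Q, ρ t - 1 = (ρ t - 1) * (ρ t - 1) * Q ∧ ρ t - 1 = Q * (ρ t - 1) * (ρ t - 1) := by
  obtain ⟨m, hm, ht⟩ := h
  have hm0 : (m : K) ≠ 0 := fun h =>
    (Nat.Prime.coprime_iff_not_dvd hl.out).1 hm.symm ((CharP.cast_eq_zero_iff K l m).1 h)
  obtain ⟨Q, hQ, h⟩ := pow_exp (ρ t - 1) m
  rw [sub_add_cancel, ← map_pow, ht, map_one, sub_self, ← Nat.cast_smul_eq_nsmul K] at h
  generalize ρ t - 1 = T at hQ h
  have h1 : T = T * T * (-(m : K)⁻¹ • Q) := by
    rw [mul_smul_comm, ← neg_eq_of_add_eq_zero_right h.symm, neg_smul_neg, smul_smul,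
      inv_mul_cancel₀ hm0, one_smul]
  refine ⟨_, h1, ?_⟩
  rw [mul_assoc, ((hQ.mul_right hQ).smul_left _).eq]
  exact h1

theorem mem_of_closure (ρ : H →* End K W) {U U' : Submodule K W}
    (hU : ∀ g, ∀ w ∈ U, ρ g w ∈ U) (hU' : ∀ g, ∀ w ∈ U', ρ g w ∈ U') {s : H}
    (hs : ∀ w ∈ U, ρ s w - w ∈ U') :
    ∀ y ∈ normalClosure {s}, ∀ w ∈ U, ρ y w - w ∈ U' := by
  have hi : ∀ (g : H) (w : W), ρ g (ρ g⁻¹ w) = w := fun g w => by
    rw [← End.mul_apply, ← map_mul, mul_inv_cancel, map_one, End.one_apply]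
  let N : Subgroup H :=
    { carrier := {y | ∀ w ∈ U, ρ y w - w ∈ U'}
      one_mem' := fun w _ => by simp
      mul_mem' := fun {a b} ha hb w hw => by
        have := U'.add_mem (hU' a _ (hb w hw)) (ha w hw)
        rwa [map_sub, sub_add_sub_cancel, ← End.mul_apply, ← map_mul] at this
      inv_mem' := fun {a} ha w hw => by
        have := U'.neg_mem (ha _ (hU a⁻¹ w hw))
        rwa [hi, neg_sub] at this }
  have : N.Normal := ⟨fun y hy g w hw => by
    have := hU' g _ (hy _ (hU g⁻¹ w hw))
    rwa [map_sub, hi, ← End.mul_apply, ← End.mul_apply, ← map_mul, ← map_mul] at this⟩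
  exact fun y hy => normalClosure_le_normal (N := N) (Set.singleton_subset_iff.2 hs) hy

end Top

theorem topStmt : TopStmt := by
  intro l _ H K W _ _ _ _ _ _ _ ρ s hρ hs1 hs hmin
  obtain ⟨A, hA⟩ : ∃ A, A = Br ρ (normalClosure {s}) ⊤ := ⟨_, rfl⟩
  have hsS : s ∈ normalClosure {s} := subset_normalClosure rfl
  have hWA : ∀ y ∈ normalClosure {s}, ∀ w, (ρ y - 1) w ∈ A := fun y hy w =>
    hA ▸ Submodule.subset_span ⟨y, hy, w, trivial, rfl⟩
  have hAi : ∀ g, A ≤ A.comap (ρ g) := fun g => by
    conv_lhs => rw [hA]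
    refine Submodule.span_le.2 ?_
    rintro _ ⟨y, hy, w, -, rfl⟩
    have := hWA _ (normalClosure_normal.conj_mem y hy g) (ρ g w)
    rwa [LinearMap.sub_apply, End.one_apply, ← End.mul_apply, ← map_mul, inv_mul_cancel_right,
      map_mul, End.mul_apply, ← map_sub] at this
  let ω : H →* End K A := Representation.subrepresentation ρ A hAi
  have hA0 : (⊥ : Submodule K A) ≠ ⊤ := fun h => hs1 (hρ (by
    rw [map_one, ← sub_eq_zero]
    refine LinearMap.ext fun w => ?_
    have : (⟨_, hWA s hsS w⟩ : A) ∈ (⊥ : Submodule K A) := h ▸ Submodule.mem_top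
    exact congrArg Subtype.val (Submodule.mem_bot K |>.1 this)))
  obtain ⟨Z, ⟨hZ, hZi⟩, hmax⟩ := set_has_maximal_iff_noetherian.2 (inferInstance : IsNoetherian K A)
    {Z : Submodule K A | Z ≠ ⊤ ∧ ∀ g, Z ≤ Z.comap (ω g)} ⟨⊥, hA0, fun _ => bot_le⟩
  let σ : H →* End K (A ⧸ Z) := Representation.quotient ω Z hZi
  have e1 : ∀ g (a : A), ((ω g a : A) : W) = ρ g a := fun _ _ => rfl
  have e2 : ∀ g (a : A), σ g (Z.mkQ a) = Z.mkQ (ω g a) := fun _ _ => rfl
  have e3 : ∀ g (a : A), (σ g - 1) (Z.mkQ a) = Z.mkQ ((ω g - 1) a) := fun g a => by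
    simp only [LinearMap.sub_apply, End.one_apply, map_sub, e2]
  have e4 : ∀ g (a : A), (((ω g - 1) a : A) : W) = (ρ g - 1) a := fun _ _ => rfl
  have hZ0 : ∀ g, ∀ w ∈ Z.map A.subtype, ρ g w ∈ Z.map A.subtype := by
    rintro g _ ⟨a, ha, rfl⟩
    exact ⟨ω g a, hZi g ha, rfl⟩
  have hker : ∀ a : A, Z.mkQ a = 0 → (a : W) ∈ Z.map A.subtype := fun a h =>
    ⟨a, (Submodule.Quotient.mk_eq_zero Z).1 h, rfl⟩
  have hσs : σ s ≠ 1 := by
    intro h
    obtain ⟨Q, hQ, -⟩ := Top.semi ρ hs
    have h1 := Top.mem_of_closure ρ (U := ⊤) (fun _ _ _ => trivial) hZ0 (s := s) fun w _ => by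
      have := hker ((ω s - 1) ⟨_, hWA s hsS (Q w)⟩) (by rw [← e3, h, sub_self, LinearMap.zero_apply])
      rwa [e4, ← End.mul_apply, ← End.mul_apply, ← hQ] at this
    have h2 : A ≤ Z.map A.subtype := by
      conv_lhs => rw [hA]
      refine Submodule.span_le.2 ?_
      rintro _ ⟨y, hy, w, -, rfl⟩
      exact h1 y hy w trivial
    refine hZ (eq_top_iff.2 fun a _ => ?_)
    obtain ⟨b, hb, e⟩ := h2 a.2
    exact (Subtype.ext e : b = a) ▸ hb
  let π : LinearMap.range (ρ s - 1) →ₗ[K] A ⧸ Z :=
    Z.mkQ ∘ₗ Submodule.inclusion (by rintro _ ⟨w, rfl⟩; exact hWA s hsS w)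
  have hπ : LinearMap.range (σ s - 1) ≤ LinearMap.range π := by
    rintro _ ⟨v, rfl⟩
    obtain ⟨a, rfl⟩ := Z.mkQ_surjective v
    exact ⟨⟨(ρ s - 1) a, a, rfl⟩, (e3 s a).symm⟩
  have h1 : rk (σ s - 1) ≤ finrank K (LinearMap.range π) := Submodule.finrank_mono hπ
  have h2 : finrank K (LinearMap.range π) + finrank K (LinearMap.ker π) = rk (ρ s - 1) :=
    π.finrank_range_add_finrank_ker
  have h3 := hmin _ σ hσs
  have h4 : LinearMap.ker π = ⊥ := Submodule.finrank_eq_zero.1 (by omega)
  have hZs := Top.mem_of_closure ρ (U' := ⊥) hZ0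
    (fun g w hw => by rw [(Submodule.mem_bot K).1 hw, map_zero]; exact Submodule.zero_mem _)
    (s := s) (by
      rintro _ ⟨a, ha, rfl⟩
      have : (⟨(ρ s - 1) a, a, rfl⟩ : LinearMap.range (ρ s - 1)) ∈ LinearMap.ker π :=
        (Submodule.Quotient.mk_eq_zero Z).2 (Z.sub_mem (hZi s ha) ha)
      rw [h4] at this
      exact congrArg Subtype.val ((Submodule.mem_bot K).1 this))
  have hzero : ∀ t ∈ normalClosure {s}, ∀ t' ∈ normalClosure {s}, QEl l t → QEl l t' →
      (σ t - 1) * (σ t' - 1) = 0 → (ρ t - 1) * (ρ t' - 1) = 0 := by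
    intro t ht t' ht' hq hq' h
    obtain ⟨Q, -, hQ⟩ := Top.semi ρ hq
    obtain ⟨Q', hQ', -⟩ := Top.semi ρ hq'
    refine LinearMap.ext fun w => ?_
    have h5 := hker ((ω t - 1) ((ω t' - 1) ⟨_, hWA t' ht' (Q' w)⟩))
      (by rw [← e3, ← e3, ← End.mul_apply, h, LinearMap.zero_apply])
    rw [e4, e4, ← End.mul_apply (ρ t' - 1), ← End.mul_apply _ Q', ← hQ'] at h5
    have h6 : (ρ t - 1) ((ρ t - 1) ((ρ t' - 1) w)) = 0 := hZs t ht _ h5
    rw [End.mul_apply, hQ, End.mul_apply, End.mul_apply, h6, map_zero, LinearMap.zero_apply]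
  refine ⟨A ⧸ Z, inferInstance, inferInstance, inferInstance, σ, fun U hU => ?_, hσs, by omega,
    fun y hy h => ?_, fun t ht t' ht' hq hq' h h' => hρ ?_⟩
  · by_cases ht : U.comap Z.mkQ = ⊤
    · refine Or.inr (eq_top_iff.2 fun v _ => ?_)
      obtain ⟨a, rfl⟩ := Z.mkQ_surjective v
      exact (ht ▸ Submodule.mem_top : a ∈ U.comap Z.mkQ)
    · refine Or.inl (eq_bot_iff.2 fun v hv => ?_)
      obtain ⟨a, rfl⟩ := Z.mkQ_surjective v
      have := (Z.le_comap_mkQ U).eq_of_not_lt
        (hmax _ ⟨ht, fun g b hb => hU g _ hb⟩)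
      exact (Submodule.Quotient.mk_eq_zero Z).2 (this ▸ hv : a ∈ Z)
  · obtain ⟨k, hk⟩ : PEl l (ρ y) := by
      refine PT.pel_of_nil ?_ ⟨3, LinearMap.ext fun w => ?_⟩
      · rw [← map_natCast (algebraMap K (End K W)), CharP.cast_eq_zero, map_zero]
      · exact hZs y hy _ (hker ((ω y - 1) ⟨_, hWA y hy w⟩)
          (by rw [← e3, h, sub_self, LinearMap.zero_apply]))
    exact ⟨k, hρ (by rw [map_pow, hk, map_one])⟩
  · have h5 := hzero t ht t' ht' hq hq' h
    have h6 := hzero t' ht' t ht hq' hq h'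
    rw [map_mul, map_mul, ← sub_eq_zero, ← sub_eq_zero.2 (h5.trans h6.symm)]
    noncomm_ring

end Pool.Agent.Lib.MP_679d9b_al.KG
end

-- part Pool.Agent.Lib.MP_679d9b_al.KG.Zz
section

/-!
Counting over finite fields: generic subspaces, zeros of quadratic maps, isotropic vectors.
-/

set_option autoImplicit false

namespace Pool.Agent.Lib.MP_679d9b_al.KG

open Module

namespace Zz

section Lin
variable {K V X : Type} [Field K] [AddCommGroup V] [Module K V] [FiniteDimensional K V]
  [AddCommGroup X] [Module K X] [FiniteDimensional K X]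

theorem avoid [Finite K] {J : Type} [Finite J] (W : J → Submodule K V) (r : ℕ)
    (h : ∀ j, finrank K (W j) + r ≤ finrank K V) (hJ : Nat.card J < Nat.card K ^ r) :
    ∃ v, ∀ j, v ∉ W j := by
  by_contra hn
  push Not at hn
  have := Fintype.ofFinite J
  have : Finite V := Module.finite_of_finite K
  have h1 : Nat.card V ≤ Nat.card (Σ j, W j) :=
    Nat.card_le_card_of_surjective (fun x => x.2.1) fun v =>
      let ⟨j, hj⟩ := hn v
      ⟨⟨j, v, hj⟩, rfl⟩
  have h2 : ∀ j, Nat.card (W j) * Nat.card K ^ r ≤ Nat.card V := fun j => by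
    rw [natCard_eq_pow_finrank (K := K), natCard_eq_pow_finrank (K := K) (V := V), ← pow_add]
    exact Nat.pow_le_pow_right Nat.card_pos (h j)
  rw [Nat.card_sigma] at h1
  have h3 := Nat.mul_le_mul_right (Nat.card K ^ r) h1
  rw [Finset.sum_mul] at h3
  have h4 := h3.trans (Finset.sum_le_card_nsmul _ _ _ fun j _ => h2 j)
  rw [Finset.card_univ, ← Nat.card_eq_fintype_card, smul_eq_mul, mul_comm] at h4
  exact (Nat.le_of_mul_le_mul_right h4 Nat.card_pos).not_gt hJ

theorem comap_sub (p q : Submodule K V) : finrank K (q.comap p.subtype) ≤ finrank K q :=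
  (Submodule.finrank_map_subtype_eq p _).symm.le.trans
    (Submodule.finrank_mono (Submodule.map_comap_le _ _))

theorem comap_le (f : V →ₗ[K] X) (U : Submodule K X) :
    finrank K (U.comap f) ≤ finrank K U + finrank K (LinearMap.ker f) := by
  rw [← (f.domRestrict (U.comap f)).finrank_range_add_finrank_ker, LinearMap.range_domRestrict,
    LinearMap.ker_domRestrict]
  exact Nat.add_le_add (Submodule.finrank_mono (Submodule.map_comap_le _ _)) (comap_sub _ _)

theorem iSup_le {ι : Type} [Finite ι] (W : ι → Submodule K V) (k : ℕ)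
    (h : ∀ i, finrank K (W i) ≤ k) : finrank K (⨆ i, W i : Submodule K V) ≤ Nat.card ι * k := by
  classical
  have := Fintype.ofFinite ι
  have key : ∀ s : Finset ι, finrank K (s.sup W : Submodule K V) ≤ s.card * k := by
    intro s
    induction s using Finset.induction_on with
    | empty => simp
    | insert i s hi ih =>
      rw [Finset.sup_insert, Finset.card_insert_of_notMem hi, add_mul, one_mul, add_comm]
      exact (Submodule.finrank_add_le_finrank_add_finrank _ _).trans (Nat.add_le_add (h i) ih)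
  rw [← Finset.sup_univ_eq_iSup, Nat.card_eq_fintype_card]
  exact key _

end Lin

theorem count {q c : ℕ} (hq : 2 ≤ q) : c * q + 1 < q ^ (c + 2) := by
  have h1 : c + 1 < q ^ (c + 1) := Nat.lt_pow_self hq
  rw [pow_succ]
  nlinarith

/-- An additive quadratic function on a prime field space is a polynomial of degree two. -/
theorem poly {p : ℕ} [Fact p.Prime] {n : ℕ} (f : (Fin n → ZMod p) → ZMod p)
    (B : (Fin n → ZMod p) →+ (Fin n → ZMod p) →+ ZMod p)
    (h : ∀ x y, f (x + y) = f x + f y + B x y) :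
    f 0 = 0 ∧ ∃ P : MvPolynomial (Fin n) (ZMod p), P.totalDegree ≤ 2 ∧
      ∀ x, MvPolynomial.eval x P = f x := by
  have h0 : f 0 = 0 := by simpa using h 0 0
  have hs : ∀ x y, B x y = B y x := fun x y => by
    have := h x y
    rw [add_comm x y, h y x] at this
    linear_combination -this
  have hd : ∀ x, B x x / 2 + B x x / 2 = B x x := fun x => by
    by_cases h2 : (2 : ZMod p) = 0
    · have e : x + x = 0 := by rw [← two_smul (ZMod p), h2, zero_smul]
      have := h x x
      rw [e, h0, ← two_mul, h2, zero_mul, zero_add] at this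
      simp [← this]
    · field_simp
      ring
  obtain ⟨e, he⟩ : ∃ e : Fin n → Fin n → ZMod p, e = fun i j => if i = j then 1 else 0 :=
    ⟨_, rfl⟩
  obtain ⟨c, hc⟩ : ∃ c : Fin n → Fin n → ZMod p, ∀ i j, c i j + c j i = B (e i) (e j) := by
    refine ⟨fun i j => if i < j then B (e i) (e j) else if i = j then B (e i) (e i) / 2 else 0,
      fun i j => ?_⟩
    rcases lt_trichotomy i j with hij | rfl | hij
    · simp [hij, hij.not_gt, hij.ne']
    · simp [hd]
    · simp [hij, hij.not_gt, hij.ne', hs (e i)]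
  have hlin : ∀ (g : (Fin n → ZMod p) →+ ZMod p) (x : Fin n → ZMod p),
      g x = ∑ i, x i * g (e i) := fun g x => by
    rw [he]
    exact LinearMap.pi_apply_eq_sum_univ (g.toZModLinearMap p) x
  have hB : ∀ x y, B x y = ∑ i, ∑ j, (c i j * (x i * y j) + c i j * (y i * x j)) := by
    intro x y
    simp only [Finset.sum_add_distrib]
    rw [Finset.sum_comm (f := fun i j => c i j * (y i * x j)), ← Finset.sum_add_distrib,
      ← AddMonoidHom.flip_apply B x y, hlin (B.flip y) x]
    refine Finset.sum_congr rfl fun i _ => ?_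
    rw [AddMonoidHom.flip_apply, hlin (B (e i)) y, Finset.mul_sum, ← Finset.sum_add_distrib]
    refine Finset.sum_congr rfl fun j _ => ?_
    rw [← hc]
    ring
  let g : (Fin n → ZMod p) →+ ZMod p := AddMonoidHom.mk'
    (fun x => f x - ∑ i, ∑ j, c i j * (x i * x j)) fun x y => by
      have e1 : ∑ i, ∑ j, c i j * ((x + y) i * (x + y) j) = ∑ i, ∑ j, c i j * (x i * x j) +
          ∑ i, ∑ j, c i j * (y i * y j) +
          ∑ i, ∑ j, (c i j * (x i * y j) + c i j * (y i * x j)) := by
        simp only [← Finset.sum_add_distrib]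
        refine Finset.sum_congr rfl fun i _ => Finset.sum_congr rfl fun j _ => ?_
        simp only [Pi.add_apply]
        ring
      rw [h, e1, ← hB]
      ring
  refine ⟨h0, ∑ i, MvPolynomial.X i * MvPolynomial.C (g (e i)) +
    ∑ i, ∑ j, MvPolynomial.C (c i j) * (MvPolynomial.X i * MvPolynomial.X j), ?_, fun x => ?_⟩
  · refine (MvPolynomial.totalDegree_add _ _).trans (max_le ?_ ?_)
    · refine MvPolynomial.totalDegree_finsetSum_le fun i _ =>
        (MvPolynomial.totalDegree_mul _ _).trans ?_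
      simp
    · refine MvPolynomial.totalDegree_finsetSum_le fun i _ =>
        MvPolynomial.totalDegree_finsetSum_le fun j _ =>
          (MvPolynomial.totalDegree_mul _ _).trans ?_
      rw [MvPolynomial.totalDegree_C, zero_add]
      refine (MvPolynomial.totalDegree_mul _ _).trans ?_
      simp
  · simp only [map_add, map_sum, map_mul, MvPolynomial.eval_X, MvPolynomial.eval_C]
    rw [← hlin g x]
    exact sub_add_cancel _ _

end Zz

theorem zzStmt : ZzStmt := by
  intro c y m
  refine ⟨2 * y + m + c * m + c + 2, ?_⟩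
  intro K X ι _ _ _ _ _ _ g Y X0 hc hY hX0 hN hg
  have key : ∀ k ≤ m, ∃ Z : Submodule K X, Z ≤ X0 ∧ finrank K Z = k ∧ Disjoint Z Y ∧
      ∀ i, ∀ z ∈ Z, ∀ z' ∈ Z, z + g i z' ∈ Y → z = 0 ∧ z' = 0 := by
    intro k
    induction k with
    | zero => exact fun _ => ⟨⊥, bot_le, finrank_bot _ _, disjoint_bot_left,
        fun i z hz z' hz' _ => ⟨hz, hz'⟩⟩
    | succ k ih =>
      intro hk
      obtain ⟨Z, h0, hZ, hd, hz⟩ := ih (by omega)
      obtain ⟨U, hU⟩ : ∃ U, U = (Y ⊔ Z) ⊔ ⨆ i, Z.map (g i) := ⟨_, rfl⟩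
      have hYU : Y ≤ U := hU ▸ le_sup_left.trans le_sup_left
      have hZU : Z ≤ U := hU ▸ le_sup_right.trans le_sup_left
      have hgU : ∀ i, ∀ z ∈ Z, g i z ∈ U := fun i z hz => hU ▸ Submodule.mem_sup_right
        (Submodule.mem_iSup_of_mem i (Submodule.mem_map_of_mem hz))
      have hUd : finrank K U ≤ y + m + c * m := by
        have h1 := Zz.iSup_le (fun i => Z.map (g i)) m fun i =>
          (Submodule.finrank_map_le _ _).trans (by omega)
        have h2 := Submodule.finrank_add_le_finrank_add_finrank Y Z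
        have h3 := Submodule.finrank_add_le_finrank_add_finrank (Y ⊔ Z) (⨆ i, Z.map (g i))
        have h4 := Nat.mul_le_mul_right m hc
        rw [hU]
        omega
      let T : Option (ι × K) → Module.End K X := fun j => j.elim 1 fun a => g a.1 - a.2 • 1
      have hT : ∀ j, 2 * y + m + c * m + c + 2 < finrank K (LinearMap.range (T j)) := by
        rintro (_ | ⟨i, t⟩)
        · rwa [show LinearMap.range (T none) = ⊤ from LinearMap.range_id, finrank_top]
        · exact hg i t
      obtain ⟨⟨v, hv0⟩, hv⟩ := Zz.avoid (V := X0) (fun j => (U.comap (T j)).comap X0.subtype)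
        (c + 2) (fun j => by
          have h1 := Zz.comap_sub X0 (U.comap (T j))
          have h2 := Zz.comap_le (T j) U
          have h3 := (T j).finrank_range_add_finrank_ker
          have h4 := hT j
          omega) (by
          rw [Finite.card_option, Nat.card_prod]
          exact (Nat.add_le_add_right (Nat.mul_le_mul_right _ hc) 1).trans_lt
            (Zz.count Finite.one_lt_card))
      have hv1 : v ∉ U := hv none
      have hv2 : ∀ i (t : K), g i v - t • v ∉ U := fun i t => hv (some (i, t))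
      have hs : ∀ a : K, a • v ∈ U → a = 0 := fun a ha => by
        by_contra h
        exact hv1 ((U.smul_mem_iff h).1 ha)
      have hmem : ∀ z ∈ Z ⊔ Submodule.span K {v}, ∃ w ∈ Z, ∃ a : K, z = w + a • v := by
        intro z hz
        obtain ⟨w, hw, u, hu, rfl⟩ := Submodule.mem_sup.1 hz
        obtain ⟨a, rfl⟩ := Submodule.mem_span_singleton.1 hu
        exact ⟨w, hw, a, rfl⟩
      refine ⟨Z ⊔ Submodule.span K {v}, sup_le h0 ((Submodule.span_singleton_le_iff_mem _ _).2 hv0),
        by rw [Submodule.finrank_sup_span_singleton fun h => hv1 (hZU h), hZ], ?_, ?_⟩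
      · rw [Submodule.disjoint_def]
        intro z hz1 hz2
        obtain ⟨w, hw, a, rfl⟩ := hmem z hz1
        obtain rfl := hs a ((U.add_mem_iff_right (hZU hw)).1 (hYU hz2))
        rw [zero_smul, add_zero] at hz2 ⊢
        exact Submodule.disjoint_def.1 hd w hw hz2
      · intro i z hz1 z' hz2 h
        obtain ⟨w, hw, a, rfl⟩ := hmem z hz1
        obtain ⟨w', hw', a', rfl⟩ := hmem z' hz2
        have h1 : a • v + a' • g i v ∈ U := by
          have := U.sub_mem (U.sub_mem (hYU h) (hZU hw)) (hgU i w' hw')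
          rw [map_add, map_smul] at this
          convert this using 1
          abel
        obtain rfl : a' = 0 := by
          by_contra ha
          refine hv2 i (-(a'⁻¹ * a)) ?_
          have := U.smul_mem a'⁻¹ h1
          rw [smul_add, smul_smul, smul_smul, inv_mul_cancel₀ ha, one_smul] at this
          rwa [neg_smul, sub_neg_eq_add, add_comm]
        rw [zero_smul, add_zero] at h1
        obtain rfl := hs a h1
        simp only [zero_smul, add_zero] at h ⊢
        exact hz i w hw w' hw' h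
  exact key m le_rfl

theorem cwStmt : CwStmt := by
  intro K X ι _ _ _ _ _ _ q b hq hd
  classical
  have := Fintype.ofFinite ι
  have := Fintype.ofFinite K
  obtain ⟨p, hp⟩ := CharP.exists K
  have : Fact p.Prime := ⟨CharP.char_is_prime K p⟩
  let _ : Algebra (ZMod p) K := ZMod.algebra K p
  let _ : Module (ZMod p) X := Module.compHom X (algebraMap (ZMod p) K)
  have : IsScalarTower (ZMod p) K X := ⟨fun a t x => by rw [Algebra.smul_def, mul_smul]; rfl⟩
  have : Finite X := Module.finite_of_finite K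
  let e := (finBasis (ZMod p) X).equivFun.symm
  let κ := finBasis (ZMod p) K
  have hP := fun a : ι × Fin (finrank (ZMod p) K) =>
    Zz.poly (fun x => κ.coord a.2 (q a.1 (e x)))
      (((b a.1).compl₂ e.toLinearMap.toAddMonoidHom |>.compr₂
        (κ.coord a.2).toAddMonoidHom).comp e.toLinearMap.toAddMonoidHom)
      fun x y => by rw [map_add, hq, map_add, map_add]; rfl
  choose h0 P hP1 hP2 using hP
  have h1 : ∑ a, (P a).totalDegree < Fintype.card (Fin (finrank (ZMod p) X)) := by
    refine (Finset.sum_le_card_nsmul _ _ 2 fun a _ => hP1 a).trans_lt ?_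
    rw [Finset.card_univ, Fintype.card_prod, Fintype.card_fin, Fintype.card_fin,
      ← finrank_mul_finrank (ZMod p) K X, smul_eq_mul, ← Nat.card_eq_fintype_card]
    have : 0 < finrank (ZMod p) K := finrank_pos
    nlinarith
  have h2 := char_dvd_card_solutions_of_fintype_sum_lt p h1
  have h3 : 1 < Fintype.card {x // ∀ a, MvPolynomial.eval x (P a) = 0} :=
    (Fact.out : p.Prime).one_lt.trans_le (Nat.le_of_dvd
      (Fintype.card_pos_iff.2 ⟨⟨0, fun a => (hP2 a 0).trans (h0 a)⟩⟩) h2)
  obtain ⟨⟨x, hx⟩, hx0⟩ := Fintype.exists_ne_of_one_lt_card h3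
    ⟨0, fun a => (hP2 a 0).trans (h0 a)⟩
  refine ⟨e x, fun h => hx0 (Subtype.ext (e.map_eq_zero_iff.1 h)), fun i => ?_⟩
  exact κ.forall_coord_eq_zero_iff.1 fun j => (hP2 (i, j) x).symm.trans (hx (i, j))

theorem genStmt (hZ : ZzStmt) (hC : CwStmt) : GenStmt := by
  intro n
  obtain ⟨N, hN⟩ := hZ 1 (4 * n) 3
  refine ⟨N, ?_⟩
  intro K W ι _ _ _ _ _ _ β g hβ hn hg
  classical
  have := Fintype.ofFinite ι
  rw [Nat.card_eq_fintype_card] at hn
  have key : ∀ s : Finset ι, ∃ w : ι → W,
      LinearIndepOn K (Sum.elim w fun i => g i (w i)) {a | a.elim id id ∈ s} ∧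
      ∀ a b : ι ⊕ ι, a.elim id id ∈ s → b.elim id id ∈ s →
        β (Sum.elim w (fun i => g i (w i)) a) (Sum.elim w (fun i => g i (w i)) b) = 0 := by
    intro s
    induction s using Finset.induction_on with
    | empty => exact ⟨0, by simp, by simp⟩
    | insert j s hj ih =>
      obtain ⟨w, hw1, hw2⟩ := ih
      obtain ⟨u, hu⟩ : ∃ u, u = Sum.elim w fun i => g i (w i) := ⟨_, rfl⟩
      rw [← hu] at hw1 hw2
      let φ : W →ₗ[K] (ι ⊕ ι) ⊕ (ι ⊕ ι) → K :=
        LinearMap.pi (Sum.elim (fun a => β (u a)) fun a => β (u a) ∘ₗ g j)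
      obtain ⟨Z, hZ0, hZ3, -, hZ⟩ := hN K W Unit (fun _ => g j) (Submodule.span K (Set.range u))
        (LinearMap.ker φ) (by simp)
        ((finrank_range_le_card u).trans (by rw [Fintype.card_sum]; omega))
        (by
          have h1 := φ.finrank_range_add_finrank_ker
          have h2 := (LinearMap.range φ).finrank_le
          rw [finrank_fintype_fun_eq_card] at h2
          simp only [Fintype.card_sum] at h2
          omega)
        ((hg j 0).trans_le (Submodule.finrank_le _)) fun _ => hg j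
      obtain ⟨⟨v, hv⟩, hv0, hq⟩ := hC K Z Unit (fun _ x => β x (g j x))
        (fun _ => AddMonoidHom.mk' (fun x => AddMonoidHom.mk'
          (fun y => β x (g j y) + β y (g j x)) fun y y' => by simp; ring)
          fun x x' => by ext y; simp; ring)
        (fun _ x y => by simp; ring) (by simp [hZ3])
      have hv0' : v ≠ 0 := fun h => hv0 (Subtype.ext h)
      have hq' : β v (g j v) = 0 := hq ()
      have hk1 : ∀ a, β (u a) v = 0 := fun a => congrFun (hZ0 hv) (Sum.inl a)
      have hk2 : ∀ a, β (u a) (g j v) = 0 := fun a => congrFun (hZ0 hv) (Sum.inr a)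
      refine ⟨Function.update w j v, ?_⟩
      obtain ⟨u', hu'⟩ : ∃ u', u' = Sum.elim (Function.update w j v)
        fun i => g i (Function.update w j v i) := ⟨_, rfl⟩
      rw [← hu']
      have e0 : ∀ a : ι ⊕ ι, a.elim id id ∈ s → u' a = u a := by
        rw [hu, hu']
        rintro (i | i) hi
        · exact Function.update_of_ne (a := i) (ne_of_mem_of_not_mem hi hj) v w
        · exact congrArg (g i) (Function.update_of_ne (a := i) (ne_of_mem_of_not_mem hi hj) v w)
      have e1 : u' (Sum.inl j) = v := by rw [hu', Sum.elim_inl, Function.update_self]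
      have e2 : u' (Sum.inr j) = g j v := by rw [hu', Sum.elim_inr, Function.update_self]
      have hS : ∀ a : ι ⊕ ι, a.elim id id ∈ insert j s ↔
          a = Sum.inl j ∨ a = Sum.inr j ∨ a.elim id id ∈ s := by
        rintro (i | i) <;> simp
      constructor
      · have hle : Submodule.span K (u' '' {a | a.elim id id ∈ s}) ≤
            Submodule.span K (Set.range u) := by
          refine Submodule.span_mono ?_
          rintro _ ⟨a, ha, rfl⟩
          exact ⟨a, (e0 a ha).symm⟩
        have hset : {a : ι ⊕ ι | a.elim id id ∈ insert j s} =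
            insert (Sum.inl j) (insert (Sum.inr j) {a | a.elim id id ∈ s}) := Set.ext hS
        rw [hset]
        refine ((hw1.congr fun a ha => (e0 a ha).symm).insert fun h => hv0' ?_).insert
          fun h => hv0' ?_
        · exact (hZ () 0 Z.zero_mem v hv (by rw [zero_add, ← e2]; exact hle h)).2
        · rw [Set.image_insert_eq, Submodule.mem_span_insert, e1, e2] at h
          obtain ⟨t, z, hz, h⟩ := h
          refine (hZ () v hv (-t • v) (Z.smul_mem _ hv) ?_).1
          rw [map_smul, neg_smul, ← sub_eq_add_neg, sub_eq_of_eq_add' h]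
          exact hle hz
      · intro a b ha hb
        rcases (hS a).1 ha with rfl | rfl | ha <;> rcases (hS b).1 hb with rfl | rfl | hb
        · exact hβ _
        · rw [e1, e2, hq']
        · rw [e1, e0 b hb, ← hβ.neg_eq, hk1, neg_zero]
        · rw [e1, e2, ← hβ.neg_eq, hq', neg_zero]
        · exact hβ _
        · rw [e2, e0 b hb, ← hβ.neg_eq, hk2, neg_zero]
        · rw [e1, e0 a ha, hk1]
        · rw [e2, e0 a ha, hk2]
        · rw [e0 a ha, e0 b hb, hw2 a b ha hb]
  obtain ⟨w, h1, h2⟩ := key Finset.univ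
  exact ⟨w, by simpa [linearIndepOn_univ_iff] using h1,
    fun a b => h2 a b (Finset.mem_univ _) (Finset.mem_univ _)⟩

end Pool.Agent.Lib.MP_679d9b_al.KG
end
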