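import Mathlib
import Pool.Agent.Lib.MP_679d9b_al.KG.Alv


import Pool.Agent.Lib.MP_679d9b_al.KG.Ext
import Pool.Agent.Lib.MP_679d9b_al.KG.Cen
import Pool.Agent.Lib.MP_679d9b_al.KG.Cmp



import Pool.Agent.Lib.MP_679d9b_al.KG.Floc


import Pool.Agent.Lib.MP_679d9b_al.KG.Gf
import Pool.Agent.Lib.MP_679d9b_al.KG.GeoF


import Pool.Agent.Lib.MP_679d9b_al.KG.Key



import Pool.Agent.Lib.MP_679d9b_al.KG.Mr



import Pool.Agent.Lib.MP_679d9b_al.KG.Reg



import Pool.Agent.Lib.MP_679d9b_al.KG.Rk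


import Pool.Agent.Lib.MP_679d9b_al.KG.Str
import Pool.Agent.Lib.MP_679d9b_al.KG.Zz


/-!
All steps together.
-/

set_option autoImplicit false

namespace Pool.Agent.Lib.MP_679d9b_al.KG

theorem mrA : MrStmt := mrStmt jsStmt

theorem kerA : KerStmt := kerStmt aaStmt quotStmt mrA kercStmt

theorem regA : RegStmt :=
  regStmt aaStmt mrA (mcStmt kerA) (cmpStmt wiStmt corStmt) abStmt
    (extStmt quotStmt (genStmt zzStmt cwStmt)) gvStmt

theorem altA : AltStmt :=
  altStmt (richStmt (ml0Stmt aaStmt quotStmt (mcStmt kerA) gfStmt bigAltStmt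
    (raltStmt regA (cenStmt wiStmt corStmt) gvStmt gfStmt bigAltStmt)))
    (keyStmt kerA bigAltStmt) chainStmt

theorem finA : FinCStmt :=
  finCStmt (geoFStmt etaStmt (frameStmt cwStmt))
    (flocStmt topStmt (rkStmt aaStmt) mdsStmt mrA bigAltStmt)

theorem resA : ResStmt := resStmt (geoRStmt zzStmt cwStmt etaStmt (frameStmt cwStmt))

theorem locA : LocStmt := locStmt regA (bigPslStmt zzStmt) (pmcStmt (p1Stmt zzStmt) strStmt)

end Pool.Agent.Lib.MP_679d9b_al.KG
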