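import Mathlib
import Pool.Agent.Lib.MP_679d9b_al.KG.Ty

-- part Pool.Agent.Lib.MP_679d9b_al.KG.Res
section

/-!
From classical levels to linear levels.
-/

set_option autoImplicit false

namespace Pool.Agent.Lib.MP_679d9b_al.KG

open Subgroup Matrix
open scoped commutatorElement
open PT (SL PSL)

namespace Res

/-- A submonoid of a finite group is a subgroup. -/
def toSub {E : Type} [Group E] [Finite E] (M : Submonoid E) : Subgroup E :=
  { M with
    inv_mem' := fun {x} hx =>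
      Submonoid.powers_le.2 hx (mem_powers_iff_mem_zpowers.2 (inv_mem (mem_zpowers x))) }

theorem solv {E : Type} [Group E] {T0 T1 T2 : Subgroup E} (h1 : ⁅T0, T0⁆ ≤ T1)
    (h2 : ⁅T1, T1⁆ ≤ T2) (h3 : ⁅T2, T2⁆ ≤ ⊥) : Group.IsSolvable T0 := by
  have s : ∀ (k : ℕ) (A B : Subgroup E), (derivedSeries T0 k).map T0.subtype ≤ A → ⁅A, A⁆ ≤ B →
      (derivedSeries T0 (k + 1)).map T0.subtype ≤ B := fun k A B a b => by
    rw [derivedSeries_succ, map_commutator]
    exact (commutator_mono a a).trans b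
  refine ⟨3, (map_eq_bot_iff_of_injective _ T0.subtype_injective).1 (le_bot_iff.1
    (s 2 _ _ (s 1 _ _ (s 0 _ _ (map_subtype_le _) h1) h2) h3))⟩

theorem comm_tr {D E X : Type} [Group D] [Group E] [Group X] (f : D →* E) (π : D →* X)
    {A B : Subgroup E} (h : ⁅A, A⁆ ≤ B) :
    ⁅(A.comap f).map π, (A.comap f).map π⁆ ≤ (B.comap f).map π := by
  rw [← map_commutator]
  refine map_mono (commutator_le.2 fun a ha b hb => ?_)
  rw [mem_comap, map_commutatorElement]
  exact h (commutator_mem_commutator ha hb)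

section Flag
variable {K V : Type} [Field K] [AddCommGroup V] [Module K V]

theorem scalar_of_eigen (y : V ≃ₗ[K] V) (U : Submodule K V)
    (h : ∀ u ∈ U, y u ∈ Submodule.span K {u}) : ∃ c : K, ∀ u ∈ U, y u = c • u := by
  by_cases h0 : ∃ w ∈ U, w ≠ 0
  · obtain ⟨w, hw, hne⟩ := h0
    obtain ⟨c, hc⟩ := Submodule.mem_span_singleton.1 (h w hw)
    refine ⟨c, fun u hu => ?_⟩
    obtain ⟨d, hd⟩ := Submodule.mem_span_singleton.1 (h u hu)
    obtain ⟨t, ht⟩ := Submodule.mem_span_singleton.1 (h _ (U.add_mem hu hw))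
    rw [map_add, ← hc, ← hd] at ht
    have e : (d - t) • u = (t - c) • w := by linear_combination (norm := module) -ht
    by_cases k : d - t = 0
    · rw [k, zero_smul, eq_comm, smul_eq_zero, or_iff_left hne, sub_eq_zero] at e
      rw [← hd, sub_eq_zero.1 k, e]
    · have : u = ((d - t)⁻¹ * (t - c)) • w := by
        rw [mul_smul, ← e, inv_smul_smul₀ k]
      rw [this, map_smul, ← hc, smul_comm]
  · push Not at h0
    exact ⟨0, fun u hu => by simp [h0 u hu]⟩

variable [Finite (V ≃ₗ[K] V)]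

/-- The stabiliser of a subspace. -/
def St (A : Submodule K V) : Subgroup (V ≃ₗ[K] V) := toSub
  { carrier := {y | ∀ v ∈ A, y v ∈ A}
    one_mem' := fun _ h => h
    mul_mem' := fun ha hb v h => ha _ (hb v h) }

/-- Maps which are scalar on `A / B`. -/
def Sc (A B : Submodule K V) : Subgroup (V ≃ₗ[K] V) := toSub
  { carrier := {y | y ∈ St B ∧ ∃ c : K, ∀ v ∈ A, y v - c • v ∈ B}
    one_mem' := ⟨one_mem _, 1, fun v _ => by simp⟩
    mul_mem' := fun {a b} ⟨ha, c, hc⟩ ⟨hb, d, hd⟩ => ⟨mul_mem ha hb, d * c, fun v h => by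
      have := B.add_mem (ha _ (hd v h)) (B.smul_mem d (hc v h))
      rwa [map_sub, map_smul, smul_sub, sub_add_sub_cancel, smul_smul] at this⟩ }

/-- Maps which are trivial on `A / B`. -/
def Un (A B : Submodule K V) : Subgroup (V ≃ₗ[K] V) := toSub
  { carrier := {y | y ∈ St B ∧ ∀ v ∈ A, y v - v ∈ B}
    one_mem' := ⟨one_mem _, fun v _ => by simp⟩
    mul_mem' := fun {a b} ⟨ha, hc⟩ ⟨hb, hd⟩ => ⟨mul_mem ha hb, fun v h => by
      have := B.add_mem (ha _ (hd v h)) (hc v h)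
      rwa [map_sub, sub_add_sub_cancel] at this⟩ }

variable {A B C : Submodule K V} {a b : V ≃ₗ[K] V}

theorem comm_un (ha : a ∈ St A) (hb : b ∈ St A) (hc : ⁅a, b⁆ ∈ St C)
    (h : ∀ w ∈ A, a (b w) - b (a w) ∈ C) : ⁅a, b⁆ ∈ Un A C := by
  refine ⟨hc, fun v hv => ?_⟩
  have := h _ ((inv_mem (mul_mem hb ha) : (b * a)⁻¹ ∈ St A) v hv)
  simpa [commutatorElement_def] using this

theorem Sc.st (hB : B ≤ A) (ha : a ∈ Sc A B) : a ∈ St A := fun v hv => by
  obtain ⟨-, c, hc⟩ := ha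
  simpa using A.add_mem (hB (hc v hv)) (A.smul_mem c hv)

theorem Un.st (hB : B ≤ A) (ha : a ∈ Un A B) : a ∈ St A := fun v hv => by
  simpa using A.add_mem (hB (ha.2 v hv)) hv

theorem sc_comm (hB : B ≤ A) (ha : a ∈ Sc A B) (hb : b ∈ Sc A B) : ⁅a, b⁆ ∈ Un A B := by
  refine comm_un (Sc.st hB ha) (Sc.st hB hb) (commutator_le_self _
    (commutator_mem_commutator ha.1 hb.1)) fun w hw => ?_
  obtain ⟨ha, c, hc⟩ := ha
  obtain ⟨hb, d, hd⟩ := hb
  have := B.sub_mem (B.add_mem (ha _ (hd w hw)) (B.smul_mem d (hc w hw)))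
    (B.add_mem (hb _ (hc w hw)) (B.smul_mem c (hd w hw)))
  convert this using 1
  simp only [map_sub, map_smul]
  module

theorem un_comm (hB : B ≤ A) (ha : a ∈ Un A B) (ha' : a ∈ Un B C) (hb : b ∈ Un A B)
    (hb' : b ∈ Un B C) : ⁅a, b⁆ ∈ Un A C := by
  refine comm_un (Un.st hB ha) (Un.st hB hb) (commutator_le_self _
    (commutator_mem_commutator ha'.1 hb'.1)) fun w hw => ?_
  have := C.sub_mem (ha'.2 _ (hb.2 w hw)) (hb'.2 _ (ha.2 w hw))
  convert this using 1
  simp only [map_sub]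
  abel

theorem sc_conj {w : V ≃ₗ[K] V} (hw : w ∈ St B) (hw' : w⁻¹ ∈ St A) (ha : a ∈ Sc A B) :
    w * a * w⁻¹ ∈ Sc A B := by
  obtain ⟨ha, c, hc⟩ := ha
  refine ⟨mul_mem (mul_mem hw ha) (inv_mem hw), c, fun v hv => ?_⟩
  simpa using hw _ (hc _ (hw' v hv))

theorem Scal.sc (h : Scal a) : a ∈ Sc A B := by
  obtain ⟨c, hc⟩ := h
  exact ⟨fun v hv => hc v ▸ B.smul_mem c hv, c, fun v _ => by simp [hc]⟩

theorem solv_flag {D X : Type} [Group D] [Group X] (f : D →* (V ≃ₗ[K] V))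
    (hf : Function.Injective f) (π : D →* X) (hB : B ≤ A) {N : Subgroup X}
    (hN : N ≤ ((Sc B ⊥ ⊓ Sc A B ⊓ Sc ⊤ A).comap f).map π) : Group.IsSolvable N := by
  refine solv (T1 := ((Un B ⊥ ⊓ Un A B ⊓ Un ⊤ A).comap f).map π)
    (T2 := ((Un ⊤ B ⊓ Un B ⊥).comap f).map π) ((commutator_mono hN hN).trans (comm_tr _ _ ?_))
    (comm_tr _ _ ?_) ((comm_tr (B := ⊥) _ _ ?_).trans ?_)
  · exact commutator_le.2 fun a ha b hb => ⟨⟨sc_comm bot_le ha.1.1 hb.1.1,
      sc_comm hB ha.1.2 hb.1.2⟩, sc_comm le_top ha.2 hb.2⟩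
  · exact commutator_le.2 fun a ha b hb => ⟨un_comm le_top ha.2 ha.1.2 hb.2 hb.1.2,
      commutator_le_self _ (commutator_mem_commutator ha.1.1 hb.1.1)⟩
  · refine commutator_le.2 fun a ha b hb => mem_bot.2 (LinearEquiv.ext fun v => ?_)
    exact sub_eq_zero.1 ((un_comm le_top ha.1 ha.2 hb.1 hb.2).2 v trivial)
  · rw [MonoidHom.comap_bot, (MonoidHom.ker_eq_bot_iff f).2 hf, Subgroup.map_bot]

end Flag

section Mat
variable {K V : Type} [Field K] [AddCommGroup V] [Module K V] {m : ℕ} {e : Fin m → V}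

/-- `M` is the matrix of `y` on the span of `e`. -/
def Mt (e : Fin m → V) (y : V ≃ₗ[K] V) (M : Matrix (Fin m) (Fin m) K) : Prop :=
  ∀ j, y (e j) = ∑ i, M i j • e i

variable {y y' : V ≃ₗ[K] V} {M M' : Matrix (Fin m) (Fin m) K}

theorem Mt.mul (h : Mt e y M) (h' : Mt e y' M') : Mt e (y * y') (M * M') := fun j => by
  rw [LinearEquiv.mul_apply, h', map_sum]
  simp only [map_smul, h _, Finset.smul_sum, smul_smul, Matrix.mul_apply, Finset.sum_smul]
  rw [Finset.sum_comm]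
  simp only [mul_comm]

theorem Mt.uniq (he : LinearIndependent K e) (h : Mt e y M) (h' : Mt e y M') : M = M' := by
  ext i j
  exact Fintype.linearIndependent_iffₛ.1 he _ _ ((h j).symm.trans (h' j)) i

theorem mt_scal {c : K} (h : ∀ j, y (e j) = c • e j) : Mt e y (c • 1) := fun j => by
  simp [h, Matrix.one_apply, ite_smul]

theorem mt_one : Mt e (1 : V ≃ₗ[K] V) 1 := by
  simpa using mt_scal (y := (1 : V ≃ₗ[K] V)) (e := e) (c := 1) (by simp)

theorem Mt.mem (h : Mt e y M) : ∀ u ∈ Submodule.span K (Set.range e),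
    y u ∈ Submodule.span K (Set.range e) := by
  refine fun u hu => (Submodule.span_le (p := (Submodule.span K (Set.range e)).comap
    (y : V →ₗ[K] V))).2 ?_ hu
  rintro _ ⟨j, rfl⟩
  change y (e j) ∈ Submodule.span K (Set.range e)
  rw [h j]
  exact Submodule.sum_mem _ fun i _ => Submodule.smul_mem _ _ (Submodule.subset_span ⟨i, rfl⟩)

theorem exists_mt (h : ∀ u ∈ Submodule.span K (Set.range e),
    y u ∈ Submodule.span K (Set.range e)) : ∃ M, Mt e y M := by
  choose c hc using fun j => (Submodule.mem_span_range_iff_exists_fun K).1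
    (h (e j) (Submodule.subset_span ⟨j, rfl⟩))
  exact ⟨Matrix.of fun i j => c j i, fun j => (hc j).symm⟩

theorem Mt.scal {c : K} (h : Mt e y (c • 1)) :
    ∀ u ∈ Submodule.span K (Set.range e), y u = c • u := by
  intro u hu
  obtain ⟨d, rfl⟩ := (Submodule.mem_span_range_iff_exists_fun K).1 hu
  simp [h _, Matrix.one_apply, ite_smul, Finset.smul_sum, smul_smul, mul_comm]

theorem Mt.rank {c t : K} (h : Mt e y (c • M)) :
    Module.finrank K ((Submodule.span K (Set.range e)).map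
      ((y : Module.End K V) - (c * t) • 1)) ≤ (M - t • 1).rank := by
  refine le_trans (Submodule.finrank_mono ?_) (Submodule.finrank_map_le
    (Fintype.linearCombination K e) (LinearMap.range (M - t • 1).mulVecLin))
  rw [Submodule.map_span_le]
  rintro _ ⟨j, rfl⟩
  refine ⟨_, ⟨c • Pi.single j 1, rfl⟩, ?_⟩
  simp [Fintype.linearCombination_apply, h j, sub_smul, smul_sub, Pi.single_apply, ite_smul,
    smul_smul]

theorem mk_eq [NeZero m] (he : LinearIndependent K e) {A A' : SL (Fin m) K} {c c' : K}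
    (h : Mt e y (c • A.1)) (h' : Mt e y (c' • A'.1)) : (A : PSL (Fin m) K) = A' := by
  have e1 := h.uniq he h'
  have c0 : c' ≠ 0 := by
    rintro rfl
    exact he.ne_zero 0 (y.map_eq_zero_iff.1 (by simpa using h' 0))
  have e2 : A'.1 = (c'⁻¹ * c) • A.1 := by rw [mul_smul, e1, inv_smul_smul₀ c0]
  refine QuotientGroup.eq.2 (mem_center_iff.2 fun B => Subtype.ext ?_)
  have : (A⁻¹ * A').1 = (c'⁻¹ * c) • 1 := by
    rw [Matrix.SpecialLinearGroup.coe_mul, e2, Matrix.mul_smul,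
      ← Matrix.SpecialLinearGroup.coe_mul, inv_mul_cancel, Matrix.SpecialLinearGroup.coe_one]
  rw [Matrix.SpecialLinearGroup.coe_mul B, Matrix.SpecialLinearGroup.coe_mul _ B, this]
  simp

theorem exists_comm [Finite (V ≃ₗ[K] V)] (he : LinearIndependent K e)
    (h : y ∈ St (Submodule.span K (Set.range e))) (h' : y' ∈ St (Submodule.span K (Set.range e))) :
    ∃ A : SL (Fin m) K, Mt e ⁅y, y'⁆ A.1 := by
  obtain ⟨M, hM⟩ := exists_mt h
  obtain ⟨M', hM'⟩ := exists_mt h'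
  obtain ⟨W, hW⟩ := exists_mt (commutator_le_self _ (commutator_mem_commutator h h'))
  obtain ⟨Z, hZ⟩ := exists_mt (inv_mem (mul_mem h' h))
  have e1 := congrArg det (hW.uniq he (by
    simpa only [commutatorElement_def, _root_.mul_inv_rev, mul_assoc] using (hM.mul hM').mul hZ))
  have e2 := congrArg det (mt_one.uniq he (by
    simpa only [mul_inv_cancel] using (hM'.mul hM).mul hZ))
  simp only [det_mul, det_one] at e1 e2
  exact ⟨⟨W, by rw [e1, e2]; ring⟩, hW⟩

end Mat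

section Core
variable {G : Type} [Group G] (L : CL G) {m : ℕ} (e : Fin m → L.V)

/-- A lift of `g` acts on the span of `e` by a multiple of a matrix in the class `a`. -/
def Rel (g : G) (a : PSL (Fin m) L.K) : Prop :=
  ∃ (h : g ∈ L.H) (y : (⁅L.I, L.I⁆ : Subgroup (L.V ≃ₗ[L.K] L.V))) (A : SL (Fin m) L.K) (c : L.K),
    L.π y = L.φ ⟨g, h⟩ ∧ (A : PSL (Fin m) L.K) = a ∧ Mt e y.1 (c • A.1)

variable {L e}

theorem scal_of_eq {y y' : (⁅L.I, L.I⁆ : Subgroup (L.V ≃ₗ[L.K] L.V))} (h : L.π y = L.π y') :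
    Scal (y⁻¹ * y').1 := (L.πk _).1 (by rw [map_mul, map_inv, h, inv_mul_cancel])

theorem Mt.lift {y y' : (⁅L.I, L.I⁆ : Subgroup (L.V ≃ₗ[L.K] L.V))} (h : L.π y = L.π y')
    {M : Matrix (Fin m) (Fin m) L.K} {c : L.K} (hM : Mt e y.1 (c • M)) :
    ∃ c' : L.K, Mt e y'.1 (c' • M) := by
  obtain ⟨s, hs⟩ := scal_of_eq h
  have := hM.mul (mt_scal fun j => hs (e j))
  rw [← coe_mul, mul_inv_cancel_left, Matrix.mul_smul, Matrix.mul_one, smul_smul] at this
  exact ⟨_, this⟩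

theorem Rel.one : Rel L e 1 1 :=
  ⟨one_mem _, 1, 1, 1, by rw [map_one]; exact (map_one _).symm, rfl, by simpa using mt_one⟩

theorem Rel.mul {g g' : G} {a a' : PSL (Fin m) L.K} (h : Rel L e g a) (h' : Rel L e g' a') :
    Rel L e (g * g') (a * a') := by
  obtain ⟨k, y, A, c, h1, rfl, h3⟩ := h
  obtain ⟨k', y', A', c', h1', rfl, h3'⟩ := h'
  refine ⟨mul_mem k k', y * y', A * A', c * c', by rw [map_mul, h1, h1', ← map_mul]; rfl, rfl, ?_⟩
  have := h3.mul h3'
  rwa [Matrix.smul_mul, Matrix.mul_smul, smul_smul] at this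

theorem Rel.uniq [NeZero m] (he : LinearIndependent L.K e) {g : G} {a a' : PSL (Fin m) L.K}
    (h : Rel L e g a) (h' : Rel L e g a') : a = a' := by
  obtain ⟨k, y, A, c, h1, rfl, h3⟩ := h
  obtain ⟨k', y', A', c', h1', rfl, h3'⟩ := h'
  obtain ⟨d, hd⟩ := Mt.lift (h1.trans h1'.symm) h3
  exact mk_eq he hd h3'

theorem core [NeZero m] (he : LinearIndependent L.K e) :
    ∃ (H2 : Subgroup G) (ψ : H2 →* PSL (Fin m) L.K), (∀ h : H2, Rel L e h (ψ h)) ∧
      ∀ g a, Rel L e g a → ∃ h : g ∈ H2, ψ ⟨g, h⟩ = a := by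
  let S : Subgroup L.H := toSub
    { carrier := {h | ∃ a, Rel L e h a}
      one_mem' := ⟨1, Rel.one⟩
      mul_mem' := fun ⟨_, ha⟩ ⟨_, hb⟩ => ⟨_, ha.mul hb⟩ }
  have ex : ∀ h : S.map L.H.subtype, ∃ a, Rel L e h a := fun ⟨_, _, hk, rfl⟩ => hk
  choose ψ hψ using ex
  exact ⟨_, MonoidHom.mk' ψ fun a b => (hψ _).uniq he ((hψ a).mul (hψ b)), hψ,
    fun g a h => ⟨⟨⟨g, h.1⟩, ⟨a, h⟩, rfl⟩, (hψ _).uniq he h⟩⟩

end Core

end Res

open Res in
theorem resStmt (h : GeoRStmt) : ResStmt := by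
  intro c N
  obtain ⟨n, hn⟩ := h c (max N 3)
  refine ⟨n, fun G _ L F _ hF hc hD => ?_⟩
  have : Finite L.V := Module.finite_of_finite L.K
  have : Finite (L.V ≃ₗ[L.K] L.V) := Finite.of_injective _ DFunLike.coe_injective
  have hI : ⁅L.I, L.I⁆ ≤ L.I := commutator_le_self _
  choose y hy using fun f : F => L.πs (L.φ ⟨f, hD.1 f.2⟩)
  have big : ∀ f : F, f ≠ 1 → ∀ t : L.K,
      n < rk (((y f).1 : Module.End L.K L.V) - t • 1) := fun f hf t => not_le.1 fun k =>
    hD.2 f f.2 (fun e => hf (Subtype.ext e)) ⟨_, y f, t, hy f, k⟩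
  obtain ⟨f0, hf0⟩ := (ne_bot_iff_exists_ne_one.1 hF)
  obtain ⟨m, e, U, U', η, hm, he, rfl, hU, yU, yrk, hg, η1, η2, η3, hz⟩ :=
    hn L.K L.V F L.I (fun f => (y f).1) L.cl hc ((big f0 hf0 0).le.trans (rk_le _))
      (fun f => hI (y f).2) (fun f f' => scal_of_eq (y := y (f * f')) (y' := y f * y f') (by
        rw [map_mul, hy, hy, hy, ← map_mul]; rfl)) big
  have m3 : 3 ≤ m := (le_max_right _ _).trans hm
  have : NeZero m := ⟨by omega⟩
  set U := Submodule.span L.K (Set.range e)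
  obtain ⟨H2, ψ, ha, hb⟩ := core he
  have hle : H2 ≤ L.H := fun g k => (ha ⟨g, k⟩).1
  have : Finite H2 := Finite.of_injective _ (inclusion_injective hle)
  let q : H2 →* L.X := L.φ.comp (inclusion hle)
  have ha' : ∀ h : H2, ∃ (y : (⁅L.I, L.I⁆ : Subgroup _)) (A : SL (Fin m) L.K) (c : L.K),
      L.π y = q h ∧ (A : PSL (Fin m) L.K) = ψ h ∧ Mt e y.1 (c • A.1) := fun h => (ha h).2
  have hb' : ∀ (y : (⁅L.I, L.I⁆ : Subgroup _)) (A : SL (Fin m) L.K), Mt e y.1 A.1 →
      ∃ h : H2, L.π y = q h ∧ ψ h = A := fun y A k => by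
    obtain ⟨g, hg⟩ := L.φs (L.π y)
    obtain ⟨k1, k2⟩ := hb g A ⟨g.2, y, A, 1, hg.symm, rfl, by rwa [one_smul]⟩
    exact ⟨⟨g, k1⟩, hg.symm, k2⟩
  have hη := fun A => hb' ⟨η A, η1 A⟩ A (η2 A)
  obtain ⟨R, hR, hRs⟩ := exists_hd_psl ψ (fun a => by
    obtain ⟨A, rfl⟩ := QuotientGroup.mk_surjective a
    obtain ⟨h, -, k⟩ := hη A
    exact ⟨h, k⟩) (by simpa using m3)
  obtain ⟨r, hr, hr1⟩ := hR.ne
  have hJ : R ≤ (((Sc U' U).comap (Subgroup.subtype _)).map L.π).comap q := by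
    obtain ⟨A, hA⟩ := QuotientGroup.mk_surjective (ψ r)
    obtain ⟨h, k1, k2⟩ := hη A
    refine hR.min _ (fun s _ x ⟨w, hw, hx⟩ => ?_) h ⟨⟨η A, η1 A⟩, ⟨Mt.mem (η2 A), 1, fun v hv => by
      simpa using η3 A v hv⟩, k1⟩ (by rwa [k2, hA])
    obtain ⟨z, B, d, z1, -, z3⟩ := ha' s
    have z4 : z.1 ∈ St U := z3.mem
    exact ⟨z * w * z⁻¹, sc_conj z4 (hg _ (hI z⁻¹.2) (inv_mem z4 : z.1⁻¹ ∈ St U)).1 hw,
      by simp only [map_mul, map_inv, z1, hx]⟩
  have deg : ∀ x : H2, (x : G) ∈ ⁅F, F⁆ → x ≠ 1 → ∀ (A : SL (Fin m) L.K) (t : L.K),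
      (A : PSL (Fin m) L.K) = ψ x → N < (A.1 - t • 1).rank := fun x x1 x2 A t hA => by
    obtain ⟨w, B, d, w1, w2, w3⟩ := ha' x
    obtain ⟨s, -, hs⟩ := PT.exists_smul_of_mk_eq (hA.trans w2.symm)
    rw [hs, smul_smul] at w3
    obtain ⟨d', hd⟩ := Mt.lift (w1.trans (hy ⟨x, commutator_le_self _ x1⟩).symm) w3
    exact ((le_max_left _ _).trans_lt (yrk ⟨x, commutator_le_self _ x1⟩
      (fun k => x2 (Subtype.ext (congrArg (fun f : F => (f : G)) k))) (d' * t))).trans_le hd.rank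
  have hn := hR.nrm
  have hk : L.φ.ker ≤ (inclusion hle).range := fun g k => by
    obtain ⟨k1, -⟩ := hb g _ ⟨g.2, 1, 1, 1, (map_one _).trans k.symm, rfl, by simpa using mt_one⟩
    exact ⟨⟨g, k1⟩, rfl⟩
  refine ⟨⟨H2, m, L.K, ψ, R, hR, hRs, Sch.of_ker q ((L.sch.comap _
    (inclusion_injective hle) hk).nrm inf_le_right inferInstance) (solv_flag (Subgroup.subtype _)
      (subtype_injective _) L.π hU ?_), fun hc => ?_⟩, commutator_le.2 fun a a1 b b1 => ?_, deg⟩
  · rintro _ ⟨x, ⟨x1, x2⟩, rfl⟩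
    obtain ⟨w, hw, hx⟩ := hJ x2
    obtain ⟨z, B, d, z1, z2, z3⟩ := ha' x
    obtain ⟨s, -, hs⟩ := PT.exists_smul_of_mk_eq (A := 1) (B := B) (z2.trans x1).symm
    rw [hs, smul_smul] at z3
    have z4 := hg _ (hI z.2) z3.mem
    refine ⟨z, ⟨⟨⟨fun v hv => ?_, _, fun v hv => sub_eq_zero.2 (z3.scal v hv)⟩, ?_⟩, z4.1, ?_⟩, z1⟩
    · simp [(Submodule.mem_bot _).1 hv]
    · have := mul_mem (mem_comap.1 hw) (Scal.sc (scal_of_eq (hx.trans z1.symm)))
      rwa [coe_subtype, ← coe_mul, mul_inv_cancel_left] at this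
    · obtain ⟨t, ht⟩ := z4.2 ⟨_, z3.scal⟩
      exact ⟨t, fun v _ => ht v⟩
  · obtain ⟨w, A, d, w1, w2, w3⟩ := ha' r
    obtain ⟨a, a1, a2⟩ : ∃ a ∈ U, w.1 a ∉ Submodule.span L.K {a} := by
      by_contra! k
      obtain ⟨t, ht⟩ := scalar_of_eigen _ _ k
      exact hr1 (w2.symm.trans (mk_eq he w3 (A' := 1)
        (mt_scal fun j => ht _ (Submodule.subset_span ⟨j, rfl⟩))))
    have a0 : w.1 a ≠ 0 := fun k => a2 (k ▸ Submodule.zero_mem _)
    obtain ⟨z, z1, z2, -, z4⟩ := hz a a1 fun k => a0 (by rw [k, map_zero])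
    obtain ⟨x, x1, x2⟩ := hb' ⟨z, z1⟩ 1 (by
      simpa using mt_scal (y := z) (c := 1) fun j => by
        rw [one_smul, z2 _ (Submodule.subset_span ⟨j, rfl⟩)])
    have cm : ⁅x, r⁆ = 1 := mem_bot.1 (hc ▸ commutator_mem_commutator x2 hr)
    obtain ⟨t, ht⟩ := (L.πk ⁅(⟨z, z1⟩ : (⁅L.I, L.I⁆ : Subgroup _)), w⁆).1 (by
      rw [map_commutatorElement, x1, w1, ← map_commutatorElement, cm, map_one])
    have e1 : ∀ v, z (w.1 v) = t • w.1 (z v) := fun v => by
      simpa [commutatorElement_def] using ht (w.1 (z v))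
    have t1 : t = 1 := by
      have := e1 a
      rw [z2 a a1, z2 _ (w3.mem a a1)] at this
      exact smul_left_injective L.K a0 (this.symm.trans (one_smul _ _).symm)
    obtain ⟨⟨v, hv⟩, -⟩ : a ∈ LinearMap.range ((z : Module.End L.K L.V) - 1) ⊓ U :=
      z4 ▸ Submodule.mem_span_singleton_self a
    refine a2 (z4 ▸ ⟨⟨w.1 v, ?_⟩, w3.mem a a1⟩)
    simp [← hv, e1, t1]
  · obtain ⟨A, hA⟩ := exists_comm he (yU ⟨a, a1⟩) (yU ⟨b, b1⟩)
    obtain ⟨k, -⟩ := hb ⁅a, b⁆ A ⟨hD.1 (commutator_le_self _ (commutator_mem_commutator a1 b1)),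
      ⁅y ⟨a, a1⟩, y ⟨b, b1⟩⁆, A, 1, by
        rw [map_commutatorElement, hy, hy, ← map_commutatorElement]; rfl, rfl,
      by rwa [one_smul]⟩
    exact k

end Pool.Agent.Lib.MP_679d9b_al.KG
end

-- part Pool.Agent.Lib.MP_679d9b_al.KG.Rich
section

/-!
Regular alternating type: chains of centralizers can always be continued.
-/

set_option autoImplicit false

namespace Pool.Agent.Lib.MP_679d9b_al.KG

open Subgroup Equiv

namespace Rich

/-- The action of the set stabiliser of `Δ` on `Δ` inherits the hypotheses. -/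
theorem restrict {H Ω : Type} [Group H] [Finite H] [Fintype Ω] [DecidableEq Ω]
    (φ : H →* Perm Ω) (hφ : alternatingGroup Ω ≤ φ.range)
    (hs : Sch (φ.ker ⊓ Alt.R φ Finset.univ)) (Δ : Finset Ω) (h5 : 5 ≤ Δ.card) :
    ∃ (T : Subgroup H) (ψ : T →* Perm Δ), (∀ h : H, (∀ a, φ h a ∈ Δ ↔ a ∈ Δ) → h ∈ T) ∧
      (∀ (t : T) (a : Δ), (ψ t a : Ω) = φ t a) ∧ alternatingGroup Δ ≤ ψ.range ∧
      Sch (ψ.ker ⊓ Alt.R ψ Finset.univ) := by
  let T : Subgroup H :=
    { carrier := {h | ∀ a, φ h a ∈ Δ ↔ a ∈ Δ}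
      one_mem' := fun a => by simp
      mul_mem' := fun {x y} hx hy a => by
        rw [map_mul, Perm.mul_apply]
        exact (hx _).trans (hy a)
      inv_mem' := fun {x} hx a => by
        have := hx (φ x⁻¹ a)
        rw [← Perm.mul_apply, ← map_mul, mul_inv_cancel, map_one, Perm.one_apply] at this
        exact this.symm }
  let ψ : T →* Perm Δ :=
    { toFun := fun t => (φ t).subtypePerm t.2
      map_one' := Equiv.ext fun a => Subtype.ext (by simp)
      map_mul' := fun s t => Equiv.ext fun a => Subtype.ext (by simp) }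
  have hψ : ∀ (t : T) (a : Δ), (ψ t a : Ω) = φ t a := fun _ _ => rfl
  have hext : ∀ σ : Perm Δ, Perm.sign σ = 1 →
      ∃ t : T, (t : H) ∈ Alt.R φ Δ ∧ ψ t = σ := fun σ hσ => by
    obtain ⟨r, hr, e⟩ := Alt.R_surj hφ h5 (σ := Perm.ofSubtype σ)
      ⟨by rw [Perm.sign_ofSubtype, hσ], fun a ha => Perm.ofSubtype_apply_of_not_mem σ ha⟩
    refine ⟨⟨r, fun a => ?_⟩, hr, Equiv.ext fun a => Subtype.ext ?_⟩
    · rw [e]
      exact Perm.ofSubtype_apply_mem_iff_mem σ a
    · rw [hψ]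
      change φ r a = _
      rw [e, Perm.ofSubtype_apply_coe]
  have hR : Alt.R ψ Finset.univ ≤ (Alt.R φ Δ).comap T.subtype := by
    refine sInf_le ⟨fun t ht => ⟨?_, fun a ha => absurd (Finset.mem_univ a) ha⟩,
      fun y _ t ht => Alt.R_conj hφ h5 (fun a ha => (y.2 a).2 ha) ht, fun σ hσ => ?_⟩
    · have h1 := Alt.R_le hφ h5 ht
      have h3 : Perm.ofSubtype (ψ t) = φ t := Perm.ofSubtype_subtypePerm t.2 fun a ha => by
        by_contra h2
        exact ha (h1.2 a h2)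
      rw [← Perm.sign_ofSubtype, h3]
      exact h1.1
    · obtain ⟨t, ht, e⟩ := hext σ hσ.1
      exact ⟨t, ht, e⟩
  have halt : alternatingGroup Δ ≤ ψ.range := fun σ hσ => (hext σ hσ).imp fun t h => h.2
  have := (hd_R halt (by simpa using h5)).nrm
  refine ⟨T, ψ, fun _ h => h, hψ, halt, (hs.comap T.subtype T.subtype_injective fun y hy =>
    ⟨⟨y, fun a => by rw [show φ y = 1 from hy.1]; rfl⟩, rfl⟩).nrm (fun t ht => ⟨?_, ?_⟩)
    inferInstance⟩
  · refine Equiv.ext fun a => ?_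
    by_cases ha : a ∈ Δ
    · have h1 := hψ t ⟨a, ha⟩
      rw [show ψ t = 1 from ht.1] at h1
      exact h1.symm
    · exact (Alt.R_le hφ h5 (hR ht.2)).2 a ha
  · exact Alt.R_mono hφ (h5.trans (Finset.card_le_univ Δ)) (Finset.subset_univ Δ) (hR ht.2)

variable {G : Type} [Group G]

/-- A level with a regular orbit. -/
theorem exists_reg (h : ∀ F0 : Subgroup G, Finite F0 → Freqs F0 1) (F : Subgroup G) [Finite F] :
    ∃ (L : Alt.Lv G) (hH : F ≤ L.H) (ω : Fin L.m), SLv L ∧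
      ∀ f : F, L.φ (inclusion hH f) ω = ω → f = 1 := by
  obtain ⟨L, hL, ⟨hH, -⟩, ω, hω⟩ := h F inferInstance F inferInstance le_rfl 0
  exact ⟨L, hH, ω, hL, fun f hf => Subtype.ext
    ((Set.ncard_le_one ((Set.toFinite (F : Set G)).subset fun g hg => hg.1)).1 hω f
      ⟨f.2, hH f.2, hf⟩ 1 ⟨one_mem _, one_mem _, by
        change L.φ 1 ω = ω
        simp⟩)⟩

theorem reg (h : ∀ F0 : Subgroup G, Finite F0 → Freqs F0 1) : Reg G := fun F _ => by
  obtain ⟨L, hH, ω, -, hω⟩ := exists_reg h F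
  exact ⟨L.H, hH, L.m, L.φ, ω, L.fin, L.alt, hω⟩

/-- Finite subgroups of the centralizer of `x` can be enlarged. -/
theorem grow [Infinite G] (hlf : Alt.LF G) (hreg : Reg G) {x : G} (F : Subgroup G) [Finite F]
    (hx : x ∈ F) (hFx : F ≤ centralizer {x}) :
    ∃ F2 : Subgroup G, Finite F2 ∧ F ≤ F2 ∧ F2 ≤ centralizer {x} ∧ ∃ g ∈ F2, g ∉ F := by
  obtain ⟨H, _, _, μ, j, ψ, hμ, hj, hψ, hψj⟩ := cover hlf hreg F (F × Multiplicative (ZMod 2))
    (MonoidHom.inl _ _) fun a b h => congrArg Prod.fst h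
  have h3 := card_le_centralizer ψ hψ (j ⟨x, hx⟩) fun γ => by
    rw [hψj]
    exact Prod.ext (Subtype.ext (mem_centralizer_singleton_iff.1 (hFx γ.1.2))) (by simp)
  refine ⟨(centralizer {j ⟨x, hx⟩}).map μ,
    Finite.of_surjective _ (MonoidHom.subgroupMap_surjective _ _),
    fun f hf => ⟨j ⟨f, hf⟩, mem_centralizer_singleton_iff.2 (hμ ?_), hj _⟩, ?_, ?_⟩
  · rw [map_mul, map_mul, hj, hj]
    exact mem_centralizer_singleton_iff.1 (hFx hf)
  · rintro _ ⟨r, hr, rfl⟩
    have h4 := congrArg μ (mem_centralizer_singleton_iff.1 hr)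
    rw [map_mul, map_mul, hj] at h4
    exact mem_centralizer_singleton_iff.2 h4
  · by_contra hcon
    push Not at hcon
    have h4 := card_le_of_le (show _ ≤ F from hcon)
    rw [card_map_of_injective hμ] at h4
    have h5 := h3.trans h4
    rw [Nat.card_prod, Nat.card_congr (Multiplicative.toAdd (α := ZMod 2)), Nat.card_zmod] at h5
    have h6 : 0 < Nat.card F := Nat.card_pos
    omega

theorem exists_big [Infinite G] (hlf : Alt.LF G) (F : Subgroup G) [Finite F] (n : ℕ) :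
    ∃ F1 : Subgroup G, Finite F1 ∧ F ≤ F1 ∧ n ≤ Nat.card F1 := by
  obtain ⟨t, ht⟩ := Infinite.exists_subset_card_eq G n
  obtain ⟨F1, h1, h2⟩ := hlf.exists_fin ((Set.toFinite (F : Set G)).union t.finite_toSet)
  refine ⟨F1, h1, fun f hf => h2 (Or.inl hf), ?_⟩
  rw [← ht, ← Set.ncard_coe_finset]
  exact Set.ncard_le_ncard (fun y hy => h2 (Or.inr hy)) (Set.toFinite (F1 : Set G))

/-- Subgroups of finite subgroups are separated by centralizers. -/
theorem sep [Infinite G] (hM : Ml0Stmt) (hlf : Alt.LF G)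
    (h : ∀ F0 : Subgroup G, Finite F0 → Freqs F0 1) {F F2 : Subgroup G} [Finite F2] (hle : F ≤ F2)
    {g : G} (hg : g ∈ F2) (hgF : g ∉ F) : ∃ c, (∀ f ∈ F, Commute f c) ∧ ¬ Commute g c := by
  classical
  obtain ⟨n, hn⟩ := hM F2
  obtain ⟨F1, _, h21, hc⟩ := exists_big hlf F2 (n + 5)
  obtain ⟨L, hH, ω, hL, hω⟩ := exists_reg h F1
  have := L.fin
  let _ := Fintype.ofFinite F1
  let e : F1 → Fin L.m := fun a => L.φ (inclusion hH a) ω
  have hmul : ∀ a b : F1, L.φ (inclusion hH a) (e b) = e (a * b) := fun a b => by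
    change _ = L.φ (inclusion hH (a * b)) ω
    rw [map_mul, map_mul, Perm.mul_apply]
  have he : Function.Injective e := fun a b hab => by
    have h1 := hω (b⁻¹ * a) (by
      rw [map_mul, map_mul, map_inv, map_inv, Perm.mul_apply, Perm.inv_eq_iff_eq]
      exact hab)
    exact (inv_mul_eq_one.1 h1).symm
  have hcard : n + 5 ≤ (Finset.univ.image e).card := by
    rwa [Finset.card_image_of_injective _ he, Finset.card_univ, ← Nat.card_eq_fintype_card]
  obtain ⟨T, ψ, hT, hψ, halt, hsch⟩ := restrict L.φ L.alt hL (Finset.univ.image e) (by omega)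
  have hmem : ∀ a : F1, inclusion hH a ∈ T := fun a => hT _ fun b => by
    constructor
    · intro hb
      obtain ⟨y, -, hy⟩ := Finset.mem_image.1 hb
      refine Finset.mem_image.2 ⟨a⁻¹ * y, Finset.mem_univ _, (L.φ (inclusion hH a)).injective ?_⟩
      rw [hmul, mul_inv_cancel_left, hy]
    · intro hb
      obtain ⟨y, -, rfl⟩ := Finset.mem_image.1 hb
      rw [hmul]
      exact Finset.mem_image_of_mem _ (Finset.mem_univ _)
  let j : F2 →* T := ((inclusion hH).comp (inclusion h21)).codRestrict T fun f => hmem _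
  let μ : T →* G := L.H.subtype.comp T.subtype
  have hμ : Function.Injective μ := L.H.subtype_injective.comp T.subtype_injective
  obtain ⟨c, hc1, hc2⟩ := hn T _ ψ j halt hsch (fun f a hfa => by
      obtain ⟨y, -, hy⟩ := Finset.mem_image.1 a.2
      have h1 : L.φ (inclusion hH (inclusion h21 f)) a = a :=
        (hψ (j f) a).symm.trans (congrArg Subtype.val hfa)
      rw [← hy, hmul] at h1
      exact inclusion_injective h21 ((mul_eq_right.1 (he h1)).trans (map_one _).symm))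
    (by rw [Fintype.card_coe]; omega) (F.subgroupOf F2) ⟨g, hg⟩ hgF
  refine ⟨μ c, fun f hf => (hc1 ⟨f, hle hf⟩ hf).map μ, fun h1 => hc2 (hμ ?_)⟩
  rw [map_mul, map_mul]
  exact h1.eq

end Rich

theorem richStmt (h : Ml0Stmt) : RichStmt := by
  intro G _ _ hlf hreg x d hno
  obtain ⟨F0, h0, h1⟩ := hlf.exists_fin (Set.finite_singleton x)
  have hz : Finite (zpowers x) :=
    Finite.of_injective _ (inclusion_injective (zpowers_le.2 (h1 (Set.mem_singleton x))))
  refine hno (Subgroup G) (fun _ F => Finite F ∧ x ∈ F ∧ F ≤ centralizer {x}) (fun F => F)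
    (zpowers x) ⟨hz, mem_zpowers x, zpowers_le.2 (mem_centralizer_singleton_iff.2 rfl)⟩ ?_
  rintro _ - F ⟨h2, h3, h4⟩
  obtain ⟨F2, g1, g3, g4, g, hg, hgF⟩ := Rich.grow hlf (Rich.reg hreg) F h3 h4
  obtain ⟨c, hc, hgc⟩ := Rich.sep h hlf hreg g3 hg hgF
  exact ⟨F2, ⟨g1, g3 h3, g4⟩, g3, c, hc x h3, hc, g, hg,
    (mem_centralizer_singleton_iff.1 (g4 hg)).symm, hgc⟩

end Pool.Agent.Lib.MP_679d9b_al.KG
end

-- part Pool.Agent.Lib.MP_679d9b_al.KG.Rk
section

/-!
An element of small rank in an irreducible module forces the kernel to centralize the head.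
-/

set_option autoImplicit false

namespace Pool.Agent.Lib.MP_679d9b_al.KG

open Subgroup
open scoped commutatorElement Pointwise

namespace RkP

/-- The action on an abelian section. -/
theorem exists_act {H T : Type} [Group H] [Group T] (ι : T →* H) (A Z : Subgroup H)
    (hc : ⁅A, A⁆ ≤ Z) (hA : ∀ t, ∀ a ∈ A, ι t * a * (ι t)⁻¹ ∈ A)
    (hZ : ∀ t, ∀ a ∈ Z, ι t * a * (ι t)⁻¹ ∈ Z) :
    ∃ (W : Type) (_ : CommGroup W) (π : A →* W) (τ : T →* Monoid.End W),
      Function.Surjective π ∧ (∀ a, π a = 1 ↔ (a : H) ∈ Z) ∧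
        ∀ t (a : A), τ t (π a) = π ⟨ι t * a * (ι t)⁻¹, hA t a a.2⟩ := by
  obtain ⟨W, _, π, hs, hπ⟩ := exists_quot A Z hc
  have h : ∀ t, ∃ f : W →* W, ∀ a : A, f (π a) = π ⟨ι t * a * (ι t)⁻¹, hA t a a.2⟩ := fun t =>
    exists_lift hs (π.comp (((MulAut.conj (ι t)).toMonoidHom.comp A.subtype).codRestrict A
      fun a => hA t a a.2)) fun a ha => (hπ _).2 (hZ t a ((hπ a).1 ha))
  choose f hf using h
  refine ⟨W, inferInstance, π, ⟨⟨f, ?_⟩, fun s t => ?_⟩, hs, hπ, hf⟩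
  · refine MonoidHom.ext fun w => ?_
    obtain ⟨a, rfl⟩ := hs w
    rw [hf]
    exact congrArg π (Subtype.ext (by simp))
  · refine MonoidHom.ext fun w => ?_
    obtain ⟨a, rfl⟩ := hs w
    change f (s * t) (π a) = f s (f t (π a))
    rw [hf, hf, hf]
    exact congrArg π (Subtype.ext (by simp [mul_assoc]))

/-- A perfect group acts trivially on a cyclic section. -/
theorem comm_le {H : Type} [Group H] {R A Z : Subgroup H} (hR : ⁅R, R⁆ = R) (hA : A.Normal)
    (hc : ⁅A, A⁆ ≤ Z) (hZ : ∀ r ∈ R, ∀ a ∈ Z, r * a * r⁻¹ ∈ Z) {y : H} (hy : y ∈ A)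
    (hcyc : ∀ x ∈ A, ∃ n : ℕ, x⁻¹ * y ^ n ∈ Z) : ⁅A, R⁆ ≤ Z := by
  obtain ⟨W, _, π, τ, hs, hπ, hτ⟩ := exists_act R.subtype A Z hc
    (fun t a ha => hA.conj_mem a ha _) fun t a ha => hZ t t.2 a ha
  have hw : ∀ w : W, ∃ n : ℕ, w = π ⟨y, hy⟩ ^ n := fun w => by
    obtain ⟨a, rfl⟩ := hs w
    obtain ⟨n, hn⟩ := hcyc a a.2
    have := (hπ (a⁻¹ * ⟨y, hy⟩ ^ n)).2 hn
    rw [map_mul, map_inv, map_pow, inv_mul_eq_one] at this
    exact ⟨n, this⟩
  have hcomm : ∀ f g : Monoid.End W, f * g = g * f := fun f g => by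
    refine MonoidHom.ext fun w => ?_
    obtain ⟨n, rfl⟩ := hw w
    obtain ⟨i, hi⟩ := hw (f (π ⟨y, hy⟩))
    obtain ⟨j, hj⟩ := hw (g (π ⟨y, hy⟩))
    change f (g _) = g (f _)
    rw [map_pow, map_pow, map_pow, map_pow, hi, hj, map_pow, map_pow, hi, hj, ← pow_mul _ i j,
      ← pow_mul _ j i, mul_comm i j]
  have hk : R ≤ τ.ker.map R.subtype := by
    refine hR.ge.trans (commutator_le.2 fun r hr s hs' => ⟨⁅(⟨r, hr⟩ : R), (⟨s, hs'⟩ : R)⁆, ?_, rfl⟩)
    change τ _ = 1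
    rw [commutatorElement_def, map_mul, map_mul, map_mul, hcomm (τ ⟨r, hr⟩), mul_assoc (τ ⟨s, hs'⟩),
      ← map_mul, mul_inv_cancel, map_one, mul_one, ← map_mul, mul_inv_cancel, map_one]
  rw [commutator_comm]
  refine commutator_le.2 fun r hr a ha => ?_
  obtain ⟨t, ht, rfl⟩ := hk hr
  have h1 := hτ t ⟨a, ha⟩
  rw [MonoidHom.mem_ker.1 ht, Monoid.End.coe_one, id, eq_comm, ← mul_inv_eq_one, ← map_inv π,
    ← map_mul π, hπ] at h1
  exact h1

variable {H K V : Type} [Group H] [Field K] [AddCommGroup V] [Module K V]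
  {ρ : H →* Module.End K V} {R A : Subgroup H} {s : H} {N : ℕ}

theorem fx_conj {h y : H} {v : V} (e : ρ (h⁻¹ * y * h) v = v) : ρ y (ρ h v) = ρ h v := by
  conv_rhs => rw [← e]
  rw [← Module.End.mul_apply, ← Module.End.mul_apply, ← map_mul, ← map_mul]
  congr 2
  group

/-- The range of `ρ z - 1` is invariant under elements which commute with `z`. -/
theorem range_inv {z y : H} (h : Commute y z) {w : V} (hw : w ∈ LinearMap.range (ρ z - 1)) :
    ρ y w ∈ LinearMap.range (ρ z - 1) := by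
  obtain ⟨v, rfl⟩ := hw
  refine ⟨ρ y v, ?_⟩
  simp only [LinearMap.sub_apply, Module.End.one_apply, map_sub]
  rw [← Module.End.mul_apply, ← Module.End.mul_apply, ← map_mul, ← map_mul, h.eq]

theorem exists_range (hρ : Function.Injective ρ) {z : H} (hz : z ≠ 1) :
    ∃ w ∈ LinearMap.range (ρ z - 1), w ≠ 0 := by
  rw [← Submodule.ne_bot_iff, Ne, LinearMap.range_eq_bot, sub_eq_zero, ← map_one ρ]
  exact fun e => hz (hρ e)

theorem not_fx (hρ : Function.Injective ρ) (hI : Irr ρ) {B : Subgroup H} (hB : B.Normal)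
    (hne : B ≠ ⊥) {v : V} (hv : v ≠ 0) : ¬ Fx ρ B v := fun hf =>
  hne (eq_bot_iff.2 fun y hy => hρ ((hI.eq_one ρ hB hv hf y hy).trans ρ.map_one.symm))

variable [FiniteDimensional K V]

theorem rk_comm2 (hN : rk (ρ s - 1) ≤ N) (a b : H) : rk (ρ ⁅⁅s, a⁆, b⁆ - 1) ≤ 4 * N := by
  have h1 := rk_map_comm ρ s a 1
  have h2 := rk_map_comm ρ ⁅s, a⁆ b 1
  rw [one_smul] at h1 h2
  omega

/-- Systems of imprimitivity. -/
theorem imprim {Y : Type} [Finite Y] [MulAction H Y] (X : SubMulAction H Y)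
    (U : Y → Submodule K V) (hU : ∀ (h : H) (x : Y), ∀ v ∈ U x, ρ h v ∈ U (h • x))
    (hne : ∀ x ∈ X, U x ≠ ⊥)
    (hind : ∀ (ι : Type) (z : ι → Y), Function.Injective z → (∀ i, z i ∈ X) →
      ∀ (F : Finset ι) (w : ι → V), (∀ i, w i ∈ U (z i)) → ∑ i ∈ F, w i = 0 → ∀ i ∈ F, w i = 0)
    (hmov : ∃ r ∈ R, ∃ x ∈ X, r • x ≠ x) (hM : Mov R s (3 * (N + 1))) : N < rk (ρ s - 1) := by
  obtain ⟨r, hr, x, hx, hrx⟩ := hmov
  obtain ⟨y, hy, hy'⟩ := exists_moved (X := X) s (N + 1)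
    (hM X ⟨r, hr, ⟨x, hx⟩, fun e => hrx (congrArg Subtype.val e)⟩).le
  choose v hv hv0 using fun i => (Submodule.ne_bot_iff _).1 (hne (y i) (y i).2)
  have hz : Function.Injective (Sum.elim (fun i => (y i : Y)) fun i => ((s • y i : X) : Y)) := by
    rintro (i | i) (j | j) e
    · rw [hy (Subtype.ext e)]
    · exact absurd (Subtype.ext e).symm (hy' j i)
    · exact absurd (Subtype.ext e) (hy' i j)
    · rw [hy (MulAction.injective s (Subtype.ext e))]
  have hli : LinearIndependent K fun i =>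
      (⟨(ρ s - 1) (v i), v i, rfl⟩ : LinearMap.range (ρ s - 1)) := by
    refine LinearIndependent.of_comp (LinearMap.range (ρ s - 1)).subtype ?_
    rw [Fintype.linearIndependent_iff]
    intro g hg i
    have h1 := hind _ _ hz (by rintro (i | i) <;> exact Subtype.mem _) Finset.univ
      (Sum.elim (fun i => -(g i • v i)) fun i => g i • ρ s (v i))
      (by
        rintro (i | i)
        · exact neg_mem (Submodule.smul_mem _ _ (hv i))
        · exact Submodule.smul_mem _ _ (hU s _ _ (hv i)))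
      (by
        rw [Fintype.sum_sum_type, ← Finset.sum_add_distrib, ← hg]
        refine Finset.sum_congr rfl fun i _ => ?_
        simp [sub_eq_neg_add])
      (Sum.inl i) (Finset.mem_univ _)
    simp only [Sum.elim_inl, neg_eq_zero, smul_eq_zero] at h1
    exact h1.resolve_right (hv0 i)
  have h2 := hli.fintype_card_le_finrank
  rw [Fintype.card_fin] at h2
  exact h2

/-- The abelian case. -/
theorem case_ab [Finite H] {r : ℕ} [Fact r.Prime] (hr : (r : K) ≠ 0) (hρ : Function.Injective ρ)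
    (hI : Irr ρ) (hR : ⁅R, R⁆ = R) (hA : Mn R A) (hp : IsPGroup r A)
    (hab : ∀ a ∈ A, ∀ b ∈ A, Commute a b) {v1 : V} (hv1 : v1 ≠ 0) (hM : Mov R s (3 * (N + 1))) :
    N < rk (ρ s - 1) := by
  let _ : MulAction H (Subgroup H) := MulAction.compHom _ (MulAut.conj (G := H))
  have hs : ∀ (h : H) (P : Subgroup H) (z : H), z ∈ h • P ↔ h⁻¹ * z * h ∈ P := fun h P z => by
    change z ∈ MulAut.conj h • P ↔ _
    rw [mem_pointwise_smul_iff_inv_smul_mem]
    simp
  let p : Subgroup H → Prop := fun P => P ≤ A ∧ ∃ v : V, v ≠ 0 ∧ Fx ρ P v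
  let U : Subgroup H → Submodule K V := fun P =>
    { carrier := {v | Fx ρ P v}
      add_mem' := fun ha hb y hy => by rw [map_add, ha y hy, hb y hy]
      zero_mem' := fun y _ => map_zero _
      smul_mem' := fun c v hv y hy => by rw [map_smul, hv y hy] }
  have hU : ∀ (h : H) (P : Subgroup H), ∀ v ∈ U P, ρ h v ∈ U (h • P) := fun h P v hv y hy =>
    fx_conj (hv _ ((hs h P y).1 hy))
  have hp' : ∀ (h : H) (P : Subgroup H), p P → p (h • P) := by
    rintro h P ⟨h1, v, hv, hf⟩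
    refine ⟨fun z hz => ?_, ρ h v, fun e => hv ?_, hU h P v hf⟩
    · have := hA.nrm.conj_mem _ (h1 ((hs h P z).1 hz)) h
      simpa [mul_assoc] using this
    · rw [← Module.End.one_apply (R := K) v, ← map_one ρ, ← inv_mul_cancel h, map_mul,
        Module.End.mul_apply, e, map_zero]
  let X : SubMulAction H (Subgroup H) :=
    { carrier := {P | Maximal p P}
      smul_mem' := fun h P hP => ⟨hp' h P hP.1, fun Q hQ hle z hz => by
        refine (hs h P z).2 (hP.2 (hp' h⁻¹ Q hQ) (fun y hy => ?_) ?_)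
        · exact (hs _ _ _).2 (hle ((hs _ _ _).2 (by simpa [mul_assoc] using hy)))
        · exact (hs _ _ _).2 (by simpa [mul_assoc] using hz)⟩ }
  obtain ⟨K0, -, hK0⟩ := exists_maximal_ge_of_wellFoundedGT p ⊥
    ⟨bot_le, v1, hv1, fun y hy => by rw [mem_bot.1 hy, map_one]; rfl⟩
  refine imprim X U hU (fun P hP => ?_) (fun ι z hz hX F w hw h0 i hi => ?_) ?_ hM
  · obtain ⟨v, hv, hf⟩ := hP.1.2
    exact (Submodule.ne_bot_iff _).2 ⟨v, hf, hv⟩
  · have h1 := congrArg (av ρ (z i)) h0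
    rw [map_sum, map_zero, Finset.sum_eq_single_of_mem i hi fun j _ hji => ?_,
      av_of_fx (card_ne hr hp (hX i).1.1) (hw i)] at h1
    · exact h1
    · by_contra hne
      have h2 := fx_sup_av (P := z i) (P' := z j) (ρ := ρ) (fun x hx y hy => by
        rw [(hab x ((hX j).1.1 hx) y ((hX i).1.1 hy)).eq, mul_inv_cancel_right]; exact hy) (hw j)
      have h3 : z j ≤ z i := le_sup_right.trans
        ((hX i).2 ⟨sup_le (hX i).1.1 (hX j).1.1, _, hne, h2⟩ le_sup_left)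
      exact hji (hz (le_antisymm h3 ((hX j).2 (hX i).1 h3)))
  · by_contra hfix
    push Not at hfix
    obtain ⟨hle, v0, hv0, hf0⟩ := hK0.1
    have hty : Ty ρ A K0 v0 := ⟨hle, hf0, fun κ h1 h2 => by
      by_contra h
      exact h1.not_ge (hK0.2 ⟨h2, _, h, fx_av v0⟩ h1.le)⟩
    have hAA : ⁅A, A⁆ ≤ K0 := commutator_le.2 fun a ha b hb => by
      rw [(hab a ha b hb).commutator_eq]; exact K0.one_mem
    obtain ⟨y, hy, hcyc⟩ := hty.cyclic hr hp hv0 hAA
    have h1 := comm_le hR hA.nrm hAA (fun t ht a ha => by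
      rw [← hfix t ht K0 hK0, hs]
      simpa [mul_assoc] using ha) hy hcyc
    rw [hA.eq] at h1
    exact not_fx hρ hI hA.nrm hA.ne hv0 fun z hz => hf0 z (h1 hz)

/-- The nonabelian nilpotent case. -/
theorem case_nil {S : Type} [Group S] {φ : H →* S} (hd : Hd φ R) (hρ : Function.Injective ρ)
    (hI : Irr ρ) (hA : Mn R A) (hc : ⁅A, A⁆ ≤ centralizer (R : Set H))
    (hab : ∃ a ∈ A, ∃ b ∈ A, ¬ Commute a b) (hs : φ s ≠ 1) (hN : rk (ρ s - 1) ≤ N)
    (hL : Lo R (4 * N)) : False := by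
  have := hd.nrm
  have := hA.nrm
  have hAR : ¬ A ≤ centralizer (R : Set H) := fun h =>
    hA.ne (hA.eq.symm.trans (commutator_eq_bot_iff_le_centralizer.2 h))
  obtain ⟨a, ha, hy⟩ : ∃ a ∈ A, ⁅s, a⁆ ∉ centralizer (R : Set H) := by
    by_contra hall
    push Not at hall
    let q := QuotientGroup.mk' (centralizer (R : Set H))
    have : (A.map q).Normal := hA.nrm.map q (QuotientGroup.mk'_surjective _)
    have hJ : ((centralizer ((A.map q : Subgroup _) : Set (H ⧸ centralizer (R : Set H)))).comap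
      q).Normal := inferInstance
    have key : ∀ h : H, h ∈ (centralizer ((A.map q : Subgroup _) :
        Set (H ⧸ centralizer (R : Set H)))).comap q ↔
        ∀ a ∈ A, ⁅h, a⁆ ∈ centralizer (R : Set H) := fun h => by
      have e : ∀ a : H, ⁅h, a⁆ ∈ centralizer (R : Set H) ↔ q a * q h = q h * q a := fun a => by
        rw [← QuotientGroup.eq_one_iff, eq_comm (a := q a * q h),
          ← commutatorElement_eq_one_iff_mul_comm, ← map_commutatorElement]
        rfl
      rw [mem_comap, mem_centralizer_iff]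
      exact ⟨fun h1 a ha => (e a).2 (h1 _ ⟨a, ha, rfl⟩), fun h1 _ ⟨a, ha, e'⟩ =>
        e' ▸ (e a).1 (h1 a ha)⟩
    have h1 := hd.min _ (fun r _ y hy => hJ.conj_mem y hy r) s ((key s).2 hall) hs
    refine hAR (hA.eq.ge.trans ?_)
    rw [commutator_comm]
    exact commutator_le.2 fun r hr a ha => (key r).1 (h1 hr) a ha
  have hyA : ⁅s, a⁆ ∈ A := A.mul_mem (hA.nrm.conj_mem a ha s) (A.inv_mem ha)
  obtain ⟨b, hb, hz⟩ : ∃ b ∈ A, ⁅⁅s, a⁆, b⁆ ≠ 1 := by
    by_contra hall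
    push Not at hall
    rcases hA.min (A ⊓ centralizer (A : Set H)) inferInstance inf_le_left with h | h
    · exact hy (h ⟨hyA, fun b hb =>
        (commutatorElement_eq_one_iff_mul_comm.1 (hall b hb)).symm⟩)
    · obtain ⟨x, hx, y, hy', hxy⟩ := hab
      exact hxy ((h.ge hy').2 x hx)
  have hzc : ⁅⁅s, a⁆, b⁆ ∈ centralizer (R : Set H) := hc (commutator_mem_commutator hyA hb)
  obtain ⟨w, hw, hw0⟩ := exists_range hρ hz
  obtain ⟨r, hr, hr1⟩ := hd.ne
  exact not_fx hρ hI hd.nrm (fun e => hr1 (by rw [mem_bot.1 (e.le hr), map_one])) hw0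
    (Lo.fx ρ hL (fun y hy _ hw => range_inv (hzc y hy) hw) (rk_comm2 hN a b) w hw)

/-- Commuting perfect groups which act nontrivially on a space. -/
theorem card_le_sq {J : Type} [Finite J] (L : J → Subgroup H) (hp : ∀ j, ⁅L j, L j⁆ = L j)
    (hc : ∀ i j, i ≠ j → ∀ a ∈ L i, ∀ b ∈ L j, Commute a b) (W : Submodule K V) (I : Set J)
    (hW : ∀ i ∈ I, Iv ρ (L i) W) (hn : ∀ i ∈ I, ∃ w ∈ W, ¬ Fx ρ (L i) w) :
    I.ncard ≤ Module.finrank K W * Module.finrank K W := by
  have h1 : ∀ i : I, ∃ a ∈ L i, ∃ b ∈ L i, ∃ w ∈ W, ρ a (ρ b w) ≠ ρ b (ρ a w) := by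
    intro i
    by_contra hall
    push Not at hall
    obtain ⟨w, hw, hf⟩ := hn i i.2
    let F : Subgroup H :=
      { carrier := {y | ρ y w = w}
        one_mem' := by simp
        mul_mem' := fun {x y} hx hy => by
          change ρ (x * y) w = w
          rw [map_mul, Module.End.mul_apply, hy, hx]
        inv_mem' := fun {x} hx => by
          change ρ x⁻¹ w = w
          conv_lhs => rw [← hx]
          rw [← Module.End.mul_apply, ← map_mul, inv_mul_cancel, map_one, Module.End.one_apply] }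
    have hF : ⁅L i, L i⁆ ≤ F := commutator_le.2 fun a ha b hb => by
      change ρ ⁅a, b⁆ w = w
      have e := hall a ha b hb _ (hW i i.2 _ (inv_mem ha) _ (hW i i.2 _ (inv_mem hb) w hw))
      rw [commutatorElement_def, map_mul, map_mul, map_mul, Module.End.mul_apply,
        Module.End.mul_apply, Module.End.mul_apply, e, ← Module.End.mul_apply (ρ a), ← map_mul,
        mul_inv_cancel, map_one, Module.End.one_apply, ← Module.End.mul_apply, ← map_mul,
        mul_inv_cancel, map_one, Module.End.one_apply]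
    exact hf fun y hy => hF ((hp i).ge hy)
  choose a ha b hb w hw hne using h1
  have := Fintype.ofFinite I
  have hli : LinearIndependent K fun i : I =>
      ((ρ (a i)).restrict (hW i i.2 _ (ha i)) : Module.End K W) := by
    rw [Fintype.linearIndependent_iff]
    intro g hg j
    have h2 : ∀ u ∈ W, ∑ i, g i • ρ (a i) u = 0 := fun u hu => by
      have := congrArg (fun T : Module.End K W => (T ⟨u, hu⟩ : V)) hg
      simpa using this
    have h3 := congrArg (ρ (b j)) (h2 _ (hw j))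
    have h4 := h2 _ (hW j j.2 _ (hb j) _ (hw j))
    rw [map_sum, map_zero] at h3
    have h5 : ∑ i, g i • (ρ (a i) (ρ (b j) (w j)) - ρ (b j) (ρ (a i) (w j))) = 0 := by
      simp only [map_smul] at h3
      simp only [smul_sub, Finset.sum_sub_distrib, h4, h3, sub_zero]
    rw [Finset.sum_eq_single_of_mem j (Finset.mem_univ _) fun i _ hij => ?_, smul_eq_zero,
      sub_eq_zero] at h5
    · exact h5.resolve_right (hne j)
    · rw [← Module.End.mul_apply, ← Module.End.mul_apply, ← map_mul, ← map_mul,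
        (hc i j (fun e => hij (Subtype.ext e)) _ (ha i) _ (hb j)).eq, sub_self, smul_zero]
  have h6 := hli.fintype_card_le_finrank
  rw [Module.finrank_linearMap, ← Nat.card_eq_fintype_card, Nat.card_coe_set_eq] at h6
  exact h6

/-- The component case. -/
theorem case_cs [Finite H] {J : Type} [Finite J] [MulAction H J] {L : J → Subgroup H}
    (hρ : Function.Injective ρ) (hI : Irr ρ) (hA : Mn R A) (hL : Cs R A L)
    (hN : rk (ρ s - 1) ≤ N) (hM : Mov R s (3 * (N + 1))) (hS : Sm R (4 * N * (4 * N) + 1)) :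
    False := by
  classical
  obtain ⟨j0⟩ : Nonempty J := by
    by_contra h
    rw [not_nonempty_iff] at h
    exact hA.ne (by rw [← hL.sup, iSup_of_empty])
  obtain ⟨j, hj⟩ : ∃ j : J, s • j ≠ j := by
    obtain ⟨r, hr, hr'⟩ := hL.mov j0
    exact Set.nonempty_of_ncard_ne_zero (Nat.ne_zero_of_lt (hM J ⟨r, hr, j0, hr'⟩))
  obtain ⟨a, ha, b, hb, hab⟩ := (hL.qs j).noncomm
  have hc : ∀ y ∈ L j, Commute (s * a * s⁻¹) y := fun y hy =>
    hL.comm _ _ hj _ (hL.conj s j a ha) y hy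
  have hy : ⁅⁅s, a⁆, b⁆ = ⁅a⁻¹, b⁆ := by
    have h1 : ⁅a⁻¹, b⁆ ∈ L j := (hL.qs j).perf.le (commutator_mem_commutator (inv_mem ha) hb)
    calc ⁅⁅s, a⁆, b⁆ = (s * a * s⁻¹) * (⁅a⁻¹, b⁆ * b) * (s * a * s⁻¹)⁻¹ * b⁻¹ := by
          simp only [commutatorElement_def]; group
      _ = ⁅a⁻¹, b⁆ := by
          rw [(hc _ (mul_mem h1 hb)).eq, mul_inv_cancel_right, mul_inv_cancel_right]
  have hyL : ⁅⁅s, a⁆, b⁆ ∈ L j :=
    hy ▸ (hL.qs j).perf.le (commutator_mem_commutator (inv_mem ha) hb)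
  have hy1 : ⁅⁅s, a⁆, b⁆ ≠ 1 := fun e => hab (by
    rw [hy, commutatorElement_eq_one_iff_commute] at e
    exact Commute.inv_left_iff.1 e)
  obtain ⟨w, hw, hw0⟩ := exists_range hρ hy1
  let U : Set J → Submodule K V := fun I =>
    { carrier := {v | ∀ i, i ∉ I → Fx ρ (L i) v}
      add_mem' := fun ha hb i hi y hy => by rw [map_add, ha i hi y hy, hb i hi y hy]
      zero_mem' := fun _ _ y _ => map_zero _
      smul_mem' := fun c v hv i hi y hy => by rw [map_smul, hv i hi y hy] }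
  have hU : ∀ (h : H) (I : Set J), ∀ v ∈ U I, ρ h v ∈ U (h • I) := fun h I v hv i hi y hy =>
    fx_conj (hv (h⁻¹ • i) (fun e => hi (Set.mem_smul_set_iff_inv_smul_mem.2 e)) _
      (by simpa using hL.conj h⁻¹ i y hy))
  let p : Set J → Prop := fun I => ∃ v ∈ U I, v ≠ 0
  have hp' : ∀ (h : H) (I : Set J), p I → p (h • I) := by
    rintro h I ⟨v, hv, hv0⟩
    refine ⟨ρ h v, hU h I v hv, fun e => hv0 ?_⟩
    rw [← Module.End.one_apply (R := K) v, ← map_one ρ, ← inv_mul_cancel h, map_mul,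
      Module.End.mul_apply, e, map_zero]
  let X : SubMulAction H (Set J) :=
    { carrier := {I | Minimal p I}
      smul_mem' := fun h I hI => ⟨hp' h I hI.1, fun Q hQ hle =>
        Set.smul_set_subset_iff_subset_inv_smul_set.2
          (hI.2 (hp' h⁻¹ Q hQ) (Set.subset_smul_set_iff.1 hle))⟩ }
  set I1 : Set J := {i | i ≠ j ∧ ∃ u ∈ LinearMap.range (ρ ⁅⁅s, a⁆, b⁆ - 1), ¬ Fx ρ (L i) u}
    with hI1
  have hc1 : I1.ncard ≤ 4 * N * (4 * N) :=
    (card_le_sq L (fun i => (hL.qs i).perf) hL.comm _ I1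
      (fun i hi y hy' _ hu => range_inv (hL.comm i j hi.1 y hy' _ hyL) hu)
      fun i hi => hi.2).trans (Nat.mul_le_mul (rk_comm2 hN a b) (rk_comm2 hN a b))
  obtain ⟨I, hI0, hIm⟩ := exists_minimal_le_of_wellFoundedLT p (insert j I1)
    ⟨w, fun i hi => by
      by_contra hf
      exact hi (Set.mem_insert_iff.2 ((eq_or_ne i j).imp_right fun e => ⟨e, w, hw, hf⟩)), hw0⟩
  refine (imprim X U hU (fun Q hQ => (Submodule.ne_bot_iff _).2 hQ.1)
    (fun ι z hz hX F => ?_) ?_ hM).not_ge hN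
  · induction F using Finset.strongInduction with
    | H F ih =>
      intro u hu h0 i hi
      by_cases hF : ∀ k ∈ F, k = i
      · rwa [Finset.sum_eq_single_of_mem i hi fun k hk hki => absurd (hF k hk) hki] at h0
      · push Not at hF
        obtain ⟨k, hk, hki⟩ := hF
        obtain ⟨m, hm, hm'⟩ : ∃ m ∈ z i, m ∉ z k := Set.not_subset.1 fun hle =>
          hki (hz (le_antisymm ((hX k).2 (hX i).1 hle) hle))
        have hfix : Fx ρ (L m) (u i) := by
          intro y hy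
          have h1 : ∀ t, ρ y (u t) - u t ∈ U (z t) := by
            intro t n hn x hx
            by_cases hnm : n = m
            · subst hnm
              rw [hu t n hn y hy, sub_self, map_zero]
            · rw [map_sub, ← Module.End.mul_apply, ← map_mul, (hL.comm n m hnm x hx y hy).eq,
                map_mul, Module.End.mul_apply, hu t n hn x hx]
          have h2 : ∑ t ∈ F.erase k, (ρ y (u t) - u t) = 0 := by
            rw [Finset.sum_erase _ (by rw [hu k m hm' y hy, sub_self]), Finset.sum_sub_distrib,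
              ← map_sum, h0, map_zero, sub_zero]
          exact sub_eq_zero.1 (ih _ (Finset.erase_ssubset hk) _ h1 h2 i
            (Finset.mem_erase.2 ⟨Ne.symm hki, hi⟩))
        by_contra hne
        have h3 : p (z i \ {m}) := ⟨u i, fun n hn => by
          by_cases hnm : n = m
          · exact hnm ▸ hfix
          · exact hu i n fun e => hn ⟨e, hnm⟩, hne⟩
        exact ((hX i).2 h3 Set.sdiff_subset hm).2 rfl
  · by_contra hfix
    push Not at hfix
    obtain ⟨i, hi⟩ : I.Nonempty := by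
      by_contra he
      rw [Set.not_nonempty_iff_eq_empty] at he
      obtain ⟨v, hv, hv0⟩ := hIm.1
      refine not_fx hρ hI hA.nrm hA.ne hv0 fun y hy => ?_
      rw [← hL.sup] at hy
      refine iSup_induction L (C := fun y => ρ y v = v) hy
        (fun n y hy => hv n (by simp [he]) y hy) (by simp) fun x y hx hy => ?_
      rw [map_mul, Module.End.mul_apply, hy, hx]
    have h1 := hS.orbit (hL.mov i)
    have h2 : MulAction.orbit R i ⊆ insert j I1 := by
      rintro _ ⟨r, rfl⟩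
      refine hI0 ?_
      rw [← hfix r r.2 I hIm]
      exact Set.smul_mem_smul_set hi
    have h3 := (Set.ncard_le_ncard h2).trans (Set.ncard_insert_le j I1)
    omega

end RkP

open RkP in
theorem rkStmt (h : AaStmt) : RkStmt := by
  intro N
  refine ⟨4 * N * (4 * N) + 1 + 4 * N + 3 * (N + 1),
    fun l _ H S K V _ _ _ _ _ _ _ _ φ R ρ s hd hs hρ hI h1 hN hM hS hL => ?_⟩
  by_contra hne
  obtain ⟨A, hA, -, hcase⟩ := h H S φ R hd hs hne
  have hM' : Mov R s (3 * (N + 1)) := hM.mono (by omega)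
  rcases hcase with ⟨r, hr, hp, hc, -⟩ | ⟨J, _, _, L, hC⟩
  · by_cases hab : ∃ a ∈ A, ∃ b ∈ A, ¬ Commute a b
    · exact case_nil hd hρ hI hA hc hab h1 hN (hL.mono (by omega))
    · push Not at hab
      have := Fact.mk hr
      obtain ⟨w, -, hw⟩ := exists_range hρ (z := s) fun e => h1 (by rw [e, map_one])
      have : Nontrivial V := nontrivial_of_ne w 0 hw
      have hrK : (r : K) ≠ 0 := fun e => by
        obtain rfl : l = r :=
          (Nat.prime_dvd_prime_iff_eq Fact.out hr).1 ((CharP.cast_eq_zero_iff K l r).1 e)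
        exact hA.ne (eq_bot_iff.2 fun y hy =>
          hρ ((PT.Coef.triv_of_simple hI A hA.nrm hp hy).trans ρ.map_one.symm))
      exact (case_ab hrK hρ hI hd.perf hA hp hab hw hM').not_ge hN
  · exact case_cs hρ hI hA hC hN hM' (hS.mono (by omega))

end Pool.Agent.Lib.MP_679d9b_al.KG
end
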